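import Pool.Agent.P.MP_f1a348_lc.GY.DefsZ

/-! Graph isomorphism: views of the states, flags and their potential, the rules of the game. -/

set_option autoImplicit false
set_option linter.unusedSectionVars false

namespace Pool.Agent.P.MP_f1a348_lc.GX

open Equiv Finset MulAction
open scoped Classical

/-- the number of binary digits -/
def bl (x : ℕ) : ℕ := x.bits.length

/-- the part of the potential of a level that pays the expensive moves -/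
noncomputable def hh (LL : ℝ) (q : ℕ) : ℝ := HH LL q / LL - (if 2 ≤ q then 2 ^ 14 else 0)

/-- the price of a choice among `z` named points -/
def lc (z : ℕ) : ℕ := 4 * bl z + 20

/-- the degree of transitivity that is used for a level with `a` points -/
def ta (a : ℕ) : ℕ := 100 * (Nat.clog 2 a + 1) + 3

/-- the parameters -/
structure Pm where
  /-- all sets have at most `2 ^ lam` points -/
  lam : ℕ
  /-- the bound for levels -/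
  N1 : ℕ
  /-- the level of the systems -/
  M : ℕ
  /-- the length of the tuples whose orbits get labels -/
  mm : ℕ

namespace Pm
variable (P : Pm)
/-- the bound for supports -/
def s : ℕ := 4 * P.lam + 6
/-- the length of the test tuples -/
def t : ℕ := 100 * (P.lam + 1) + 3
/-- the degree of transitivity -/
def tau : ℕ := P.t + P.s
/-- the price of a generic move -/
def g : ℕ := 16 * (P.lam + 1)
/-- the price of a call of the local certificates -/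
def cst (o : ℕ) : ℕ := P.g + 4 * P.t * bl o
/-- the threshold of the step -/
def t0 : ℕ := 4 * P.tau + 2 ^ 64
/-- the parameter of the potential -/
noncomputable def LL : ℝ := lg (P.lam + 2)
/-- the number of bits for one unit of potential -/
def unit : ℕ := 2 ^ 70 * (P.lam + 1)
/-- the potential of a level with `a` points whose records lie in named sets with at most `m`
points and have the measures `n1`, `n2` -/
noncomputable def LV (a m : ℕ) (n1 n2 : ℝ) : ℝ :=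
  hh P.LL a + lg m * (n1 + n2 + 2 ^ 17 * lg a) / (P.lam + 1)
/-- the conditions on the parameters -/
structure Ok : Prop where
  m1 : 2 * P.tau + 4 ≤ P.M
  m2 : P.mm + 6 ≤ P.M
  m3 : 2 ≤ P.mm
  n1 : P.N1 ≤ 2 ^ P.lam
end Pm

/-- `Γ'` refines the image of `Γ` under `e` on pairs -/
structure Sy.RefE {Y : Type} [DecidableEq Y] (Γ Γ' : Sy Y) (e : Y → Y) : Prop where
  inj : Set.InjOn e Γ.D
  mem : ∀ a ∈ Γ.D, e a ∈ Γ'.D
  ref : ∀ a ∈ Γ.D, ∀ b ∈ Γ.D, ∀ a' b', Γ'.E2 (e a) (e b) a' b' →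
    ∃ a0 b0, a' = e a0 ∧ b' = e b0 ∧ Γ.E2 a b a0 b0

variable {G Y : Type} [Group G] [MulAction G Y] [DecidableEq Y]

/-- the orbit inside `D` -/
noncomputable def orb (H : Subgroup G) (D : Finset Y) (z : Y) : Finset Y :=
  D.filter (fun y => ∃ h ∈ H, h • z = y)

/-- the pointwise stabiliser -/
def fixF (G : Type) [Group G] [MulAction G Y] (A : Finset Y) : Subgroup G :=
  ⨅ p ∈ A, stabilizer G p

theorem mem_fixF {A : Finset Y} {h : G} : h ∈ fixF G A ↔ ∀ p ∈ A, h • p = p := by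
  simp [fixF, Subgroup.mem_iInf]

/-- the system of the orbits of `H` -/
noncomputable def sys1 (M : ℕ) (H : Subgroup G) (D : Finset Y) : Sy Y where
  D := D.filter (fun x => ∀ h ∈ H, h • x ∈ D)
  M := M
  L A f := A ⊆ D.filter (fun x => ∀ h ∈ H, h • x ∈ D) ∧ ∃ h ∈ H, ∀ x ∈ A, f x = h • x
  sub := fun ⟨h1, h, h2, h3⟩ x hx => ⟨h1 hx, by
    have := (mem_filter.1 (h1 hx)).2
    rw [h3 x hx]
    exact mem_filter.2 ⟨this h h2, fun k hk => mul_smul k h x ▸ this _ (H.mul_mem hk h2)⟩⟩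
  loc := fun ⟨h1, h, h2, h3⟩ hB e => ⟨hB.trans h1, h, h2, fun x hx => by
    rw [e x hx, h3 x (hB hx)]⟩
  one := fun h => ⟨h, 1, H.one_mem, fun _ _ => by simp⟩
  inv := fun {A f} ⟨h1, h, h2, h3⟩ => ⟨fun x hx => by
      obtain ⟨y, hy, rfl⟩ := mem_image.1 hx
      have := (mem_filter.1 (h1 hy)).2
      rw [h3 y hy]
      exact mem_filter.2 ⟨this h h2, fun k hk => mul_smul k h y ▸ this _ (H.mul_mem hk h2)⟩,
    h⁻¹, H.inv_mem h2, fun x hx => by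
      obtain ⟨y, hy, rfl⟩ := mem_image.1 hx
      rw [eq_inv_smul_iff, ← h3 _ (by simpa using hy)]; simp⟩
  mul := fun {A f f'} ⟨h1, h, h2, h3⟩ ⟨_, k, k2, k3⟩ => ⟨h1, k * h, H.mul_mem k2 h2, fun x hx => by
    rw [Perm.mul_apply, k3 _ (mem_image_of_mem _ hx), h3 x hx, mul_smul]⟩
  ext := fun {A f} ⟨h1, h, h2, h3⟩ _ => ⟨toPerm h, fun w => by
      simp only [mem_filter, toPerm_apply]
      refine ⟨fun a => ⟨a.2 h h2, fun k hk => mul_smul k h w ▸ a.2 _ (H.mul_mem hk h2)⟩,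
        fun a => ⟨by simpa using a.2 _ (H.inv_mem h2), fun k hk => ?_⟩⟩
      simpa [mul_smul] using a.2 _ (H.mul_mem hk (H.inv_mem h2)),
    fun w hw => ⟨toPerm h, fun x hx => (h3 x hx).symm, rfl, insert_subset hw h1, h, h2,
      fun _ _ => rfl⟩⟩

/-- fixing `z` in addition to `w` destroys no large giant action -/
def AlgPt (m : ℕ) (H : Subgroup G) (w z : Y) : Prop :=
  ∀ F ≤ H, ∀ Q : Finset Y, m ≤ Q.card → InvF F Q → Giant (F ⊓ stabilizer G w) Q →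
    Giant (F ⊓ stabilizer G w ⊓ stabilizer G z) Q

/-- the levels of the list `k` have potential at most `Φ`; `U1`, `U2` are the named sets -/
def Ch (P : Pm) (D : Finset Y) (Γ : Sy Y) (U1 U2 : Finset Y → Prop) :
    Subgroup G → List Y → ℝ → Prop
  | _, [], Φ => 0 ≤ Φ
  | H, z :: k, Φ => z ∈ D ∧ ∃ (m : ℕ) (n1 n2 : ℝ), (orb H D z).card ≤ m ∧ m ≤ P.N1 ∧
      (sys1 P.M H D).GoodU U1 P.N1 m (orb H D z) n1 ∧
      Γ.GoodU U2 P.N1 m (orb H D z ∩ Γ.cls z) n2 ∧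
      Ch P D Γ U1 U2 (H ⊓ stabilizer G z) k (Φ - P.LV (orb H D z).card m n1 n2)

/-- a view: the group, the points it acts on, the active points, the system of the structure, the
named sets of points of the group, the named sets of points of the structure, the named relations -/
structure Vw (G Y : Type) [Group G] [DecidableEq Y] where
  H : Subgroup G
  D : Finset Y
  X : Finset Y
  Γ : Sy Y
  F1 : Finset Y → Prop
  F2 : Finset Y → Prop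
  FR : (Y → Y → Prop) → Prop

namespace Vw
variable (P : Pm) (v v' : Vw G Y)

structure Ok : Prop where
  fin : Finite v.H
  inv : InvF v.H v.D
  xd : v.X ⊆ v.D
  dd : v.D ⊆ v.Γ.D
  lev : v.Γ.M = P.M
  card : v.Γ.D.card ≤ 2 ^ P.lam

/-- a later view -/
structure Mono : Prop where
  h : v'.H ≤ v.H
  d : v.D ⊆ v'.D
  x : v'.X ⊆ v.X
  dd : v.Γ.D ⊆ v'.Γ.D
  l : ∀ A ⊆ v.Γ.D, ∀ f, v'.Γ.L A f → v.Γ.L A f
  f1 : ∀ Z, v.F1 Z → v'.F1 Z
  f2 : ∀ Z, v.F2 Z → v'.F2 Z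
  fr : ∀ R, v.FR R → v'.FR R

/-- a later view in which the structure is moved by an element of the group and renamed -/
def Emb : Prop :=
  v'.H ≤ v.H ∧ v'.D = v.D ∧ (∀ Z, v.F1 Z → v'.F1 Z) ∧ ∃ α ∈ v.H, ∃ e : Y → Y, v.Γ.RefE v'.Γ e ∧
    (∀ Z, v.F2 Z → v'.F2 (Z.image e)) ∧
    (∀ z ∈ v.Γ.D, e z ∈ v.D → e z = α⁻¹ • z) ∧
    ∀ w ∈ v'.X, α • w ∈ v.X ∧ ∀ z ∈ v.D, AlgPt P.tau v.H (α • w) z → e z = α⁻¹ • z

/-- a later view with the same group and the same systems -/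
structure Same : Prop where
  mono : v.Mono v'
  h : v'.H = v.H
  d : v'.D = v.D
  g : v'.Γ = v.Γ

/-- the orbit -/
noncomputable def o (z : Y) : Finset Y := orb v.H v.D z

/-- the system of the orbits -/
noncomputable def Γ1 : Sy Y := sys1 P.M v.H v.D

/-- the named invariant sets -/
def U1 (Z : Finset Y) : Prop := v.F1 Z ∧ InvF v.H Z

/-- the system of the orbits or the system of the structure -/
noncomputable def sy (i : Bool) : Sy Y := bif i then v.Γ1 P else v.Γ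

/-- the named sets for the system `i` -/
def U (i : Bool) : Finset Y → Prop := bif i then v.U1 else v.F2

/-- the moves for the structure keep the group -/
def Kp (i : Bool) : Prop := i = false → v'.H = v.H ∧ v'.D = v.D

/-- the orbits of the group on short tuples are labelled -/
def OL : Prop :=
  ∀ A ⊆ v.D, A.card ≤ P.mm → ∀ f, v.Γ.L A f → ∃ h ∈ v.H, ∀ x ∈ A, f x = h • x

/-- the list `k` determines `w` and is algebraic over it -/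
def Det (w : Y) (k : List Y) : Prop :=
  v.H ⊓ fixF G k.toFinset ≤ stabilizer G w ∧ ∀ z ∈ k, AlgPt P.tau v.H w z

/-- the point `w` has potential at most `Φ` -/
def Pt (w : Y) (Φ : ℝ) : Prop := ∃ k, Ch P v.D v.Γ v.U1 v.F2 v.H k Φ ∧ v.Det P w k

/-- the point `w` has a flag with head `u` whose tail has potential at most `Φ` -/
def Tl (w u : Y) (Φ : ℝ) : Prop :=
  ∃ k, Ch P v.D v.Γ v.U1 v.F2 (v.H ⊓ stabilizer G u) k Φ ∧ v.Det P w (u :: k)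

/-- `O` is an orbit -/
def IsO (O : Finset Y) : Prop := O.Nonempty ∧ O ⊆ v.D ∧ ∀ u ∈ O, v.o u = O

/-- new points `b x` for the points of `C`, permuted by the group, linked in the structure -/
structure Nw (C : Finset Y) (b : Y → Y) : Prop where
  mem : ∀ x ∈ C, b x ∈ v.D
  eqv : ∀ h ∈ v.H, ∀ x ∈ C, h • x ∈ C ∧ b (h • x) = h • b x
  inv : v.Γ.Inv2 (fun x y => x ∈ C ∧ y = b x)

/-- all active points have flags with heads in the orbit `A` -/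
structure Hd (A : Finset Y) (m : ℕ) (n1 n2 Φ' Φ : ℝ) : Prop where
  o : v.IsO A
  am : A.card ≤ m
  n : m ≤ P.N1
  g1 : (v.Γ1 P).GoodU v.U1 P.N1 m A n1
  tl : ∀ w ∈ v.X, ∃ u ∈ A, v.Tl P w u Φ' ∧ v.Γ.GoodU v.F2 P.N1 m (A ∩ v.Γ.cls u) n2
  sum : Φ' + P.LV A.card m n1 n2 ≤ Φ

/-- the named relation `R` gives the heads -/
structure Hr (R : Y → Y → Prop) (A : Finset Y) (m : ℕ) (n2 Φ' : ℝ) : Prop where
  fr : v.FR R
  ex : ∀ w ∈ v.X, ∃ u ∈ A, R w u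
  tl : ∀ w ∈ v.X, ∀ u ∈ A, R w u →
    v.Tl P w u Φ' ∧ v.Γ.GoodU v.F2 P.N1 m (A ∩ v.Γ.cls u) n2
end Vw

/-- cheap moves inside the named set `Z` for the system `i`, then the fuel suffices -/
inductive Bat (P : Pm) (W : ℕ → Vw G Y → Prop) (i : Bool) : ℕ → Vw G Y → Finset Y → Prop
  | stop (φ : ℕ) (v : Vw G Y) (Z : Finset Y) : P.g ≤ φ → W (φ - P.g) v → Bat P W i φ v Z
  | pin (φ : ℕ) (v : Vw G Y) (Z C Q : Finset Y) : (v.sy P i).Cls C → C ⊆ Z → Q ⊆ C →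
      Q.card + 2 ≤ P.M → lc Z.card + 2 * Q.card * bl C.card ≤ φ →
      (∀ v' : Vw G Y, v'.Ok P → v.Mono v' → v.Kp v' i → ((v.sy P i).pin Q).Ref (v'.sy P i) →
        Bat P W i (φ - (lc Z.card + 2 * Q.card * bl C.card)) v' Z) → Bat P W i φ v Z
  | quo (φ : ℕ) (v : Vw G Y) (Z C : Finset Y) (prs : List (Y × Y)) : (v.sy P i).Cls C → C ⊆ Z →
      C.card ≤ P.N1 → (∀ q ∈ prs, q.1 ∈ C ∧ q.2 ∈ C) → 2 ^ prs.length ≤ C.card →
      lc Z.card + 4 * prs.length * bl C.card ≤ φ →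
      (∀ (v' : Vw G Y) (b : Y → Y), v'.Ok P → v.Mono v' → v.Kp v' i →
        (v.sy P i).Blk (v'.sy P i) C prs b → v'.U i (C.image b) →
        Bat P W i (φ - (lc Z.card + 4 * prs.length * bl C.card)) v' (C.image b)) →
      Bat P W i φ v Z

/-- the rules; `W φ v` says that the fuel `φ` suffices for the view `v` -/
structure Rules (P : Pm) (W : ℕ → Vw G Y → Prop) : Prop where
  leaf : ∀ φ (v : Vw G Y), v.Ok P → InvF v.H v.X → W φ v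
  uni : ∀ φ (v : Vw G Y), v.Ok P → P.g ≤ φ →
    (∀ v' : Vw G Y, v'.Ok P → v.Mono v' → v'.OL P → (∀ w ∈ v'.X, ∀ w' ∈ v'.X, v'.Γ.E1 w w') →
      W (φ - P.g) v') → W φ v
  pin1 : ∀ φ (v : Vw G Y) p (Q : Finset Y), v.Ok P → p ∈ v.D → Q ⊆ v.o p →
    P.g + 2 * Q.card * bl (v.o p).card ≤ φ →
    (∀ v' : Vw G Y, v'.Ok P → v.Mono v' → v'.H ≤ fixF G Q →
      W (φ - (P.g + 2 * Q.card * bl (v.o p).card)) v') → W φ v
  pin2 : ∀ φ (v : Vw G Y) p (Q : Finset Y), v.Ok P → p ∈ v.Γ.D → Q ⊆ v.Γ.cls p →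
    P.g + 2 * Q.card * bl (v.Γ.cls p).card ≤ φ →
    (∀ v' : Vw G Y, v'.Ok P → v.Mono v' → v'.H = v.H → v'.D = v.D →
      (∀ x ∈ Q, ∀ y, v'.Γ.E1 x y → y = x) →
      W (φ - (P.g + 2 * Q.card * bl (v.Γ.cls p).card)) v') → W φ v
  quo1 : ∀ φ (v : Vw G Y) (C : Finset Y) (prs : List (Y × Y)), v.Ok P → v.IsO C →
    C.card ≤ P.N1 → (∀ q ∈ prs, q.1 ∈ C ∧ q.2 ∈ C) → P.g * (2 * prs.length + 1) ≤ φ →
    (∀ (v' : Vw G Y) (b : Y → Y), v'.Ok P → v.Mono v' → v'.H = v.H → v'.Nw C b →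
      (∀ x ∈ C, ∀ y ∈ C, b x = b y ↔ Relation.EqvGen ((v.Γ1 P).Rel C prs) x y) →
      W (φ - P.g * (2 * prs.length + 1)) v') → W φ v
  red0 : ∀ φ (v : Vw G Y) (O : Finset Y), v.Ok P → v.IsO O → Giant v.H O → P.g ≤ φ →
    (∀ v' : Vw G Y, v'.Ok P → v.Mono v' → v'.D = v.D → v'.Γ = v.Γ →
      (∀ h, h ∈ v'.H ↔ h ∈ v.H ∧ ∀ u ∈ O, v.Γ.E1 u (h • u)) → W (φ - P.g) v') → W φ v
  redE : ∀ φ (v : Vw G Y) (O A : Finset Y) z z', v.Ok P → v.IsO O → Giant v.H O →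
    O.card ≤ P.N1 → v.Γ.Cls A → A ⊆ O → z ∈ A → z' ∈ A → P.g * 3 ≤ φ →
    (∀ (v' : Vw G Y) (b : Y → Y), v'.Ok P → v.Mono v' →
      (∀ h ∈ v'.H, ∀ u ∈ O, v.Γ.E1 u (h • u)) → v'.Nw A b →
      (∀ x ∈ A, ∀ y ∈ A, b x = b y ↔ Relation.EqvGen (v.Γ.Rel A [(z, z')]) x y) →
      W (φ - P.g * 3) v') → W φ v
  redJ : ∀ φ (v : Vw G Y) (O C : Finset Y) z0 y0 e, v.Ok P → v.IsO O → Giant v.H O →
    v.Γ.Cls O → v.Γ.John O C z0 y0 e → 1 ≤ e → e < C.card → C.card ≤ P.N1 → P.g * 3 ≤ φ →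
    (∀ (v' : Vw G Y) (b : Y → Y), v'.Ok P → v.Mono v' → (∀ y ∈ C, b y ∈ v'.D) →
      (∀ h ∈ v'.H, ∀ y ∈ C, ∃ y' ∈ C, h • b y = b y') →
      (∀ h ∈ v'.H, ∀ y ∈ C, ∀ y' ∈ C, h • b y = b y' → ∀ x ∈ O,
        v.Γ.E2 z0 y0 x y ↔ v.Γ.E2 z0 y0 (h • x) y') →
      W (φ - P.g * 3) v') → W φ v
  giant : ∀ φ (v : Vw G Y) (O : Finset Y) w0 u0, v.Ok P → v.IsO O → Giant v.H O → w0 ∈ v.D →
    u0 ∈ O → (∀ w ∈ v.X, ∃ u ∈ O, v.Γ.E2 w0 u0 w u) →
    (∀ w ∈ v.X, ∀ u ∈ O, v.Γ.E2 w0 u0 w u → AlgPt P.tau v.H w u) →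
    P.g * 2 + P.cst O.card ≤ φ →
    (∀ v' : Vw G Y, v'.Ok P → v.Mono v' →
      (∀ w ∈ v'.X, ∃ u ∈ O, v.Γ.E2 w0 u0 w u ∧ 4 * (v'.o u).card ≤ 3 * O.card) →
      W (φ - P.g * 2) v') →
    (∀ (v' : Vw G Y) (O' : Finset Y), v'.Ok P → v.Mono v' → O' ⊆ O → v'.IsO O' →
      (∀ w ∈ v'.X, ∃ u ∈ O', v.Γ.E2 w0 u0 w u) →
      (O'.card < 4 * P.tau ∨ (4 * P.tau ≤ O'.card ∧ Giant v'.H O' ∧ v'.Γ.Cls O' ∧
        ¬ v'.Γ.Tr O' P.tau)) → W (φ - P.g * 2) v') →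
    (∀ (v' : Vw G Y) (o : ℕ), v'.Ok P → v.Emb P v' → 4 * P.tau ≤ o → o ≤ O.card →
      (∀ w ∈ v'.X, (v'.o w).card * Nat.sqrt o ≤ (v.o w).card) →
      W (φ - P.g * 2 - P.cst o) v') → W φ v
  mark : ∀ φ (v : Vw G Y) w0 u0, v.Ok P → w0 ∈ v.D → u0 ∈ v.D → P.g ≤ φ →
    (∀ v' : Vw G Y, v'.Ok P → v.Same v' → v'.FR (v.Γ.E2 w0 u0) → v'.F1 (v.o u0) →
      v'.F2 (v.o u0) → W (φ - P.g) v') → W φ v
  cut : ∀ φ (v : Vw G Y) (R : Y → Y → Prop) p, v.Ok P → v.FR R → p ∈ v.D → P.g ≤ φ →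
    (∀ v' : Vw G Y, v'.Ok P → v.Same v' → (∀ w ∈ v'.X, ∃ u ∈ v.o p, R w u) → W (φ - P.g) v') →
    (∀ v' : Vw G Y, v'.Ok P → v.Mono v' → (∀ w ∈ v'.X, ∀ u ∈ v.o p, ¬ R w u) →
      W (φ - P.g) v') → W φ v
  bat : ∀ i φ (v : Vw G Y) (Z : Finset Y), v.Ok P → v.U i Z → P.g ≤ φ →
    Bat P W i (φ - P.g) v Z → W φ v

/-- the set `B` is smaller than `A` by a fixed factor -/
def Drop (A B : Finset Y) : Prop := lg B.card + 1 / 12289 ≤ lg A.card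

/-- one expensive move inside `Z` improves the record of `A` by `γ` -/
def Sy.OBig (Γ : Sy Y) (P : Pm) (m : ℕ) (Z A : Finset Y) (ν : ℝ) : Prop :=
  ∃ γ : ℝ, γ ≤ ν ∧ (P.lam : ℝ) + 1 ≤ lg m * γ ∧ ∃ C : Finset Y, Γ.Cls C ∧ C ⊆ Z ∧
    ((∃ Q ⊆ C, Q.card + 3 ≤ P.M ∧
      ((lc Z.card + 2 * Q.card * bl C.card : ℕ) : ℝ) ≤ 2 ^ 11 * (lg m * γ) ∧
      ∀ Γ' : Sy Y, (Γ.pin Q).Ref Γ' → 3 ≤ Γ'.M → ∀ A' ⊆ A, Γ'.Cls A' →
        Γ'.GoodZ P.N1 Z A' (ν - γ)) ∨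
    ∃ prs : List (Y × Y), C.card ≤ P.N1 ∧ (∀ q ∈ prs, q.1 ∈ C ∧ q.2 ∈ C) ∧
      2 ^ prs.length ≤ C.card ∧
      ((lc Z.card + 4 * prs.length * bl C.card : ℕ) : ℝ) ≤ 2 ^ 11 * (lg m * γ) ∧
      ∀ (Γ' : Sy Y) (b : Y → Y), Γ.Blk Γ' C prs b → Γ'.GoodZ P.N1 (C.image b) A (ν - γ))

/-- the end of a run of cheap moves for the set `A`: every class inside `A` has paid, or one large
class waits for an expensive move -/
def Vw.End (P : Pm) (v : Vw G Y) (i : Bool) (A : Finset Y) (m : ℕ) (ν0 : ℝ) : Prop :=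
  (∀ B ⊆ A, (v.sy P i).Cls B → Drop A B ∨
    ∃ γ : ℝ, (P.lam : ℝ) + 1 ≤ lg m * γ ∧ (v.sy P i).GoodU (v.U i) P.N1 m B (ν0 - γ)) ∨
  ∃ A' ⊆ A, (v.sy P i).Cls A' ∧ 3 * A.card < 4 * A'.card ∧
    (∀ B ⊆ A, (v.sy P i).Cls B → B = A' ∨ Drop A B) ∧
    ∃ (Z : Finset Y) (ν : ℝ), ν ≤ ν0 ∧ v.U i Z ∧ Z.card ≤ m ∧ (v.sy P i).GoodZ P.N1 Z A' ν ∧
      ((v.sy P i).Equi A' ∨ (v.sy P i).OKillZ P.t0 A' ∨ (v.sy P i).OJohn P.t0 A' ∨
        (v.sy P i).OBig P m Z A' ν)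

/-- the fuel suffices for all views of potential below `n` -/
def IH (P : Pm) (W : ℕ → Vw G Y → Prop) (n : ℕ) : Prop :=
  ∀ (φ : ℕ) (v : Vw G Y) (Φ : ℝ), v.Ok P → Φ < n → Φ + 2 ≤ P.mm → P.unit * (Φ + 1) ≤ φ →
    (∀ w ∈ v.X, v.Pt P w Φ) → W φ v

/-- the budget at the start of a step -/
structure Bud (P : Pm) (n φ : ℕ) (Φ : ℝ) : Prop where
  lt : Φ < n + 1
  mm : Φ + 2 ≤ P.mm
  fuel : P.unit * (Φ + 1) ≤ φ

end Pool.Agent.P.MP_f1a348_lc.GX
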