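import Pool.Agent.P.MP_f1a348_lc.GX.LibExt
import Pool.Agent.P.MP_f1a348_lc.GY.DefsV

/-! Graph isomorphism: renamed structures. -/

set_option autoImplicit false
set_option linter.unusedSectionVars false

namespace Pool.Agent.P.MP_f1a348_lc.GX

open Equiv Function

variable {α : Type} [DecidableEq α] {M : ℕ} {X X' : Sx α} {e : α → α}

open WL in
/-- a local automorphism of the larger structure comes from one of the renamed structure -/
theorem wsys_pull (he : ∀ x ∈ X.1, ∀ y ∈ X.1, e x = e y → x = y) (hU : ∀ x ∈ X.1, e x ∈ X'.1)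
    (P : ℕ → Prop)
    (hR : ∀ c (l : List α), (∀ x ∈ l, x ∈ X.1) → ((c, l) ∈ X.2 ↔ P c ∧ (c, l.map e) ∈ X'.2))
    (hm : ∀ x ∈ X.1, ∀ y ∈ X'.1, (∀ c, (c, [e x]) ∈ X'.2 ↔ (c, [y]) ∈ X'.2) → ∃ z ∈ X.1, y = e z)
    (hf : 1 ≤ M) {A : Finset α} (hA : ∀ x ∈ A, x ∈ X.1) {f : Perm α}
    (h : (wsys M X').L (A.image e) f) :
    ∃ g : Perm α, (wsys M X).L A g ∧ ∀ x ∈ A, e (g x) = f (e x) := by
  have h0 : ∀ x : {x // x ∈ A}, ∃ z ∈ X.1, f (e x.1) = e z := fun x =>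
    hm x.1 (hA _ x.2) _ (h.1 _ (Finset.mem_image_of_mem _ x.2)).2 fun c =>
      wsys_rel h c (l := [e x.1]) (by simpa using ⟨x.1, x.2, rfl⟩) (by simpa using hf)
  choose z z1 z2 using h0
  obtain ⟨g, hg⟩ := Equiv.Perm.exists_extending_pair (fun x : {x // x ∈ A} => x.1) z
    Subtype.val_injective (fun x y q => Subtype.ext (he _ (hA _ x.2) _ (hA _ y.2)
      (f.injective (by rw [z2, z2, q]))))
  have g1 : ∀ x ∈ A, g x ∈ X.1 := fun x hx => hg ⟨x, hx⟩ ▸ z1 ⟨x, hx⟩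
  have g2 : ∀ x ∈ A, e (g x) = f (e x) := fun x hx => by
    rw [z2 ⟨x, hx⟩, ← hg ⟨x, hx⟩]
  refine ⟨g, ⟨fun x hx => ⟨hA x hx, g1 x hx⟩, fun u v hu hv => ?_⟩, g2⟩
  let ι : {x // x ∈ X.1} → {x // x ∈ X'.1} := fun x => ⟨e x.1, hU _ x.2⟩
  refine Sim.restrict' (r := relOn X') ι
    (fun x y q => Subtype.ext (he _ x.2 _ y.2 (congrArg Subtype.val q :))) P (fun c l => ?_) ?_ ?_
  · rw [relOn, relOn, List.map_map, hR c _ fun x hx => by
      obtain ⟨y, -, rfl⟩ := List.mem_map.1 hx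
      exact y.2, List.map_map]
    rfl
  · rintro _ y q ⟨x, rfl⟩
    obtain ⟨w, w1, w2⟩ := hm x.1 x.2 y.1 y.2 q
    exact ⟨⟨w, w1⟩, Subtype.ext w2.symm⟩
  · exact h.2 (ι ∘ u) (ι ∘ v) (fun i => Finset.mem_image_of_mem _ (hu i)) fun i => by
      change e (v i).1 = f (e (u i).1)
      rw [hv i, g2 _ (hu i)]

/-- a structure that contains a renamed and marked copy refines the image -/
theorem wsys_refE (he : ∀ x ∈ X.1, ∀ y ∈ X.1, e x = e y → x = y) (hU : ∀ x ∈ X.1, e x ∈ X'.1)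
    (P : ℕ → Prop)
    (hR : ∀ c (l : List α), (∀ x ∈ l, x ∈ X.1) → ((c, l) ∈ X.2 ↔ P c ∧ (c, l.map e) ∈ X'.2))
    (hm : ∀ x ∈ X.1, ∀ y ∈ X'.1, (∀ c, (c, [e x]) ∈ X'.2 ↔ (c, [y]) ∈ X'.2) → ∃ z ∈ X.1, y = e z)
    (hf : 1 ≤ M) : (wsys M X).RefE (wsys M X') e where
  inj := fun x hx y hy => he x (by simpa using hx) y (by simpa using hy)
  mem := fun a ha => List.mem_toFinset.2 (hU a (List.mem_toFinset.1 ha))
  ref := fun a ha b hb a' b' ⟨f, h, e1, e2⟩ => by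
    obtain ⟨g, g1, g2⟩ := wsys_pull he hU P hR hm hf (A := {a, b}) (fun x hx => by
      rcases Finset.mem_insert.1 hx with rfl | hx
      · exact List.mem_toFinset.1 ha
      · rw [Finset.mem_singleton.1 hx]; exact List.mem_toFinset.1 hb) (f := f) (by simpa using h)
    exact ⟨g a, g b, by rw [g2 a (by simp), e1], by rw [g2 b (by simp), e2], g, g1, rfl, rfl⟩

/-- the renamed structure: new points `V`, the label `m` marks the old points -/
def renS (e : α → α) (V : List α) (m : ℕ) (X : Sx α) : Sx α :=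
  (X.1.map e ++ V, X.2.map (fun r => (r.1, r.2.map e)) ++ X.1.map (fun x => (m, [e x])))

theorem mem_renS {V : List α} {m c : ℕ} {l : List α} : (c, l) ∈ (renS e V m X).2 ↔
    (∃ l0, (c, l0) ∈ X.2 ∧ l0.map e = l) ∨ (c = m ∧ ∃ x ∈ X.1, l = [e x]) := by
  simp only [renS, List.mem_append, List.mem_map, Prod.mk.injEq, Prod.exists]
  refine or_congr ⟨?_, ?_⟩ ⟨?_, ?_⟩
  · rintro ⟨_, l0, h, rfl, q⟩; exact ⟨l0, h, q⟩
  · rintro ⟨l0, h, q⟩; exact ⟨_, l0, h, rfl, q⟩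
  · rintro ⟨x, h, rfl, rfl⟩; exact ⟨rfl, x, h, rfl⟩
  · rintro ⟨rfl, x, h, rfl⟩; exact ⟨x, h, rfl, rfl⟩

theorem map_inj_on {U : List α} (he : ∀ x ∈ U, ∀ y ∈ U, e x = e y → x = y) {l l' : List α}
    (h : ∀ x ∈ l, x ∈ U) (h' : ∀ x ∈ l', x ∈ U) (q : l.map e = l'.map e) : l = l' := by
  induction l generalizing l' with
  | nil => simpa using q.symm
  | cons a l ih =>
    rcases l' with _ | ⟨b, l'⟩
    · simp at q
    · simp only [List.map_cons, List.cons.injEq] at q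
      rw [he a (h a (by simp)) b (h' b (by simp)) q.1,
        ih (fun x hx => h x (by simp [hx])) (fun x hx => h' x (by simp [hx])) q.2]

theorem renS_refE (he : ∀ x ∈ X.1, ∀ y ∈ X.1, e x = e y → x = y) {V : List α} {m : ℕ}
    (hX : ∀ r ∈ X.2, r.1 < m ∧ ∀ x ∈ r.2, x ∈ X.1) (hf : 1 ≤ M) :
    (wsys M X).RefE (wsys M (renS e V m X)) e := by
  refine wsys_refE he (fun x hx => List.mem_append_left _ (List.mem_map_of_mem hx)) (· < m)
    (fun c l hl => ?_) (fun x hx y _ q => ?_) hf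
  · rw [mem_renS]
    refine ⟨fun h => ⟨(hX _ h).1, Or.inl ⟨l, h, rfl⟩⟩, ?_⟩
    rintro ⟨h1, ⟨l0, h2, h3⟩ | ⟨rfl, -⟩⟩
    · rwa [← map_inj_on he (hX _ h2).2 hl h3]
    · exact absurd h1 (lt_irrefl _)
  · rcases mem_renS.1 ((q m).1 (mem_renS.2 (Or.inr ⟨rfl, x, hx, rfl⟩))) with ⟨l0, h, -⟩ | ⟨-, z, h, q⟩
    · exact absurd (hX _ h).1 (lt_irrefl _)
    · exact ⟨z, h, by simpa using q⟩

/-- an isomorphism extends to the renamed structures -/
theorem SIso.renS {Y : Sx α} {ψ χ e' : α → α} {V V' : List α} {m : ℕ} (h : SIso X Y ψ)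
    (he : ∀ x ∈ X.1, ∀ y ∈ X.1, e x = e y → x = y)
    (he' : ∀ x ∈ Y.1, ∀ y ∈ Y.1, e' x = e' y → x = y)
    (hX : ∀ r ∈ X.2, ∀ x ∈ r.2, x ∈ X.1) (hY : ∀ r ∈ Y.2, ∀ x ∈ r.2, x ∈ Y.1)
    (hV' : ∀ y ∈ V', ∀ x ∈ Y.1, e' x ≠ y) (h1 : ∀ x ∈ X.1, χ (e x) = e' (ψ x))
    (h2 : Set.BijOn χ {x | x ∈ V} {x | x ∈ V'}) :
    SIso (renS e V m X) (renS e' V' m Y) χ := by
  have b1 : Set.BijOn χ {x | x ∈ X.1.map e} {x | x ∈ Y.1.map e'} := by
    refine ⟨?_, ?_, ?_⟩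
    · rintro _ hx0
      obtain ⟨x, hx, rfl⟩ := List.mem_map.1 hx0
      exact List.mem_map.2 ⟨ψ x, h.bij.mapsTo hx, (h1 x hx).symm⟩
    · rintro _ hx0 _ hy0 q
      obtain ⟨x, hx, rfl⟩ := List.mem_map.1 hx0
      obtain ⟨y, hy, rfl⟩ := List.mem_map.1 hy0
      rw [h1 x hx, h1 y hy] at q
      rw [h.bij.injOn hx hy (he' _ (h.bij.mapsTo hx) _ (h.bij.mapsTo hy) q)]
    · rintro _ hy0
      obtain ⟨y, hy, rfl⟩ := List.mem_map.1 hy0
      obtain ⟨x, hx, rfl⟩ := h.bij.surjOn hy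
      exact ⟨e x, List.mem_map_of_mem hx, h1 x hx⟩
  have sep : ∀ x ∈ V, ∀ y ∈ Y.1, χ x ≠ e' y := fun x hx y hy q =>
    hV' _ (h2.mapsTo hx) y hy q.symm
  have b2 : Set.BijOn χ {x | x ∈ X.1.map e ++ V} {x | x ∈ Y.1.map e' ++ V'} := by
    refine ⟨fun x hx => ?_, fun x hx y hy q => ?_, fun y hy => ?_⟩
    · exact (List.mem_append.1 hx).elim (fun a => List.mem_append_left _ (b1.mapsTo a))
        (fun a => List.mem_append_right _ (h2.mapsTo a))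
    · rcases List.mem_append.1 hx with a | a <;> rcases List.mem_append.1 hy with b | b
      · exact b1.injOn a b q
      · obtain ⟨z, hz, r⟩ := List.mem_map.1 (b1.mapsTo a)
        exact absurd (q.symm.trans r.symm) (sep y b z hz)
      · obtain ⟨z, hz, r⟩ := List.mem_map.1 (b1.mapsTo b)
        exact absurd (q.trans r.symm) (sep x a z hz)
      · exact h2.injOn a b q
    · rcases List.mem_append.1 hy with a | a
      · obtain ⟨x, hx, r⟩ := b1.surjOn a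
        exact ⟨x, List.mem_append_left _ hx, r⟩
      · obtain ⟨x, hx, r⟩ := h2.surjOn a
        exact ⟨x, List.mem_append_right _ hx, r⟩
  have lift : ∀ l : List α, (∀ x ∈ l, x ∈ X.1) → (l.map e).map χ = (l.map ψ).map e' :=
    fun l hl => by
      rw [List.map_map, List.map_map]
      exact List.map_congr_left fun x hx => h1 x (hl x hx)
  have back : ∀ (l l1 : List α), (∀ x ∈ l, x ∈ X.1.map e ++ V) → (∀ x ∈ l1, x ∈ Y.1) →
      l1.map e' = l.map χ → ∃ l0 : List α, (∀ x ∈ l0, x ∈ X.1) ∧ l0.map e = l ∧ l0.map ψ = l1 := by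
    intro l
    induction l with
    | nil => intro l1 _ _ q; exact ⟨[], by simp, rfl, by simpa using q.symm⟩
    | cons a l ih =>
      intro l1 hl h1' q
      rcases l1 with _ | ⟨b, l1⟩
      · simp at q
      · simp only [List.map_cons, List.cons.injEq] at q
        obtain ⟨l0, c1, c2, c3⟩ := ih l1 (fun x hx => hl x (by simp [hx]))
          (fun x hx => h1' x (by simp [hx])) q.2
        have hb : b ∈ Y.1 := h1' b (by simp)
        obtain ⟨x, hx, rfl⟩ := h.bij.surjOn hb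
        have : e x = a := b2.injOn (List.mem_append_left _ (List.mem_map_of_mem hx))
          (hl a (by simp)) (by rw [h1 x hx, q.1])
        exact ⟨x :: l0, by simpa using ⟨hx, c1⟩, by simp [this, c2], by simp [c3]⟩
  refine ⟨b2, fun n l hl => ?_⟩
  rw [mem_renS, mem_renS]
  refine or_congr ⟨?_, ?_⟩ (and_congr_right fun _ => ⟨?_, ?_⟩)
  · rintro ⟨l0, a, rfl⟩
    exact ⟨l0.map ψ, (h.rel n l0 (hX _ a)).1 a, (lift l0 (hX _ a)).symm⟩
  · rintro ⟨l1, a, q⟩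
    obtain ⟨l0, c1, c2, rfl⟩ := back l l1 hl (hY _ a) q
    exact ⟨l0, (h.rel n l0 c1).2 a, c2⟩
  · rintro ⟨x, hx, rfl⟩
    exact ⟨ψ x, h.bij.mapsTo hx, by simp [h1 x hx]⟩
  · rintro ⟨y, hy, q⟩
    obtain ⟨l0, c1, c2, c3⟩ := back l [y] hl (by simpa using hy) (by simpa using q.symm)
    rcases l0 with _ | ⟨x, _ | ⟨x', l0⟩⟩
    · simp at c3
    · exact ⟨x, c1 x (by simp), c2.symm⟩
    · simp at c3

end Pool.Agent.P.MP_f1a348_lc.GX
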