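import Pool.Agent.P.MP_f1a348_lc.GY.DefsP

/-! Graph isomorphism: what a part of a module sees of the engine. -/

set_option autoImplicit false
set_option linter.unusedSectionVars false

namespace Pool.Agent.P.MP_f1a348_lc.GX

open Pool.Agent.Lib.Helper47 Pool.Agent.P.MP_f1a348_lc.GI Pool.Agent.P.MP_f1a348_lc.TO

variable {F X T S X' T' S' : Type} [Enc F] [Enc X] [Enc T] [Enc S] [Enc X'] [Enc T'] [Enc S']

/-- the price of the calls of a frame -/
def Part.pri (P : Part Cx F X T S Ans) (cx : Cx) (x : X) : ℕ :=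
  bl (P.todo cx x).length + (2 * cx.lam + 4) + 1

/-- the frames of the part `P` are named by `i` and run by `E` -/
def SubEnv (P : Part Cx F X T S Ans) (i : X → F) (cx : Cx) (B : ℕ)
    (E : ℕ → ℕ → F → Option Ans) : Prop :=
  ∀ φ k x (R : Option Ans → Prop), 0 < k → size x ≤ B → size (P.todo cx x) ≤ B → P.pri cx x ≤ φ →
    P.Loc cx B (E φ (k - 1)) (E (φ - P.pri cx x) cx.mE) x R → R (E φ k (i x))

theorem Mod.Env.sub {m : Mod} {cx : Cx} {B : ℕ} {E : ℕ → ℕ → Sta ⊕ m.X → Option Ans}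
    (h : m.Env cx B E) : SubEnv m.part .inr cx B E := h.halt

theorem SubEnv.emb {P : Part Cx F X T S Ans} {Q : Part Cx F X' T' S' Ans} {i : X' → F} {cx : Cx}
    {B B0 d : ℕ} {E : ℕ → ℕ → F → Option Ans} (h : SubEnv Q i cx B E) (e : Part.Emb P Q d)
    (h1 : B0 + d ≤ B) (h2 : (d + 1) * B0 ≤ B) : SubEnv P (fun x => i (e.f x)) cx B0 E := by
  intro φ k x R a1 a2 a3 a4 a5
  have hp : Q.pri cx (e.f x) = P.pri cx x := by simp only [Part.pri, e.todo, List.length_map]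
  refine h φ k _ R a1 (by have := e.sf x; omega)
    ((e.size_todo cx x).trans ((Nat.mul_le_mul_left _ a3).trans h2)) (hp ▸ a4) ?_
  obtain ⟨J, j0, j1, j2, j3⟩ := e.loc a5
  rw [hp]
  exact ⟨J, ⟨j0.1.trans h1, j0.2⟩, j1, fun u t v b s fr g r b1 b2 b3 b4 =>
    ⟨(j2 u t v b s fr g r b1 b2 b3 b4).1.trans h1, (j2 u t v b s fr g r b1 b2 b3 b4).2⟩, j3⟩

theorem SubEnv.inl {P : Part Cx F X T S Ans} {Q : Part Cx F X' T' S' Ans} {i : X ⊕ X' → F}
    {cx : Cx} {B B0 : ℕ} {E : ℕ → ℕ → F → Option Ans} (h : SubEnv (P.sum Q) i cx B E)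
    (h1 : 1 ≤ B0) (h2 : 5 * B0 ≤ B) : SubEnv P (fun x => i (.inl x)) cx B0 E :=
  h.emb ((Part.Emb.refl P).inl Q) (by omega) h2

theorem SubEnv.inr {P : Part Cx F X T S Ans} {Q : Part Cx F X' T' S' Ans} {i : X ⊕ X' → F}
    {cx : Cx} {B B0 : ℕ} {E : ℕ → ℕ → F → Option Ans} (h : SubEnv (P.sum Q) i cx B E)
    (h1 : 1 ≤ B0) (h2 : 5 * B0 ≤ B) : SubEnv Q (fun x => i (.inr x)) cx B0 E :=
  h.emb ((Part.Emb.refl Q).inr P) (by omega) h2

theorem Part.Snd.inl {P : Part Cx F X T S Ans} (Q : Part Cx F X' T' S' Ans) {cx : Cx}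
    {Pre : F → Prop} {Post : F → Ans → Prop} {x : X} {R : Ans → Prop}
    (h : P.Snd cx Pre Post x R) : (P.sum Q).Snd cx Pre Post (.inl x) R :=
  ((Part.Emb.refl P).inl Q).snd h

theorem Part.Snd.inr {Q : Part Cx F X' T' S' Ans} (P : Part Cx F X T S Ans) {cx : Cx}
    {Pre : F → Prop} {Post : F → Ans → Prop} {x : X'} {R : Ans → Prop}
    (h : Q.Snd cx Pre Post x R) : (P.sum Q).Snd cx Pre Post (.inr x) R :=
  ((Part.Emb.refl Q).inr P).snd h

end Pool.Agent.P.MP_f1a348_lc.GX
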