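import Pool.Agent.P.MP_f1a348_lc.GY.DefsF
import Pool.Agent.P.MP_f1a348_lc.TO.XFINX

/-! Graph isomorphism: the machine and its running time. -/

set_option autoImplicit false
set_option linter.unusedSectionVars false

namespace Pool.Agent.P.MP_f1a348_lc.GX

open Pool.Agent.Lib.Helper47 Pool.Agent.P.MP_f1a348_lc.GI Pool.Agent.P.MP_f1a348_lc.TO
open Pool.Agent.Lib.Helper33 Pool.Agent.P.MP_f1a348_lc.TO.FX

theorem fin_iso {n : ℕ} (G H : SimpleGraph (Fin n)) [DecidableRel G.Adj] [DecidableRel H.Adj] :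
    (∃ f : Equiv.Perm (Fin n), ∀ u v, decide (H.Adj (f u) (f v)) = decide (G.Adj u v)) ↔
      Nonempty (G ≃g H) := by
  constructor
  · rintro ⟨f, hf⟩
    exact ⟨⟨f, fun {a b} => by simpa using hf a b⟩⟩
  · rintro ⟨f⟩
    exact ⟨f.toEquiv, fun u v => by simpa using f.map_adj_iff⟩

theorem fin_machine {lv : ℕ → ℕ} (h4 : ∀ n, 4 ≤ lv n) {mn : Par × Q → Option Bool}
    (hmn : GSpec lv mn) : GIin fun C n => ((n : ℝ) + 2) ^ (C * (lv n + 8)) := by
  classical
  obtain ⟨B, p, hB⟩ := exists_machine hmn.pt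
  obtain ⟨c, d, hp⟩ := poly_le_pow p
  obtain ⟨c1, hc1⟩ := hmn.halts
  refine ⟨B.tm, B.e₀, B.e₁, B.fin, ((c + 3 * d + d * (c1 + 1) : ℕ) : ℝ), fun n G H => ?_⟩
  obtain ⟨A, F, e, hA, hF, hsz⟩ :=
    parse_eq (fun a b => decide (G.Adj a b)) (fun a b => decide (H.Adj a b))
  have hx : adjBits G ++ adjBits H = arcBits (fun a b => decide (G.Adj a b)) ++
    arcBits (fun a b => decide (H.Adj a b)) := rfl
  have hl : (adjBits G ++ adjBits H).length = 2 * (n * n) := by
    rw [hx, List.length_append, length_arcBits, length_arcBits]; ring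
  rw [← hx] at e hsz
  generalize adjBits G ++ adjBits H = x at e hsz hl
  have hR : List.range (ordN x) = List.range n := congrArg Prod.fst e
  have sA : A.Sublist (prodL (List.range n) (List.range n)) := by
    have : arcs (List.range (ordN x)) x 0 = A := congrArg (fun q : Q => q.2.1) e
    rw [← this, hR]
    exact List.filter_sublist
  have sF : F.Sublist (prodL (List.range n) (List.range n)) := by
    have : arcs (List.range (ordN x)) x (ordN x * ordN x) = F := congrArg (fun q : Q => q.2.2.2) e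
    rw [← this, hR]
    exact List.filter_sublist
  have hpre : ∀ k u, ok (step^[k] (start x)) u = true →
      GPre ((step^[k] (start x)).1, u) n A F := fun k u h => by
    obtain ⟨-, -, e3⟩ := step_iter x k
    rw [ok, Bool.and_eq_true, Nat.ble_eq, Nat.ble_eq, e3, e, List.length_range] at h
    exact ⟨sA, sF, e ▸ hsz, h.1, h.2⟩
  have hj4 := h4 n
  generalize hj : lv n = j at hj4
  obtain ⟨T, hT⟩ : ∃ T, T = (n + 2) ^ ((c1 + 1) * (j + 8)) := ⟨_, rfl⟩
  have hle : ∀ a, a ≤ (c1 + 1) * (j + 8) → (n + 2) ^ a ≤ T := fun a ha =>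
    hT ▸ Nat.pow_le_pow_right (by omega) ha
  have t4 : (n + 2) ^ (j + 8) ≤ T := hle _ (Nat.le_mul_of_pos_left _ (by omega))
  have t1 : 2 * (n * n) + 2 ≤ T := by
    have a1 : (n + 2) ^ 3 ≤ T := (Nat.pow_le_pow_right (by omega) (by omega)).trans t4
    nlinarith [Nat.zero_le (n * n * n)]
  have t2 : T < 2 ^ (Nat.log 2 T + 1) := Nat.lt_pow_succ_log_self (by omega) T
  have t3 : 2 ^ (Nat.log 2 T + 1) ≤ 2 * T := by
    have := Nat.pow_log_le_self 2 (show T ≠ 0 by omega)
    rw [pow_succ]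
    omega
  generalize Nat.log 2 T + 1 = i at t2 t3
  have hji : j ≤ i := by
    have a1 : 2 ^ j ≤ (n + 2) ^ (j + 8) := (Nat.pow_le_pow_left (by omega) j).trans
      (Nat.pow_le_pow_right (by omega) (by omega))
    exact ((Nat.pow_lt_pow_iff_right (by omega : 1 < 2)).1 (by omega)).le
  have hk : (ans mn (step^[i] (start x))).isSome = true := by
    obtain ⟨e1, e2, e3⟩ := step_iter x i
    have h0 := hpre i ((step^[i] (start x)).2.1.take j)
    generalize step^[i] (start x) = s at e1 e2 e3 h0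
    have hu : (s.2.1.take j).length = j := by rw [List.length_take, e2]; omega
    have hok : ok s (s.2.1.take j) = true := by
      rw [ok, Bool.and_eq_true, Nat.ble_eq, Nat.ble_eq, hu, e1, e3, e, List.length_range]
      exact ⟨hj4, t4.trans t2.le⟩
    have h1 := hc1 _ n A F (h0 hok) (by rw [hj]; exact hu)
      (by rw [hj, e1]; exact (hle _ (Nat.mul_le_mul (by omega) (by omega))).trans t2.le)
    obtain ⟨b, hb⟩ := Option.ne_none_iff_exists'.1 h1
    rw [ans, List.isSome_head?]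
    refine List.ne_nil_of_mem (a := b) (List.mem_filterMap.2 ⟨j, List.mem_range.2 ?_, ?_⟩)
    · rw [List.length_cons, e2]; omega
    · rw [hok, cond_true, e3, e, hb]
  let Z : {x // Halts mn x} := ⟨x, i, hk⟩
  have hlev : lev Z ≤ i := Nat.find_min' Z.2 hk
  refine ⟨p.eval (bud Z), _, ?_, hB Z, ?_⟩
  · have h1 : bud Z + 1 ≤ 8 * T := by
      have a1 : 2 ^ lev Z ≤ 2 ^ i := Nat.pow_le_pow_right (by omega) hlev
      have a2 : i < 2 ^ i := Nat.lt_two_pow_self
      have a3 : bud Z = x.length + lev Z + 2 ^ lev Z := rfl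
      omega
    have h2 : p.eval (bud Z) ≤ (n + 2) ^ ((c + 3 * d + d * (c1 + 1)) * (j + 8)) := by
      refine (hp _).trans ((Nat.mul_le_mul_left c (Nat.pow_le_pow_left h1 d)).trans ?_)
      have a1 : c ≤ (n + 2) ^ (c * (j + 8)) :=
        Nat.lt_two_pow_self.le.trans ((Nat.pow_le_pow_left (by omega) c).trans
          (Nat.pow_le_pow_right (by omega) (Nat.le_mul_of_pos_right _ (by omega))))
      have a2 : 8 ^ d ≤ (n + 2) ^ (3 * d * (j + 8)) := by
        rw [show 8 = 2 ^ 3 by norm_num, ← pow_mul]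
        exact (Nat.pow_le_pow_left (by omega) _).trans
          (Nat.pow_le_pow_right (by omega) (Nat.le_mul_of_pos_right _ (by omega)))
      rw [mul_pow, hT, ← pow_mul, add_mul (c + 3 * d), add_mul c, pow_add, pow_add, mul_assoc ((n + 2) ^ (c * (j + 8)))]
      refine Nat.mul_le_mul a1 (Nat.mul_le_mul a2 (le_of_eq ?_))
      congr 1
      ring
    have h3 : ((c + 3 * d + d * (c1 + 1) : ℕ) : ℝ) * ((j : ℝ) + 8) =
        (((c + 3 * d + d * (c1 + 1)) * (j + 8) : ℕ) : ℝ) := by push_cast; ring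
    change _ ≤ ((n : ℝ) + 2) ^ (_ * ((lv n : ℝ) + 8))
    rw [hj, h3, Real.rpow_natCast]
    exact_mod_cast h2
  · obtain ⟨b, hb⟩ := Option.isSome_iff_exists.1 (Nat.find_spec Z.2)
    change ans mn (step^[lev Z] (start x)) = some b at hb
    change (ans mn (step^[lev Z] (start x))).getD false = true ↔ _
    obtain ⟨-, -, e3⟩ := step_iter x (lev Z)
    rw [hb, Option.getD_some]
    obtain ⟨k, -, hk⟩ := List.mem_filterMap.1 (List.mem_of_mem_head? (Option.mem_def.2 hb))
    cases h : ok (step^[lev Z] (start x)) ((step^[lev Z] (start x)).2.1.take k) with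
    | false => rw [h, cond_false] at hk; cases hk
    | true =>
      rw [h, cond_true, e3, e] at hk
      rw [hmn.sound _ n A F b (hpre _ _ h) hk, iso_iff hA hF]
      exact fin_iso G H

theorem GIin.mono {T T' : ℝ → ℕ → ℝ} (h : GIin T) (e : ∀ C, ∃ C', ∀ n, T C n ≤ T' C' n) :
    GIin T' := by
  obtain ⟨tm, e₀, e₁, h1, C, h2⟩ := h
  obtain ⟨C', h3⟩ := e C
  refine ⟨tm, e₀, e₁, h1, C', fun n G H => ?_⟩
  obtain ⟨t, b, a1, a2⟩ := h2 n G H
  exact ⟨t, b, a1.trans (h3 n), a2⟩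

theorem fin_log (m : ℕ) (y : ℝ) (h : (m : ℝ) ≤ y) (h1 : 1 ≤ y) :
    (Nat.log 2 m : ℝ) ≤ Real.logb 2 y := by
  rw [Real.le_logb_iff_rpow_le one_lt_two (by linarith), Real.rpow_natCast]
  rcases Nat.eq_zero_or_pos m with rfl | hm
  · simpa using h1
  · refine le_trans ?_ h
    exact_mod_cast Nat.pow_log_le_self 2 hm.ne'

theorem fin_time (c : ℕ) (C : ℝ) : ∃ C' : ℝ, ∀ n : ℕ, ((n : ℝ) + 2) ^ (C * (lvl c n + 8)) ≤
    2 ^ (C' * Real.logb 2 (n + 2) ^ 2) := by
  refine ⟨|C| * (2 * c + 12), fun n => ?_⟩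
  have hn : (0 : ℝ) ≤ n := Nat.cast_nonneg n
  have l1 : 1 ≤ Real.logb 2 ((n : ℝ) + 2) := by
    rw [Real.le_logb_iff_rpow_le one_lt_two (by linarith), Real.rpow_one]; linarith
  have a1 : (Nat.log 2 n : ℝ) ≤ Real.logb 2 ((n : ℝ) + 2) := fin_log n _ (by linarith) (by linarith)
  have e1 : (n : ℝ) + 2 = 2 ^ Real.logb 2 ((n : ℝ) + 2) :=
    (Real.rpow_logb two_pos (by norm_num) (by linarith)).symm
  have hc : (0 : ℝ) ≤ c := Nat.cast_nonneg _
  generalize Real.logb 2 ((n : ℝ) + 2) = y at *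
  have b2 : ((lvl c n : ℕ) : ℝ) + 8 ≤ (2 * c + 12) * y := by
    rw [lvl]
    push_cast
    nlinarith [mul_le_mul_of_nonneg_left (show (Nat.log 2 n : ℝ) + 1 ≤ 2 * y by linarith) hc]
  rw [e1, ← Real.rpow_mul two_pos.le]
  refine Real.rpow_le_rpow_of_exponent_le one_le_two ?_
  have b3 : (0 : ℝ) ≤ (lvl c n : ℕ) + 8 := by positivity
  have b4 : C * ((lvl c n : ℕ) + 8) ≤ |C| * ((2 * c + 12) * y) :=
    (mul_le_mul_of_nonneg_right (le_abs_self C) b3).trans
      (mul_le_mul_of_nonneg_left b2 (abs_nonneg C))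
  calc y * (C * ((lvl c n : ℕ) + 8)) ≤ y * (|C| * ((2 * c + 12) * y)) :=
        mul_le_mul_of_nonneg_left b4 (by linarith)
    _ = _ := by ring

theorem final_of {c : ℕ} {mn : Par × Q → Option Bool} (hmn : GSpec (lvl c) mn) : FINAL :=
  (fin_machine (fun _ => Nat.le_add_left _ _) hmn).mono (fin_time c)

end Pool.Agent.P.MP_f1a348_lc.GX
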