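import Pool.Agent.P.MP_f1a348_lc.GY.DefsV
import Pool.Agent.P.MP_f1a348_lc.GX.TGOOD
import Pool.Agent.P.MP_f1a348_lc.GX.THH

/-! Step LV. -/

set_option autoImplicit false
set_option linter.unusedSectionVars false

namespace Pool.Agent.P.MP_f1a348_lc.GX

open Equiv Finset MulAction
open scoped Classical
variable {G Y : Type} [Group G] [MulAction G Y] [DecidableEq Y] {P : Pm} {H H' K K' : Subgroup G}
  {D D' : Finset Y} {Γ Γ' : Sy Y} {v v' : Vw G Y} {W : ℕ → Vw G Y → Prop}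
  {U1 U2 U1' U2' Fo Fo' : Finset Y → Prop}

namespace LVx

lemma lg_two_pow (k : ℕ) : lg (2 ^ k) = k := by
  unfold lg
  rw [Nat.cast_pow, Nat.cast_ofNat, Real.logb_pow, Real.logb_self_eq_one one_lt_two, mul_one]

lemma lg_zero : lg 0 = 0 := by simp [lg]

lemma lg_one : lg 1 = 0 := by simp [lg]

lemma LL1 (P : Pm) : 1 ≤ P.LL := HHx.lg1 (by omega)

lemma lam1 (P : Pm) : (0 : ℝ) < P.lam + 1 := by positivity

lemma lg_le_lam {a : ℕ} (h : a ≤ 2 ^ P.lam) : lg a ≤ P.lam := by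
  have := lg_mono h
  rwa [lg_two_pow] at this

lemma drop16 (P : Pm) {q q' : ℕ} (h1 : 1 ≤ q') (h2 : q' ≤ q) :
    HH P.LL q' / P.LL + 2 ^ 16 * (lg q - lg q') ≤ HH P.LL q / P.LL := by
  have a := LL1 P
  have b := HH_drop (LL := P.LL) (by linarith) h1 h2
  have c : 0 ≤ lg q - lg q' := sub_nonneg.2 (lg_mono h2)
  rw [div_add' _ _ _ (by linarith), div_le_div_iff_of_pos_right (by linarith)]
  nlinarith

theorem hh_zero : hh P.LL 0 = 0 := by simp [hh, HH, lg]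

theorem hh_one : hh P.LL 1 = 0 := by simp [hh, HH, lg]

theorem hh_drop {q q' : ℕ} (h1 : 1 ≤ q') (h2 : q' ≤ q) :
    hh P.LL q' + 2 ^ 15 * (lg q - lg q') ≤ hh P.LL q := by
  have a := drop16 P h1 h2
  have c : 0 ≤ lg q - lg q' := sub_nonneg.2 (lg_mono h2)
  unfold hh
  split_ifs with e1 e2 e2
  · linarith
  · omega
  · obtain rfl : q' = 1 := by omega
    have := HHx.lg1 e2
    rw [lg_one] at *
    linarith
  · linarith

theorem hh_ge (q : ℕ) : 2 ^ 15 * lg q ≤ hh P.LL q := by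
  rcases Nat.eq_zero_or_pos q with rfl | h
  · simp [hh_zero, lg_zero]
  · have := hh_drop (P := P) le_rfl h
    rwa [hh_one, lg_one, zero_add, sub_zero] at this

theorem hh_nonneg (q : ℕ) : 0 ≤ hh P.LL q := by
  have := hh_ge (P := P) q
  have := lg_nonneg q
  linarith

theorem hh_mono {q q' : ℕ} (h2 : q' ≤ q) : hh P.LL q' ≤ hh P.LL q := by
  rcases Nat.eq_zero_or_pos q' with rfl | h
  · rw [hh_zero]; exact hh_nonneg q
  · have := hh_drop (P := P) h h2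
    have c : 0 ≤ lg q - lg q' := sub_nonneg.2 (lg_mono h2)
    linarith

theorem hh_le {q : ℕ} (h : q ≤ 2 ^ P.lam) : hh P.LL q ≤ 2 ^ 20 * lg q := by
  have a := LL1 P
  have b := lg_le_lam h
  have c := lg_nonneg q
  have d : Real.logb 2 (1 + lg q) ≤ P.LL := by
    unfold Pm.LL lg
    refine HHx.lb_le (by unfold lg at c; linarith) ?_
    unfold lg at b
    push_cast
    linarith
  have e : HH P.LL q / P.LL ≤ 2 ^ 20 * lg q := by
    rw [div_le_iff₀ (by linarith)]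
    unfold HH
    nlinarith [mul_le_mul_of_nonneg_left d c]
  unfold hh
  split_ifs <;> linarith

theorem hh_split {a q f : ℕ} (hq : 2 ≤ q) (hf : 2 ≤ f) (ha : q * f ≤ a) :
    hh P.LL q + hh P.LL f + 2 ^ 14 ≤ hh P.LL a := by
  have b := LL1 P
  have c := HH_split (LL := P.LL) (by linarith) hq hf ha
  have d : 0 ≤ min (lg q) (lg f) := le_min (lg_nonneg _) (lg_nonneg _)
  have e : HH P.LL q / P.LL + HH P.LL f / P.LL ≤ HH P.LL a / P.LL := by
    rw [← add_div, div_le_div_iff_of_pos_right (by linarith)]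
    linarith
  have g : 2 ≤ a := by nlinarith
  unfold hh
  rw [if_pos hq, if_pos hf, if_pos g]
  linarith

theorem hh_john {a c e : ℕ} (he : 2 ≤ e) (hc : e ^ 2 ≤ c) (h64 : 2 ^ 64 ≤ c)
    (hL : P.LL ≤ lg c) (ha : c.choose e ≤ a) : e * hh P.LL c + 2 ^ 14 ≤ hh P.LL a := by
  have b := LL1 P
  have j := HH_john (LL := P.LL) (by linarith) he hc h64 hL ha
  have he2 : (2 : ℝ) ≤ e := by exact_mod_cast he
  have k := mul_nonneg (by linarith : (0 : ℝ) ≤ e) (lg_nonneg c)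
  have l : e * (HH P.LL c / P.LL) ≤ HH P.LL a / P.LL := by
    rw [← mul_div_assoc, div_le_div_iff_of_pos_right (by linarith)]
    nlinarith
  have h1 : 2 * e ≤ c := by nlinarith
  have h2 := HHx.pow_le_choose (r := 2) one_le_two e c (by exact_mod_cast h1)
  have h3 : 2 ^ e ≤ c.choose e := by exact_mod_cast h2
  have h4 : 2 ^ 2 ≤ 2 ^ e := Nat.pow_le_pow_right two_pos he
  unfold hh
  rw [if_pos (by omega : 2 ≤ c), if_pos (by omega : 2 ≤ a)]
  nlinarith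

lemma john_sq {e y ε x : ℝ} (he : 2 ≤ e) (hy : 64 ≤ y) (h2 : 2 * ε ≤ y)
    (h3 : ε ≤ 3 ∨ 8 ≤ e) (hx : e * (y - ε) ≤ x) :
    e * (y * (12289 * y + 12289 * y + 2 ^ 17 * y)) ≤ x * (2 ^ 17 * x) := by
  have a0 : 0 ≤ e * (y - ε) := mul_nonneg (by linarith) (by linarith)
  have a1 : (e * (y - ε)) ^ 2 ≤ x ^ 2 := pow_le_pow_left₀ a0 hx 2
  have a2 : 5 / 4 * y ^ 2 ≤ e * (y - ε) ^ 2 := by
    rcases h3 with h3 | h3
    · have b1 : (7 / 8 * y) ^ 2 ≤ (y - ε) ^ 2 := pow_le_pow_left₀ (by linarith) (by linarith) 2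
      have b2 := mul_le_mul he b1 (by positivity) (by linarith)
      nlinarith
    · have b1 : (1 / 2 * y) ^ 2 ≤ (y - ε) ^ 2 := pow_le_pow_left₀ (by linarith) (by linarith) 2
      have b2 := mul_le_mul h3 b1 (by positivity) (by linarith)
      nlinarith
  have a3 := mul_le_mul_of_nonneg_left a2 (by linarith : 0 ≤ e)
  have a4 : 0 ≤ e * y ^ 2 := by positivity
  nlinarith

theorem recs {a a' m : ℕ} {n1 n2 n1' n2' : ℝ} (h : a' ≤ a) :
    P.LV a' m n1' n2' + lg m * (n1 + n2 - n1' - n2') / (P.lam + 1) ≤ P.LV a m n1 n2 := by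
  have b := hh_mono (P := P) h
  have c := lg_nonneg m
  have d := lam1 P
  have e : 0 ≤ lg a - lg a' := sub_nonneg.2 (lg_mono h)
  have f : lg m * (n1' + n2' + 2 ^ 17 * lg a') / (P.lam + 1) +
      lg m * (n1 + n2 - n1' - n2') / (P.lam + 1) ≤
      lg m * (n1 + n2 + 2 ^ 17 * lg a) / (P.lam + 1) := by
    rw [← add_div, div_le_div_iff_of_pos_right d]
    nlinarith [mul_nonneg c e]
  unfold Pm.LV
  linarith

/-- the larger part `q` keeps the records, which grow by `2 lg f`; the smaller part `f` starts anew -/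
theorem split {a q f m : ℕ} {n1 n2 : ℝ} (hf : 2 ≤ f) (hq : f ≤ q) (ha : q * f ≤ a)
    (hm : a ≤ m) :
    P.LV q m (n1 + 2 * lg f) (n2 + 2 * lg f) + P.LV f f (12289 * lg f) (12289 * lg f) + 2 ^ 14 ≤
      P.LV a m n1 n2 := by
  have b := hh_split (P := P) (hf.trans hq) hf ha
  have d := lam1 P
  have e1 := lg_mono ha
  rw [lg_mul (by omega) (by omega)] at e1
  have e2 := lg_mono hq
  have e3 := lg_mono hm
  have e4 := lg_nonneg f
  have e5 := lg_nonneg m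
  have g : lg m * (n1 + 2 * lg f + (n2 + 2 * lg f) + 2 ^ 17 * lg q) / (P.lam + 1) +
      lg f * (12289 * lg f + 12289 * lg f + 2 ^ 17 * lg f) / (P.lam + 1) ≤
      lg m * (n1 + n2 + 2 ^ 17 * lg a) / (P.lam + 1) := by
    rw [← add_div, div_le_div_iff_of_pos_right d]
    have k1 := mul_le_mul_of_nonneg_left (by linarith : 2 * lg f ≤ lg m) e4
    have k2 := mul_le_mul_of_nonneg_left e1 e5
    have k3 := mul_nonneg e4 e5
    nlinarith
  unfold Pm.LV
  linarith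

theorem john {a c e m : ℕ} {n1 n2 : ℝ} (he : 2 ≤ e) (hc : e ^ 2 ≤ c) (h64 : 2 ^ 64 ≤ c)
    (hL : P.LL ≤ lg c) (ha : c.choose e ≤ a) (hm : a ≤ m) (h1 : 0 ≤ n1) (h2 : 0 ≤ n2) :
    e * P.LV c c (12289 * lg c) (12289 * lg c) + 2 ^ 14 ≤ P.LV a m n1 n2 := by
  have b := hh_john (P := P) he hc h64 hL ha
  have d := lam1 P
  have he0 : (0 : ℝ) < e := by positivity
  have he2 : (2 : ℝ) ≤ e := by exact_mod_cast he
  have hc0 : (0 : ℝ) < c := by exact_mod_cast lt_of_lt_of_le (by positivity) h64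
  have hc' : (e : ℝ) ^ 2 ≤ c := by exact_mod_cast hc
  have k1 : 64 ≤ lg c := by
    have := lg_mono h64
    rw [lg_two_pow] at this
    exact_mod_cast this
  have k2 : 2 * lg e ≤ lg c := by
    have := lg_mono hc
    rw [sq, lg_mul (by omega) (by omega)] at this
    linarith
  have k4 := HHx.pow_le_choose (r := c / e) (by rw [le_div_iff₀ he0]; nlinarith) e c
    (by rw [div_mul_cancel₀ _ he0.ne'])
  have k5 := HHx.lb_le (by positivity) (k4.trans (by exact_mod_cast ha : (c.choose e : ℝ) ≤ a))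
  rw [Real.logb_pow, Real.logb_div hc0.ne' he0.ne'] at k5
  have k6 : lg e ≤ 3 ∨ (8 : ℝ) ≤ e := by
    rcases le_total e 8 with k | k
    · left
      have := lg_mono (n := 2 ^ 3) k
      rw [lg_two_pow] at this
      exact_mod_cast this
    · right; exact_mod_cast k
  have k7 := john_sq (x := lg a) he2 k1 k2 k6 k5
  have k8 := lg_mono hm
  have k9 := lg_nonneg a
  have g : e * (lg c * (12289 * lg c + 12289 * lg c + 2 ^ 17 * lg c) / (P.lam + 1)) ≤
      lg m * (n1 + n2 + 2 ^ 17 * lg a) / (P.lam + 1) := by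
    rw [← mul_div_assoc, div_le_div_iff_of_pos_right d]
    exact k7.trans (mul_le_mul k8 (by linarith) (by positivity) (by linarith))
  unfold Pm.LV
  rw [mul_add]
  linarith

end LVx

open LVx

theorem Pm.LL_nonneg : 0 ≤ P.LL := lg_nonneg _

theorem Pm.one_le_LL : 1 ≤ P.LL := LL1 P

theorem Pm.LV_ge {a m : ℕ} {n1 n2 : ℝ} (h1 : 0 ≤ n1) (h2 : 0 ≤ n2) :
    2 ^ 15 * lg a + lg m * (n1 + n2) / (P.lam + 1) ≤ P.LV a m n1 n2 := by
  have b := hh_ge (P := P) a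
  have d := lam1 P
  have : lg m * (n1 + n2) / (P.lam + 1) ≤ lg m * (n1 + n2 + 2 ^ 17 * lg a) / (P.lam + 1) := by
    rw [div_le_div_iff_of_pos_right d]
    exact mul_le_mul_of_nonneg_left (by linarith [lg_nonneg a]) (lg_nonneg m)
  unfold Pm.LV
  linarith

theorem Pm.LV_nonneg {a m : ℕ} {n1 n2 : ℝ} (h1 : 0 ≤ n1) (h2 : 0 ≤ n2) : 0 ≤ P.LV a m n1 n2 := by
  have b := Pm.LV_ge (P := P) (a := a) (m := m) h1 h2
  have c := lg_nonneg a
  have d := lam1 P
  have e := lg_nonneg m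
  have : 0 ≤ lg m * (n1 + n2) / (P.lam + 1) := by positivity
  linarith

theorem Pm.LV_drop {a a' m : ℕ} {n1 n2 : ℝ} (h1 : 1 ≤ a') (h2 : a' ≤ a) :
    P.LV a' m n1 n2 + 2 ^ 15 * (lg a - lg a') ≤ P.LV a m n1 n2 := by
  have b := hh_drop (P := P) h1 h2
  have d := lam1 P
  have f : lg m * (n1 + n2 + 2 ^ 17 * lg a') / (P.lam + 1) ≤
      lg m * (n1 + n2 + 2 ^ 17 * lg a) / (P.lam + 1) := by
    rw [div_le_div_iff_of_pos_right d]
    exact mul_le_mul_of_nonneg_left (by linarith [lg_mono h2]) (lg_nonneg m)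
  unfold Pm.LV
  linarith

theorem Pm.LV_mono {a a' m : ℕ} {n1 n2 n1' n2' : ℝ} (h : a' ≤ a) (h1 : n1' ≤ n1) (h2 : n2' ≤ n2) :
    P.LV a' m n1' n2' ≤ P.LV a m n1 n2 := by
  have b := recs (P := P) (m := m) (n1 := n1) (n2 := n2) (n1' := n1') (n2' := n2') h
  have c := lg_nonneg m
  have d := lam1 P
  have e : 0 ≤ n1 + n2 - n1' - n2' := by linarith
  have : 0 ≤ lg m * (n1 + n2 - n1' - n2') / (P.lam + 1) := by positivity
  linarith

theorem Pm.LV_gain {a m : ℕ} {n1 n2 γ1 γ2 : ℝ} :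
    P.LV a m (n1 - γ1) (n2 - γ2) + lg m * (γ1 + γ2) / (P.lam + 1) = P.LV a m n1 n2 := by
  unfold Pm.LV
  ring

theorem Pm.LV_34 {a a' m : ℕ} {n1 n2 : ℝ} (h1 : 1 ≤ a') (h2 : 4 * a' ≤ 3 * a) :
    P.LV a' m n1 n2 + 2 ≤ P.LV a m n1 n2 := by
  have b := Pm.LV_drop (P := P) (m := m) (n1 := n1) (n2 := n2) h1 (by omega : a' ≤ a)
  have h4 : (0 : ℝ) < a' := by exact_mod_cast h1
  have h5 := HHx.lb_le (x := 4 / 3 * a') (y := a) (by positivity) (by
    have : (4 : ℝ) * a' ≤ 3 * a := by exact_mod_cast h2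
    linarith)
  rw [Real.logb_mul (by norm_num) h4.ne'] at h5
  have h6 := HHx.lb_ge (x := 4 / 3) (k := 3) (by norm_num) (by norm_num)
  push_cast at h6
  have h7 : 1 / 3 ≤ lg a - lg a' := by unfold lg; linarith
  linarith

theorem Pm.LV_dropK {a a' m : ℕ} {n1 n2 : ℝ} (h1 : 1 ≤ a') (h2 : a' ≤ a)
    (h3 : lg a' + 1 / 12289 ≤ lg a) : P.LV a' m n1 n2 + 2 ≤ P.LV a m n1 n2 := by
  have b := Pm.LV_drop (P := P) (m := m) (n1 := n1) (n2 := n2) h1 h2
  linarith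

theorem Pm.LV_split1 {a q f m : ℕ} {n1 n2 : ℝ} (hf : 2 ≤ f) (hq : f ≤ q) (ha : q * f ≤ a)
    (hm : a ≤ m) : P.LV q m (n1 + 2 * lg f) (n2 + 2 * lg f) +
      P.LV f f (12289 * lg f) (12289 * lg f) + 400 ≤ P.LV a m n1 n2 := by
  have b := split (P := P) (n1 := n1) (n2 := n2) hf hq ha hm
  linarith

theorem Pm.LV_split2 {a q f m : ℕ} {n1 n2 : ℝ} (hq : 2 ≤ q) (hf : q ≤ f) (ha : q * f ≤ a)
    (hm : a ≤ m) : P.LV q q (12289 * lg q) (12289 * lg q) + P.LV f m n1 n2 + 400 ≤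
      P.LV a m n1 n2 := by
  have b := split (P := P) (n1 := n1) (n2 := n2) hq hf (by rwa [mul_comm]) hm
  have c := lg_nonneg q
  have d := Pm.LV_mono (P := P) (m := m) (le_refl f) (by linarith : n1 ≤ n1 + 2 * lg q)
    (by linarith : n2 ≤ n2 + 2 * lg q)
  linarith

theorem Pm.LV_john {a c e m : ℕ} {n1 n2 : ℝ} (he : 2 ≤ e) (hc : e ^ 2 ≤ c) (h0 : P.t0 ≤ c)
    (ha : c.choose e ≤ a) (hm : a ≤ m) (h1 : 0 ≤ n1) (h2 : 0 ≤ n2) :
    e * P.LV c c (12289 * lg c) (12289 * lg c) + 1 ≤ P.LV a m n1 n2 := by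
  have := john (P := P) he hc (by unfold Pm.t0 at h0; omega)
    (lg_mono (by unfold Pm.t0 Pm.tau Pm.t Pm.s at h0; omega)) ha hm h1 h2
  linarith

theorem Pm.LV_init {a : ℕ} (h : a ≤ 2 ^ P.lam) :
    P.LV a a (12289 * lg a) (12289 * lg a) ≤ 2 ^ 21 * lg a := by
  have b := hh_le h
  have c := lg_le_lam h
  have d := lam1 P
  have e := lg_nonneg a
  have g : lg a * (12289 * lg a + 12289 * lg a + 2 ^ 17 * lg a) / (P.lam + 1) ≤ 2 ^ 18 * lg a := by
    rw [div_le_iff₀ d]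
    nlinarith [mul_le_mul_of_nonneg_left c e]
  unfold Pm.LV
  linarith

end Pool.Agent.P.MP_f1a348_lc.GX
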