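import Pool.Agent.P.MP_f1a348_lc.GY.DefsV
import Pool.Agent.P.MP_f1a348_lc.GX.TGOOD
import Pool.Agent.P.MP_f1a348_lc.GX.THH
import Pool.Agent.P.MP_f1a348_lc.GY.TLV

/-! Step VARI. -/

set_option autoImplicit false
set_option linter.unusedSectionVars false

namespace Pool.Agent.P.MP_f1a348_lc.GX

open Equiv Finset MulAction
open scoped Classical
variable {G Y : Type} [Group G] [MulAction G Y] [DecidableEq Y] {P : Pm} {H H' K K' : Subgroup G}
  {D D' : Finset Y} {Γ Γ' : Sy Y} {v v' : Vw G Y} {W : ℕ → Vw G Y → Prop}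
  {U1 U2 U1' U2' Fo Fo' : Finset Y → Prop}

open LVx

namespace VARIx

lemma bl_eq (x : ℕ) : bl x = Nat.size x := Nat.size_eq_bits_len x

lemma lg_two_pow (k : ℕ) : lg (2 ^ k) = k := LVx.lg_two_pow k

lemma unit_eq (P : Pm) : (P.unit : ℝ) = 2 ^ 70 * ((P.lam : ℝ) + 1) := by
  unfold Pm.unit; push_cast; ring

lemma c_le {P : Pm} {c : ℕ} (hc : c ≤ 2048 * P.g) : (c : ℝ) ≤ 2 ^ 24 * ((P.lam : ℝ) + 1) := by
  have : c ≤ 2 ^ 24 * (P.lam + 1) := by unfold Pm.g at hc; omega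
  exact_mod_cast this

lemma clog_le (a : ℕ) : (Nat.clog 2 a : ℝ) ≤ lg a + 1 := by
  rcases h : Nat.clog 2 a with _ | k
  · have := lg_nonneg a
    push_cast; linarith
  · have h1 : 2 ^ k < a := (Nat.lt_clog_iff_pow_lt one_lt_two).1 (by omega)
    have h2 := lg_mono h1.le
    rw [LVx.lg_two_pow] at h2
    push_cast; linarith

end VARIx

open VARIx hiding lg_two_pow

theorem lt_two_pow_bl (x : ℕ) : x < 2 ^ bl x := by
  rw [bl_eq]; exact Nat.lt_size_self x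

theorem bl_le_lg (x : ℕ) : (bl x : ℝ) ≤ lg x + 1 := by
  rw [bl_eq]
  rcases h : Nat.size x with _ | k
  · have := lg_nonneg x
    push_cast; linarith
  · have h1 : 2 ^ k ≤ x := Nat.lt_size.1 (by omega)
    have h2 := lg_mono h1
    rw [lg_two_pow] at h2
    push_cast; linarith

theorem bl_mono {x y : ℕ} (h : x ≤ y) : bl x ≤ bl y := by
  rw [bl_eq, bl_eq]; exact Nat.size_le_size h

theorem bl_le {x L : ℕ} (h : x ≤ 2 ^ L) : bl x ≤ L + 1 := by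
  rw [bl_eq]
  refine Nat.size_le.2 (lt_of_le_of_lt h ?_)
  exact Nat.pow_lt_pow_right one_lt_two (Nat.lt_succ_self L)

theorem Pm.g_le : 4096 * P.g ≤ P.unit := by
  unfold Pm.g Pm.unit; omega

theorem one_le_lg {a : ℕ} (h : 2 ≤ a) : 1 ≤ lg a := HHx.lg1 h

theorem ta_le {a : ℕ} (h : a ≤ 2 ^ P.lam) : ta a ≤ P.tau := by
  have : Nat.clog 2 a ≤ P.lam := (Nat.clog_le_iff_le_pow one_lt_two).2 h
  unfold Pm.tau Pm.t ta; omega

theorem ari_pin {z x y d a m : ℕ} (h2 : 2 ≤ a) (ha : a ≤ m) (hz : z ≤ m) (hx : x ≤ z)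
    (hy : y ≤ 2 * d) (hd : d ≤ ta a) :
    ((lc z + 2 * y * bl x : ℕ) : ℝ) ≤ 2 ^ 11 * (lg m * (1 + min (d : ℝ) (lg x))) := by
  have a1 := HHx.lg1 h2
  have a2 := lg_mono ha
  have a3 := (bl_le_lg z).trans (add_le_add_left (lg_mono hz) 1)
  have a4 := bl_le_lg x
  have a5 := lg_mono (hx.trans hz)
  have a6 := clog_le a
  have a7 : (d : ℝ) ≤ 100 * (Nat.clog 2 a + 1) + 3 := by exact_mod_cast hd
  have a8 : (y : ℝ) ≤ 2 * d := by exact_mod_cast hy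
  have a9 : (0 : ℝ) ≤ bl x := Nat.cast_nonneg _
  have a10 : (0 : ℝ) ≤ d := Nat.cast_nonneg _
  have a11 := lg_nonneg x
  unfold lc
  push_cast
  rcases le_total (d : ℝ) (lg x) with e | e
  · rw [min_eq_left e]
    have := mul_le_mul a8 (by linarith : (bl x : ℝ) ≤ 2 * lg m) a9 (by linarith)
    have := mul_nonneg a10 (by linarith : 0 ≤ lg m)
    nlinarith
  · rw [min_eq_right e]
    have := mul_le_mul (by linarith : (y : ℝ) ≤ 606 * lg m) a4 a9 (by linarith)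
    have := mul_nonneg a11 (by linarith : 0 ≤ lg m)
    nlinarith

theorem ari_quo {z x r m : ℕ} (h2 : 2 ≤ m) (hz : z ≤ m) (hx : x ≤ z) :
    ((lc z + 4 * r * bl x : ℕ) : ℝ) ≤ 2 ^ 11 * (lg m * (1 + (r : ℝ))) := by
  have a1 := HHx.lg1 h2
  have a3 := (bl_le_lg z).trans (add_le_add_left (lg_mono hz) 1)
  have a4 := (bl_le_lg x).trans (add_le_add_left (lg_mono (hx.trans hz)) 1)
  have a10 : (0 : ℝ) ≤ r := Nat.cast_nonneg _
  have := mul_le_mul_of_nonneg_left (by linarith : (bl x : ℝ) ≤ 2 * lg m) a10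
  have := mul_nonneg a10 (by linarith : 0 ≤ lg m)
  unfold lc
  push_cast
  nlinarith

theorem ari_big {c y : ℕ} {t : ℝ} (hc : c ≤ 2048 * P.g) (ht : (P.lam : ℝ) + 1 ≤ t)
    (hy : (y : ℝ) ≤ 2 ^ 11 * t) : ((c + y : ℕ) : ℝ) ≤ P.unit * (t / (P.lam + 1)) := by
  have h1 := c_le hc
  have d := lam1 P
  rw [unit_eq, mul_assoc, mul_div_cancel₀ _ d.ne']
  push_cast
  linarith

theorem ari_kill {c x a : ℕ} (hc : c ≤ 2048 * P.g) (h2 : 2 ≤ a) (ha : a ≤ 2 ^ P.lam) (hx : x ≤ a)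
    (h : x ≤ P.t0 ∨ (x : ℝ) * lg x ≤ 9 * lg a ^ 2) :
    ((c + 2 * x * bl x : ℕ) : ℝ) ≤ P.unit * lg a := by
  have h1 := c_le hc
  have h3 := HHx.lg1 h2
  have h4 := bl_le_lg x
  have h5 := lg_mono hx
  have h8 : (0 : ℝ) ≤ bl x := Nat.cast_nonneg _
  have h10 := (lam1 P).le
  have k3 := mul_le_mul_of_nonneg_left h3 h10
  rw [unit_eq]
  push_cast
  by_cases e : x ≤ P.t0
  · have k1 : (x : ℝ) ≤ 2 ^ 65 * ((P.lam : ℝ) + 1) := by
      have : x ≤ 2 ^ 65 * (P.lam + 1) := by unfold Pm.t0 Pm.tau Pm.t Pm.s at e; omega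
      exact_mod_cast this
    have k2 := mul_le_mul k1 (by linarith : (bl x : ℝ) ≤ 2 * lg a) h8 (by positivity)
    nlinarith
  · have k0 := lg_le_lam ha
    have k1 := HHx.lg1 (q := x) (by unfold Pm.t0 at e; omega)
    have k2 := mul_le_mul_of_nonneg_left (by linarith : (bl x : ℝ) ≤ 2 * lg x)
      (Nat.cast_nonneg (α := ℝ) x)
    have k4 := h.resolve_left e
    have k5 := mul_le_mul_of_nonneg_right (by linarith : lg a ≤ P.lam + 1) (lg_nonneg a)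
    nlinarith

theorem ari_den {c y a : ℕ} (hc : c ≤ 2048 * P.g) (h2 : 2 ≤ a) (hy : y ≤ 2 * P.tau) :
    ((c + 2 * y * bl a : ℕ) : ℝ) ≤ P.unit * lg a := by
  have h1 := c_le hc
  have h3 := HHx.lg1 h2
  have h4 := bl_le_lg a
  have h8 : (0 : ℝ) ≤ bl a := Nat.cast_nonneg _
  have h10 := (lam1 P).le
  have h5 : (y : ℝ) ≤ 218 * ((P.lam : ℝ) + 1) := by
    have : y ≤ 218 * (P.lam + 1) := by unfold Pm.tau Pm.t Pm.s at hy; omega
    exact_mod_cast this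
  have k2 := mul_le_mul h5 (by linarith : (bl a : ℝ) ≤ 2 * lg a) h8 (by positivity)
  have k3 := mul_le_mul_of_nonneg_left h3 h10
  rw [unit_eq]
  push_cast
  nlinarith

theorem ari_cst {c a : ℕ} (hc : c ≤ 2048 * P.g) (h2 : 2 ≤ a) :
    ((c + P.cst a : ℕ) : ℝ) ≤ P.unit * lg a := by
  have h1 := c_le hc
  have h3 := HHx.lg1 h2
  have h4 := bl_le_lg a
  have h6 : (0 : ℝ) ≤ P.lam := Nat.cast_nonneg _
  have h8 : (0 : ℝ) ≤ bl a := Nat.cast_nonneg _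
  have h10 := (lam1 P).le
  have k2 := mul_le_mul (by linarith : 100 * ((P.lam : ℝ) + 1) + 3 ≤ 103 * ((P.lam : ℝ) + 1))
    (by linarith : (bl a : ℝ) ≤ 2 * lg a) h8 (by positivity)
  have k3 := mul_le_mul_of_nonneg_left h3 h10
  rw [unit_eq]
  unfold Pm.cst Pm.g Pm.t
  push_cast
  nlinarith

theorem ari_lc {c o : ℕ} (hc : c ≤ 2048 * P.g) (ho : 4 * P.tau ≤ o) :
    1 ≤ 2 ^ 15 * lg (Nat.sqrt o) ∧
      ((c + P.cst o : ℕ) : ℝ) ≤ P.unit * (2 ^ 15 * lg (Nat.sqrt o)) := by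
  replace ho : 4 ≤ o := by unfold Pm.tau Pm.t at ho; omega
  have h1 := c_le hc
  have s1 : 2 ≤ o.sqrt := Nat.le_sqrt.2 ho
  have s2 := Nat.lt_succ_sqrt o
  have s3 : o ≤ o.sqrt * o.sqrt * (o.sqrt * o.sqrt) := by
    have : o.sqrt.succ ≤ o.sqrt * o.sqrt := by rw [Nat.succ_eq_add_one]; nlinarith
    exact s2.le.trans (Nat.mul_le_mul this this)
  have s4 := lg_mono s3
  rw [lg_mul (by positivity) (by positivity), lg_mul (by omega) (by omega)] at s4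
  have h3 := HHx.lg1 s1
  have h4 := bl_le_lg o
  have h6 : (0 : ℝ) ≤ P.lam := Nat.cast_nonneg _
  have h8 : (0 : ℝ) ≤ bl o := Nat.cast_nonneg _
  have h10 := (lam1 P).le
  have k2 := mul_le_mul (by linarith : 100 * ((P.lam : ℝ) + 1) + 3 ≤ 103 * ((P.lam : ℝ) + 1))
    (by linarith : (bl o : ℝ) ≤ 5 * lg o.sqrt) h8 (by positivity)
  have k3 := mul_le_mul_of_nonneg_left h3 h10
  refine ⟨by linarith, ?_⟩
  rw [unit_eq]
  unfold Pm.cst Pm.g Pm.t
  push_cast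
  nlinarith

theorem ari_john {a c e : ℕ} (he : 2 ≤ e) (hc : e ^ 2 ≤ c) (h0 : P.t0 ≤ c)
    (ha : c.choose e ≤ a) (hl : a ≤ 2 ^ P.lam) : e < P.tau ∧ e < c := by
  have h1 : 2 * e ≤ c := by nlinarith
  have h2 := HHx.pow_le_choose (r := 2) one_le_two e c (by exact_mod_cast h1)
  have h3 : 2 ^ e ≤ c.choose e := by exact_mod_cast h2
  have h4 : e ≤ P.lam := (Nat.pow_le_pow_iff_right one_lt_two).1 (h3.trans (ha.trans hl))
  exact ⟨by unfold Pm.tau Pm.t Pm.s; omega, by omega⟩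

theorem big_of_not_drop {A B : Finset Y} (hA : A.Nonempty) (hB : B.Nonempty) (h : ¬ Drop A B) :
    3 * A.card < 4 * B.card := by
  by_contra k
  apply h
  have h4 : (0 : ℝ) < B.card := by exact_mod_cast card_pos.2 hB
  have h5 := HHx.lb_le (x := 4 / 3 * B.card) (y := A.card) (by positivity) (by
    have : (4 : ℝ) * B.card ≤ 3 * A.card := by exact_mod_cast not_lt.1 k
    linarith)
  rw [Real.logb_mul (by norm_num) h4.ne'] at h5
  have h6 := HHx.lb_ge (x := 4 / 3) (k := 3) (by norm_num) (by norm_num)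
  push_cast at h6
  unfold Drop lg
  linarith

theorem Bud.cost {n φ c : ℕ} {Φ γ : ℝ} (h : Bud P n φ Φ) (h1 : γ ≤ Φ + 1)
    (h2 : (c : ℝ) ≤ P.unit * γ) : c ≤ φ := by
  have h3 := mul_le_mul_of_nonneg_left h1 (Nat.cast_nonneg (α := ℝ) P.unit)
  exact_mod_cast h2.trans (h3.trans h.fuel)

/- if X is empty use the potential -1 or Rules.leaf; here no rule is needed: IH with Φ - γ -/
theorem IH.use {n φ c : ℕ} {Φ γ : ℝ} (ih : IH P W n) (h : Bud P n φ Φ) (h1 : 1 ≤ γ)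
    (h2 : (c : ℝ) ≤ P.unit * γ) (h3 : c ≤ φ) (a : v.Ok P) (hp : ∀ w ∈ v.X, v.Pt P w (Φ - γ)) :
    W (φ - c) v := by
  refine ih (φ - c) v (Φ - γ) a (by linarith [h.lt]) (by linarith [h.mm]) ?_ hp
  rw [Nat.cast_sub h3]
  have := h.fuel
  linarith

end Pool.Agent.P.MP_f1a348_lc.GX
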