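import Pool.Agent.P.MP_f1a348_lc.GY.DefsP
import Pool.Agent.P.MP_f1a348_lc.GX.LibInc
import Pool.Agent.P.MP_f1a348_lc.GY.LibF
import Pool.Agent.P.MP_f1a348_lc.GY.TPNUM

/-! Step PLAB. -/

set_option autoImplicit false
set_option linter.unusedSectionVars false

namespace Pool.Agent.P.MP_f1a348_lc.GX

open Pool.Agent.Lib.Helper47 Pool.Agent.P.MP_f1a348_lc.GI Pool.Agent.P.MP_f1a348_lc.TO
variable {cx : Cx} {s s' s'' : Sta}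

namespace PLABx

theorem hi {R L : List (ℕ × List Tm)} {k : ℕ} (h : ∀ e ∈ R, e.1 < k) (c : ℕ) (l : List Tm) :
    (c + k, l) ∈ R ++ shl k L ↔ (c, l) ∈ L := by
  simp only [List.mem_append, shl, List.mem_map, Prod.mk.injEq, Nat.add_right_cancel_iff]
  refine ⟨fun e => e.elim (fun e => absurd (h _ e) (by simp)) ?_, fun e => Or.inr ⟨_, e, rfl, rfl⟩⟩
  rintro ⟨e, h1, rfl, rfl⟩
  exact h1

theorem lo {R L : List (ℕ × List Tm)} {k : ℕ} (h : ∀ e ∈ R, e.1 < k) (c : ℕ) (l : List Tm) :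
    (c, l) ∈ R ↔ c < k ∧ (c, l) ∈ R ++ shl k L := by
  simp only [List.mem_append, shl, List.mem_map, Prod.mk.injEq]
  refine ⟨fun e => ⟨h _ e, Or.inl e⟩, fun e => e.2.elim id ?_⟩
  rintro ⟨_, -, rfl, -⟩
  exact absurd e.1 (by simp)

theorem side {j : ℕ} {g : U} {D : List Tm} {A : Sx Tm} (h : cx.Side j g D A)
    {L : List (ℕ × List Tm)} {k : ℕ} (h1 : ∀ e ∈ L, e.1 < k ∧ ∀ x ∈ e.2, x ∈ A.1) :
    cx.Side (j + k) g D (A.1, A.2 ++ shl j L) := by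
  refine ⟨h.nd, h.real, fun y hy => (h.kind y hy).imp id ?_, fun e he => ?_⟩
  · rintro ⟨i, a, b, c⟩
    exact ⟨i, a, by omega, c⟩
  · rcases List.mem_append.1 he with he | he
    · exact ⟨(h.lab e he).1.trans_le (Nat.le_add_right _ _), (h.lab e he).2⟩
    · obtain ⟨e', he', rfl⟩ := List.mem_map.1 he
      exact ⟨by have := (h1 e' he').1; dsimp only; omega, (h1 e' he').2⟩

theorem grs {j K w : ℕ} {A : Sx Tm} {L : List (ℕ × List Tm)} (h1 : L.length ≤ K)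
    (h4 : ∀ e ∈ L, e.2.length ≤ cx.pd) (hw : ∀ t ∈ A.1, Tm.wt t ≤ w) :
    cx.GrS 0 K (1 * w) A (A.1, A.2 ++ shl j L) := by
  refine ⟨le_rfl, by rwa [one_mul], by simpa [shl] using h1, fun h e he => ?_⟩
  rcases List.mem_append.1 he with he | he
  · exact h e he
  · obtain ⟨e', he', rfl⟩ := List.mem_map.1 he
    exact h4 e' he'

end PLABx

open PLABx

theorem Cx.WF0.cos (h : cx.WF0 s) {c : U × List U} (h1 : c.1 ∈ cs (some s.c))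
    (h2 : gen c.2 ≤ gen s.S) (h3 : c.2.length ≤ cx.pd) : cx.WF0 (s.cos c) := by
  have k1 : s.σ⁻¹ * c.1 ∈ gen s.S := mem_cs.1 h1
  have k2 : gen s.S ≤ SymN cx.n := gen_le.2 h.hS
  have k3 : ∀ y : Tm, s.σ⁻¹ • y ∈ s.D → c.1⁻¹ • y ∈ s.D := fun y hy => by
    simpa [← mul_smul] using h.inv _ (inv_mem k1) _ hy
  refine ⟨?_, fun g hg => k2 (h2 (mem_gen hg)), h3, h.nd, h.ab, h.inv.mono h2, h.nx, h.ny, h.xd,
    fun y hy => k3 y (h.yd y hy), h.ctr, h.a, h.b.nd, fun x hx => ?_,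
    fun y hy => (h.b.kind y hy).imp (k3 y) id, h.b.lab⟩
  · change c.1 ∈ SymN cx.n
    simpa using mul_mem h.hσ (k2 k1)
  · change c.1 • x ∈ s.B.1
    simpa [← mul_smul] using h.b.real _ (h.inv _ k1 _ hx)

theorem cs_sub {c : U × List U} (h1 : c.1 ∈ cs (some s.c)) (h2 : gen c.2 ≤ gen s.S) :
    cs (some c) ⊆ cs (some s.c) := by
  intro g hg
  have k : s.σ⁻¹ * c.1 * (c.1⁻¹ * g) ∈ gen s.S := mul_mem (mem_cs.1 h1) (h2 (mem_cs.1 hg))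
  have k' : s.σ⁻¹ * g ∈ gen s.S := by simpa [mul_assoc] using k
  exact mem_cs.2 k'

theorem Sta.cos_sol {c : U × List U} (h : cs (some c) ⊆ cs (some s.c)) {g : U} :
    g ∈ (s.cos c).Sol ↔ g ∈ s.Sol ∧ g ∈ cs (some c) := by
  exact ⟨fun e => ⟨⟨h e.1, e.2⟩, e.1⟩, fun e => ⟨e.2, e.1.2⟩⟩

theorem Sta.cos_wit {c : U × List U} (h : cs (some c) ⊆ cs (some s.c)) {g : U} {f : Tm → Tm} :
    (s.cos c).Wit g f ↔ s.Wit g f ∧ g ∈ cs (some c) := by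
  exact ⟨fun e => ⟨⟨((Sta.cos_sol h).1 e.sol).1, e.iso, e.eq⟩, e.sol.1⟩,
    fun e => ⟨(Sta.cos_sol h).2 ⟨e.1.sol, e.2⟩, e.1.iso, e.1.eq⟩⟩

theorem Cx.cos_mono {c : U × List U} (h : gen c.2 ≤ gen s.S) :
    (cx.view s).Mono (cx.view (s.cos c)) := by
  exact ⟨h, subset_rfl, subset_rfl, subset_rfl, fun _ _ _ e => e, fun _ e => e, fun _ e => e,
    fun _ e => e⟩

theorem Cx.WF0.act (h : cx.WF0 s) {X Y : List Tm} (h1 : X.Nodup) (h2 : Y.Nodup)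
    (h3 : ∀ x ∈ X, x ∈ s.D) (h4 : ∀ y ∈ Y, s.σ⁻¹ • y ∈ s.D) : cx.WF0 (s.act X Y) := by
  exact ⟨h.hσ, h.hS, h.len, h.nd, h.ab, h.inv, h1, h2, h3, h4, h.ctr, h.a, h.b⟩

theorem Sta.act_wit {X Y : List Tm} {g : U} {f : Tm → Tm} (h : s.Wit g f) (e : Maps g X Y) :
    (s.act X Y).Wit g f := by
  exact ⟨⟨h.sol.1, e⟩, h.iso, h.eq⟩

theorem Cx.act_mono {X Y : List Tm} (h : ∀ x ∈ X, x ∈ s.X) :
    (cx.view s).Mono (cx.view (s.act X Y)) := by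
  exact ⟨le_rfl, subset_rfl, fun x hx => List.mem_toFinset.2 (h x (List.mem_toFinset.1 hx)),
    subset_rfl, fun _ _ _ e => e, fun _ e => e, fun _ e => e, fun _ e => e⟩

theorem Cx.WF0.lab (h : cx.WF0 s) {Lx Ly : List (ℕ × List Tm)} {k : ℕ}
    (h1 : ∀ e ∈ Lx, e.1 < k ∧ ∀ x ∈ e.2, x ∈ s.A.1)
    (h2 : ∀ e ∈ Ly, e.1 < k ∧ ∀ x ∈ e.2, x ∈ s.B.1) : cx.WF0 (s.lab Lx Ly k) := by
  exact ⟨h.hσ, h.hS, h.len, h.nd, h.ab, h.inv, h.nx, h.ny, h.xd, h.yd,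
    h.ctr.trans (Nat.le_add_right _ _), side h.a h1, side h.b h2⟩

theorem Cx.WF.lab (h : cx.WF s) {Lx Ly : List (ℕ × List Tm)} {k : ℕ}
    (h1 : ∀ e ∈ Lx, e.1 < k ∧ ∀ x ∈ e.2, x ∈ s.A.1)
    (h2 : ∀ e ∈ Ly, e.1 < k ∧ ∀ x ∈ e.2, x ∈ s.B.1) : cx.WF (s.lab Lx Ly k) := by
  exact ⟨h.toWF0.lab h1 h2, h.ca, h.cb⟩

theorem Cx.WF0.lab_wit (h : cx.WF0 s) {Lx Ly : List (ℕ × List Tm)} {k : ℕ} {g : U} {f : Tm → Tm} :
    (s.lab Lx Ly k).Wit g f ↔ s.Wit g f ∧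
      ∀ c (l : List Tm), (∀ x ∈ l, x ∈ s.A.1) → ((c, l) ∈ Lx ↔ (c, l.map f) ∈ Ly) := by
  have ha : ∀ e ∈ s.A.2, e.1 < s.ctr := fun e he => (h.a.lab e he).1
  have hb : ∀ e ∈ s.B.2, e.1 < s.ctr := fun e he => (h.b.lab e he).1
  refine ⟨fun e => ⟨⟨e.sol, ⟨e.iso.bij, fun c l hl => ?_⟩, e.eq⟩, fun c l hl => ?_⟩,
    fun e => ⟨e.1.sol, ⟨e.1.iso.bij, fun c l hl => ?_⟩, e.1.eq⟩⟩
  · rw [lo (L := Lx) ha, lo (L := Ly) hb]
    exact and_congr_right fun _ => e.iso.rel c l hl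
  · exact (hi (L := Lx) ha c l).symm.trans ((e.iso.rel _ l hl).trans (hi (L := Ly) hb c _))
  · change (c, l) ∈ s.A.2 ++ shl s.ctr Lx ↔ (c, l.map f) ∈ s.B.2 ++ shl s.ctr Ly
    rcases lt_or_ge c s.ctr with k | k
    · have := e.1.iso.rel c l hl
      rwa [lo (L := Lx) ha, lo (L := Ly) hb, and_iff_right k, and_iff_right k] at this
    · obtain ⟨c, rfl⟩ := Nat.exists_eq_add_of_le' k
      rw [hi ha, hi hb]
      exact e.2 c l hl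

theorem Sta.ext_lab (s : Sta) (Lx Ly : List (ℕ × List Tm)) (k : ℕ) : s.Ext (s.lab Lx Ly k) := by
  refine ⟨⟨[], (List.append_nil _).symm⟩, ⟨[], (List.append_nil _).symm⟩, fun _ h => h,
    Nat.le_add_right _ _, fun e he => List.mem_append.trans (or_iff_left fun h => ?_)⟩
  obtain ⟨e', -, rfl⟩ := List.mem_map.1 h
  exact absurd he (by simp)

theorem Cx.WF0.lab_mono (hc : cx.Ok) (h : cx.WF0 s) (Lx Ly : List (ℕ × List Tm)) (k : ℕ) :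
    (cx.view s).Mono (cx.view (s.lab Lx Ly k)) := by
  refine ⟨le_rfl, subset_rfl, subset_rfl, subset_rfl, fun A _ f e => ?_, (s.ext_lab _ _ _).f1,
    (s.ext_lab _ _ _).f2, (s.ext_lab _ _ _).fr⟩
  exact wsys_labels (X := s.A) (X' := (s.lab Lx Ly k).A) (fun _ => Iff.rfl) s.ctr
    (lo fun e he => (h.a.lab e he).1) (le_trans (by omega) hc.nums.2.2.2.2.2.1) e

theorem Cx.WF0.lab_rel (h : cx.WF0 s) {Lx Ly : List (ℕ × List Tm)} {k : ℕ} {Z : Finset Tm}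
    {f : Equiv.Perm Tm} (hf : (cx.view (s.lab Lx Ly k)).Γ.L Z f) {l : List Tm}
    (hl : ∀ x ∈ l, x ∈ Z) (hk : l.toFinset.card ≤ cx.uM.length) (c : ℕ) :
    (c, l) ∈ Lx ↔ (c, l.map f) ∈ Lx := by
  have ha : ∀ e ∈ s.A.2, e.1 < s.ctr := fun e he => (h.a.lab e he).1
  exact (hi (L := Lx) ha c l).symm.trans ((wsys_rel hf _ hl hk).trans (hi (L := Lx) ha c _))

/- a binary label gives an invariant relation, a unary label an invariant set -/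
theorem Cx.WF0.lab_inv2 (hc : cx.Ok) (h : cx.WF0 s) {Lx Ly : List (ℕ × List Tm)} {k : ℕ} (c : ℕ)
    (h1 : ∀ e ∈ Lx, ∀ x ∈ e.2, x ∈ s.A.1) :
    (cx.view (s.lab Lx Ly k)).Γ.Inv2 (fun a b => (c, [a, b]) ∈ Lx) := by
  refine ⟨fun a b e => ⟨List.mem_toFinset.2 (h1 _ e a (by simp)),
    List.mem_toFinset.2 (h1 _ e b (by simp))⟩, ?_⟩
  rintro a b _ _ ⟨f, hf, rfl, rfl⟩ e
  exact (h.lab_rel hf (l := [a, b]) (by simp) ((List.toFinset_card_le _).trans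
    (le_trans (by simp) hc.nums.2.2.2.2.2.1)) c).1 e

theorem Cx.WF0.lab_inv1 (hc : cx.Ok) (h : cx.WF0 s) {Lx Ly : List (ℕ × List Tm)} {k : ℕ} (c : ℕ)
    {Z : Finset Tm} (h1 : ∀ x ∈ Z, x ∈ s.A.1) (h2 : ∀ x, x ∈ Z ↔ (c, [x]) ∈ Lx) :
    (cx.view (s.lab Lx Ly k)).Γ.Inv1 Z := by
  refine ⟨fun x hx => List.mem_toFinset.2 (h1 x hx), ?_⟩
  rintro a _ ⟨f, hf, rfl⟩ e
  exact (h2 _).2 ((h.lab_rel hf (l := [a]) (by simp) ((List.toFinset_card_le _).trans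
    (le_trans (by simp) hc.nums.2.2.2.2.2.1)) c).1 ((h2 a).1 e))

theorem Cx.lab_gro {Lx Ly : List (ℕ × List Tm)} {k K : ℕ} (h1 : Lx.length ≤ K) (h2 : Ly.length ≤ K)
    (h3 : k ≤ K) (h4 : ∀ e ∈ Lx, e.2.length ≤ cx.pd) (h5 : ∀ e ∈ Ly, e.2.length ≤ cx.pd) :
    cx.Gro s (s.lab Lx Ly k) 0 0 K 1 := by
  exact ⟨le_rfl, Nat.add_le_add_left h3 _, fun w _ a b => ⟨grs h1 h4 a, grs h2 h5 b⟩, le_rfl,
    fun _ h => .inl h⟩

end Pool.Agent.P.MP_f1a348_lc.GX
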