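import Pool.Agent.P.MP_f1a348_lc.GY.TPSIZE
import Pool.Agent.P.MP_f1a348_lc.GY.TPCOL
import Pool.Agent.P.MP_f1a348_lc.GY.TPLAB
import Pool.Agent.P.MP_f1a348_lc.GX.LibChn
import Pool.Agent.P.MP_f1a348_lc.GY.LibSub

/-! Graph isomorphism: the frame that cuts a giant orbit along its colour classes. -/

set_option autoImplicit false
set_option linter.unusedSectionVars false

namespace Pool.Agent.P.MP_f1a348_lc.GX

open Pool.Agent.Lib.Helper47 Pool.Agent.P.MP_f1a348_lc.GI Pool.Agent.P.MP_f1a348_lc.TO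

theorem lmul_one {G : Type} [Group G] (a : Option (G × List G)) : lmul 1 a = a := by
  cases a <;> simp [lmul]

/-- a giant is transitive -/
theorem Giant.trans3 {G Ω : Type} [Group G] [MulAction G Ω] [DecidableEq Ω] {H : Subgroup G}
    {O : Finset Ω} (h : Giant H O) (c : 3 ≤ O.card) {a b : Ω} (ha : a ∈ O) (hb : b ∈ O) :
    ∃ g ∈ H, g • a = b := by
  by_cases e : a = b
  · exact ⟨1, one_mem _, by rw [one_smul, e]⟩
  obtain ⟨z, hz, h1⟩ := Finset.exists_mem_notMem_of_card_lt_card (s := {a, b}) (t := O)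
    (Finset.card_le_two.trans_lt c)
  simp only [Finset.mem_insert, Finset.mem_singleton, not_or] at h1
  obtain ⟨g, g1, g2⟩ := h a ha z hz b hb (Ne.symm h1.1) e h1.2
  exact ⟨g, g1, by
    rw [g2 a ha, Equiv.Perm.mul_apply, Equiv.swap_apply_left,
      Equiv.swap_apply_of_ne_of_ne (Ne.symm e) (Ne.symm h1.2)]⟩

namespace Cx
variable (cx : Cx) (s s1 : Sta) (w0 u0 : Tm) (O : List Tm)

/-- the elements of the coset that keep the colours of `s1` on `O` -/
noncomputable def cutC : Ans :=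
  meet cx.pad cx.base s.c O (keyC O (O.map (fun x => s.σ • x))
    (fun x => cx.col s1 false [x]) (fun x => cx.col s1 true [x]))

/-- the points of the list `L` of the side `b` with the colour of `u` -/
def cutK (b : Bool) (L : List Tm) (u : Tm) : List Tm :=
  L.filter (fun x => cx.col s1 b [x] == cx.col s1 false [u])

/-- a point of a large class -/
def cutB : Option Tm :=
  O.find? (fun u => Nat.blt (3 * O.length) (4 * (cx.cutK s1 false O u).length))

/-- the large class on the side `b` -/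
noncomputable def cutO (b : Bool) : List Tm :=
  (cx.cutB s1 O).elim [] (cx.cutK s1 b (bif b then O.map (fun x => s.σ • x) else O))

/-- the point `w` of the side `b` has a head in the large class -/
noncomputable def cutH (b : Bool) (w : Tm) : Bool :=
  (cx.cutO s s1 O b).any (fun u => cx.col s b [w, u] == cx.col s false [w0, u0])

/-- the state of the piece `t` over the coset `a` -/
noncomputable def cutS (t : Bool) (a : U × List U) : Sta :=
  (s.cos a).act (s.X.filter (fun w => cx.cutH s s1 w0 u0 O false w == t))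
    (s.Y.filter (fun w => cx.cutH s s1 w0 u0 O true w == t))

/-- the pieces -/
def cutI : List Bool := bif (cx.cutB s1 O).isSome then [true, false] else [false]

section pt
variable {α : Type} [Enc α] {c : α → Cx} {s s1 : α → Sta} {w0 u0 : α → Tm} {O : α → List Tm}
@[fun_prop] theorem pt_cutC (h0 : PT c) (h : PT s) (h1 : PT s1) (h2 : PT O) :
    PT (fun a => (c a).cutC (s a) (s1 a) (O a)) := by unfold cutC; fun_prop
@[fun_prop] theorem pt_cutK {b : α → Bool} (h0 : PT c) (h1 : PT s1) (hb : PT b) (h2 : PT O)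
    (h3 : PT u0) : PT (fun a => (c a).cutK (s1 a) (b a) (O a) (u0 a)) := by unfold cutK; fun_prop
@[fun_prop] theorem pt_cutB (h0 : PT c) (h1 : PT s1) (h2 : PT O) :
    PT (fun a => (c a).cutB (s1 a) (O a)) := by unfold cutB; fun_prop
@[fun_prop] theorem pt_cutO {b : α → Bool} (h0 : PT c) (h : PT s) (h1 : PT s1) (h2 : PT O)
    (hb : PT b) : PT (fun a => (c a).cutO (s a) (s1 a) (O a) (b a)) := by unfold cutO; fun_prop
@[fun_prop] theorem pt_cutH {b : α → Bool} {w : α → Tm} (h0 : PT c) (h : PT s) (h1 : PT s1)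
    (h3 : PT w0) (h4 : PT u0) (h2 : PT O) (hb : PT b) (hw : PT w) :
    PT (fun a => (c a).cutH (s a) (s1 a) (w0 a) (u0 a) (O a) (b a) (w a)) := by
  unfold cutH; fun_prop
@[fun_prop] theorem pt_cutS {t : α → Bool} {p : α → U × List U} (h0 : PT c) (h : PT s) (h1 : PT s1)
    (h3 : PT w0) (h4 : PT u0) (h2 : PT O) (ht : PT t) (hp : PT p) :
    PT (fun a => (c a).cutS (s a) (s1 a) (w0 a) (u0 a) (O a) (t a) (p a)) := by
  unfold cutS; fun_prop
@[fun_prop] theorem pt_cutI (h0 : PT c) (h1 : PT s1) (h2 : PT O) :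
    PT (fun a => (c a).cutI (s1 a) (O a)) := by unfold cutI; fun_prop
end pt

/-- the group of the state is a giant on the invariant list `O` -/
structure Gi : Prop where
  wf : cx.WF s
  nd : O.Nodup
  sub : ∀ u ∈ O, u ∈ s.D
  inv : InvL (gen s.S) O
  gi : Giant (gen s.S) O.toFinset

/-- the same structures, a smaller coset, fewer active points -/
structure Nx (s2 : Sta) : Prop where
  wf : cx.WF s2
  d : s2.D = s.D
  q : s2.q = s.q
  ctr : s2.ctr = s.ctr
  hs : s2.hs = s.hs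
  sg : s2.σ ∈ cs (some s.c)
  le : gen s2.S ≤ gen s.S
  x : ∀ w ∈ s2.X, w ∈ s.X

/-- a coset inside the coset of the state whose group keeps the colours -/
structure Kp (p : U × List U) : Prop where
  sg : p.1 ∈ cs (some s.c)
  le : gen p.2 ≤ gen s.S
  len : p.2.length ≤ cx.pd
  col : ∀ h ∈ gen p.2, ∀ u ∈ O, cx.col s1 false [h • u] = cx.col s1 false [u]

variable {cx s s1 w0 u0 O} {s2 s3 : Sta}

theorem Nx.a (h : cx.Nx s s2) : s2.A = s.A := congrArg Prod.fst h.q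
theorem Nx.b (h : cx.Nx s s2) : s2.B = s.B := congrArg Prod.snd h.q

theorem Nx.sz (h : cx.Nx s s2) {φ : ℕ} (e : cx.Sz s φ) : cx.Sz s2 φ :=
  ⟨e.f, h.d ▸ e.d, h.ctr ▸ e.k, h.a ▸ e.a, h.b ▸ e.b, h.hs ▸ e.h, h.hs ▸ e.i⟩

theorem Nx.gam (h : cx.Nx s s2) : (cx.view s2).Γ = (cx.view s).Γ :=
  congrArg (wsys cx.uM.length) h.a

theorem Nx.ext (h : cx.Nx s s2) : s.Ext s2 := .of_eq h.d h.a h.ctr fun _ e => h.hs ▸ e

theorem Nx.mono (h : cx.Nx s s2) : (cx.view s).Mono (cx.view s2) :=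
  ⟨h.le, (congrArg List.toFinset h.d).ge, fun w hw =>
    List.mem_toFinset.2 (h.x w (List.mem_toFinset.1 hw)), (congrArg Sy.D h.gam).ge,
    fun _ _ _ e => h.gam ▸ e, h.ext.f1, h.ext.f2, h.ext.fr⟩

theorem Nx.gro (h : cx.Nx s s2) : cx.Gro s s2 0 0 0 1 := Gro.of_eq h.d h.q h.ctr h.hs

theorem Nx.refl (h : cx.WF s) : cx.Nx s s :=
  ⟨h, rfl, rfl, rfl, rfl, self_mem_cs _ _, le_rfl, fun _ e => e⟩

theorem Nx.trans (h : cx.Nx s s2) (h' : cx.Nx s2 s3) : cx.Nx s s3 :=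
  ⟨h'.wf, h'.d.trans h.d, h'.q.trans h.q, h'.ctr.trans h.ctr, h'.hs.trans h.hs,
    cs_sub (c := s2.c) h.sg h.le h'.sg, h'.le.trans h.le, fun w e => h.x w (h'.x w e)⟩

theorem mem_cutK {b : Bool} {L : List Tm} {u x : Tm} :
    x ∈ cx.cutK s1 b L u ↔ x ∈ L ∧ cx.col s1 b [x] = cx.col s1 false [u] := by
  simp [cutK]

theorem cutB_some {u : Tm} (h : cx.cutB s1 O = some u) :
    u ∈ O ∧ 3 * O.length < 4 * (cx.cutK s1 false O u).length :=
  ⟨List.mem_of_find?_eq_some h, by simpa [Nat.blt_eq] using List.find?_some h⟩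

theorem cutB_none (h : cx.cutB s1 O = none) {u : Tm} (hu : u ∈ O) :
    4 * (cx.cutK s1 false O u).length ≤ 3 * O.length := by
  simpa [Nat.blt_eq] using List.find?_eq_none.1 h u hu

theorem length_cutI : (cx.cutI s1 O).length ≤ 2 := by
  unfold cutI; cases (cx.cutB s1 O).isSome <;> simp

theorem size_cutI : size (cx.cutI s1 O) ≤ 16 := by
  have := size_list_le (l := cx.cutI s1 O) (b := 3) fun x _ => size_bool x
  have := length_cutI (cx := cx) (s1 := s1) (O := O)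
  omega

theorem Gi.len (hc : cx.Ok) (h : cx.Gi s O) : O.length ≤ cx.pad.length :=
  (List.subperm_of_subset h.nd h.sub).length_le.trans (h.wf.dlen.1.trans
    ((Nat.pow_le_pow_right two_pos (by omega)).trans hc.nums.1))

theorem Gi.idx (hc : cx.Ok) (h : cx.Gi s O) (k : Tm → ℕ) :
    Idx (indBy (gen s.S) O h.inv : Subgroup (FP Tm)) (gen (swaps O k)) cx.pad.length :=
  (idx_of_giant h.inv (fun u hu a ha => ((swaps_le _ _ hu).1 a).2 ha) h.gi).mono le_rfl
    ((Nat.le_self_pow (by norm_num) 2).trans hc.nums.2.1)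

/-- the first coset -/
theorem Gi.cutC (hc : cx.Ok) (h : cx.Gi s O) {p : U × List U} (e : cx.cutC s s1 O = some p) :
    cx.Kp s s1 O p ∧ ∀ g ∈ gen s.S, (∀ u ∈ O, cx.col s1 false [g • u] = cx.col s1 false [u]) →
      g ∈ gen p.2 := by
  have hm : cs (cx.cutC s s1 O) = _ :=
    meet_cs (c := s.c) (h.wf.toWF0.faith hc) h.inv (h.len hc) (h.idx hc _)
  have a1 := self_mem_cs p.1 p.2
  rw [← show cx.cutC s s1 O = some (p.1, p.2) from e, hm] at a1
  obtain ⟨-, a2, a3⟩ := meet_inv (W := ⊤) ⟨trivial, fun _ _ => trivial⟩ e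
  obtain ⟨g0, -, rfl⟩ := Option.map_eq_some_iff.1 e
  have hG := fun g => mem_meetG (g := g) (h.wf.toWF0.faith hc) h.inv (h.len hc)
    (h.idx hc (fun x => cx.col s1 false [x]))
  refine ⟨⟨a1.1, a2, a3, fun g hg u hu => ?_⟩, fun g hg k => ?_⟩
  · obtain ⟨-, π, b2, b3⟩ := (hG g).1 hg
    rw [b3 u hu]
    exact (swaps_le _ _ b2).2 u hu
  · obtain ⟨π, b1, b2⟩ := exists_swaps (A := O) (k := fun x => cx.col s1 false [x])
      (f := fun x => g • x) (fun _ _ _ _ e => MulAction.injective g e)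
      (fun a ha => ⟨h.inv g hg a ha, k a ha⟩)
    exact (hG g).2 ⟨hg, π, b1, fun x hx => (b2 x hx).symm⟩

theorem Gi.smul_mem (h : cx.Gi s O) {g : U} (hg : g ∈ cs (some s.c)) {y : Tm} :
    y ∈ O.map (fun x => s.σ • x) ↔ ∃ u ∈ O, g • u = y := by
  have h1 : s.σ⁻¹ * g ∈ gen s.S := mem_cs.1 hg
  rw [List.mem_map]
  constructor
  · rintro ⟨u, hu, rfl⟩
    exact ⟨_, h.inv _ (inv_mem h1) u hu, by simp [mul_smul]⟩
  · rintro ⟨u, hu, rfl⟩
    exact ⟨_, h.inv _ h1 u hu, by simp [mul_smul]⟩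

theorem Gi.cutC_mem (hc : cx.Ok) (h : cx.Gi s O) {g : U} (hg : g ∈ cs (some s.c))
    (k : ∀ u ∈ O, cx.col s1 true [g • u] = cx.col s1 false [u]) : g ∈ cs (cx.cutC s s1 O) := by
  have hm : cs (cx.cutC s s1 O) = _ :=
    meet_cs (c := s.c) (h.wf.toWF0.faith hc) h.inv (h.len hc) (h.idx hc _)
  obtain ⟨π, a1, a2⟩ := keyC_complete (B := O.map (fun x => s.σ • x))
    (ka := fun x => cx.col s1 false [x]) (kb := fun x => cx.col s1 true [x]) h.nd
    (h.nd.map (MulAction.injective _)) (by simp) (f := fun x => g • x)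
    (fun _ _ _ _ e => MulAction.injective g e) fun a ha => ⟨(h.smul_mem hg).2 ⟨a, ha, rfl⟩, k a ha⟩
  rw [hm]
  exact ⟨hg, π, a1, fun x hx => (a2 x hx).symm⟩

theorem cutO_sub {u : Tm} (hu : u ∈ cx.cutO s s1 O false) : u ∈ O := by
  unfold cutO at hu
  cases e : cx.cutB s1 O with
  | none => simp [e] at hu
  | some z => rw [e] at hu; exact (mem_cutK.1 hu).1

/-- a witness maps the pieces onto the pieces -/
theorem Gi.maps (hc : cx.Ok) (h : cx.Gi s O) {g : U} {f : Tm → Tm} (w : s.Wit g f)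
    (k : ∀ u ∈ O, cx.col s1 true [g • u] = cx.col s1 false [u]) (t : Bool) (a : U × List U) :
    Maps g (cx.cutS s s1 w0 u0 O t a).X (cx.cutS s s1 w0 u0 O t a).Y := by
  have h1 : ∀ y, y ∈ cx.cutO s s1 O true ↔ ∃ u ∈ cx.cutO s s1 O false, g • u = y := fun y => by
    unfold cutO
    cases cx.cutB s1 O with
    | none => simp
    | some z =>
      simp only [Option.elim, cond_true, cond_false, mem_cutK, h.smul_mem w.sol.1]
      constructor
      · rintro ⟨⟨u, hu, rfl⟩, e⟩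
        exact ⟨u, ⟨hu, (k u hu).symm.trans e⟩, rfl⟩
      · rintro ⟨u, ⟨hu, e⟩, rfl⟩
        exact ⟨⟨u, hu, rfl⟩, (k u hu).trans e⟩
  have h2 : ∀ x ∈ s.D, ∀ u ∈ O, cx.col s true [g • x, g • u] = cx.col s false [x, u] :=
    fun x hx u hu => by
      simpa [w.eq x hx, w.eq u (h.sub u hu)] using h.wf.col_iso hc w.iso (l := [x, u])
        (by simpa using ⟨h.wf.toWF0.dA hx, h.wf.toWF0.dA (h.sub u hu)⟩) (by simp)
  intro x
  change x ∈ List.filter _ _ ↔ _ ∈ List.filter _ _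
  rw [List.mem_filter, List.mem_filter, ← w.sol.2 x]
  refine and_congr_right fun hx => ?_
  have h3 : cx.cutH s s1 w0 u0 O true (g • x) = cx.cutH s s1 w0 u0 O false x := by
    rw [Bool.eq_iff_iff]
    simp only [cutH, List.any_eq_true, beq_iff_eq, h1]
    constructor
    · rintro ⟨_, ⟨u, hu, rfl⟩, e⟩
      exact ⟨u, hu, (h2 x (h.wf.xd x hx) u (cutO_sub hu)).symm.trans e⟩
    · rintro ⟨u, hu, e⟩
      exact ⟨_, ⟨u, hu, rfl⟩, (h2 x (h.wf.xd x hx) u (cutO_sub hu)).trans e⟩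
  rw [h3]

theorem Kp.nx (h : cx.WF s) {a : U × List U} (k : cx.Kp s s1 O a) (t : Bool) :
    cx.Nx s (cx.cutS s s1 w0 u0 O t a) := by
  have h1 := h.toWF0.cos k.sg k.le k.len
  refine ⟨⟨h1.act (h.nx.filter _) (h.ny.filter _) (fun x hx => h1.xd x (List.mem_filter.1 hx).1)
    (fun x hx => h1.yd x (List.mem_filter.1 hx).1), h.ca, h.cb⟩, rfl, rfl, rfl, rfl, k.sg, k.le,
    fun w hw => (List.mem_filter.1 hw).1⟩

/-- the next coset -/
theorem Kp.step (hc : cx.Ok) (h : cx.WF s) {a : U × List U} (k : cx.Kp s s1 O a) {t : Bool}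
    {b : Ans} (hb : cx.Post (cx.cutS s s1 w0 u0 O t a) b) :
    cs (addG cx.pad cx.base [] b) = cs b ∧ ∀ p ∈ addG cx.pad cx.base [] b, cx.Kp s s1 O p := by
  rcases b with _ | ⟨τ, T⟩
  · simp [addG]
  obtain ⟨b1, b2, -, b4, -⟩ := hb.sym (k.nx h t).wf.toWF0 _ rfl
  have e : gen (sims cx.pad cx.base ([] ++ T)) = gen T := hc.faith.gen_sims b4
  refine ⟨?_, ?_⟩
  · ext g
    change g ∈ cs (some (τ, _)) ↔ _
    rw [mem_cs, mem_cs, e]
  · rintro _ ⟨rfl⟩
    exact ⟨cs_sub k.sg k.le b1, e ▸ b2.trans k.le, sims_length _ _ _,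
      fun g hg => k.col g (b2 (e ▸ hg))⟩

/-- the large piece -/
theorem Gi.big (hc : cx.Ok) (h : cx.Gi s O) {a : U × List U} (e : cx.cutC s s1 O = some a) :
    cx.Gi (cx.cutS s s1 w0 u0 O true a) (cx.cutO s s1 O false) := by
  obtain ⟨k, k'⟩ := h.cutC hc e
  refine ⟨(k.nx h.wf true).wf, ?_, fun u hu => h.sub u (cutO_sub hu), ?_, ?_⟩ <;>
    unfold cutO <;> cases cx.cutB s1 O
  · simp
  · exact h.nd.filter _
  · intro _ _ _ hx; simp at hx
  · intro g hg x hx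
    obtain ⟨x1, x2⟩ := mem_cutK.1 hx
    exact mem_cutK.2 ⟨h.inv g (k.le hg) x x1, (k.col g hg x x1).trans x2⟩
  · intro _ hx; simp at hx
  · intro x hx y hy z hz n1 n2 n3
    obtain ⟨x1, x2⟩ := mem_cutK.1 (List.mem_toFinset.1 hx)
    obtain ⟨y1, y2⟩ := mem_cutK.1 (List.mem_toFinset.1 hy)
    obtain ⟨z1, z2⟩ := mem_cutK.1 (List.mem_toFinset.1 hz)
    obtain ⟨g, g1, g2⟩ := h.gi x (List.mem_toFinset.2 x1) y (List.mem_toFinset.2 y1) z
      (List.mem_toFinset.2 z1) n1 n2 n3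
    refine ⟨g, k' g g1 fun u hu => ?_, fun u hu =>
      g2 u (List.mem_toFinset.2 (mem_cutK.1 (List.mem_toFinset.1 hu)).1)⟩
    rw [g2 u (List.mem_toFinset.2 hu), Equiv.Perm.mul_apply, Equiv.swap_apply_def,
      Equiv.swap_apply_def]
    split_ifs <;> simp_all

theorem Gi.isO (h : cx.Gi s O) (c : 3 ≤ O.length) : (cx.view s).IsO O.toFinset := by
  have c1 : 3 ≤ O.toFinset.card := by rwa [List.toFinset_card_of_nodup h.nd]
  refine ⟨Finset.card_pos.1 (by omega), fun u hu =>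
    List.mem_toFinset.2 (h.sub u (List.mem_toFinset.1 hu)), fun u hu => Finset.ext fun y => ?_⟩
  rw [Vw.o, mem_orb]
  constructor
  · rintro ⟨-, g, hg, rfl⟩
    exact List.mem_toFinset.2 (h.inv g hg u (List.mem_toFinset.1 hu))
  · exact fun hy => ⟨List.mem_toFinset.2 (h.sub y (List.mem_toFinset.1 hy)),
      h.gi.trans3 c1 hu hy⟩

/-- the small piece -/
theorem Gi.small (hc : cx.Ok) (h : cx.Gi s O) (h1 : w0 ∈ s.A.1) (h2 : u0 ∈ s.A.1)
    (hd : ∀ w ∈ s.X, ∃ u ∈ O, (cx.view s).Γ.E2 w0 u0 w u) {a : U × List U} (k : cx.Kp s s1 O a) :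
    ∀ w ∈ (cx.cutS s s1 w0 u0 O false a).X, ∃ u ∈ O, (cx.view s).Γ.E2 w0 u0 w u ∧
      4 * ((cx.view (cx.cutS s s1 w0 u0 O false a)).o u).card ≤ 3 * O.length := by
  intro w hw
  obtain ⟨w1, w2⟩ := List.mem_filter.1 hw
  obtain ⟨u, hu, e⟩ := hd w w1
  refine ⟨u, hu, e, ?_⟩
  have a1 : ((cx.view (cx.cutS s s1 w0 u0 O false a)).o u).card ≤
      (cx.cutK s1 false O u).length := by
    refine (Finset.card_le_card fun y hy => ?_).trans (List.toFinset_card_le _)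
    obtain ⟨-, g, hg, rfl⟩ := mem_orb.1 hy
    exact List.mem_toFinset.2 (mem_cutK.2 ⟨h.inv g (k.le hg) u hu, k.col g hg u hu⟩)
  cases eb : cx.cutB s1 O with
  | none => have := cutB_none eb hu; omega
  | some z =>
    have a2 := (cutB_some eb).2
    have a3 : cx.col s1 false [u] ≠ cx.col s1 false [z] := fun r => by
      have : cx.cutH s s1 w0 u0 O false w = true := List.any_eq_true.2 ⟨u, by
        simpa [cutO, eb, mem_cutK] using ⟨hu, r⟩, by
        rw [beq_iff_eq, h.wf.col_E2 hc (h.wf.toWF0.dA (h.wf.xd w w1))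
          (h.wf.toWF0.dA (h.sub u hu)) h1 h2]
        exact e.symm⟩
      simp [this] at w2
    have a4 : (cx.cutK s1 false O u ++ cx.cutK s1 false O z).length ≤ O.length := by
      refine (List.subperm_of_subset ((h.nd.filter _).append (h.nd.filter _) fun x b1 b2 => ?_)
        fun x hx => ?_).length_le
      · exact a3 ((mem_cutK.1 b1).2.symm.trans (mem_cutK.1 b2).2)
      · exact (List.mem_append.1 hx).elim (fun r => (mem_cutK.1 r).1) fun r => (mem_cutK.1 r).1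
    rw [List.length_append] at a4
    omega

theorem Gi.heads (hc : cx.Ok) (h : cx.Gi s O) (h1 : w0 ∈ s.A.1) (h2 : u0 ∈ s.A.1)
    (a : U × List U) : ∀ w ∈ (cx.cutS s s1 w0 u0 O true a).X,
      ∃ u ∈ cx.cutO s s1 O false, (cx.view s).Γ.E2 w0 u0 w u := by
  intro w hw
  obtain ⟨w1, w2⟩ := List.mem_filter.1 hw
  obtain ⟨u, hu, e⟩ := List.any_eq_true.1 (beq_iff_eq.1 w2)
  exact ⟨u, hu, ((h.wf.col_E2 hc (h.wf.toWF0.dA (h.wf.xd w w1))
    (h.wf.toWF0.dA (h.sub u (cutO_sub hu))) h1 h2).1 (beq_iff_eq.1 e)).symm⟩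

theorem cutI_split {u v : List Bool} {t : Bool} (e : cx.cutI s1 O = u ++ t :: v) :
    (t = true ∧ u = [] ∧ ∃ z, cx.cutB s1 O = some z) ∨ t = false := by
  cases t
  · exact Or.inr rfl
  refine Or.inl ⟨rfl, ?_⟩
  unfold cutI at e
  cases eb : cx.cutB s1 O with
  | none =>
    rw [eb] at e
    rcases u with _ | ⟨_, _ | _⟩ <;> simp at e
  | some z =>
    rw [eb] at e
    rcases u with _ | ⟨_, _ | ⟨_, _ | _⟩⟩ <;> simp at e ⊢

theorem cutH_mem (b : Bool) (w : Tm) : cx.cutH s s1 w0 u0 O b w ∈ cx.cutI s1 O := by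
  unfold cutI
  cases e : cx.cutB s1 O with
  | none => simp [cutH, cutO, e]
  | some z => cases cx.cutH s s1 w0 u0 O b w <;> simp
end Cx

section part
variable {F X : Type}

/-- The frame `x` holds the state `st x`, the pointer `(w0 x, u0 x)` and the list `O x`; the colours
are read in `lab cx x`. The large piece is a free call of `big`, the rest a paid call of `sol`. -/
noncomputable def cutP (st : X → Sta) (w0 u0 : X → Tm) (O : X → List Tm) (lab : Cx → X → Sta)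
    (big : Cx → X → Sta → List Tm → U × F) (sol : Sta → F) :
    Part Cx F X Bool (Option Ans) Ans :=
  chnP Cx.pad Cx.base (fun cx x => some (cx.cutC (st x) (lab cx x) (O x)))
    (fun cx x => cx.cutI (lab cx x) (O x)) id
    (fun cx x t a => bif t then big cx x (cx.cutS (st x) (lab cx x) (w0 x) (u0 x) (O x) true a)
        (cx.cutO (st x) (lab cx x) (O x) false)
      else (1, sol (cx.cutS (st x) (lab cx x) (w0 x) (u0 x) (O x) false a)))
    (fun _ _ => [])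

variable {st : X → Sta} {w0 u0 : X → Tm} {O : X → List Tm} {lab : Cx → X → Sta}
  {big : Cx → X → Sta → List Tm → U × F} {sol : Sta → F} {cx : Cx} {x : X}

theorem cutP_todo : (cutP st w0 u0 O lab big sol).todo cx x = cx.cutI (lab cx x) (O x) := rfl

theorem cutP_snd {Pre : F → Prop} {Post : F → Ans → Prop} (hc : cx.Ok) (h : cx.Gi (st x) (O x))
    (hK : ∀ g ∈ (st x).Tgt, ∀ u ∈ O x,
      cx.col (lab cx x) true [g • u] = cx.col (lab cx x) false [u])
    (hR : ∀ s2 O2, cx.Gi s2 O2 → cx.Nx (st x) s2 → (∀ u ∈ O2, u ∈ O x) → Pre (big cx x s2 O2).2 ∧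
      ∀ a, Post (big cx x s2 O2).2 a → cx.Post s2 (lmul (big cx x s2 O2).1 a))
    (hS : ∀ s2, cx.WF0 s2 → Pre (sol s2) ∧ ∀ a, Post (sol s2) a → cx.Post s2 a) :
    (cutP st w0 u0 O lab big sol).Snd cx Pre Post x (cx.Post (st x)) := by
  refine chnP_snd (fun u a => (u = [] → a = cx.cutC (st x) (lab cx x) (O x)) ∧
      (st x).Tgt ⊆ cs a ∧ (∀ p ∈ a, cx.Kp (st x) (lab cx x) (O x) p) ∧
      ∀ t ∈ u, ∀ g ∈ cs a, Maps g (cx.cutS (st x) (lab cx x) (w0 x) (u0 x) (O x) t (1, [])).X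
        (cx.cutS (st x) (lab cx x) (w0 x) (u0 x) (O x) t (1, [])).Y)
    (fun a e => ?_) (fun u t v _ i => ⟨by simp, i.2.1, by simp, by simp⟩)
    (fun u t v a e i => ?_) (fun a i => ?_)
  · obtain rfl := Option.some.inj e
    exact ⟨fun _ => rfl, fun g hg => h.cutC_mem hc (Sta.tgt_sol _ hg).1 (hK g hg),
      fun p hp => (h.cutC hc hp).1, by simp⟩
  · obtain ⟨i1, i2, i3, i4⟩ := i
    have k := i3 a rfl
    have key : ∀ b, cx.Post (cx.cutS (st x) (lab cx x) (w0 x) (u0 x) (O x) t a) b →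
        (u ++ [t] = [] → addG cx.pad cx.base [] b = cx.cutC (st x) (lab cx x) (O x)) ∧
        (st x).Tgt ⊆ cs (addG cx.pad cx.base [] b) ∧
        (∀ p ∈ addG cx.pad cx.base [] b, cx.Kp (st x) (lab cx x) (O x) p) ∧
        ∀ t' ∈ u ++ [t], ∀ g ∈ cs (addG cx.pad cx.base [] b),
          Maps g (cx.cutS (st x) (lab cx x) (w0 x) (u0 x) (O x) t' (1, [])).X
            (cx.cutS (st x) (lab cx x) (w0 x) (u0 x) (O x) t' (1, [])).Y := fun b hb => by
      obtain ⟨c1, c2⟩ := k.step hc h.wf hb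
      rw [c1]
      refine ⟨by simp, fun g hg => ?_, c2, fun t' ht g hg => ?_⟩
      · obtain ⟨f, w⟩ := id hg
        exact hb.lo ⟨f, Sta.act_wit ((Sta.cos_wit (cs_sub k.sg k.le)).2 ⟨w, i2 hg⟩)
          (h.maps hc w (hK g hg) t a)⟩
      · rcases List.mem_append.1 ht with ht | ht
        · exact i4 t' ht g (hb.hi hg).1
        · rw [List.mem_singleton.1 ht]
          exact (hb.hi hg).2
    rcases Cx.cutI_split e with ⟨rfl, rfl, -⟩ | rfl
    · obtain ⟨c1, c2⟩ := hR _ _ (h.big hc (i1 rfl).symm) (k.nx h.wf true) fun _ => Cx.cutO_sub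
      exact ⟨c1, fun b hb => key _ (c2 b hb)⟩
    · obtain ⟨c1, c2⟩ := hS _ (k.nx h.wf false).wf.toWF0
      exact ⟨c1, fun b hb => key _ ((lmul_one b).symm ▸ c2 b hb)⟩
  · obtain ⟨-, i2, i3, i4⟩ := i
    refine ⟨i2, fun g hg => ⟨?_, fun y => ⟨fun hy => ?_, fun hy => ?_⟩⟩, fun p hp => (i3 p hp).len⟩
    · rcases a with _ | p
      · simp at hg
      · exact cs_sub (i3 p rfl).sg (i3 p rfl).le hg
    · exact (List.mem_filter.1 ((i4 _ (Cx.cutH_mem false y) g hg y).1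
        (List.mem_filter.2 ⟨hy, beq_self_eq_true _⟩))).1
    · exact (List.mem_filter.1 ((i4 _ (Cx.cutH_mem true (g • y)) g hg y).2
        (List.mem_filter.2 ⟨hy, beq_self_eq_true _⟩))).1

variable [Enc F] [Enc X]

theorem cutP_loc {B : ℕ} {e1 e2 : F → Option Ans} (hc : cx.Ok) (hB : cx.pd ^ 3 ≤ B)
    (h : cx.Gi (st x) (O x)) (h1 : w0 x ∈ (st x).A.1) (h2 : u0 x ∈ (st x).A.1)
    (h4 : 4 ≤ (O x).length)
    (hd : ∀ w ∈ (st x).X, ∃ u ∈ O x, (cx.view (st x)).Γ.E2 (w0 x) (u0 x) w u)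
    (hn : ∃ u ∈ O x, ∃ u' ∈ O x, cx.col (lab cx x) false [u] ≠ cx.col (lab cx x) false [u'])
    (hbig : ∀ s2 O2, cx.Gi s2 O2 → cx.Nx (st x) s2 → (∀ u ∈ O2, u ∈ O x) →
      O2.length < (O x).length → 3 * (O x).length < 4 * O2.length →
      (cx.view s2).IsO O2.toFinset →
      (∀ w ∈ s2.X, ∃ u ∈ O2, (cx.view (st x)).Γ.E2 (w0 x) (u0 x) w u) →
      ∃ b, e1 (big cx x s2 O2).2 = some b ∧ cx.Post s2 (lmul (big cx x s2 O2).1 b))
    (hsmall : ∀ s2, cx.Nx (st x) s2 →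
      (∀ w ∈ s2.X, ∃ u ∈ O x, (cx.view (st x)).Γ.E2 (w0 x) (u0 x) w u ∧
        4 * ((cx.view s2).o u).card ≤ 3 * (O x).length) →
      ∃ b, e2 (sol s2) = some b ∧ cx.Post s2 b) :
    (cutP st w0 u0 O lab big sol).Loc cx B e1 e2 x (· ≠ none) := by
  refine chnP_loc (fun u a => (u = [] → a = cx.cutC (st x) (lab cx x) (O x)) ∧
      ∀ p ∈ a, cx.Kp (st x) (lab cx x) (O x) p) (fun u a i => ?_)
    ⟨_, rfl, fun _ => rfl, fun p hp => (h.cutC hc hp).1⟩ (fun u t v _ i => ⟨by simp, by simp⟩)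
    (fun u t v a e i => ?_)
  · have := size_ans hc (a := a) fun p hp => ⟨h.wf.toWF0.cs_le (i.2 p hp).sg,
      (i.2 p hp).le.trans h.wf.toWF0.le, (i.2 p hp).len⟩
    omega
  · have k := i.2 a rfl
    rcases Cx.cutI_split e with ⟨rfl, rfl, z, hz⟩ | rfl
    · have g1 := h.big (w0 := w0 x) (u0 := u0 x) hc (i.1 rfl).symm
      have a1 := (Cx.cutB_some hz).2
      have a2 : cx.cutO (st x) (lab cx x) (O x) false = cx.cutK (lab cx x) false (O x) z := by
        simp [Cx.cutO, hz]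
      have a3 : (cx.cutK (lab cx x) false (O x) z).length < (O x).length := by
        obtain ⟨y, hy, y', hy', n⟩ := hn
        refine List.length_filter_lt_length_iff_exists.2 ?_
        by_cases r : cx.col (lab cx x) false [y] = cx.col (lab cx x) false [z]
        · exact ⟨y', hy', by simpa using fun r' => n (r.trans r'.symm)⟩
        · exact ⟨y, hy, by simpa using r⟩
      obtain ⟨b, b1, b2⟩ := hbig _ _ g1 (k.nx h.wf true) (fun _ => Cx.cutO_sub) (a2 ▸ a3) (a2 ▸ a1)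
        (g1.isO (by rw [a2]; omega)) (h.heads hc h1 h2 a)
      exact ⟨b, b1, by simp, (k.step hc h.wf b2).2⟩
    · obtain ⟨b, b1, b2⟩ := hsmall _ (k.nx h.wf false) (h.small hc h1 h2 hd k)
      refine ⟨b, b1, by simp, ?_⟩
      simpa only [cond_false, lmul_one] using (k.step hc h.wf b2).2

theorem cut_wins {i : X → F} {B φ k : ℕ} {E : ℕ → ℕ → F → Option Ans}
    (env : SubEnv (cutP st w0 u0 O lab big sol) i cx B E) (hc : cx.Ok) (hB : cx.pd ^ 3 ≤ B)
    (hx : size x ≤ B) (hk : 0 < k) (hφ : 2 * cx.lam + 7 ≤ φ)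
    (h : cx.Gi (st x) (O x)) (h1 : w0 x ∈ (st x).A.1) (h2 : u0 x ∈ (st x).A.1)
    (h4 : 4 ≤ (O x).length)
    (hd : ∀ w ∈ (st x).X, ∃ u ∈ O x, (cx.view (st x)).Γ.E2 (w0 x) (u0 x) w u)
    (hn : ∃ u ∈ O x, ∃ u' ∈ O x, cx.col (lab cx x) false [u] ≠ cx.col (lab cx x) false [u'])
    (hbig : ∀ s2 O2, cx.Gi s2 O2 → cx.Nx (st x) s2 → (∀ u ∈ O2, u ∈ O x) →
      O2.length < (O x).length → 3 * (O x).length < 4 * O2.length →
      (cx.view s2).IsO O2.toFinset →
      (∀ w ∈ s2.X, ∃ u ∈ O2, (cx.view (st x)).Γ.E2 (w0 x) (u0 x) w u) →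
      ∃ b, E φ (k - 1) (big cx x s2 O2).2 = some b ∧ cx.Post s2 (lmul (big cx x s2 O2).1 b))
    (hsmall : ∀ s2 ψ, φ ≤ ψ + (2 * cx.lam + 7) → ψ ≤ φ → cx.Nx (st x) s2 →
      (∀ w ∈ s2.X, ∃ u ∈ O x, (cx.view (st x)).Γ.E2 (w0 x) (u0 x) w u ∧
        4 * ((cx.view s2).o u).card ≤ 3 * (O x).length) →
      ∃ b, E ψ cx.mE (sol s2) = some b ∧ cx.Post s2 b) : E φ k (i x) ≠ none := by
  have a1 : bl ((cutP st w0 u0 O lab big sol).todo cx x).length ≤ 1 + 1 :=
    bl_le (Cx.length_cutI (cx := cx) (s1 := lab cx x) (O := O x))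
  have a2 : (cutP st w0 u0 O lab big sol).pri cx x ≤ 2 * cx.lam + 7 := by unfold Part.pri; omega
  have a3 : 16 ≤ cx.pd := le_trans (by norm_num) ((Nat.pow_le_pow_right two_pos
    (show 4 ≤ 8 * cx.lam by have := hc.lam; omega)).trans hc.nums.1)
  exact env φ k x _ hk hx (Cx.size_cutI.trans (a3.trans ((Nat.le_self_pow (by norm_num) _).trans hB)))
    (a2.trans hφ) (cutP_loc hc hB h h1 h2 h4 hd hn hbig fun s2 => hsmall s2 _ (by omega) (by omega))

theorem cutP_poly (h1 : PT st) (h2 : PT w0) (h3 : PT u0) (h4 : PT O)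
    (h5 : PT (fun p : Cx × X => lab p.1 p.2))
    (h6 : PT (fun p : Cx × X × Sta × List Tm => big p.1 p.2.1 p.2.2.1 p.2.2.2)) (h7 : PT sol) :
    (cutP st w0 u0 O lab big sol).Poly := by
  have a1 := h5.comp (g := fun p : Cx × X × Bool × U × List U => (p.1, p.2.1)) (by fun_prop)
  refine chnP_poly (Cx.pt_pad PT.id) (Cx.pt_base PT.id) (by fun_prop) (by fun_prop) PT.id
    (PT.cond (by fun_prop) ?_ (by fun_prop)) (PT.const _)
  exact h6.comp (g := fun p : Cx × X × Bool × U × List U => (p.1, p.2.1,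
    p.1.cutS (st p.2.1) (lab p.1 p.2.1) (w0 p.2.1) (u0 p.2.1) (O p.2.1) true p.2.2.2,
    p.1.cutO (st p.2.1) (lab p.1 p.2.1) (O p.2.1) false)) (by fun_prop)
end part

end Pool.Agent.P.MP_f1a348_lc.GX
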