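import Pool.Agent.P.MP_f1a348_lc.GY.TPNUM

/-! Graph isomorphism: translation of the second side of a state. -/

set_option autoImplicit false
set_option linter.unusedSectionVars false

namespace Pool.Agent.P.MP_f1a348_lc.GX

open Pool.Agent.Lib.Helper47 Pool.Agent.P.MP_f1a348_lc.GI Pool.Agent.P.MP_f1a348_lc.TO

/-- the structure moved by `τ` -/
noncomputable def mvS (τ : U) (A : Sx Tm) : Sx Tm :=
  (A.1.map (fun x => τ • x), A.2.map (fun e => (e.1, e.2.map (fun x => τ • x))))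

/-- the second side is moved by `τ` -/
noncomputable def Sta.mv (s : Sta) (τ : U) : Sta :=
  ((τ * s.σ, s.S), s.D, s.X, s.Y.map (fun x => τ • x), (s.A, mvS τ s.B), s.ctr, s.hs)

/-- the second side is moved such that the coset is a group -/
noncomputable def Sta.nrm (s : Sta) : Sta := s.mv s.σ⁻¹

variable {cx : Cx} {s : Sta} {τ g : U} {A B : Sx Tm}

theorem mem_map_smul {l : List Tm} {x : Tm} : x ∈ l.map (fun y => τ • y) ↔ τ⁻¹ • x ∈ l := by
  rw [List.mem_map]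
  exact ⟨fun ⟨y, hy, e⟩ => by rwa [← e, inv_smul_smul], fun h => ⟨_, h, smul_inv_smul τ x⟩⟩

theorem map_smul_smul (τ g : U) (l : List Tm) :
    (l.map (fun y => g • y)).map (fun y => τ • y) = l.map (fun y => (τ * g) • y) := by
  simp [mul_smul]

theorem mem_mvS {x : Tm} : x ∈ (mvS τ A).1 ↔ τ⁻¹ • x ∈ A.1 := mem_map_smul

theorem rel_mvS {c : ℕ} {l : List Tm} :
    (c, l) ∈ (mvS τ A).2 ↔ (c, l.map (fun y => τ⁻¹ • y)) ∈ A.2 := by
  rw [mvS, List.mem_map]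
  constructor
  · rintro ⟨e, he, h⟩
    obtain ⟨rfl, rfl⟩ := Prod.mk.inj h
    simpa [Function.comp_def] using he
  · exact fun h => ⟨_, h, by simp [Function.comp_def]⟩

theorem mvS_mvS (τ g : U) (A : Sx Tm) : mvS τ (mvS g A) = mvS (τ * g) A := by
  simp [mvS, mul_smul]

theorem mvS_one (A : Sx Tm) : mvS 1 A = A := by simp [mvS]

theorem length_mvS : (mvS τ A).1.length = A.1.length ∧ (mvS τ A).2.length = A.2.length := by
  simp [mvS]

/-- the translation is an isomorphism -/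
theorem siso_mvS (τ : U) (A : Sx Tm) : SIso A (mvS τ A) (fun x => τ • x) :=
  ⟨⟨fun x hx => mem_mvS.2 (by simpa using hx), fun _ _ _ _ e => MulAction.injective τ e,
    fun y hy => ⟨_, mem_mvS.1 hy, smul_inv_smul τ y⟩⟩,
    fun c l _ => by simp [rel_mvS, Function.comp_def]⟩

theorem SIso.mvS {f : Tm → Tm} (h : SIso A B f) (τ : U) :
    SIso A (mvS τ B) (fun x => τ • f x) :=
  ⟨(siso_mvS τ B).bij.comp h.bij, fun c l hl => by
    rw [h.rel c l hl, rel_mvS]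
    simp [Function.comp_def]⟩

namespace Sta
@[simp] theorem mv_c : (s.mv τ).c = (τ * s.σ, s.S) := rfl
@[simp] theorem mv_σ : (s.mv τ).σ = τ * s.σ := rfl
@[simp] theorem mv_S : (s.mv τ).S = s.S := rfl
@[simp] theorem mv_D : (s.mv τ).D = s.D := rfl
@[simp] theorem mv_X : (s.mv τ).X = s.X := rfl
@[simp] theorem mv_Y : (s.mv τ).Y = s.Y.map (fun x => τ • x) := rfl
@[simp] theorem mv_A : (s.mv τ).A = s.A := rfl
@[simp] theorem mv_B : (s.mv τ).B = mvS τ s.B := rfl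
@[simp] theorem mv_ctr : (s.mv τ).ctr = s.ctr := rfl

theorem nrm_c : s.nrm.c = (1, s.S) := by simp [nrm]
theorem nrm_σ : s.nrm.σ = 1 := by simp [nrm]

theorem mv_mv (τ g : U) : (s.mv g).mv τ = s.mv (τ * g) := by
  rw [mv, mv_σ, mv_Y, mv_B, ← mul_assoc, map_smul_smul, mvS_mvS]
  rfl

theorem mv_one : s.mv 1 = s := by
  simp only [mv, one_mul, one_smul, List.map_id', mvS_one]
  rfl

theorem mv_cs : τ * g ∈ cs (some (s.mv τ).c) ↔ g ∈ cs (some s.c) := by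
  rw [mv_c, mem_cs, show s.c = (s.σ, s.S) from rfl, mem_cs]
  simp [mul_assoc]

theorem mv_sol : τ * g ∈ (s.mv τ).Sol ↔ g ∈ s.Sol :=
  and_congr mv_cs (forall_congr' fun x => by rw [mv_X, mv_Y, mem_map_smul, mul_smul, inv_smul_smul])

theorem Wit.mv {f : Tm → Tm} (w : s.Wit g f) (τ : U) :
    (s.mv τ).Wit (τ * g) (fun x => τ • f x) :=
  ⟨mv_sol.2 w.sol, w.iso.mvS τ, fun x hx => by rw [w.eq x hx, mul_smul]⟩

theorem Wit.of_mv {f : Tm → Tm} (w : (s.mv τ).Wit g f) :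
    s.Wit (τ⁻¹ * g) (fun x => τ⁻¹ • f x) := by
  have := w.mv τ⁻¹
  rwa [mv_mv, inv_mul_cancel, mv_one] at this

theorem mv_tgt : τ * g ∈ (s.mv τ).Tgt ↔ g ∈ s.Tgt :=
  ⟨fun ⟨_, w⟩ => ⟨_, by simpa using w.of_mv⟩, fun ⟨_, w⟩ => ⟨_, w.mv τ⟩⟩

theorem mv_sol' : g ∈ (s.mv τ).Sol ↔ τ⁻¹ * g ∈ s.Sol := by
  rw [← mv_sol (τ := τ) (s := s), mul_inv_cancel_left]

theorem mv_tgt' : g ∈ (s.mv τ).Tgt ↔ τ⁻¹ * g ∈ s.Tgt := by
  rw [← mv_tgt (τ := τ) (s := s), mul_inv_cancel_left]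

/-- the elements of the coset of a normal state -/
theorem nrm_cs : g ∈ cs (some s.nrm.c) ↔ g ∈ gen s.S := by rw [nrm_c, mem_cs]; simp
end Sta

theorem Cx.view_mv : cx.view (s.mv τ) = cx.view s := rfl

theorem Cx.view_nrm : cx.view s.nrm = cx.view s := rfl

theorem Cx.Side.mvS {k : ℕ} {D : List Tm} (h : cx.Side k g D A) (hτ : τ ∈ SymN cx.n) :
    cx.Side k (τ * g) D (mvS τ A) where
  nd := h.nd.map (MulAction.injective τ)
  real := fun x hx => mem_mvS.2 (by simpa [mul_smul] using h.real x hx)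
  kind := fun y hy => (h.kind _ (mem_mvS.1 hy)).imp (fun e => by simpa [mul_smul] using e)
    fun ⟨i, h1, h2, e⟩ => ⟨i, h1, h2, by rw [← SymN.atm hτ h1, ← e, smul_inv_smul]⟩
  lab := fun e he => by
    obtain ⟨e0, h0, rfl⟩ := List.mem_map.1 he
    exact ⟨(h.lab e0 h0).1, fun x hx => mem_mvS.2 ((h.lab e0 h0).2 _ (mem_map_smul.1 hx))⟩

theorem Cx.WF0.mv (h : cx.WF0 s) (hτ : τ ∈ SymN cx.n) : cx.WF0 (s.mv τ) :=
  ⟨mul_mem hτ h.hσ, h.hS, h.len, h.nd, h.ab, h.inv, h.nx, h.ny.map (MulAction.injective τ), h.xd,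
    fun y hy => by simpa [mul_smul] using h.yd _ (mem_map_smul.1 hy), h.ctr, h.a, h.b.mvS hτ⟩

theorem Cx.WF.mv (h : cx.WF s) (hτ : τ ∈ SymN cx.n) : cx.WF (s.mv τ) :=
  ⟨h.toWF0.mv hτ, h.ca, length_mvS.1.trans_le h.cb⟩

theorem Cx.WF0.nrm (h : cx.WF0 s) : cx.WF0 s.nrm := h.mv (inv_mem h.hσ)

theorem Cx.WF.nrm (h : cx.WF s) : cx.WF s.nrm := h.mv (inv_mem h.hσ)

theorem Cx.SzS.mvS {φ : ℕ} (h : cx.SzS φ A) (τ : U) : cx.SzS φ (mvS τ A) where
  v := by rw [length_mvS.1]; exact h.v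
  w := fun t ht => by simpa using h.w _ (mem_mvS.1 ht)
  r := by rw [length_mvS.2]; exact h.r
  l := fun e he => by
    obtain ⟨e0, h0, rfl⟩ := List.mem_map.1 he
    simpa using h.l e0 h0

theorem Cx.Sz.mv {φ : ℕ} (h : cx.Sz s φ) (τ : U) : cx.Sz (s.mv τ) φ :=
  ⟨h.f, h.d, h.k, h.a, h.b.mvS τ, h.h, h.i⟩

theorem Cx.Sz.nrm {φ : ℕ} (h : cx.Sz s φ) : cx.Sz s.nrm φ := h.mv _

theorem Cx.mv_gro : cx.Gro s (s.mv τ) 0 0 0 1 :=
  ⟨le_rfl, le_rfl, fun w _ h1 h2 =>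
    ⟨⟨le_rfl, fun t ht => by simpa using h1 t ht, le_rfl, id⟩, length_mvS.1.le,
      fun t ht => by simpa using h2 _ (mem_mvS.1 ht), length_mvS.2.le, fun h e he => by
        obtain ⟨e0, h0, rfl⟩ := List.mem_map.1 he
        simpa using h e0 h0⟩, le_rfl, fun _ h => .inl h⟩

/-- an answer for the moved state gives an answer -/
theorem Cx.Post.of_mv {a : Ans} (h : cx.Post (s.mv τ) a) : cx.Post s (lmul τ⁻¹ a) where
  lo := fun g hg => mem_lmul.2 (h.lo (by simpa using Sta.mv_tgt.2 hg))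
  hi := fun g hg => Sta.mv_sol.1 (h.hi (by simpa using mem_lmul.1 hg))
  len := fun p hp => by
    obtain ⟨q, hq, rfl⟩ := Option.mem_map.1 hp
    exact h.len q hq

theorem Cx.Post.of_nrm {a : Ans} (h : cx.Post s.nrm a) : cx.Post s (lmul s.σ a) := by
  simpa using Cx.Post.of_mv h

section time
variable {α : Type} [Enc α]

@[fun_prop] theorem pt_mvS {τ : α → U} {A : α → Sx Tm} (h1 : PT τ) (h2 : PT A) :
    PT (fun a => mvS (τ a) (A a)) := by unfold mvS; fun_prop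

@[fun_prop] theorem Sta.pt_mv {s : α → Sta} {τ : α → U} (h1 : PT s) (h2 : PT τ) :
    PT (fun a => (s a).mv (τ a)) := by unfold Sta.mv; fun_prop

@[fun_prop] theorem Sta.pt_nrm {s : α → Sta} (h1 : PT s) : PT (fun a => (s a).nrm) := by
  unfold Sta.nrm; fun_prop
end time

end Pool.Agent.P.MP_f1a348_lc.GX
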