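import Pool.Agent.P.MP_f1a348_lc.GY.LibPlus
import Pool.Agent.P.MP_f1a348_lc.GX.LibCol
import Pool.Agent.P.MP_f1a348_lc.GY.LibCut
import Pool.Agent.P.MP_f1a348_lc.GY.LibNrm
import Pool.Agent.P.MP_f1a348_lc.GY.DefsU
/-! Graph isomorphism: the module of the local certificates. -/

set_option autoImplicit false
set_option linter.unusedSectionVars false
set_option synthInstance.maxSize 4096

namespace Pool.Agent.P.MP_f1a348_lc.GX

open Pool.Agent.Lib.Helper47 Pool.Agent.P.MP_f1a348_lc.GI Pool.Agent.P.MP_f1a348_lc.TO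

section one
variable {F X : Type}

/-- one call; its answer is translated -/
noncomputable def oneP (nx : Cx → X → U × Bool × F) : Part Cx F X Unit (Option Ans) Ans where
  todo _ _ := [()]
  ini _ _ := none
  call c x _ _ := some (nx c x).2
  upd c x _ _ r := r.map (lmul (nx c x).1)
  fin _ _ s := s

variable {nx : Cx → X → U × Bool × F} {c : Cx} {x : X}

theorem oneP_snd {Pre : F → Prop} {Post : F → Ans → Prop} {R : Ans → Prop}
    (h1 : Pre (nx c x).2.2) (h2 : ∀ a, Post (nx c x).2.2 a → R (lmul (nx c x).1 a)) :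
    (oneP nx).Snd c Pre Post x R := by
  refine ⟨fun _ s => ∀ a, s = some a → R a, fun _ e => (by cases e), fun _ _ _ _ _ a _ => a,
    fun u t v s b g _ _ a3 => ?_, fun s a a1 a2 => a1 a a2⟩
  obtain rfl : (nx c x).2.2 = g := congrArg Prod.snd (Option.some.inj a3)
  refine ⟨h1, fun r hr a e => ?_⟩
  obtain ⟨b, rfl, rfl⟩ := Option.map_eq_some_iff.1 e
  exact h2 b (hr b rfl)

variable [Enc F] [Enc X]

theorem oneP_loc {B : ℕ} {e1 e2 : F → Option Ans} (hB : 1 ≤ B)
    (h : ∃ a, ansOf e1 e2 false (nx c x).2 = some a ∧ size (some (lmul (nx c x).1 a)) ≤ B) :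
    (oneP nx).Loc c B e1 e2 x (· ≠ none) := by
  obtain ⟨a, h1, h2⟩ := h
  refine ⟨fun u b s => (u = [] ∧ b = false) ∨ (u ≠ [] ∧ s ≠ none), ⟨hB, Or.inl ⟨rfl, rfl⟩⟩,
    fun _ _ _ _ _ _ _ a3 => (by cases a3), fun u t v b s fr g r a1 a2 a3 a4 => ?_,
    fun b s a1 => (a1.resolve_left (by simp [oneP])).2⟩
  have hu : u = [] := by
    rcases u with _ | ⟨_, u⟩
    · rfl
    · simp [oneP] at a1
  obtain rfl := (a2.resolve_right fun e => e.1 hu).2
  rw [show (nx c x).2 = _ from Option.some.inj a3] at h1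
  obtain rfl : r = some a := a4.trans h1
  exact ⟨h2, Or.inr ⟨by simp, by simp [oneP]⟩⟩

theorem oneP_poly (h : PT (fun p : Cx × X => nx p.1 p.2)) : (oneP nx).Poly := by
  have a1 := h.comp (g := fun p : Cx × X × Unit × Option Ans => (p.1, p.2.1)) (by fun_prop)
  have a2 := h.comp (g := fun p : (Cx × X × Unit × Option Ans × Option Ans) × Ans =>
    (p.1.1, p.1.2.1)) (by fun_prop)
  refine ⟨PT.const _, PT.const _, ?_, PT.optMap (by fun_prop) (pt_lmul (PT.fst a2) (by fun_prop)),
    by unfold oneP; fun_prop⟩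
  unfold oneP
  fun_prop
end one

/-- a state, the pointer `(w0, u0)` and the giant orbit -/
abbrev RndX : Type := Sta × Tm × Tm × List Tm
/-- in addition a table -/
abbrev Rd : Type := RndX × Tab U Tm
/-- the frames: entry, translation, dispatch, round, cut, full case -/
abbrev XL : Type := Sta ⊕ RndX ⊕ Rd ⊕ Rd ⊕ Rd ⊕ XF
/-- the frames that are called -/
abbrev FL : Type := Sta ⊕ XL

def iN (x : RndX) : FL := .inr (.inr (.inl x))
def iD (r : Rd) : FL := .inr (.inr (.inr (.inl r)))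
def iR (r : Rd) : FL := .inr (.inr (.inr (.inr (.inl r))))
def iC (r : Rd) : FL := .inr (.inr (.inr (.inr (.inr (.inl r)))))
def iU (x : XF) : FL := .inr (.inr (.inr (.inr (.inr (.inr x)))))

namespace Cx
variable (cx : Cx)

/-- the first round -/
noncomputable def rd0 (s : Sta) (w0 u0 : Tm) (O : List Tm) : Rd :=
  ((s.nrm, w0, u0, O), LC.tab0 (cx.lx s O) s.S)

/-- the pointers into giant orbits -/
noncomputable def ptrs (s : Sta) : List (Tm × Tm) :=
  (prodL s.D s.D).filter (fun p => giantB cx.pad cx.base s.S (cx.ob s p.2))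

/-- all points of `O` have the same colour -/
def oneC (s : Sta) (O : List Tm) : Bool :=
  O.all (fun u => O.all (fun u' => cx.col s false [u] == cx.col s false [u']))

/-- the input of the full case -/
noncomputable def fd (s : Sta) (O : List Tm) (tb : Tab U Tm) : FD :=
  (s, O, LC.fgen (cx.lx s O) tb false, LC.fgen (cx.lx s O) tb true)

/-- the next call -/
noncomputable def dsp (r : Rd) : Bool × FL :=
  bif Nat.blt r.1.2.2.2.length (4 * cx.utau.length) then (false, .inl r.1.1)
  else bif !cx.oneC (cx.plus r.1.1 r.1.2.2.2 r.2) r.1.2.2.2 then (true, iC r)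
  else bif !trB cx.par (cx.plus r.1.1 r.1.2.2.2 r.2).q false r.1.2.2.2 cx.utau then
    (false, .inl (cx.plus r.1.1 r.1.2.2.2 r.2))
  else bif LC.keepL (cx.fd r.1.1 r.1.2.2.2 r.2).2.2.1 r.1.1.X then
    (true, iU (fEnt (cx.fd r.1.1 r.1.2.2.2 r.2)))
  else (true, iR r)

/-- the precondition of the frames with a table -/
def RPre (r : Rd) : Prop := cx.Gi r.1.1 r.1.2.2.2 ∧ cx.Rk r.1.1 r.1.2.2.2 r.2
end Cx

noncomputable def entP : Part Cx FL Sta (Bool × FL) (Option Ans) Ans :=
  tryP (fun _ _ => none)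
    (fun cx s => (cx.ptrs s).map (fun p => (false, iN (s, p.1, p.2, cx.ob s p.2))))

noncomputable def nrmP : Part Cx FL RndX Unit (Option Ans) Ans :=
  oneP (fun cx x => (x.1.σ, true, iD (cx.rd0 x.1 x.2.1 x.2.2.1 x.2.2.2)))

noncomputable def dspP : Part Cx FL Rd Unit (Option Ans) Ans := oneP (fun cx r => (1, cx.dsp r))

noncomputable def rndP : Part Cx FL Rd (Option (List Tm × List Tm × U × List U))
    (Option (List ((List Tm × List Tm × U × List U) × Ans)) × Option Ans) Ans :=
  colP (fun _ r => r.2) (fun cx r e => .inl (cx.sub r.1.1 r.1.2.2.2 r.2 e))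
    (fun _ r acc => (true, iD (r.1, newTab acc)))

noncomputable def cutL : Part Cx FL Rd Bool (Option Ans) Ans :=
  cutP (fun r => r.1.1) (fun r => r.1.2.1) (fun r => r.1.2.2.1) (fun r => r.1.2.2.2)
    (fun cx r => cx.plus r.1.1 r.1.2.2.2 r.2)
    (fun cx r s O => (s.σ, iD (cx.rd0 s r.1.2.1 r.1.2.2.1 O))) .inl

/-- the module -/
noncomputable def giM : Mod :=
  ⟨XL, _, _, inferInstance, inferInstance, inferInstance,
    entP.sum (nrmP.sum (dspP.sum (rndP.sum (cutL.sum (fullP .inl iU))))), fun _ s => .inl s,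
    fun cx => Sum.elim cx.WF (Sum.elim (fun x => cx.Gi x.1 x.2.2.2)
      (Sum.elim cx.RPre (Sum.elim cx.RPre (Sum.elim cx.RPre (FPre cx))))),
    fun cx => Sum.elim cx.Post (Sum.elim (fun x => cx.Post x.1)
      (Sum.elim (fun r => cx.Post r.1.1) (Sum.elim (fun r => cx.Post r.1.1)
        (Sum.elim (fun r => cx.Post r.1.1) (FPost cx)))))⟩

end Pool.Agent.P.MP_f1a348_lc.GX
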