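import Pool.Agent.P.MP_f1a348_lc.GX.LibPart

/-! Graph isomorphism: the engine with weights and with a price that depends on the frame. -/

set_option autoImplicit false
set_option linter.unusedSectionVars false

namespace Pool.Agent.P.MP_f1a348_lc.GX

open Pool.Agent.Lib.Helper47 Pool.Agent.P.MP_f1a348_lc.TO

/-- The frames of `p`; a paid call of the frame `f` gets `al f` free calls; a frame with `spl f`
shares its weight among its calls, the frame `g` asks for the weight `wt g`. -/
structure En (C F T S A : Type) where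
  p : Part C F F T S A
  al : C → F → ℕ
  spl : F → Bool
  wt : C → F → ℕ

/-- the price of a paid call of a frame with `n` items that hands out `a` free calls -/
def prc (n a : ℕ) : ℕ := n.bits.length + (a + 1).bits.length + 1

theorem prc_pos (n a : ℕ) : 0 < prc n a := Nat.succ_pos _

namespace En

variable {C F T S A : Type} [Enc F] [Enc T] [Enc S] (E : En C F T S A) (k : C × ℕ)

/-- the price of a call that is not free -/
def cost (f : F) : ℕ := prc (E.p.todo k.1 f).length (E.al k.1 f)

/-- the frame is small and can pay -/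
def alive (w φ m : ℕ) (f : F) : Bool :=
  Nat.blt 0 w && Nat.blt 0 m && Nat.ble (size f) k.2 && Nat.ble (size (E.p.todo k.1 f)) k.2 &&
    Nat.ble (E.cost k f) φ && (!E.spl f || Nat.ble (E.p.todo k.1 f).length w)

omit [Enc S] in
theorem alive_iff {w φ m : ℕ} {f : F} : E.alive k w φ m f = true ↔
    0 < w ∧ 0 < m ∧ size f ≤ k.2 ∧ size (E.p.todo k.1 f) ≤ k.2 ∧ E.cost k f ≤ φ ∧
      (E.spl f = true → (E.p.todo k.1 f).length ≤ w) := by
  cases h : E.spl f <;> simp [alive, Nat.blt_eq, and_assoc, h]

/-- the share of the frame `g` in the weight `w` -/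
def shr (w : ℕ) (g : F) : ℕ := bif Nat.ble (E.wt k.1 g) w then E.wt k.1 g else 0

theorem shr_le (w : ℕ) (g : F) : E.shr k w g ≤ w := by
  unfold shr
  cases h : Nat.ble (E.wt k.1 g) w
  · exact Nat.zero_le _
  · exact Nat.le_of_ble_eq_true h

theorem shr_eq {w : ℕ} {g : F} (h : E.wt k.1 g ≤ w) : E.shr k w g = E.wt k.1 g := by
  rw [shr, Nat.ble_eq_true_of_le h]; rfl

/-- the weight that is left -/
def rest (f : F) (w : ℕ) (g : F) : ℕ := bif E.spl f then w - E.shr k w g else w

/-- the answer to a call -/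
def ans (f : F) (e1 : ℕ → F → Option A) (e2 : F → Option A) (w : ℕ) (b : Bool) (g : Bool × F) :
    Option A :=
  bif E.spl f then e1 (E.shr k w g.2) g.2 else bif g.1 && !b then e1 w g.2 else e2 g.2

/-- one item; `e1` answers the free calls, `e2` the others -/
def stp (f : F) (e1 : ℕ → F → Option A) (e2 : F → Option A) (p : ℕ × Bool × Option S) (t : T) :
    ℕ × Bool × Option S :=
  p.2.2.elim p (fun s => (E.p.call k.1 f t s).elim p (fun g => (E.rest k f p.1 g.2, p.2.1 || g.1,
    Eng.grd k.2 (E.p.upd k.1 f t s (E.ans k f e1 e2 p.1 p.2.1 g)))))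

/-- the answer of the frame `f` with weight `w`, fuel `φ` and `m` free calls -/
def ev (φ m w : ℕ) (f : F) : Option A :=
  if _h : E.alive k w φ m f = true then
    ((E.p.todo k.1 f).foldl (E.stp k f (fun w' g => ev φ (m - 1) w' g)
      (fun g => ev (φ - E.cost k f) (E.al k.1 f) w g))
      (w, false, Eng.grd k.2 (E.p.ini k.1 f))).2.2.bind (E.p.fin k.1 f)
  else none
termination_by (φ, m)
decreasing_by
  · have := (E.alive_iff k).1 _h
    exact Prod.Lex.right _ (by omega)
  · have := (E.alive_iff k).1 _h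
    have : 0 < E.cost k f := prc_pos _ _
    exact Prod.Lex.left _ _ (by omega)

variable {E k}

theorem ev_dead {w φ m : ℕ} {f : F} (h : E.alive k w φ m f = false) : E.ev k φ m w f = none := by
  rw [ev, dif_neg (by simp [h])]

theorem ev_alive {w φ m : ℕ} {f : F} (h : E.alive k w φ m f = true) : E.ev k φ m w f =
    ((E.p.todo k.1 f).foldl (E.stp k f (E.ev k φ (m - 1)) (E.ev k (φ - E.cost k f) (E.al k.1 f) w))
      (w, false, Eng.grd k.2 (E.p.ini k.1 f))).2.2.bind (E.p.fin k.1 f) := by
  rw [ev, dif_pos h]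

theorem foldl_none (f : F) (e1 : ℕ → F → Option A) (e2 : F → Option A) (w : ℕ) (b : Bool)
    (L : List T) : L.foldl (E.stp k f e1 e2) (w, b, none) = (w, b, none) := by
  induction L with
  | nil => rfl
  | cons t L ih => exact ih

/-- soundness of an engine from the local soundness of all frames -/
theorem sound {Pre : F → Prop} {Post : F → A → Prop}
    (h : ∀ f, Pre f → E.p.Snd k.1 Pre Post f (Post f)) {φ m w : ℕ} {f : F} {a : A} (hf : Pre f)
    (e0 : E.ev k φ m w f = some a) : Post f a := by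
  induction φ using Nat.strong_induction_on generalizing m w f a with
  | _ φ i1 =>
  induction m using Nat.strong_induction_on generalizing w f a with
  | _ m i2 =>
  obtain ⟨Inv, h0, h1, h2, h3⟩ := h f hf
  cases e : E.alive k w φ m f with
  | false => rw [ev_dead e] at e0; cases e0
  | true =>
    have ha := (E.alive_iff k).1 e
    have hc : 0 < E.cost k f := prc_pos _ _
    rw [ev_alive e] at e0
    have key : ∀ u v, E.p.todo k.1 f = u ++ v → ∀ s, (u.foldl (E.stp k f (E.ev k φ (m - 1))
        (E.ev k (φ - E.cost k f) (E.al k.1 f) w)) (w, false, Eng.grd k.2 (E.p.ini k.1 f))).2.2 =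
        some s → Inv u s := by
      intro u
      induction u using List.reverseRecOn with
      | nil => intro v _ s hs; rw [(Eng.grd_eq hs).1]; exact h0
      | append_singleton u t ih =>
        intro v hv s hs
        have hv' : E.p.todo k.1 f = u ++ t :: v := by simpa using hv
        have ih := ih _ hv'
        rw [List.foldl_append, List.foldl_cons, List.foldl_nil] at hs
        generalize u.foldl _ _ = p at ih hs
        obtain ⟨r, b, _ | s0⟩ := p
        · cases hs
        · have i0 := ih s0 rfl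
          cases ec : E.p.call k.1 f t s0 with
          | none =>
            simp only [stp, Option.elim, ec] at hs
            obtain rfl : s0 = s := Option.some.inj hs
            exact h1 u t v s0 hv' i0 ec
          | some g =>
            simp only [stp, Option.elim, ec] at hs
            obtain ⟨a1, a2⟩ := h2 u t v s0 g.1 g.2 hv' i0 ec
            rw [(Eng.grd_eq hs).1]
            refine a2 _ (fun a ea => ?_)
            unfold ans at ea
            cases es : E.spl f <;> rw [es] at ea
            · cases eb : (g.1 && !b) <;> rw [eb] at ea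
              · exact i1 _ (by omega) a1 ea
              · exact i2 _ (by omega) a1 ea
            · exact i2 _ (by omega) a1 ea
    obtain ⟨s, h4, h5⟩ := Option.bind_eq_some_iff.1 e0
    exact h3 s a (key _ [] (by simp) s h4) h5

/-- the general halting rule -/
theorem halt0 {φ m w : ℕ} {f : F} (h : E.alive k w φ m f = true)
    (J : List T → ℕ → Bool → S → Prop)
    (h0 : size (E.p.ini k.1 f) ≤ k.2 ∧ J [] w false (E.p.ini k.1 f))
    (h1 : ∀ u t v r b s, E.p.todo k.1 f = u ++ t :: v → J u r b s → E.p.call k.1 f t s = none →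
      J (u ++ [t]) r b s)
    (h2 : ∀ u t v r b s g a, E.p.todo k.1 f = u ++ t :: v → J u r b s →
      E.p.call k.1 f t s = some g →
      a = E.ans k f (E.ev k φ (m - 1)) (E.ev k (φ - E.cost k f) (E.al k.1 f) w) r b g →
      size (E.p.upd k.1 f t s a) ≤ k.2 ∧
        J (u ++ [t]) (E.rest k f r g.2) (b || g.1) (E.p.upd k.1 f t s a)) :
    ∃ r b s, J (E.p.todo k.1 f) r b s ∧ E.ev k φ m w f = E.p.fin k.1 f s := by
  have key : ∀ u v, E.p.todo k.1 f = u ++ v → ∃ r b s, J u r b s ∧
      u.foldl (E.stp k f (E.ev k φ (m - 1)) (E.ev k (φ - E.cost k f) (E.al k.1 f) w))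
        (w, false, Eng.grd k.2 (E.p.ini k.1 f)) = (r, b, some s) := by
    intro u
    induction u using List.reverseRecOn with
    | nil => exact fun _ _ => ⟨w, false, _, h0.2, by rw [Eng.grd_of h0.1]; rfl⟩
    | append_singleton u t ih =>
      intro v hv
      have hv' : E.p.todo k.1 f = u ++ t :: v := by simpa using hv
      obtain ⟨r, b, s, a1, a2⟩ := ih _ hv'
      rw [List.foldl_append, a2, List.foldl_cons, List.foldl_nil]
      cases ec : E.p.call k.1 f t s with
      | none => exact ⟨r, b, s, h1 u t v r b s hv' a1 ec, by simp [stp, ec]⟩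
      | some g =>
        obtain ⟨a3, a4⟩ := h2 u t v r b s g _ hv' a1 ec rfl
        exact ⟨_, _, _, a4, by simp only [stp, Option.elim, ec, Eng.grd_of a3]⟩
  obtain ⟨r, b, s, a1, a2⟩ := key _ [] (List.append_nil _).symm
  exact ⟨r, b, s, a1, by rw [ev_alive h, a2]; rfl⟩

/-! ### the machine -/

/-- the weight, fuel, free calls, the flag, the frame, the remaining items, the state -/
abbrev Wk (F T S : Type) : Type := ℕ × Eng.Wk F T S

variable (E k)

/-- a frame that fails at once -/
def dead : Wk F T S := (0, Eng.dead)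

/-- open a frame -/
def start (φ m w : ℕ) (f : F) : Wk F T S :=
  bif E.alive k w φ m f then
    (w, φ, m, false, some f, E.p.todo k.1 f, Eng.grd k.2 (E.p.ini k.1 f)) else dead

/-- the engine as a recursive procedure -/
def rp : RP (Wk F T S) (Option A) where
  ask w := (Eng.cur w.2).map (fun x => (E.p.call k.1 x.1 x.2.1 x.2.2).elim dead (fun g =>
    bif E.spl x.1 then E.start k w.2.1 (w.2.2.1 - 1) (E.shr k w.1 g.2) g.2
    else bif g.1 && !w.2.2.2.1 then E.start k w.2.1 (w.2.2.1 - 1) w.1 g.2
    else E.start k (w.2.1 - E.cost k x.1) (E.al k.1 x.1) w.1 g.2))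
  upd w r := (Eng.cur w.2).elim w (fun x => (E.p.call k.1 x.1 x.2.1 x.2.2).elim
    (w.1, w.2.1, w.2.2.1, w.2.2.2.1, w.2.2.2.2.1, w.2.2.2.2.2.1.tail, w.2.2.2.2.2.2)
    (fun g => (E.rest k x.1 w.1 g.2, w.2.1, w.2.2.1, w.2.2.2.1 || g.1, w.2.2.2.2.1,
      w.2.2.2.2.2.1.tail, Eng.grd k.2 (E.p.upd k.1 x.1 x.2.1 x.2.2 r))))
  out w := w.2.2.2.2.1.bind (fun f => w.2.2.2.2.2.2.bind (E.p.fin k.1 f))

/-- run the engine on the budget `pad` -/
def run (pad : List Unit) (φ m w : ℕ) (f : F) : Option A :=
  ((E.rp k).run pad (E.start k φ m w f)).bind id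

variable {E k}

/-- the frames of the machine are small -/
def Sm (B φ m w : ℕ) (x : Wk F T S) : Prop :=
  x.1 ≤ w ∧ x.2.1 ≤ φ ∧ x.2.2.1 ≤ m ∧ size x.2.2.2.2.1 ≤ B + 2 ∧ size x.2.2.2.2.2.1 ≤ B + 1 ∧
    size x.2.2.2.2.2.2 ≤ B + 2

theorem ev_dead_frame (φ m w : ℕ) : (E.rp k).Ev (Sm k.2 φ m w) dead none 1 :=
  RP.Ev.done (P := E.rp k) (s := dead) ⟨Nat.zero_le _, Nat.zero_le _, Nat.zero_le _,
    by simp [dead, Eng.dead], by simp [dead, Eng.dead], by simp [dead, Eng.dead]⟩ rfl

theorem prc_key {n a j w : ℕ} (hw : 0 < w) :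
    1 + n * (1 + w * ((a + 1) * 2 ^ (j + 1))) ≤ w * 2 ^ (j + prc n a + 1) := by
  have l1 : n < 2 ^ n.bits.length := lt_two_pow_length_bits _
  have l0 : a + 1 < 2 ^ (a + 1).bits.length := lt_two_pow_length_bits _
  have l2 : w * 2 ^ (j + prc n a + 1) =
      2 ^ n.bits.length * (w * (2 ^ (a + 1).bits.length * 2 ^ (j + 1))) * 2 := by
    rw [prc, ← pow_add]
    ring
  have l3 : 0 < 2 ^ (j + 1) := Nat.two_pow_pos _
  have l4 : 1 + (a + 1) * 2 ^ (j + 1) ≤ 2 ^ (a + 1).bits.length * 2 ^ (j + 1) := by nlinarith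
  have l7 : 1 + w * ((a + 1) * 2 ^ (j + 1)) ≤ w * (2 ^ (a + 1).bits.length * 2 ^ (j + 1)) := by
    have := Nat.mul_le_mul_left w l4
    rw [mul_add] at this
    omega
  have l5 := Nat.mul_le_mul l1.le l7
  have l6 : 0 < 2 ^ n.bits.length * (w * (2 ^ (a + 1).bits.length * 2 ^ (j + 1))) := by positivity
  omega

theorem al_le {n a φ : ℕ} (h : prc n a ≤ φ) : a ≤ 2 ^ φ := by
  have l0 : a + 1 < 2 ^ (a + 1).bits.length := lt_two_pow_length_bits _
  have : 2 ^ (a + 1).bits.length ≤ 2 ^ φ := Nat.pow_le_pow_right two_pos (by unfold prc at h; omega)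
  omega

theorem evs (φ0 m0 w0 : ℕ) (h0 : 2 ^ φ0 ≤ m0) (φ m w : ℕ) (f : F) (h1 : φ ≤ φ0) (h2 : m ≤ m0)
    (h3 : w ≤ w0) :
    ∃ n, (E.rp k).Ev (Sm k.2 φ0 m0 w0) (E.start k φ m w f) (E.ev k φ m w f) n ∧
      n ≤ 1 + w * ((m + 1) * 2 ^ (φ + 1)) - min w 1 := by
  induction φ using Nat.strong_induction_on generalizing m w f with
  | _ φ i1 =>
  induction m using Nat.strong_induction_on generalizing w f with
  | _ m i2 =>
  cases e : E.alive k w φ m f with
  | false =>
    refine ⟨1, ?_, ?_⟩
    · rw [ev_dead e, start, e]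
      exact ev_dead_frame φ0 m0 w0
    · have : w ≤ w * ((m + 1) * 2 ^ (φ + 1)) := Nat.le_mul_of_pos_right _ (by positivity)
      omega
  | true =>
    have ha := (E.alive_iff k).1 e
    have hc : 0 < E.cost k f := prc_pos _ _
    have hal : E.al k.1 f ≤ m0 :=
      ((al_le ha.2.2.2.2.1).trans (Nat.pow_le_pow_right two_pos h1)).trans h0
    have key : ∀ (L : List T) (r : ℕ) (b : Bool) (o : Option S), size L ≤ k.2 + 1 →
        size o ≤ k.2 + 2 → r ≤ w → (E.spl f = false → r = w) →
        ∃ n, (E.rp k).Ev (Sm k.2 φ0 m0 w0) (r, φ, m, b, some f, L, o)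
          ((L.foldl (E.stp k f (E.ev k φ (m - 1)) (E.ev k (φ - E.cost k f) (E.al k.1 f) w))
            (r, b, o)).2.2.bind (E.p.fin k.1 f)) n ∧
          n ≤ bif E.spl f then 1 + L.length * 2 + r * (m * 2 ^ (φ + 1)) else 1 + L.length *
            (1 + w * ((E.al k.1 f + 1) * 2 ^ (φ - E.cost k f + 1))) +
              (bif b then 0 else w * (m * 2 ^ (φ + 1))) := by
      intro L
      induction L with
      | nil =>
        intro r b o s1 s2 r1 _
        exact ⟨1, RP.Ev.done (P := E.rp k) (s := (r, φ, m, b, some f, [], o))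
          ⟨r1.trans h3, h1, h2, by simp only [size_some]; omega, s1, s2⟩ rfl,
          by cases E.spl f <;> simp⟩
      | cons t L ih =>
        intro r b o s1 s2 r1 r2
        have ok : Sm k.2 φ0 m0 w0 ((r, φ, m, b, some f, t :: L, o) : Wk F T S) :=
          ⟨r1.trans h3, h1, h2, by simp only [size_some]; omega, s1, s2⟩
        have s3 : size L ≤ k.2 + 1 := by rw [size_cons] at s1; omega
        have p1 : 0 < w * ((E.al k.1 f + 1) * 2 ^ (φ - E.cost k f + 1)) :=
          Nat.mul_pos ha.1 (by positivity)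
        cases o with
        | none =>
          refine ⟨1, ?_, by cases E.spl f <;> simp only [cond_true, cond_false] <;> omega⟩
          rw [foldl_none]
          exact RP.Ev.done (P := E.rp k) (s := (r, φ, m, b, some f, t :: L, none)) ok rfl
        | some s =>
          rw [List.foldl_cons, List.length_cons, Nat.succ_mul, Nat.succ_mul]
          cases ec : E.p.call k.1 f t s with
          | none =>
            obtain ⟨n, a1, a2⟩ := ih r b (some s) s3 s2 r1 r2
            refine ⟨1 + n + 1, ?_, by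
              revert a2; cases E.spl f <;> simp only [cond_true, cond_false] <;> omega⟩
            have e1 : E.stp k f (E.ev k φ (m - 1)) (E.ev k (φ - E.cost k f) (E.al k.1 f) w)
                (r, b, some s) t = (r, b, some s) := by simp [stp, ec]
            rw [e1]
            refine RP.Ev.call (P := E.rp k) ok (by simp [rp, Eng.cur, ec])
              (ev_dead_frame φ0 m0 w0) ?_
            simpa [rp, Eng.cur, ec] using a1
          | some g =>
            have e1 : E.stp k f (E.ev k φ (m - 1)) (E.ev k (φ - E.cost k f) (E.al k.1 f) w)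
                (r, b, some s) t = (E.rest k f r g.2, b || g.1, Eng.grd k.2 (E.p.upd k.1 f t s
                  (E.ans k f (E.ev k φ (m - 1)) (E.ev k (φ - E.cost k f) (E.al k.1 f) w) r b g))) := by
              simp [stp, ec]
            obtain ⟨n, a1, a2⟩ := ih (E.rest k f r g.2) (b || g.1) (Eng.grd k.2 (E.p.upd k.1 f t s
              (E.ans k f (E.ev k φ (m - 1)) (E.ev k (φ - E.cost k f) (E.al k.1 f) w) r b g))) s3
              (Eng.size_grd _ _) (by unfold rest; cases E.spl f <;> simp <;> omega)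
              (fun h => by rw [rest, h]; exact r2 h)
            rw [e1]
            have hm : m - 1 + 1 = m := by omega
            cases es : E.spl f with
            | true =>
              have sh := E.shr_le k r g.2
              obtain ⟨n1, b1, b2⟩ := i2 (m - 1) (by omega) (E.shr k r g.2) g.2 (by omega) (by omega)
              refine ⟨n1 + n + 1, ?_, ?_⟩
              · refine RP.Ev.call (P := E.rp k) ok (by simp [rp, Eng.cur, ec, es]) b1 ?_
                simpa [rp, Eng.cur, ec, ans, es] using a1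
              · rw [es, rest, es] at a2
                rw [hm] at b2
                simp only [cond_true] at a2 ⊢
                have : (r - E.shr k r g.2) * (m * 2 ^ (φ + 1)) + E.shr k r g.2 * (m * 2 ^ (φ + 1)) =
                    r * (m * 2 ^ (φ + 1)) := by rw [← add_mul, Nat.sub_add_cancel sh]
                omega
            | false =>
              obtain rfl := r2 es
              rw [es] at a2
              cases eb : (g.1 && !b) with
              | false =>
                obtain ⟨n1, b1, b2⟩ := i1 (φ - E.cost k f) (by omega) (E.al k.1 f) r g.2 (by omega)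
                  hal h3
                have eb' : (b || g.1) = b := by
                  revert eb; cases g.1 <;> cases b <;> simp
                refine ⟨n1 + n + 1, ?_, ?_⟩
                · refine RP.Ev.call (P := E.rp k) ok (by simp [rp, Eng.cur, ec, es, eb]) b1 ?_
                  simpa [rp, Eng.cur, ec, ans, es, eb] using a1
                · rw [eb'] at a2
                  simp only [cond_false] at a2 ⊢
                  omega
              | true =>
                obtain ⟨n1, b1, b2⟩ := i2 (m - 1) (by omega) r g.2 (by omega) h3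
                have eb' : (b || g.1) = true ∧ b = false := by
                  revert eb; cases g.1 <;> cases b <;> simp
                refine ⟨n1 + n + 1, ?_, ?_⟩
                · refine RP.Ev.call (P := E.rp k) ok (by simp [rp, Eng.cur, ec, es, eb]) b1 ?_
                  simpa [rp, Eng.cur, ec, ans, es, eb] using a1
                · rw [eb'.1] at a2
                  rw [hm] at b2
                  rw [eb'.2]
                  simp only [cond_true, cond_false] at a2 ⊢
                  omega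
    obtain ⟨n, a1, a2⟩ := key (E.p.todo k.1 f) w false _ (by omega)
      (Eng.size_grd k.2 (E.p.ini k.1 f)) le_rfl (fun _ => rfl)
    refine ⟨n, by rw [ev_alive e, start, e]; exact a1, a2.trans ?_⟩
    obtain ⟨j, hj⟩ : ∃ j, φ = j + E.cost k f := ⟨φ - E.cost k f, by omega⟩
    rw [show φ - E.cost k f = j by omega, Nat.succ_mul m, mul_add w (m * _)]
    cases es : E.spl f with
    | true =>
      have l1 := ha.2.2.2.2.2 es
      have l2 : w * 2 ^ 2 ≤ w * 2 ^ (φ + 1) :=
        Nat.mul_le_mul_left _ (Nat.pow_le_pow_right two_pos (by omega))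
      simp only [cond_true]
      omega
    | false =>
      have := prc_key (n := (E.p.todo k.1 f).length) (a := E.al k.1 f) (j := j) ha.1
      rw [show j + prc _ _ = φ from hj.symm] at this
      simp only [cond_false]
      omega

theorem run_sound {pad : List Unit} {φ m w : ℕ} {f : F} {a : A}
    (h : E.run k pad φ m w f = some a) : E.ev k φ m w f = some a := by
  obtain ⟨r, h1, h2⟩ := Option.bind_eq_some_iff.1 h
  obtain ⟨n, e⟩ := RP.run_sound h1
  obtain ⟨n', e', _⟩ := evs (E := E) (k := k) φ (2 ^ φ + m) w (Nat.le_add_right _ _) φ m w f le_rfl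
    (Nat.le_add_left _ _) le_rfl
  rw [← (e.det e').1]
  exact h2

theorem run_complete {pad : List Unit} {φ m w : ℕ} {f : F}
    (h1 : 1 + w * ((m + 1) * 2 ^ (φ + 1)) ≤ pad.length)
    (h2 : 4 * w + 4 * φ + 4 * (2 ^ φ + m) + 3 * k.2 + 30 ≤ pad.length) :
    E.run k pad φ m w f = E.ev k φ m w f := by
  obtain ⟨n, e, hn⟩ := evs (E := E) (k := k) φ (2 ^ φ + m) w (Nat.le_add_right _ _) φ m w f le_rfl
    (Nat.le_add_left _ _) le_rfl
  have := RP.run_complete (pad := pad) (B := 4 * w + 4 * φ + 4 * (2 ^ φ + m) + 3 * k.2 + 30)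
    (e.mono fun x hx => by
      obtain ⟨z, a, b, c, d, e, g⟩ := x
      obtain ⟨a0, a1, a2, a3, a4, a5⟩ := hx
      have := size_nat_le z
      have := size_nat_le a
      have := size_nat_le b
      have := size_bool c
      simp only [size_pair] at *
      omega) (by omega) h2
  rw [run, this]; rfl

/-- all parts run in polynomial time -/
structure Poly [Enc C] [Enc A] (E : En C F T S A) : Prop where
  p : E.p.Poly
  al : PT (fun x : C × F => E.al x.1 x.2)
  spl : PT E.spl
  wt : PT (fun x : C × F => E.wt x.1 x.2)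

section pt
variable [Enc C] [Enc A] {α : Type} [Enc α]

@[fun_prop] theorem pt_prc {n a : α → ℕ} (h1 : PT n) (h2 : PT a) : PT (fun x => prc (n x) (a x)) := by
  unfold prc; fun_prop

theorem pt_cost (h : E.Poly) {k : α → C × ℕ} {f : α → F} (hk : PT k) (hf : PT f) :
    PT (fun a => E.cost (k a) (f a)) := by
  have := h.p.todo.comp (g := fun a => ((k a).1, f a)) (by fun_prop)
  have := h.al.comp (g := fun a => ((k a).1, f a)) (by fun_prop)
  unfold cost; fun_prop

theorem pt_shr (h : E.Poly) {k : α → C × ℕ} {w : α → ℕ} {f : α → F} (hk : PT k) (hw : PT w)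
    (hf : PT f) : PT (fun a => E.shr (k a) (w a) (f a)) := by
  have := h.wt.comp (g := fun a => ((k a).1, f a)) (by fun_prop)
  unfold shr; fun_prop

theorem pt_start (h : E.Poly) {k : α → C × ℕ} {φ m w : α → ℕ} {f : α → F} (hk : PT k) (h1 : PT φ)
    (h2 : PT m) (h3 : PT w) (hf : PT f) : PT (fun a => E.start (k a) (φ a) (m a) (w a) (f a)) := by
  have a1 := h.p.todo.comp (g := fun a => ((k a).1, f a)) (by fun_prop)
  have a2 := h.p.ini.comp (g := fun a => ((k a).1, f a)) (by fun_prop)
  have a3 := pt_cost h hk hf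
  have a4 := h.spl.comp hf
  unfold start alive
  fun_prop

theorem pt_run (h : E.Poly) {k : α → C × ℕ} {pad : α → List Unit} {φ m w : α → ℕ} {f : α → F}
    (hk : PT k) (hp : PT pad) (h1 : PT φ) (h2 : PT m) (h3 : PT w) (hf : PT f) :
    PT (fun a => E.run (k a) (pad a) (φ a) (m a) (w a) (f a)) := by
  refine PT.optBind (RP.pt_run (P := fun a => E.rp (k a)) ?_ ?_ ?_ hp
    (pt_start h hk h1 h2 h3 hf)) (by fun_prop)
  · refine PT.optMap (by fun_prop) (PT.optElim (h.p.call.comp
      (g := fun q : (α × Wk F T S) × F × T × S => ((k q.1.1).1, q.2)) (by fun_prop))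
      (PT.const _) (PT.cond (h.spl.comp (by fun_prop)) ?_ (PT.cond (by fun_prop) ?_ ?_)))
    · exact pt_start h (by fun_prop) (by fun_prop) (by fun_prop)
        (pt_shr h (by fun_prop) (by fun_prop) (by fun_prop)) (by fun_prop)
    · exact pt_start h (by fun_prop) (by fun_prop) (by fun_prop) (by fun_prop) (by fun_prop)
    · exact pt_start h (by fun_prop) (PT.sub (by fun_prop) (pt_cost h (by fun_prop) (by fun_prop)))
        (h.al.comp (g := fun q : ((α × Wk F T S) × F × T × S) × Bool × F =>
          ((k q.1.1.1).1, q.1.2.1)) (by fun_prop)) (by fun_prop) (by fun_prop)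
  · refine PT.optElim (by fun_prop) (by fun_prop) (PT.optElim (h.p.call.comp
      (g := fun q : (α × Wk F T S × Option A) × F × T × S => ((k q.1.1).1, q.2)) (by fun_prop))
      (by fun_prop) ?_)
    have a1 := h.p.upd.comp
      (g := fun q : ((α × Wk F T S × Option A) × F × T × S) × Bool × F =>
        ((k q.1.1.1).1, q.1.2.1, q.1.2.2.1, q.1.2.2.2, q.1.1.2.2)) (by fun_prop)
    have a2 : PT (fun q : ((α × Wk F T S × Option A) × F × T × S) × Bool × F =>
        E.rest (k q.1.1.1) q.1.2.1 q.1.1.2.1.1 q.2.2) :=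
      PT.cond (h.spl.comp (by fun_prop)) (PT.sub (by fun_prop)
        (pt_shr h (by fun_prop) (by fun_prop) (by fun_prop))) (by fun_prop)
    fun_prop
  · refine PT.optBind (by fun_prop) (PT.optBind (by fun_prop) ?_)
    exact h.p.fin.comp (g := fun q : ((α × Wk F T S) × F) × S => ((k q.1.1.1).1, q.1.2, q.2))
      (by fun_prop)
end pt

end En

namespace Part

variable {C F X T S A X' T' S' : Type}
  [Enc F] [Enc X] [Enc T] [Enc S] [Enc X'] [Enc T'] [Enc S']

/-- the local run of a frame that shares the weight `w` among its calls; the call `g` asks for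
`wt g` and is answered by `e` -/
def LocS (P : Part C F X T S A) (c : C) (B : ℕ) (wt : F → ℕ) (e : F → Option A) (w : ℕ) (x : X)
    (R : Option A → Prop) : Prop :=
  ∃ J : List T → ℕ → S → Prop, (size (P.ini c x) ≤ B ∧ J [] w (P.ini c x)) ∧
    (∀ u t v r s, P.todo c x = u ++ t :: v → J u r s → P.call c x t s = none → J (u ++ [t]) r s) ∧
    (∀ u t v r s g, P.todo c x = u ++ t :: v → J u r s → P.call c x t s = some g →
      wt g.2 ≤ r ∧ size (P.upd c x t s (e g.2)) ≤ B ∧
        J (u ++ [t]) (r - wt g.2) (P.upd c x t s (e g.2))) ∧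
    ∀ r s, J (P.todo c x) r s → R (P.fin c x s)

theorem Emb.locS {P : Part C F X T S A} {Q : Part C F X' T' S' A} {d : ℕ} (e : Emb P Q d) {c : C}
    {B w : ℕ} {wt : F → ℕ} {e1 : F → Option A} {x : X} {R : Option A → Prop}
    (h : P.LocS c B wt e1 w x R) : Q.LocS c (B + d) wt e1 w (e.f x) R := by
  obtain ⟨I, h0, h1, h2, h3⟩ := h
  refine ⟨fun u b s => ∃ u0 v0 s0, P.todo c x = u0 ++ v0 ∧ u = u0.map e.t ∧ s = e.s s0 ∧ I u0 b s0,
    ⟨?_, [], _, _, rfl, rfl, e.ini c x, h0.2⟩, ?_, ?_, ?_⟩
  · have := e.ss (P.ini c x)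
    rw [e.ini]; omega
  · rintro u t v b s a1 ⟨u0, v0, s0, b1, b2, rfl, b4⟩ a3
    obtain ⟨t0, v1, rfl, rfl⟩ := e.split a1 b1 b2
    rw [e.call] at a3
    exact ⟨u0 ++ [t0], v1, s0, by simp [b1], by simp [b2], rfl, h1 _ _ _ _ _ b1 b4 a3⟩
  · rintro u t v b s g a1 ⟨u0, v0, s0, b1, b2, rfl, b4⟩ a3
    obtain ⟨t0, v1, rfl, rfl⟩ := e.split a1 b1 b2
    rw [e.call] at a3
    obtain ⟨c0, c1, c2⟩ := h2 _ _ _ _ _ _ b1 b4 a3
    have := e.ss (P.upd c x t0 s0 (e1 g.2))
    rw [e.upd]
    exact ⟨c0, by omega, u0 ++ [t0], v1, _, by simp [b1], by simp [b2], rfl, c2⟩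
  · rintro b s ⟨u0, v0, s0, b1, b2, rfl, b4⟩
    rw [e.fin]
    exact h3 b s0 (e.whole b1 b2 ▸ b4)

theorem LocS.more {P : Part C F X T S A} {c : C} {B B' w : ℕ} {wt : F → ℕ} {e1 : F → Option A}
    {x : X} {R : Option A → Prop} (H : P.LocS c B wt e1 w x R) (e : B ≤ B') :
    P.LocS c B' wt e1 w x R := by
  obtain ⟨J, h0, h1, h2, h3⟩ := H
  exact ⟨J, ⟨h0.1.trans e, h0.2⟩, h1, fun u t v r s g a1 a2 a3 =>
    let ⟨b1, b2, b3⟩ := h2 u t v r s g a1 a2 a3; ⟨b1, b2.trans e, b3⟩, h3⟩
end Part

namespace En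
variable {C F T S A : Type} [Enc F] [Enc T] [Enc S] {E : En C F T S A} {k : C × ℕ}

/-- the outcome of a frame that does not share its weight -/
theorem halt {φ m w : ℕ} {f : F} {R : Option A → Prop} (hw : 0 < w) (hm : 0 < m)
    (hs : E.spl f = false) (hx : size f ≤ k.2) (ht : size (E.p.todo k.1 f) ≤ k.2)
    (hp : E.cost k f ≤ φ)
    (h : E.p.Loc k.1 k.2 (E.ev k φ (m - 1) w) (E.ev k (φ - E.cost k f) (E.al k.1 f) w) f R) :
    R (E.ev k φ m w f) := by
  obtain ⟨J, h0, h1, h2, h3⟩ := h
  obtain ⟨r, b, s, a1, a2⟩ := halt0 ((E.alive_iff k).2 ⟨hw, hm, hx, ht, hp, by simp [hs]⟩)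
    (fun u r b s => r = w ∧ J u b s) ⟨h0.1, rfl, h0.2⟩
    (fun u t v r b s a1 a2 a3 => ⟨a2.1, h1 u t v b s a1 a2.2 a3⟩)
    (fun u t v r b s g a a1 a2 a3 a4 => by
      obtain ⟨c1, c2⟩ := h2 u t v b s g.1 g.2 a a1 a2.2 a3 (by rw [a4, ans, hs, a2.1]; rfl)
      exact ⟨c1, by rw [rest, hs]; exact a2.1, c2⟩)
  rw [a2]
  exact h3 b s a1.2

/-- the outcome of a frame that shares its weight -/
theorem haltS {φ m w : ℕ} {f : F} {R : Option A → Prop} (hw : 0 < w) (hm : 0 < m)
    (hs : E.spl f = true) (hl : (E.p.todo k.1 f).length ≤ w) (hx : size f ≤ k.2)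
    (ht : size (E.p.todo k.1 f) ≤ k.2) (hp : E.cost k f ≤ φ)
    (h : E.p.LocS k.1 k.2 (E.wt k.1) (fun g => E.ev k φ (m - 1) (E.wt k.1 g) g) w f R) :
    R (E.ev k φ m w f) := by
  obtain ⟨J, h0, h1, h2, h3⟩ := h
  obtain ⟨r, b, s, a1, a2⟩ := halt0 ((E.alive_iff k).2 ⟨hw, hm, hx, ht, hp, fun _ => hl⟩)
    (fun u r _ s => J u r s) h0 (fun u t v r _ s => h1 u t v r s)
    (fun u t v r b s g a a1 a2 a3 a4 => by
      obtain ⟨c0, c1, c2⟩ := h2 u t v r s g a1 a2 a3
      rw [a4, ans, rest, hs, cond_true, cond_true, E.shr_eq k c0]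
      exact ⟨c1, c2⟩)
  rw [a2]
  exact h3 r s a1
end En

end Pool.Agent.P.MP_f1a348_lc.GX
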