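import Pool.Agent.P.MP_f1a348_lc.GX.DefsS

/-! Graph isomorphism: records inside a named set, the outcomes of one step. -/

set_option autoImplicit false
set_option linter.unusedSectionVars false

namespace Pool.Agent.P.MP_f1a348_lc.GX

open Equiv Finset
open scoped Classical

namespace Sy

variable {Y : Type} [DecidableEq Y] (Γ : Sy Y)

/-- a record whose set of points has the property `Fo` -/
def RecP (Fo : Finset Y → Prop) (F : Finset Y) (b β u : ℕ) (gr : Bool) : Prop :=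
  ∃ mem ρ X O, Fo O ∧ Γ.RecD F b β u gr mem ρ X O

/-- the set `F` has measure at most `ν`; the points of the record have the property `Fo` -/
def GoodP (Fo : Finset Y → Prop) (N1 : ℕ) (F : Finset Y) (ν : ℝ) : Prop :=
  12289 * lg F.card ≤ ν ∨ ∃ b β u gr, u ≤ N1 ∧ Γ.RecP Fo F b β u gr ∧ mu b β u gr ≤ ν

/-- the record lies in `Z` -/
def GoodZ (N1 : ℕ) (Z F : Finset Y) (ν : ℝ) : Prop := Γ.GoodP (fun O => O ⊆ Z) N1 F ν

/-- the record lies in a named set with at most `m` points -/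
def GoodU (Fo : Finset Y → Prop) (N1 m : ℕ) (F : Finset Y) (ν : ℝ) : Prop :=
  Γ.GoodP (fun O => ∃ Z, Fo Z ∧ Z.card ≤ m ∧ O ⊆ Z) N1 F ν

/-- pins inside `Z`: afterwards each class inside `A` has a better record, or is small, or is large
and not connected -/
def OPinZ (N1 τ : ℕ) (Z A : Finset Y) (ν : ℝ) : Prop :=
  ∃ (C P : Finset Y) (d : ℕ), Γ.Cls C ∧ C ⊆ Z ∧ P ⊆ C ∧ P.card ≤ 2 * d ∧ 1 ≤ d ∧ d ≤ τ ∧
    ∀ Γ' : Sy Y, (Γ.pin P).Ref Γ' → 3 ≤ Γ'.M → ∀ A' ⊆ A, Γ'.Cls A' →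
      Γ'.GoodZ N1 Z A' (ν - 1 - min (d : ℝ) (lg C.card)) ∨
      (d = 1 ∧ (4 * A'.card ≤ 3 * A.card ∨ (3 * A.card < 4 * A'.card ∧ Γ'.Equi A')))

/-- a quotient of a class inside `Z` gives a better record on the blocks -/
def OQuoZ (N1 : ℕ) (Z A : Finset Y) (ν : ℝ) : Prop :=
  ∃ (C : Finset Y) (prs : List (Y × Y)), Γ.Cls C ∧ C ⊆ Z ∧ C.card ≤ N1 ∧
    (∀ p ∈ prs, p.1 ∈ C ∧ p.2 ∈ C) ∧ 2 ^ prs.length ≤ C.card ∧
    ∀ (Γ' : Sy Y) (bl : Y → Y), Γ.Blk Γ' C prs bl →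
      Γ'.GoodZ N1 (C.image bl) A (ν - 1 - prs.length)

/-- a small class determines the points of `A` -/
def OKillZ (t0 : ℕ) (A : Finset Y) : Prop :=
  ∃ C : Finset Y, Γ.Cls C ∧ C.card ≤ A.card ∧
    (C.card ≤ t0 ∨ (C.card : ℝ) * lg C.card ≤ 9 * lg A.card ^ 2) ∧
    ∀ z ∈ A, ∀ z' ∈ A, (∀ v ∈ C, Γ.E2 z v z' v) → z = z'

/-- the outcomes of one step -/
def OutZ (N1 τ t0 : ℕ) (Z A : Finset Y) (ν : ℝ) : Prop :=
  Γ.GoodZ N1 Z A (ν - 1) ∨ Γ.OPinZ N1 τ Z A ν ∨ Γ.OQuoZ N1 Z A ν ∨ Γ.Equi A ∨ Γ.OKillZ t0 A ∨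
    Γ.OJohn t0 A ∨ (t0 ≤ A.card ∧ Γ.Tr A τ ∧ 12289 * lg A.card ≤ ν)

end Sy

end Pool.Agent.P.MP_f1a348_lc.GX
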