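import Pool.Agent.P.MP_f1a348_lc.GX.LibGrp
import Pool.Agent.P.MP_f1a348_lc.GX.LibGpd
import Pool.Agent.P.MP_f1a348_lc.GX.LibLC
import Pool.Agent.P.MP_f1a348_lc.GX.TJOH
import Pool.Agent.P.MP_f1a348_lc.GY.TVORB
/-! Graph isomorphism: the tables of the local certificates. -/

set_option autoImplicit false
set_option linter.unusedSectionVars false

namespace Pool.Agent.P.MP_f1a348_lc.GX

open Pool.Agent.Lib.Helper47 Pool.Agent.P.MP_f1a348_lc.GI Pool.Agent.P.MP_f1a348_lc.TO

variable {G Ω₀ Ω : Type} [Group G] [DecidableEq G] [MulAction G Ω₀] [DecidableEq Ω₀]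
  [MulAction G Ω] [DecidableEq Ω]

/-! ### programs -/

/-- entries: a tuple on the first side, a tuple on the second side, a coset that carries the first
tuple to the second -/
abbrev Tab (G Ω : Type) : Type := List (List Ω × List Ω × G × List G)

/-- the parameters: budget, base, the giant orbit, all points, a list of length `t` -/
abbrev LX (Ω₀ Ω : Type) : Type := List Unit × List Ω₀ × List Ω × List Ω × List Unit

namespace LC

variable (x : LX Ω₀ Ω)

/-- the injective tuples -/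
def tups : List (List Ω) :=
  (tuples x.1 x.2.2.1 x.2.2.2.2).filter (fun a => a.all (fun y => a.count y == 1))

/-- the set of the entries -/
def can (a : List Ω) : List Ω := x.2.2.1.filter (fun y => a.contains y)

/-- the objects -/
def objs : List (Bool × List Ω) := (tups x).flatMap (fun a => [(false, can x a), (true, can x a)])

/-- the arrows -/
def arrs (tb : Tab G Ω) : List ((Bool × List Ω) × (Bool × List Ω) × G) :=
  tb.flatMap (fun e => cosArr (false, can x e.1) (true, can x e.2.1) e.2.2)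

/-- the groupoid -/
def gpd (tb : Tab G Ω) : Gpd (Bool × List Ω) G := gGen x.1 x.2.1 (objs x) (arrs x tb)

/-- the group at an object -/
def grp (T : Gpd (Bool × List Ω) G) (c : Bool × List Ω) : List G :=
  ((gHom T c c).map Prod.snd).getD []

/-- the point `w` is not affected -/
def unB (T : Gpd (Bool × List Ω) G) (c : Bool × List Ω) (w : Ω) : Bool :=
  giantB x.1 x.2.1 (stabL x.1 x.2.1 (grp T c) [w]) c.2

/-- the affected points -/
def affL (tb : Tab G Ω) (s : Bool) (a : List Ω) : List Ω :=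
  x.2.2.2.1.filter (fun w => !unB x (gpd x tb) (s, can x a) w)

/-- the elements that fix all points that are not affected -/
def kgen (T : Gpd (Bool × List Ω) G) (c : Bool × List Ω) : List G :=
  stabL x.1 x.2.1 (grp T c) (x.2.2.2.1.filter (unB x T c))

/-- the group generated by the certificates on the side `s` -/
def fgen (tb : Tab G Ω) (s : Bool) : List G :=
  sims x.1 x.2.1 ((tups x).flatMap (fun a => kgen x (gpd x tb) (s, can x a)))

/-- the pairs of a tuple and a point -/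
def vts : List (Bool × List Ω × Ω) := prodL [false, true] (prodL (tups x) x.2.2.2.1)

/-- an arrow joins two pairs -/
def eqv (T : Gpd (Bool × List Ω) G) (v v' : Bool × List Ω × Ω) : Bool :=
  ((gHom T (v.1, can x v.2.1) (v'.1, can x v'.2.1)).bind
    (fun c => trL x.1 x.2.1 c ((v.2.2, v'.2.2) :: v.2.1.zip v'.2.1))).isSome

/-- the name of the class of a pair -/
def lb (tb : Tab G Ω) (v : Bool × List Ω × Ω) : ℕ := (vts x).findIdx (eqv x (gpd x tb) v)

/-- the labels on the side `s` -/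
def labs (tb : Tab G Ω) (s : Bool) : List (ℕ × List Ω) :=
  (prodL (tups x) x.2.2.2.1).map (fun p => (lb x tb (s, p), p.2 :: p.1))

/-- the first table -/
def tab0 (S : List G) : Tab G Ω :=
  (prodL (tups x) (tups x)).filterMap (fun p =>
    (trL x.1 x.2.1 (1, S) (p.1.zip p.2)).map (fun c => (p.1, p.2, c)))

/-- the generators keep the list `X` -/
def keepL (S : List G) (X : List Ω) : Bool :=
  S.all (fun s => X.all (fun a => X.contains (s • a) && X.contains (s⁻¹ • a)))

/-! ### running time -/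

section time
variable [Enc G] [Enc Ω₀] [Enc Ω] [PG G] [PA G Ω₀] [PA G Ω] {α : Type} [Enc α]
  {x : α → LX Ω₀ Ω} {tb : α → Tab G Ω} {T : α → Gpd (Bool × List Ω) G}

@[fun_prop] theorem pt_tups (hx : PT x) : PT (fun a => tups (x a)) := by unfold tups; fun_prop

@[fun_prop] theorem pt_can {l : α → List Ω} (hx : PT x) (hl : PT l) :
    PT (fun a => can (x a) (l a)) := by unfold can; fun_prop

@[fun_prop] theorem pt_objs (hx : PT x) : PT (fun a => objs (x a)) := by unfold objs; fun_prop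

@[fun_prop] theorem pt_arrs (hx : PT x) (ht : PT tb) : PT (fun a => arrs (x a) (tb a)) := by
  unfold arrs; fun_prop

@[fun_prop] theorem pt_gpd (hx : PT x) (ht : PT tb) : PT (fun a => gpd (x a) (tb a)) := by
  unfold gpd; fun_prop

@[fun_prop] theorem pt_grp {c : α → Bool × List Ω} (hT : PT T) (hc : PT c) :
    PT (fun a => grp (T a) (c a)) := by unfold grp; fun_prop

@[fun_prop] theorem pt_unB {c : α → Bool × List Ω} {w : α → Ω} (hx : PT x) (hT : PT T)
    (hc : PT c) (hw : PT w) : PT (fun a => unB (x a) (T a) (c a) (w a)) := by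
  unfold unB; fun_prop

@[fun_prop] theorem pt_affL {s : α → Bool} {l : α → List Ω} (hx : PT x) (ht : PT tb) (hs : PT s)
    (hl : PT l) : PT (fun a => affL (x a) (tb a) (s a) (l a)) := by unfold affL; fun_prop

@[fun_prop] theorem pt_kgen {c : α → Bool × List Ω} (hx : PT x) (hT : PT T) (hc : PT c) :
    PT (fun a => kgen (x a) (T a) (c a)) := by unfold kgen; fun_prop

@[fun_prop] theorem pt_fgen {s : α → Bool} (hx : PT x) (ht : PT tb) (hs : PT s) :
    PT (fun a => fgen (x a) (tb a) (s a)) := by unfold fgen; fun_prop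

@[fun_prop] theorem pt_vts (hx : PT x) : PT (fun a => vts (x a)) := by unfold vts; fun_prop

@[fun_prop] theorem pt_eqv {v v' : α → Bool × List Ω × Ω} (hx : PT x) (hT : PT T) (hv : PT v)
    (hv' : PT v') : PT (fun a => eqv (x a) (T a) (v a) (v' a)) := by unfold eqv; fun_prop

@[fun_prop] theorem pt_lb {v : α → Bool × List Ω × Ω} (hx : PT x) (ht : PT tb) (hv : PT v) :
    PT (fun a => lb (x a) (tb a) (v a)) := by unfold lb; fun_prop

@[fun_prop] theorem pt_labs {s : α → Bool} (hx : PT x) (ht : PT tb) (hs : PT s) :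
    PT (fun a => labs (x a) (tb a) (s a)) := by unfold labs; fun_prop

@[fun_prop] theorem pt_tab0 {S : α → List G} (hx : PT x) (hS : PT S) :
    PT (fun a => tab0 (x a) (S a)) := by unfold tab0; fun_prop

@[fun_prop] theorem pt_keepL {S : α → List G} {X : α → List Ω} (hS : PT S) (hX : PT X) :
    PT (fun a => keepL (S a) (X a)) := by unfold keepL; fun_prop
end time

/-! ### specifications -/

theorem keepL_iff {S : List G} {X : List Ω} : keepL S X = true ↔ InvL (gen S) X := by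
  simp only [keepL, List.all_eq_true, Bool.and_eq_true, List.contains_iff_mem]
  exact ⟨fun h => inv_gen fun s hs a => ⟨fun e => by simpa using (h s hs _ e).2,
    fun e => (h s hs a e).1⟩,
    fun h s hs a ha => ⟨h s (mem_gen hs) a ha, h _ (inv_mem (mem_gen hs)) a ha⟩⟩

/-- the parameters fit the group `H` -/
structure Ok (H : Subgroup G) : Prop where
  f : Faith x.1 x.2.1 H
  o : InvL H x.2.2.1
  d : InvL H x.2.2.2.1
  od : ∀ y ∈ x.2.2.1, y ∈ x.2.2.2.1
  len : x.2.2.2.1.length ≤ x.1.length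
  pow : x.2.2.1.length ^ x.2.2.2.2.length ≤ x.1.length

/-- the entries of the table are cosets in `H` that carry the first tuple to the second -/
def TOk (H : Subgroup G) (tb : Tab G Ω) : Prop :=
  ∀ e ∈ tb, e.1 ∈ tups x ∧ e.2.1 ∈ tups x ∧
    ∀ g ∈ cs (some e.2.2), g ∈ H ∧ e.1.map (fun y => g • y) = e.2.1

/-- the table contains `n` -/
def Cpl (n : G) (tb : Tab G Ω) : Prop :=
  ∀ a ∈ tups x, ∃ c, (a, a.map (fun y => n • y), c) ∈ tb ∧ n ∈ cs (some c)

/-- the arrows of the generated groupoid -/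
def Ar (tb : Tab G Ω) (s : Bool) (a : List Ω) (s' : Bool) (a' : List Ω) (g : G) : Prop :=
  Arr (objs x) (arrs x tb) (s, can x a) (s', can x a') g

variable {x} {H : Subgroup G} {tb tb' : Tab G Ω} {s s' s'' : Bool} {a a' a'' : List Ω} {g g' : G}

theorem tups_sound (h : a ∈ tups x) :
    a.length = x.2.2.2.2.length ∧ (∀ y ∈ a, y ∈ x.2.2.1) ∧ a.Nodup := by
  obtain ⟨h1, h2⟩ := List.mem_filter.1 h
  refine ⟨(tuples_sound h1).1, (tuples_sound h1).2, List.nodup_iff_count_eq_one.2 fun y hy => ?_⟩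
  simpa using List.all_eq_true.1 h2 y hy

theorem Ok.mem_tups (k : Ok x H) : a ∈ tups x ↔
    a.length = x.2.2.2.2.length ∧ (∀ y ∈ a, y ∈ x.2.2.1) ∧ a.Nodup :=
  ⟨tups_sound, fun ⟨h1, h2, h3⟩ => List.mem_filter.2 ⟨tuples_complete k.pow h1 h2,
    List.all_eq_true.2 fun y hy => by simpa using List.nodup_iff_count_eq_one.1 h3 y hy⟩⟩

theorem length_tups (x : LX Ω₀ Ω) : (tups x).length ≤ x.2.2.1.length ^ x.2.2.2.2.length :=
  (List.length_filter_le _ _).trans (length_tuples_le _ _ _)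

theorem Ok.tups_smul (k : Ok x H) (h : a ∈ tups x) (hg : g ∈ H) :
    a.map (fun y => g • y) ∈ tups x := by
  obtain ⟨h1, h2, h3⟩ := tups_sound h
  refine k.mem_tups.2 ⟨by simpa using h1, fun y hy => ?_, h3.map (MulAction.injective g)⟩
  obtain ⟨z, hz, rfl⟩ := List.mem_map.1 hy
  exact k.o g hg z (h2 z hz)

theorem mem_can (h : a ∈ tups x) {y : Ω} : y ∈ can x a ↔ y ∈ a := by
  simp only [can, List.mem_filter, List.contains_iff_mem]
  exact ⟨fun e => e.2, fun e => ⟨(tups_sound h).2.1 y e, e⟩⟩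

theorem can_congr (h : ∀ y, y ∈ a ↔ y ∈ a') : can x a = can x a' :=
  List.filter_congr fun y _ => by simp [h y]

theorem mem_objs (h : a ∈ tups x) (s : Bool) : (s, can x a) ∈ objs x :=
  List.mem_flatMap.2 ⟨a, h, by cases s <;> simp⟩

theorem of_objs {c : Bool × List Ω} (h : c ∈ objs x) : ∃ a ∈ tups x, c = (c.1, can x a) := by
  obtain ⟨a, ha, h⟩ := List.mem_flatMap.1 h
  refine ⟨a, ha, ?_⟩
  simp only [List.mem_cons, List.not_mem_nil, or_false] at h
  rcases h with rfl | rfl <;> rfl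

theorem TOk.grp_le (h : TOk x H tb) {e : List Ω × List Ω × G × List G} (he : e ∈ tb)
    (hg : g ∈ gen e.2.2.2) : g ∈ H ∧ ∀ y ∈ e.1, g • y = y := by
  obtain ⟨_, _, h3⟩ := h e he
  obtain ⟨a1, a2⟩ := h3 _ (self_mem_cs e.2.2.1 e.2.2.2)
  obtain ⟨b1, b2⟩ := h3 (e.2.2.1 * g) (mem_cs.2 (by simpa using hg))
  refine ⟨by simpa using mul_mem (inv_mem a1) b1, fun y hy => ?_⟩
  have := List.map_inj_left.1 (a2.trans b2.symm) y hy
  rw [mul_smul] at this
  exact (MulAction.injective _ this).symm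

theorem TOk.arrs_spec (h : TOk x H tb) {z : (Bool × List Ω) × (Bool × List Ω) × G}
    (hz : z ∈ arrs x tb) : z.2.2 ∈ H ∧ ∀ y, y ∈ z.1.2 ↔ z.2.2 • y ∈ z.2.1.2 := by
  obtain ⟨e, he, hz⟩ := List.mem_flatMap.1 hz
  obtain ⟨h1, h2, h3⟩ := h e he
  rcases mem_cosArr hz with rfl | ⟨u, hu, rfl⟩
  · obtain ⟨a1, a2⟩ := h3 _ (self_mem_cs e.2.2.1 e.2.2.2)
    refine ⟨a1, fun y => ?_⟩
    rw [mem_can h1, mem_can h2, ← a2]
    exact (List.mem_map_of_injective (MulAction.injective _)).symm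
  · obtain ⟨a1, a2⟩ := h.grp_le he (mem_gen hu)
    refine ⟨a1, fun y => ?_⟩
    simp only [mem_can h1]
    refine ⟨fun hy => (a2 y hy).symm ▸ hy, fun hy => ?_⟩
    have e1 : u • y = y := MulAction.injective u (a2 _ hy)
    exact e1 ▸ hy

theorem TOk.arr_spec (h : TOk x H tb) {c c' : Bool × List Ω}
    (e : Arr (objs x) (arrs x tb) c c' g) : g ∈ H ∧ ∀ y, y ∈ c.2 ↔ g • y ∈ c'.2 := by
  induction e with
  | refl _ => exact ⟨one_mem _, fun y => by rw [one_smul]⟩
  | gen h0 _ _ => exact h.arrs_spec h0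
  | inv _ ih => exact ⟨inv_mem ih.1, fun y => by rw [ih.2, smul_inv_smul]⟩
  | comp _ _ i1 i2 => exact ⟨mul_mem i2.1 i1.1, fun y => by rw [i1.2, i2.2, mul_smul]⟩

theorem Ar.refl (h : a ∈ tups x) : Ar x tb s a s a 1 := Arr.refl (mem_objs h s)

theorem Ar.inv (h : Ar x tb s a s' a' g) : Ar x tb s' a' s a g⁻¹ := Arr.inv h

theorem Ar.comp (h : Ar x tb s a s' a' g) (h' : Ar x tb s' a' s'' a'' g') :
    Ar x tb s a s'' a'' (g' * g) := Arr.comp h h'

theorem Ar.congr {b b' : List Ω} (h : Ar x tb s a s' a' g) (e : ∀ y, y ∈ a ↔ y ∈ b)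
    (e' : ∀ y, y ∈ a' ↔ y ∈ b') : Ar x tb s b s' b' g := by
  unfold Ar at h ⊢
  rwa [← can_congr e, ← can_congr e']

theorem TOk.ar_mem (h : TOk x H tb) (e : Ar x tb s a s' a' g) : g ∈ H := (h.arr_spec e).1

theorem TOk.ar_iff (h : TOk x H tb) (e : Ar x tb s a s' a' g) (ha : a ∈ tups x)
    (ha' : a' ∈ tups x) (y : Ω) : y ∈ a ↔ g • y ∈ a' := by
  have := (h.arr_spec e).2 y
  rwa [mem_can ha, mem_can ha'] at this

theorem TOk.ar_entry (h : TOk x H tb) {e : List Ω × List Ω × G × List G} (he : e ∈ tb)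
    (hg : g ∈ cs (some e.2.2)) : Ar x tb false e.1 true e.2.1 g :=
  Arr.of_cos (fun _ hz => List.mem_flatMap.2 ⟨e, he, hz⟩) (mem_objs (h e he).1 _)
    (mem_objs (h e he).2.1 _) hg

theorem TOk.ar_loop (h : TOk x H tb) {e : List Ω × List Ω × G × List G} (he : e ∈ tb)
    (hg : g ∈ gen e.2.2.2) : Ar x tb false e.1 false e.1 g :=
  ((h.ar_entry he (g := e.2.2.1 * g) (mem_cs.2 (by simpa using hg))).comp
    (h.ar_entry he (self_mem_cs _ _)).inv).of_eq (by simp)

theorem Cpl.ar {n : G} (c : Cpl x n tb) (h : TOk x H tb) (ha : a ∈ tups x) :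
    Ar x tb false a true (a.map (fun y => n • y)) n := by
  obtain ⟨c, c1, c2⟩ := c a ha
  exact h.ar_entry c1 c2

theorem Ok.mem_hom (k : Ok x H) (h : TOk x H tb) :
    g ∈ cs (gHom (gpd x tb) (s, can x a) (s', can x a')) ↔ Ar x tb s a s' a' g :=
  mem_gHom k.f fun _ hz => (h.arrs_spec hz).1

theorem Ok.mem_grp (k : Ok x H) (h : TOk x H tb) (ha : a ∈ tups x) :
    g ∈ gen (grp (gpd x tb) (s, can x a)) ↔ Ar x tb s a s a g := by
  have h1 := (k.mem_hom h).2 (Ar.refl (tb := tb) (s := s) ha)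
  rw [← k.mem_hom h, grp]
  generalize gHom (gpd x tb) (s, can x a) (s, can x a) = r at h1
  rcases r with _ | ⟨σ, S⟩
  · simp at h1
  · rw [mem_cs, mul_one] at h1
    exact ⟨fun e => mem_cs.2 (mul_mem h1 e),
      fun e => by simpa using mul_mem (inv_mem h1) (mem_cs.1 e)⟩

theorem Ok.grp_le (k : Ok x H) (h : TOk x H tb) (ha : a ∈ tups x) :
    gen (grp (gpd x tb) (s, can x a)) ≤ H := fun _ e => h.ar_mem ((k.mem_grp h ha).1 e)

theorem Ok.idx (k : Ok x H) {K : Subgroup G} (hK : K ≤ H) {y : Ω} (hy : y ∈ x.2.2.2.1) :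
    Idx (fixS [y]) K x.1.length := InvL.idx' (k.d.mono hK) k.len hy

theorem fixS_one (w : Ω) : (fixS [w] : Subgroup G) = MulAction.stabilizer G w := by
  ext g
  simp [mem_fixS]

theorem Ok.unB_iff (k : Ok x H) (h : TOk x H tb) (ha : a ∈ tups x) {w : Ω}
    (hw : w ∈ x.2.2.2.1) : unB x (gpd x tb) (s, can x a) w = true ↔
      Giant (gen (grp (gpd x tb) (s, can x a)) ⊓ MulAction.stabilizer G w) a.toFinset := by
  have l := k.grp_le (s := s) h ha
  have e := gen_stabL (k.f.mono l) (P := [w]) (fun p hp => k.idx l (by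
    rw [List.mem_singleton.1 hp]; exact hw))
  have l' : gen (stabL x.1 x.2.1 (grp (gpd x tb) (s, can x a)) [w]) ≤ H :=
    (stabL_le _ _ _ _).1.trans l
  rw [unB, giantB_iff (O := can x a) (k.f.mono l')
    (fun p hp => k.idx l' (k.od p (List.mem_filter.1 hp).1)), e, fixS_one]
  have : (can x a).toFinset = a.toFinset := by
    ext y
    simp only [List.mem_toFinset, mem_can ha]
  rw [this]

theorem Ok.unB_ar (k : Ok x H) (h : TOk x H tb) (e : Ar x tb s a s' a' g) (ha : a ∈ tups x)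
    (ha' : a' ∈ tups x) {w : Ω} (hw : w ∈ x.2.2.2.1)
    (u : unB x (gpd x tb) (s, can x a) w = true) :
    unB x (gpd x tb) (s', can x a') (g • w) = true := by
  rw [k.unB_iff h ha' (k.d g (h.ar_mem e) w hw)]
  refine ((k.unB_iff h ha hw).1 u).conj g (fun j hj => ⟨(k.mem_grp h ha').2 ?_, ?_⟩)
    (fun y hy => ?_)
  · exact ((e.inv.comp ((k.mem_grp h ha).1 hj.1)).comp e).of_eq (by rw [mul_assoc])
  · show (g * j * g⁻¹) • g • w = g • w
    rw [mul_smul, mul_smul, inv_smul_smul, show j • w = w from hj.2]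
  · rw [List.mem_toFinset] at hy ⊢
    exact (h.ar_iff e.inv ha' ha y).1 hy

theorem mem_affL {w : Ω} : w ∈ affL x tb s a ↔
    w ∈ x.2.2.2.1 ∧ ¬ unB x (gpd x tb) (s, can x a) w = true := by
  simp [affL]

theorem affL_sublist : (affL x tb s a).Sublist x.2.2.2.1 := List.filter_sublist

/-- arrows carry affected points to affected points -/
theorem Ok.aff_ar (k : Ok x H) (h : TOk x H tb) (e : Ar x tb s a s' a' g) (ha : a ∈ tups x)
    (ha' : a' ∈ tups x) (w : Ω) : w ∈ affL x tb s a ↔ g • w ∈ affL x tb s' a' := by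
  rw [mem_affL, mem_affL, k.d.iff (h.ar_mem e)]
  refine and_congr_right fun hw => not_congr ⟨k.unB_ar h e ha ha' hw, fun u => ?_⟩
  simpa using k.unB_ar h e.inv ha' ha (k.d g (h.ar_mem e) w hw) u

theorem Ok.mem_kgen (k : Ok x H) (h : TOk x H tb) (ha : a ∈ tups x) :
    g ∈ gen (kgen x (gpd x tb) (s, can x a)) ↔ Ar x tb s a s a g ∧
      ∀ w ∈ x.2.2.2.1, w ∉ affL x tb s a → g • w = w := by
  have l := k.grp_le (s := s) h ha
  rw [kgen, gen_stabL (k.f.mono l) (fun p hp => k.idx l (List.mem_filter.1 hp).1),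
    Subgroup.mem_inf, k.mem_grp h ha, mem_fixS]
  refine and_congr_right fun _ => forall_congr' fun w => ?_
  simp only [List.mem_filter, mem_affL, not_and, not_not]
  exact ⟨fun e hw u => e ⟨hw, u hw⟩, fun e u => e u.1 fun _ => u.2⟩

theorem Ok.fgen_le_iff (k : Ok x H) (h : TOk x H tb) {V : Subgroup G} :
    gen (fgen x tb s) ≤ V ↔ ∀ a ∈ tups x, gen (kgen x (gpd x tb) (s, can x a)) ≤ V := by
  have e : ∀ V : Subgroup G, gen ((tups x).flatMap (fun a => kgen x (gpd x tb) (s, can x a))) ≤ V ↔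
      ∀ a ∈ tups x, gen (kgen x (gpd x tb) (s, can x a)) ≤ V := fun V => by
    simp only [gen_le, List.mem_flatMap]
    exact ⟨fun e a ha g hg => e g ⟨a, ha, hg⟩, fun e g ⟨a, ha, hg⟩ => e a ha g hg⟩
  rw [fgen, k.f.gen_sims ((e H).2 fun a ha g hg => h.ar_mem ((k.mem_kgen h ha).1 hg).1), e]

theorem Ok.fgen_le (k : Ok x H) (h : TOk x H tb) : gen (fgen x tb s) ≤ H :=
  (k.fgen_le_iff h).2 fun _ ha _ hg => h.ar_mem ((k.mem_kgen h ha).1 hg).1

theorem length_fgen : (fgen x tb s).length ≤ x.1.length := sims_length _ _ _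

theorem Ok.kgen_le (k : Ok x H) (h : TOk x H tb) (ha : a ∈ tups x) :
    gen (kgen x (gpd x tb) (s, can x a)) ≤ gen (fgen x tb s) := (k.fgen_le_iff h).1 le_rfl a ha

theorem Ok.fgen_ar (k : Ok x H) (h : TOk x H tb) {n : G}
    (e : ∀ a ∈ tups x, ∃ a' ∈ tups x, Ar x tb s a s' a' n) (hg : g ∈ gen (fgen x tb s)) :
    n * g * n⁻¹ ∈ gen (fgen x tb s') := by
  have : gen (fgen x tb s) ≤ (gen (fgen x tb s')).comap (MulAut.conj n).toMonoidHom := by
    refine (k.fgen_le_iff h).2 fun a ha j hj => ?_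
    obtain ⟨a', ha', e⟩ := e a ha
    obtain ⟨j1, j2⟩ := (k.mem_kgen h ha).1 hj
    change n * j * n⁻¹ ∈ gen (fgen x tb s')
    refine k.kgen_le h ha' ((k.mem_kgen h ha').2 ⟨((e.inv.comp j1).comp e).of_eq
      (by rw [mul_assoc]), fun w hw u => ?_⟩)
    rw [mul_smul, mul_smul, j2 _ (k.d _ (h.ar_mem e.inv) w hw), smul_inv_smul]
    rwa [k.aff_ar h e ha ha', smul_inv_smul]
  exact this hg

/-- an element that the table contains carries one group of certificates to the other -/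
theorem Ok.fgen_conj (k : Ok x H) (h : TOk x H tb) {n : G} (hn : n ∈ H) (c : Cpl x n tb) :
    g ∈ gen (fgen x tb false) ↔ n * g * n⁻¹ ∈ gen (fgen x tb true) := by
  refine ⟨k.fgen_ar h fun a ha => ⟨_, k.tups_smul ha hn, c.ar h ha⟩, fun e => ?_⟩
  have := k.fgen_ar (s' := false) (n := n⁻¹) h (fun a ha => ⟨_, k.tups_smul ha (inv_mem hn), by
    have := (c.ar h (k.tups_smul ha (inv_mem hn))).inv
    simpa [List.map_map, Function.comp_def] using this⟩) e
  simpa [mul_assoc] using this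

/-! ### labels -/

theorem mem_vts {v : Bool × List Ω × Ω} : v ∈ vts x ↔ v.2.1 ∈ tups x ∧ v.2.2 ∈ x.2.2.2.1 := by
  rw [vts, mem_prodL, mem_prodL]
  cases v.1 <;> simp

theorem zip_iff {b : List Ω} (e : a.length = b.length) :
    (∀ t ∈ a.zip b, g • t.1 = t.2) ↔ a.map (fun y => g • y) = b := by
  induction a generalizing b with
  | nil => cases b <;> simp_all
  | cons y a ih =>
    cases b with
    | nil => simp at e
    | cons z b =>
      simp only [List.zip_cons_cons, List.forall_mem_cons, List.map_cons, List.cons.injEq]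
      rw [ih (by simpa using e)]

/-- the pairs lie in one class -/
def Sm (x : LX Ω₀ Ω) (tb : Tab G Ω) (v v' : Bool × List Ω × Ω) : Prop :=
  ∃ g, Ar x tb v.1 v.2.1 v'.1 v'.2.1 g ∧ v.2.1.map (fun y => g • y) = v'.2.1 ∧ g • v.2.2 = v'.2.2

theorem Sm.refl {v : Bool × List Ω × Ω} (h : v.2.1 ∈ tups x) : Sm x tb v v :=
  ⟨1, Ar.refl h, by simp, one_smul _ _⟩

theorem Sm.symm {v v' : Bool × List Ω × Ω} (h : Sm x tb v v') : Sm x tb v' v := by
  obtain ⟨g, h1, h2, h3⟩ := h
  exact ⟨g⁻¹, h1.inv, by simp [← h2, List.map_map, Function.comp_def], by rw [← h3, inv_smul_smul]⟩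

theorem Sm.trans {v v' v'' : Bool × List Ω × Ω} (h : Sm x tb v v') (h' : Sm x tb v' v'') :
    Sm x tb v v'' := by
  obtain ⟨g, h1, h2, h3⟩ := h
  obtain ⟨g', k1, k2, k3⟩ := h'
  exact ⟨g' * g, h1.comp k1, by simp [← k2, ← h2, List.map_map, Function.comp_def, mul_smul],
    by rw [mul_smul, h3, k3]⟩

theorem Ok.eqv_iff (k : Ok x H) (h : TOk x H tb) {v v' : Bool × List Ω × Ω} (hv : v ∈ vts x)
    (hv' : v' ∈ vts x) : eqv x (gpd x tb) v v' = true ↔ Sm x tb v v' := by
  obtain ⟨v1, v2⟩ := mem_vts.1 hv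
  have hl : v.2.1.length = v'.2.1.length := by
    rw [(tups_sound v1).1, (tups_sound (mem_vts.1 hv').1).1]
  have m := fun g => k.mem_hom (g := g) (s := v.1) (s' := v'.1) (a := v.2.1) (a' := v'.2.1) h
  unfold eqv Sm
  cases e : gHom (gpd x tb) (v.1, can x v.2.1) (v'.1, can x v'.2.1) with
  | none =>
    rw [e] at m
    exact ⟨fun c => by simp at c, fun ⟨g, c, _⟩ => by simpa using (m g).2 c⟩
  | some c =>
    rw [e] at m
    have l : gen c.2 ≤ H := (gHom_inv (fun _ hz => (h.arrs_spec hz).1) e).2.1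
    rw [Option.bind_some, trL_isSome (k.f.mono l) (fun t ht => k.idx l (by
      rcases List.mem_cons.1 ht with rfl | ht
      · exact v2
      · exact k.od _ ((tups_sound v1).2.1 _ (List.of_mem_zip ht).1)))]
    refine exists_congr fun g => ?_
    rw [m g, List.forall_mem_cons, zip_iff hl, and_comm (a := g • _ = _)]

theorem Ok.lb_eq (k : Ok x H) (h : TOk x H tb) {v v' : Bool × List Ω × Ω} (hv : v ∈ vts x)
    (hv' : v' ∈ vts x) : lb x tb v = lb x tb v' ↔ Sm x tb v v' := by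
  constructor
  · intro e
    have h1 : lb x tb v < (vts x).length :=
      List.findIdx_lt_length_of_exists ⟨v, hv, (k.eqv_iff h hv hv).2 (Sm.refl (mem_vts.1 hv).1)⟩
    have h2 : lb x tb v' < (vts x).length := e ▸ h1
    have a1 := (k.eqv_iff h hv (List.getElem_mem h1)).1 (List.findIdx_getElem (w := h1))
    have a2 := (k.eqv_iff h hv' (List.getElem_mem h2)).1 (List.findIdx_getElem (w := h2))
    have : (vts x)[lb x tb v] = (vts x)[lb x tb v'] := by simp only [e]
    exact a1.trans (this ▸ a2.symm)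
  · intro e
    have key : ∀ l : List (Bool × List Ω × Ω), (∀ z ∈ l, z ∈ vts x) →
        l.findIdx (eqv x (gpd x tb) v) = l.findIdx (eqv x (gpd x tb) v') := by
      intro l hl
      induction l with
      | nil => rfl
      | cons z l ih =>
        have hz := hl z List.mem_cons_self
        have : eqv x (gpd x tb) v z = eqv x (gpd x tb) v' z := by
          rw [Bool.eq_iff_iff, k.eqv_iff h hv hz, k.eqv_iff h hv' hz]
          exact ⟨e.symm.trans, e.trans⟩
        rw [List.findIdx_cons, List.findIdx_cons, this,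
          ih fun y hy => hl y (List.mem_cons_of_mem _ hy)]
    exact key _ fun _ hz => hz

theorem mem_labs {z : ℕ × List Ω} : z ∈ labs x tb s ↔
    ∃ a ∈ tups x, ∃ w ∈ x.2.2.2.1, z = (lb x tb (s, a, w), w :: a) := by
  simp only [labs, List.mem_map, mem_prodL]
  exact ⟨fun ⟨p, ⟨h1, h2⟩, e⟩ => ⟨p.1, h1, p.2, h2, e.symm⟩,
    fun ⟨a, h1, w, h2, e⟩ => ⟨(a, w), ⟨h1, h2⟩, e.symm⟩⟩

theorem mem_labs' {j : ℕ} {w : Ω} : (j, w :: a) ∈ labs x tb s ↔
    a ∈ tups x ∧ w ∈ x.2.2.2.1 ∧ j = lb x tb (s, a, w) := by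
  rw [mem_labs]
  constructor
  · rintro ⟨b, h1, z, h2, e⟩
    obtain ⟨e1, e2⟩ := Prod.mk.inj e
    obtain ⟨rfl, rfl⟩ := List.cons.inj e2
    exact ⟨h1, h2, e1⟩
  · rintro ⟨h1, h2, rfl⟩
    exact ⟨a, h1, w, h2, rfl⟩

theorem length_vts (x : LX Ω₀ Ω) : (vts x).length = 2 * ((tups x).length * x.2.2.2.1.length) := by
  rw [vts, length_prodL, length_prodL]
  rfl

theorem length_labs : (labs x tb s).length = (tups x).length * x.2.2.2.1.length := by
  rw [labs, List.length_map, length_prodL]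

theorem Ok.labs_spec (k : Ok x H) {z : ℕ × List Ω} (hz : z ∈ labs x tb s) :
    z.1 ≤ (vts x).length ∧ z.2.length = x.2.2.2.2.length + 1 ∧ ∀ y ∈ z.2, y ∈ x.2.2.2.1 := by
  obtain ⟨a, h1, w, h2, rfl⟩ := mem_labs.1 hz
  refine ⟨List.findIdx_le_length, by simp [(tups_sound h1).1], fun y hy => ?_⟩
  rcases List.mem_cons.1 hy with rfl | hy
  · exact h2
  · exact k.od y ((tups_sound h1).2.1 y hy)

/-- an element that the table contains keeps the labels -/
theorem Ok.labs_conj (k : Ok x H) (h : TOk x H tb) {n : G} (hn : n ∈ H) (c : Cpl x n tb) (j : ℕ)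
    (l : List Ω) : (j, l) ∈ labs x tb false ↔ (j, l.map (fun y => n • y)) ∈ labs x tb true := by
  cases l with
  | nil => simp [mem_labs]
  | cons w a =>
    rw [List.map_cons, mem_labs', mem_labs', k.d.iff hn]
    have e : a ∈ tups x ↔ a.map (fun y => n • y) ∈ tups x := ⟨fun e => k.tups_smul e hn,
      fun e => by simpa [List.map_map, Function.comp_def] using k.tups_smul e (inv_mem hn)⟩
    rw [← e]
    refine and_congr_right fun ha => and_congr_right fun hw => ?_
    rw [(k.lb_eq h (v := (false, a, w)) (v' := (true, a.map (fun y => n • y), n • w))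
      (mem_vts.2 ⟨ha, hw⟩) (mem_vts.2 ⟨e.1 ha, k.d n hn w hw⟩)).2 ⟨n, c.ar h ha, rfl, rfl⟩]

/-! ### the first table -/

theorem Ok.mem_tab0 {S : List G} (k : Ok x (gen S)) {e : List Ω × List Ω × G × List G}
    (he : e ∈ tab0 x S) : e.1 ∈ tups x ∧ e.2.1 ∈ tups x ∧ (∀ g, g ∈ cs (some e.2.2) ↔
      g ∈ gen S ∧ e.1.map (fun y => g • y) = e.2.1) := by
  obtain ⟨p, hp, he⟩ := List.mem_filterMap.1 he
  obtain ⟨c, hc, rfl⟩ := Option.map_eq_some_iff.1 he
  obtain ⟨p1, p2⟩ := mem_prodL.1 hp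
  refine ⟨p1, p2, fun g => ?_⟩
  have := trL_cs (c := (1, S)) k.f (l := p.1.zip p.2) (fun t ht =>
    k.idx le_rfl (k.od _ ((tups_sound p1).2.1 _ (List.of_mem_zip ht).1)))
  rw [hc] at this
  rw [this, Set.mem_ofPred_eq, mem_cs, zip_iff (by rw [(tups_sound p1).1, (tups_sound p2).1])]
  simp

theorem Ok.tab0_ok {S : List G} (k : Ok x (gen S)) : TOk x (gen S) (tab0 x S) := fun _ he =>
  ⟨(k.mem_tab0 he).1, (k.mem_tab0 he).2.1, fun g hg => ((k.mem_tab0 he).2.2 g).1 hg⟩

theorem Ok.tab0_cpl {S : List G} (k : Ok x (gen S)) {n : G} (hn : n ∈ gen S) :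
    Cpl x n (tab0 x S) := by
  intro a ha
  have h1 := (trL_isSome (c := (1, S)) k.f (l := a.zip (a.map (fun y => n • y))) (fun t ht =>
    k.idx le_rfl (k.od _ ((tups_sound ha).2.1 _ (List.of_mem_zip ht).1)))).2
    ⟨n, mem_cs.2 (by simpa using hn), (zip_iff (by simp)).2 rfl⟩
  obtain ⟨c, hc⟩ := Option.isSome_iff_exists.1 h1
  have m : (a, a.map (fun y => n • y), c) ∈ tab0 x S := List.mem_filterMap.2
    ⟨(a, a.map (fun y => n • y)), mem_prodL.2 ⟨ha, k.tups_smul ha hn⟩, by simp [hc]⟩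
  exact ⟨c, m, ((k.mem_tab0 m).2.2 n).2 ⟨hn, rfl⟩⟩

theorem length_tab0 (S : List G) : (tab0 x S).length ≤ (tups x).length * (tups x).length := by
  rw [← length_prodL]
  exact List.length_filterMap_le _ _

theorem tab0_len {S : List G} {n : ℕ} (h1 : x.1.length ≤ n) (h2 : S.length ≤ n)
    {e : List Ω × List Ω × G × List G} (he : e ∈ tab0 x S) : e.2.2.2.length ≤ n := by
  obtain ⟨p, _, he⟩ := List.mem_filterMap.1 he
  obtain ⟨c, hc, rfl⟩ := Option.map_eq_some_iff.1 he
  exact (trL_inv (W := ⊤) h1 ⟨trivial, fun _ _ => trivial, h2⟩ hc).2.2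

/-! ### the good case -/

/-- the system keeps the labels -/
def Lab (x : LX Ω₀ Ω) (tb : Tab G Ω) (Γ : Sy Ω) : Prop :=
  ∀ (A : Finset Ω) (f : Equiv.Perm Ω) (j : ℕ) (l : List Ω), Γ.L A f → (∀ y ∈ l, y ∈ A) →
    (j, l) ∈ labs x tb false → (j, l.map f) ∈ labs x tb false

/-- all tuples on the first side are joined -/
def Con (x : LX Ω₀ Ω) (tb : Tab G Ω) : Prop :=
  ∀ a ∈ tups x, ∀ a' ∈ tups x, ∃ g, Ar x tb false a false a' g ∧ a.map (fun y => g • y) = a'

theorem Ok.con (k : Ok x H) (h : TOk x H tb) {Γ : Sy Ω} (hl : Lab x tb Γ)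
    (h1 : 1 ≤ x.2.2.2.2.length) (ht : Γ.Tr x.2.2.1.toFinset x.2.2.2.2.length) : Con x tb := by
  intro a ha a' ha'
  obtain ⟨a1, a2, a3⟩ := tups_sound ha
  obtain ⟨b1, b2, b3⟩ := tups_sound ha'
  obtain ⟨u, rfl⟩ : ∃ u : Fin x.2.2.2.2.length → Ω, a = List.ofFn u :=
    ⟨fun i => a[i.1]'(by omega), by apply List.ext_getElem <;> simp [a1]⟩
  obtain ⟨v, rfl⟩ : ∃ v : Fin x.2.2.2.2.length → Ω, a' = List.ofFn v :=
    ⟨fun i => a'[i.1]'(by omega), by apply List.ext_getElem <;> simp [b1]⟩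
  have m : ∀ (u : Fin x.2.2.2.2.length → Ω) i, u i ∈ List.ofFn u := fun u i =>
    List.mem_ofFn.2 ⟨i, rfl⟩
  obtain ⟨f, f1, f2⟩ := ht u v (List.nodup_ofFn.1 a3) (List.nodup_ofFn.1 b3)
    (fun i => List.mem_toFinset.2 (a2 _ (m u i))) (fun i => List.mem_toFinset.2 (b2 _ (m v i)))
  have e : (List.ofFn u).map f = List.ofFn v := by
    rw [List.map_ofFn]
    exact congrArg _ (funext f2)
  have w1 := k.od _ (a2 _ (m u ⟨0, h1⟩))
  have := hl _ f _ _ f1 (fun y hy => by
    rcases List.mem_cons.1 hy with rfl | hy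
    · exact Finset.mem_image_of_mem _ (Finset.mem_univ _)
    · obtain ⟨i, rfl⟩ := List.mem_ofFn.1 hy
      exact Finset.mem_image_of_mem _ (Finset.mem_univ _)) (mem_labs'.2 ⟨ha, w1, rfl⟩)
  rw [List.map_cons, e, mem_labs'] at this
  obtain ⟨g, g1, g2, _⟩ := (k.lb_eq h (mem_vts.2 ⟨ha, w1⟩)
    (v' := (false, List.ofFn v, f (u ⟨0, h1⟩))) (mem_vts.2 ⟨ha', this.2.1⟩)).1 this.2.2
  exact ⟨g, g1, g2⟩

/-- the group generated by the certificates is a giant -/
theorem Ok.fgen_giant (k : Ok x H) (h : TOk x H tb) [Finite H] (c : Con x tb) {L : ℕ}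
    (hD : x.2.2.2.1.toFinset.card ≤ 2 ^ L) (ht : 100 * (L + 1) + 3 ≤ x.2.2.2.2.length)
    (ho : x.2.2.2.2.length ≤ x.2.2.1.toFinset.card) :
    Giant (gen (fgen x tb false)) x.2.2.1.toFinset := by
  have fin : ∀ K : Subgroup G, K ≤ H → Finite K := fun K e =>
    Finite.of_injective _ (Subgroup.inclusion_injective e)
  have := fin _ (k.fgen_le (s := false) h)
  refine giant_of_local _ _ (fun g hg y hy => List.mem_toFinset.2
    (k.o g (k.fgen_le h hg) y (List.mem_toFinset.1 hy))) (le_trans (Finset.card_le_card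
      fun y hy => List.mem_toFinset.2 (k.od y (List.mem_toFinset.1 hy))) hD) ht ho
    (fun T t1 t2 => ?_)
  have ha : T.toList ∈ tups x := k.mem_tups.2 ⟨by rw [Finset.length_toList, t2],
    fun y hy => List.mem_toFinset.1 (t1 (Finset.mem_toList.1 hy)), T.nodup_toList⟩
  have l := k.grp_le (s := false) h ha
  have := fin _ l
  have hB : Giant (gen (grp (gpd x tb) (false, can x T.toList))) T := by
    intro p hp q hq r hr _ _ _
    have m := WIELx.cyc_mem hp hq hr
    have hb : T.toList.map (Equiv.swap p q * Equiv.swap p r : Equiv.Perm Ω) ∈ tups x :=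
      k.mem_tups.2 ⟨by rw [List.length_map, Finset.length_toList, t2], fun y hy => by
        obtain ⟨z, hz, rfl⟩ := List.mem_map.1 hy
        exact List.mem_toFinset.1 (t1 ((m z).2 (Finset.mem_toList.1 hz))),
        T.nodup_toList.map (Equiv.injective _)⟩
    obtain ⟨g, g1, g2⟩ := c _ ha _ hb
    refine ⟨g, (k.mem_grp h ha).2 (g1.congr (fun _ => Iff.rfl) (fun y => ?_)),
      fun y hy => List.map_inj_left.1 g2 y (Finset.mem_toList.2 hy)⟩
    constructor
    · intro hy
      obtain ⟨z, hz, rfl⟩ := List.mem_map.1 hy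
      exact Finset.mem_toList.2 ((m z).2 (Finset.mem_toList.1 hz))
    · intro hy
      refine List.mem_map.2 ⟨(Equiv.swap p q * Equiv.swap p r : Equiv.Perm Ω)⁻¹ y,
        Finset.mem_toList.2 ((m _).1 ?_), by simp⟩
      simpa using hy
  refine (giant_unaff _ T x.2.2.2.1.toFinset
    (x.2.2.2.1.toFinset.filter (fun w => w ∉ affL x tb false T.toList)) (by omega)
    (fun g hg y hy => Finset.mem_toList.1 ((h.ar_iff ((k.mem_grp h ha).1 hg) ha ha y).1
      (Finset.mem_toList.2 hy)))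
    (fun g hg y hy => List.mem_toFinset.2 (k.d g (l hg) y (List.mem_toFinset.1 hy))) hD hB
    (fun w hw => ?_)).up (le_trans (fun g hg => (k.mem_kgen h ha).2 ⟨(k.mem_grp h ha).1 hg.1,
      fun w hw u => ?_⟩) (k.kgen_le h ha))
  · obtain ⟨w1, w2⟩ := Finset.mem_filter.1 hw
    have w3 := List.mem_toFinset.1 w1
    have := (k.unB_iff (s := false) h ha w3).1 (by
      by_contra n
      exact w2 (mem_affL.2 ⟨w3, n⟩))
    rw [Finset.toList_toFinset] at this
    exact ⟨w1, this⟩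
  · have := hg.2
    simp only [SetLike.mem_coe, Subgroup.coe_toSubmonoid, Subgroup.mem_iInf,
      MulAction.mem_stabilizer_iff] at this
    exact this w (Finset.mem_filter.2 ⟨List.mem_toFinset.2 hw, u⟩)

/-- The orbits of the group of an entry on the affected points are short. -/
theorem Ok.shrink (k : Ok x H) (h : TOk x H tb) {Γ : Sy Ω} (hl : Lab x tb Γ) {L : ℕ}
    (hM : x.2.2.2.2.length + (4 * L + 2) + 1 ≤ Γ.M)
    (hτ : x.2.2.2.2.length + (4 * L + 2) ≤ x.2.2.1.toFinset.card)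
    (ht : Γ.Tr x.2.2.1.toFinset (x.2.2.2.2.length + (4 * L + 2)))
    (hD : x.2.2.2.1.toFinset ⊆ Γ.D) (hc : x.2.2.2.1.toFinset.card ≤ 2 ^ L)
    (h2 : 2 * (4 * L + 2) + 1 ≤ x.2.2.2.2.length) {e : List Ω × List Ω × G × List G}
    (he : e ∈ tb) {w : Ω} (hw : w ∈ affL x tb false e.1) :
    (orb (gen e.2.2.2) x.2.2.2.1.toFinset w).card *
        (x.2.2.1.toFinset.card - x.2.2.2.2.length + 1) ≤
      (orb H x.2.2.2.1.toFinset w).card * (4 * L + 2) := by
  classical
  have ha := (h e he).1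
  obtain ⟨a1, a2, a3⟩ := tups_sound ha
  obtain ⟨w1, w2⟩ := mem_affL.1 hw
  obtain ⟨u, hu⟩ : ∃ u : Fin x.2.2.2.2.length → Ω, e.1 = List.ofFn u :=
    ⟨fun i => e.1[i.1]'(by omega), by apply List.ext_getElem <;> simp [a1]⟩
  have hv := (mem_vts (v := (false, e.1, w))).2 ⟨ha, w1⟩
  let R : (Fin x.2.2.2.2.length → Ω) → Ω → Prop := fun b z =>
    (lb x tb (false, e.1, w), z :: List.ofFn b) ∈ labs x tb false
  have rs : ∀ b z, R b z ↔ List.ofFn b ∈ tups x ∧ z ∈ x.2.2.2.1 ∧
      Sm x tb (false, e.1, w) (false, List.ofFn b, z) := fun b z => by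
    refine mem_labs'.trans (and_congr_right fun b1 => and_congr_right fun b2 => ?_)
    exact k.lb_eq h hv (v' := (false, List.ofFn b, z)) (mem_vts.2 ⟨b1, b2⟩)
  have ri : Γ.InvT R := fun A f b z f1 f2 f3 r => by
    have := hl A f _ _ f1 (fun y hy => by
      rcases List.mem_cons.1 hy with rfl | hy
      · exact f3
      · obtain ⟨i, rfl⟩ := List.mem_ofFn.1 hy
        exact f2 i) r
    rwa [List.map_cons, List.map_ofFn] at this
  have rO : ∀ b z, R b z → ∀ i, b i ∈ x.2.2.1 := fun b z r i =>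
    (tups_sound ((rs b z).1 r).1).2.1 _ (List.mem_ofFn.2 ⟨i, rfl⟩)
  let W := x.2.2.2.1.toFinset.filter (fun z => ∃ b, R b z)
  have hW : Γ.Inv1 W := by
    refine ⟨(Finset.filter_subset _ _).trans hD, ?_⟩
    rintro z _ ⟨f, f1, rfl⟩ hz
    obtain ⟨_, b, r⟩ := Finset.mem_filter.1 hz
    obtain ⟨f', g1, g2⟩ := Sy.ext_set f1 (B := Finset.univ.image b) (fun y hy => by
      obtain ⟨i, _, rfl⟩ := Finset.mem_image.1 hy
      exact hD (List.mem_toFinset.2 (k.od _ (rO b z r i)))) (by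
      have := Finset.card_union_le {z} (Finset.univ.image b)
      have h4 := Finset.card_image_le (s := Finset.univ) (f := b)
      rw [Finset.card_univ, Fintype.card_fin] at h4
      rw [Finset.card_singleton] at this
      omega)
    have := ri _ f' b z g2 (fun i => Finset.mem_union_right _
      (Finset.mem_image_of_mem _ (Finset.mem_univ _)))
      (Finset.mem_union_left _ (Finset.mem_singleton_self _)) r
    rw [g1 z (Finset.mem_singleton_self _)] at this
    exact Finset.mem_filter.2 ⟨List.mem_toFinset.2 ((rs _ _).1 this).2.1, _, this⟩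
  have ui : Function.Injective u := List.nodup_ofFn.1 (hu ▸ a3)
  let K : Subgroup (Equiv.Perm (Fin x.2.2.2.2.length)) :=
    { carrier := {π | ∃ g, Ar x tb false e.1 false e.1 g ∧ g • w = w ∧ ∀ i, g • u i = u (π i)}
      mul_mem' := fun ⟨g, g1, g2, g3⟩ ⟨j, j1, j2, j3⟩ => ⟨g * j, j1.comp g1,
        by rw [mul_smul, j2, g2], fun i => by rw [mul_smul, j3, g3, Equiv.Perm.mul_apply]⟩
      one_mem' := ⟨1, Ar.refl ha, one_smul _ _, fun i => one_smul _ _⟩
      inv_mem' := fun {π} ⟨g, g1, g2, g3⟩ => ⟨g⁻¹, g1.inv, inv_smul_eq_iff.2 g2.symm,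
        fun i => by rw [inv_smul_eq_iff, g3]; simp⟩ }
  have key := Sy.window (R := R) (H := K) hM hτ ht hW
    ((Finset.card_le_card (Finset.filter_subset _ _)).trans hc) h2
    (fun b z r => ⟨List.nodup_ofFn.1 (tups_sound ((rs b z).1 r).1).2.2,
      fun i => List.mem_toFinset.2 (rO b z r i),
      Finset.mem_filter.2 ⟨List.mem_toFinset.2 ((rs b z).1 r).2.1, b, r⟩⟩) ri
    (fun b z π r r' => by
      obtain ⟨g, g1, g2, g3⟩ := ((rs _ _).1 r).2.2
      obtain ⟨j, j1, j2, j3⟩ := ((rs _ _).1 r').2.2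
      simp only [hu, List.map_ofFn, List.ofFn_inj] at g2 j2
      refine ⟨g⁻¹ * j, (j1.congr (fun _ => Iff.rfl) (fun y => ?_)).comp g1.inv, ?_, fun i => ?_⟩
      · simp only [List.mem_ofFn]
        exact ⟨fun ⟨i, hi⟩ => ⟨π i, hi⟩, fun ⟨i, hi⟩ => ⟨π⁻¹ i, by simpa using hi⟩⟩
      · rw [mul_smul, inv_smul_eq_iff]
        exact j3.trans g3.symm
      · rw [mul_smul, inv_smul_eq_iff]
        exact (congrFun j2 i).trans (congrFun g2 (π i)).symm)
    (fun n => w2 ((k.unB_iff h ha w1).2 (by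
      intro p hp q hq r hr e1 e2 e3
      rw [List.mem_toFinset, hu, List.mem_ofFn] at hp hq hr
      obtain ⟨p, rfl⟩ := hp
      obtain ⟨q, rfl⟩ := hq
      obtain ⟨r, rfl⟩ := hr
      obtain ⟨g, g1, g2, g3⟩ := alt3_univ.2 n p (Finset.mem_univ _) q (Finset.mem_univ _) r
        (Finset.mem_univ _) (fun e => e1 (congrArg u e)) (fun e => e2 (congrArg u e))
        (fun e => e3 (congrArg u e))
      refine ⟨g, ⟨(k.mem_grp h ha).2 g1, g2⟩, fun y hy => ?_⟩
      rw [List.mem_toFinset, hu, List.mem_ofFn] at hy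
      obtain ⟨i, rfl⟩ := hy
      rw [g3, Equiv.Perm.mul_apply, Equiv.Perm.mul_apply, ui.map_swap, ui.map_swap])))
    ui (fun i => List.mem_toFinset.2 (a2 _ (hu ▸ List.mem_ofFn.2 ⟨i, rfl⟩)))
  refine le_trans (Nat.mul_le_mul_right _ (Finset.card_le_card fun z hz => ?_))
    (key.trans (Nat.mul_le_mul_right _ (Finset.card_le_card fun z hz => ?_)))
  · obtain ⟨z1, g, g1, rfl⟩ := mem_orb.1 hz
    have r : R u (g • w) := (rs _ _).2 ⟨hu ▸ ha, List.mem_toFinset.1 z1, g, hu ▸ h.ar_loop he g1,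
      by
        rw [← hu]
        exact (List.map_congr_left (h.grp_le he g1).2).trans (List.map_id' _), rfl⟩
    exact (@Finset.mem_filter _ _ (_) _ _).2 ⟨Finset.mem_filter.2 ⟨z1, u, r⟩, r⟩
  · obtain ⟨z1, b, r⟩ := Finset.mem_filter.1 hz
    obtain ⟨g, g1, _, g3⟩ := ((rs _ _).1 r).2.2
    exact mem_orb.2 ⟨z1, g, h.ar_mem g1, g3⟩

/-! ### the rounds -/

/-- each entry of `tb'` lies in an entry of `tb` -/
def Sub (tb' tb : Tab G Ω) : Prop :=
  ∀ e' ∈ tb', ∃ c, (e'.1, e'.2.1, c) ∈ tb ∧ cs (some e'.2.2) ⊆ cs (some c)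

theorem TOk.sub (h : TOk x H tb) (e : Sub tb' tb) : TOk x H tb' := fun e' he' => by
  obtain ⟨c, c1, c2⟩ := e e' he'
  exact ⟨(h _ c1).1, (h _ c1).2.1, fun g hg => (h _ c1).2.2 g (c2 hg)⟩

/-- a property of arrows that holds for the entries holds for all arrows -/
theorem ar_ind (Q : Bool × List Ω → Bool × List Ω → G → Prop)
    (q0 : ∀ c ∈ objs x, Q c c 1) (q1 : ∀ c c' g, Q c c' g → Q c' c g⁻¹)
    (q2 : ∀ c c' c'' g g', Q c c' g → Q c' c'' g' → Q c c'' (g' * g))
    (q3 : ∀ e ∈ tb, ∀ g ∈ cs (some e.2.2), Q (false, can x e.1) (true, can x e.2.1) g)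
    {c c' : Bool × List Ω} (e : Arr (objs x) (arrs x tb) c c' g) : Q c c' g := by
  induction e with
  | refl hc => exact q0 _ hc
  | gen h0 _ _ =>
    obtain ⟨e, he, hz⟩ := List.mem_flatMap.1 h0
    rcases mem_cosArr hz with e1 | ⟨u, hu, e1⟩
    · simp only [Prod.mk.injEq] at e1
      obtain ⟨rfl, rfl, rfl⟩ := e1
      exact q3 e he _ (self_mem_cs _ _)
    · simp only [Prod.mk.injEq] at e1
      obtain ⟨rfl, rfl, e1⟩ := e1
      have := q2 _ _ _ _ _ (q3 e he (e.2.2.1 * u) (mem_cs.2 (by simpa using mem_gen hu)))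
        (q1 _ _ _ (q3 e he _ (self_mem_cs _ _)))
      rw [e1]
      simpa using this
  | inv _ ih => exact q1 _ _ _ ih
  | comp _ _ i1 i2 => exact q2 _ _ _ _ _ i1 i2

theorem TOk.ar_sub (h : TOk x H tb) (e : Sub tb' tb) (r : Ar x tb' s a s' a' g) :
    Ar x tb s a s' a' g :=
  ar_ind (Arr (objs x) (arrs x tb)) (fun _ hc => .refl hc) (fun _ _ _ => Arr.inv)
    (fun _ _ _ _ _ => Arr.comp) (fun e' he' g hg => by
      obtain ⟨c, c1, c2⟩ := e e' he'
      exact h.ar_entry (e := (e'.1, e'.2.1, c)) c1 (c2 hg)) r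

theorem Ok.aff_sub (k : Ok x H) (h : TOk x H tb) (e : Sub tb' tb) (ha : a ∈ tups x) {w : Ω}
    (hw : w ∈ affL x tb s a) : w ∈ affL x tb' s a := by
  obtain ⟨w1, w2⟩ := mem_affL.1 hw
  refine mem_affL.2 ⟨w1, fun n => w2 ((k.unB_iff h ha w1).2
    (((k.unB_iff (h.sub e) ha w1).1 n).up (inf_le_inf_right _ fun g hg => ?_)))⟩
  exact (k.mem_grp h ha).2 (h.ar_sub e ((k.mem_grp (h.sub e) ha).1 hg))

/-- There are windows with at least `j` points, made of affected points, on which the groups at the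
objects of the first side keep `X`. -/
def Win (x : LX Ω₀ Ω) (X : List Ω) (tb : Tab G Ω) (j : ℕ) : Prop :=
  ∀ a ∈ tups x, ∃ V : Finset Ω, j ≤ V.card ∧ (∀ w ∈ V, w ∈ affL x tb false a) ∧
    ∀ g, Ar x tb false a false a g → ∀ w ∈ V, w ∈ X → g • w ∈ X

theorem win_zero (X : List Ω) : Win x X tb 0 := fun _ _ =>
  ⟨∅, Nat.zero_le _, by simp, by simp⟩

theorem Win.le {X : List Ω} {j : ℕ} (h : Win x X tb j) (ha : a ∈ tups x) :
    j ≤ x.2.2.2.1.length := by
  obtain ⟨V, v1, v2, _⟩ := h a ha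
  exact v1.trans ((Finset.card_le_card fun w hw => List.mem_toFinset.2
    (mem_affL.1 (v2 w hw)).1).trans (List.toFinset_card_le _))

/-- If the certificates do not keep `X`, the windows grow in the next round. -/
theorem Ok.win_step (k : Ok x H) (h : TOk x H tb) (c : Con x tb) {X Y : List Ω} {j : ℕ}
    (hX : ∀ w ∈ X, w ∈ x.2.2.2.1) (w : Win x X tb j) (n : ¬ InvL (gen (fgen x tb false)) X)
    (e : ∀ e' ∈ tb', ∃ c, (e'.1, e'.2.1, c) ∈ tb ∧ cs (some e'.2.2) ⊆ cs (some c) ∧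
      ∀ g ∈ cs (some e'.2.2), ∀ w ∈ affL x tb false e'.1, w ∈ X ↔ g • w ∈ Y) :
    Win x X tb' (j + 1) := by
  have sb : Sub tb' tb := fun e' he' => let ⟨c, c1, c2, _⟩ := e e' he'; ⟨c, c1, c2⟩
  obtain ⟨a0, ha0, big⟩ : ∃ a ∈ tups x, j + 1 ≤ (affL x tb false a).toFinset.card := by
    by_contra m
    push Not at m
    let A : Subgroup G :=
      { carrier := {g | ∀ w, w ∈ X ↔ g • w ∈ X}
        mul_mem' := fun h1 h2 w => by rw [h2, h1, mul_smul]
        one_mem' := fun w => by rw [one_smul]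
        inv_mem' := fun {g} h1 w => by rw [h1 (g⁻¹ • w), smul_inv_smul] }
    refine n fun g hg y hy => ((k.fgen_le_iff (V := A) h).2 (fun a ha => ?_) hg y).1 hy
    obtain ⟨V, v1, v2, v3⟩ := w a ha
    have eV : V = (affL x tb false a).toFinset := Finset.eq_of_subset_of_card_le
      (fun w hw => List.mem_toFinset.2 (v2 w hw)) (by have := m a ha; omega)
    have i : InvL (gen (kgen x (gpd x tb) (false, can x a))) X := fun g hg y hy => by
      obtain ⟨g1, g2⟩ := (k.mem_kgen h ha).1 hg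
      by_cases u : y ∈ affL x tb false a
      · exact v3 g g1 y (eV ▸ List.mem_toFinset.2 u) hy
      · rwa [g2 y (hX y hy) u]
    exact fun g hg y => (i.iff hg).symm
  intro a ha
  refine ⟨(affL x tb false a).toFinset, big.trans ?_,
    fun w hw => k.aff_sub h sb ha (List.mem_toFinset.1 hw), fun g r w hw => ?_⟩
  · obtain ⟨g, g1, _⟩ := c _ ha0 _ ha
    exact Finset.card_le_card_of_injOn (fun y => g • y) (fun y hy => List.mem_toFinset.2
      ((k.aff_ar h g1 ha0 ha y).1 (List.mem_toFinset.1 hy))) (MulAction.injective g).injOn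
  · have := ar_ind (tb := tb') (fun c c' g => Arr (objs x) (arrs x tb) c c' g ∧
      ∀ b ∈ tups x, c.2 = can x b → ∀ w ∈ affL x tb c.1 b,
        w ∈ (bif c.1 then Y else X) ↔ g • w ∈ (bif c'.1 then Y else X))
      (fun c hc => ⟨.refl hc, fun _ _ _ _ _ => by rw [one_smul]⟩)
      (fun c c' g q => ⟨q.1.inv, fun b hb eb w hw => by
        obtain ⟨b', hb', eb'⟩ := of_objs q.1.mem.1
        have r : Ar x tb c.1 b' c'.1 b g := by
          unfold Ar
          rw [← eb', ← eb]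
          exact q.1
        rw [q.2 b' hb' (congrArg Prod.snd eb') _ ((k.aff_ar h r.inv hb hb' w).1 hw),
          smul_inv_smul]⟩)
      (fun c c' c'' g g' q q' => ⟨q.1.comp q'.1, fun b hb eb w hw => by
        obtain ⟨b', hb', eb'⟩ := of_objs q.1.mem.2
        have r : Ar x tb c.1 b c'.1 b' g := by
          unfold Ar
          rw [← eb', ← eb]
          exact q.1
        rw [q.2 b hb eb w hw, q'.2 b' hb' (congrArg Prod.snd eb') _
          ((k.aff_ar h r hb hb' w).1 hw), mul_smul]⟩)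
      (fun e' he' g hg => by
        obtain ⟨c, c1, c2, c3⟩ := e e' he'
        refine ⟨h.ar_entry (e := (e'.1, e'.2.1, c)) c1 (c2 hg), fun b _ eb w hw => c3 g hg w ?_⟩
        unfold affL at hw ⊢
        rwa [show can x e'.1 = can x b from eb]) r
    exact (this.2 a ha rfl w (List.mem_toFinset.1 hw)).1

end LC

end Pool.Agent.P.MP_f1a348_lc.GX
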