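import Pool.Agent.P.MP_f1a348_lc.GX.TPLA

/-! Graph isomorphism: few pins cut a highly transitive class into small classes. -/

set_option autoImplicit false
set_option linter.unusedSectionVars false

namespace Pool.Agent.P.MP_f1a348_lc.GX

open Equiv Finset
open scoped Classical
variable {Y : Type} [DecidableEq Y] {Γ : Sy Y}

namespace DEN2x

theorem num1 {c d m N T J : ℝ} (hc : 0 < c) (hd : 10 * d ≤ c) (hT : 0 < T) (hJ : T - J ≤ T / 10)
    (hm : 1 ≤ m) (hm2 : 2 * m + d ≤ c) (hN : J * (m * (c - (m + d))) ≤ c ^ 2 * N) :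
    1 / (3 * c) ≤ N / T := by
  have h3 : 9 / 20 * c ≤ c - (m + d) := by linarith
  have h4 : 1 * (9 / 20 * c) ≤ m * (c - (m + d)) :=
    mul_le_mul hm h3 (by positivity) (by linarith)
  have h5 : 9 / 10 * T * (1 * (9 / 20 * c)) ≤ J * (m * (c - (m + d))) :=
    mul_le_mul (by linarith) h4 (by positivity) (by linarith)
  have h7 : c * T ≤ c * (N * (3 * c)) := by
    have : 0 < c * T := by positivity
    nlinarith
  rw [div_le_div_iff₀ (by positivity) hT, one_mul]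
  exact le_of_mul_le_mul_left h7 hc

theorem num3 {c n μ x W G B : ℝ} (hc : 0 < c) (hn : c ^ 2 ≤ n) (hμ : 1 / (3 * c) ≤ μ)
    (hx0 : 0 ≤ x) (hx : x ≤ 1 / 10) (hG : 0 ≤ G) (hB : 0 ≤ B) (hW : G + B = W)
    (h : W ≤ (1 / (n * μ) + 1 / (1 - x)) * G) : B ≤ (3 / c + 2 * x) * W := by
  have h0 : 0 ≤ n := (sq_nonneg c).trans hn
  have h1 : 1 / (n * μ) ≤ 3 / c := by
    calc 1 / (n * μ) ≤ 1 / (c ^ 2 * (1 / (3 * c))) := by gcongr
      _ = 3 / c := by field_simp
  have h2 : 1 / (1 - x) ≤ 1 + 2 * x := by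
    rw [div_le_iff₀ (by linarith)]
    nlinarith
  have h3 : W ≤ (1 + (3 / c + 2 * x)) * G :=
    h.trans (mul_le_mul_of_nonneg_right (by linarith) hG)
  have h4 : 0 ≤ 3 / c + 2 * x := by positivity
  nlinarith

theorem num5 (L : ℕ) (h : 64 ≤ L) : 2 ^ 14 * L ^ 4 ≤ 2 ^ (L - 1) := by
  induction L, h using Nat.le_induction with
  | base => norm_num
  | succ k hk ih =>
    obtain ⟨j, rfl⟩ : ∃ j, k = j + 1 := ⟨k - 1, by omega⟩
    rw [Nat.add_sub_cancel] at ih ⊢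
    have h1 : (8 * (j + 1 + 1)) ^ 4 ≤ (9 * (j + 1)) ^ 4 := Nat.pow_le_pow_left (by omega) 4
    rw [mul_pow, mul_pow] at h1
    rw [pow_succ 2 j]
    omega

theorem first {C : Finset Y} {a τ : ℕ} (h1 : Γ.Tr C a) (hτ : a ≤ τ) (h : ¬ Γ.Tr C τ) :
    ∃ d, a ≤ d ∧ d < τ ∧ Γ.Tr C d ∧ ¬ Γ.Tr C (d + 1) := by
  induction τ, hτ using Nat.le_induction with
  | base => exact (h h1).elim
  | succ k hk ih =>
    by_cases e : Γ.Tr C k
    · exact ⟨k, hk, k.lt_succ_self, e, h⟩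
    · obtain ⟨d, a, b, c⟩ := ih e
      exact ⟨d, a, b.trans k.lt_succ_self, c⟩

end DEN2x

open GDENSEx in
theorem Sy.Typ.dense2 {C : Finset Y} {h m : ℕ} {R : (Fin (8 * h) → Y) → Y → Prop}
    (hM : 8 * h + 2 ≤ Γ.M) (hc : C.card ^ 2 ≤ 2 ^ (4 * h)) (hx : 10 * (8 * h + 2) ^ 2 ≤ C.card)
    (ht : Γ.Typ C (8 * h) R m) :
    ∃ P ⊆ C, P.card ≤ 16 * h ∧ ∀ a ∈ C, ∀ S ⊆ (Γ.pin P).cls a,
      S.card * S.card ≤ S.card + (3 + 2 * (8 * h + 2) ^ 2) * C.card := by
  have hdN : 10 * (8 * h) ≤ C.card := by nlinarith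
  have hd : 10 * ((8 * h : ℕ) : ℝ) ≤ C.card := by exact_mod_cast hdN
  have hhalf := ht.half
  have hone := ht.one
  have hcZ : Fintype.card {x // x ∈ C} = C.card := Fintype.card_coe C
  have hc0 : 0 < C.card := by omega
  have hcR0 : (0 : ℝ) < C.card := by exact_mod_cast hc0
  have hh : 1 ≤ h := by
    rcases Nat.eq_zero_or_pos h with rfl | a
    · simp at hc hx; omega
    · exact a
  have hx0 : (0 : ℝ) ≤ (((8 * h : ℕ) : ℝ) + 2) ^ 2 / C.card := by positivity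
  have hx1 : (((8 * h : ℕ) : ℝ) + 2) ^ 2 / C.card ≤ 1 / 10 := by
    rw [div_le_div_iff₀ hcR0 (by norm_num), one_mul, mul_comm]; exact_mod_cast hx
  set x : ℝ := (((8 * h : ℕ) : ℝ) + 2) ^ 2 / C.card with hxd
  set T : ℝ := (C.card : ℝ) ^ (8 * h) with hTd
  have hT : 0 < T := by positivity
  let F : Y → Y → (Fin (8 * h) → {x // x ∈ C}) → Prop := fun u v w => Ph R u v fun i => (w i).1
  obtain ⟨z0, hz0⟩ := card_pos.1 hc0
  have hM' : Fintype.card (Fin (8 * h)) + 2 ≤ Γ.M := by rwa [Fintype.card_fin]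
  have hgood : ∀ (B : Finset {x // x ∈ C}), B.card ≤ 2 →
      ∀ ok : (Fin (8 * h) → {x // x ∈ C}) → Prop,
      (∀ z, Function.Injective z → (∀ i, z i ∉ B) → ok z) → (1 - x) * T ≤ cnt ok := by
    intro B hB ok hok
    have := good B hB (by omega) ok hok
    rwa [hcZ, Fintype.card_fin] at this
  have hsame : ∀ uv ∈ C.offDiag, ∀ uv' ∈ C.offDiag, cnt (F uv.1 uv.2) = cnt (F uv'.1 uv'.2) := by
    intro uv huv uv' huv'
    rw [mem_offDiag] at huv huv'
    have := Sy.completions ht.inv1 ht.tr (by omega) hM' (fun _ => False) (by simp; omega) (Ph R)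
      (ph_inv ht) huv.1 huv.2.1 huv'.1 huv'.2.1 huv.2.2 huv'.2.2
      (z := fun _ => ⟨z0, hz0⟩) (z' := fun _ => ⟨z0, hz0⟩) (fun _ e => e.elim)
      (fun _ e => e.elim)
    simp only [cnt_eq, false_imp_iff, implies_true, true_and] at this
    exact this
  have hoff : (C.offDiag.card : ℝ) ≤ (C.card : ℝ) ^ 2 := by
    have : C.offDiag.card ≤ C.card ^ 2 := by rw [offDiag_card, sq]; omega
    exact_mod_cast this
  have hmu : ∀ uv ∈ C.offDiag, 1 / (3 * (C.card : ℝ)) ≤ cnt (F uv.1 uv.2) / T := by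
    intro uv huv
    have h1 := hgood ∅ (by simp) Function.Injective fun z hz _ => hz
    have h2 : cnt (Function.Injective : (Fin (8 * h) → {x // x ∈ C}) → Prop) *
        (m * (C.card - (m + 8 * h))) ≤ C.offDiag.card * cnt (F uv.1 uv.2) := by
      rw [← smul_eq_mul C.offDiag.card, ← sum_const,
        sum_congr rfl fun uv' huv' => hsame uv huv uv' huv',
        swap_sum C.offDiag fun uv' => F uv'.1 uv'.2, cnt, ← smul_eq_mul, ← sum_const]
      refine le_trans (sum_le_sum fun w hw => ?_) (sum_le_sum_of_subset (subset_univ _))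
      simp only [mem_filter, mem_univ, true_and] at hw
      have := ph_card ht (fun i => (w i).1) (Subtype.val_injective.comp hw) fun i => (w i).2
      convert this
    have h3 : (cnt (Function.Injective : (Fin (8 * h) → {x // x ∈ C}) → Prop) : ℝ) *
        (m * (C.card - (m + ((8 * h : ℕ) : ℝ)))) ≤ C.offDiag.card * cnt (F uv.1 uv.2) := by
      rw [← Nat.cast_add, ← Nat.cast_sub (by omega)]
      exact_mod_cast h2
    exact DEN2x.num1 hcR0 hd hT (J := cnt (Function.Injective :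
      (Fin (8 * h) → {x // x ∈ C}) → Prop)) (m := m) (by nlinarith) (by exact_mod_cast hone)
      (by exact_mod_cast hhalf) (h3.trans (by gcongr))
  have hW : (Fintype.card (Fin (8 * h) × Bool → {x // x ∈ C}) : ℝ) = T * T := by
    rw [Fintype.card_fun, hcZ, Fintype.card_prod, Fintype.card_fin, Fintype.card_bool, pow_mul]
    push_cast
    rw [sq]
  let Sp : Y × Y → (Fin (8 * h) × Bool → {x // x ∈ C}) → Prop := fun uv ω =>
    ∃ δ, F uv.1 uv.2 fun i => ω (i, dbl h δ i)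
  have hbad : ∀ uv ∈ C.offDiag, 
      (cnt (fun ω => ¬ Sp uv ω) : ℝ) ≤ (3 / C.card + 2 * x) * (T * T) := by
    intro uv huv
    have hμ := hmu uv huv
    rw [mem_offDiag] at huv
    have hμ0 : (0 : ℝ) < cnt (F uv.1 uv.2) / T := lt_of_lt_of_le (by positivity) hμ
    have key := second_moment (univ : Finset (Fin (4 * h) → Bool))
      (fun δ (ω : Fin (8 * h) × Bool → {x // x ∈ C}) => F uv.1 uv.2 fun i => ω (i, dbl h δ i))
      hμ0 (π := 1 - x) (by linarith) univ_nonempty ?_ ?_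
    · simp only [cnt_eq, mem_univ, true_and] at key
      rw [hW, card_univ, Fintype.card_fun, Fintype.card_bool, Fintype.card_fin] at key
      have h1 := cnt_add (Sp uv)
      exact DEN2x.num3 hcR0 (by exact_mod_cast hc) hμ hx0 hx1 (G := cnt (Sp uv))
        (Nat.cast_nonneg _) (Nat.cast_nonneg _) (by rw [← hW]; exact_mod_cast h1) key
    · intro δ _
      have h1 := single_moment (F uv.1 uv.2) (dbl h δ)
      simp only [cnt_eq] at h1 ⊢
      rw [h1, hW, hcZ, Fintype.card_fin]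
      push_cast
      rw [← hTd]
      field_simp
    · intro δ _ δ' _ e
      let ok : (Fin (8 * h) → {x // x ∈ C}) → Prop := fun z => ∀ i, dbl h δ i = dbl h δ' i →
        (z i).1 ≠ uv.1 ∧ (z i).1 ≠ uv.2 ∧ ∀ j, dbl h δ j = dbl h δ' j → z i = z j → i = j
      have hok : ∀ z z' : Fin (8 * h) → {x // x ∈ C},
          (∀ i, dbl h δ i = dbl h δ' i → z i = z' i) → ok z → ok z' := by
        intro z z' e1 h1 i hi
        rw [← e1 i hi]
        exact ⟨(h1 i hi).1, (h1 i hi).2.1, fun j hj e2 => (h1 i hi).2.2 j hj (by rwa [e1 j hj])⟩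
      have h1 := pair_moment (F uv.1 uv.2) ok (dbl h δ) (dbl h δ')
        (fun z hz i _ => ⟨(ht.sup _ _ hz.1).2.2.2 i, hz.2.2 i, fun j _ e2 =>
          (ht.sup _ _ hz.1).1 (congrArg Subtype.val e2)⟩)
        (fun z z' e1 => ⟨hok z z' e1, hok z' z fun i hi => (e1 i hi).symm⟩)
        (fun z z' hz hz' => by
          have := Sy.completions ht.inv1 ht.tr (by omega) hM' (fun i => dbl h δ i = dbl h δ' i)
            (by rw [cnt_eq]; exact dbl_card e) (Ph R) (ph_inv ht) huv.1 huv.2.1 huv.1 huv.2.1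
            huv.2.2 huv.2.2 hz hz'
          simp only [cnt_eq] at this ⊢
          exact this)
      simp only [cnt_eq] at h1 ⊢
      rw [hcZ, Fintype.card_fin] at h1
      have h2 := hgood {⟨uv.1, huv.1⟩, ⟨uv.2, huv.2.1⟩} card_le_two ok fun z hz hB i _ => by
        have := hB i
        simp only [mem_insert, mem_singleton, not_or] at this
        exact ⟨fun e => this.1 (Subtype.ext e), fun e => this.2 (Subtype.ext e),
          fun j _ e => hz e⟩
      have h3 := congrArg (Nat.cast : ℕ → ℝ) h1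
      push_cast at h3
      rw [← hTd] at h3
      have e3 : ((cnt (F uv.1 uv.2) : ℝ) / T) ^ 2 * (T * T) = (cnt (F uv.1 uv.2) : ℝ) ^ 2 := by
        field_simp
      rw [hW, e3]
      refine le_of_mul_le_mul_right ?_ hT
      rw [← h3, mul_assoc]
      gcongr
  obtain ⟨ω, -, hω⟩ : ∃ ω ∈ (univ : Finset (Fin (8 * h) × Bool → {x // x ∈ C})),
      ((C.offDiag.filter (fun uv => ¬ Sp uv ω)).card : ℝ) ≤
        (3 / C.card + 2 * x) * (C.card : ℝ) ^ 2 := by
    refine exists_le_of_sum_le ⟨fun _ => ⟨z0, hz0⟩, mem_univ _⟩ ?_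
    rw [← Nat.cast_sum, ← swap_sum C.offDiag fun uv ω => ¬ Sp uv ω, Nat.cast_sum, sum_const,
      card_univ, nsmul_eq_mul, hW]
    refine (sum_le_sum hbad).trans ?_
    rw [sum_const, nsmul_eq_mul]
    calc _ ≤ (C.card : ℝ) ^ 2 * ((3 / C.card + 2 * x) * (T * T)) := by gcongr
      _ = _ := by ring
  refine ⟨univ.image fun y => (ω y).1, fun y hy => ?_, ?_, fun a ha S hS => ?_⟩
  · obtain ⟨i, _, rfl⟩ := mem_image.1 hy
    exact (ω i).2
  · refine card_image_le.trans ?_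
    rw [card_univ, Fintype.card_prod, Fintype.card_fin, Fintype.card_bool]
    omega
  · have hSC : ∀ u ∈ S, u ∈ C := fun u hu =>
      ht.inv1.2 a u ((Sy.ref_pin _).e1 (ht.inv1.1 ha) (Sy.mem_cls.1 (hS hu))) ha
    have hsub : S.offDiag ⊆ C.offDiag.filter (fun uv => ¬ Sp uv ω) := by
      intro uv huv
      rw [mem_offDiag] at huv
      rw [mem_filter, mem_offDiag]
      refine ⟨⟨hSC _ huv.1, hSC _ huv.2.1, huv.2.2⟩, ?_⟩
      rintro ⟨δ, h1, h2, -⟩
      obtain ⟨f, ⟨g, g1, g2, g3⟩, hf⟩ :=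
        (Sy.mem_cls.1 (hS huv.1)).symm.trans (Sy.mem_cls.1 (hS huv.2.1))
      have hp : ∀ i, (ω (i, dbl h δ i)).1 ∈ (univ.image fun y => (ω y).1) ∩ Γ.D := fun i =>
        mem_inter.2 ⟨mem_image_of_mem _ (mem_univ _), ht.inv1.1 (ω _).2⟩
      have h3 := ht.inv _ g _ uv.1 g3 (fun i => mem_union_right _ (hp i))
        (mem_union_left _ (mem_singleton_self _)) h1
      have e1 : (g ∘ fun i => (ω (i, dbl h δ i)).1) = fun i => (ω (i, dbl h δ i)).1 :=
        funext fun i => g2 _ (hp i)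
      rw [e1, g1 _ (mem_singleton_self _), hf] at h3
      exact h2 h3
    have h1 := card_le_card hsub
    rw [offDiag_card] at h1
    have h2 : (3 / C.card + 2 * x) * (C.card : ℝ) ^ 2 =
        (((3 + 2 * (8 * h + 2) ^ 2) * C.card : ℕ) : ℝ) := by
      rw [hxd]; push_cast; field_simp
    rw [h2, Nat.cast_le] at hω
    omega

/-- A class that is `ta`-transitive but not `τ`-transitive is cut into small classes by at most
`2 τ` pins. -/
theorem Sy.dense2 {A : Finset Y} {ta τ : ℕ} (hM : 2 * τ + 4 ≤ Γ.M) (hA : Γ.Inv1 A)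
    (h64 : 2 ^ 64 ≤ A.card) (h4 : 4 * τ ≤ A.card) (hta : 4 * Nat.clog 2 A.card + 4 ≤ ta)
    (hτ : ta ≤ τ) (h1 : Γ.Tr A ta) (h2 : ¬ Γ.Tr A τ) :
    ∃ P ⊆ A, P.card ≤ 2 * τ ∧ ∀ z ∈ A, ((Γ.pin P).cls z).card ^ 4 ≤ A.card ^ 3 := by
  obtain ⟨d, d1, d2, d3, d4⟩ := DEN2x.first h1 hτ h2
  obtain ⟨R, m, ht⟩ := Sy.typ_of (by omega) hA d3 d4
  have l1 : A.card ≤ 2 ^ Nat.clog 2 A.card := Nat.le_pow_clog one_lt_two _
  have l2 : 2 ^ (Nat.clog 2 A.card - 1) < A.card :=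
    Nat.pow_pred_clog_lt_self one_lt_two (lt_of_lt_of_le (by norm_num) h64)
  generalize Nat.clog 2 A.card = L at l1 l2 hta
  have l3 : 64 ≤ L := (Nat.pow_le_pow_iff_right one_lt_two).1 (h64.trans l1)
  have l4 := (DEN2x.num5 L l3).trans l2.le
  obtain ⟨h, g1, g2⟩ : ∃ h, 8 * h ≤ 4 * L + 4 ∧ 2 * L ≤ 4 * h := ⟨(L + 1) / 2, by omega, by omega⟩
  obtain ⟨j, rfl⟩ : ∃ j, d = j + 8 * h := ⟨d - 8 * h, by omega⟩
  obtain ⟨P, p1, p2, R', p3⟩ := ht.pin
  have c1 := card_sdiff_add_card_eq_card p1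
  have e1 : (8 * h + 2) ^ 2 ≤ (5 * L) ^ 2 := Nat.pow_le_pow_left (by omega) 2
  have e2 : 1 ≤ L ^ 2 := Nat.one_le_pow _ _ (by omega)
  have e3 : L ^ 2 ≤ L ^ 4 := Nat.pow_le_pow_right (by omega) (by norm_num)
  rw [mul_pow] at e1
  obtain ⟨P', q1, q2, q3⟩ := p3.dense2 (show 8 * h + 2 ≤ Γ.M - P.card by omega)
    (by
      calc (A \ P).card ^ 2 ≤ (2 ^ L) ^ 2 := Nat.pow_le_pow_left (by omega) 2
        _ = 2 ^ (2 * L) := by rw [← pow_mul, mul_comm]
        _ ≤ _ := Nat.pow_le_pow_right two_pos g2) (by omega)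
  have c2 := card_union_le P P'
  refine ⟨P ∪ P', union_subset p1 (q1.trans sdiff_subset), by omega, fun z hz => ?_⟩
  have one : ∀ k : ℕ, k ≤ 1 → k ^ 4 ≤ A.card ^ 3 := fun k hk =>
    (Nat.pow_le_pow_left hk 4).trans (by simpa using Nat.one_le_pow 3 _ (by omega))
  by_cases hp : z ∈ P
  · refine one _ (card_le_one.2 fun u hu v hv => ?_)
    obtain ⟨f, f1, rfl⟩ := Sy.mem_cls.1 hu
    obtain ⟨g, k1, rfl⟩ := Sy.mem_cls.1 hv
    rw [Sy.pin_fix f1 (mem_union_left _ hp) (mem_singleton_self _),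
      Sy.pin_fix k1 (mem_union_left _ hp) (mem_singleton_self _)]
  have e4 := q3 z (mem_sdiff.2 ⟨hz, hp⟩) ((Γ.pin (P ∪ P')).cls z) fun y hy =>
    Sy.mem_cls.2 ((Sy.ref_pin_pin P P').e1 (hA.1 hz) (Sy.mem_cls.1 hy))
  generalize ((Γ.pin (P ∪ P')).cls z).card = K at e4
  by_cases hK : K ≤ 1
  · exact one _ hK
  have e5 : (3 + 2 * (8 * h + 2) ^ 2) * (A \ P).card ≤ (53 * L ^ 2) * A.card :=
    Nat.mul_le_mul (by omega) (by omega)
  have e6 : 2 * K ≤ K * K := Nat.mul_le_mul_right _ (by omega)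
  have e7 : K ^ 2 ≤ 2 * (53 * L ^ 2 * A.card) := by rw [sq]; omega
  calc K ^ 4 = (K ^ 2) ^ 2 := by ring
    _ ≤ (2 * (53 * L ^ 2 * A.card)) ^ 2 := Nat.pow_le_pow_left e7 2
    _ = (11236 * L ^ 4) * A.card ^ 2 := by ring
    _ ≤ A.card * A.card ^ 2 := Nat.mul_le_mul_right _ (by omega)
    _ = _ := by ring

end Pool.Agent.P.MP_f1a348_lc.GX
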