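import Pool.Agent.P.MP_f1a348_lc.GY.DefsV
import Pool.Agent.P.MP_f1a348_lc.GX.TSYS
import Pool.Agent.P.MP_f1a348_lc.GX.TGOOD
import Pool.Agent.P.MP_f1a348_lc.GX.TCONN

/-! Step VGOOD. -/

set_option autoImplicit false
set_option linter.unusedSectionVars false

namespace Pool.Agent.P.MP_f1a348_lc.GX

open Equiv Finset MulAction
open scoped Classical
variable {G Y : Type} [Group G] [MulAction G Y] [DecidableEq Y] {P : Pm} {H H' K K' : Subgroup G}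
  {D D' : Finset Y} {Γ Γ' : Sy Y} {v v' : Vw G Y} {W : ℕ → Vw G Y → Prop}

namespace VGOODx

/-- the image of a relation -/
def push (e : Y → Y) (R : Y → Y → Prop) (a' b' : Y) : Prop :=
  ∃ a b, R a b ∧ a' = e a ∧ b' = e b

theorem push_inv {e : Y → Y} (he : Γ.RefE Γ' e) {R : Y → Y → Prop} (h : Γ.Inv2 R) :
    Γ'.Inv2 (push e R) := by
  refine ⟨?_, ?_⟩
  · rintro _ _ ⟨a, b, k, rfl, rfl⟩
    exact ⟨he.mem a (h.1 a b k).1, he.mem b (h.1 a b k).2⟩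
  · rintro _ _ a' b' e2 ⟨a, b, k, rfl, rfl⟩
    obtain ⟨a0, b0, rfl, rfl, e3⟩ := he.ref a (h.1 a b k).1 b (h.1 a b k).2 a' b' e2
    exact ⟨a0, b0, h.2 _ _ _ _ e3 k, rfl, rfl⟩

theorem push_left {e : Y → Y} (he : Γ.RefE Γ' e) {R : Y → Y → Prop} (h : Γ.Inv2 R) {a y' : Y}
    (ha : a ∈ Γ.D) (k : push e R (e a) y') : ∃ y, R a y ∧ y' = e y := by
  obtain ⟨a1, b, k, e1, e2⟩ := k
  have : a = a1 := he.inj ha (h.1 _ _ k).1 e1
  exact ⟨b, this ▸ k, e2⟩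

theorem push_iff {e : Y → Y} (he : Γ.RefE Γ' e) {R : Y → Y → Prop} (h : Γ.Inv2 R) {a y : Y}
    (ha : a ∈ Γ.D) (hy : y ∈ Γ.D) : push e R (e a) (e y) ↔ R a y := by
  refine ⟨fun k => ?_, fun k => ⟨a, y, k, rfl, rfl⟩⟩
  obtain ⟨y1, k1, e1⟩ := push_left he h ha k
  have : y = y1 := he.inj hy (h.1 _ _ k1).2 e1
  exact this ▸ k1

theorem e1_back {e : Y → Y} (he : Γ.RefE Γ' e) {a b' : Y} (ha : a ∈ Γ.D) (k : Γ'.E1 (e a) b') :
    ∃ b, b' = e b ∧ Γ.E1 a b := by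
  obtain ⟨a0, b0, e1, e2, e3⟩ := he.ref a ha a ha b' b' (Sy.e2_diag.2 k)
  exact ⟨a0, e1, e3.fst⟩

theorem push_gr {e : Y → Y} (he : Γ.RefE Γ' e) {O : Finset Y} {X : Y → Y → Prop} {β : ℕ}
    (hO : O ⊆ Γ.D) (h : Γ.Gr O X β) : Γ'.Gr (O.image e) (push e X) β := by
  refine ⟨push_inv he h.inv, ?_, ?_, fun a' => ?_, ?_⟩
  · rintro _ _ ⟨a, b, k, rfl, rfl⟩
    exact ⟨b, a, h.symm a b k, rfl, rfl⟩
  · rintro _ _ ⟨a, b, k, rfl, rfl⟩
    exact ⟨mem_image_of_mem _ (h.sup a b k).1, mem_image_of_mem _ (h.sup a b k).2⟩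
  · by_cases ha : ∃ a ∈ Γ.D, a' = e a
    · obtain ⟨a, ha, rfl⟩ := ha
      refine le_trans (card_le_card (t := (O.filter (X a)).image e) fun y' hy => ?_)
        (card_image_le.trans (h.val a))
      obtain ⟨y, k, rfl⟩ := push_left he h.inv ha (mem_filter.1 hy).2
      exact mem_image_of_mem _ (mem_filter.2 ⟨(h.sup a y k).2, k⟩)
    · rw [filter_eq_empty_iff.2, card_empty]
      · exact Nat.zero_le _
      · rintro _ - ⟨a, b, k, e1, -⟩
        exact ha ⟨a, (h.inv.1 a b k).1, e1⟩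
  · intro a' ha' S hS hc
    obtain ⟨a, ha, rfl⟩ := mem_image.1 ha'
    have h1 : S ⊆ ((Γ.cls a).filter (fun x => e x ∈ S)).image e := by
      intro x hx
      obtain ⟨b, rfl, k⟩ := e1_back he (hO ha) (Sy.mem_cls.1 (hS hx))
      exact mem_image_of_mem _ (mem_filter.2 ⟨Sy.mem_cls.2 k, hx⟩)
    refine (card_le_card h1).trans (card_image_le.trans
      (h.comp a ha _ (filter_subset _ _) fun x hx y hy hne k => ?_))
    obtain ⟨hx1, hx2⟩ := mem_filter.1 hx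
    obtain ⟨hy1, hy2⟩ := mem_filter.1 hy
    refine hc _ hx2 _ hy2 (fun q => hne
      (he.inj (Sy.mem_cls.1 hx1).mem.2 (Sy.mem_cls.1 hy1).mem.2 q)) ?_
    clear hx hy hx1 hx2 hy1 hy2 hne
    induction k with
    | rel a b k => exact Relation.EqvGen.rel _ _ ⟨a, b, k, rfl, rfl⟩
    | refl => exact Relation.EqvGen.refl _
    | symm a b _ ih => exact Relation.EqvGen.symm _ _ ih
    | trans a b c _ _ i1 i2 => exact Relation.EqvGen.trans _ _ _ i1 i2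

theorem back {F F' A B : Finset Y} {f : Perm Y} (hL : Γ.L A f) (hM : A.card + 5 ≤ Γ.M)
    (e : ∀ z ∈ Γ.D, ∀ g : Perm Y, (∀ x ∈ A, g x = f x) → Γ.L (insert z A) g →
      (z ∈ F ↔ g z ∈ F')) (hB : B ⊆ Γ.D) (hc : B.card ≤ 4) :
    ∃ k : Perm Y, (∀ z ∈ B, z ∈ F' → k z ∈ F) ∧ ∀ a ∈ B, ∀ b ∈ B, Γ.E2 a b (k a) (k b) := by
  obtain ⟨k, k1, k2⟩ := Sy.ext_set (Γ.inv hL) hB (by
    have := card_union_le (A.image f) B
    have := card_image_le (s := A) (f := f)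
    omega)
  have k3 : ∀ x ∈ A, k (f x) = x := fun x hx => by
    rw [k1 _ (mem_image_of_mem _ hx)]; simp
  refine ⟨k, fun z hz hz' => ?_, fun a ha b hb =>
    Sy.e2_of_L k2 (mem_union_right _ ha) (mem_union_right _ hb)⟩
  refine (e (k z) (Γ.sub k2 z (mem_union_right _ hz)).2 k⁻¹ (fun x hx => ?_)
    (Γ.loc (Γ.inv k2) (fun x hx => ?_) fun _ _ => rfl)).2 (by simpa using hz')
  · rw [Perm.inv_eq_iff_eq, k3 x hx]
  · rcases mem_insert.1 hx with rfl | hx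
    · exact mem_image_of_mem _ (mem_union_right _ hz)
    · exact mem_image.2 ⟨f x, mem_union_left _ (mem_image_of_mem _ hx), k3 x hx⟩

/-- the discrete system -/
def disc (D : Finset Y) : Sy Y where
  D := D
  M := 3
  L A f := A ⊆ D ∧ ∀ x ∈ A, f x = x
  sub := fun ⟨h1, h2⟩ x hx => ⟨h1 hx, by rw [h2 x hx]; exact h1 hx⟩
  loc := fun ⟨h1, h2⟩ hB e => ⟨hB.trans h1, fun x hx => by rw [e x hx, h2 x (hB hx)]⟩
  one := fun h => ⟨h, fun _ _ => rfl⟩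
  inv := fun {A f} ⟨h1, h2⟩ => ⟨fun x hx => by
      obtain ⟨y, hy, rfl⟩ := mem_image.1 hx
      rw [h2 y hy]; exact h1 hy, fun x hx => by
      obtain ⟨y, hy, rfl⟩ := mem_image.1 hx
      rw [Perm.inv_eq_iff_eq, h2 y hy, h2 y hy]⟩
  mul := fun {A f g} ⟨h1, h2⟩ ⟨_, k2⟩ => ⟨h1, fun x hx => by
    rw [Perm.mul_apply, k2 _ (mem_image_of_mem _ hx), h2 x hx]⟩
  ext := fun {A f} ⟨h1, h2⟩ _ => ⟨1, fun _ => Iff.rfl, fun w hw =>
    ⟨1, fun x hx => (h2 x hx).symm, rfl, insert_subset hw h1, fun _ _ => rfl⟩⟩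

theorem disc_e2 {a b a' b' : Y} (h : (disc D).E2 a b a' b') : a' = a ∧ b' = b := by
  obtain ⟨f, ⟨-, h2⟩, rfl, rfl⟩ := h
  exact ⟨h2 a (by simp), h2 b (by simp)⟩

theorem eqv_mem {C : Finset Y} {prs : List (Y × Y)} {a b : Y}
    (e : Relation.EqvGen (Γ.Rel C prs) a b) : a ∈ C ↔ b ∈ C := by
  induction e with
  | rel a b e => exact iff_of_true e.1 e.2.1
  | refl => rfl
  | symm a b _ ih => exact ih.symm
  | trans a b c _ _ i1 i2 => exact i1.trans i2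

end VGOODx

open VGOODx

/- Push all relations forward: mem' (e a) (e b) iff mem a b for a, b in D, O' = image e O. A class of Γ' through e a lies in the image of the class of a. -/
theorem Sy.Good.emb {N1 : ℕ} {F : Finset Y} {ν : ℝ} (h : Γ.Good N1 F ν) (hF : F ⊆ Γ.D)
    {e : Y → Y} (he : Γ.RefE Γ' e) : Γ'.Good N1 (F.image e) ν := by
  rcases h with h | ⟨b, β, u, gr, h1, ⟨mem, ρ, X, O, r⟩, h3⟩
  · left
    have := lg_mono (card_image_le (s := F) (f := e))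
    linarith
  refine Or.inr ⟨b, β, u, gr, h1, ⟨push e mem, push e ρ, push e X, O.image e, push_inv he r.imem,
    push_inv he r.irho, ⟨fun x hx => ?_, fun a' b' k ha' => ?_⟩, card_image_le.trans r.cO,
    push_gr he r.iO.1 r.gra, r.plain, fun z' hz' => ?_, fun z' hz' => ?_,
    fun z1 h1 z2 h2 y k1 k2 => ?_, fun z1 h1 z2 h2 y1 y2 k1 k2 hne => ?_⟩, h3⟩
  · obtain ⟨y, hy, rfl⟩ := mem_image.1 hx
    exact he.mem y (r.iO.1 hy)
  · obtain ⟨a, ha, rfl⟩ := mem_image.1 ha'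
    obtain ⟨b, rfl, k'⟩ := e1_back he (r.iO.1 ha) k
    exact mem_image_of_mem _ (r.iO.2 _ _ k' ha)
  · obtain ⟨z, hz, rfl⟩ := mem_image.1 hz'
    obtain ⟨y, hy⟩ := r.ne z hz
    exact ⟨e y, z, y, hy, rfl, rfl⟩
  · obtain ⟨z, hz, rfl⟩ := mem_image.1 hz'
    refine le_trans (card_le_card (t := (Γ.D.filter (mem z)).image e) fun y' hy => ?_)
      (card_image_le.trans (r.le z hz))
    obtain ⟨y, k, rfl⟩ := push_left he r.imem (hF hz) (mem_filter.1 hy).2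
    exact mem_image_of_mem _ (mem_filter.2 ⟨(r.imem.1 _ _ k).2, k⟩)
  · obtain ⟨z, hz, rfl⟩ := mem_image.1 h1
    obtain ⟨z', hz', rfl⟩ := mem_image.1 h2
    obtain ⟨y, k, rfl⟩ := push_left he r.imem (hF hz) k1
    rw [r.disj z hz z' hz' y k ((push_iff he r.imem (hF hz') (r.imem.1 _ _ k).2).1 k2)]
  · obtain ⟨z, hz, rfl⟩ := mem_image.1 h1
    obtain ⟨z', hz', rfl⟩ := mem_image.1 h2
    obtain ⟨y, k, rfl⟩ := push_left he r.imem (hF hz) k1
    obtain ⟨y', k', rfl⟩ := push_left he r.imem (hF hz') k2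
    obtain ⟨v, hv, hn⟩ := r.sep z hz z' hz' y y' k k' fun q => hne (by rw [q])
    refine ⟨e v, mem_image_of_mem _ hv, ?_⟩
    rwa [push_iff he r.irho (r.imem.1 _ _ k).2 (r.iO.1 hv),
      push_iff he r.irho (r.imem.1 _ _ k').2 (r.iO.1 hv)]

/- Same mem, ρ, X, O. To check a condition at z', y', v' extend the inverse of f to these points (ext_set) and read the condition at the preimages; cardinalities by card_eq. -/
theorem Sy.Good.move {N1 : ℕ} {F F' A : Finset Y} {ν : ℝ} {f : Perm Y} (h : Γ.Good N1 F ν)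
    (hL : Γ.L A f) (hM : A.card + 5 ≤ Γ.M) (hF : F ⊆ Γ.D) (hF' : F' ⊆ Γ.D)
    (e : ∀ z ∈ Γ.D, ∀ g : Perm Y, (∀ x ∈ A, g x = f x) → Γ.L (insert z A) g →
      (z ∈ F ↔ g z ∈ F')) : Γ.Good N1 F' ν := by
  rcases h with h | ⟨b, β, u, gr, h1, ⟨mem, ρ, X, O, r⟩, h3⟩
  · left
    have h2 := Sy.card_eq hL (by omega) (fun z => z ∈ F) (fun z => z ∈ F') e
    have h3 : ∀ {Z : Finset Y}, Z ⊆ Γ.D →
        @filter Y (fun z => z ∈ Z) (fun a => Classical.propDecidable _) Γ.D = Z := fun hZ => by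
      ext x
      simp only [mem_filter]
      exact ⟨fun k => k.2, fun k => ⟨hZ k, k⟩⟩
    rw [h3 hF, h3 hF'] at h2
    rwa [← h2]
  refine Or.inr ⟨b, β, u, gr, h1, ⟨mem, ρ, X, O, r.imem, r.irho, r.iO, r.cO, r.gra, r.plain,
    fun z hz => ?_, fun z hz => ?_, fun z hz z' hz' y k1 k2 => ?_,
    fun z hz z' hz' y y' k1 k2 hne => ?_⟩, h3⟩
  · obtain ⟨k, a1, a2⟩ := back (B := {z}) hL hM e (by simpa using hF' hz) (by simp)
    obtain ⟨y, hy⟩ := r.ne _ (a1 z (by simp) hz)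
    obtain ⟨y', e2⟩ := (a2 z (by simp) z (by simp)).fst.symm.ext2 (by omega) (r.imem.1 _ _ hy).2
    exact ⟨y', r.imem.2 _ _ _ _ e2 hy⟩
  · obtain ⟨k, a1, a2⟩ := back (B := {z}) hL hM e (by simpa using hF' hz) (by simp)
    rw [r.imem.card_eq (by omega) (a2 z (by simp) z (by simp)).fst]
    exact r.le _ (a1 z (by simp) hz)
  · obtain ⟨k, a1, a2⟩ := back (B := {z, z', y}) hL hM e
      (by simp [insert_subset_iff, hF' hz, hF' hz', (r.imem.1 _ _ k1).2])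
      (card_le_three.trans (by omega))
    exact k.injective (r.disj _ (a1 z (by simp) hz) _ (a1 z' (by simp) hz') (k y)
      (r.imem.2 _ _ _ _ (a2 z (by simp) y (by simp)) k1)
      (r.imem.2 _ _ _ _ (a2 z' (by simp) y (by simp)) k2))
  · obtain ⟨k, a1, a2⟩ := back (B := {z, z', y, y'}) hL hM e
      (by simp [insert_subset_iff, hF' hz, hF' hz', (r.imem.1 _ _ k1).2, (r.imem.1 _ _ k2).2])
      card_le_four
    obtain ⟨v, hv, hn⟩ := r.sep _ (a1 z (by simp) hz) _ (a1 z' (by simp) hz') (k y) (k y')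
      (r.imem.2 _ _ _ _ (a2 z (by simp) y (by simp)) k1)
      (r.imem.2 _ _ _ _ (a2 z' (by simp) y' (by simp)) k2) fun q => hne (k.injective q)
    obtain ⟨v', e1, e2, -, -⟩ := (a2 y (by simp) y' (by simp)).symm.ext3 (by omega) (r.iO.1 hv)
    refine ⟨v', r.iO.2 _ _ e1.snd hv, ?_⟩
    rwa [← r.irho.iff e1, ← r.irho.iff e2]

theorem Sy.good_triv {N1 c : ℕ} {F : Finset Y} (h : F.card ≤ c) : Γ.Good N1 F (12289 * lg c) := by
  left
  have := lg_mono h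
  linarith

theorem Sy.RefE.of_ref (h : Γ.Ref Γ') : Γ.RefE Γ' id := by
  exact ⟨Set.injOn_id _, fun a ha => h.1 ha, fun a ha b hb a' b' k =>
    ⟨a', b', rfl, rfl, h.2 a ha b hb a' b' k⟩⟩

theorem Sy.RefE.comp_ref {Γ'' : Sy Y} {e : Y → Y} (h : Γ.Ref Γ') (he : Γ'.RefE Γ'' e) :
    Γ.RefE Γ'' e := by
  refine ⟨he.inj.mono fun x hx => h.1 hx, fun a ha => he.mem a (h.1 ha),
    fun a ha b hb a' b' k => ?_⟩
  obtain ⟨a0, b0, e1, e2, e3⟩ := he.ref a (h.1 ha) b (h.1 hb) a' b' k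
  exact ⟨a0, b0, e1, e2, h.2 a ha b hb _ _ e3⟩

/- Γ' = the discrete system on D (L A f iff A ⊆ D and f is the identity on A, M = 3), b x = a chosen point of the component of x -/
theorem Sy.blk_exists {C : Finset Y} (hC : C ⊆ Γ.D) (prs : List (Y × Y)) :
    ∃ (Γ' : Sy Y) (b : Y → Y), Γ.Blk Γ' C prs b := by
  refine ⟨disc Γ.D, fun x => (Quot.mk (Γ.Rel C prs) x).out, ⟨Subset.refl _,
    fun a ha b hb a' b' k => ?_⟩, le_refl _, fun x _ y _ => ?_, ?_, ?_⟩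
  · obtain ⟨rfl, rfl⟩ := disc_e2 k
    exact Sy.E2.refl ha hb
  · rw [← Quot.eq]
    exact ⟨fun q => by rw [← Quot.out_eq (Quot.mk _ x), q, Quot.out_eq], fun q => by rw [q]⟩
  · rintro x _ ⟨hx, rfl⟩
    exact ⟨hC hx, hC ((eqv_mem (Quot.eq.1 (Quot.out_eq (Quot.mk (Γ.Rel C prs) x)))).2 hx)⟩
  · intro a b a' b' k h
    obtain ⟨rfl, rfl⟩ := disc_e2 k
    exact h

/- the blocks of one type of pairs; blocks_eq -/
theorem Sy.blks (hM : 3 ≤ Γ.M) {A : Finset Y} (hA : Γ.Cls A) {z z' : Y} (hz : z ∈ A)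
    (hz' : z' ∈ A) (hne : z ≠ z')
    (hn : ∃ x ∈ A, ∃ y ∈ A, ¬ Relation.EqvGen (Γ.Rel A [(z, z')]) x y) {b : Y → Y}
    (hb : ∀ x ∈ A, ∀ y ∈ A, b x = b y ↔ Relation.EqvGen (Γ.Rel A [(z, z')]) x y) :
    ∃ f, 2 ≤ f ∧ 2 ≤ (A.image b).card ∧ (A.image b).card * f = A.card ∧
      ∀ y, (A.filter (fun x => b x = y)).card ≤ f := by
  have key : ∀ y ∈ A.image b, (A.filter (fun x => b x = y)).card =
      (A.filter (Relation.EqvGen (Γ.Rel A [(z, z')]) z)).card := by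
    intro y hy
    obtain ⟨x, hx, rfl⟩ := mem_image.1 hy
    rw [← Sy.blocks_eq hM hA [(z, z')] hx hz]
    congr 1
    refine filter_congr fun w hw => ?_
    rw [eq_comm, hb x hx w hw]
  refine ⟨(A.filter (Relation.EqvGen (Γ.Rel A [(z, z')]) z)).card, ?_, ?_, ?_, fun y => ?_⟩
  · refine one_lt_card.2 ⟨z, mem_filter.2 ⟨hz, Relation.EqvGen.refl _⟩, z', mem_filter.2 ⟨hz',
      Relation.EqvGen.rel _ _ ⟨hz, hz', (z, z'), by simp, ?_⟩⟩, hne⟩
    exact Sy.E2.refl (hA.2.1.1 hz) (hA.2.1.1 hz')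
  · obtain ⟨x, hx, y, hy, hxy⟩ := hn
    exact one_lt_card.2 ⟨b x, mem_image_of_mem _ hx, b y, mem_image_of_mem _ hy,
      fun q => hxy ((hb x hx y hy).1 q)⟩
  · rw [card_eq_sum_card_image b A, sum_congr rfl key, sum_const, smul_eq_mul]
  · by_cases hy : y ∈ A.image b
    · exact (key y hy).le
    · rw [filter_eq_empty_iff.2 fun x hx q => hy (mem_image.2 ⟨x, hx, q⟩), card_empty]
      exact Nat.zero_le _

end Pool.Agent.P.MP_f1a348_lc.GX
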