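import Pool.Agent.P.MP_f1a348_lc.GY.DefsZ
import Pool.Agent.P.MP_f1a348_lc.GX.TSTEP

/-! Graph isomorphism: records inside a named set. -/

set_option autoImplicit false
set_option linter.unusedSectionVars false

namespace Pool.Agent.P.MP_f1a348_lc.GX

open Equiv Finset
open scoped Classical
variable {Y : Type} [DecidableEq Y] {Γ Γ' : Sy Y} {Fo Fo' : Finset Y → Prop}

theorem Sy.RecD.mono {F F' O : Finset Y} {b β u : ℕ} {gr : Bool} {mem ρ X : Y → Y → Prop}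
    (r : Γ.RecD F b β u gr mem ρ X O) (hF : F' ⊆ F) (e : Γ.Ref Γ') :
    Γ'.RecD F' b β u gr mem ρ X O := by
  refine ⟨e.inv2 r.imem, e.inv2 r.irho, e.inv1 r.iO, r.cO, r.gra.mono r.iO.1 e,
    r.plain, fun z hz => r.ne z (hF hz), fun z hz => le_trans (card_le_card ?_) (r.le z (hF hz)),
    fun z hz z' hz' => r.disj z (hF hz) z' (hF hz'), fun z hz z' hz' => r.sep z (hF hz) z' (hF hz')⟩
  intro y hy
  have h2 := (mem_filter.1 hy).2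
  exact mem_filter.2 ⟨(r.imem.1 z y h2).2, h2⟩

theorem Sy.RecP.mono {F F' : Finset Y} {b β u : ℕ} {gr : Bool} (h : Γ.RecP Fo F b β u gr)
    (hF : F' ⊆ F) (e : Γ.Ref Γ') (f : ∀ O, Fo O → Fo' O) : Γ'.RecP Fo' F' b β u gr := by
  obtain ⟨mem, ρ, X, O, o, r⟩ := h
  exact ⟨mem, ρ, X, O, f O o, r.mono hF e⟩

theorem Sy.GoodP.good {N1 : ℕ} {F : Finset Y} {ν : ℝ} (h : Γ.GoodP Fo N1 F ν) : Γ.Good N1 F ν :=
  h.imp id fun ⟨b, β, u, gr, h1, ⟨mem, ρ, X, O, _, r⟩, h3⟩ =>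
    ⟨b, β, u, gr, h1, ⟨mem, ρ, X, O, r⟩, h3⟩

theorem Sy.recP_direct {A O : Finset Y} {ρ X : Y → Y → Prop} {β u : ℕ} {gr : Bool} (o : Fo O)
    (hA : Γ.Inv1 A) (hρ : Γ.Inv2 ρ) (hO : Γ.Inv1 O) (hc : O.card ≤ u) (hX : Γ.Gr O X β)
    (hp : gr = false → u ≤ β) (hs : Sy.Sep A O ρ) : Γ.RecP Fo A 1 β u gr := by
  refine ⟨fun a b => a ∈ A ∧ b = a, ρ, X, O, o, Sy.inv2_eq hA, hρ, hO, hc, hX, hp,
    fun z hz => ⟨z, hz, rfl⟩, fun z _ => ?_, fun z _ z' _ y h h' => h.2.symm.trans h'.2,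
    fun z hz z' hz' y y' h h' hne => ?_⟩
  · refine card_le_one.2 fun a ha b hb => ?_
    simp only [mem_filter] at ha hb
    rw [ha.2.2, hb.2.2]
  · rw [h.2, h'.2] at hne ⊢
    exact hs z hz z' hz' hne

end Pool.Agent.P.MP_f1a348_lc.GX
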