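import Pool.Agent.P.MP_f1a348_lc.GY.DefsV
import Pool.Agent.P.MP_f1a348_lc.GX.TSYS
import Pool.Agent.P.MP_f1a348_lc.GX.TGOOD
import Pool.Agent.P.MP_f1a348_lc.GX.TCONN
import Pool.Agent.P.MP_f1a348_lc.GY.TVGOOD
import Pool.Agent.P.MP_f1a348_lc.GY.LibZ

/-! Step ZG. -/

set_option autoImplicit false
set_option linter.unusedSectionVars false

namespace Pool.Agent.P.MP_f1a348_lc.GX

open Equiv Finset MulAction
open scoped Classical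
variable {G Y : Type} [Group G] [MulAction G Y] [DecidableEq Y] {P : Pm} {H H' K K' : Subgroup G}
  {D D' : Finset Y} {Γ Γ' : Sy Y} {v v' : Vw G Y} {W : ℕ → Vw G Y → Prop}
  {U1 U2 U1' U2' Fo Fo' : Finset Y → Prop}

open VGOODx

theorem Sy.GoodP.mono {N1 : ℕ} {F F' : Finset Y} {ν ν' : ℝ} (h : Γ.GoodP Fo N1 F ν) (hF : F' ⊆ F)
    (e : Γ.Ref Γ') (hν : ν ≤ ν') (ho : ∀ O, Fo O → Fo' O) : Γ'.GoodP Fo' N1 F' ν' := by
  rcases h with h | ⟨b, β, u, gr, h1, h2, h3⟩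
  · left
    have := lg_mono (card_le_card hF)
    linarith
  · exact Or.inr ⟨b, β, u, gr, h1, h2.mono hF e ho, h3.trans hν⟩

theorem Sy.GoodP.nonneg {N1 : ℕ} {F : Finset Y} {ν : ℝ} (h : Γ.GoodP Fo N1 F ν) : 0 ≤ ν :=
  h.good.nonneg

theorem Sy.GoodP.quot {N1 f : ℕ} {A : Finset Y} {ν : ℝ} (h : Γ.GoodP Fo N1 A ν) (e : Γ.Ref Γ')
    (hM : 3 ≤ Γ'.M) {bl : Y → Y} (hb : Γ'.Inv2 (fun x y => x ∈ A ∧ y = bl x))
    (hf : ∀ y, (A.filter (fun x => bl x = y)).card ≤ f) :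
    Γ'.GoodP Fo N1 (A.image bl) (ν + 2 * lg f) := by
  have hf0 := lg_nonneg f
  rcases h with h | ⟨b, β, u, gr, h1, h2, h3⟩
  · left
    have := lg_mono (card_image_le (s := A) (f := bl))
    linarith
  · obtain ⟨mem, ρ, X, O, o, r⟩ := h2.mono (Subset.refl _) e fun _ k => k
    refine Or.inr ⟨f * b, β, u, gr, h1,
      ⟨fun B y => ∃ x, (x ∈ A ∧ B = bl x) ∧ mem x y, ρ, X, O, o, hb.flip.comp hM r.imem, r.irho,
        r.iO, r.cO, r.gra, r.plain, fun z hz => ?_, fun z _ => ?_, ?_, ?_⟩, ?_⟩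
    · obtain ⟨x, hx, rfl⟩ := mem_image.1 hz
      obtain ⟨y, hy⟩ := r.ne x hx
      exact ⟨y, x, ⟨hx, rfl⟩, hy⟩
    · refine le_trans (card_le_card (t := (A.filter (fun x => bl x = z)).biUnion
        fun x => Γ'.D.filter (mem x)) ?_) ?_
      · intro y hy
        obtain ⟨hD, x, ⟨hx, hz⟩, hm⟩ := mem_filter.1 hy
        exact mem_biUnion.2 ⟨x, mem_filter.2 ⟨hx, hz.symm⟩, mem_filter.2 ⟨hD, hm⟩⟩
      · refine (card_biUnion_le_card_mul _ _ b fun x hx => r.le x (mem_filter.1 hx).1).trans ?_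
        exact Nat.mul_le_mul_right b (hf z)
    · rintro z - z' - y ⟨x, ⟨hx, rfl⟩, hm⟩ ⟨x', ⟨hx', rfl⟩, hm'⟩
      rw [r.disj x hx x' hx' y hm hm']
    · rintro z - z' - y y' ⟨x, ⟨hx, -⟩, hm⟩ ⟨x', ⟨hx', -⟩, hm'⟩ hne
      exact r.sep x hx x' hx' y y' hm hm' hne
    · have := lg_mul_le f b
      unfold mu at h3 ⊢
      linarith

theorem Sy.GoodP.emb {N1 : ℕ} {F : Finset Y} {ν : ℝ} (h : Γ.GoodP Fo N1 F ν) (hF : F ⊆ Γ.D)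
    {e : Y → Y} (he : Γ.RefE Γ' e) (ho : ∀ O ⊆ Γ.D, Fo O → Fo' (O.image e)) :
    Γ'.GoodP Fo' N1 (F.image e) ν := by
  rcases h with h | ⟨b, β, u, gr, h1, ⟨mem, ρ, X, O, o, r⟩, h3⟩
  · left
    have := lg_mono (card_image_le (s := F) (f := e))
    linarith
  refine Or.inr ⟨b, β, u, gr, h1, ⟨push e mem, push e ρ, push e X, O.image e, ho O r.iO.1 o,
    push_inv he r.imem,
    push_inv he r.irho, ⟨fun x hx => ?_, fun a' b' k ha' => ?_⟩, card_image_le.trans r.cO,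
    push_gr he r.iO.1 r.gra, r.plain, fun z' hz' => ?_, fun z' hz' => ?_,
    fun z1 h1 z2 h2 y k1 k2 => ?_, fun z1 h1 z2 h2 y1 y2 k1 k2 hne => ?_⟩, h3⟩
  · obtain ⟨y, hy, rfl⟩ := mem_image.1 hx
    exact he.mem y (r.iO.1 hy)
  · obtain ⟨a, ha, rfl⟩ := mem_image.1 ha'
    obtain ⟨b, rfl, k'⟩ := e1_back he (r.iO.1 ha) k
    exact mem_image_of_mem _ (r.iO.2 _ _ k' ha)
  · obtain ⟨z, hz, rfl⟩ := mem_image.1 hz'
    obtain ⟨y, hy⟩ := r.ne z hz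
    exact ⟨e y, z, y, hy, rfl, rfl⟩
  · obtain ⟨z, hz, rfl⟩ := mem_image.1 hz'
    refine le_trans (card_le_card (t := (Γ.D.filter (mem z)).image e) fun y' hy => ?_)
      (card_image_le.trans (r.le z hz))
    obtain ⟨y, k, rfl⟩ := push_left he r.imem (hF hz) (mem_filter.1 hy).2
    exact mem_image_of_mem _ (mem_filter.2 ⟨(r.imem.1 _ _ k).2, k⟩)
  · obtain ⟨z, hz, rfl⟩ := mem_image.1 h1
    obtain ⟨z', hz', rfl⟩ := mem_image.1 h2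
    obtain ⟨y, k, rfl⟩ := push_left he r.imem (hF hz) k1
    rw [r.disj z hz z' hz' y k ((push_iff he r.imem (hF hz') (r.imem.1 _ _ k).2).1 k2)]
  · obtain ⟨z, hz, rfl⟩ := mem_image.1 h1
    obtain ⟨z', hz', rfl⟩ := mem_image.1 h2
    obtain ⟨y, k, rfl⟩ := push_left he r.imem (hF hz) k1
    obtain ⟨y', k', rfl⟩ := push_left he r.imem (hF hz') k2
    obtain ⟨v, hv, hn⟩ := r.sep z hz z' hz' y y' k k' fun q => hne (by rw [q])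
    refine ⟨e v, mem_image_of_mem _ hv, ?_⟩
    rwa [push_iff he r.irho (r.imem.1 _ _ k).2 (r.iO.1 hv),
      push_iff he r.irho (r.imem.1 _ _ k').2 (r.iO.1 hv)]

theorem Sy.GoodP.move {N1 : ℕ} {F F' A : Finset Y} {ν : ℝ} {f : Perm Y} (h : Γ.GoodP Fo N1 F ν)
    (hL : Γ.L A f) (hM : A.card + 5 ≤ Γ.M) (hF : F ⊆ Γ.D) (hF' : F' ⊆ Γ.D)
    (e : ∀ z ∈ Γ.D, ∀ g : Perm Y, (∀ x ∈ A, g x = f x) → Γ.L (insert z A) g →
      (z ∈ F ↔ g z ∈ F')) : Γ.GoodP Fo N1 F' ν := by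
  rcases h with h | ⟨b, β, u, gr, h1, ⟨mem, ρ, X, O, o, r⟩, h3⟩
  · left
    have h2 := Sy.card_eq hL (by omega) (fun z => z ∈ F) (fun z => z ∈ F') e
    have h3 : ∀ {Z : Finset Y}, Z ⊆ Γ.D →
        @filter Y (fun z => z ∈ Z) (fun a => Classical.propDecidable _) Γ.D = Z := fun hZ => by
      ext x
      simp only [mem_filter]
      exact ⟨fun k => k.2, fun k => ⟨hZ k, k⟩⟩
    rw [h3 hF, h3 hF'] at h2
    rwa [← h2]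
  refine Or.inr ⟨b, β, u, gr, h1, ⟨mem, ρ, X, O, o, r.imem, r.irho, r.iO, r.cO, r.gra, r.plain,
    fun z hz => ?_, fun z hz => ?_, fun z hz z' hz' y k1 k2 => ?_,
    fun z hz z' hz' y y' k1 k2 hne => ?_⟩, h3⟩
  · obtain ⟨k, a1, a2⟩ := back (B := {z}) hL hM e (by simpa using hF' hz) (by simp)
    obtain ⟨y, hy⟩ := r.ne _ (a1 z (by simp) hz)
    obtain ⟨y', e2⟩ := (a2 z (by simp) z (by simp)).fst.symm.ext2 (by omega) (r.imem.1 _ _ hy).2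
    exact ⟨y', r.imem.2 _ _ _ _ e2 hy⟩
  · obtain ⟨k, a1, a2⟩ := back (B := {z}) hL hM e (by simpa using hF' hz) (by simp)
    rw [r.imem.card_eq (by omega) (a2 z (by simp) z (by simp)).fst]
    exact r.le _ (a1 z (by simp) hz)
  · obtain ⟨k, a1, a2⟩ := back (B := {z, z', y}) hL hM e
      (by simp [insert_subset_iff, hF' hz, hF' hz', (r.imem.1 _ _ k1).2])
      (card_le_three.trans (by omega))
    exact k.injective (r.disj _ (a1 z (by simp) hz) _ (a1 z' (by simp) hz') (k y)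
      (r.imem.2 _ _ _ _ (a2 z (by simp) y (by simp)) k1)
      (r.imem.2 _ _ _ _ (a2 z' (by simp) y (by simp)) k2))
  · obtain ⟨k, a1, a2⟩ := back (B := {z, z', y, y'}) hL hM e
      (by simp [insert_subset_iff, hF' hz, hF' hz', (r.imem.1 _ _ k1).2, (r.imem.1 _ _ k2).2])
      card_le_four
    obtain ⟨v, hv, hn⟩ := r.sep _ (a1 z (by simp) hz) _ (a1 z' (by simp) hz') (k y) (k y')
      (r.imem.2 _ _ _ _ (a2 z (by simp) y (by simp)) k1)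
      (r.imem.2 _ _ _ _ (a2 z' (by simp) y' (by simp)) k2) fun q => hne (k.injective q)
    obtain ⟨v', e1, e2, -, -⟩ := (a2 y (by simp) y' (by simp)).symm.ext3 (by omega) (r.iO.1 hv)
    refine ⟨v', r.iO.2 _ _ e1.snd hv, ?_⟩
    rwa [← r.irho.iff e1, ← r.irho.iff e2]

theorem Sy.goodP_triv {N1 c : ℕ} {F : Finset Y} (h : F.card ≤ c) :
    Γ.GoodP Fo N1 F (12289 * lg c) := by
  left
  have := lg_mono h
  linarith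

theorem Sy.GoodU.mono {N1 m : ℕ} {F F' : Finset Y} {ν ν' : ℝ} (h : Γ.GoodU Fo N1 m F ν)
    (hF : F' ⊆ F) (e : Γ.Ref Γ') (hν : ν ≤ ν') (ho : ∀ Z, Fo Z → Fo' Z) :
    Γ'.GoodU Fo' N1 m F' ν' :=
  Sy.GoodP.mono h hF e hν fun _ ⟨Z, z1, z2, z3⟩ => ⟨Z, ho Z z1, z2, z3⟩

theorem Sy.GoodU.monoM {N1 m m' : ℕ} {F : Finset Y} {ν : ℝ} (h : Γ.GoodU Fo N1 m F ν)
    (hm : m ≤ m') : Γ.GoodU Fo N1 m' F ν :=
  Sy.GoodP.mono h (Subset.refl _) Sy.Ref.refl le_rfl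
    fun _ ⟨Z, z1, z2, z3⟩ => ⟨Z, z1, z2.trans hm, z3⟩

theorem Sy.GoodZ.mono {N1 : ℕ} {Z F F' : Finset Y} {ν ν' : ℝ} (h : Γ.GoodZ N1 Z F ν)
    (hF : F' ⊆ F) (e : Γ.Ref Γ') (hν : ν ≤ ν') : Γ'.GoodZ N1 Z F' ν' :=
  Sy.GoodP.mono h hF e hν fun _ k => k

theorem Sy.GoodZ.monoZ {N1 : ℕ} {Z Z' F : Finset Y} {ν : ℝ} (h : Γ.GoodZ N1 Z F ν)
    (hZ : Z ⊆ Z') : Γ.GoodZ N1 Z' F ν :=
  Sy.GoodP.mono h (Subset.refl _) Sy.Ref.refl le_rfl fun _ k => Subset.trans k hZ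

theorem Sy.GoodZ.toU {N1 m : ℕ} {Z F : Finset Y} {ν : ℝ} (h : Γ.GoodZ N1 Z F ν) (h1 : Fo Z)
    (h2 : Z.card ≤ m) : Γ.GoodU Fo N1 m F ν :=
  Sy.GoodP.mono h (Subset.refl _) Sy.Ref.refl le_rfl fun _ k => ⟨Z, h1, h2, k⟩

theorem Sy.GoodU.cases {N1 m : ℕ} {F : Finset Y} {ν : ℝ} (h : Γ.GoodU Fo N1 m F ν) :
    12289 * lg F.card ≤ ν ∨ ∃ Z, Fo Z ∧ Z.card ≤ m ∧ Γ.GoodZ N1 Z F ν :=
  Or.imp id (fun ⟨b, β, u, gr, h1, ⟨mem, ρ, X, O, ⟨Z, z1, z2, z3⟩, r⟩, h3⟩ =>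
    ⟨Z, z1, z2, Or.inr ⟨b, β, u, gr, h1, ⟨mem, ρ, X, O, z3, r⟩, h3⟩⟩) h

theorem Sy.GoodU.toZ {N1 m : ℕ} {F : Finset Y} {ν : ℝ} (h : Γ.GoodU Fo N1 m F ν) :
    12289 * lg F.card ≤ ν ∨
      (ν < 12289 * lg F.card ∧ ∃ Z, Fo Z ∧ Z.card ≤ m ∧ Γ.GoodZ N1 Z F ν) := by
  by_cases k : 12289 * lg F.card ≤ ν
  · exact Or.inl k
  · exact Or.inr ⟨not_le.1 k, h.cases.resolve_left k⟩

theorem Sy.GoodZ.nonneg {N1 : ℕ} {Z F : Finset Y} {ν : ℝ} (h : Γ.GoodZ N1 Z F ν) : 0 ≤ ν :=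
  Sy.GoodP.nonneg h

theorem Sy.GoodU.nonneg {N1 m : ℕ} {F : Finset Y} {ν : ℝ} (h : Γ.GoodU Fo N1 m F ν) : 0 ≤ ν :=
  Sy.GoodP.nonneg h

theorem Sy.goodU_triv {N1 m c : ℕ} {F : Finset Y} (h : F.card ≤ c) :
    Γ.GoodU Fo N1 m F (12289 * lg c) := Sy.goodP_triv h

theorem Sy.GoodU.quot {N1 m f : ℕ} {A : Finset Y} {ν : ℝ} (h : Γ.GoodU Fo N1 m A ν)
    (e : Γ.Ref Γ') (hM : 3 ≤ Γ'.M) {bl : Y → Y} (hb : Γ'.Inv2 (fun x y => x ∈ A ∧ y = bl x))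
    (hf : ∀ y, (A.filter (fun x => bl x = y)).card ≤ f) :
    Γ'.GoodU Fo N1 m (A.image bl) (ν + 2 * lg f) := Sy.GoodP.quot h e hM hb hf

theorem Sy.GoodU.emb {N1 m : ℕ} {F : Finset Y} {ν : ℝ} (h : Γ.GoodU Fo N1 m F ν) (hF : F ⊆ Γ.D)
    {e : Y → Y} (he : Γ.RefE Γ' e) (f : ∀ Z, Fo Z → Fo' (Z.image e)) :
    Γ'.GoodU Fo' N1 m (F.image e) ν :=
  Sy.GoodP.emb h hF he fun _ _ ⟨Z, z1, z2, z3⟩ =>
    ⟨Z.image e, f Z z1, card_image_le.trans z2, image_subset_image z3⟩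

theorem Sy.GoodU.move {N1 m : ℕ} {F F' A : Finset Y} {ν : ℝ} {f : Perm Y}
    (h : Γ.GoodU Fo N1 m F ν)
    (hL : Γ.L A f) (hM : A.card + 5 ≤ Γ.M) (hF : F ⊆ Γ.D) (hF' : F' ⊆ Γ.D)
    (e : ∀ z ∈ Γ.D, ∀ g : Perm Y, (∀ x ∈ A, g x = f x) → Γ.L (insert z A) g →
      (z ∈ F ↔ g z ∈ F')) : Γ.GoodU Fo N1 m F' ν := Sy.GoodP.move h hL hM hF hF' e

end Pool.Agent.P.MP_f1a348_lc.GX
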