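import Pool.Agent.P.MP_f1a348_lc.GY.DefsV
import Pool.Agent.P.MP_f1a348_lc.GX.TSYS
import Pool.Agent.P.MP_f1a348_lc.GX.TGOOD
import Pool.Agent.P.MP_f1a348_lc.GX.THH
import Pool.Agent.P.MP_f1a348_lc.GY.TVORB
import Pool.Agent.P.MP_f1a348_lc.GY.TVGOOD
import Pool.Agent.P.MP_f1a348_lc.GY.TZG
import Pool.Agent.P.MP_f1a348_lc.GY.TLV
import Pool.Agent.P.MP_f1a348_lc.GY.TVALG

/-! Step VCH. -/

set_option autoImplicit false
set_option linter.unusedSectionVars false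

namespace Pool.Agent.P.MP_f1a348_lc.GX

open Equiv Finset MulAction
open scoped Classical
variable {G Y : Type} [Group G] [MulAction G Y] [DecidableEq Y] {P : Pm} {H H' K K' : Subgroup G}
  {D D' : Finset Y} {Γ Γ' : Sy Y} {v v' : Vw G Y} {W : ℕ → Vw G Y → Prop}
  {U1 U2 U1' U2' Fo Fo' : Finset Y → Prop}

namespace VCHx

lemma fix_cons {z : Y} {k : List Y} :
    K ⊓ fixF G (z :: k).toFinset = K ⊓ stabilizer G z ⊓ fixF G k.toFinset := by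
  ext g
  simp [mem_fixF, and_assoc]

lemma LV_one {a m : ℕ} {n1 n2 : ℝ} (c : 2 ≤ a) (h1 : 0 ≤ n1) (h2 : 0 ≤ n2) :
    1 ≤ P.LV a m n1 n2 := by
  have e1 := Pm.LV_ge (P := P) (a := a) (m := m) h1 h2
  have e2 := HHx.lg1 c
  have e3 : 0 ≤ lg m * (n1 + n2) / ((P.lam : ℝ) + 1) :=
    div_nonneg (mul_nonneg (lg_nonneg _) (add_nonneg h1 h2)) (by positivity)
  linarith

end VCHx

theorem Ch.nonneg {k : List Y} {Φ : ℝ} (h : Ch P D Γ U1 U2 K k Φ) : 0 ≤ Φ := by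
  induction k generalizing K Φ with
  | nil => exact h
  | cons z k ih =>
    obtain ⟨-, m, n1, n2, -, -, g1, g2, r⟩ := h
    have a1 := ih r
    have a4 := Pm.LV_nonneg (P := P) (a := (orb K D z).card) (m := m) (Sy.GoodP.nonneg g1)
      (Sy.GoodP.nonneg g2)
    linarith

theorem Ch.le {k : List Y} {Φ Φ' : ℝ} (h : Ch P D Γ U1 U2 K k Φ) (e : Φ ≤ Φ') :
    Ch P D Γ U1 U2 K k Φ' := by
  induction k generalizing K Φ Φ' with
  | nil => exact le_trans h e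
  | cons z k ih =>
    obtain ⟨a1, m, n1, n2, a2, a3, g1, g2, r⟩ := h
    exact ⟨a1, m, n1, n2, a2, a3, g1, g2, ih r (by linarith)⟩

theorem Ch.mem {k : List Y} {Φ : ℝ} (h : Ch P D Γ U1 U2 K k Φ) : ∀ z ∈ k, z ∈ D := by
  induction k generalizing K Φ with
  | nil => simp
  | cons z k ih =>
    obtain ⟨a1, m, n1, n2, -, -, -, -, r⟩ := h
    intro y hy
    rcases List.mem_cons.1 hy with rfl | hy
    · exact a1
    · exact ih r y hy

theorem Ch.mono {k : List Y} {Φ : ℝ} (h : Ch P D Γ U1 U2 K k Φ) (hI : InvF K D) (hI' : InvF K' D')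
    (e : K' ≤ K) (d : D ⊆ D') (dd : D ⊆ Γ.D) (r : Γ.Ref Γ') (u1 : ∀ Z, U1 Z → U1' Z)
    (u2 : ∀ Z, U2 Z → U2' Z) : Ch P D' Γ' U1' U2' K' k Φ := by
  induction k generalizing K K' Φ with
  | nil => exact h
  | cons z k ih =>
    obtain ⟨a1, m, n1, n2, a2, a3, g1, g2, t⟩ := h
    have s : orb K' D' z ⊆ orb K D z := orb_mono hI e a1
    have c := card_le_card s
    refine ⟨d a1, m, n1, n2, c.trans a2, a3, g1.mono s (sys1_ref _ _ hI hI' e d) le_rfl u1,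
      g2.mono (inter_subset_inter s fun y hy => ?_) r le_rfl u2,
      (ih t (hI.mono inf_le_left) (hI'.mono inf_le_left) (inf_le_inf_right _ e)).le ?_⟩
    · exact Sy.mem_cls.2 (r.e1 (dd a1) (Sy.mem_cls.1 hy))
    · have := Pm.LV_mono (P := P) (m := m) c (le_refl n1) (le_refl n2)
      linarith

/- As landed; the named set Z of the orbit system stays (u1), the named set of the structure moves with e (u2). -/
theorem Ch.emb {k : List Y} {Φ : ℝ} (h : Ch P D Γ U1 U2 K k Φ) (hI : InvF K D) (hI' : InvF K' D)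
    {α : G} (hα : ∀ x, α • x ∈ D ↔ x ∈ D) (c : ∀ g ∈ K', α * g * α⁻¹ ∈ K) (dd : D ⊆ Γ.D)
    {e : Y → Y} (he : Γ.RefE Γ' e) (h1 : ∀ z ∈ Γ.D, e z ∈ D → e z = α⁻¹ • z)
    (h2 : ∀ z ∈ k, e z = α⁻¹ • z) (u1 : ∀ Z, U1 Z → U1' Z ∧ ∀ x ∈ Z, α⁻¹ • x ∈ Z)
    (u2 : ∀ Z, U2 Z → U2' (Z.image e)) : Ch P D Γ' U1' U2' K' (k.map (fun z => α⁻¹ • z)) Φ := by
  have hα' : ∀ x ∈ D, α⁻¹ • x ∈ D := fun x hx => (hα _).1 (by simpa using hx)
  induction k generalizing K K' Φ with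
  | nil => exact h
  | cons z k ih =>
    obtain ⟨a1, m, n1, n2, a2, a3, g1, g2, t⟩ := h
    have s : orb K' D (α⁻¹ • z) ⊆ (orb K D z).image (fun x => α⁻¹ • x) := by
      intro y hy
      obtain ⟨-, g, b1, rfl⟩ := mem_orb.1 hy
      refine mem_image.2 ⟨(α * g * α⁻¹) • z,
        mem_orb.2 ⟨hI _ (c g b1) _ a1, _, c g b1, rfl⟩, ?_⟩
      simp [mul_smul]
    have cd : (orb K' D (α⁻¹ • z)).card ≤ (orb K D z).card :=
      (card_le_card s).trans card_image_le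
    have r1 : (sys1 P.M K D).RefE (sys1 P.M K' D) (fun x => α⁻¹ • x) := by
      refine ⟨fun x _ y _ k => MulAction.injective α⁻¹ k, fun a ha => ?_,
        fun a ha b hb a' b' k => ?_⟩
      · rw [sys1_D _ hI] at ha
        rw [sys1_D _ hI']
        exact hα' a ha
      · rw [sys1_D _ hI] at ha hb
        obtain ⟨-, -, g, b1, rfl, rfl⟩ := (sys1_E2 _ hI').1 k
        refine ⟨(α * g * α⁻¹) • a, (α * g * α⁻¹) • b, by simp [mul_smul], by simp [mul_smul],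
          (sys1_E2 _ hI).2 ⟨ha, hb, _, c g b1, rfl, rfl⟩⟩
    have ez : e z = α⁻¹ • z := h2 z List.mem_cons_self
    have s2 : orb K' D (α⁻¹ • z) ∩ Γ'.cls (α⁻¹ • z) ⊆ (orb K D z ∩ Γ.cls z).image e := by
      intro y hy
      obtain ⟨b1, b2⟩ := mem_inter.1 hy
      rw [← ez] at b2
      obtain ⟨a0, b0, rfl, -, b3⟩ := he.ref z (dd a1) z (dd a1) y y
        (Sy.e2_diag.2 (Sy.mem_cls.1 b2))
      obtain ⟨y0, b4, b5⟩ := mem_image.1 (s b1)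
      rw [h1 a0 b3.fst.mem.2 (mem_orb.1 b1).1] at b5
      obtain rfl := MulAction.injective α⁻¹ b5
      exact mem_image_of_mem _ (mem_inter.2 ⟨b4, Sy.mem_cls.2 b3.fst⟩)
    have sD : orb K D z ⊆ D := fun y hy => (mem_orb.1 hy).1
    have q1 : (sys1 P.M K' D).GoodU U1' P.N1 m ((orb K D z).image (fun x => α⁻¹ • x)) n1 := by
      refine Sy.GoodP.emb g1 (by rwa [sys1_D _ hI]) r1 fun O _ ⟨Z, z1, z2, z3⟩ =>
        ⟨Z, (u1 Z z1).1, z2, fun y hy => ?_⟩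
      obtain ⟨x, hx, rfl⟩ := mem_image.1 hy
      exact (u1 Z z1).2 x (z3 hx)
    have q2 : Γ'.GoodU U2' P.N1 m ((orb K D z ∩ Γ.cls z).image e) n2 :=
      Sy.GoodP.emb g2 (inter_subset_left.trans (sD.trans dd)) he fun O _ ⟨Z, z1, z2, z3⟩ =>
        ⟨Z.image e, u2 Z z1, card_image_le.trans z2, image_subset_image z3⟩
    refine ⟨hα' z a1, m, n1, n2, cd.trans a2, a3,
      q1.mono s Sy.Ref.refl le_rfl fun _ k => k, q2.mono s2 Sy.Ref.refl le_rfl fun _ k => k,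
      (ih t (hI.mono inf_le_left) (hI'.mono inf_le_left) (fun g hg => ⟨c g hg.1, ?_⟩)
        (fun y hy => h2 y (List.mem_cons_of_mem _ hy))).le ?_⟩
    · have b : g • α⁻¹ • z = α⁻¹ • z := hg.2
      show (α * g * α⁻¹) • z = z
      rw [mul_smul, mul_smul, b, smul_inv_smul]
    · have := Pm.LV_mono (P := P) (m := m) cd (le_refl n1) (le_refl n2)
      linarith

/- remove the entries whose orbit is a single point; every other level costs at least 1 (LV_ge) -/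
theorem Ch.trim {k : List Y} {Φ : ℝ} (h : Ch P D Γ U1 U2 K k Φ) (hI : InvF K D) :
    ∃ k' : List Y, k'.Sublist k ∧ Ch P D Γ U1 U2 K k' Φ ∧
      K ⊓ fixF G k'.toFinset = K ⊓ fixF G k.toFinset ∧ (k'.length : ℝ) ≤ Φ ∧
      (k' = [] ∨ ∃ z k'', k' = z :: k'' ∧ 2 ≤ (orb K D z).card) := by
  induction k generalizing K Φ with
  | nil => exact ⟨[], List.Sublist.refl _, h, rfl, by simpa using h.nonneg, Or.inl rfl⟩
  | cons z k ih =>
    obtain ⟨a1, m, n1, n2, a2, a3, g1, g2, t⟩ := h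
    obtain ⟨k', b1, b2, b3, b4, b5⟩ := ih t (hI.mono inf_le_left)
    have p1 : 0 ≤ n1 := Sy.GoodP.nonneg g1
    have p2 : 0 ≤ n2 := Sy.GoodP.nonneg g2
    by_cases c : 2 ≤ (orb K D z).card
    · refine ⟨z :: k', b1.cons_cons z, ⟨a1, m, n1, n2, a2, a3, g1, g2, b2⟩, ?_, ?_,
        Or.inr ⟨z, k', rfl, c⟩⟩
      · rw [VCHx.fix_cons, VCHx.fix_cons, b3]
      · have := VCHx.LV_one (P := P) (m := m) c p1 p2
        simp only [List.length_cons, Nat.cast_add, Nat.cast_one]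
        linarith
    · have e : K ⊓ stabilizer G z = K := by
        refine inf_eq_left.2 fun g hg => ?_
        exact card_le_one.1 (by omega : (orb K D z).card ≤ 1) _
          (mem_orb.2 ⟨hI g hg z a1, g, hg, rfl⟩) _ (self_mem_orb a1)
      have p3 := Pm.LV_nonneg (P := P) (a := (orb K D z).card) (m := m) p1 p2
      refine ⟨k', b1.cons z, ?_, ?_, by linarith, ?_⟩
      · rw [e] at b2
        exact b2.le (by linarith)
      · rw [VCHx.fix_cons, ← b3, e]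
      · rwa [e] at b5

theorem Vw.Det.mono {w : Y} {k : List Y} (h : v.Det P w k) (e : v'.H ≤ v.H) : v'.Det P w k := by
  exact ⟨(inf_le_inf_right _ e).trans h.1, fun z hz => (h.2 z hz).mono e⟩

theorem Vw.Pt.mono {w : Y} {Φ Φ' : ℝ} (h : v.Pt P w Φ) (a : v.Ok P) (a' : v'.Ok P)
    (m : v.Mono v') (e : Φ ≤ Φ') : v'.Pt P w Φ' := by
  obtain ⟨k, h1, h2⟩ := h
  exact ⟨k, (h1.mono a.inv a'.inv m.h m.d a.dd m.ref m.u1 m.f2).le e, h2.mono m.h⟩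

theorem Vw.Tl.mono {w u : Y} {Φ : ℝ} (h : v.Tl P w u Φ) (a : v.Ok P) (a' : v'.Ok P)
    (m : v.Mono v') : v'.Tl P w u Φ := by
  obtain ⟨k, h1, h2⟩ := h
  exact ⟨k, h1.mono (a.inv.mono inf_le_left) (a'.inv.mono inf_le_left) (inf_le_inf_right _ m.h)
    m.d a.dd m.ref m.u1 m.f2, h2.mono m.h⟩

theorem Vw.Tl.nonneg {w u : Y} {Φ : ℝ} (h : v.Tl P w u Φ) : 0 ≤ Φ := by
  obtain ⟨k, h1, -⟩ := h
  exact h1.nonneg

/- put the head back; LV_mono -/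
theorem Vw.Tl.head {w u : Y} {Φ n1 n2 : ℝ} (h : v.Tl P w u Φ) (a : v.Ok P) (hu : u ∈ v.D)
    {x m : ℕ} (hx : (v.o u).card ≤ x) (hm : x ≤ m) (hN : m ≤ P.N1)
    (g1 : (v.Γ1 P).GoodU v.U1 P.N1 m (v.o u) n1)
    (g2 : v.Γ.GoodU v.F2 P.N1 m (v.o u ∩ v.Γ.cls u) n2) : v.Pt P w (Φ + P.LV x m n1 n2) := by
  obtain ⟨k, h1, h2⟩ := h
  refine ⟨u :: k, ⟨hu, m, n1, n2, hx.trans hm, hN, g1, g2, h1.le ?_⟩, h2⟩
  have := Pm.LV_mono (P := P) (m := m) hx (le_refl n1) (le_refl n2)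
  unfold Vw.o at this
  linarith

theorem Vw.Tl.kill {w u : Y} {Φ : ℝ} (h : v.Tl P w u Φ) (e : v.H ≤ stabilizer G u) :
    v.Pt P w Φ := by
  obtain ⟨k, h1, h2, h3⟩ := h
  have e1 : v.H ⊓ stabilizer G u = v.H := inf_eq_left.2 e
  rw [VCHx.fix_cons, e1] at h2
  rw [e1] at h1
  exact ⟨k, h1, h2, fun z hz => h3 z (List.mem_cons_of_mem _ hz)⟩

theorem Vw.Hd.nonneg {A : Finset Y} {m : ℕ} {n1 n2 Φ' Φ : ℝ} (h : v.Hd P A m n1 n2 Φ' Φ)
    (hX : v.X.Nonempty) : 0 ≤ n1 ∧ 0 ≤ n2 ∧ 0 ≤ Φ' ∧ 0 ≤ Φ := by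
  obtain ⟨w, hw⟩ := hX
  obtain ⟨u, -, t, g⟩ := h.tl w hw
  have p1 : 0 ≤ n1 := Sy.GoodP.nonneg h.g1
  have p2 : 0 ≤ n2 := Sy.GoodP.nonneg g
  have p3 := t.nonneg
  have p4 := Pm.LV_nonneg (P := P) (a := A.card) (m := m) p1 p2
  have p5 := h.sum
  exact ⟨p1, p2, p3, by linarith⟩

/- a later view: the head u of w with a bound x for its orbit and better records -/
theorem Vw.Hd.pt {A : Finset Y} {m : ℕ} {n1 n2 Φ' Φ : ℝ} (h : v.Hd P A m n1 n2 Φ' Φ) (a : v.Ok P)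
    (a' : v'.Ok P) (mo : v.Mono v') {w u : Y} (hu : u ∈ A) (t : v.Tl P w u Φ')
    (g : v.Γ.GoodU v.F2 P.N1 m (A ∩ v.Γ.cls u) n2) {x : ℕ} (hx : (v'.o u).card ≤ x)
    (hA : x ≤ A.card) : v'.Pt P w (Φ' + P.LV x m n1 n2) := by
  have hD : u ∈ v.D := h.o.2.1 hu
  have s : v'.o u ⊆ A := by
    rw [← h.o.2.2 u hu]
    exact orb_mono a.inv mo.h hD
  exact (t.mono a a' mo).head a' (mo.d hD) hx (hA.trans h.am) h.n
    (h.g1.mono s (mo.ref1 a a') le_rfl mo.u1)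
    (g.mono (inter_subset_inter s fun y hy =>
      Sy.mem_cls.2 (mo.ref.e1 (a.dd hD) (Sy.mem_cls.1 hy))) mo.ref le_rfl mo.f2)

theorem Vw.Hr.mono {R : Y → Y → Prop} {A A' : Finset Y} {m : ℕ} {n2 Φ' : ℝ}
    (h : v.Hr P R A m n2 Φ') (a : v.Ok P) (a' : v'.Ok P) (mo : v.Mono v') (hD : A ⊆ v.D)
    (hA : A' ⊆ A) (ex : ∀ w ∈ v'.X, ∃ u ∈ A', R w u) : v'.Hr P R A' m n2 Φ' := by
  refine ⟨mo.fr R h.fr, ex, fun w hw u hu r => ?_⟩
  obtain ⟨t, g⟩ := h.tl w (mo.x hw) u (hA hu) r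
  exact ⟨t.mono a a' mo, g.mono (inter_subset_inter hA fun y hy =>
    Sy.mem_cls.2 (mo.ref.e1 (a.dd (hD (hA hu))) (Sy.mem_cls.1 hy))) mo.ref le_rfl mo.f2⟩

end Pool.Agent.P.MP_f1a348_lc.GX
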