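import Pool.Agent.P.MP_f1a348_lc.GY.TLV
import Pool.Agent.P.MP_f1a348_lc.GY.TVORB
import Pool.Agent.P.MP_f1a348_lc.GY.TZG
import Pool.Agent.P.MP_f1a348_lc.GY.TVCH
import Pool.Agent.P.MP_f1a348_lc.GY.TVARI

/-! Graph isomorphism: common steps of the end games. -/

set_option autoImplicit false
set_option linter.unusedSectionVars false

namespace Pool.Agent.P.MP_f1a348_lc.GX

open Equiv Finset MulAction
open scoped Classical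
variable {G Y : Type} [Group G] [MulAction G Y] [DecidableEq Y] {P : Pm}
  {v v' : Vw G Y} {W : ℕ → Vw G Y → Prop}

namespace ENDx

theorem one_le {m : ℕ} {γ : ℝ} (h : (P.lam : ℝ) + 1 ≤ lg m * γ) :
    1 ≤ lg m * γ / (P.lam + 1) := by
  rw [le_div_iff₀ (by positivity)]
  linarith

theorem gain1 {a m : ℕ} {n1 n2 ν γ : ℝ} (h : (P.lam : ℝ) + 1 ≤ lg m * γ) (e : ν ≤ n1) :
    P.LV a m (ν - γ) n2 + 1 ≤ P.LV a m n1 n2 := by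
  have h1 := Pm.LV_gain (P := P) (a := a) (m := m) (n1 := ν) (n2 := n2) (γ1 := γ) (γ2 := 0)
  rw [sub_zero, add_zero] at h1
  have h2 := Pm.LV_mono (P := P) (m := m) (le_refl a) e (le_refl n2)
  have := one_le h
  linarith

theorem gain2 {a m : ℕ} {n1 n2 ν γ : ℝ} (h : (P.lam : ℝ) + 1 ≤ lg m * γ) (e : ν ≤ n2) :
    P.LV a m n1 (ν - γ) + 1 ≤ P.LV a m n1 n2 := by
  have h1 := Pm.LV_gain (P := P) (a := a) (m := m) (n1 := n1) (n2 := ν) (γ1 := 0) (γ2 := γ)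
  rw [sub_zero, zero_add] at h1
  have h2 := Pm.LV_mono (P := P) (m := m) (le_refl a) (le_refl n1) e
  have := one_le h
  linarith

theorem start {Γ : Sy Y} {Fo : Finset Y → Prop} {N1 m : ℕ} {A Z0 : Finset Y} {n : ℝ}
    (g : Γ.GoodU Fo N1 m A n) (h0 : Fo Z0) (h1 : A ⊆ Z0) (h2 : Z0.card ≤ m) :
    ∃ (ν : ℝ) (Z : Finset Y), ν ≤ n ∧ ν ≤ 12289 * lg A.card ∧ Fo Z ∧ Z.card ≤ m ∧
      Γ.GoodZ N1 Z A ν ∧ (12289 * lg A.card ≤ ν → A ⊆ Z) := by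
  rcases g.toZ with e | ⟨e, Z, z1, z2, z3⟩
  · exact ⟨_, Z0, e, le_rfl, h0, h2, .inl le_rfl, fun _ => h1⟩
  · exact ⟨n, Z, le_rfl, e.le, z1, z2, z3, fun k => absurd k (not_le.2 e)⟩

theorem drop {A B : Finset Y} {m : ℕ} {n1 n2 Φ' Φ : ℝ} (h : v.Hd P A m n1 n2 Φ' Φ) (a : v.Ok P)
    (a' : v'.Ok P) (mo : v.Mono v') {w u : Y} (hu : u ∈ A) (t : v.Tl P w u Φ')
    (g : v.Γ.GoodU v.F2 P.N1 m (A ∩ v.Γ.cls u) n2) (s : v'.o u ⊆ B) (s' : B ⊆ A)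
    (d : Drop A B) : v'.Pt P w (Φ - 1) := by
  have h1 : 1 ≤ B.card := card_pos.2 ⟨u, s (self_mem_orb (mo.d (h.o.2.1 hu)))⟩
  have h2 := Pm.LV_dropK (P := P) (m := m) (n1 := n1) (n2 := n2) h1 (card_le_card s') d
  have h3 := h.sum
  exact (h.pt a a' mo hu t g (card_le_card s) (card_le_card s')).mono a' a' Vw.Mono.refl
    (by linarith)

theorem g2 {A B : Finset Y} {N1 m : ℕ} {n2 : ℝ} (mo : v.Mono v') {u : Y} (hu : u ∈ v.Γ.D)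
    (g : v.Γ.GoodU v.F2 N1 m (A ∩ v.Γ.cls u) n2) (s : B ⊆ A) :
    v'.Γ.GoodU v'.F2 N1 m (B ∩ v'.Γ.cls u) n2 :=
  g.mono (fun _ hy => mem_inter.2 ⟨s (mem_inter.1 hy).1, Sy.mem_cls.2
    (mo.ref.e1 hu (Sy.mem_cls.1 (mem_inter.1 hy).2))⟩) mo.ref le_rfl mo.f2

theorem pay {n φ : ℕ} {Φ : ℝ} (hb : Bud P n φ Φ) (h : 0 ≤ Φ) :
    1024 * P.g ≤ φ ∧ ∀ c ≤ 1024 * P.g, (c : ℝ) ≤ P.unit * 1 := by
  have hg := Pm.g_le (P := P)
  have k : ∀ c ≤ 1024 * P.g, (c : ℝ) ≤ P.unit * 1 := fun c hc => by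
    rw [mul_one]
    exact_mod_cast (by omega : c ≤ P.unit)
  exact ⟨hb.cost (γ := 1) (by linarith) (k _ le_rfl), k⟩

/-- the cut at the large class -/
theorem cut (R : Rules P W) {n φ c m : ℕ} {Φ Φ' n2 : ℝ} (ih : IH P W n) (hb : Bud P n φ Φ)
    (h0 : 0 ≤ Φ) (hc : c + P.g ≤ 1024 * P.g) (a : v.Ok P) {A A' : Finset Y} {Q : Y → Y → Prop}
    (hr : v.Hr P Q A m n2 Φ') (hD : A ⊆ v.D) (s : A' ⊆ A) (o : v.IsO A')
    (h1 : ∀ v' : Vw G Y, v'.Ok P → v.Same v' → v'.X.Nonempty → v'.Hr P Q A' m n2 Φ' →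
      W (φ - (c + P.g)) v')
    (h2 : ∀ v' : Vw G Y, v'.Ok P → v.Mono v' → ∀ w ∈ v.X, ∀ u ∈ A, u ∉ A' → Q w u →
      v'.Pt P w (Φ - 1)) : W (φ - c) v := by
  obtain ⟨p, hp⟩ := o.1
  obtain ⟨p1, p2⟩ := pay hb h0
  refine R.cut _ v Q p a hr.fr (o.2.1 hp) (by omega) (fun v' a' e k => ?_) fun v' a' e k => ?_
  · rw [Nat.sub_sub]
    rw [o.2.2 p hp] at k
    by_cases hX : v'.X.Nonempty
    · exact h1 v' a' e hX (hr.mono a a' e.mono hD s k)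
    · exact R.leaf _ v' a' fun _ _ x hx => absurd ⟨x, hx⟩ hX
  · rw [Nat.sub_sub]
    rw [o.2.2 p hp] at k
    refine ih.use hb le_rfl (p2 _ hc) (by omega) a' fun w hw => ?_
    obtain ⟨u, hu, q⟩ := hr.ex w (e.x hw)
    exact h2 v' a' e w (e.x hw) u hu (fun z => k w hw u z q) q

end ENDx

end Pool.Agent.P.MP_f1a348_lc.GX
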