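import Pool.Agent.P.MP_f1a348_lc.GY.DefsU
import Pool.Agent.P.MP_f1a348_lc.GY.TPNUM

/-! Graph isomorphism: the state of a piece in the full case. -/

set_option autoImplicit false
set_option linter.unusedSectionVars false

namespace Pool.Agent.P.MP_f1a348_lc.GX

open Pool.Agent.Lib.Helper47 Pool.Agent.P.MP_f1a348_lc.GI Pool.Agent.P.MP_f1a348_lc.TO

namespace FulE
variable {cx : Cx} {s : Sta} {c : U × List U} {Q Q' : List Tm} {r : U}

theorem tag (h : cx.WF0 s) (A : Sx Tm) : Tag (tg s.ctr A) A.1 s.D := by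
  refine ⟨fun x hx y hy e => ?_, fun x _ e => ?_⟩
  · have e1 := congrArg Tm.atv e
    simp only [tg, Tm.atv_at, Nat.add_right_inj] at e1
    exact (List.idxOf_inj hx).1 e1
  · have := h.ab _ e
    have := h.ctr
    simp only [tg, Tm.ab_at] at *
    omega

theorem side (h : cx.WF0 s) {A : Sx Tm} {g g' β : U} (hA : cx.Side s.ctr g s.D A)
    (hQ : ∀ x ∈ Q, x ∈ s.D) (hU : ∀ x ∈ Q, β⁻¹ • x ∈ A.1) (hg : g' ∈ gen s.S) {k : ℕ}
    (hk : s.ctr + A.1.length + 1 ≤ k) :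
    cx.Side k g' s.D (fulS s.D Q β (tg s.ctr A) s.ctr A) := by
  have hL := Lab.fulS (D := s.D) (Q := Q) (β := β) (tag := tg s.ctr A)
    (⟨fun e he => (hA.lab e he).1, fun e he => (hA.lab e he).2⟩ : Lab s.ctr A)
  refine ⟨fulS_nodup (tag h A) hQ hA.nd h.nd, fun x hx => fulS_sub hU (h.inv _ hg x hx),
    fun y hy => ?_, fun e he => ⟨(hL.lt e he).trans_le (by omega), hL.sup e he⟩⟩
  rcases mem_fulS.1 hy with ⟨z, hz, rfl⟩ | ⟨a, -⟩
  · by_cases e : β • z ∈ Q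
    · rw [renE_pos e]
      exact Or.inl (h.inv _ (inv_mem hg) _ (hQ _ e))
    · rw [renE_neg e]
      have := List.idxOf_lt_length_of_mem hz
      have := h.ctr
      exact Or.inr ⟨_, by omega, by omega, rfl⟩
  · exact Or.inl (h.inv _ (inv_mem hg) _ a)

/-- the state of a piece is well formed -/
theorem wf (h : cx.WF0 s) (h1 : s.σ = 1) (c1 : c.1 ∈ gen s.S) (c2 : gen c.2 ≤ gen s.S)
    (c3 : c.2.length ≤ cx.pd) (hQ : ∀ x ∈ Q, x ∈ s.D) (hQ' : ∀ x ∈ Q', x ∈ s.D)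
    (hr : r ∈ gen s.S) : cx.WF0 (s.ful c Q Q' r) := by
  have ctr := h.ctr
  refine ⟨h.le c1, fun g hg => h.le (c2 (mem_gen hg)), c3, h.nd, h.ab, h.inv.mono c2,
    h.nx.filter _, h.ny.filter _, fun x hx => h.xd x (List.mem_filter.1 hx).1, fun y hy => ?_,
    (by change cx.n ≤ s.ctr + _ + _ + 1; omega), side h h.a hQ (fun x hx => ?_) (one_mem _)
      (by change _ ≤ s.ctr + _ + _ + 1; omega), side h h.b hQ' (fun x hx => ?_) c1
      (by change _ ≤ s.ctr + _ + _ + 1; omega)⟩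
  · have := h.yd y (List.mem_filter.1 hy).1
    rw [h1, inv_one, one_smul] at this
    exact h.inv _ (inv_mem c1) _ this
  · rw [inv_inv]
    exact h.dA (h.inv _ hr _ (hQ x hx))
  · have := h.b.real x (hQ' x hx)
    rw [h1] at this
    rwa [inv_one]

theorem grS {A : Sx Tm} {β : U} {tag : Tm → Tm} {m v k w w' : ℕ} (hp : 1 ≤ cx.pd)
    (hv : s.D.length ≤ v) (hk : A.1.length ≤ k) (h0 : ∀ t ∈ A.1, Tm.wt (tag t) ≤ w)
    (h1 : ∀ t ∈ A.1, Tm.wt t ≤ w) (h2 : ∀ t ∈ s.D, Tm.wt t ≤ w) (hw : w ≤ w') :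
    cx.GrS v k w' A (fulS s.D Q β tag m A) := by
  obtain ⟨l1, l2⟩ := fulS_length (D := s.D) (Q := Q) (β := β) (tag := tag) (m := m) (A := A)
  refine ⟨by omega, fun t ht => le_trans ?_ hw, by omega, fun a e he => ?_⟩
  · rcases mem_fulS.1 ht with ⟨z, hz, rfl⟩ | ⟨a, -⟩
    · by_cases e : β • z ∈ Q
      · rw [renE_pos e, Tm.wt_smul]
        exact h1 z hz
      · rw [renE_neg e]
        exact h0 z hz
    · exact h2 t a
  · rcases mem_renS.1 (show (e.1, e.2) ∈ _ from he) with ⟨l, b, b'⟩ | ⟨-, y, -, b⟩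
    · rw [← b', List.length_map]
      exact a _ b
    · rw [b]
      exact hp

/-- the growth -/
theorem gro (hc : cx.Ok) (h : cx.WF s) (hD : s.D.length ≤ cx.b1) : cx.Grow s (s.ful c Q Q' r) := by
  have p1 : 2 ^ cx.lam ≤ cx.pd := PNUMx.lam_le hc
  have p2 : 2 ^ 3 ≤ cx.pd :=
    (Nat.pow_le_pow_right two_pos (by have := hc.lam; omega)).trans p1
  have ca := h.ca
  have cb := h.cb
  have p3 : 2 * cx.pd + 1 ≤ cx.pd ^ 2 := by nlinarith
  refine ⟨Nat.le_add_right _ _, (by change s.ctr + _ + _ + 1 ≤ _; omega), fun w hw a b => ?_,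
    Nat.le_add_right _ _, fun _ hI => .inl hI⟩
  have e : w ≤ 2 ^ (cx.lam + 1) * w := Nat.le_mul_of_pos_left _ (by positivity)
  exact ⟨grS (by omega) hD (by omega) (fun t _ => by simpa [tg] using hw) a
      (fun t ht => a t (h.dA ht)) e,
    grS (by omega) hD (by omega) (fun t _ => by simpa [tg] using hw) b
      (fun t ht => a t (h.dA ht)) e⟩

/-- the view, with the closure of the piece as a hypothesis -/
theorem emb0 (hc : cx.Ok) (h : cx.WF0 s) (c2 : gen c.2 ≤ gen s.S) (hQ : ∀ x ∈ Q, x ∈ s.D)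
    (hr : r ∈ gen s.S) (hX : ∀ w ∈ s.X, r • w ∈ s.X)
    (hA : ∀ w ∈ s.X, w ∈ Q → ∀ z ∈ s.D, AlgPt cx.P.tau (gen s.S) (r • w) z → r⁻¹ • z ∈ Q) :
    (cx.view s).Emb cx.P (cx.view (s.ful c Q Q' r)) := by
  refine ⟨c2, rfl, fun _ e => e, r, hr, renE Q r⁻¹ (tg s.ctr s.A), fulS_refE (tag h _) hQ
    ⟨fun e he => (h.a.lab e he).1, fun e he => (h.a.lab e he).2⟩
    (le_trans (by norm_num) (PNUMx.eight hc)), fun _ e => Hin.map e _ _, fun z hz e => ?_,
    fun w hw => ?_⟩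
  · exact renE_pos (renE_mem (tag h _) (List.mem_toFinset.1 hz) (List.mem_toFinset.1 e))
  · obtain ⟨w1, w2⟩ := List.mem_filter.1 (List.mem_toFinset.1 hw)
    exact ⟨List.mem_toFinset.2 (hX w w1), fun z hz e =>
      renE_pos (hA w w1 (by simpa using w2) z (List.mem_toFinset.1 hz) e)⟩

variable {d : FD}

theorem lst (hc : cx.Ok) (h : FOk cx d) : Lst cx.pad cx.base (gen d.1.S) d.2.1 d.1.D := by
  have p1 := PNUMx.lam_le hc
  have p2 := h.wf.dlen.1
  have := (List.subperm_of_subset h.nd h.od).length_le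
  exact ⟨h.wf.faith hc, h.inv, h.wf.inv, h.nd, by omega, by omega⟩

theorem dcard (h : cx.WF s) : s.D.toFinset.card ≤ 2 ^ cx.lam :=
  (List.toFinset_card_le _).trans h.dlen.1

theorem fQ_sub {S : List Tm} : ∀ x ∈ cx.fQ d S, x ∈ d.1.D := fun _ hx =>
  (dS_sublist _ _ _ _ _ _).subset hx

theorem fQ'_sub {d : FC} {S : List Tm} : ∀ x ∈ cx.fQ' d S, x ∈ d.1.1.D := fun _ hx =>
  (dS_sublist _ _ _ _ _ _).subset hx

/-- the view of the state of a piece -/
theorem emb (hc : cx.Ok) (h : FOk cx d) (hG : Giant (gen d.2.2.1) d.2.1.toFinset)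
    (ho : 4 * cx.P.tau ≤ d.2.1.length) (c2 : gen c.2 ≤ gen d.1.S) (hr : r ∈ gen d.2.2.1)
    (S : List Tm) : (cx.view d.1).Emb cx.P (cx.view (d.1.ful c (cx.fQ d S) Q' r)) := by
  have hl := (lst hc h).mono h.fx
  refine emb0 hc h.wf.toWF0 c2 fQ_sub (h.fx hr) (h.keep r hr) fun w hw hq z hz e => ?_
  rw [← List.toFinset_card_of_nodup h.nd] at ho
  have ho' : 4 * (100 * (cx.lam + 1) + 3 + (4 * cx.lam + 6)) ≤ d.2.1.toFinset.card := ho
  have k := supp_alg (L := cx.lam) h.fx (invF_of hl.io) hG (by omega)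
    (show 100 * (cx.lam + 1) + 3 + (4 * cx.lam + 6) + _ ≤ _ by omega) (invF_of hl.id)
    (dcard h.wf) (List.mem_toFinset.2 (hl.id r hr w (h.wf.xd w hw))) e
  refine hl.mem_dS.2 ⟨hl.id _ (inv_mem hr) z hz, fun a ha => (hl.mem_dS.1 hq).2 ?_⟩
  refine (supp_smul (invF_of hl.io) hr w a).2 (k ?_)
  simpa using (supp_smul (invF_of hl.io) hr _ a).1 ha

/-- the state of a piece is well formed -/
theorem wfR (hc : cx.Ok) {x : FR} (h : FOk cx x.1.1) (hx : FCo cx x.1.1 x.2.2)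
    (hr : r ∈ gen x.1.1.1.S) :
    cx.WF0 (x.1.1.1.ful x.2.2 (cx.fQ x.1.1 x.2.1) (cx.fQ' x.1 x.2.1) r) :=
  have _ := hc
  wf h.wf.toWF0 h.one hx.1 hx.2.1 hx.2.2.1 fQ_sub fQ'_sub hr

/-- the supports are small -/
theorem fS_len (hc : cx.Ok) (h : FOk cx d) (hG : Giant (gen d.2.2.1) d.2.1.toFinset)
    (ho : 4 * cx.P.tau ≤ d.2.1.length) {w : Tm} (hw : w ∈ d.1.D) :
    (cx.fS d w).length ≤ cx.P.s ∧ (cx.fS d w).Nodup ∧ ∀ x ∈ cx.fS d w, x ∈ d.2.1 := by
  have hl := (lst hc h).mono h.fx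
  have n : (cx.fS d w).Nodup := h.nd.filter _
  refine ⟨?_, n, fun x hx => (List.mem_filter.1 hx).1⟩
  rw [← List.toFinset_card_of_nodup h.nd] at ho
  have ho' : 4 * (100 * (cx.lam + 1) + 3 + (4 * cx.lam + 6)) ≤ d.2.1.toFinset.card := ho
  rw [← List.toFinset_card_of_nodup n]
  refine le_trans (Finset.card_le_card fun a ha => (hl.mem_supL hw).1 (List.mem_toFinset.1 ha))
    (supp_card (L := cx.lam) (invF_of hl.io) hG (by omega) (invF_of hl.id) (dcard h.wf)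
      (List.mem_toFinset.2 hw))

/-- the number of representatives -/
theorem fR_len (hc : cx.Ok) (h : FOk cx d) (hG : Giant (gen d.2.2.1) d.2.1.toFinset)
    (ho : 4 * cx.P.tau ≤ d.2.1.length) {w : Tm} (hw : w ∈ d.1.D) :
    (cx.fR d (cx.fS d w)).length ≤ 2 * d.2.1.length ^ cx.P.s := by
  have hl := (lst hc h).mono h.fx
  obtain ⟨s1, s2, s3⟩ := fS_len hc h hG ho hw
  have := symN_finite cx.n
  have : Finite (gen d.2.2.1) :=
    Finite.of_injective _ (Subgroup.inclusion_injective (h.fx.trans h.wf.le))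
  have ho' : 4 * (100 * (cx.lam + 1) + 3 + (4 * cx.lam + 6)) ≤ d.2.1.length := ho
  have s1' : (cx.fS d w).length ≤ 4 * cx.lam + 6 := s1
  have k := hl.repS_length hG (dcard h.wf) s3 (by
    rw [List.toFinset_card_of_nodup s2, List.toFinset_card_of_nodup h.nd]; omega)
  rw [List.toFinset_card_of_nodup s2, List.toFinset_card_of_nodup h.nd] at k
  exact k.trans (Nat.mul_le_mul_left _ (Nat.pow_le_pow_right (by omega) s1))

theorem fP_len (hc : cx.Ok) (h : FOk cx d) (hG : Giant (gen d.2.2.1) d.2.1.toFinset) :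
    (cx.fP d).length ≤ 2 := (lst hc h).par_length h.fx hG

end FulE

end Pool.Agent.P.MP_f1a348_lc.GX
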