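import Pool.Agent.P.MP_f1a348_lc.GY.LibGiW
import Pool.Agent.P.MP_f1a348_lc.GY.LibGiP
import Pool.Agent.P.MP_f1a348_lc.GY.LibFulE
/-! Graph isomorphism: the frames of the full case halt. -/

set_option autoImplicit false
set_option linter.unusedSectionVars false
set_option synthInstance.maxSize 4096

namespace Pool.Agent.P.MP_f1a348_lc.GX

open Pool.Agent.Lib.Helper47 Pool.Agent.P.MP_f1a348_lc.GI Pool.Agent.P.MP_f1a348_lc.TO

namespace GW

variable {cx : Cx} {φ k : ℕ} {E : ℕ → ℕ → FL → Option Ans} {d : FD}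

theorem size_co (hc : cx.Ok) {g : U} {S : List U} (h1 : g ∈ SymN cx.n) (h2 : gen S ≤ SymN cx.n)
    (h3 : S.length ≤ cx.pd) : size g + size S ≤ cx.pd ^ 3 := by
  have := size_ans hc (a := some (g, S)) fun q hq => by
    obtain rfl := Option.some.inj hq
    exact ⟨h1, h2, h3⟩
  rw [size_some, size_pair] at this
  omega

theorem size_fr (hc : cx.Ok) (h : FOk cx d) (z : cx.Sz d.1 φ) {ρ : U} (hρ : ρ ∈ gen d.1.S)
    {S : List Tm} (nd : S.Nodup) (sd : ∀ x ∈ S, x ∈ d.1.D) {a : U × List U} (ha : FCo cx d a) :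
    size (((d, ρ), S, a) : FR) + 100 ≤ cx.pd ^ 12 := by
  have p := big hc
  have le := h.wf.toWF0.le
  have a1 := size_sta hc h.wf.toWF0 z
  have a2 := GiPx.pts hc z h.wf h.nd h.od
  have a3 := size_co hc (one_mem _) (h.fx.trans le) h.lx
  have a4 := size_co hc (le hρ) (h.fy.trans le) h.ly
  have a5 := GiPx.pts hc z h.wf nd sd
  have a6 := size_co hc (le ha.1) (ha.2.1.trans le) ha.2.2.1
  rw [size_pair (d, ρ), size_pair d, size_pair S, size_prod d, size_prod d.2, size_prod d.2.2,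
    size_prod a]
  generalize cx.pd = x at *
  have e1 : x ≤ x ^ 11 := Nat.le_self_pow (by norm_num) x
  have e3 : x ^ 3 ≤ x ^ 11 := Nat.pow_le_pow_right (by omega) (by norm_num)
  have e6 : x ^ 6 ≤ x ^ 11 := Nat.pow_le_pow_right (by omega) (by norm_num)
  have e9 : 100 * x ^ 11 ≤ x ^ 12 := by rw [pow_succ' x 11]; exact Nat.mul_le_mul_right _ p
  have f1 : x * (x ^ 5 + 1) + 1 = x ^ 6 + x + 1 := by ring
  omega

theorem fco0 (hc : cx.Ok) (h : FOk cx d) {ρ : U} (hρ : ρ ∈ gen d.1.S) :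
    FCo cx d (ρ, stabL cx.pad cx.base d.1.S d.2.1) :=
  ⟨hρ, fun _ hg => ((FULx.ker0 hc h).1 hg).1, FULx.len0 h, FULx.ker_le hc h⟩

theorem todo_le (hc : cx.Ok) {L : List (U × Bool × FL)} (h : ∀ t ∈ L, size t ≤ cx.pd ^ 12)
    (hl : L.length ≤ cx.pd) : size L ≤ cx.pd ^ 14 := by
  have p := big hc
  refine (PSIZEx.list_le h hl).trans ?_
  generalize cx.pd = x at *
  have e1 : x ≤ x ^ 13 := Nat.le_self_pow (by norm_num) x
  have e9 : 100 * x ^ 13 ≤ x ^ 14 := by rw [pow_succ' x 13]; exact Nat.mul_le_mul_right _ p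
  have f1 : x * (x ^ 12 + 1) + 1 = x ^ 13 + x + 1 := by ring
  omega

theorem ans_le (hc : cx.Ok) (a : Ans)
    (h : ∀ p ∈ a, p.1 ∈ SymN cx.n ∧ gen p.2 ≤ SymN cx.n ∧ p.2.length ≤ cx.pd) :
    size a + 2 ≤ cx.pd ^ 14 := by
  have := size_ans hc h
  have := pow_le hc (show 3 ≤ 14 by norm_num)
  omega

theorem of_sub {a : Ans} {W : Subgroup U} (h : ∀ g ∈ cs a, g ∈ W) :
    ∀ p ∈ a, p.1 ∈ W ∧ gen p.2 ≤ W := by
  rintro ⟨σ, S⟩ rfl
  exact ⟨h _ (self_mem_cs _ _), le_of_cs (τ := 1) (by simpa using h)⟩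

theorem full (hc : cx.Ok) (env : Env cx (cx.pd ^ 15) E) : Full cx E := by
  intro d φ k h z hG ho hφ hk hW
  have p := big hc
  have t := hc.tau
  have le := h.wf.toWF0.le
  have b14 : 1 ≤ cx.pd ^ 14 := Nat.one_le_pow _ _ (by omega)
  have b15 : 25 * cx.pd ^ 14 ≤ cx.pd ^ 15 := by
    rw [pow_succ' cx.pd 14]; exact Nat.mul_le_mul_right _ (by omega)
  have b12 := pow_le hc (show 12 ≤ 14 by norm_num)
  have e1 := env.u.inl b14 (by omega)
  have e0 := env.u.inr (B0 := 5 * cx.pd ^ 14) (by omega) (by omega)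
  have e2 := e0.inl b14 le_rfl
  have e3 := e0.inr b14 le_rfl
  have one := size_el hc (one_mem (SymN cx.n))
  have p12 : 100 * cx.pd ^ 11 ≤ cx.pd ^ 12 := by
    rw [pow_succ' cx.pd 11]; exact Nat.mul_le_mul_right _ p
  have p11 : cx.pd ≤ cx.pd ^ 11 := Nat.le_self_pow (by norm_num) _
  have mE : 0 < cx.mE := Nat.one_le_two_pow
  have rep : ∀ ρ ∈ gen d.1.S, ∀ w ∈ d.1.X, ∀ a, FCo cx d a → gen a.2 ≤ fixS d.2.1 → ∀ ψ,
      φ ≤ ψ + (5 * cx.lam + 13) → ψ ≤ φ →
      E ψ cx.mE (iU (.inr (.inr ((d, ρ), cx.fS d w, a)))) ≠ none := by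
    intro ρ hρ w hw a ha hf ψ c1 c2
    obtain ⟨s1, s2, s3⟩ := FulE.fS_len hc h hG ho (h.wf.xd w hw)
    have r1 := FulE.fR_len hc h hG ho (h.wf.xd w hw)
    have ol := (h.wf.olen h.nd h.od).trans h.wf.dlen.1
    have r2 : 2 * d.2.1.length ^ cx.P.s ≤ cx.pd := by
      refine le_trans ?_ (hc.pow ol (show cx.P.s + 1 ≤ _ by omega))
      rw [pow_succ']
      exact Nat.mul_le_mul_right _ (by omega)
    have r3 : Nat.ble (cx.fR d (cx.fS d w)).length cx.pad.length = true :=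
      Nat.ble_eq ▸ r1.trans r2
    have r4 : bl (cx.fR d (cx.fS d w)).length ≤ cx.P.s * bl d.2.1.length + 1 + 1 := by
      refine bl_le (r1.trans ?_)
      rw [pow_succ', mul_comm cx.P.s, pow_mul]
      exact Nat.mul_le_mul_left _ (Nat.pow_le_pow_left (lt_two_pow_bl _).le _)
    have l := (FULx.lst hc h).mono h.fx
    have wf : ∀ r ∈ cx.fR d (cx.fS d w), cx.WF0 (d.1.ful a (cx.fQ d (cx.fS d w))
        (cx.fQ' (d, ρ) (cx.fS d w)) r) := fun r hr =>
      FULx.wf h.wf.toWF0 h.one ha.1 ha.2.1 ha.2.2.1 FULx.fQ_sub FULx.fQ'_sub (h.fx (l.repS_mem hr))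
    have gr : ∀ r, cx.Grow d.1 (d.1.ful a (cx.fQ d (cx.fS d w))
        (cx.fQ' (d, ρ) (cx.fS d w)) r) := fun r => FulE.gro hc h.wf (z.le hc).2.1
    have td : (repP (F := FL) .inl).todo cx ((d, ρ), cx.fS d w, a) =
        (cx.fR d (cx.fS d w)).map (fun r => (1, false, .inl (d.1.ful a (cx.fQ d (cx.fS d w))
          (cx.fQ' (d, ρ) (cx.fS d w)) r))) := by simp only [repP, joinP, r3, cond_true]; rfl
    have pr : (repP (F := FL) .inl).pri cx ((d, ρ), cx.fS d w, a) ≤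
        cx.P.s * bl d.2.1.length + 2 * cx.lam + 7 := by
      unfold Part.pri
      rw [td, List.length_map]
      omega
    have sz := size_fr hc h z hρ s2 (fun x hx => h.od x (s3 x hx)) ha
    refine e3 ψ cx.mE _ (· ≠ none) mE (by omega) (td ▸ todo_le hc (fun y hy => ?_)
      (by rw [List.length_map]; exact r1.trans r2)) (by omega)
      (joinP_loc (W := SymN cx.n) (n := cx.pd) (by simp only [r3, cond_true]; rfl) le_rfl
        (ans_le hc) fun u y v e => ?_)
    · obtain ⟨r, hr, rfl⟩ := List.mem_map.1 hy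
      have := size_sta hc (wf r hr) (z.grow hc (gr r) le_rfl (by omega))
      have := size_bool false
      rw [size_pair, size_pair, Part.size_inl]
      omega
    · obtain ⟨r, hr, rfl⟩ := List.mem_map.1 (show y ∈ _ by rw [e]; simp)
      obtain ⟨b, b1, b2⟩ := ex_post env (f := .inl _) (wf r hr) (hW _
        (ψ - (repP (F := FL) .inl).pri cx ((d, ρ), cx.fS d w, a)) (wf r hr) (gr r)
        (FulE.emb hc h hG ho ha.2.1 (l.repS_mem hr) _) hf (by omega) (by omega))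
      exact ⟨one_mem _, b, b1, fun q hq =>
        let ⟨_, _, c3, c4, c5, _⟩ := Cx.Post.sym (wf r hr) b2 q hq; ⟨c3, c4, c5⟩⟩
  have sup : ∀ ρ ∈ gen d.1.S, ∀ ψ, φ ≤ ψ + (2 * cx.lam + 7) → ψ ≤ φ →
      E ψ cx.mE (iU (.inr (.inl (d, ρ)))) ≠ none := by
    intro ρ hρ ψ c1 c2
    have sz := size_fr hc h z hρ List.nodup_nil (by simp) (fco0 hc h hρ)
    rw [size_pair] at sz
    have xl : bl d.1.X.length ≤ cx.lam + 1 := bl_le (h.wf.dlen.2.1.trans h.wf.dlen.1)
    have pr : (supP fun x => iU (.inr (.inr x))).pri cx (d, ρ) ≤ 3 * cx.lam + 6 := by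
      change bl d.1.X.length + _ + _ ≤ _
      omega
    have sx : size d.1.X ≤ cx.pd ^ 12 := by
      have := size_fr hc h z hρ h.wf.nx h.wf.xd (fco0 hc h hρ)
      rw [size_pair, size_pair d.1.X] at this
      omega
    refine e2 ψ cx.mE _ (· ≠ none) mE (by omega) (sx.trans b12) (by omega)
      (chnP_loc (fun _ a => ∀ q ∈ a, FCo cx d q ∧ gen q.2 ≤ fixS d.2.1)
        (fun _ a j => ans_le hc a fun q hq =>
          ⟨le (j q hq).1.1, (j q hq).1.2.1.trans le, (j q hq).1.2.2.1⟩)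
        ⟨_, rfl, fun q hq => ?_⟩ (fun _ _ _ _ _ => by simp) fun u w v a e j => ?_)
    · cases e : cx.fCov (d, ρ) <;> rw [e] at hq
      · cases hq
      · obtain rfl := Option.some.inj hq
        exact ⟨fco0 hc h hρ, fun g hg => mem_fixS.2 ((FULx.ker0 hc h).1 hg).2⟩
    · obtain ⟨j1, j2⟩ := j a rfl
      obtain ⟨b, b1, b2⟩ := ex_post env (f := iU (.inr (.inr ((d, ρ), cx.fS d w, a)))) ⟨h, j1⟩
        (rep ρ hρ w (by rw [show d.1.X = _ from e]; simp) a j1 j2
          (ψ - (supP fun x => iU (.inr (.inr x))).pri cx (d, ρ)) (by omega) (by omega))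
      refine ⟨b, b1, ?_⟩
      obtain ⟨-, n2, n3⟩ := FULx.next (K := cx.fK d) (A := gen a.2) (I := cs (some a))
        (hc.faith.mono (j1.2.1.trans le))
        (fun g a1 g' a2 => by simpa [mul_assoc] using mul_mem (inv_mem (mem_cs.1 a1)) (mem_cs.1 a2))
        (fun g a1 u a2 => mem_cs.2 (by simpa [mul_assoc] using mul_mem (mem_cs.1 a1) a2))
        j1.2.2.2 (b := b) fun g hg => (FULx.mem_sol.1 (b2.2.1 hg)).1
      rintro ⟨σ, S⟩ hq
      have n4 : cs (some (σ, S)) ⊆ cs (some a) := by rwa [show addG _ _ _ _ = _ from hq] at n2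
      exact ⟨FULx.fco (fun g hg => by simpa using mul_mem j1.1 (j1.2.1 (mem_cs.1 (n4 hg))))
        (n3 _ hq), (le_of_cs (τ := a.1) fun g hg => mem_cs.1 (n4 hg)).trans j2⟩
  have r1 := FulE.fP_len hc h hG
  have r3 : Nat.ble (cx.fP d).length cx.pad.length = true :=
    Nat.ble_eq ▸ r1.trans (show 2 ≤ cx.pd by omega)
  have td : (parP fun x => iU (.inr (.inl x))).todo cx d =
      (cx.fP d).map (fun ρ => (1, false, iU (.inr (.inl (d, ρ))))) := by
    simp only [parP, joinP, r3, cond_true]; rfl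
  have pr : (parP fun x => iU (.inr (.inl x))).pri cx d ≤ 2 * cx.lam + 7 := by
    have : bl (cx.fP d).length ≤ 1 + 1 := bl_le r1
    unfold Part.pri
    rw [td, List.length_map]
    omega
  have sz := size_fr hc h z (one_mem _) List.nodup_nil (by simp) (fco0 hc h (one_mem _))
  rw [size_pair, size_pair] at sz
  refine e1 φ k d (· ≠ none) (by omega) (by omega) (td ▸ todo_le hc (fun y hy => ?_)
    (by rw [List.length_map]; omega)) (by omega)
    (joinP_loc (W := SymN cx.n) (n := cx.pd) (by simp only [r3, cond_true]; rfl) le_rfl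
      (ans_le hc) fun u y v e => ?_)
  · obtain ⟨ρ, hρ, rfl⟩ := List.mem_map.1 hy
    have a1 := FULx.par_mem hc h hρ
    have a2 := size_fr hc h z a1 List.nodup_nil (by simp) (⟨one_mem _, (fco0 hc h a1).2⟩ :
      FCo cx d (1, stabL cx.pad cx.base d.1.S d.2.1))
    have := size_bool false
    rw [size_pair, size_pair [], size_pair 1] at a2
    rw [size_pair, size_pair, iU, Part.size_inr, Part.size_inr, Part.size_inr, Part.size_inr,
      Part.size_inr, Part.size_inr, Part.size_inr, Part.size_inl]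
    omega
  · obtain ⟨ρ, hρ, rfl⟩ := List.mem_map.1 (show y ∈ _ by rw [e]; simp)
    have a1 := FULx.par_mem hc h hρ
    obtain ⟨b, b1, b2⟩ := ex_post env (f := iU (.inr (.inl (d, ρ)))) ⟨h, a1⟩
      (sup ρ a1 (φ - (parP fun x => iU (.inr (.inl x))).pri cx d) (by omega) (by omega))
    exact ⟨one_mem _, b, b1, fun q hq =>
      let c := of_sub (W := SymN cx.n) (fun g hg => h.wf.toWF0.cs_le (b2.2.1 hg).1) q hq
      ⟨c.1, c.2, b2.2.2 q hq⟩⟩

theorem giM_wins : giM.Wins RGiant :=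
  wins (fun _ hc => ⟨fun _ _ _ _ _ _ z h => size_rd hc z h, fun _ _ _ _ _ z h => size_rx hc z h,
    fun _ _ z h => size_ent hc z h⟩) fun _ _ hc env => full hc env

end GW

end Pool.Agent.P.MP_f1a348_lc.GX
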