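import Pool.Agent.P.MP_f1a348_lc.GY.DefsP
import Pool.Agent.P.MP_f1a348_lc.GX.LibInc
import Pool.Agent.P.MP_f1a348_lc.GY.LibF
import Pool.Agent.P.MP_f1a348_lc.GY.TPNUM

/-! Step PSIZE. -/

set_option autoImplicit false
set_option linter.unusedSectionVars false

namespace Pool.Agent.P.MP_f1a348_lc.GX

open Pool.Agent.Lib.Helper47 Pool.Agent.P.MP_f1a348_lc.GI Pool.Agent.P.MP_f1a348_lc.TO
variable {cx : Cx} {s s' s'' : Sta}

namespace PSIZEx

theorem szs_mono {φ ψ : ℕ} {A : Sx Tm} (h : cx.SzS φ A) (e : ψ ≤ φ) : cx.SzS ψ A :=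
  ⟨(Nat.add_le_add_left (Nat.mul_le_mul_left _ e) _).trans h.v,
    fun t ht => (Nat.mul_le_mul_left _ (Nat.pow_le_pow_right (by norm_num) e)).trans (h.w t ht),
    (Nat.add_le_add_left (Nat.mul_le_mul_left _ e) _).trans h.r, h.l⟩

theorem step {a a' b φ ψ c : ℕ} (h : a + b * φ ≤ c) (h' : a' ≤ a + b) (e : ψ + 1 ≤ φ) :
    a' + b * ψ ≤ c := by
  have := Nat.mul_le_mul_left b e
  rw [Nat.mul_add, Nat.mul_one] at this
  omega

theorem grs {φ d v k m : ℕ} (h : cx.Sz s φ) (g : cx.Gro s s' d v k m) :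
    cx.GrS v k (m * (cx.pd / 2 ^ φ)) s.A s'.A ∧ cx.GrS v k (m * (cx.pd / 2 ^ φ)) s.B s'.B :=
  g.ab _ ((Nat.le_div_iff_mul_le (by positivity)).2 (by simpa using h.f))
    (fun t ht => (Nat.le_div_iff_mul_le (by positivity)).2 (h.a.w t ht))
    (fun t ht => (Nat.le_div_iff_mul_le (by positivity)).2 (h.b.w t ht))

theorem szs_grow {φ c j : ℕ} {A A' : Sx Tm} (h : cx.SzS φ A)
    (g : cx.GrS cx.b1 (cx.pd ^ 2) (2 ^ (j + 1) * (cx.pd / 2 ^ φ)) A A')
    (h1 : j + 1 ≤ c) (h2 : c ≤ φ) : cx.SzS (φ - c) A' := by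
  refine ⟨step h.v g.hv (by omega), fun t ht => ?_, step h.r g.hr (by omega), g.hl h.l⟩
  calc Tm.wt t * 2 ^ (φ - c) ≤ 2 ^ (j + 1) * (cx.pd / 2 ^ φ) * 2 ^ (φ - c) :=
        Nat.mul_le_mul_right _ (g.hw t ht)
    _ = cx.pd / 2 ^ φ * 2 ^ (j + 1 + (φ - c)) := by rw [pow_add _ (j + 1)]; ring
    _ ≤ cx.pd / 2 ^ φ * 2 ^ φ :=
        Nat.mul_le_mul_left _ (Nat.pow_le_pow_right (by norm_num) (by omega))
    _ ≤ cx.pd := Nat.div_mul_le_self _ _

theorem grs_trans {v k w v' k' w' : ℕ} {A A' A'' : Sx Tm} (h : cx.GrS v k w A A')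
    (h' : cx.GrS v' k' w' A' A'') : cx.GrS (v + v') (k + k') w' A A'' :=
  ⟨by have := h.hv; have := h'.hv; omega, h'.hw, by have := h.hr; have := h'.hr; omega,
    fun e => h'.hl (h.hl e)⟩

theorem grs_mono {v k w v' k' w' : ℕ} {A A' : Sx Tm} (h : cx.GrS v k w A A') (h1 : v ≤ v')
    (h2 : k ≤ k') (h3 : w ≤ w') : cx.GrS v' k' w' A A' :=
  ⟨by have := h.hv; omega, fun t ht => (h.hw t ht).trans h3, by have := h.hr; omega, h.hl⟩

theorem lam_le (hc : cx.Ok) : 2 ^ cx.lam ≤ cx.pd :=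
  (Nat.pow_le_pow_right (by norm_num) (by omega)).trans hc.nums.1

theorem pd_ge (hc : cx.Ok) : 100 ≤ cx.pd :=
  le_trans (by norm_num : 100 ≤ 2 ^ 7) ((Nat.pow_le_pow_right (by norm_num)
    (by have := hc.lam; omega : 7 ≤ cx.lam)).trans (lam_le hc))

theorem list_le {α : Type} [Enc α] {l : List α} {b c : ℕ} (h : ∀ x ∈ l, size x ≤ b)
    (hl : l.length ≤ c) : size l ≤ c * (b + 1) + 1 :=
  (Pool.Agent.Lib.Helper47.size_list_le h).trans
    (Nat.add_le_add_right (Nat.mul_le_mul_right _ hl) 1)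

theorem side {φ k : ℕ} {g : U} {D : List Tm} {A : Sx Tm} (hc : cx.Ok) (h0 : cx.Side k g D A)
    (h : cx.SzS φ A) (hk : k ≤ cx.pd ^ 3) (hv : ∀ t ∈ A.1, size t ≤ cx.pd ^ 5) :
    size A ≤ cx.pd ^ 10 := by
  have p := pd_ge hc
  have a1 := list_le hv ((Nat.le_add_right _ _).trans (h.v.trans (lam_le hc)))
  have a2 := list_le (l := A.2) (b := 4 * cx.pd ^ 3 + (cx.pd * (cx.pd ^ 5 + 1) + 1) + 1)
    (c := cx.pd ^ 3) (fun e he => by
      have b1 := size_nat_le e.1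
      have b2 := (h0.lab e he).1
      have b3 := list_le (fun x hx => hv x ((h0.lab e he).2 x hx)) (h.l e he)
      rw [size_prod]; omega) ((Nat.le_add_right _ _).trans h.r)
  rw [size_prod]
  generalize cx.pd = x at *
  have e1 : x ≤ x ^ 9 := Nat.le_self_pow (by norm_num) x
  have e3 : x ^ 3 ≤ x ^ 9 := Nat.pow_le_pow_right (by omega) (by norm_num)
  have e4 : x ^ 4 ≤ x ^ 9 := Nat.pow_le_pow_right (by omega) (by norm_num)
  have e6 : x ^ 6 ≤ x ^ 9 := Nat.pow_le_pow_right (by omega) (by norm_num)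
  have e9 : 100 * x ^ 9 ≤ x ^ 10 := by rw [pow_succ' x 9]; exact Nat.mul_le_mul_right _ p
  have f1 : x * (x ^ 5 + 1) + 1 = x ^ 6 + x + 1 := by ring
  have f2 : x ^ 3 * (4 * x ^ 3 + (x * (x ^ 5 + 1) + 1) + 1 + 1) + 1 =
      x ^ 9 + 4 * x ^ 6 + x ^ 4 + 3 * x ^ 3 + 1 := by ring
  rw [f2] at a2
  rw [f1] at a1
  omega

end PSIZEx

open PSIZEx

theorem Cx.Sz.mono {φ ψ : ℕ} (h : cx.Sz s φ) (e : ψ ≤ φ) : cx.Sz s ψ := by
  exact ⟨(Nat.pow_le_pow_right (by norm_num) e).trans h.f,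
    (Nat.add_le_add_left (Nat.mul_le_mul_left _ e) _).trans h.d,
    (Nat.add_le_add_left (Nat.mul_le_mul_left _ e) _).trans h.k, szs_mono h.a e, szs_mono h.b e,
    (Nat.add_le_add_left (Nat.mul_le_mul_left _ e) _).trans h.h, h.i⟩

theorem Cx.Sz.wf {φ : ℕ} (h : cx.Sz s φ) (h0 : cx.WF0 s) : cx.WF s := by
  exact ⟨h0, (Nat.le_add_right _ _).trans h.a.v, (Nat.le_add_right _ _).trans h.b.v⟩

theorem Cx.Sz.le {φ : ℕ} (hc : cx.Ok) (h : cx.Sz s φ) : φ ≤ 2 ^ cx.lam ∧ s.D.length ≤ cx.b1 ∧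
    s.ctr ≤ cx.pd ^ 3 := by
  refine ⟨?_, (Nat.le_add_right _ _).trans h.d, (Nat.le_add_right _ _).trans h.k⟩
  have h1 : 0 < cx.b1 := lt_of_lt_of_le (by norm_num) hc.nums.2.2.2.1
  exact (Nat.le_mul_of_pos_left φ h1).trans ((Nat.le_add_left _ _).trans h.a.v)

/- use w = pd / 2 ^ phi -/
theorem Cx.Sz.growL {φ c j : ℕ} (h : cx.Sz s φ)
    (g : cx.Gro s s' cx.n cx.b1 (cx.pd ^ 2) (2 ^ (j + 1))) (h1 : j + 1 ≤ c) (h2 : c ≤ φ) :
    cx.Sz s' (φ - c) := by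
  have := grs h g
  exact ⟨(Nat.pow_le_pow_right (by norm_num) (Nat.sub_le _ _)).trans h.f,
    step h.d g.hd (by omega), step h.k g.hk (by omega), szs_grow h.a this.1 h1 h2,
    szs_grow h.b this.2 h1 h2, step h.h g.hh (by omega), fun I hI => (g.hi I hI).elim (h.i I) id⟩

theorem Cx.Sz.grow {φ c : ℕ} (hc : cx.Ok) (h : cx.Sz s φ) (g : cx.Grow s s')
    (h1 : cx.lam + 1 ≤ c) (h2 : c ≤ φ) : cx.Sz s' (φ - c) := h.growL g h1 h2

theorem Cx.Sz.wf' {φ : ℕ} (h : cx.Sz s φ) (g : cx.Grow s s') (h1 : 1 ≤ φ) (h0 : cx.WF0 s') :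
    cx.WF s' := by
  have := grs h g
  exact ⟨h0, by simpa using step (ψ := 0) h.a.v this.1.hv h1,
    by simpa using step (ψ := 0) h.b.v this.2.hv h1⟩

theorem Cx.Gro.of_eq (e1 : s'.D = s.D) (e2 : s'.q = s.q) (e3 : s'.ctr = s.ctr)
    (e4 : s'.hs = s.hs) : cx.Gro s s' 0 0 0 1 := by
  have a : s'.A = s.A := congrArg Prod.fst e2
  have b : s'.B = s.B := congrArg Prod.snd e2
  refine ⟨by simp [e1], by simp [e3], fun w _ h1 h2 => ?_, by simp [e4], fun I h => .inl (e4 ▸ h)⟩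
  rw [a, b, one_mul]
  exact ⟨⟨le_rfl, h1, le_rfl, id⟩, ⟨le_rfl, h2, le_rfl, id⟩⟩

theorem Cx.Gro.trans {d v k m d' v' k' m' : ℕ} (h : cx.Gro s s' d v k m) (hm : 1 ≤ m)
    (h' : cx.Gro s' s'' d' v' k' m') : cx.Gro s s'' (d + d') (v + v') (k + k') (m' * m) := by
  refine ⟨by have := h.hd; have := h'.hd; omega, by have := h.hk; have := h'.hk; omega,
    fun w hw h1 h2 => ?_, by have := h.hh; have := h'.hh; omega,
    fun I hI => (h'.hi I hI).elim (h.hi I) .inr⟩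
  have a := h.ab w hw h1 h2
  have b := h'.ab (m * w) (Nat.mul_pos hm hw) a.1.hw a.2.hw
  rw [mul_assoc]
  exact ⟨grs_trans a.1 b.1, grs_trans a.2 b.2⟩

theorem Cx.Gro.mono {d v k m d' v' k' m' : ℕ} (h : cx.Gro s s' d v k m) (h1 : d ≤ d')
    (h2 : v ≤ v') (h3 : k ≤ k') (h4 : m ≤ m') : cx.Gro s s' d' v' k' m' := by
  refine ⟨by have := h.hd; omega, by have := h.hk; omega, fun w hw a b => ?_,
    by have := h.hh; omega, h.hi⟩
  have c := h.ab w hw a b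
  exact ⟨grs_mono c.1 h2 h3 (Nat.mul_le_mul_right _ h4),
    grs_mono c.2 h2 h3 (Nat.mul_le_mul_right _ h4)⟩

theorem size_el (hc : cx.Ok) {g : U} (hg : g ∈ SymN cx.n) : size g ≤ cx.pd := by
  have lt : ∀ a ∈ g.supp, a < cx.n := fun a ha => by
    by_contra h
    exact FP.mem_supp.1 ha (hg a (not_lt.1 h))
  have h1 := size_tbl g.supp g.app (A := 4 * cx.n) (B := 4 * cx.n) (fun a ha => by
    have a1 := lt a ha
    have a2 := (SymN.lt hg).2 a1
    have := size_nat_le a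
    have := size_nat_le (g.app a)
    omega)
  have h2 : g.supp.card ≤ cx.n := by
    simpa using Finset.card_le_card (t := Finset.range cx.n)
      (fun a ha => Finset.mem_range.2 (lt a ha))
  have h3 : size g = size (tbl g.supp g.app) := rfl
  have h4 := hc.nums.1
  have h5 := hc.nums.2.2.2.2.1
  have h6 : 2 ^ 4 ≤ 2 ^ cx.lam := Nat.pow_le_pow_right (by norm_num) (by have := hc.lam; omega)
  rw [mul_comm, pow_mul] at h4
  generalize 2 ^ cx.lam = x at *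
  have h7 : x ^ 3 ≤ x ^ 8 := Nat.pow_le_pow_right (by omega) (by norm_num)
  have h8 : g.supp.card * (4 * cx.n + 4 * cx.n + 2) ≤ x * (8 * x + 2) :=
    Nat.mul_le_mul (by omega) (by omega)
  have h9 : 16 * (x * x) ≤ x ^ 3 := by
    rw [show x ^ 3 = x * (x * x) by ring]; exact Nat.mul_le_mul_right _ h6
  nlinarith

theorem size_ans (hc : cx.Ok) {a : Ans}
    (h : ∀ p ∈ a, p.1 ∈ SymN cx.n ∧ gen p.2 ≤ SymN cx.n ∧ p.2.length ≤ cx.pd) :
    size a + 8 ≤ cx.pd ^ 3 := by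
  have p := pd_ge hc
  have e : 100 * (cx.pd * cx.pd) ≤ cx.pd ^ 3 := by
    rw [show cx.pd ^ 3 = cx.pd * (cx.pd * cx.pd) by ring]; exact Nat.mul_le_mul_right _ p
  cases a with
  | none => rw [size_none]; nlinarith
  | some q =>
    obtain ⟨h1, h2, h3⟩ := h q rfl
    have a1 := size_el hc h1
    have a2 := list_le (fun x hx => size_el hc (h2 (mem_gen hx))) h3
    rw [size_some, size_prod]
    nlinarith

theorem Cx.Post.size (hc : cx.Ok) (h : cx.WF0 s) {r : Option Ans}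
    (ha : ∀ a, r = some a → cx.Post s a) : size r ≤ cx.pd ^ 3 := by
  cases r with
  | none =>
    have := pd_ge hc
    rw [size_none]
    exact Nat.one_le_pow _ _ (by omega)
  | some a =>
    have := size_ans hc (a := a) fun p hp =>
      have q := Cx.Post.sym h (ha a rfl) p hp
      ⟨q.2.2.1, q.2.2.2.1, q.2.2.2.2.1⟩
    rw [size_some]; omega

theorem size_vtx {φ : ℕ} (hc : cx.Ok) (h0 : cx.WF0 s) (h : cx.Sz s φ) {t : Tm}
    (ht : t ∈ s.A.1 ∨ t ∈ s.B.1) : size t ≤ cx.pd ^ 5 := by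
  have p := pd_ge hc
  have h1 := (h0.abv ht).size_le
  have h2 : Tm.wt t ≤ cx.pd :=
    (Nat.le_mul_of_pos_right _ (by positivity)).trans (ht.elim (h.a.w t) (h.b.w t))
  have h3 := (h.le hc).2.2
  have h4 : 6 * Tm.wt t * (s.ctr + 1) ≤ 6 * cx.pd * (cx.pd ^ 3 + 1) := by gcongr
  generalize cx.pd = x at *
  have e1 : x ≤ x ^ 4 := Nat.le_self_pow (by norm_num) x
  have e2 : 100 * x ^ 4 ≤ x ^ 5 := by rw [pow_succ' x 4]; exact Nat.mul_le_mul_right _ p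
  have f : 6 * x * (x ^ 3 + 1) = 6 * x ^ 4 + 6 * x := by ring
  omega

theorem size_sta {φ : ℕ} (hc : cx.Ok) (h0 : cx.WF0 s) (h : cx.Sz s φ) : size s ≤ cx.pd ^ 11 := by
  have p := pd_ge hc
  have w := (h.wf h0).dlen
  have l := lam_le hc
  have k := (h.le hc).2.2
  have a1 : size s.σ ≤ cx.pd := size_el hc h0.hσ
  have a2 := list_le (fun x hx => size_el hc (h0.hS x hx)) h0.len
  have a3 := list_le (l := s.D) (fun x hx => size_vtx hc h0 h (Or.inl (h0.dA hx)))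
    (w.1.trans l)
  have a4 := list_le (l := s.X) (fun x hx => size_vtx hc h0 h (Or.inl (h0.dA (h0.xd x hx))))
    (w.2.1.trans (w.1.trans l))
  have a5 := list_le (l := s.Y) (fun x hx => size_vtx hc h0 h
    (Or.inr (by simpa using h0.b.real _ (h0.yd x hx)))) (w.2.2.trans (w.1.trans l))
  have a6 := side hc h0.a h.a k fun t ht => size_vtx hc h0 h (Or.inl ht)
  have a7 := side hc h0.b h.b k fun t ht => size_vtx hc h0 h (Or.inr ht)
  have a8 := size_nat_le s.ctr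
  have a9 := list_le (l := s.hs) (b := cx.pd * (4 * cx.pd ^ 3 + 1 + 1) + 1) (fun I hI =>
    list_le (fun i hi => (size_nat_le i).trans (by have := (h.i I hI).2 i hi; omega)) (h.i I hI).1)
    (((Nat.le_add_right _ _).trans h.h).trans l)
  have e : size s = size ((s.σ, s.S), s.D, s.X, s.Y, (s.A, s.B), s.ctr, s.hs) := rfl
  simp only [size_pair] at e
  generalize cx.pd = x at *
  have e1 : x ≤ x ^ 10 := Nat.le_self_pow (by norm_num) x
  have e2 : x ^ 2 ≤ x ^ 10 := Nat.pow_le_pow_right (by omega) (by norm_num)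
  have e3 : x ^ 3 ≤ x ^ 10 := Nat.pow_le_pow_right (by omega) (by norm_num)
  have e6 : x ^ 6 ≤ x ^ 10 := Nat.pow_le_pow_right (by omega) (by norm_num)
  have e9 : 100 * x ^ 10 ≤ x ^ 11 := by rw [pow_succ' x 10]; exact Nat.mul_le_mul_right _ p
  have f1 : x * (x ^ 5 + 1) + 1 = x ^ 6 + x + 1 := by ring
  have f2 : x * (x + 1) + 1 = x ^ 2 + x + 1 := by ring
  rw [f1] at a3 a4 a5
  rw [f2] at a2
  have e5 : x ^ 5 ≤ x ^ 10 := Nat.pow_le_pow_right (by omega) (by norm_num)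
  rw [show x * (x * (4 * x ^ 3 + 1 + 1) + 1 + 1) + 1 = 4 * x ^ 5 + 2 * x ^ 2 + 2 * x + 1 by ring] at a9
  omega

theorem size_list_le {α : Type} [Enc α] {l : List α} {b : ℕ} (h : ∀ x ∈ l, size x ≤ b) :
    size l ≤ l.length * (b + 1) + 1 := by
  exact Pool.Agent.Lib.Helper47.size_list_le h

end Pool.Agent.P.MP_f1a348_lc.GX
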