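import Pool.Agent.P.MP_f1a348_lc.GY.DefsU

/-! Graph isomorphism: the running time of the frames of the full case. -/

set_option autoImplicit false
set_option linter.unusedSectionVars false
set_option synthInstance.maxSize 4096

namespace Pool.Agent.P.MP_f1a348_lc.GX

open Pool.Agent.Lib.Helper47 Pool.Agent.P.MP_f1a348_lc.GI Pool.Agent.P.MP_f1a348_lc.TO

section time
variable {α : Type} [Enc α] {c : α → Cx} {d : α → FD} {e : α → FC} {S : α → List Tm}

@[fun_prop] theorem pt_tg {k : α → ℕ} {A : α → Sx Tm} {z : α → Tm} (h1 : PT k) (h2 : PT A)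
    (h3 : PT z) : PT (fun a => tg (k a) (A a) (z a)) := by unfold tg; fun_prop

@[fun_prop] theorem Sta.pt_ful {s : α → Sta} {p : α → U × List U} {Q Q' : α → List Tm} {r : α → U}
    (h1 : PT s) (h2 : PT p) (h3 : PT Q) (h4 : PT Q') (h5 : PT r) :
    PT (fun a => (s a).ful (p a) (Q a) (Q' a) (r a)) := by
  have a1 : PT (fun a => fulS (s a).D (Q a) (r a)⁻¹ (tg (s a).ctr (s a).A) (s a).ctr (s a).A) :=
    pt_fulS (by fun_prop) h3 (by fun_prop) (by fun_prop) (by fun_prop) (by fun_prop)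
  have a2 : PT (fun a => fulS (s a).D (Q' a) (1 : U) (tg (s a).ctr (s a).B) (s a).ctr (s a).B) :=
    pt_fulS (β := fun _ => (1 : U)) (by fun_prop) h4 (by fun_prop) (by fun_prop) (by fun_prop)
      (by fun_prop)
  unfold Sta.ful
  exact PT.prodMk h2 (PT.prodMk (by fun_prop) (PT.prodMk (by fun_prop) (PT.prodMk (by fun_prop)
    (PT.prodMk (PT.prodMk a1 a2) (by fun_prop)))))

@[fun_prop] theorem Cx.pt_fS {w : α → Tm} (h0 : PT c) (h1 : PT d) (h2 : PT w) :
    PT (fun a => (c a).fS (d a) (w a)) := by unfold Cx.fS; fun_prop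
@[fun_prop] theorem Cx.pt_fQ (h0 : PT c) (h1 : PT d) (h2 : PT S) :
    PT (fun a => (c a).fQ (d a) (S a)) := by unfold Cx.fQ; fun_prop
@[fun_prop] theorem Cx.pt_fQ' (h0 : PT c) (h1 : PT e) (h2 : PT S) :
    PT (fun a => (c a).fQ' (e a) (S a)) := by unfold Cx.fQ'; fun_prop
@[fun_prop] theorem Cx.pt_fK (h0 : PT c) (h1 : PT d) : PT (fun a => (c a).fK (d a)) := by
  unfold Cx.fK; fun_prop
@[fun_prop] theorem Cx.pt_fP (h0 : PT c) (h1 : PT d) : PT (fun a => (c a).fP (d a)) := by
  unfold Cx.fP; fun_prop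
@[fun_prop] theorem Cx.pt_fR (h0 : PT c) (h1 : PT d) (h2 : PT S) :
    PT (fun a => (c a).fR (d a) (S a)) := by unfold Cx.fR; fun_prop
@[fun_prop] theorem Cx.pt_fCov (h0 : PT c) (h1 : PT e) : PT (fun a => (c a).fCov (e a)) := by
  unfold Cx.fCov; fun_prop
end time

variable {F : Type} [Enc F]

theorem parP_poly {i : FC → F} (h : PT i) : (parP i).Poly :=
  joinP_poly (by fun_prop) (by fun_prop) (by fun_prop) (by fun_prop)

theorem supP_poly {i : FR → F} (h : PT i) : (supP i).Poly :=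
  chnP_poly (by fun_prop) (by fun_prop) (by fun_prop) (by fun_prop) (by fun_prop) (by fun_prop)
    (by fun_prop)

theorem repP_poly {i : Sta → F} (h : PT i) : (repP i).Poly :=
  joinP_poly (by fun_prop) (by fun_prop) (by fun_prop) (by fun_prop)

theorem fullP_poly {iS : Sta → F} {iF : XF → F} (h1 : PT iS) (h2 : PT iF) :
    (fullP iS iF).Poly :=
  (parP_poly (h2.comp (g := fun x : FC => (.inr (.inl x) : XF))
    (PT.inr (PT.inl (f := fun x : FC => x) (by fun_prop))))).sum
    ((supP_poly (h2.comp (g := fun x : FR => (.inr (.inr x) : XF))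
      (PT.inr (PT.inr (f := fun x : FR => x) (by fun_prop))))).sum (repP_poly h1))

end Pool.Agent.P.MP_f1a348_lc.GX
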