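import Pool.Agent.P.MP_f1a348_lc.GY.LibSh
import Pool.Agent.P.MP_f1a348_lc.GX.LibLC
import Pool.Agent.P.MP_f1a348_lc.GX.LibInc
import Pool.Agent.P.MP_f1a348_lc.GY.TVALG

/-! Graph isomorphism: supports and representatives in the full case. -/

set_option autoImplicit false
set_option linter.unusedSectionVars false

namespace Pool.Agent.P.MP_f1a348_lc.GX

open Pool.Agent.Lib.Helper47 Pool.Agent.P.MP_f1a348_lc.GI Pool.Agent.P.MP_f1a348_lc.TO
open Equiv Finset MulAction
open scoped Classical

section math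
variable {G Ω : Type} [Group G] [MulAction G Ω] [DecidableEq Ω]

/-- the support of `p` -/
noncomputable def supp (F : Subgroup G) (O : Finset Ω) (p : Ω) : Finset Ω :=
  O \ bigO (F ⊓ stabilizer G p) O

theorem supp_sub {F : Subgroup G} {O : Finset Ω} {p : Ω} : supp F O p ⊆ O := sdiff_subset

theorem sdiff_supp {F : Subgroup G} {O : Finset Ω} {p : Ω} :
    O \ supp F O p = bigO (F ⊓ stabilizer G p) O := Finset.sdiff_sdiff_eq_self bigO_sub

/-- supports are carried along -/
theorem supp_conj {F F' : Subgroup G} {O O' : Finset Ω} {n : G}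
    (hF : ∀ g, g ∈ F ↔ n * g * n⁻¹ ∈ F') (hO : ∀ x, x ∈ O ↔ n • x ∈ O') (p a : Ω) :
    a ∈ supp F O p ↔ n • a ∈ supp F' O' (n • p) := by
  have c1 : O.card ≤ O'.card :=
    card_le_card_of_injOn (fun x => n • x) (fun x hx => (hO x).1 hx) (MulAction.injective n).injOn
  have c2 : O'.card ≤ O.card :=
    card_le_card_of_injOn (fun x => n⁻¹ • x) (fun x hx => (hO _).2 (by simpa using hx))
      (MulAction.injective n⁻¹).injOn
  simp only [supp, mem_sdiff, ← hO]
  refine and_congr_right fun _ => not_congr ⟨fun h => bigO_conj (J := F ⊓ stabilizer G p)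
    (J' := F' ⊓ stabilizer G (n • p)) n
    (fun g hg => ⟨(hF g).1 hg.1, ?_⟩) (fun x => (hO x).1) c2 h, fun h => ?_⟩
  · change (n * g * n⁻¹) • n • p = n • p
    rw [mul_smul, mul_smul, inv_smul_smul, show g • p = p from hg.2]
  · have := bigO_conj (J := F' ⊓ stabilizer G (n • p)) (J' := F ⊓ stabilizer G p) (O' := O) n⁻¹ (fun g hg => ⟨(hF _).2 (by
      simpa [mul_assoc] using hg.1), by
        change (n⁻¹ * g * n⁻¹⁻¹) • p = p
        rw [inv_inv, mul_smul, mul_smul, show g • n • p = n • p from hg.2, inv_smul_smul]⟩)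
      (fun x hx => (hO _).2 (by simpa using hx)) c1 h
    simpa using this

theorem supp_smul {F : Subgroup G} {O : Finset Ω} (hO : InvF F O) {f : G} (hf : f ∈ F) (p a : Ω) :
    a ∈ supp F O p ↔ f • a ∈ supp F O (f • p) :=
  supp_conj (fun g => by
    rw [F.mul_mem_cancel_right (F.inv_mem hf), F.mul_mem_cancel_left hf])
    (fun _ => (hO.iff hf).symm) p a

theorem supp_card {F : Subgroup G} {O D : Finset Ω} {L : ℕ} (hO : InvF F O) (hG : Giant F O)
    (c : 8 * L + 13 ≤ O.card) (hD : InvF F D) (hc : D.card ≤ 2 ^ L) {p : Ω} (hp : p ∈ D) :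
    (supp F O p).card ≤ 4 * L + 6 := (supp_spec hO hG c (fun g hg => hD g hg p hp) hc).1

/-- an algebraic point has a smaller support -/
theorem supp_alg {H F : Subgroup G} {O D : Finset Ω} {L m : ℕ} (hF : F ≤ H) (hO : InvF F O)
    (hG : Giant F O) (c : 8 * L + 13 ≤ O.card) (c' : m + (4 * L + 6) ≤ O.card) (hD : InvF F D)
    (hc : D.card ≤ 2 ^ L) {w z : Ω} (hw : w ∈ D) (h : AlgPt m H w z) :
    supp F O z ⊆ supp F O w := by
  obtain ⟨s1, s2⟩ := supp_spec hO hG c (fun g hg => hD g hg w hw) hc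
  have k := card_sdiff_of_subset (bigO_sub (J := F ⊓ stabilizer G w) (O := O))
  have k' := card_le_card (bigO_sub (J := F ⊓ stabilizer G w) (O := O))
  have hI : InvF (F ⊓ stabilizer G w) (bigO (F ⊓ stabilizer G w) O) := fun g hg a ha =>
    bigO_conj g (fun u hu => mul_mem (mul_mem hg hu) (inv_mem hg)) (hO g hg.1) le_rfl ha
  have h1 := h _ (inf_le_left.trans hF) _ (by omega) hI
    (giant_iff.2 (s2.mono (le_inf le_rfl inf_le_right) bigO_sub subset_rfl))
  refine sdiff_subset_sdiff subset_rfl fun a ha => mem_bigO.2 ⟨bigO_sub ha, ?_⟩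
  have h2 := card_le_card ((giant_iff.1 h1).sub_orbIn subset_rfl (by omega) ha)
  have h3 : (orbIn (F ⊓ stabilizer G w ⊓ stabilizer G w ⊓ stabilizer G z)
      (bigO (F ⊓ stabilizer G w) O) a).card ≤ (orbIn (F ⊓ stabilizer G z) O a).card :=
    card_le_card fun x hx => by
      obtain ⟨x1, g, g1, g2⟩ := mem_orbIn.1 hx
      exact mem_orbIn.2 ⟨bigO_sub x1, g, ⟨g1.1.1.1, g1.2⟩, g2⟩
  omega

/-- the pointwise stabiliser of the points with support inside `S` is a giant outside `S` -/
theorem supp_fix {F : Subgroup G} [Finite F] {O D S : Finset Ω} {L : ℕ} (hO : InvF F O)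
    (hG : Giant F O) (c : 100 * (L + 1) + S.card ≤ O.card) (hD : InvF F D)
    (hc : D.card ≤ 2 ^ L) :
    GiOn (F ⊓ fixF G (D.filter (fun p => supp F O p ⊆ S))) O (O \ S) := by
  have k := le_card_sdiff S O
  refine full_fix (L := L) hO hG (by omega) ((card_filter_le _ _).trans hc)
    (fun g hg h x hx => ?_) fun p hp => ?_
  · obtain ⟨x1, x2⟩ := mem_filter.1 hx
    refine mem_filter.2 ⟨hD g hg x x1, fun a ha => ?_⟩
    have h1 : g⁻¹ • a ∈ supp F O x := (supp_smul hO hg x _).2 (by simpa using ha)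
    have h2 := h _ (mem_inter.2 ⟨x2 h1, supp_sub h1⟩)
    rw [smul_inv_smul] at h2
    exact h2 ▸ x2 h1
  · obtain ⟨x1, x2⟩ := mem_filter.1 hp
    refine Alt3On.mono (supp_spec hO hG (by omega) (fun g hg => hD g hg p x1) hc).2 le_rfl
      subset_rfl ?_
    rw [← sdiff_supp]
    exact sdiff_subset_sdiff subset_rfl x2
end math

section prog
variable {G Ω₀ Ω : Type} [Group G] [DecidableEq G] [MulAction G Ω₀] [DecidableEq Ω₀]
  [MulAction G Ω] [DecidableEq Ω]

/-- the support of `p` -/
def supL (pad : List Unit) (base : List Ω₀) (F : List G) (O : List Ω) (p : Ω) : List Ω :=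
  O.filter (fun a => Nat.ble (2 * (orbL pad (stabL pad base F [p]) O a).length) O.length)

variable {pad : List Unit} {base : List Ω₀}

theorem mem_supL {F : List G} (hf : Faith pad base (gen F)) {O : List Ω} (hO : InvL (gen F) O)
    (hn : O.Nodup) (hp : O.length ≤ pad.length) {p : Ω} (hi : Idx (fixS [p]) (gen F) pad.length)
    {a : Ω} : a ∈ supL pad base F O p ↔ a ∈ supp (gen F) O.toFinset p := by
  have e : gen (stabL pad base F [p]) = gen F ⊓ stabilizer G p := by
    rw [gen_stabL hf (by simpa using hi)]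
    congr 1
    ext g
    simp [mem_fixS]
  have hO' : InvL (gen (stabL pad base F [p])) O := hO.mono (e ▸ inf_le_left)
  rw [supL, List.mem_filter, supp, mem_sdiff, List.mem_toFinset, mem_bigO, Nat.ble_eq]
  refine and_congr_right fun ha => ?_
  have k : (orbIn (gen F ⊓ stabilizer G p) O.toFinset a).card =
      (orbL pad (stabL pad base F [p]) O a).length := by
    rw [← List.toFinset_card_of_nodup (hn.sublist (orbL_sublist _ _ _ _))]
    congr 1
    ext x
    rw [mem_orbIn, List.mem_toFinset, List.mem_toFinset, mem_orbL hO' hp ha, e]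
    exact ⟨fun h => h.2, fun h => ⟨by
      obtain ⟨g, hg, rfl⟩ := h
      exact hO g hg.1 a ha, h⟩⟩
  rw [k, List.toFinset_card_of_nodup hn, List.mem_toFinset]
  simp [ha]

/-- the representatives cover the group -/
theorem meetR_cover {S T : List G} (hf : Faith pad base (gen S)) {O : List Ω}
    (hO : InvL (gen S) O) (hp : O.length ≤ pad.length)
    (hl : (meetR pad base S O T).length ≤ pad.length) {u : G} (hu : u ∈ gen T) :
    ∃ r ∈ meetR pad base S O T, ∃ g ∈ gen S, ∀ x ∈ O, r • g • x = u • x := by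
  obtain ⟨r, hr, -, g, hg, e⟩ := (bfs_cover (V := indBy (gen S) O hO)
    (fun π _ => meetR_test hf hO hp π) hl).2 u hu
  exact ⟨r, hr, g, hg, fun x hx => by rw [e x hx, mul_smul, smul_inv_smul]⟩

theorem meetR_mem {S T : List G} (hf : Faith pad base (gen S)) {O : List Ω}
    (hO : InvL (gen S) O) (hp : O.length ≤ pad.length) {r : G} (hr : r ∈ meetR pad base S O T) :
    r ∈ gen T :=
  (bfs_spec (V := indBy (gen S) O hO) pad (fun π _ => meetR_test hf hO hp π)).2.1 r hr

theorem meetR_length {S T : List G} (hf : Faith pad base (gen S)) {O : List Ω}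
    (hO : InvL (gen S) O) (hp : O.length ≤ pad.length) {m : ℕ}
    (hi : Idx (indBy (gen S) O hO) (gen T) m) : (meetR pad base S O T).length ≤ m :=
  bfs_length pad (fun π _ => meetR_test hf hO hp π) hi

variable {α : Type} [Enc α] [Enc G] [Enc Ω₀] [Enc Ω] [PG G] [PA G Ω₀] [PA G Ω]

@[fun_prop] theorem pt_supL {pad : α → List Unit} {base : α → List Ω₀} {F : α → List G}
    {O : α → List Ω} {p : α → Ω} (h1 : PT pad) (h2 : PT base) (h3 : PT F) (h4 : PT O)
    (h5 : PT p) : PT (fun a => supL (pad a) (base a) (F a) (O a) (p a)) := by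
  unfold supL; fun_prop
end prog

end Pool.Agent.P.MP_f1a348_lc.GX
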