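import Pool.Agent.P.MP_f1a348_lc.GY.LibCert
import Pool.Agent.P.MP_f1a348_lc.GY.LibSh

/-! Graph isomorphism: a second bound for the orbits on affected points. -/

set_option autoImplicit false
set_option linter.unusedSectionVars false

namespace Pool.Agent.P.MP_f1a348_lc.GX

open Pool.Agent.Lib.Helper47 Pool.Agent.P.MP_f1a348_lc.GI Pool.Agent.P.MP_f1a348_lc.TO

variable {G Ω₀ Ω : Type} [Group G] [DecidableEq G] [MulAction G Ω₀] [DecidableEq Ω₀]
  [MulAction G Ω] [DecidableEq Ω]

namespace LC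
variable {x : LX Ω₀ Ω} {H : Subgroup G} {tb : Tab G Ω} {a : List Ω}

/-- if all tuples are joined, the group at an object is a giant on its set -/
theorem Ok.grp_giant (k : Ok x H) (h : TOk x H tb) (c : Con x tb) (ha : a ∈ tups x) :
    Giant (gen (grp (gpd x tb) (false, can x a))) a.toFinset := by
  intro p hp q hq r hr _ _ _
  obtain ⟨a1, a2, a3⟩ := tups_sound ha
  have m := WIELx.cyc_mem hp hq hr
  simp only [List.mem_toFinset] at m
  have hb : a.map (Equiv.swap p q * Equiv.swap p r : Equiv.Perm Ω) ∈ tups x :=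
    k.mem_tups.2 ⟨by rw [List.length_map, a1], fun y hy => by
      obtain ⟨z, hz, rfl⟩ := List.mem_map.1 hy
      exact a2 _ ((m z).2 hz), a3.map (Equiv.injective _)⟩
  obtain ⟨g, g1, g2⟩ := c _ ha _ hb
  refine ⟨g, (k.mem_grp h ha).2 (g1.congr (fun _ => Iff.rfl) (fun y => ?_)),
    fun y hy => List.map_inj_left.1 g2 y (List.mem_toFinset.1 hy)⟩
  constructor
  · intro hy
    obtain ⟨z, hz, rfl⟩ := List.mem_map.1 hy
    exact (m z).2 hz
  · intro hy
    refine List.mem_map.2 ⟨(Equiv.swap p q * Equiv.swap p r : Equiv.Perm Ω)⁻¹ y, (m _).1 ?_, by simp⟩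
    simpa using hy

/-- The orbits of the group of an entry on the affected points shrink by the length of the tuples. -/
theorem Ok.shrink2 (k : Ok x H) (h : TOk x H tb) [Finite H] (c : Con x tb)
    (h5 : 5 ≤ x.2.2.2.2.length) {e : List Ω × List Ω × G × List G} (he : e ∈ tb) {w : Ω}
    (hw : w ∈ affL x tb false e.1) :
    (orb (gen e.2.2.2) x.2.2.2.1.toFinset w).card * x.2.2.2.2.length ≤
      (orb H x.2.2.2.1.toFinset w).card := by
  have ha := (h e he).1
  obtain ⟨a1, a2, a3⟩ := tups_sound ha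
  obtain ⟨w1, w2⟩ := mem_affL.1 hw
  have l := k.grp_le (s := false) h ha
  have : Finite (gen (grp (gpd x tb) (false, can x e.1))) :=
    Finite.of_injective _ (Subgroup.inclusion_injective l)
  have hD : InvF H x.2.2.2.1.toFinset := fun g hg y hy =>
    List.mem_toFinset.2 (k.d g hg y (List.mem_toFinset.1 hy))
  have hc : e.1.toFinset.card = x.2.2.2.2.length := by rw [List.toFinset_card_of_nodup a3, a1]
  have := kernel_shrink (N := gen e.2.2.2) (O := e.1.toFinset) (fun g hg y hy =>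
    List.mem_toFinset.2 ((h.ar_iff ((k.mem_grp h ha).1 hg) ha ha y).1 (List.mem_toFinset.1 hy)))
    (k.grp_giant h c ha) (hc ▸ h5) (hD.mono l) (List.mem_toFinset.2 w1)
    (fun g => w2 ((k.unB_iff h ha w1).2 g)) (fun g hg => (k.mem_grp h ha).2 (h.ar_loop he hg))
    (fun g hg y hy => (h.grp_le he hg).2 y (List.mem_toFinset.1 hy))
  rw [hc] at this
  exact this.trans (Finset.card_le_card (orb_mono hD l (List.mem_toFinset.2 w1)))

end LC

/-- the second bound in the full case -/
theorem alg_shrink2 {G Y : Type} [Group G] [MulAction G Y] [DecidableEq Y] {H0 H N : Subgroup G}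
    [Finite H0] {O D : Finset Y} {m : ℕ} (hm : 5 ≤ m) (hc : m ≤ O.card) (hH : H ≤ H0)
    (hO : InvF H O) (hG : Giant H O) (hD : InvF H0 D) {w u : Y} (hw : w ∈ D) (hu : u ∈ O)
    (ha : AlgPt m H0 w u) (hN : N ≤ H) (hf : ∀ g ∈ N, ∀ x ∈ O, g • x = x) :
    (orb N D w).card * O.card ≤ (orb H0 D w).card := by
  simpa using alg_shrink (t := 1) (s := 1) hm hc hH hO hG hD hw hu ha hN hf le_rfl le_rfl |>.trans'
    (by rw [Nat.sub_add_cancel (by omega)])

/-- two bounds give the square root -/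
theorem sqrt_shrink {a b o t s : ℕ} (h0 : 0 < s) (h1 : 2 * s ≤ t) (h2 : 4 * t ≤ o)
    (h3 : a * (o - t + 1) ≤ b * s) (h4 : a * t ≤ b) : a * Nat.sqrt o ≤ b := by
  rcases le_or_gt (Nat.sqrt o) t with c | c
  · exact (Nat.mul_le_mul_left _ c).trans h4
  have e1 := Nat.sqrt_le o
  have e2 : Nat.sqrt o * (2 * s) ≤ Nat.sqrt o * Nat.sqrt o := Nat.mul_le_mul_left _ (by omega)
  have e3 : Nat.sqrt o * s ≤ o - t + 1 := by
    rw [← mul_assoc, mul_comm _ 2, mul_assoc] at e2
    omega
  refine Nat.le_of_mul_le_mul_right (le_trans ?_ h3) h0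
  rw [mul_assoc]
  exact Nat.mul_le_mul_left _ e3

end Pool.Agent.P.MP_f1a348_lc.GX
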