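import Pool.Agent.P.MP_f1a348_lc.GY.DefsZ
import Pool.Agent.P.MP_f1a348_lc.GX.TSYS
import Pool.Agent.P.MP_f1a348_lc.GX.TGOOD

/-! Graph isomorphism: a batch of cheap steps, for an abstract family of systems. -/

set_option autoImplicit false
set_option linter.unusedSectionVars false

namespace Pool.Agent.P.MP_f1a348_lc.GX

open Equiv Finset
open scoped Classical

variable {Y : Type} [DecidableEq Y]

/-- the set `B` is smaller than `A` by a fixed factor -/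
def Drp (A B : Finset Y) : Prop := lg B.card + 1 / 12289 ≤ lg A.card

/-- an expensive list of pins: all classes inside `A` get a better record -/
def Sy.XPin (Γ : Sy Y) (N1 τ : ℕ) (σ b : ℝ) (Z A : Finset Y) (ν : ℝ) : Prop :=
  ∃ (C P : Finset Y) (d : ℕ), Γ.Cls C ∧ C ⊆ Z ∧ P ⊆ C ∧ P.card ≤ 2 * d ∧ 1 ≤ d ∧ d ≤ τ ∧
    b ≤ σ * (1 + min (d : ℝ) (lg C.card)) ∧
    ∀ Γ' : Sy Y, (Γ.pin P).Ref Γ' → 3 ≤ Γ'.M → ∀ A' ⊆ A, Γ'.Cls A' →
      Γ'.GoodZ N1 Z A' (ν - 1 - min (d : ℝ) (lg C.card))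

/-- an expensive quotient -/
def Sy.XQuo (Γ : Sy Y) (N1 : ℕ) (σ b : ℝ) (Z A : Finset Y) (ν : ℝ) : Prop :=
  ∃ (C : Finset Y) (prs : List (Y × Y)), Γ.Cls C ∧ C ⊆ Z ∧ C.card ≤ N1 ∧
    (∀ p ∈ prs, p.1 ∈ C ∧ p.2 ∈ C) ∧ 2 ^ prs.length ≤ C.card ∧ b ≤ σ * (1 + prs.length) ∧
    ∀ (Γ' : Sy Y) (bl : Y → Y), Γ.Blk Γ' C prs bl →
      Γ'.GoodZ N1 (C.image bl) A (ν - 1 - prs.length)

/-- the outcomes that end a batch -/
def Sy.Term (Γ : Sy Y) (N1 τ t0 : ℕ) (σ b : ℝ) (Z A : Finset Y) (ν : ℝ) : Prop :=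
  Γ.Equi A ∨ Γ.OKillZ t0 A ∨ Γ.OJohn t0 A ∨ Γ.XPin N1 τ σ b Z A ν ∨ Γ.XQuo N1 σ b Z A ν

/-- A family of systems with a batch: `B c v Z` says that the batch wins at `v` with the named set
`Z` after `c` bits are spent, `E c v` says the same for the end of the batch. -/
structure Arena {V : Type} (sy : V → Sy Y) (ok : V → Prop) (le : V → V → Prop)
    (Un : V → Finset Y → Prop) (B : ℕ → V → Finset Y → Prop) (E : ℕ → V → Prop)
    (N1 τ m cap : ℕ) : Prop where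
  lev : ∀ v, ok v → 2 * τ + 4 ≤ (sy v).M
  refl : ∀ v, le v v
  trans : ∀ v v' v'', le v v' → le v' v'' → le v v''
  ref : ∀ v v', ok v → ok v' → le v v' → (sy v).Ref (sy v')
  un : ∀ v v' Z, ok v → ok v' → le v v' → Un v Z → Un v' Z
  stop : ∀ c v Z, ok v → c ≤ cap → E c v → B c v Z
  pin : ∀ c v Z (C Q : Finset Y) (d : ℕ), ok v → Un v Z → Z.card ≤ m → (sy v).Cls C → C ⊆ Z →
    Q ⊆ C → Q.card ≤ 2 * d → 1 ≤ d → d ≤ τ →
    ∃ k : ℕ, (k : ℝ) ≤ 2 ^ 11 * (lg m * (1 + min (d : ℝ) (lg C.card))) ∧ (c + k ≤ cap →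
      (∀ v', ok v' → le v v' → ((sy v).pin Q).Ref (sy v') → B (c + k) v' Z) → B c v Z)
  quo : ∀ c v Z (C : Finset Y) (prs : List (Y × Y)), ok v → Un v Z → Z.card ≤ m → (sy v).Cls C →
    C ⊆ Z → C.card ≤ N1 → (∀ p ∈ prs, p.1 ∈ C ∧ p.2 ∈ C) → 2 ^ prs.length ≤ C.card →
    ∃ k : ℕ, (k : ℝ) ≤ 2 ^ 11 * (lg m * (1 + prs.length)) ∧ (c + k ≤ cap →
      (∀ v' b, ok v' → le v v' → (sy v).Blk (sy v') C prs b → Un v' (C.image b) →
        B (c + k) v' (C.image b)) → B c v Z)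

namespace LOOPx

theorem lg_pow (n k : ℕ) : lg (n ^ k) = k * lg n := by simp [lg, Real.logb_pow]

theorem drp34 {A B : Finset Y} (h : B.Nonempty) (e : 4 * B.card ≤ 3 * A.card) : Drp A B := by
  have h0 := card_pos.2 h
  have h1 : B.card ^ 3 * 2 ≤ A.card ^ 3 := by
    have h2 : (4 * B.card) ^ 3 ≤ (3 * A.card) ^ 3 := Nat.pow_le_pow_left e 3
    rw [mul_pow, mul_pow] at h2
    omega
  have h2 := lg_mono h1
  rw [lg_mul (by positivity) two_pos, lg_pow, lg_pow, show lg 2 = 1 by simp [lg]] at h2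
  unfold Drp
  push_cast at h2
  linarith

theorem drp_mono {A B B' : Finset Y} (h : Drp A B) (e : B' ⊆ B) : Drp A B' := by
  have := lg_mono (card_le_card e)
  unfold Drp at *
  linarith

theorem uniq {Γ : Sy Y} {A B B' : Finset Y} (h : Γ.Cls B) (h' : Γ.Cls B') (s : B ⊆ A)
    (s' : B' ⊆ A) (n : ¬ Drp A B) (n' : ¬ Drp A B') : B = B' := by
  by_contra e
  have hd : Disjoint B B' := disjoint_left.2 fun y hy hy' =>
    e ((h.eq_cls hy).trans (h'.eq_cls hy').symm)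
  have := card_le_card (union_subset s s')
  rw [card_union_of_disjoint hd] at this
  have a1 := mt (drp34 (A := A) h.1) n
  have a2 := mt (drp34 (A := A) h'.1) n'
  omega

theorem two {A B : Finset Y} (h : 2 ≤ A.card) (n : ¬ Drp A B) : 2 ≤ B.card := by
  by_contra e
  have a1 := lg_mono (show B.card ≤ 1 by omega)
  have a2 := lg_mono h
  rw [show lg 1 = 0 by simp [lg]] at a1
  rw [show lg 2 = 1 by simp [lg]] at a2
  exact n (by unfold Drp; linarith)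

theorem mono {Γ Γ' : Sy Y} {N1 : ℕ} {Z F F' : Finset Y} {ν ν' : ℝ} (h : Γ.GoodZ N1 Z F ν)
    (hF : F' ⊆ F) (e : Γ.Ref Γ') (hν : ν ≤ ν') : Γ'.GoodZ N1 Z F' ν' := by
  rcases h with h | ⟨b, β, u, gr, h1, ⟨mem, ρ, X, O, hO, r⟩, h3⟩
  · left
    have := lg_mono (card_le_card hF)
    linarith
  · refine Or.inr ⟨b, β, u, gr, h1, ⟨mem, ρ, X, O, hO, e.inv2 r.imem, e.inv2 r.irho, e.inv1 r.iO,
      r.cO, r.gra.mono r.iO.1 e, r.plain, fun z hz => r.ne z (hF hz),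
      fun z hz => le_trans (card_le_card ?_) (r.le z (hF hz)),
      fun z hz z' hz' => r.disj z (hF hz) z' (hF hz'),
      fun z hz z' hz' => r.sep z (hF hz) z' (hF hz')⟩, h3.trans hν⟩
    intro y hy
    have h2 := (mem_filter.1 hy).2
    exact mem_filter.2 ⟨(r.imem.1 z y h2).2, h2⟩

/-- a class that has not dropped lies in the class that had not dropped -/
theorem inside {Γ Γ' : Sy Y} (r : Γ.Ref Γ') {A B B' : Finset Y} (hA : Γ.Inv1 A) (h : Γ.Cls B)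
    (s : B ⊆ A) (n : ¬ Drp A B) (h' : Γ'.Cls B') (s' : B' ⊆ A) (n' : ¬ Drp A B') : B' ⊆ B := by
  obtain ⟨u, hu⟩ := h'.1
  have uD := hA.1 (s' hu)
  have a1 : B' ⊆ Γ.cls u := fun y hy => Sy.mem_cls.2 (r.e1 uD (h'.2.2 u hu y hy))
  rw [uniq h (Sy.cls_cls uD) s (hA.cls_sub (s' hu)) n fun k => n' (drp_mono k a1)]
  exact a1

end LOOPx

open LOOPx in
/-- the loop -/
theorem Arena.loop {V : Type} {sy : V → Sy Y} {ok : V → Prop} {le : V → V → Prop}
    {Un : V → Finset Y → Prop} {B : ℕ → V → Finset Y → Prop} {E : ℕ → V → Prop}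
    {N1 τ t0 m L : ℕ} (ar : Arena sy ok le Un B E N1 τ m (2 ^ 13 * (L + 1)))
    (hm : m ≤ 2 ^ L) {v0 : V} (k0 : ok v0) {A : Finset Y} (hA : (sy v0).Cls A) (h2 : 2 ≤ A.card)
    (ham : A.card ≤ m)
    (step : ∀ v, ok v → ∀ A' ⊆ A, (sy v).Cls A' → 2 ≤ A'.card → ∀ Z ν, (sy v).GoodZ N1 Z A' ν →
      (12289 * lg A'.card ≤ ν → A' ⊆ Z) → (sy v).OutZ N1 τ t0 Z A' ν)
    {ν0 : ℝ} (hν : ν0 ≤ 12289 * lg A.card) {Z0 : Finset Y} (u0 : Un v0 Z0) (z0 : Z0.card ≤ m)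
    (g0 : (sy v0).GoodZ N1 Z0 A ν0)
    (t0' : 12289 * lg A.card ≤ ν0 → A ⊆ Z0 ∧ ¬ (t0 ≤ A.card ∧ (sy v0).Tr A τ))
    (hE : ∀ c v, ok v → le v0 v → c ≤ 2 ^ 13 * (L + 1) →
      (∀ A' ⊆ A, (sy v).Cls A' → ¬ Drp A A' → ∃ (Z : Finset Y) (G : ℝ), Un v Z ∧ Z.card ≤ m ∧
        (sy v).GoodZ N1 Z A' (ν0 - G) ∧ (L : ℝ) + 1 ≤ lg m * G) → E c v)
    (hT : ∀ c v Z ν, ok v → le v0 v → c ≤ 2 ^ 13 * (L + 1) → Un v Z → Z.card ≤ m → ν ≤ ν0 →
      ∀ A' ⊆ A, (sy v).Cls A' → ¬ Drp A A' → (sy v).GoodZ N1 Z A' ν →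
      (sy v).Term N1 τ t0 (lg m) (L + 1) Z A' ν → E c v) : B 0 v0 Z0 := by
  have s1 : 1 ≤ lg m := by
    have := lg_mono (h2.trans ham)
    rwa [show lg 2 = 1 by simp [lg]] at this
  have sL : lg m ≤ L := by
    have := lg_mono hm
    rwa [lg_pow, show lg 2 = 1 by simp [lg], mul_one] at this
  have cap : ∀ (c : ℕ) (G : ℝ), (c : ℝ) ≤ 2 ^ 11 * (lg m * G) → lg m * G ≤ 3 * (L + 1) →
      c ≤ 2 ^ 13 * (L + 1) := fun c G a b => by
    have : (c : ℝ) ≤ ((2 ^ 13 * (L + 1) : ℕ) : ℝ) := by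
      push_cast
      have : (0 : ℝ) ≤ L := Nat.cast_nonneg _
      linarith
    exact_mod_cast this
  have main : ∀ (N : ℕ) (c : ℕ) (v : V) (Z : Finset Y) (G : ℝ), (L : ℝ) + 1 ≤ lg m * G + N →
      ok v → le v0 v → Un v Z → Z.card ≤ m → (c : ℝ) ≤ 2 ^ 11 * (lg m * G) → 0 ≤ G →
      lg m * G ≤ 3 * (L + 1) →
      (∀ A' ⊆ A, (sy v).Cls A' → ¬ Drp A A' → (sy v).GoodZ N1 Z A' (ν0 - G) ∧
        (12289 * lg A'.card ≤ ν0 - G → A' ⊆ Z ∧ ¬ (t0 ≤ A'.card ∧ (sy v).Tr A' τ))) →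
      B c v Z := by
    intro N
    induction N with
    | zero =>
      intro c v Z G a0 k l u z a1 _ a3 inv
      exact ar.stop c v Z k (cap c G a1 a3) (hE c v k l (cap c G a1 a3) fun A' s h n =>
        ⟨Z, G, u, z, (inv A' s h n).1, by simpa using a0⟩)
    | succ N ih =>
      intro c v Z G a0 k l u z a1 a2 a3 inv
      have hc := cap c G a1 a3
      by_cases e2 : (L : ℝ) + 1 ≤ lg m * G
      · exact ar.stop c v Z k hc (hE c v k l hc fun A' s h n => ⟨Z, G, u, z, (inv A' s h n).1, e2⟩)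
      by_cases e1 : ∃ A' ⊆ A, (sy v).Cls A' ∧ ¬ Drp A A'
      swap
      · exact ar.stop c v Z k hc (hE c v k l hc fun A' s h n => absurd ⟨A', s, h, n⟩ e1)
      obtain ⟨A', s, h, n⟩ := e1
      obtain ⟨g, tr⟩ := inv A' s h n
      have iA : (sy v).Inv1 A := (ar.ref v0 v k0 k l).inv1 hA.2.1
      have term : (sy v).Term N1 τ t0 (lg m) (L + 1) Z A' (ν0 - G) → B c v Z := fun t =>
        ar.stop c v Z k hc (hT c v Z _ k l hc u z (by linarith) A' s h n g t)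
      have next : ∀ (c' : ℕ) (v' : V) (Z' : Finset Y) (γ : ℝ), 1 ≤ γ → ok v' → le v v' →
          Un v' Z' → Z'.card ≤ m → (c' : ℝ) ≤ 2 ^ 11 * (lg m * (G + γ)) →
          lg m * γ ≤ 2 * (L + 1) →
          (∀ A'' ⊆ A', (sy v').Cls A'' → ¬ Drp A A'' → (sy v').GoodZ N1 Z' A'' (ν0 - G - γ)) →
          B c' v' Z' := by
        intro c' v' Z' γ b1 k' l' u' z' b2 b3 b4
        have b5 : 1 ≤ lg m * γ := one_le_mul_of_one_le_of_one_le s1 b1
        refine ih c' v' Z' (G + γ) (by push_cast at a0; rw [mul_add]; linarith) k'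
          (ar.trans _ _ _ l l') u' z' b2 (by linarith) (by rw [mul_add]; linarith)
          fun A'' s' h' n' => ⟨?_, fun t => ?_⟩
        · rw [← sub_sub]
          exact b4 A'' (inside (ar.ref v v' k k' l') iA h s n h' s' n') h' n'
        · exact absurd (show Drp A A'' by unfold Drp; linarith) n'
      rcases step v k A' s h (two h2 n) Z _ g (fun t => (tr t).1) with
        o | o | o | o | o | o | ⟨o1, o2, o3⟩
      · refine next c v Z 1 le_rfl k (ar.refl v) u z (a1.trans ?_) (by linarith)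
          fun A'' s' _ _ => mono o s' Sy.Ref.refl le_rfl
        rw [mul_add]
        linarith
      · obtain ⟨C, Q, d, c1, c2, c3, c4, c5, c6, c7⟩ := o
        have m0 : 0 ≤ min (d : ℝ) (lg C.card) := le_min (Nat.cast_nonneg d) (lg_nonneg _)
        by_cases ex : d ≠ 1 ∧ (L : ℝ) + 1 ≤ lg m * (1 + min (d : ℝ) (lg C.card))
        · exact term (.inr (.inr (.inr (.inl ⟨C, Q, d, c1, c2, c3, c4, c5, c6, ex.2,
            fun Γ' r hM A'' s' h' => (c7 Γ' r hM A'' s' h').resolve_right fun e => ex.1 e.1⟩))))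
        have ch : lg m * (1 + min (d : ℝ) (lg C.card)) ≤ 2 * (L + 1) := by
          by_cases e : d = 1
          · have : min (d : ℝ) (lg C.card) ≤ 1 := (min_le_left _ _).trans (by simp [e])
            nlinarith
          · have := not_le.1 fun t => ex ⟨e, t⟩
            linarith
        obtain ⟨j, j1, j2⟩ := ar.pin c v Z C Q d k u z c1 c2 c3 c4 c5 c6
        have j3 : ((c + j : ℕ) : ℝ) ≤
            2 ^ 11 * (lg m * (G + (1 + min (d : ℝ) (lg C.card)))) := by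
          push_cast
          rw [mul_add (lg m)]
          linarith
        have j4 := cap _ _ j3 (by rw [mul_add]; linarith)
        refine j2 j4 fun v' k' l' r => ?_
        have hM : 3 ≤ (sy v').M := by have := ar.lev v' k'; omega
        have u' := ar.un v v' Z k k' l' u
        by_cases eq : ∃ A'' ⊆ A', (sy v').Cls A'' ∧ ¬ Drp A A'' ∧ (sy v').Equi A''
        · obtain ⟨A'', s', h', n', e⟩ := eq
          exact ar.stop _ v' Z k' j4 (hT _ v' Z (ν0 - G) k' (ar.trans _ _ _ l l') j4 u' z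
            (by linarith) A'' (s'.trans s) h' n' (mono g s' (ar.ref v v' k k' l') le_rfl) (.inl e))
        refine next _ v' Z _ (by linarith) k' l' u' z j3 ch fun A'' s' h' n' => ?_
        rcases c7 _ r hM A'' s' h' with e | ⟨-, e | ⟨-, e⟩⟩
        · rwa [← sub_sub]
        · exact absurd (drp34 h'.1 (e.trans (Nat.mul_le_mul_left _ (card_le_card s)))) n'
        · exact absurd ⟨A'', s', h', n', e⟩ eq
      · obtain ⟨C, prs, c1, c2, c3, c4, c5, c6⟩ := o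
        have m0 : (0 : ℝ) ≤ prs.length := Nat.cast_nonneg _
        by_cases ex : (L : ℝ) + 1 ≤ lg m * (1 + prs.length)
        · exact term (.inr (.inr (.inr (.inr ⟨C, prs, c1, c2, c3, c4, c5, ex, c6⟩))))
        obtain ⟨j, j1, j2⟩ := ar.quo c v Z C prs k u z c1 c2 c3 c4 c5
        have j3 : ((c + j : ℕ) : ℝ) ≤ 2 ^ 11 * (lg m * (G + (1 + prs.length))) := by
          push_cast
          rw [mul_add (lg m)]
          linarith
        have j4 := cap _ _ j3 (by rw [mul_add]; linarith)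
        refine j2 j4 fun v' b k' l' r u' => ?_
        refine next _ v' _ _ (by linarith) k' l' u'
          (card_image_le.trans ((card_le_card c2).trans z)) j3 (by linarith) fun A'' s' _ _ => ?_
        rw [← sub_sub]
        exact mono (c6 _ b r) s' Sy.Ref.refl le_rfl
      · exact term (.inl o)
      · exact term (.inr (.inl o))
      · exact term (.inr (.inr (.inl o)))
      · exact absurd ⟨o1, o2⟩ (tr o3).2
  refine main (L + 1) 0 v0 Z0 0 (by simp) k0 (ar.refl v0) u0 z0 (by simp) le_rfl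
    (by rw [mul_zero]; positivity) fun A' s h n => ?_
  obtain ⟨u, hu⟩ := h.1
  obtain rfl : A' = A := (h.eq_cls hu).trans (hA.eq_cls (s hu)).symm
  rw [sub_zero]
  exact ⟨g0, t0'⟩

end Pool.Agent.P.MP_f1a348_lc.GX
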