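import Pool.Agent.P.MP_f1a348_lc.GY.DefsF
import Pool.Agent.P.MP_f1a348_lc.GX.THH
import Pool.Agent.P.MP_f1a348_lc.GY.TVGOOD
import Pool.Agent.P.MP_f1a348_lc.GY.TVALG
import Pool.Agent.P.MP_f1a348_lc.GY.TZG
import Pool.Agent.P.MP_f1a348_lc.GY.TLV

/-! Graph isomorphism: the parameters for graphs on `n` vertices and the first potential. -/

set_option autoImplicit false
set_option linter.unusedSectionVars false

namespace Pool.Agent.P.MP_f1a348_lc.GX

open Finset MulAction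

/-- the length of `n` -/
def lgn (n : ℕ) : ℕ := Nat.log 2 n + 1

/-- the parameters for `n` vertices and the level `M` -/
def pmOf (n M : ℕ) : Pm := ⟨400 * lgn n, n, M, M - 6⟩

/-- the constant of the level -/
def cL : ℕ := 8388608

/-- the level for `n` vertices -/
def lev0 (n : ℕ) : ℕ := lvl cL n

/-- the potential at the start -/
noncomputable def phi0 (P : Pm) (n : ℕ) : ℝ := 2 * P.LV n n (12289 * lg n) (12289 * lg n)

theorem lgn_pos (n : ℕ) : 1 ≤ lgn n := Nat.le_add_left _ _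

theorem lt_pow_lgn (n : ℕ) : n < 2 ^ lgn n := Nat.lt_pow_succ_log_self (by norm_num) n

theorem pow_lgn_le (n : ℕ) : 2 ^ lgn n ≤ (n + 2) ^ 2 := by
  rcases Nat.eq_zero_or_pos n with rfl | hn
  · simp [lgn]
  · have := Nat.pow_log_le_self 2 hn.ne'
    rw [lgn, pow_succ]
    nlinarith

theorem lvl_eq (n : ℕ) : lev0 n = 8388608 * lgn n + 4 := rfl

theorem lg_le_of_le_pow {x k : ℕ} (h : x ≤ 2 ^ k) : lg x ≤ k := by
  refine (lg_mono h).trans (le_of_eq ?_)
  unfold lg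
  rw [Nat.cast_pow, Real.logb_pow]
  simp

theorem pmOf_ok (n : ℕ) : (pmOf n (lev0 n)).Ok := by
  have h1 := lgn_pos n
  refine ⟨?_, ?_, ?_, ?_⟩
  · simp only [pmOf, Pm.tau, Pm.t, Pm.s, lvl_eq]; omega
  · simp only [pmOf, lvl_eq]; omega
  · simp only [pmOf, lvl_eq]; omega
  · exact (lt_pow_lgn n).le.trans (Nat.pow_le_pow_right (by norm_num) (by simp only [pmOf]; omega))

theorem phi0_le (n : ℕ) :
    phi0 (pmOf n (lev0 n)) n + 2 ≤ (pmOf n (lev0 n)).mm := by
  have h1 := lgn_pos n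
  have a1 : lg n ≤ lgn n := lg_le_of_le_pow (lt_pow_lgn n).le
  have a2 := Pm.LV_init (P := pmOf n (lev0 n)) (a := n) (pmOf_ok n).n1
  have e : ((pmOf n (lev0 n)).mm : ℝ) = 8388608 * lgn n - 2 := by
    have : (pmOf n (lev0 n)).mm + 2 = 8388608 * lgn n := by
      simp only [pmOf, lvl_eq]; omega
    have := congrArg (Nat.cast : ℕ → ℝ) this
    push_cast at this
    linarith
  have b1 : (1 : ℝ) ≤ lgn n := by exact_mod_cast h1
  rw [e, phi0]
  linarith

theorem phi0_nonneg (P : Pm) (n : ℕ) : 0 ≤ phi0 P n := by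
  have h := lg_nonneg n
  have := Pm.LV_nonneg (P := P) (a := n) (m := n) (n1 := 12289 * lg n) (n2 := 12289 * lg n)
    (by linarith) (by linarith)
  unfold phi0; linarith

/-- the fuel at the start -/
def fuel0 (n M : ℕ) : ℕ := (pmOf n M).unit * M

theorem fuel0_ge (n : ℕ) : (pmOf n (lev0 n)).unit *
    (phi0 (pmOf n (lev0 n)) n + 1) ≤ (fuel0 n (lev0 n) : ℝ) := by
  have h1 := phi0_le n
  have h2 : ((pmOf n (lev0 n)).mm : ℝ) ≤ lev0 n := by
    exact_mod_cast Nat.sub_le _ 6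
  rw [fuel0, Nat.cast_mul]
  exact mul_le_mul_of_nonneg_left (by linarith) (Nat.cast_nonneg _)

theorem fuel0_le (n : ℕ) : fuel0 n (lev0 n) ≤ 2 ^ (103 + 3 * lgn n) := by
  have h1 := lgn_pos n
  have h2 : lgn n < 2 ^ lgn n := Nat.lt_two_pow_self
  have h5 : 2 ^ lgn n ≤ 2 ^ lgn n * 2 ^ lgn n := Nat.le_mul_self _
  have a1 : (pmOf n (lev0 n)).unit ≤ 2 ^ 79 * 2 ^ lgn n := by
    simp only [Pm.unit, pmOf]; omega
  have a2 : lev0 n ≤ 2 ^ 24 * (2 ^ lgn n * 2 ^ lgn n) := by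
    rw [lvl_eq]; omega
  refine (Nat.mul_le_mul a1 a2).trans (le_of_eq ?_)
  ring

/-- cubes of the fuel and of the number of vertices fit into the bound for the sets -/
theorem fuel0_cube (n : ℕ) :
    (fuel0 n (lev0 n) + 2 ^ 20) ^ 3 * (n + 2) ^ 4 ≤ 2 ^ (pmOf n (lev0 n)).lam := by
  have h1 := lgn_pos n
  have h2 := fuel0_le n
  have h3 : 2 ^ 20 ≤ 2 ^ (103 + 3 * lgn n) := Nat.pow_le_pow_right (by norm_num) (by omega)
  have h4 : fuel0 n (lev0 n) + 2 ^ 20 ≤ 2 ^ (104 + 3 * lgn n) := by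
    rw [show 104 + 3 * lgn n = 103 + 3 * lgn n + 1 by omega, pow_succ]; omega
  have h5 : n + 2 ≤ 2 ^ (lgn n + 1) := by
    have := lt_pow_lgn n
    rw [pow_succ]; omega
  refine (Nat.mul_le_mul (Nat.pow_le_pow_left h4 3) (Nat.pow_le_pow_left h5 4)).trans ?_
  rw [← pow_mul, ← pow_mul, ← pow_add]
  exact Nat.pow_le_pow_right (by norm_num) (by simp only [pmOf]; omega)

/-- powers of two with the exponent `a (lam + 1) (M + 1)` fit into the budget -/
theorem pow_budget (a n M x : ℕ) (h : x ≤ a * ((pmOf n M).lam + 1) * (M + 1)) :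
    2 ^ x ≤ (n + 2) ^ (802 * a * (M + 1)) := by
  have h1 := lgn_pos n
  have h2 : x ≤ lgn n * (401 * a * (M + 1)) := h.trans (by
    have : (pmOf n M).lam + 1 ≤ 401 * lgn n := by simp only [pmOf]; omega
    calc a * ((pmOf n M).lam + 1) * (M + 1) ≤ a * (401 * lgn n) * (M + 1) := by gcongr
      _ = _ := by ring)
  calc 2 ^ x ≤ (2 ^ lgn n) ^ (401 * a * (M + 1)) := by
        rw [← pow_mul]; exact Nat.pow_le_pow_right (by norm_num) h2
    _ ≤ ((n + 2) ^ 2) ^ (401 * a * (M + 1)) := Nat.pow_le_pow_left (pow_lgn_le n) _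
    _ = _ := by rw [← pow_mul]; congr 1; ring

variable {G Y : Type} [Group G] [MulAction G Y] [DecidableEq Y] {P : Pm} {v : Vw G Y}

/-- a point that is a pair of points with small orbits -/
theorem pt_start (a : v.Ok P) {n : ℕ} (hn : n ≤ P.N1) {w x y : Y} (hx : x ∈ v.D) (hy : y ∈ v.D)
    (cx : (v.o x).card ≤ n) (cy : (v.o y).card ≤ n)
    (h : ∀ g ∈ v.H, g • w = w ↔ g • x = x ∧ g • y = y) : v.Pt P w (phi0 P n) := by
  have c2 : (orb (v.H ⊓ stabilizer G x) v.D y).card ≤ n :=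
    (card_le_card (orb_mono a.inv inf_le_left hy)).trans cy
  refine ⟨[x, y], ⟨hx, n, _, _, cx, hn, Sy.goodP_triv cx,
    Sy.goodP_triv ((card_le_card inter_subset_left).trans cx), hy, n, _, _, c2, hn,
    Sy.goodP_triv c2, Sy.goodP_triv ((card_le_card inter_subset_left).trans c2), ?_⟩,
    fun g hg => ?_, fun z hz => algPt_of_le fun g hg => ?_⟩
  · have h1 := Pm.LV_mono (P := P) (m := n) cx (le_refl (12289 * lg n)) (le_refl (12289 * lg n))
    have h2 := Pm.LV_mono (P := P) (m := n) c2 (le_refl (12289 * lg n)) (le_refl (12289 * lg n))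
    change 0 ≤ _
    unfold phi0 Vw.o at *
    linarith
  · have h1 := mem_fixF.1 hg.2
    exact (h g hg.1).2 ⟨h1 x (by simp), h1 y (by simp)⟩
  · have h1 := (h g hg.1).1 hg.2
    rcases (by simpa using hz : z = x ∨ z = y) with rfl | rfl
    · exact h1.1
    · exact h1.2

end Pool.Agent.P.MP_f1a348_lc.GX
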