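import Pool.Agent.P.MP_f1a348_lc.GY.TPSIZE
import Pool.Agent.P.MP_f1a348_lc.GY.TPCOL
import Pool.Agent.P.MP_f1a348_lc.GY.TPLAB
import Pool.Agent.P.MP_f1a348_lc.GY.LibShr3
import Pool.Agent.P.MP_f1a348_lc.GX.LibTrB

/-! Graph isomorphism: the states with the labels of a table of local certificates. -/

set_option autoImplicit false
set_option linter.unusedSectionVars false

namespace Pool.Agent.P.MP_f1a348_lc.GX

open Pool.Agent.Lib.Helper47 Pool.Agent.P.MP_f1a348_lc.GI Pool.Agent.P.MP_f1a348_lc.TO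

/-- the label `0` on the points of `O` -/
def mark (O : List Tm) : List (ℕ × List Tm) := O.map (fun u => (0, [u]))

/-- the table of the answers -/
def newTab (acc : List ((List Tm × List Tm × U × List U) × Ans)) : Tab U Tm :=
  acc.filterMap (fun p => p.2.map (fun c => (p.1.1, p.1.2.1, c)))

namespace Cx
variable (cx : Cx) (s : Sta) (O : List Tm) (tb : Tab U Tm)

/-- the length of the test tuples in unary -/
def ut : List Unit := cx.ul.flatMap (fun _ => List.replicate 100 ()) ++ List.replicate 103 ()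
/-- the degree of transitivity in unary -/
def utau : List Unit :=
  cx.ut ++ (cx.ul.flatMap (fun _ => List.replicate 4 ()) ++ List.replicate 6 ())
/-- the parameters of the tables -/
def lx : LX ℕ Tm := (cx.pad, cx.base, O, s.D, cx.ut)
/-- the state with the mark on `O` and the labels of the table -/
noncomputable def plus : Sta :=
  (s.lab (mark O) (mark O) 1).lab (LC.labs (cx.lx s O) tb false) (LC.labs (cx.lx s O) tb true)
    ((LC.vts (cx.lx s O)).length + 1)
/-- the state of an entry of the table -/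
noncomputable def sub (e : List Tm × List Tm × U × List U) : Sta :=
  (s.cos e.2.2).act (s.X.filter (fun w => (LC.affL (cx.lx s O) tb false e.1).contains w))
    (s.Y.filter (fun w => (LC.affL (cx.lx s O) tb true e.2.1).contains w))

section pt
variable {α : Type} [Enc α] {c : α → Cx} {s : α → Sta} {O : α → List Tm} {tb : α → Tab U Tm}
@[fun_prop] theorem pt_mark (h : PT O) : PT (fun a => mark (O a)) := by unfold mark; fun_prop
@[fun_prop] theorem pt_newTab {l : α → List ((List Tm × List Tm × U × List U) × Ans)} (h : PT l) :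
    PT (fun a => newTab (l a)) := by unfold newTab; fun_prop
@[fun_prop] theorem pt_ut (h : PT c) : PT (fun a => (c a).ut) := by unfold ut; fun_prop
@[fun_prop] theorem pt_utau (h : PT c) : PT (fun a => (c a).utau) := by unfold utau; fun_prop
@[fun_prop] theorem pt_lx (h0 : PT c) (h1 : PT s) (h2 : PT O) :
    PT (fun a => (c a).lx (s a) (O a)) := by unfold lx; fun_prop
@[fun_prop] theorem pt_plus (h0 : PT c) (h1 : PT s) (h2 : PT O) (h3 : PT tb) :
    PT (fun a => (c a).plus (s a) (O a) (tb a)) := by unfold plus; fun_prop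
@[fun_prop] theorem pt_sub {e : α → List Tm × List Tm × U × List U} (h0 : PT c) (h1 : PT s)
    (h2 : PT O) (h3 : PT tb) (h4 : PT e) :
    PT (fun a => (c a).sub (s a) (O a) (tb a) (e a)) := by unfold sub; fun_prop
end pt

theorem length_ut : cx.ut.length = cx.P.t := by
  simp only [ut, List.length_append, List.length_flatMap, List.length_replicate, List.map_const',
    List.sum_replicate, smul_eq_mul, Pm.t, P, lam]
  omega

theorem length_utau : cx.utau.length = cx.P.tau := by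
  simp only [utau, List.length_append, length_ut, List.length_flatMap, List.length_replicate,
    List.map_const', List.sum_replicate, smul_eq_mul, Pm.tau, Pm.s, P, lam]
  omega

/-- a state with a group, an invariant list of real points and a table -/
structure Rk : Prop where
  wf : cx.WF s
  one : s.σ = 1
  nd : O.Nodup
  od : ∀ u ∈ O, u ∈ s.D
  inv : InvL (gen s.S) O
  ok : LC.TOk (cx.lx s O) (gen s.S) tb
  cpl : ∀ g ∈ s.Tgt, LC.Cpl (cx.lx s O) g tb
  len : ∀ e ∈ tb, e.2.2.2.length ≤ cx.pd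

variable {cx s O tb}

theorem Ok.tau (hc : cx.Ok) : 2 * cx.P.tau + 4 ≤ cx.uM.length ∧ cx.P.t = 100 * cx.lam + 103 ∧
    cx.P.tau = 104 * cx.lam + 109 ∧ cx.P.s = 4 * cx.lam + 6 := by
  refine ⟨hc.p.m1, ?_, ?_, rfl⟩ <;> simp only [Pm.tau, Pm.t, Pm.s, P] <;> omega

theorem WF.olen (h : cx.WF s) (nd : O.Nodup) (od : ∀ u ∈ O, u ∈ s.D) :
    O.length ≤ s.D.length := (List.subperm_of_subset nd od).length_le

theorem WF.lx (hc : cx.Ok) (h : cx.WF s) (nd : O.Nodup) (od : ∀ u ∈ O, u ∈ s.D)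
    (inv : InvL (gen s.S) O) : LC.Ok (cx.lx s O) (gen s.S) where
  f := h.toWF0.faith hc
  o := inv
  d := h.inv
  od := od
  len := by
    have := hc.pow h.dlen.1 (k := 1) (by have := hc.tau; omega)
    rwa [pow_one] at this
  pow := hc.pow ((h.olen nd od).trans h.dlen.1) (by
    have := hc.tau
    change cx.ut.length ≤ _
    rw [length_ut]
    omega)

theorem mem_one (h : s.σ = 1) {g : U} : g ∈ cs (some s.c) ↔ g ∈ gen s.S := by
  change g ∈ cs (some (s.σ, s.S)) ↔ _
  rw [mem_cs, h, inv_one, one_mul]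

/-- the first table -/
theorem rk_zero (hc : cx.Ok) (h : cx.WF s) (one : s.σ = 1) (nd : O.Nodup)
    (od : ∀ u ∈ O, u ∈ s.D) (inv : InvL (gen s.S) O) :
    cx.Rk s O (LC.tab0 (cx.lx s O) s.S) :=
  ⟨h, one, nd, od, inv, (h.lx hc nd od inv).tab0_ok,
    fun _ hg => (h.lx hc nd od inv).tab0_cpl ((mem_one one).1 (s.tgt_sol hg).1),
    fun _ he => LC.tab0_len le_rfl h.len he⟩

theorem Rk.lx (hc : cx.Ok) (h : cx.Rk s O tb) : LC.Ok (cx.lx s O) (gen s.S) :=
  h.wf.lx hc h.nd h.od h.inv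

theorem Rk.dB (h : cx.Rk s O tb) {x : Tm} (hx : x ∈ s.D) : x ∈ s.B.1 := by
  have := h.wf.b.real x hx
  rwa [h.one, one_smul] at this

theorem mem_mark {c : ℕ} {l : List Tm} : (c, l) ∈ mark O ↔ c = 0 ∧ ∃ u ∈ O, l = [u] := by
  simp only [mark, List.mem_map, Prod.mk.injEq]
  exact ⟨fun ⟨u, h1, h2, h3⟩ => ⟨h2.symm, u, h1, h3.symm⟩,
    fun ⟨h2, u, h1, h3⟩ => ⟨u, h1, h2.symm, h3.symm⟩⟩

theorem Rk.wf1 (h : cx.Rk s O tb) : cx.WF (s.lab (mark O) (mark O) 1) := by
  refine h.wf.lab (fun e he => ?_) (fun e he => ?_) <;>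
    obtain ⟨e1, u, hu, e2⟩ := mem_mark.1 (show (e.1, e.2) ∈ _ from he) <;>
    refine ⟨by omega, fun x hx => ?_⟩ <;> rw [e2, List.mem_singleton] at hx <;> rw [hx]
  · exact h.wf.toWF0.dA (h.od u hu)
  · exact h.dB (h.od u hu)

theorem Rk.plus_wf (hc : cx.Ok) (h : cx.Rk s O tb) : cx.WF (cx.plus s O tb) :=
  h.wf1.lab (fun _ he => ⟨Nat.lt_succ_of_le ((h.lx hc).labs_spec he).1,
      fun x hx => h.wf.toWF0.dA (((h.lx hc).labs_spec he).2.2 x hx)⟩)
    (fun _ he => ⟨Nat.lt_succ_of_le ((h.lx hc).labs_spec he).1,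
      fun x hx => h.dB (((h.lx hc).labs_spec he).2.2 x hx)⟩)

/-- labels on real points that a solution keeps are kept by its witness -/
theorem wit_labels (h : cx.WF0 s) (one : s.σ = 1) {g : U} {f : Tm → Tm} (w : s.Wit g f)
    {Lx Ly : List (ℕ × List Tm)} (h1 : ∀ e ∈ Lx, ∀ x ∈ e.2, x ∈ s.D)
    (h2 : ∀ e ∈ Ly, ∀ x ∈ e.2, x ∈ s.D)
    (h3 : ∀ c l, (c, l) ∈ Lx ↔ (c, l.map (fun y => g • y)) ∈ Ly) (c : ℕ) (l : List Tm)
    (hl : ∀ x ∈ l, x ∈ s.A.1) : (c, l) ∈ Lx ↔ (c, l.map f) ∈ Ly := by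
  have hg := (mem_one one).1 w.sol.1
  have e : (∀ x ∈ l, x ∈ s.D) → l.map f = l.map (fun y => g • y) := fun d =>
    List.map_congr_left fun x hx => w.eq x (d x hx)
  refine ⟨fun m => e (h1 _ m) ▸ (h3 c l).1 m, fun m => (h3 c l).2 (e (fun x hx => ?_) ▸ m)⟩
  have d := h.inv _ (inv_mem hg) _ (h2 _ m _ (List.mem_map_of_mem hx))
  have := w.iso.bij.injOn (hl x hx) (h.dA d) (by rw [w.eq _ d, smul_inv_smul])
  rwa [this]

theorem Rk.plus_wit (hc : cx.Ok) (h : cx.Rk s O tb) {g : U} {f : Tm → Tm} (w : s.Wit g f) :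
    (cx.plus s O tb).Wit g f := by
  have hg := (mem_one h.one).1 w.sol.1
  have m : ∀ e ∈ mark O, ∀ x ∈ e.2, x ∈ s.D := fun e he x hx => by
    obtain ⟨_, u, hu, e2⟩ := mem_mark.1 (show (e.1, e.2) ∈ _ from he)
    rw [e2, List.mem_singleton] at hx
    exact hx ▸ h.od u hu
  refine h.wf1.toWF0.lab_wit.2 ⟨h.wf.toWF0.lab_wit.2 ⟨w, wit_labels h.wf.toWF0 h.one w m m
    (fun c l => ?_)⟩, wit_labels h.wf.toWF0 h.one w
      (fun _ he => ((h.lx hc).labs_spec he).2.2) (fun _ he => ((h.lx hc).labs_spec he).2.2)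
      ((h.lx hc).labs_conj h.ok hg (h.cpl g ⟨f, w⟩))⟩
  rw [mem_mark, mem_mark]
  refine and_congr_right fun _ => ⟨fun ⟨u, hu, e⟩ => ⟨g • u, h.inv g hg u hu, by simp [e]⟩,
    fun ⟨u, hu, e⟩ => ?_⟩
  obtain ⟨z, rfl, e'⟩ := List.map_eq_singleton_iff.1 e
  exact ⟨z, (h.inv.iff hg).1 (show g • z ∈ O from e'.symm ▸ hu), rfl⟩

theorem Rk.plus_post (hc : cx.Ok) (h : cx.Rk s O tb) {a : Ans} (ha : cx.Post (cx.plus s O tb) a) :
    cx.Post s a :=
  ⟨fun _ ⟨f, w⟩ => ha.lo ⟨f, h.plus_wit hc w⟩, ha.hi, ha.len⟩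

theorem Rk.plus_col (hc : cx.Ok) (h : cx.Rk s O tb) {g : U} (hg : g ∈ s.Tgt) {u : Tm}
    (hu : u ∈ O) :
    cx.col (cx.plus s O tb) true [g • u] = cx.col (cx.plus s O tb) false [u] := by
  obtain ⟨f, w⟩ := hg
  have := (h.plus_wf hc).col_iso hc (h.plus_wit hc w).iso (l := [u]) (fun x hx => by
    rw [List.mem_singleton.1 hx]
    exact h.wf.toWF0.dA (h.od u hu)) (by simp)
  rwa [List.map_singleton, w.eq u (h.od u hu)] at this

theorem Rk.plus_mono (hc : cx.Ok) (h : cx.Rk s O tb) :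
    (cx.view s).Mono (cx.view (cx.plus s O tb)) :=
  (h.wf.toWF0.lab_mono hc _ _ _).trans (h.wf1.toWF0.lab_mono hc _ _ _)

theorem Rk.plus_lab (hc : cx.Ok) (h : cx.Rk s O tb) :
    LC.Lab (cx.lx s O) tb (cx.view (cx.plus s O tb)).Γ := fun _ _ j l hf hl m =>
  (h.wf1.toWF0.lab_rel hf hl ((List.toFinset_card_le l).trans (by
    have := ((h.lx hc).labs_spec m).2.1
    have := hc.tau
    change l.length = cx.ut.length + 1 at *
    rw [length_ut] at *
    omega)) j).1 m

theorem Rk.plus_inv (hc : cx.Ok) (h : cx.Rk s O tb) :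
    (cx.view (cx.plus s O tb)).Γ.Inv1 O.toFinset :=
  (h.wf1.toWF0.lab_mono hc _ _ _).ref.inv1 (h.wf.toWF0.lab_inv1 hc 0
    (fun x hx => h.wf.toWF0.dA (h.od x (List.mem_toFinset.1 hx))) (fun x => by
      simp [mem_mark]))

theorem Rk.tups_le (hc : cx.Ok) (h : cx.Rk s O tb) :
    (LC.tups (cx.lx s O)).length * s.D.length ≤ cx.pd := by
  have t := hc.tau
  refine le_trans (Nat.mul_le_mul ((LC.length_tups _).trans (Nat.pow_le_pow_left
    ((h.wf.olen h.nd h.od).trans h.wf.dlen.1) _)) h.wf.dlen.1) ?_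
  rw [← pow_succ]
  refine hc.pow le_rfl ?_
  change cx.ut.length + 1 ≤ _
  rw [length_ut]
  omega

theorem Rk.plus_grow (hc : cx.Ok) (h : cx.Rk s O tb) : cx.Grow s (cx.plus s O tb) := by
  have n := hc.nums
  have t := hc.tau
  have l := h.tups_le hc
  have o : O.length ≤ cx.pd := (h.wf.olen h.nd h.od).trans (h.lx hc).len
  have g1 : cx.Gro s (s.lab (mark O) (mark O) 1) 0 0 cx.pd 1 := by
    refine Cx.lab_gro (by simpa [mark] using o) (by simpa [mark] using o) (by omega)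
      (fun e he => ?_) (fun e he => ?_) <;>
      obtain ⟨_, u, _, e2⟩ := mem_mark.1 (show (e.1, e.2) ∈ _ from he) <;> rw [e2] <;>
      simp only [List.length_singleton] <;> omega
  have e : ∀ b, ∀ e ∈ LC.labs (cx.lx s O) tb b, e.2.length ≤ cx.pd := fun b e he => by
    have := ((h.lx hc).labs_spec he).2.1
    change _ = cx.ut.length + 1 at this
    rw [length_ut] at this
    omega
  have g2 : cx.Gro _ (cx.plus s O tb) 0 0 (2 * cx.pd + 1) 1 :=
    Cx.lab_gro (by rw [LC.length_labs]; change _ * s.D.length ≤ _; omega)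
      (by rw [LC.length_labs]; change _ * s.D.length ≤ _; omega)
      (by rw [LC.length_vts]; change 2 * (_ * s.D.length) + 1 ≤ _; omega) (e false) (e true)
  refine (g1.trans le_rfl g2).mono (Nat.zero_le _) (Nat.zero_le _) ?_ Nat.one_le_two_pow
  have h4 : 4 ≤ cx.pd := by omega
  clear n t l o g1 g2 e
  rw [pow_two]
  nlinarith

/-! ### the states of the entries -/

theorem Rk.cs_sub (h : cx.Rk s O tb) {e : List Tm × List Tm × U × List U} (he : e ∈ tb) :
    cs (some e.2.2) ⊆ cs (some s.c) := fun g hg => (mem_one h.one).2 ((h.ok e he).2.2 g hg).1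

theorem Rk.sub_wf (h : cx.Rk s O tb) {e : List Tm × List Tm × U × List U} (he : e ∈ tb) :
    cx.WF0 (cx.sub s O tb e) :=
  (h.wf.toWF0.cos (h.cs_sub he (self_mem_cs _ _)) (fun _ hg => (h.ok.grp_le he hg).1)
    (h.len e he)).act (h.wf.nx.filter _) (h.wf.ny.filter _)
    (fun x hx => h.wf.xd x (List.mem_filter.1 hx).1) (fun y hy => by
      have := h.wf.yd y (List.mem_filter.1 hy).1
      rw [h.one, inv_one, one_smul] at this
      exact h.wf.inv _ (inv_mem ((h.ok e he).2.2 _ (self_mem_cs _ _)).1) y this)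

theorem mem_newTab {acc : List ((List Tm × List Tm × U × List U) × Ans)}
    {e : List Tm × List Tm × U × List U} :
    e ∈ newTab acc ↔ ∃ c, ((e.1, e.2.1, c), some e.2.2) ∈ acc := by
  simp only [newTab, List.mem_filterMap, Option.map_eq_some_iff]
  constructor
  · rintro ⟨p, hp, c, e1, rfl⟩
    exact ⟨p.1.2.2, by rwa [← e1]⟩
  · rintro ⟨c, hc⟩
    exact ⟨_, hc, e.2.2, rfl, rfl⟩

theorem length_newTab (acc : List ((List Tm × List Tm × U × List U) × Ans)) :
    (newTab acc).length ≤ acc.length := List.length_filterMap_le _ _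

theorem Rk.step (hc : cx.Ok) (h : cx.Rk s O tb)
    {acc : List ((List Tm × List Tm × U × List U) × Ans)} (h1 : acc.map Prod.fst = tb)
    (h2 : ∀ p ∈ acc, cx.Post (cx.sub s O tb p.1) p.2) :
    ∀ e' ∈ newTab acc, ∃ c, (e'.1, e'.2.1, c) ∈ tb ∧ cs (some e'.2.2) ⊆ cs (some c) ∧
      ∀ g ∈ cs (some e'.2.2), ∀ w ∈ LC.affL (cx.lx s O) tb false e'.1, w ∈ s.X ↔ g • w ∈ s.Y := by
  intro e' he'
  obtain ⟨c, m⟩ := mem_newTab.1 he'
  have m' : (e'.1, e'.2.1, c) ∈ tb := h1 ▸ List.mem_map_of_mem (f := Prod.fst) m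
  refine ⟨c, m', fun g hg => ((h2 _ m).hi hg).1, fun g hg w hw => ?_⟩
  obtain ⟨g1, g2⟩ := (h2 _ m).hi hg
  have a := ((h.lx hc).aff_ar h.ok (h.ok.ar_entry m' g1) (h.ok _ m').1 (h.ok _ m').2.1 w).1 hw
  have := g2 w
  change w ∈ s.X.filter _ ↔ g • w ∈ s.Y.filter _ at this
  simpa only [List.mem_filter, List.contains_iff_mem, hw, a, and_true] using this

theorem Rk.next (hc : cx.Ok) (h : cx.Rk s O tb)
    {acc : List ((List Tm × List Tm × U × List U) × Ans)} (h1 : acc.map Prod.fst = tb)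
    (h2 : ∀ p ∈ acc, cx.Post (cx.sub s O tb p.1) p.2) : cx.Rk s O (newTab acc) := by
  refine ⟨h.wf, h.one, h.nd, h.od, h.inv, h.ok.sub fun e' he' =>
    let ⟨c, c1, c2, _⟩ := h.step hc h1 h2 e' he'; ⟨c, c1, c2⟩, fun g hg a ha => ?_,
    fun e' he' => ?_⟩
  · obtain ⟨c, c1, c2⟩ := h.cpl g hg a ha
    obtain ⟨p, hp, e⟩ := List.mem_map.1 (h1 ▸ c1 : _ ∈ acc.map Prod.fst)
    obtain ⟨f, w⟩ := hg
    have ar := h.ok.ar_entry c1 c2
    have w' : (cx.sub s O tb p.1).Wit g f := by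
      rw [e]
      refine Sta.act_wit ((Sta.cos_wit (h.cs_sub c1)).2 ⟨w, c2⟩) fun y => ?_
      simp only [List.mem_filter, List.contains_iff_mem]
      rw [w.sol.2 y, (h.lx hc).aff_ar h.ok ar ha (h.ok _ c1).2.1 y]
    obtain ⟨c', k1, k2⟩ := (h2 p hp).lo ⟨f, w'⟩
    refine ⟨c', mem_newTab.2 ⟨c, ?_⟩, c', rfl, k2⟩
    rw [← e, ← show p.2 = some c' from k1]
    exact hp
  · obtain ⟨c, m⟩ := mem_newTab.1 he'
    exact (h2 _ m).len _ rfl

theorem Rk.sub_mono (h : cx.Rk s O tb) {e : List Tm × List Tm × U × List U} (he : e ∈ tb) :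
    (cx.view s).Mono (cx.view (cx.sub s O tb e)) :=
  (Cx.cos_mono (fun _ hg => (h.ok.grp_le he hg).1)).trans
    (Cx.act_mono fun _ hx => (List.mem_filter.1 hx).1)

theorem sub_sz {φ : ℕ} (h : cx.Sz s φ) (e : List Tm × List Tm × U × List U) :
    cx.Sz (cx.sub s O tb e) φ := ⟨h.f, h.d, h.k, h.a, h.b, h.h, h.i⟩

/-- the orbits shrink -/
theorem Rk.sub_shrink (hc : cx.Ok) (h : cx.Rk s O tb) (ho : cx.P.tau ≤ O.length)
    (ht : (cx.view (cx.plus s O tb)).Γ.Tr O.toFinset cx.P.tau)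
    {e : List Tm × List Tm × U × List U} (he : e ∈ tb) {w : Tm}
    (hw : w ∈ (cx.view (cx.sub s O tb e)).X) :
    ((cx.view (cx.sub s O tb e)).o w).card * (O.toFinset.card - cx.P.t + 1) ≤
      ((cx.view s).o w).card * cx.P.s := by
  have t := hc.tau
  have u : (cx.lx s O).2.2.2.2.length = cx.P.t := length_ut cx
  have e1 : cx.P.tau = (cx.lx s O).2.2.2.2.length + (4 * (cx.lam + 1) + 2) := by omega
  have e2 : cx.P.s = 4 * (cx.lam + 1) + 2 := by omega
  have := (h.lx hc).shrink h.ok (h.plus_lab hc) (L := cx.lam + 1)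
    (by change _ ≤ cx.uM.length; omega)
    (by change _ ≤ O.toFinset.card; rw [List.toFinset_card_of_nodup h.nd]; omega) (e1 ▸ ht)
    (h.plus_wf hc).view_ok.dd ((List.toFinset_card_le _).trans (h.wf.dlen.1.trans
      (Nat.pow_le_pow_right (by norm_num) (Nat.le_succ _)))) (by omega) he (w := w) (by
      have := (List.mem_filter.1 (List.mem_toFinset.1 hw)).2
      rwa [List.contains_iff_mem] at this)
  rw [u, ← e2] at this
  exact this

theorem Rk.con (hc : cx.Ok) (h : cx.Rk s O tb) (ho : cx.P.tau ≤ O.length)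
    (ht : (cx.view (cx.plus s O tb)).Γ.Tr O.toFinset cx.P.tau) : LC.Con (cx.lx s O) tb := by
  have t := hc.tau
  have u : (cx.lx s O).2.2.2.2.length = cx.P.t := length_ut cx
  exact (h.lx hc).con h.ok (h.plus_lab hc) (by omega)
    (ht.anti (by omega) (by rw [List.toFinset_card_of_nodup h.nd]; exact ho))

/-- the orbits shrink by the square root -/
theorem Rk.sub_shrink2 (hc : cx.Ok) (h : cx.Rk s O tb) (ho : 4 * cx.P.tau ≤ O.length)
    (ht : (cx.view (cx.plus s O tb)).Γ.Tr O.toFinset cx.P.tau)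
    {e : List Tm × List Tm × U × List U} (he : e ∈ tb) {w : Tm}
    (hw : w ∈ (cx.view (cx.sub s O tb e)).X) :
    ((cx.view (cx.sub s O tb e)).o w).card * Nat.sqrt O.length ≤ ((cx.view s).o w).card := by
  have t := hc.tau
  have u : (cx.lx s O).2.2.2.2.length = cx.P.t := length_ut cx
  have a1 := h.sub_shrink hc (by omega) ht he hw
  rw [List.toFinset_card_of_nodup h.nd] at a1
  have : Finite (gen s.S) := h.wf.view_ok.fin
  have a2 := (h.lx hc).shrink2 h.ok (h.con hc (by omega) ht) (by omega) he (w := w) (by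
    have := (List.mem_filter.1 (List.mem_toFinset.1 hw)).2
    rwa [List.contains_iff_mem] at this)
  rw [u] at a2
  exact sqrt_shrink (by omega) (by omega) (by omega) a1 a2

theorem Rk.giant (hc : cx.Ok) (h : cx.Rk s O tb) (ho : cx.P.tau ≤ O.length)
    (c : LC.Con (cx.lx s O) tb) : Giant (gen (LC.fgen (cx.lx s O) tb false)) O.toFinset := by
  have t := hc.tau
  have u : (cx.lx s O).2.2.2.2.length = cx.P.t := length_ut cx
  have : Finite (gen s.S) := h.wf.view_ok.fin
  exact (h.lx hc).fgen_giant h.ok c (L := cx.lam)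
    ((List.toFinset_card_le _).trans h.wf.dlen.1) (by omega)
    (by change _ ≤ O.toFinset.card; rw [List.toFinset_card_of_nodup h.nd]; omega)

theorem Rk.trB_iff (hc : cx.Ok) (h : cx.Rk s O tb) :
    trB cx.par (cx.plus s O tb).q false O cx.utau = true ↔
      (cx.view (cx.plus s O tb)).Γ.Tr O.toFinset cx.P.tau := by
  have t := hc.tau
  rw [← length_utau] at t ⊢
  exact GX.trB_iff ((h.plus_wf hc).wl hc) false (fun x hx => h.wf.toWF0.dA (h.od x hx)) (by omega)
    (by change _ ≤ cx.uM.length; omega)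
    (hc.pow ((h.wf.olen h.nd h.od).trans h.wf.dlen.1) (by omega))

theorem exists_tup (hc : cx.Ok) (h : cx.Rk s O tb) (ho : cx.P.tau ≤ O.length) :
    ∃ a, a ∈ LC.tups (cx.lx s O) := by
  have t := hc.tau
  have u : (cx.lx s O).2.2.2.2.length = cx.P.t := length_ut cx
  exact ⟨O.take cx.P.t, (h.lx hc).mem_tups.2 ⟨by rw [List.length_take, u]; omega,
    fun y hy => List.mem_of_mem_take hy, h.nd.sublist (List.take_sublist _ _)⟩⟩

end Cx

end Pool.Agent.P.MP_f1a348_lc.GX
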