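import Pool.Agent.P.MP_f1a348_lc.GX.LibWS

/-! Graph isomorphism: labels that the system keeps do not change the system. -/

set_option autoImplicit false
set_option linter.unusedSectionVars false

namespace Pool.Agent.P.MP_f1a348_lc.GX

open Equiv Function
open Pool.Agent.P.MP_f1a348_lc.TO.WL (exists_perm)

theorem Sy.ext_L {Y : Type} [DecidableEq Y] {Γ Γ' : Sy Y} (h1 : Γ.D = Γ'.D) (h2 : Γ.M = Γ'.M)
    (h3 : ∀ A f, Γ.L A f ↔ Γ'.L A f) : Γ = Γ' := by
  obtain ⟨D, M, L, _⟩ := Γ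
  obtain ⟨D', M', L', _⟩ := Γ'
  obtain rfl : D = D' := h1
  obtain rfl : M = M' := h2
  obtain rfl : L = L' := funext fun A => funext fun f => propext (h3 A f)
  rfl

variable {α : Type} [DecidableEq α] {M : ℕ}

open WL in
/-- new labels that the system keeps do not change the system -/
theorem wsys_exact {V : List α} {R R' : List (ℕ × List α)} (n : ℕ) (hM : 1 ≤ M)
    (hR : ∀ c l, (c, l) ∈ R ↔ c < n ∧ (c, l) ∈ R')
    (hN : ∀ c l, n ≤ c → (c, l) ∈ R' → ∀ f, (wsys M (V, R)).L l.toFinset f → (c, l.map f) ∈ R') :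
    wsys M (V, R') = wsys M (V, R) := by
  refine Sy.ext_L rfl rfl fun A f => ⟨wsys_labels (X := (V, R)) (X' := (V, R'))
    (fun _ => Iff.rfl) n hR hM, fun h => ⟨h.1, fun u v hu hv => ?_⟩⟩
  have key : ∀ (u v : Fin M → {x // x ∈ V}), Sim (relOn (V, R)) (relOn (V, R)) u v →
      ∀ c (l : List (Fin M)), relOn (V, R') c (l.map u) → relOn (V, R') c (l.map v) := by
    intro u v h c l e
    rcases lt_or_ge c n with k | k
    · exact ((hR _ _).1 ((h.at.2 c l).1 ((hR _ _).2 ⟨k, e⟩))).2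
    obtain ⟨F, rfl⟩ := exists_perm h.at.1
    have := hN c _ k e (Perm.ofSubtype F) (WLoc.of_loc (X := (V, R)) (F := F) (fun x hx => ?_)
      (fun x _ => (Perm.ofSubtype_apply_coe F x).symm) (Loc.of_sim h fun x hx => ?_))
    · rw [List.map_map, List.map_map] at this
      rw [relOn, List.map_map]
      exact List.map_congr_left (l := l) (f := (Perm.ofSubtype F ∘ Subtype.val) ∘ u)
        (g := Subtype.val ∘ F ∘ u) (fun i _ => Perm.ofSubtype_apply_coe F (u i)) ▸ this
    · obtain ⟨y, -, rfl⟩ := List.mem_map.1 (List.mem_toFinset.1 hx)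
      exact y.2
    · obtain ⟨y, h1, h2⟩ := List.mem_map.1 (List.mem_toFinset.1 (Finset.mem_subtype.1 hx))
      obtain ⟨i, -, rfl⟩ := List.mem_map.1 h1
      exact ⟨i, Subtype.ext h2⟩
  exact ⟨Sim (relOn (V, R)) (relOn (V, R)), fun u v h => ⟨⟨h.at.1, fun c l =>
    ⟨key u v h c l, key v u h.symm c l⟩⟩, h.step⟩, h.2 u v hu hv⟩

end Pool.Agent.P.MP_f1a348_lc.GX
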