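import Pool.Agent.P.MP_f1a348_lc.GY.TZG

/-! Graph isomorphism: one step with the record inside a named set. -/

set_option autoImplicit false
set_option linter.unusedSectionVars false

namespace Pool.Agent.P.MP_f1a348_lc.GX

open Equiv Finset
open scoped Classical
variable {Y : Type} [DecidableEq Y] {Γ Γ' : Sy Y} {Fo : Finset Y → Prop}

namespace ZSx

theorem half (hM : 4 ≤ Γ.M) {A O : Finset Y} {b β u : ℕ} {gr : Bool} {mem ρ X : Y → Y → Prop}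
    (o : Fo O) (h : Γ.RecD A b β u gr mem ρ X O) {v z z0 y0 : Y} (hv : v ∈ Γ.D)
    (ht : ∀ w ∈ A, ∀ w' ∈ A, Γ.E2 w v w' v) {q : Y → Prop}
    (hq : ∀ y y', Γ.E2 y v y' v → (q y ↔ q y')) (hz : z ∈ A) (hz0 : z0 ∈ A) (h0 : mem z0 y0)
    (h1 : q y0) (hc : 2 * (Γ.D.filter fun y => mem z y ∧ q y).card ≤ b) :
    (Γ.pin {v}).RecP Fo A (b / 2) β u gr := by
  have key : ∀ w ∈ A, ∀ w' ∈ A, (Γ.D.filter fun y => mem w y ∧ q y).card =
      (Γ.D.filter fun y => mem w' y ∧ q y).card := by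
    intro w hw w' hw'
    obtain ⟨f, f1, f2, f3⟩ := ht w hw w' hw'
    have := Sy.card_eq f1 (lt_of_le_of_lt card_le_two (by omega)) (fun y => mem w y ∧ q y)
      (fun y => mem w' y ∧ q y) fun y _ g g1 g2 => by
        have e1 := Sy.e2_of_L g2 (a := w) (b := y) (by simp) (by simp)
        have e2 := Sy.e2_of_L g2 (a := y) (b := v) (by simp) (by simp)
        rw [g1 w (by simp), f2] at e1
        rw [g1 v (by simp), f3] at e2
        exact and_congr (h.imem.iff e1) (hq _ _ e2)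
    convert this
  have r := Γ.ref_pin {v}
  refine ⟨fun w y => mem w y ∧ q y, ρ, X, O, o, ⟨fun a b hab => h.imem.1 a b hab.1,
    fun a b a' b' e hab => ⟨(r.inv2 h.imem).2 a b a' b' e hab.1,
      (hq _ _ (Sy.pin_e2 e (mem_singleton_self v) hv).2).1 hab.2⟩⟩, r.inv2 h.irho, r.inv1 h.iO,
    h.cO, h.gra.mono h.iO.1 r, h.plain, fun w hw => ?_, fun w hw => ?_,
    fun w hw w' hw' y a b => h.disj w hw w' hw' y a.1 b.1,
    fun w hw w' hw' y y' a b => h.sep w hw w' hw' y y' a.1 b.1⟩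
  · have : 0 < (Γ.D.filter fun y => mem w y ∧ q y).card := by
      rw [key w hw z0 hz0]
      exact card_pos.2 ⟨y0, mem_filter.2 ⟨(h.imem.1 _ _ h0).2, h0, h1⟩⟩
    obtain ⟨y, hy⟩ := card_pos.1 this
    exact ⟨y, (mem_filter.1 hy).2⟩
  · have h3 : (Γ.D.filter fun y => mem w y ∧ q y).card ≤ b / 2 := by
      rw [key w hw z hz]; omega
    refine le_trans (card_le_card fun y hy => ?_) h3
    simp only [mem_filter] at hy ⊢
    exact hy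

theorem pend (hM : 4 ≤ Γ.M) {A Z : Finset Y} (hA : Γ.Cls A) (h2 : 2 ≤ A.card) {b β u : ℕ}
    {gr : Bool} (h : Γ.RecP (fun O => O ⊆ Z) A b β u gr) :
    Γ.Equi A ∨ Γ.RecP (fun O => O ⊆ Z) A 1 β u gr ∨ ∃ v ∈ Γ.D, Γ.cls v ⊆ Z ∧
      (Γ.pin {v}).RecP (fun O => O ⊆ Z) A (b / 2) β u gr := by
  obtain ⟨mem, ρ, X, O, o, h⟩ := h
  by_cases H : ∀ v ∈ O, ∀ w ∈ A, ∀ w' ∈ A, Γ.E2 w v w' v
  swap
  · push Not at H
    obtain ⟨v, hv, w, hw, w', hw', n⟩ := H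
    rcases Sy.sep_or_equi (by omega) hA.2.1 h.iO (Γ.inv2_E2 w v) hw hw' hv
      (Sy.E2.refl (hA.2.1.1 hw) (h.iO.1 hv)) n with s | s
    · exact Or.inr (Or.inl (Sy.recP_direct o hA.2.1 (Γ.inv2_E2 w v) h.iO h.cO h.gra h.plain s))
    · exact Or.inl s
  obtain ⟨z, hz, z', hz', hne⟩ := one_lt_card.1 h2
  obtain ⟨y, hy⟩ := h.ne z hz
  obtain ⟨y', hy'⟩ := h.ne z' hz'
  obtain ⟨v, hv, n⟩ := h.sep z hz z' hz' y y' hy hy'
    fun e => hne (h.disj z hz z' hz' y hy (e ▸ hy'))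
  refine Or.inr (Or.inr ⟨v, h.iO.1 hv, (h.iO.cls_sub hv).trans o, ?_⟩)
  have hs : (Γ.D.filter fun y => mem z y ∧ ρ y v).card +
      (Γ.D.filter fun y => mem z y ∧ ¬ ρ y v).card ≤ b := by
    refine le_trans ?_ (h.le z hz)
    rw [← card_filter_add_card_filter_not (s := Γ.D.filter (mem z)) (fun y => ρ y v),
      filter_filter, filter_filter]
  obtain ⟨z1, h1, y1, m1, r1, z2, h2, y2, m2, r2⟩ : ∃ z1 ∈ A, ∃ y1, mem z1 y1 ∧ ρ y1 v ∧
      ∃ z2 ∈ A, ∃ y2, mem z2 y2 ∧ ¬ ρ y2 v := by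
    by_cases c : ρ y v
    · exact ⟨z, hz, y, hy, c, z', hz', y', hy', fun c' => n (iff_of_true c c')⟩
    · exact ⟨z', hz', y', hy', by_contra fun c' => n (iff_of_false c c'), z, hz, y, hy, c⟩
  rcases le_total (Γ.D.filter fun y => mem z y ∧ ρ y v).card
    (Γ.D.filter fun y => mem z y ∧ ¬ ρ y v).card with c | c
  · exact half (Fo := fun O => O ⊆ Z) hM o h (h.iO.1 hv) (H v hv) (q := fun y => ρ y v)
      (fun _ _ e => h.irho.iff e) hz h1 m1 r1 (by omega)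
  · refine half (Fo := fun O => O ⊆ Z) hM o h (h.iO.1 hv) (H v hv) (q := fun y => ¬ ρ y v)
      (fun _ _ e => not_congr (h.irho.iff e)) hz h2 m2 r2 ?_
    have : 2 * (Γ.D.filter fun y => mem z y ∧ ¬ ρ y v).card ≤ b := by omega
    convert this

theorem direct (hM : 3 ≤ Γ.M) {A : Finset Y} {b β u : ℕ} {gr : Bool}
    (hb : b ≤ 1) (h : Γ.RecP Fo A b β u gr) :
    ∃ (ρ X : Y → Y → Prop) (O : Finset Y), Fo O ∧ Γ.Inv2 ρ ∧ Γ.Inv1 O ∧ O.card ≤ u ∧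
      Γ.Gr O X β ∧ (gr = false → u ≤ β) ∧ Sy.Sep A O ρ := by
  obtain ⟨mem, ρ, X, O, o, h⟩ := h
  refine ⟨fun z v => ∃ y, mem z y ∧ ρ y v, X, O, o, h.imem.comp hM h.irho, h.iO, h.cO, h.gra,
    h.plain, fun z hz z' hz' hne => ?_⟩
  have key : ∀ z ∈ A, ∀ y v, mem z y → ((∃ y, mem z y ∧ ρ y v) ↔ ρ y v) := by
    intro z hz y v hy
    refine ⟨fun ⟨y1, a, c⟩ => ?_, fun c => ⟨y, hy, c⟩⟩
    rwa [card_le_one.1 ((h.le z hz).trans hb) y (mem_filter.2 ⟨(h.imem.1 _ _ hy).2, hy⟩) y1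
      (mem_filter.2 ⟨(h.imem.1 _ _ a).2, a⟩)]
  obtain ⟨y, hy⟩ := h.ne z hz
  obtain ⟨y', hy'⟩ := h.ne z' hz'
  obtain ⟨v, hv, n⟩ := h.sep z hz z' hz' y y' hy hy'
    fun e => hne (h.disj z hz z' hz' y hy (e ▸ hy'))
  exact ⟨v, hv, fun e => n ((key z hz y v hy).symm.trans (e.trans (key z' hz' y' v hy')))⟩

theorem gra_edge (hM : 4 ≤ Γ.M) {A O : Finset Y} (hO : Γ.Inv1 O)
    {N X : Y → Y → Prop} (h : Γ.Dom A O N) {β : ℕ} (hX : Γ.Gr O X β) {z v v' : Y} (hz : z ∈ A)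
    (e : X v v') (h1 : ¬ N z v) (h2 : N z v') (hr : (Γ.pin {v}).Ref Γ') (hM' : 3 ≤ Γ'.M)
    {A' : Finset Y} (hs : A' ⊆ A) (hA' : Γ'.Cls A') (hb : 3 * A.card < 4 * A'.card) :
    Γ'.Equi A' ∨ ∃ c, c ≤ β ∧ c ≤ O.card ∧ Γ'.RecP (fun O' => O' ⊆ O) A' 1 c c false := by
  have hv : v ∈ O := (hX.sup _ _ e).1
  have hvD : v ∈ Γ.D := hO.1 hv
  have hR : Γ.Ref Γ' := (Sy.ref_pin _).trans hr
  have f1 : ∀ a ∈ Γ.D, ∀ a', Γ'.E1 a a' → Γ.E2 a v a' v := fun a ha a' k =>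
    (Sy.pin_e2 (hr.2 a ha a ha _ _ (Sy.e2_diag.2 k)) (mem_singleton_self v) hvD).1
  have big : ∀ w, ∃ y ∈ A', ¬ N y w := fun w => by
    by_contra k
    push Not at k
    have := card_le_card (s := A') (t := A.filter fun z => N z w) fun y hy =>
      mem_filter.2 ⟨hs hy, k y hy⟩
    have := h.few w
    omega
  obtain ⟨x, hx, nx⟩ := big v
  obtain ⟨w, e1, e2, -, -⟩ := (h.dom z hz x (hs hx) v hv v (Sy.E1.refl hvD) h1 nx).ext3 (by omega)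
    (hX.inv.1 _ _ e).2
  have hw := hX.inv.2 _ _ _ _ e2 e
  obtain ⟨y, hy, ny⟩ := big w
  have hO' : Γ'.Inv1 (O.filter (X v)) := by
    refine ⟨(filter_subset _ _).trans (hO.1.trans hR.1), fun a b k ha => ?_⟩
    obtain ⟨a1, a2⟩ := mem_filter.1 ha
    have := hX.inv.2 _ _ _ _ (f1 a (hO.1 a1) b k).swap a2
    exact mem_filter.2 ⟨(hX.sup _ _ this).2, this⟩
  rcases Sy.sep_or_equi hM' hA'.2.1 hO' (hR.inv2 h.inv) hx hy
    (mem_filter.2 ⟨(hX.sup _ _ hw).2, hw⟩) (h.inv.2 _ _ _ _ e1 h2) ny with k | k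
  · exact Or.inr ⟨_, hX.val v, card_filter_le _ _, Sy.recP_direct (filter_subset _ _) hA'.2.1
      (hR.inv2 h.inv) hO' le_rfl (Sy.gr_empty hO' le_rfl) (fun _ => le_rfl) k⟩
  · exact Or.inl k

theorem gra_comp (hM : 3 ≤ Γ.M) {A O : Finset Y} (hA : Γ.Cls A) (hO : Γ.Inv1 O)
    {N X : Y → Y → Prop} (h : Γ.Dom A O N) {β : ℕ} (hX : Γ.Gr O X β)
    (hc : ∀ z ∈ A, ∀ v v', X v v' → N z v' → N z v) :
    Γ.Equi A ∨ ∃ (C : Finset Y) (prs : List (Y × Y)) (c : ℕ), C ⊆ O ∧ Γ.Cls C ∧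
      (∀ p ∈ prs, p.1 ∈ C ∧ p.2 ∈ C) ∧ 1 ≤ c ∧ c ≤ β ∧ c * 2 ^ prs.length ≤ C.card ∧
      ∀ (Γ' : Sy Y) (bl : Y → Y), Γ.Blk Γ' C prs bl →
        Γ'.RecP (fun O' => O' ⊆ C.image bl) A 1 c c false := by
  obtain ⟨C, hCO, hC, hN, ⟨x, hx, y, hy, v, hv, n1, n2⟩, -⟩ := h.tight hM hA hO
  rcases Sy.sep_or_equi hM hA.2.1 hC.2.1 hN hx hy hv ⟨hv, n1⟩ (fun k => n2 k.2) with hs | k
  swap
  · exact Or.inl k
  right
  let E : Y → Y → Prop := fun a b => a ∈ C ∧ b ∈ C ∧ (a ∈ Γ.D ∧ Relation.EqvGen X a b)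
  have es : ∀ a b, E a b → E b a := fun a b k => ⟨k.2.1, k.1, hC.2.1.1 k.2.1, k.2.2.2.symm _ _⟩
  have et : ∀ a b c, E a b → E b c → E a c := fun a b c k k' =>
    ⟨k.1, k'.2.1, k.2.2.1, k.2.2.2.trans _ _ _ k'.2.2.2⟩
  have er : ∀ a ∈ C, E a a := fun a ha => ⟨ha, ha, hC.2.1.1 ha, .refl a⟩
  obtain ⟨prs, p1, p2, p3⟩ := Sy.gen_pairs hM hC (E := E)
    ((hX.inv.eqvGen hM).restrict hC.2.1 hC.2.1) es et er
  obtain ⟨S, s1, s2, s3⟩ := GRAx.reps C E es er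
  have hNE : ∀ z ∈ A, ∀ a b, Relation.EqvGen X a b → (N z a ↔ N z b) := fun z hz a b k => by
    induction k with
    | rel a b k => exact ⟨hc z hz b a (hX.symm _ _ k), hc z hz a b k⟩
    | refl a => rfl
    | symm a b _ ih => exact ih.symm
    | trans a b c _ _ i1 i2 => exact i1.trans i2
  refine ⟨C, prs, S.card, hCO, hC, p1, ?_, ?_, ?_, fun Γ' bl hb => ?_⟩
  · obtain ⟨s, hs, -⟩ := s3 v hv
    exact card_pos.2 ⟨s, hs⟩
  · exact hX.comp v (hCO hv) S (hC.eq_cls hv ▸ s1) fun a ha b hb e k =>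
      s2 a ha b hb e ⟨s1 ha, s1 hb, hC.2.1.1 (s1 ha), k⟩
  · calc S.card * 2 ^ prs.length ≤ ∑ s ∈ S, (C.filter (E s)).card :=
          card_nsmul_le_sum S _ _ fun s hs => (p3 s (s1 hs)).trans
            (card_le_card fun w => by simp only [mem_filter]; exact id)
      _ = (S.biUnion fun s => C.filter (E s)).card := by
          refine (card_biUnion fun a ha b hb e => disjoint_left.2 fun w k k' => ?_).symm
          exact s2 a ha b hb e (et _ _ _ (mem_filter.1 k).2 (es _ _ (mem_filter.1 k').2))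
      _ ≤ C.card := card_le_card (biUnion_subset.2 fun _ _ => filter_subset _ _)
  · obtain ⟨O', hO', mO⟩ : ∃ O', Γ'.Inv1 O' ∧ ∀ b, b ∈ O' ↔ b ∈ Γ'.D ∧ ∃ a, a ∈ C ∧ b = bl a :=
      ⟨_, hb.inv.range (by have := hb.lev; omega), fun b => by simp only [mem_filter]⟩
    have hc' : O'.card ≤ S.card := by
      refine le_trans (card_le_card fun b k => ?_) (card_image_le (f := bl))
      obtain ⟨-, a, ha, rfl⟩ := (mO b).1 k
      obtain ⟨s, hs, e⟩ := s3 a ha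
      exact mem_image.2 ⟨s, hs, (hb.eq s (s1 hs) a ha).2 ((p2 s (s1 hs) a ha).2 e)⟩
    refine Sy.recP_direct (fun b k => ?_) (hb.ref.inv1 hA.2.1)
      ((hb.ref.inv2 hN).comp hb.lev hb.inv) hO' hc'
      (Sy.gr_empty hO' hc') (fun _ => le_rfl) fun z hz z' hz' ne => ?_
    · obtain ⟨-, a, ha, rfl⟩ := (mO b).1 k
      exact mem_image_of_mem _ ha
    obtain ⟨w, hw, k⟩ := hs z hz z' hz' ne
    have key : ∀ z ∈ A, (∃ b, (b ∈ C ∧ N z b) ∧ b ∈ C ∧ bl w = bl b) ↔ w ∈ C ∧ N z w :=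
      fun z hz => ⟨fun ⟨b, b1, b2, b3⟩ => ⟨hw, (hNE z hz w b
        ((p2 w hw b b2).1 ((hb.eq w hw b b2).1 b3)).2.2.2).2 b1.2⟩, fun t => ⟨w, t, hw, rfl⟩⟩
    exact ⟨bl w, (mO _).2 ⟨(hb.inv.1 w _ ⟨hw, rfl⟩).2, w, hw, rfl⟩, by
      rw [key z hz, key z' hz']; exact k⟩

/-- the price of a small Johnson scheme -/
theorem small_john {c e : ℕ} (h1 : 1 ≤ e) (h4 : 4 * e < c) (h5 : c < e ^ 2) :
    (c : ℝ) * lg c ≤ 9 * lg (c.choose e) ^ 2 := by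
  have he : (0 : ℝ) < e := by exact_mod_cast h1
  have hc : (0 : ℝ) < c := by exact_mod_cast (by omega : 0 < c)
  have h4' : 4 * (e : ℝ) ≤ c := by exact_mod_cast h4.le
  have h5' : (c : ℝ) ≤ (e : ℝ) ^ 2 := by exact_mod_cast h5.le
  have h6 : (e : ℝ) ≤ lg (c.choose e) := PLAx.le_lg ((PLAx.two_pow e).trans
    (Nat.choose_le_choose e (by omega)))
  have l1 : 1 ≤ lg c := by
    have := lg_mono (m := 2) (n := c) (by omega)
    rwa [STEPx.lg_two] at this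
  by_cases k : 3 * lg e ≤ 2 * lg c
  · have h7 := HHx.pow_le_choose (r := c / e) (by rw [le_div_iff₀ he]; linarith) e c
      (by rw [div_mul_cancel₀ _ he.ne'])
    have h8 := Real.logb_le_logb_of_le one_lt_two (by positivity) h7
    rw [Real.logb_pow, Real.logb_div hc.ne' he.ne'] at h8
    change (e : ℝ) * (lg c - lg e) ≤ lg (c.choose e) at h8
    have h9 : (e : ℝ) * lg c ≤ 3 * lg (c.choose e) := by nlinarith
    have := mul_self_le_mul_self (by positivity) h9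
    nlinarith [mul_le_mul_of_nonneg_right h5' (by linarith : 0 ≤ lg c),
      mul_le_mul_of_nonneg_left l1 (by positivity : 0 ≤ (e : ℝ) ^ 2 * lg c)]
  · obtain ⟨r, r0, r3⟩ : ∃ r : ℝ, 0 < r ∧ r ^ 3 = c :=
      ⟨(c : ℝ) ^ ((3 : ℕ) : ℝ)⁻¹, by positivity, Real.rpow_inv_natCast_pow hc.le (by norm_num)⟩
    have a1 : lg c = 3 * Real.logb 2 r := by rw [lg, ← r3, Real.logb_pow]; norm_num
    have a2 : r ^ 2 ≤ e := by
      rw [← Real.logb_le_logb one_lt_two (by positivity) he, Real.logb_pow]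
      change _ ≤ lg e
      push_cast
      linarith
    have a3 : Real.logb 2 r ≤ 2 * r := by
      rw [Real.logb, div_le_iff₀ (Real.log_pos one_lt_two)]
      nlinarith [Real.log_le_sub_one_of_pos r0, Real.log_two_gt_d9]
    have a4 := mul_self_le_mul_self (by positivity) a2
    have a5 := mul_self_le_mul_self he.le h6
    rw [a1, ← r3]
    nlinarith [mul_le_mul_of_nonneg_left a3 (by positivity : 0 ≤ r ^ 3)]

theorem pla {N1 τ t0 Λ e : ℕ} (hM : 2 * τ + 4 ≤ Γ.M)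
    (hτ : Λ + 1 ≤ τ) (ht0 : 4 * τ ≤ t0) {A C Z : Finset Y} (hA : Γ.Cls A) (hC : Γ.Cls C)
    (hZ : C ⊆ Z) (hc : A.card ≤ 2 ^ Λ) (hCA : C.card ≤ A.card) (hN1 : A.card ≤ N1)
    {N : Y → Y → Prop} (hN : Γ.Inv2 N) (hs : Sy.Sep A C N) (h1 : 1 ≤ e) (h4 : 4 * e < C.card)
    (he : ∀ z ∈ A, (C.filter (N z)).card = e) {ν : ℝ} (hν : 12289 * lg C.card ≤ ν) :
    Γ.OutZ N1 τ t0 Z A ν := by
  have kill : ∀ z ∈ A, ∀ z' ∈ A, (∀ v ∈ C, Γ.E2 z v z' v) → z = z' := fun z hz z' hz' h => by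
    by_contra ne
    obtain ⟨v, hv, k⟩ := hs z hz z' hz' ne
    exact k (hN.iff (h v hv))
  by_cases h0 : C.card ≤ t0
  · exact .inr (.inr (.inr (.inr (.inl ⟨C, hC, hCA, .inl h0, kill⟩))))
  by_cases ht : Γ.Tr C τ
  · obtain ⟨k, z0, v0, hj⟩ := Sy.john (by omega) hτ hA hC hc (by omega) ht hN hs h1 h4 he
    rcases h1.eq_or_lt with rfl | h2
    · refine .inr (.inr (.inr (.inr (.inr (.inr ⟨by omega, hj.full (by omega) hA ht, ?_⟩)))))
      rwa [k, Nat.choose_one_right]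
    by_cases h5 : e ^ 2 ≤ C.card
    · exact .inr (.inr (.inr (.inr (.inr (.inl ⟨C, z0, v0, e, hj, h2, h5, by omega, hCA⟩)))))
    refine .inr (.inr (.inr (.inr (.inl ⟨C, hC, hCA, .inr ?_, kill⟩))))
    rw [k]
    exact small_john h1 h4 (not_le.1 h5)
  obtain ⟨d, d1, d2, d3, d4⟩ := PLAx.first hC.tr1 (by omega) ht
  obtain ⟨P, hP, cP, X, β, hX, hβ⟩ := Sy.lemG (by omega) d1 hC.2.1 (by omega) d3 d4
  have r := Γ.ref_pin P
  refine .inr (.inl ⟨C, P, d, hC, hZ, hP, cP, d1, d2.le, fun Γ' hr _ A' hA' _ => .inl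
    (.inr ⟨1, β, C.card, true, hCA.trans hN1, (Sy.recP_direct (Fo := fun O => O ⊆ Z) hZ
      (r.inv1 hA.2.1) (r.inv2 hN) (r.inv1 hC.2.1) le_rfl hX (by simp) hs).mono hA' hr
      fun _ k => k, ?_⟩)⟩)
  have e2 : 0 ≤ min (d : ℝ) (lg C.card) := le_min d.cast_nonneg (lg_nonneg _)
  rw [STEPx.mu_one, if_pos rfl]
  linarith

/-- one pin -/
theorem opin {N1 τ : ℕ} (hτ : 1 ≤ τ) {A Z : Finset Y} {ν : ℝ} {v : Y} (hv : v ∈ Γ.D)
    (hZ : Γ.cls v ⊆ Z)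
    (H : ∀ Γ' : Sy Y, (Γ.pin {v}).Ref Γ' → 3 ≤ Γ'.M → ∀ A' ⊆ A, Γ'.Cls A' →
      3 * A.card < 4 * A'.card → Γ'.GoodZ N1 Z A' (ν - 2) ∨ Γ'.Equi A') :
    Γ.OPinZ N1 τ Z A ν := by
  refine ⟨Γ.cls v, {v}, 1, Sy.cls_cls hv, hZ,
    singleton_subset_iff.2 (Sy.mem_cls.2 (Sy.E1.refl hv)),
    by simp, le_rfl, hτ, fun Γ' hr hM A' hs hA' => ?_⟩
  have hm : min ((1 : ℕ) : ℝ) (lg (Γ.cls v).card) ≤ 1 := (min_le_left _ _).trans (by simp)
  by_cases hb : 3 * A.card < 4 * A'.card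
  · rcases H Γ' hr hM A' hs hA' hb with h1 | h1
    · exact Or.inl (h1.mono Subset.rfl Sy.Ref.refl (by linarith))
    · exact Or.inr ⟨rfl, Or.inr ⟨hb, h1⟩⟩
  · exact Or.inr ⟨rfl, Or.inl (not_lt.1 hb)⟩

open STEPx in
/-- a direct record -/
theorem dir {N1 τ t0 Λ : ℕ} (hM : 2 * τ + 4 ≤ Γ.M)
    (hτ : Λ + 1 ≤ τ) (ht0 : 4 * τ ≤ t0) {A Z : Finset Y} (hA : Γ.Cls A) (h2 : 2 ≤ A.card)
    (hc : A.card ≤ 2 ^ Λ) (hN1 : A.card ≤ N1) {ν : ℝ}
    {ρ X : Y → Y → Prop} {O : Finset Y} {β u : ℕ} {gr : Bool} (hZ : O ⊆ Z) (hρ : Γ.Inv2 ρ)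
    (hO : Γ.Inv1 O)
    (hu : O.card ≤ u) (hX : Γ.Gr O X β) (hp : gr = false → u ≤ β) (hs : Sy.Sep A O ρ)
    (huN : u ≤ N1) (hμ : mu 1 β u gr ≤ ν) (hsm : O.card ≤ A.card ∨ ν < 12289 * lg A.card) :
    Γ.OutZ N1 τ t0 Z A ν := by
  have hτ1 : 1 ≤ τ := by omega
  have hM3 : 3 ≤ Γ.M := by omega
  rw [mu_one] at hμ
  rcases Sy.dom hM3 hA h2 hO hρ hs with ⟨v, hv, h1⟩ | ⟨N, hN⟩
  · refine Or.inr (Or.inl (opin hτ1 (hO.1 hv) ((hO.cls_sub hv).trans hZ)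
      fun Γ' hr _ A' hs' hA' hb => ?_))
    exfalso
    obtain ⟨z, hz⟩ := hA'.1
    have h3 : A' ⊆ A.filter (fun z' => Γ.E2 z v z' v) := fun z' hz' => by
      have e1 : (Γ.pin {v}).E1 z z' := hr.e1 (hA.2.1.1 (hs' hz)) (hA'.2.2 z hz z' hz')
      exact mem_filter.2 ⟨hs' hz',
        (Sy.pin_e2 (Sy.e2_diag.2 e1) (mem_singleton_self v) (hO.1 hv)).1⟩
    have := card_le_card h3
    have := h1 z (hs' hz)
    omega
  cases gr with
  | true =>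
    rw [if_pos rfl] at hμ
    by_cases hcl : ∀ z ∈ A, ∀ v v', X v v' → N z v' → N z v
    · rcases gra_comp hM3 hA hO hN hX hcl with h1 | ⟨C, prs, c, c1, c2, c3, c4, c5, c6, c7⟩
      · exact Or.inr (Or.inr (Or.inr (Or.inl h1)))
      have hCu : C.card ≤ u := (card_le_card c1).trans hu
      refine Or.inr (Or.inr (Or.inl ⟨C, prs, c2, c1.trans hZ, hCu.trans huN, c3,
        (Nat.le_mul_of_pos_left _ c4).trans c6, fun Γ' bl hb => ?_⟩))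
      refine Or.inr ⟨1, c, c, false, ?_, c7 Γ' bl hb, ?_⟩
      · exact (Nat.le_mul_of_pos_right c (by positivity)).trans (c6.trans (hCu.trans huN))
      · have e1 := lg_mono (c6.trans hCu)
        rw [lg_mul c4 (by positivity), lg_pow] at e1
        have e2 := lg_mono c5
        rw [mu_one, if_neg (by simp)]
        linarith
    · push Not at hcl
      obtain ⟨z, hz, v, v', e, h1, h3⟩ := hcl
      refine Or.inr (Or.inl (opin hτ1 (hO.1 (hX.sup v v' e).1)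
        ((hO.cls_sub (hX.sup v v' e).1).trans hZ) fun Γ' hr hM' A' hs' hA' hb => ?_))
      rcases gra_edge (by omega) hO hN hX hz e h3 h1 hr hM' hs' hA' hb with
        h4 | ⟨c, c1, c2, c3⟩
      · exact Or.inr h4
      refine Or.inl (Or.inr ⟨1, c, c, false, c2.trans (hu.trans huN),
        c3.mono Subset.rfl Sy.Ref.refl fun _ k => Subset.trans k hZ, ?_⟩)
      have e1 := lg_mono c1
      have e2 := lg_mono (c2.trans hu)
      rw [mu_one, if_neg (by simp)]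
      linarith
  | false =>
    rw [if_neg (by simp)] at hμ
    obtain ⟨C, c1, c2, c3, ⟨x, hx, y, hy, v, hv, c4, c5⟩, e, c6, c7, c8⟩ := hN.tight hM3 hA hO
    rcases Sy.sep_or_equi hM3 hA.2.1 c2.2.1 c3 hx hy hv ⟨hv, c4⟩ (fun k => c5 k.2) with h1 | h1
    swap
    · exact Or.inr (Or.inr (Or.inr (Or.inl h1)))
    have hCu : C.card ≤ u := (card_le_card c1).trans hu
    have e1 := lg_mono hCu
    have e2 := lg_mono (hCu.trans (hp rfl))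
    have hν : 12289 * lg C.card ≤ ν := by linarith
    have hCA : C.card ≤ A.card := by
      rcases hsm with k | k
      · exact (card_le_card c1).trans k
      · by_contra k'
        have := lg_mono (not_le.1 k').le
        linarith
    refine pla hM hτ ht0 hA c2 (c1.trans hZ) hc hCA hN1 c3 h1 c6 c7 (fun z hz => ?_) hν
    rw [← c8 z hz]
    congr 1
    ext w
    simp only [mem_filter]
    tauto

end ZSx

open STEPx in
/-- one step -/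
theorem ZSx.stepZ0 {N1 τ t0 Λ : ℕ} (hM : 2 * τ + 4 ≤ Γ.M)
    (hτ : Λ + 1 ≤ τ) (ht0 : 4 * τ ≤ t0) {A Z : Finset Y} (hA : Γ.Cls A) (h2 : 2 ≤ A.card)
    (hc : A.card ≤ 2 ^ Λ) (hN1 : A.card ≤ N1) {ν : ℝ} (h : Γ.GoodZ N1 Z A ν)
    (hZ : 12289 * lg A.card ≤ ν → A ⊆ Z) : Γ.OutZ N1 τ t0 Z A ν := by
  by_cases h0 : 12289 * lg A.card ≤ ν
  · refine ZSx.dir hM hτ ht0 hA h2 hc hN1 (gr := false) (hZ h0) (Sy.inv2_eq hA.2.1) hA.2.1 le_rfl
      (Sy.gr_empty hA.2.1 le_rfl) (fun _ => le_rfl)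
      (fun z hz z' _ hne => ⟨z, hz, fun k => hne (k.1 ⟨hz, rfl⟩).2⟩) hN1 ?_ (Or.inl le_rfl)
    rw [mu_one, if_neg (by simp)]
    linarith
  obtain ⟨b, β, u, gr, huN, hR, hμ⟩ := Or.resolve_left h h0
  rw [mu_b] at hμ
  by_cases hb : b ≤ 1
  · obtain ⟨ρ, X, O, c0, c1, c2, c3, c4, c5, c6⟩ := ZSx.direct (by omega) hb hR
    have := lg_nonneg b
    exact ZSx.dir hM hτ ht0 hA h2 hc hN1 c0 c1 c2 c3 c4 c5 c6 huN (by linarith)
      (Or.inr (not_le.1 h0))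
  rcases ZSx.pend (by omega) hA h2 hR with h1 | h1 | ⟨v, hv, hz, h1⟩
  · exact Or.inr (Or.inr (Or.inr (Or.inl h1)))
  · have e1 : lg 2 ≤ lg b := lg_mono (by omega)
    rw [lg_two] at e1
    exact Or.inl (Or.inr ⟨1, β, u, gr, huN, h1, by linarith⟩)
  · refine Or.inr (Or.inl (ZSx.opin (by omega) hv hz fun Γ' hr _ A' hs' _ _ => ?_))
    have e1 : lg (b / 2 * 2) ≤ lg b := lg_mono (Nat.div_mul_le_self b 2)
    rw [lg_mul (by omega) two_pos, lg_two] at e1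
    refine Or.inl (Or.inr ⟨b / 2, β, u, gr, huN, h1.mono hs' hr fun _ k => k, ?_⟩)
    rw [mu_b]
    linarith

end Pool.Agent.P.MP_f1a348_lc.GX
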