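import Pool.Agent.P.MP_f1a348_lc.GY.TMVMOD

/-! Step MBAT: the module of the cheap moves. -/

set_option autoImplicit false
set_option linter.unusedSectionVars false
set_option synthInstance.maxSize 4096

namespace Pool.Agent.P.MP_f1a348_lc.GX

open Pool.Agent.Lib.Helper47 Pool.Agent.P.MP_f1a348_lc.GI Pool.Agent.P.MP_f1a348_lc.TO
variable {cx : Cx} {s s' s'' : Sta}

/-- the number of free calls, computed from the context -/
def Cx.mA (cx : Cx) : ℕ := 8 * (cx.big.length * cx.big.length)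

@[fun_prop] theorem Cx.pt_mA {α : Type} [Enc α] {c : α → Cx} (h : PT c) :
    PT (fun a => (c a).mA) := by unfold Cx.mA; fun_prop

theorem Cx.Ok.mA (hc : cx.Ok) : cx.mA = cx.mE := by
  rw [Cx.mA, hc.big, Cx.mE]; ring

theorem prc_one (n : ℕ) : prc n 1 = bl n + 3 := rfl

theorem Cx.prc_mE (cx : Cx) (n : ℕ) : prc n cx.mE = bl n + (2 * cx.lam + 5) := by
  have : (cx.mE + 1).bits.length = 2 * cx.lam + 4 := by
    rw [Nat.size_eq_bits_len]
    refine le_antisymm (Nat.size_le.2 ?_) (Nat.lt_size.2 (Nat.le_succ _))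
    have : 2 ≤ cx.mE := Nat.le_self_pow (by omega) 2
    rw [pow_succ]
    exact (by omega : cx.mE + 1 < cx.mE * 2)
  rw [prc, this, bl]
  omega

namespace MBAT

/-- a state and a list -/
abbrev ZS : Type := Sta × List Tm
/-- the frames that try options -/
abbrev XT : Type := Sta ⊕ Sta ⊕ ZS ⊕ (ZS × Bool × Tm × List Unit)
/-- the frames that join branches -/
abbrev XJ : Type := ZS × Bool × Tm × List Tm
/-- the frames -/
abbrev X : Type := XT ⊕ XJ
/-- the frames that are called -/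
abbrev F : Type := Sta ⊕ X

def iS (s : Sta) : X := .inl (.inr (.inl s))
def iT (x : ZS) : X := .inl (.inr (.inr (.inl x)))
def iU (x : ZS × Bool × Tm × List Unit) : X := .inl (.inr (.inr (.inr x)))

variable (i : Bool) (m : Bool → Lv)

def o0 (s : Sta) : List (Bool × F) :=
  s.hs.map (fun I => (false, .inr (iT (s, dd (atP (bif i then s.D else s.A.1) I)))))
def o1 (cx : Cx) (x : ZS) : List (Bool × F) :=
  (false, .inr (iS x.1)) ::
    bif Nat.ble x.1.A.1.length cx.big.length && Nat.ble x.1.B.1.length cx.big.length then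
      (prodL [true, false] (prodL (x.2.filter (fun p => x.1.A.1.contains p))
        (MVMOD.pref ((x.2 ++ x.2).map (fun _ => ()))))).map (fun e => (false, .inr (iU (x, e))))
    else []
def o2 (cx : Cx) (x : ZS × Bool × Tm × List Unit) : List (Bool × F) :=
  (tuples cx.pad ((m x.2.1).dom cx x.1.1 x.2.2.1) x.2.2.2).map
    (fun l => (false, .inr (.inr (x.1, x.2.1, x.2.2.1, l))))
def oT (cx : Cx) : XT → List (Bool × F) :=
  Sum.elim (o0 i) (Sum.elim (fun s => [(false, .inl s)]) (Sum.elim (o1 cx) (o2 m cx)))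
def oJ (cx : Cx) (x : XJ) : Option (List (U × Bool × F)) :=
  ((m x.2.1).br cx x.1.1 x.1.2 x.2.2.1 x.2.2.2).map
    (fun L => L.map (fun e => (1, false, .inr (iT e))))

abbrev pT : Part Cx F XT (Bool × F) (Option Ans) Ans := tryP (fun _ _ => none) (oT i m)
noncomputable abbrev pJ : Part Cx F XJ (U × Bool × F) (Option Ans) Ans :=
  joinP Cx.pad Cx.base (oJ m) (fun _ _ => [])

/-- the state of a frame -/
def st : X → Sta :=
  Sum.elim (Sum.elim id (Sum.elim id (Sum.elim (·.1) (·.1.1)))) (·.1.1)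

/-- the precondition -/
def Pre (cx : Cx) : X → Prop :=
  Sum.elim (Sum.elim cx.WF0 (Sum.elim cx.WF0 (Sum.elim (fun x => cx.WF0 x.1)
      (fun x => cx.WF x.1.1 ∧ x.2.2.1 ∈ x.1.1.A.1))))
    (fun x => cx.WF x.1.1 ∧ x.2.2.1 ∈ x.1.1.A.1 ∧ ∀ y ∈ x.2.2.2, y ∈ (m x.2.1).dom cx x.1.1 x.2.2.1)

/-- the module -/
noncomputable def md : Mod where
  X := X
  T := (Bool × F) ⊕ (U × Bool × F)
  S := Option Ans ⊕ Option Ans
  eX := inferInstance
  eT := inferInstance
  eS := inferInstance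
  part := (pT i m).sum (pJ m)
  ent _ s := .inl (.inl s)
  Pre := Pre m
  Post cx x := cx.Post (st x)

/-- the free calls: only the last frame buys many -/
def al (cx : Cx) : X → ℕ :=
  Sum.elim (Sum.elim (fun _ => 1) (Sum.elim (fun _ => cx.mA) (fun _ => 1))) (fun _ => 1)

variable {i m}

theorem pt_al : PT (fun x : Cx × X => al x.1 x.2) := by unfold al; fun_prop

theorem pt_case {α β : Type} [Enc α] [Enc β] {b : α → Bool} {f : Bool → α → β} (hb : PT b)
    (h : ∀ c, PT (f c)) : PT (fun a => f (b a) a) :=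
  (PT.cond hb (h true) (h false)).of_eq fun a => by cases b a <;> rfl

theorem poly (h : ∀ b, (m b).Poly) : (md i m).Poly := by
  have h0 : PT (o0 i) := by
    unfold o0 iT
    cases i
    · simp only [cond_false]; fun_prop
    · simp only [cond_true]; fun_prop
  have h1 : PT (fun p : Cx × ZS => o1 p.1 p.2) := by
    have := MVMOD.pt_pref (u := fun p : Cx × ZS => (p.2.2 ++ p.2.2).map (fun _ => ()))
      (by fun_prop)
    unfold o1 iS iU; fun_prop
  have h2 : PT (fun p : Cx × ZS × Bool × Tm × List Unit => o2 m p.1 p.2) := by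
    have := pt_case (b := fun p : Cx × ZS × Bool × Tm × List Unit => p.2.2.1)
      (f := fun b p => (m b).dom p.1 p.2.1.1 p.2.2.2.1) (by fun_prop) fun b =>
        (h b).dom.comp (g := fun p : Cx × ZS × Bool × Tm × List Unit =>
          (p.1, p.2.1.1, p.2.2.2.1)) (by fun_prop)
    unfold o2; fun_prop
  have h3 : (pT i m).Poly := tryP_poly (PT.const _) (by
    unfold oT
    refine pt_sumElim (by fun_prop) (h0.comp (by fun_prop)) (pt_sumElim (by fun_prop)
      (by fun_prop) (pt_sumElim (by fun_prop) ?_ ?_))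
    · exact h1.comp (g := fun q : (((Cx × XT) × _) × _) × ZS => (q.1.1.1.1, q.2)) (by fun_prop)
    · exact h2.comp (g := fun q : (((Cx × XT) × _) × _) × ZS × Bool × Tm × List Unit =>
        (q.1.1.1.1, q.2)) (by fun_prop))
  have h4 : (pJ m).Poly := joinP_poly (by fun_prop) (by fun_prop) (by
    have := pt_case (b := fun p : Cx × XJ => p.2.2.1)
      (f := fun b p => (m b).br p.1 p.2.1.1 p.2.1.2 p.2.2.2.1 p.2.2.2.2) (by fun_prop) fun b =>
        (h b).br.comp (g := fun p : Cx × XJ => (p.1, p.2.1.1, p.2.1.2, p.2.2.2.1, p.2.2.2.2))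
          (by fun_prop)
    unfold oJ iT; fun_prop) (PT.const _)
  exact ⟨h3.sum h4, PT.inl (PT.inl (by fun_prop)), fun _ s => by
    change size (Sum.inl (Sum.inl s) : X) ≤ _
    simp only [Part.size_inl]; omega⟩

theorem mem_o1 (hc : cx.Ok) {x : ZS} (h0 : cx.WF0 x.1) {t : Bool × F} (h : t ∈ o1 cx x) :
    t = (false, .inr (iS x.1)) ∨ cx.WF x.1 ∧ ∃ b, ∃ p ∈ x.1.A.1, ∃ k : List Unit,
      k.length ≤ 2 * x.2.length ∧ t = (false, .inr (iU (x, b, p, k))) := by
  refine (List.mem_cons.1 h).imp id fun h => ?_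
  cases h1 : Nat.ble x.1.A.1.length cx.big.length && Nat.ble x.1.B.1.length cx.big.length <;>
    rw [h1] at h
  · cases h
  simp only [Bool.and_eq_true, Nat.ble_eq, hc.big] at h1
  obtain ⟨e, a, rfl⟩ := List.mem_map.1 h
  obtain ⟨a1, a2⟩ := mem_prodL.1 (mem_prodL.1 a).2
  obtain ⟨j, _, a3⟩ := List.mem_map.1 a2
  refine ⟨⟨h0, h1.1, h1.2⟩, e.1, e.2.1, by simpa using (List.mem_filter.1 a1).2, e.2.2, ?_, rfl⟩
  rw [← a3]
  exact (List.length_take_le' _ _).trans (by simp; omega)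

theorem mem_o2 {x : ZS × Bool × Tm × List Unit} {t : Bool × F} (h : t ∈ o2 m cx x) :
    ∃ l : List Tm, l.length = x.2.2.2.length ∧ (∀ y ∈ l, y ∈ (m x.2.1).dom cx x.1.1 x.2.2.1) ∧
      t = (false, .inr (.inr (x.1, x.2.1, x.2.2.1, l))) := by
  obtain ⟨l, a, rfl⟩ := List.mem_map.1 h
  exact ⟨l, (tuples_sound a).1, (tuples_sound a).2, rfl⟩

theorem sound (h : ∀ b, (m b).Sound) : (md i m).Sound := by
  refine ⟨fun _ _ _ hs => ⟨hs.toWF0, fun _ ha => ha⟩, fun cx x hc hx => ?_⟩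
  rcases x with x | x
  · refine ((Part.Emb.refl (pT i m)).inl _).snd (x := x)
      (tryP_snd (fun _ e => nomatch e) fun _ t ht => ?_)
    rcases x with s | s | x | x
    · obtain ⟨I, _, rfl⟩ := List.mem_map.1 ht
      exact ⟨hx, fun _ ha => ha⟩
    · obtain rfl := List.mem_singleton.1 ht
      exact ⟨hx, fun _ ha => ha⟩
    · rcases mem_o1 hc hx ht with rfl | ⟨w, b, p, hp, k, _, rfl⟩
      · exact ⟨hx, fun _ ha => ha⟩
      · exact ⟨⟨w, hp⟩, fun _ ha => ha⟩
    · obtain ⟨l, _, hl, rfl⟩ := mem_o2 ht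
      exact ⟨⟨hx.1, hx.2, hl⟩, fun _ ha => ha⟩
  · obtain ⟨A, a1, _, a3, a4⟩ := x.1.1.sol_coset
    refine ((Part.Emb.refl (pJ m)).inr _).snd (x := x)
      (joinP_snd (I := x.1.1.Sol) (N := x.1.1.Tgt) ((hx.1.toWF0.faith hc).mono a1) a3 a4
        (fun a b1 b2 b3 => ⟨b1, b2, b3⟩) fun L e => ?_)
    obtain ⟨L0, e0, rfl⟩ := Option.map_eq_some_iff.1 e
    obtain ⟨c1, c2⟩ := h _ cx _ _ _ _ L0 hc hx.1 hx.2.1 hx.2.2 e0
    refine ⟨gen_le.2 (by simp), fun t ht => ?_, fun g hg => ?_⟩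
    · obtain ⟨s', d1, rfl⟩ := List.mem_map.1 ht
      exact ⟨(c1 s' d1).1, fun a ha g hg => by
        rw [one_mul]; exact (c1 s' d1).2 (Cx.Post.hi ha hg)⟩
    · obtain ⟨s', d1, d2⟩ := c2 g hg
      exact ⟨_, List.mem_map.2 ⟨s', d1, rfl⟩, 1, one_mem _, fun a ha => by
        simpa using Cx.Post.lo ha d2⟩

theorem pws (hc : cx.Ok) : 2 ^ (2 * cx.lam + 4) ≤ cx.pd ∧
    ∀ a b, a < b → 100 * cx.pd ^ a ≤ cx.pd ^ b := by
  have n1 := hc.nums.1
  have := hc.lam
  have n0 : 100 ≤ cx.pd := le_trans (le_trans (by norm_num)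
    (Nat.pow_le_pow_right (by norm_num) (show 7 ≤ 8 * cx.lam by omega))) n1
  exact ⟨(Nat.pow_le_pow_right (by norm_num) (by omega)).trans n1, fun a b h =>
    le_trans (by rw [pow_succ, mul_comm]; exact Nat.mul_le_mul_left _ n0)
      (Nat.pow_le_pow_right (by omega) (Nat.succ_le_of_lt h))⟩

theorem pw0 (hc : cx.Ok) (b : ℕ) (h : 0 < b) : 100 ≤ cx.pd ^ b := by
  simpa using (pws hc).2 0 b h

theorem size_verts {φ : ℕ} (hc : cx.Ok) (h0 : cx.WF0 s) (hz : cx.Sz s φ) {u : List Tm}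
    (h1 : u.length ≤ cx.pd) (h2 : ∀ y ∈ u, y ∈ s.A.1) : size u ≤ cx.pd ^ 7 := by
  have b3 := size_list_le (l := u) fun t ht => size_vtx hc h0 hz (Or.inl (h2 t ht))
  have w0 := pw0 hc 5 (by omega)
  have w1 := (pws hc).2 6 7 (by omega)
  have w2 := pw0 hc 6 (by omega)
  have b4 : u.length * (cx.pd ^ 5 + 1) ≤ cx.pd * (2 * cx.pd ^ 5) := Nat.mul_le_mul h1 (by omega)
  rw [mul_left_comm, show cx.pd * cx.pd ^ 5 = cx.pd ^ 6 by ring] at b4
  omega

theorem len_le (h : cx.WF s) {u : List Tm} (h1 : u.Nodup) (h2 : ∀ y ∈ u, y ∈ s.A.1) :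
    u.length ≤ 2 ^ cx.lam := (List.subperm_of_subset h1 h2).length_le.trans h.ca

variable {B φ k : ℕ} {E : ℕ → ℕ → F → Option Ans}

theorem small (hc : cx.Ok) (hB : cx.pd ^ 14 ≤ B) {T : Type} [Enc T] (u : List T)
    (b1 : u.length ≤ cx.pd) (b2 : ∀ t ∈ u, size t + 1 ≤ cx.pd ^ 12) : (0 + 4 + 1) * size u ≤ B := by
  have w0 := pw0 hc 12 (by omega)
  have w1 := (pws hc).2 12 13 (by omega)
  have w2 := (pws hc).2 13 14 (by omega)
  have b3 := size_list_le (l := u) (b := cx.pd ^ 12 - 1) fun t ht => by have := b2 t ht; omega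
  rw [Nat.sub_add_cancel (by omega)] at b3
  have b4 : u.length * cx.pd ^ 12 ≤ cx.pd ^ 13 := by
    rw [pow_succ' cx.pd 12]; exact Nat.mul_le_mul_right _ b1
  omega

/-- a frame that tries its options -/
theorem haltT (hc : cx.Ok) (hB : cx.pd ^ 14 ≤ B) (env : (md i m).EnvA al cx B E) (hk : 0 < k)
    {x : XT} (hx : size x ≤ cx.pd ^ 12) (h0 : cx.WF0 (st (.inl x)))
    (h1 : (oT i m cx x).length ≤ cx.pd)
    (h2 : ∀ t ∈ oT i m cx x, size t + 1 ≤ cx.pd ^ 12 ∧ (md i m).pre cx t.2 ∧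
      ∀ a, (md i m).post cx t.2 a → cx.Post (st (.inl x)) a)
    {c j : ℕ} (e1 : al cx (.inl x) = j) (e2 : prc (oT i m cx x).length j = c) (hp : c ≤ φ) {g : F}
    (h3 : (false, g) ∈ oT i m cx x) (h4 : E (φ - c) j g ≠ none) :
    E φ k (.inr (.inl x)) ≠ none := by
  subst e1 e2
  let e : Part.Emb _ (md i m).part (0 + 4) := (Part.Emb.refl (pT i m)).inl _
  have w0 := pw0 hc 3 (by omega)
  have w1 := (pws hc).2 3 12 (by omega)
  have w2 := (pws hc).2 12 14 (by omega)
  have l : ((md i m).part.todo cx (e.f x)).length = (oT i m cx x).length := by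
    rw [e.todo, List.length_map]; rfl
  have z : ∀ ψ j, ∀ t ∈ oT i m cx x, size (E ψ j t.2) ≤ B - 4 := fun ψ j t ht => by
    have := Cx.Post.size hc h0 (r := E ψ j t.2) fun a ha =>
      (h2 t ht).2.2 a (env.snd _ _ _ a (h2 t ht).2.1 ha)
    omega
  refine env.halt φ k (e.f x) (· ≠ none) hk ((e.sf x).trans (by omega))
    ((e.size_todo cx x).trans (small hc hB _ h1 fun t ht => (h2 t ht).1)) (l ▸ hp) ?_
  rw [l, ← Nat.sub_add_cancel (show 0 + 4 ≤ B by omega)]
  exact e.loc (tryP_loc_paid (by rw [size_none]; omega)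
    (fun _ t ht => ⟨z _ _ t ht, z _ _ t ht⟩) fun _ => ⟨g, h3, h4⟩)

/-- the fuel suffices for the frames that choose the next move -/
def WT (cx : Cx) (E : ℕ → ℕ → F → Option Ans) (φ : ℕ) (v : Vw U Tm) (Z : Finset Tm) : Prop :=
  ∀ φ' (x : ZS), φ ≤ φ' → cx.WF0 x.1 → cx.Sz x.1 φ' → cx.view x.1 = v → x.2.Nodup →
    (∀ y ∈ x.2, y ∈ x.1.A.1) → x.2.toFinset = Z → E φ' 1 (.inr (iT x)) ≠ none

theorem size_zs (hc : cx.Ok) {x : ZS} (h0 : cx.WF0 x.1) (hz : cx.Sz x.1 φ) (h1 : x.2.Nodup)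
    (h2 : ∀ y ∈ x.2, y ∈ x.1.A.1) : size x ≤ 3 * cx.pd ^ 11 ∧ x.2.length ≤ 2 ^ cx.lam := by
  have l := len_le (hz.wf h0) h1 h2
  have a1 := size_sta hc h0 hz
  have a2 := size_verts hc h0 hz (l.trans ((Nat.pow_le_pow_right (by norm_num)
    (by omega)).trans (pws hc).1)) h2
  have w0 := pw0 hc 7 (by omega)
  have w1 := (pws hc).2 7 11 (by omega)
  rw [size_prod]
  exact ⟨by omega, l⟩

/-- the frame that chooses the next move -/
theorem halt1 (hc : cx.Ok) (hB : cx.pd ^ 14 ≤ B) (env : (md i m).EnvA al cx B E) {x : ZS}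
    (h0 : cx.WF0 x.1) (hz : cx.Sz x.1 φ) (h1 : x.2.Nodup) (h2 : ∀ y ∈ x.2, y ∈ x.1.A.1)
    (hp : 2 * bl x.2.length + 6 ≤ φ) {g : X}
    (h3 : g = iS x.1 ∨ ∃ b, ∃ p ∈ x.2, ∃ k : List Unit, k.length ≤ 2 * x.2.length ∧
      g = iU (x, b, p, k))
    (h4 : ∀ c, bl x.2.length + 1 ≤ c → c ≤ 2 * bl x.2.length + 6 → E (φ - c) 1 (.inr g) ≠ none) :
    E φ 1 (.inr (iT x)) ≠ none := by
  have w := hz.wf h0
  obtain ⟨z1, z2⟩ := size_zs hc h0 hz h1 h2
  have w0 := pw0 hc 1 (by omega)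
  have w1 := (pws hc).2 1 5 (by omega)
  have w2 := (pws hc).2 5 11 (by omega)
  have w3 := (pws hc).2 11 12 (by omega)
  have w4 := (pws hc).1
  rw [pow_one] at w0 w1
  have gd : (Nat.ble x.1.A.1.length cx.big.length && Nat.ble x.1.B.1.length cx.big.length) = true := by
    simp only [Bool.and_eq_true, Nat.ble_eq, hc.big]
    exact ⟨w.ca, w.cb⟩
  have fl : x.2.filter (fun p => x.1.A.1.contains p) = x.2 :=
    List.filter_eq_self.2 fun y hy => by simpa using h2 y hy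
  have l1 : (o1 cx x).length = 2 * (x.2.length * (2 * x.2.length + 1)) + 1 := by
    simp only [o1, gd, fl, cond_true, MVMOD.pref, List.length_cons, List.length_map, length_prodL,
      List.length_range, List.length_append, List.length_nil]
    ring
  have l2 : ∀ j, x.2.length < 2 ^ j → (o1 cx x).length ≤ 2 ^ (2 * j + 2) := fun j hj => by
    rw [l1, show 2 ^ (2 * j + 2) = 4 * (2 ^ j * 2 ^ j) by ring]
    nlinarith
  have l3 := bl_le (l2 _ (lt_two_pow_bl _))
  have l4 : bl x.2.length ≤ bl (o1 cx x).length := bl_mono (by rw [l1]; nlinarith)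
  have l5 := l2 (cx.lam + 1) (by rw [pow_succ]; have := Nat.two_pow_pos cx.lam; omega)
  have l6 : 2 ^ (cx.lam + 1) ≤ cx.pd := (Nat.pow_le_pow_right (by norm_num) (by omega)).trans w4
  rw [pow_succ] at l6
  have z3 : size x.1 ≤ size x := by rw [size_prod x]; omega
  refine haltT (x := .inr (.inr (.inl x))) hc hB env one_pos ?_ h0 (l5.trans w4) (fun t ht => ?_)
    (c := bl (o1 cx x).length + 3) rfl (prc_one _) (by omega) (g := .inr g) ?_
    (h4 _ (by omega) (by omega))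
  · simp only [Part.size_inl, Part.size_inr]; omega
  · have := size_bool false
    rcases mem_o1 hc h0 ht with rfl | ⟨_, b, p, b1, k, b2, rfl⟩
    · refine ⟨?_, h0, fun _ ha => ha⟩
      simp only [iS, size_pair, Part.size_inl, Part.size_inr]; omega
    · refine ⟨?_, ⟨w, b1⟩, fun _ ha => ha⟩
      have := size_vtx hc h0 hz (Or.inl b1)
      have := size_bool b
      simp only [iU, size_pair, Part.size_inl, Part.size_inr, MVMOD.units]; omega
  · change _ ∈ o1 cx x
    rcases h3 with rfl | ⟨b, p, b1, k, b2, rfl⟩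
    · exact List.mem_cons_self
    refine List.mem_cons_of_mem _ ?_
    rw [gd, fl, cond_true]
    refine List.mem_map.2 ⟨(b, p, k), mem_prodL.2 ⟨by cases b <;> simp, mem_prodL.2 ⟨b1,
      List.mem_map.2 ⟨k.length, by simp; omega, ?_⟩⟩⟩, rfl⟩
    exact List.ext_getElem (by simp; omega) fun _ _ _ => rfl

theorem stop (hc : cx.Ok) (hB : cx.pd ^ 14 ≤ B) (env : (md i m).EnvA al cx B E) {v : Vw U Tm}
    {Z : Finset Tm} (h1 : cx.P.g ≤ φ) (h2 : cx.Wn (fun ψ s' => E ψ cx.mE (.inl s')) (φ - cx.P.g) v) :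
    WT cx E φ v Z := fun φ' x a1 a2 a3 a4 a5 a6 _ => by
  have g : cx.P.g = 16 * (cx.lam + 1) := rfl
  have l := bl_le (size_zs hc a2 a3 a5 a6).2
  have l0 := hc.lam
  have z1 := size_sta hc a2 a3
  have w0 := pw0 hc 11 (by omega)
  have w3 := (pws hc).2 11 12 (by omega)
  refine halt1 hc hB env a2 a3 a5 a6 (by omega) (.inl rfl) fun c _ b2 => ?_
  have p : prc 1 cx.mE = 2 * cx.lam + 6 := by
    rw [Cx.prc_mE, show bl 1 = 1 from rfl]; omega
  refine haltT (x := .inr (.inl x.1)) hc hB env one_pos ?_ a2 ?_ (fun t ht => ?_) hc.mA p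
    (by omega) (g := .inl x.1) (List.mem_singleton_self _) ?_
  · simp only [Part.size_inl, Part.size_inr]; omega
  · exact Nat.one_le_two_pow.trans (pws hc).1
  · obtain rfl := List.mem_singleton.1 ht
    have := size_bool false
    refine ⟨?_, a2, fun _ ha => ha⟩
    simp only [size_pair, Part.size_inl]; omega
  · have := h2 (φ' - c - (2 * cx.lam + 6) - cx.c0) (by unfold Cx.c0; omega) x.1 a2
      (a3.mono (by omega)) a4
    rwa [Nat.sub_add_cancel (by unfold Cx.c0; omega)] at this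

theorem move (hc : cx.Ok) (hB : cx.pd ^ 14 ≤ B) (env : (md i m).EnvA al cx B E) {b : Bool}
    {R : LRule} (hs : (m b).Sound) (h : (m b).Wins R) {v : Vw U Tm} {Z : Finset Tm}
    (hR : R cx.P (WT cx E) φ v Z) : WT cx E φ v Z := by
  rintro φ' ⟨s, Y⟩ hφ h0 hz rfl y1 y2 rfl
  have hw := hz.wf h0
  obtain ⟨p, hp, l, L, c, a1, a2, a3, a4, a5, a6, a7, a8, a9⟩ :=
    h cx _ φ φ' s Y hc hφ hw hz y1 y2 hR
  have hp' := y2 p hp
  have hS := (hs cx s Y p l L hc hw hp' a2 a5).1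
  obtain ⟨z1, z2⟩ := size_zs (x := (s, Y)) hc h0 hz y1 y2
  have w0 := pw0 hc 1 (by omega)
  have w1 := (pws hc).2 1 3 (by omega)
  have w2 := (pws hc).2 3 5 (by omega)
  have w3 := (pws hc).2 5 7 (by omega)
  have w4 := (pws hc).2 7 11 (by omega)
  have w5 := (pws hc).2 11 12 (by omega)
  have w6 := (pws hc).2 12 14 (by omega)
  rw [pow_one] at w0 w1
  have l6 : 2 ^ (cx.lam + 1) ≤ cx.pd :=
    (Nat.pow_le_pow_right (by norm_num) (by omega)).trans (pws hc).1
  rw [pow_succ] at l6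
  have zp := size_vtx hc h0 hz (Or.inl hp')
  have zb := size_bool b
  have zf := size_bool false
  obtain ⟨k, k1⟩ : ∃ k : List Unit, k.length = l.length := ⟨l.map fun _ => (), by simp⟩
  change Y.length ≤ _ at z2
  refine halt1 (x := (s, Y)) hc hB env h0 hz y1 y2 (by change 2 * bl Y.length + 6 ≤ _; omega)
    (.inr ⟨b, p, hp, k, k1 ▸ a1, rfl⟩) fun c1 b1 b2 => ?_
  change bl Y.length + 1 ≤ c1 at b1
  change c1 ≤ 2 * bl Y.length + 6 at b2
  have l2 : (o2 m cx ((s, Y), b, p, k)).length ≤ ((m b).dom cx s p).length ^ l.length := by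
    rw [o2, List.length_map, ← k1]; exact length_tuples_le _ _ _
  have q2 := bl_mono l2
  refine haltT (x := .inr (.inr (.inr ((s, Y), b, p, k)))) hc hB env one_pos ?_ h0 (l2.trans a4)
    (fun t ht => ?_) (c := bl (o2 m cx ((s, Y), b, p, k)).length + 3) rfl (prc_one _) (by omega)
    (g := .inr (.inr ((s, Y), b, p, l)))
    (List.mem_map.2 ⟨l, tuples_complete (by rw [k1]; exact a4) k1.symm a2, rfl⟩) ?_
  · simp only [size_pair (s, Y), size_pair b, size_pair p, Part.size_inr, MVMOD.units]; omega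
  · obtain ⟨l', b3, b4, rfl⟩ := mem_o2 ht
    have := size_verts (u := l') hc h0 hz (by rw [b3]; change k.length ≤ _; omega)
      fun y hy => a3 y (b4 y hy)
    refine ⟨?_, ⟨hw, hp', b4⟩, fun _ ha => ha⟩
    simp only [size_pair (s, Y), size_pair b, size_pair p, size_pair false, Part.size_inr]; omega
  generalize bl (o2 m cx ((s, Y), b, p, k)).length = c2 at q2
  have l3 : oJ m cx ((s, Y), b, p, l) = some (L.map (fun e => (1, false, .inr (iT e)))) := by
    simp only [oJ, a5, Option.map_some]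
  have l4 : (pJ m).todo cx ((s, Y), b, p, l) = L.map (fun e => (1, false, .inr (iT e))) := by
    change (oJ m cx _).getD [] = _
    rw [l3]; rfl
  have y3 : ∀ e ∈ L, ∀ c', bl Y.length + 1 ≤ c' → c' ≤ c → cx.Sz e.1 (φ' - c') :=
    fun e b1 c' b2 b3 => hz.growL (a9 e b1).1 b2 (by omega)
  let e : Part.Emb _ (md i m).part (0 + 4) := (Part.Emb.refl (pJ m)).inr _
  have l5 : prc ((md i m).part.todo cx (e.f ((s, Y), b, p, l))).length
      (al cx (e.f ((s, Y), b, p, l))) = bl L.length + 3 := by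
    rw [e.todo, List.length_map, l4, List.length_map]; exact prc_one _
  refine env.halt _ 1 (e.f ((s, Y), b, p, l)) (· ≠ none) one_pos ((e.sf _).trans ?_)
    ((e.size_todo cx _).trans (small hc hB _ (by rw [l4, List.length_map]; exact a6)
      fun t ht => ?_)) (by rw [l5]; omega) ?_
  · have := size_verts (u := l) hc h0 hz (by omega) fun y hy => a3 y (a2 y hy)
    simp only [size_pair (s, Y), size_pair b, size_pair p]; omega
  · rw [l4] at ht
    obtain ⟨e, b1, rfl⟩ := List.mem_map.1 ht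
    have := (size_zs hc (hS e b1).1 (y3 e b1 c (by omega) le_rfl) (a9 e b1).2.1 (a9 e b1).2.2.1).1
    have := size_el hc (one_mem (SymN cx.n))
    simp only [iT, size_pair (1 : U), size_pair false, Part.size_inl, Part.size_inr]; omega
  rw [l5, ← Nat.sub_add_cancel (show 0 + 4 ≤ B by omega)]
  refine e.loc (joinP_loc (W := SymN cx.n) (n := cx.pd) l3 le_rfl
    (fun a ha => by have := size_ans hc ha; omega) fun u t v e => ?_)
  have ht : t ∈ u ++ t :: v := by simp
  rw [← e] at ht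
  clear e
  obtain ⟨e, b1, rfl⟩ := List.mem_map.1 ht
  have b2 := (a9 e b1).2.2.2 (φ' - (c1 + (c2 + 3) + (bl L.length + 3))) e (by omega) (hS e b1).1
    (y3 e b1 _ (by omega) (by omega)) rfl (a9 e b1).2.1 (a9 e b1).2.2.1 rfl
  obtain ⟨a, b3⟩ := Option.ne_none_iff_exists'.1 b2
  have b4 := Cx.Post.sym (hS e b1).1 (env.snd _ _ (.inr (iT e)) a (hS e b1).1 b3)
  refine ⟨one_mem _, a, ?_, fun q hq => ⟨(b4 q hq).2.2.1, (b4 q hq).2.2.2.1, (b4 q hq).2.2.2.2.1⟩⟩
  rw [← b3]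
  change E _ _ _ = E _ _ _
  congr 1
  omega

theorem wins (hs : ∀ b, (m b).Sound) (h1 : (m true).Wins (LPin i)) (h2 : (m false).Wins (LQuo i)) :
    (md i m).WinsA al (RBat i) := by
  refine ⟨14, fun cx B E hc hB env φ φ' s hφ h0 hz ⟨Z, a1, a2, a3⟩ => ?_⟩
  have key : ∀ ψ v Y, Bat cx.P (cx.Wn fun ψ s' => E ψ cx.mE (.inl s')) i ψ v Y → WT cx E ψ v Y := by
    intro ψ v Y h
    induction h with
    | stop φ v Z b1 b2 => exact stop hc hB env b1 b2
    | pin φ v Z C Q b1 b2 b3 b4 b5 _ ih => exact move hc hB env (hs _) h1 ⟨C, Q, b1, b2, b3, b4, b5, ih⟩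
    | quo φ v Z C prs b1 b2 b3 b4 b5 b6 _ ih =>
      exact move hc hB env (hs _) h2 ⟨C, prs, b1, b2, b3, b4, b5, b6, ih⟩
  have sub : ∀ I, ∀ y ∈ dd (atP (bif i then s.D else s.A.1) I), y ∈ s.A.1 := fun I y hy => by
    have := atP_sub (mem_dd.1 hy)
    cases i
    exacts [this, h0.dA this]
  obtain ⟨I, b1, b2⟩ : ∃ I ∈ s.hs, (atP (bif i then s.D else s.A.1) I).toFinset = Z := by
    cases i
    · obtain ⟨I, b1, -, b2⟩ := a1
      exact ⟨I, b1, b2⟩
    · obtain ⟨I, b1, -, b2⟩ := a1.1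
      exact ⟨I, b1, b2⟩
  have l1 : (o0 i s).length ≤ 2 ^ cx.lam := by
    rw [o0, List.length_map]; exact (Nat.le_add_right _ _).trans hz.h
  have l2 := bl_le l1
  have g : cx.P.g = 16 * (cx.lam + 1) := rfl
  have z1 := size_sta hc h0 hz
  have w0 := pw0 hc 11 (by omega)
  have w3 := (pws hc).2 11 12 (by omega)
  refine haltT (x := .inl s) hc hB env (Nat.two_pow_pos _) ?_ h0 (l1.trans
    ((Nat.pow_le_pow_right (by norm_num) (by omega)).trans (pws hc).1)) (fun t ht => ?_)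
    (c := bl (o0 i s).length + 3) rfl (prc_one _) (by omega) (List.mem_map_of_mem b1) ?_
  · simp only [Part.size_inl]; omega
  · obtain ⟨J, _, rfl⟩ := List.mem_map.1 ht
    have := (size_zs (x := (s, dd (atP (bif i then s.D else s.A.1) J))) hc h0 hz (nodup_dd _)
      (sub J)).1
    have := size_bool false
    refine ⟨?_, h0, fun _ ha => ha⟩
    simp only [iT, size_pair false, Part.size_inl, Part.size_inr]; omega
  · exact key _ _ _ a3 (φ' - (bl (o0 i s).length + 3)) (s, _) (by omega) h0 (hz.mono (by omega)) rfl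
      (nodup_dd _) (sub I) (b2 ▸ Finset.ext fun x => by simp [mem_dd])

end MBAT

theorem mod_bat {i : Bool} (h1 : HasLv (LPin i)) (h2 : HasLv (LQuo i)) : HasModA (RBat i) := by
  obtain ⟨p, p1, p2, p3⟩ := h1
  obtain ⟨q, q1, q2, q3⟩ := h2
  exact ⟨MBAT.md i (fun b => bif b then p else q), MBAT.al,
    MBAT.poly fun b => by cases b; exacts [q1, p1], MBAT.pt_al,
    MBAT.sound fun b => by cases b; exacts [q2, p2],
    MBAT.wins (fun b => by cases b; exacts [q2, p2]) p3 q3⟩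

end Pool.Agent.P.MP_f1a348_lc.GX
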