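import Pool.Agent.P.MP_f1a348_lc.GY.DefsP
import Pool.Agent.P.MP_f1a348_lc.GX.LibInc
import Pool.Agent.P.MP_f1a348_lc.GY.LibF
import Pool.Agent.P.MP_f1a348_lc.GY.TPNUM
import Pool.Agent.P.MP_f1a348_lc.GY.TPSIZE

/-! Step MVMOD. -/

set_option autoImplicit false
set_option linter.unusedSectionVars false
set_option synthInstance.maxSize 4096

namespace Pool.Agent.P.MP_f1a348_lc.GX

open Pool.Agent.Lib.Helper47 Pool.Agent.P.MP_f1a348_lc.GI Pool.Agent.P.MP_f1a348_lc.TO
variable {cx : Cx} {s s' s'' : Sta}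

namespace MVMOD

/-- the frames -/
abbrev X : Type := Sta ⊕ (Sta × Tm × List Unit) ⊕ (Sta × Tm × List Tm)
/-- the frames that are called -/
abbrev F : Type := Sta ⊕ X

/-- one list of units for each length up to the length of `u` -/
def pref (u : List Unit) : List (List Unit) :=
  (List.range (() :: u).length).map (fun i => u.take i)

theorem pt_pref {α : Type} [Enc α] {u : α → List Unit} (h : PT u) : PT (fun a => pref (u a)) := by
  have := PT.rangeLength (l := fun a => () :: u a) (by fun_prop)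
  unfold pref; fun_prop

variable (m : Mv)

def o1 (cx : Cx) (s : Sta) : List (Bool × F) :=
  (prodL s.A.1 (pref cx.big)).map (fun e => (false, .inr (.inr (.inl (s, e.1, e.2)))))
def o2 (cx : Cx) (x : Sta × Tm × List Unit) : List (Bool × F) :=
  (tuples cx.pad (m.dom cx x.1 x.2.1) x.2.2).map
    (fun l => (false, .inr (.inr (.inr (x.1, x.2.1, l)))))
def o3 (cx : Cx) (x : Sta × Tm × List Tm) : Option (List (U × Bool × F)) :=
  (m.br cx x.1 x.2.1 x.2.2).map (fun L => L.map (fun s' => (1, false, .inl s')))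

abbrev p1 : Part Cx F Sta (Bool × F) (Option Ans) Ans := tryP (fun _ _ => none) o1
abbrev p2 : Part Cx F (Sta × Tm × List Unit) (Bool × F) (Option Ans) Ans :=
  tryP (fun _ _ => none) (o2 m)
noncomputable abbrev p3 : Part Cx F (Sta × Tm × List Tm) (U × Bool × F) (Option Ans) Ans :=
  joinP Cx.pad Cx.base (o3 m) (fun _ _ => [])

/-- the state of a frame -/
def st : X → Sta := Sum.elim id (Sum.elim (·.1) (·.1))

/-- the precondition -/
def Pre (cx : Cx) : X → Prop := Sum.elim cx.WF (Sum.elim (fun x => cx.WF x.1 ∧ x.2.1 ∈ x.1.A.1)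
  (fun x => cx.WF x.1 ∧ x.2.1 ∈ x.1.A.1 ∧ ∀ y ∈ x.2.2, y ∈ m.dom cx x.1 x.2.1))

/-- the module -/
noncomputable def md : Mod where
  X := X
  T := (Bool × F) ⊕ (Bool × F) ⊕ (U × Bool × F)
  S := Option Ans ⊕ Option Ans ⊕ Option Ans
  eX := inferInstance
  eT := inferInstance
  eS := inferInstance
  part := p1.sum ((p2 m).sum (p3 m))
  ent _ s := .inl s
  Pre := Pre m
  Post cx x := cx.Post (st x)

variable {m}

theorem poly (h : m.Poly) : (md m).Poly := by
  have h1 : p1.Poly := tryP_poly (PT.const _) (by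
    have := pt_pref (u := fun p : Cx × Sta => p.1.big) (by fun_prop)
    unfold o1; fun_prop)
  have h2 : (p2 m).Poly := tryP_poly (PT.const _) (by
    have := h.dom.comp (g := fun p : Cx × Sta × Tm × List Unit => (p.1, p.2.1, p.2.2.1))
      (by fun_prop)
    unfold o2; fun_prop)
  have h3 : (p3 m).Poly := joinP_poly (by fun_prop) (by fun_prop) (by
    have := h.br
    unfold o3; fun_prop) (PT.const _)
  exact ⟨h1.sum (h2.sum h3), PT.inl (by fun_prop), fun _ s =>
    (Part.size_inl s).le.trans (by omega)⟩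

theorem mem_o1 {t : Bool × F} (h : t ∈ o1 cx s) : ∃ p ∈ s.A.1, ∃ k : List Unit,
    k.length ≤ cx.big.length ∧ t = (false, .inr (.inr (.inl (s, p, k)))) := by
  obtain ⟨e, a, rfl⟩ := List.mem_map.1 h
  obtain ⟨a1, a2⟩ := mem_prodL.1 a
  obtain ⟨i, _, a3⟩ := List.mem_map.1 a2
  exact ⟨e.1, a1, e.2, a3 ▸ List.length_take_le' _ _, rfl⟩

theorem mem_o2 {x : Sta × Tm × List Unit} {t : Bool × F} (h : t ∈ o2 m cx x) : ∃ l : List Tm,
    l.length = x.2.2.length ∧ (∀ y ∈ l, y ∈ m.dom cx x.1 x.2.1) ∧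
      t = (false, .inr (.inr (.inr (x.1, x.2.1, l)))) := by
  obtain ⟨l, a, rfl⟩ := List.mem_map.1 h
  exact ⟨l, (tuples_sound a).1, (tuples_sound a).2, rfl⟩

theorem sound (h : m.Sound) : (md m).Sound := by
  refine ⟨fun _ _ _ hs => ⟨hs, fun _ ha => ha⟩, fun cx x hc hx => ?_⟩
  rcases x with s | x | x
  · refine ((Part.Emb.refl p1).inl _).snd (x := s) (tryP_snd (fun _ e => nomatch e) fun _ t ht => ?_)
    obtain ⟨p, hp, k, _, rfl⟩ := mem_o1 ht
    exact ⟨⟨hx, hp⟩, fun _ ha => ha⟩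
  · refine (((Part.Emb.refl (p2 m)).inl _).inr _).snd (x := x)
      (tryP_snd (fun _ e => nomatch e) fun _ t ht => ?_)
    obtain ⟨l, _, hl, rfl⟩ := mem_o2 ht
    exact ⟨⟨hx.1, hx.2, hl⟩, fun _ ha => ha⟩
  · obtain ⟨A, a1, _, a3, a4⟩ := x.1.sol_coset
    refine (((Part.Emb.refl (p3 m)).inr _).inr _).snd (x := x)
      (joinP_snd (I := x.1.Sol) (N := x.1.Tgt) ((hx.1.toWF0.faith hc).mono a1) a3 a4
        (fun a b1 b2 b3 => ⟨b1, b2, b3⟩) fun L e => ?_)
    obtain ⟨L0, e0, rfl⟩ := Option.map_eq_some_iff.1 e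
    obtain ⟨c1, c2⟩ := h cx _ _ _ L0 hc hx.1 hx.2.1 hx.2.2 e0
    refine ⟨gen_le.2 (by simp), fun t ht => ?_, fun g hg => ?_⟩
    · obtain ⟨s', d1, rfl⟩ := List.mem_map.1 ht
      exact ⟨(c1 s' d1).1, fun a ha g hg => by
        rw [one_mul]; exact (c1 s' d1).2 (Cx.Post.hi ha hg)⟩
    · obtain ⟨s', d1, d2⟩ := c2 g hg
      exact ⟨_, List.mem_map.2 ⟨s', d1, rfl⟩, 1, one_mem _, fun a ha => by
        simpa using Cx.Post.lo ha d2⟩

theorem halt {B d φ : ℕ} {E : ℕ → ℕ → F → Option Ans} (env : (md m).Env cx B E)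
    {Z T S : Type} [Enc Z] [Enc T] [Enc S] {P : Part Cx F Z T S Ans}
    (e : Part.Emb P (p1.sum ((p2 m).sum (p3 m))) d) {x : Z} (hx : size x + d ≤ B)
    (ht : (d + 1) * size (P.todo cx x) ≤ B)
    (hp : bl (P.todo cx x).length + (2 * cx.lam + 5) ≤ φ)
    (h : ∀ e1, (∀ f a, (md m).pre cx f → e1 f = some a → (md m).post cx f a) → P.Loc cx (B - d) e1
      (E (φ - (bl (P.todo cx x).length + (2 * cx.lam + 5))) cx.mE) x (· ≠ none)) :
    E φ cx.mE (.inr (e.f x)) ≠ none := by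
  have hc : (p1.sum ((p2 m).sum (p3 m))).price (cx.cfg B) (e.f x) =
      bl (P.todo cx x).length + (2 * cx.lam + 5) := by
    simp only [Part.price, Cx.cfg, e.todo, List.length_map, bl]
    omega
  have := e.loc (h (E φ (cx.mE - 1)) (env.snd _ _))
  rw [Nat.sub_add_cancel (by omega), ← hc] at this
  exact env.halt φ cx.mE (e.f x) (· ≠ none) (Nat.two_pow_pos _) ((e.sf x).trans hx)
    ((e.size_todo cx x).trans ht) (hc.le.trans hp) this

theorem units (l : List Unit) : size l = 2 * l.length + 1 := by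
  induction l with
  | nil => rfl
  | cons a l ih => rw [size_cons, ih, size_unit, List.length_cons]; omega

theorem wins {R : Rule} (hs : m.Sound) (h : m.Wins R) : (md m).Wins R := by
  refine ⟨14, fun cx B E hc hB env φ φ' s hφ h0 hz hR => ?_⟩
  have hw := hz.wf h0
  obtain ⟨p, hp, l, L, c, a1, a2, a3, a4, a5, a6, a7, a8, a9⟩ := h cx _ φ φ' s hc hφ hw hz hR
  have n1 := hc.nums.1
  have hS := (hs cx s p l L hc hw hp a2 a5).1
  have n0 : 100 ≤ cx.pd := le_trans (le_trans (by norm_num)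
    (Nat.pow_le_pow_right (by norm_num) (show 7 ≤ 8 * cx.lam by have := hc.lam; omega))) n1
  have n3 : 2 ^ (2 * cx.lam + 1) ≤ cx.pd :=
    (Nat.pow_le_pow_right (by norm_num) (by have := hc.lam; omega)).trans n1
  have n4 : 2 ^ cx.lam ≤ cx.pd := (Nat.pow_le_pow_right (by norm_num) (by omega)).trans n3
  have w1 : ∀ i j, i < j → 100 * cx.pd ^ i ≤ cx.pd ^ j := fun i j hij =>
    le_trans (by rw [pow_succ, mul_comm]; exact Nat.mul_le_mul_left _ n0)
      (Nat.pow_le_pow_right (by omega) (Nat.succ_le_of_lt hij))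
  have w0 := w1 0 1 (by omega)
  have w2 := w1 1 3 (by omega)
  have w3 := w1 3 5 (by omega)
  have w4 := w1 5 6 (by omega)
  have w5 := w1 6 11 (by omega)
  have w6 := w1 11 12 (by omega)
  have w7 := w1 12 13 (by omega)
  have w8 := w1 13 14 (by omega)
  rw [pow_one] at w2
  have z1 := size_sta hc h0 hz
  have z2 : ∀ t ∈ s.A.1, size t ≤ cx.pd ^ 5 := fun t ht => size_vtx hc h0 hz (Or.inl ht)
  have z3 : ∀ {T : Type} [Enc T] (u : List T), u.length ≤ cx.pd → (∀ t ∈ u, size t + 1 ≤ cx.pd ^ 12) →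
      9 * size u ≤ B := fun u b1 b2 => by
    have b3 := Pool.Agent.Lib.Helper47.size_list_le (l := u) (B := cx.pd ^ 12 - 1)
      fun t ht => by have := b2 t ht; omega
    rw [Nat.sub_add_cancel (by omega)] at b3
    have b4 : u.length * cx.pd ^ 12 ≤ cx.pd ^ 13 := by
      rw [pow_succ' cx.pd 12]; exact Nat.mul_le_mul_right _ b1
    omega
  have z4 : ∀ u : List Tm, u.length ≤ cx.pd → (∀ y ∈ u, y ∈ m.dom cx s p) → size u ≤ 2 * cx.pd ^ 6 + 1 :=
    fun u b1 b2 => by
      have b3 := Pool.Agent.Lib.Helper47.size_list_le (l := u) fun t ht => z2 t (a3 t (b2 t ht))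
      have b4 : u.length * (cx.pd ^ 5 + 1) ≤ cx.pd * (2 * cx.pd ^ 5) := Nat.mul_le_mul b1 (by omega)
      rw [mul_left_comm, show cx.pd * cx.pd ^ 5 = cx.pd ^ 6 by ring] at b4
      omega
  have z5 : ∀ (e : F → Option Ans) (x : X),
      (∀ f a, (md m).pre cx f → e f = some a → (md m).post cx f a) → Pre m cx x → st x = s →
      size (e (.inr x)) ≤ B - 8 := fun e x b1 b2 b3 => by
    have := Cx.Post.size hc h0 (r := e (.inr x)) fun a ha => b3 ▸ b1 (.inr x) a b2 ha
    omega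
  obtain ⟨k, hk⟩ : ∃ k, k = cx.big.take l.length := ⟨_, rfl⟩
  have k1 : k.length = l.length := by rw [hk, List.length_take, hc.big]; omega
  have l1 : (o1 cx s).length ≤ 2 ^ (2 * cx.lam + 1) := by
    simp only [o1, pref, List.length_map, length_prodL, List.length_range, List.length_cons, hc.big]
    have := Nat.two_pow_pos cx.lam
    have := Nat.mul_le_mul hw.ca (show 2 ^ cx.lam + 1 ≤ 2 ^ cx.lam * 2 by omega)
    rwa [← mul_assoc, ← pow_add, ← pow_succ, ← two_mul] at this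
  have l2 : (o2 m cx (s, p, k)).length ≤ (m.dom cx s p).length ^ l.length := by
    rw [o2, List.length_map, ← k1]; exact length_tuples_le _ _ _
  have l3 : o3 m cx (s, p, l) = some (L.map (fun s' => (1, false, .inl s'))) := by
    simp only [o3, a5, Option.map_some]
  have l4 : (p3 m).todo cx (s, p, l) = L.map (fun s' => (1, false, .inl s')) := by
    change (o3 m cx _).getD [] = _
    rw [l3]; rfl
  have q1 := bl_le l1
  have q2 := bl_mono l2
  have zp := z2 p hp
  refine halt env ((Part.Emb.refl p1).inl _) (x := s) (by omega) (le_trans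
    (Nat.mul_le_mul_right _ (by omega)) (z3 (o1 cx s) (l1.trans n3) fun t ht => ?_))
    (by change bl (o1 cx s).length + _ ≤ _; omega) fun e1 he1 => tryP_loc_paid
      (by rw [size_none]; omega) (fun _ t ht => ?_) fun _ => ⟨.inr (.inr (.inl (s, p, k))), ?_, ?_⟩
  · obtain ⟨p', b1, k', b2, rfl⟩ := mem_o1 ht
    have := z2 p' b1
    have := size_bool false
    rw [hc.big] at b2
    simp only [size_pair, Part.size_inl, Part.size_inr, units]
    omega
  · obtain ⟨p', b1, k', _, rfl⟩ := mem_o1 ht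
    exact ⟨(z5 _ (.inr (.inl (s, p', k'))) he1 ⟨hw, b1⟩ rfl).trans (by omega),
      (z5 _ (.inr (.inl (s, p', k'))) (env.snd _ _) ⟨hw, b1⟩ rfl).trans (by omega)⟩
  · refine List.mem_map.2 ⟨(p, k), mem_prodL.2 ⟨hp, List.mem_map.2 ⟨l.length, ?_, hk.symm⟩⟩, rfl⟩
    rw [List.mem_range, List.length_cons, hc.big]; omega
  change E (φ' - (bl (o1 cx s).length + _)) _ _ ≠ none
  refine halt env (((Part.Emb.refl (p2 m)).inl _).inr _) (x := (s, p, k)) ?_
    (z3 (o2 m cx (s, p, k)) (l2.trans a4) fun t ht => ?_)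
    (by change bl (o2 m cx (s, p, k)).length + _ ≤ _; omega) fun e1 he1 => tryP_loc_paid
      (by rw [size_none]; omega) (fun _ t ht => ?_) fun _ => ⟨.inr (.inr (.inr (s, p, l))), ?_, ?_⟩
  · simp only [size_pair, units]
    omega
  · obtain ⟨l', b1, b2, rfl⟩ := mem_o2 ht
    have := z4 l' (by rw [b1]; change k.length ≤ _; omega) b2
    have := size_bool false
    simp only [size_pair, Part.size_inr]
    omega
  · obtain ⟨l', _, b2, rfl⟩ := mem_o2 ht
    exact ⟨z5 _ _ he1 ⟨hw, hp, b2⟩ rfl, z5 _ _ (env.snd _ _) ⟨hw, hp, b2⟩ rfl⟩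
  · exact List.mem_map.2 ⟨l, tuples_complete (by rw [k1]; exact a4) k1.symm a2, rfl⟩
  change E (φ' - _ - (bl (o2 m cx (s, p, k)).length + _)) _ _ ≠ none
  have y1 : ∀ s' ∈ L, ∀ c', cx.lam + 1 ≤ c' → c' ≤ c → cx.Sz s' (φ' - c') :=
    fun s' b1 c' b2 b3 => hz.grow hc (a9 s' b1).1 b2 (by omega)
  refine halt env (((Part.Emb.refl (p3 m)).inr _).inr _) (x := (s, p, l)) ?_
    (z3 ((p3 m).todo cx (s, p, l)) (by rw [l4, List.length_map]; exact a6) fun t ht => ?_)
    (by rw [l4, List.length_map]; omega) fun e1 _ => joinP_loc (W := SymN cx.n) (n := cx.pd) l3 le_rfl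
      (fun a ha => by have := size_ans hc ha; omega) fun u t v e => ?_
  · have := z4 l (by omega) a2
    simp only [size_pair]
    omega
  · rw [l4] at ht
    obtain ⟨s', b1, rfl⟩ := List.mem_map.1 ht
    have := size_sta hc (hS s' b1).1 (y1 s' b1 c (by omega) le_rfl)
    have := size_ans hc (a := some (1, [])) (by
      rintro _ ⟨rfl⟩; exact ⟨one_mem _, gen_le.2 (by simp), Nat.zero_le _⟩)
    rw [size_some, size_pair] at this
    have := size_bool false
    simp only [size_pair, Part.size_inl]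
    omega
  · obtain ⟨s', b1, rfl⟩ := List.mem_map.1 (show t ∈ L.map _ by rw [e]; simp)
    rw [l4, List.length_map]
    obtain ⟨c', hc'⟩ : ∃ c', c' = bl (o1 cx s).length + (2 * cx.lam + 5) +
      (bl (o2 m cx (s, p, k)).length + (2 * cx.lam + 5)) + (bl L.length + (2 * cx.lam + 5)) +
      (2 * cx.lam + 9) := ⟨_, rfl⟩
    have b2 := (a9 s' b1).2 (φ' - c') (by omega) s' (hS s' b1).1
      (y1 s' b1 c' (by omega) (by omega)) rfl
    obtain ⟨a, b3⟩ := Option.ne_none_iff_exists'.1 b2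
    have b4 := Cx.Post.sym (hS s' b1).1 (env.snd _ _ (.inl s') a (hS s' b1).1 b3)
    refine ⟨one_mem _, a, ?_, fun q hq => ⟨(b4 q hq).2.2.1, (b4 q hq).2.2.2.1, (b4 q hq).2.2.2.2.1⟩⟩
    rw [← b3, Cx.c0]
    change E _ _ _ = E _ _ _
    congr 1
    omega

end MVMOD

theorem HasMv.mod {R : Rule} (h : HasMv R) : HasMod R := by
  obtain ⟨m, h1, h2, h3⟩ := h
  exact ⟨MVMOD.md m, MVMOD.poly h1, MVMOD.sound h2, MVMOD.wins h2 h3⟩

end Pool.Agent.P.MP_f1a348_lc.GX
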