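import Pool.Agent.P.MP_f1a348_lc.GY.TMUNI
import Pool.Agent.P.MP_f1a348_lc.GY.TMVMOD

/-! Step MCUT. -/

set_option autoImplicit false
set_option linter.unusedSectionVars false
set_option synthInstance.maxSize 4096

namespace Pool.Agent.P.MP_f1a348_lc.GX

open Pool.Agent.Lib.Helper47 Pool.Agent.P.MP_f1a348_lc.GI Pool.Agent.P.MP_f1a348_lc.TO
variable {cx : Cx} {s s' s'' : Sta}

namespace MCUTx

open MUNIx (In)

/-- the labels that the hints name -/
def hl (s : Sta) : List ℕ := s.hs.map (fun I => I.headD 0)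

theorem hl_len {φ : ℕ} (h : cx.Sz s φ) : (hl s).length ≤ 2 ^ cx.lam := by
  rw [hl, List.length_map]
  exact (Nat.le_add_right _ _).trans h.h

theorem hl_sz {φ : ℕ} (h : cx.Sz s φ) : ∀ c ∈ hl s, size c ≤ 4 * cx.pd ^ 3 + 1 := by
  intro c hc
  obtain ⟨I, a, rfl⟩ := List.mem_map.1 hc
  refine (size_nat_le _).trans ?_
  cases I with
  | nil => simp
  | cons i I =>
    have := (h.i _ a).2 i (by simp)
    simp only [List.headD_cons]
    omega

/-- the point `w` is linked by the label `c` to a point of `O` -/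
def lk (R : List (ℕ × List Tm)) (c : ℕ) (O : List Tm) (w : Tm) : Bool :=
  O.any (fun u => R.contains (c, [w, u]))

/-- the piece of the first side -/
noncomputable def xs (cx : Cx) (x : Sta × ℕ × Tm) (b : Bool) : List Tm :=
  x.1.X.filter (fun w => lk x.1.A.2 x.2.1 (cx.ob x.1 x.2.2) w == b)

/-- the piece of the second side -/
noncomputable def ys (cx : Cx) (x : Sta × ℕ × Tm) (b : Bool) : List Tm :=
  x.1.Y.filter (fun w => lk x.1.B.2 x.2.1 ((cx.ob x.1 x.2.2).map (fun u => x.1.σ • u)) w == b)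

/-- the state that is called -/
noncomputable def st2 (cx : Cx) (x : Sta × ℕ × Tm) (b : Bool) (c : U × List U) : Sta :=
  (x.1.cos c).act (xs cx x b) (ys cx x b)

/-- the frames -/
abbrev X : Type := Sta ⊕ (Sta × ℕ × Tm)
/-- the frames that are called -/
abbrev F : Type := Sta ⊕ X

def o1 (_ : Cx) (s : Sta) : List (Bool × F) :=
  (prodL (hl s) s.D).map (fun e => (false, .inr (.inr (s, e.1, e.2))))

abbrev p1 : Part Cx F Sta (Bool × F) (Option Ans) Ans := tryP (fun _ _ => none) o1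
noncomputable abbrev p2 : Part Cx F (Sta × ℕ × Tm) Bool (Option Ans) Ans :=
  chnP Cx.pad Cx.base (fun _ x => some (some x.1.c)) (fun _ _ => [true, false]) (fun _ => false)
    (fun cx x b c => (1, .inl (st2 cx x b c))) (fun _ _ => [])

/-- the state of a frame -/
def st : X → Sta := Sum.elim id (·.1)

/-- the precondition -/
def Pre (cx : Cx) : X → Prop := Sum.elim cx.WF (fun x => cx.WF x.1 ∧ x.2.2 ∈ x.1.D)

/-- the module -/
noncomputable def md : Mod where
  X := X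
  T := (Bool × F) ⊕ Bool
  S := Option Ans ⊕ Option Ans
  eX := inferInstance
  eT := inferInstance
  eS := inferInstance
  part := p1.sum p2
  ent _ s := .inl s
  Pre := Pre
  Post cx x := cx.Post (st x)

theorem poly : md.Poly := by
  have h1 : p1.Poly := tryP_poly (PT.const _) (by unfold o1 hl; fun_prop)
  have h2 : p2.Poly := chnP_poly (by fun_prop) (by fun_prop) (by fun_prop) (by fun_prop)
    (by fun_prop) (by unfold st2 xs ys lk; fun_prop) (by fun_prop)
  exact ⟨h1.sum h2, PT.inl (by fun_prop), fun _ s => (Part.size_inl s).le.trans (by omega)⟩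

theorem mem_o1 {t : Bool × F} (h : t ∈ o1 cx s) : ∃ c ∈ hl s, ∃ p ∈ s.D,
    t = (false, .inr (.inr (s, c, p))) := by
  obtain ⟨e, a, rfl⟩ := List.mem_map.1 h
  exact ⟨e.1, (mem_prodL.1 a).1, e.2, (mem_prodL.1 a).2, rfl⟩

theorem lk_iff {R : List (ℕ × List Tm)} {c : ℕ} {O : List Tm} {w : Tm} :
    lk R c O w = true ↔ ∃ u ∈ O, (c, [w, u]) ∈ R := by simp [lk]

variable {c : U × List U} {k : ℕ} {p : Tm} {b : Bool}

theorem wf2 (h : cx.WF s) (i : In cx s c) : cx.WF (st2 cx (s, k, p) b c) :=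
  ⟨(MUNIx.wf_cos h i).toWF0.act (h.nx.filter _) (h.ny.filter _)
    (fun x hx => h.xd x (List.mem_filter.1 hx).1)
    (fun y hy => (MUNIx.wf_cos h i).yd y (List.mem_filter.1 hy).1), h.ca, h.cb⟩

theorem tgt2 (hc : cx.Ok) (h : cx.WF s) (hp : p ∈ s.D) (i : In cx s c) {g : U} (hg : g ∈ s.Tgt)
    (e : g ∈ cs (some c)) : g ∈ (st2 cx (s, k, p) b c).Tgt := by
  obtain ⟨f, hf⟩ := hg
  obtain ⟨o1, -, o3, -⟩ := h.ob_view hc hp
  have g1 : s.σ⁻¹ * g ∈ gen s.S := mem_cs.1 hf.sol.1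
  refine ⟨f, Sta.act_wit ((Sta.cos_wit (cs_sub i.1 i.2.1)).2 ⟨hf, e⟩) fun x => ?_⟩
  simp only [xs, ys, List.mem_filter, beq_iff_eq]
  rw [← hf.sol.2 x]
  refine and_congr_right fun hx => ?_
  have key : ∀ u ∈ cx.ob s p, (k, [x, u]) ∈ s.A.2 ↔ (k, [g • x, g • u]) ∈ s.B.2 := fun u hu => by
    have := hf.iso.rel k [x, u] (by
      simpa using ⟨h.toWF0.dA (h.xd x hx), h.toWF0.dA (o1.subset hu)⟩)
    rwa [List.map_cons, List.map_singleton, hf.eq x (h.xd x hx), hf.eq u (o1.subset hu)] at this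
  rw [show lk s.A.2 k (cx.ob s p) x = lk s.B.2 k ((cx.ob s p).map (fun u => s.σ • u)) (g • x) from
    Bool.eq_iff_iff.2 ?_]
  rw [lk_iff, lk_iff]
  constructor
  · rintro ⟨u, hu, a⟩
    exact ⟨g • u, List.mem_map.2 ⟨_, o3 _ g1 u hu, by rw [mul_smul]; exact smul_inv_smul _ _⟩,
      (key u hu).1 a⟩
  · rintro ⟨_, hu, a⟩
    obtain ⟨u, hu', rfl⟩ := List.mem_map.1 hu
    refine ⟨_, o3 _ (inv_mem g1) u hu', (key _ (o3 _ (inv_mem g1) u hu')).2 ?_⟩
    simpa [← mul_smul] using a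

/-- the new coset -/
theorem next (hc : cx.Ok) (h : cx.WF s) (i : In cx s c) {a : Ans}
    (hb : cx.Post (st2 cx (s, k, p) b c) a) :
    cs (addG cx.pad cx.base [] (lmul 1 a)) = cs a ∧
      ∀ p ∈ addG cx.pad cx.base [] (lmul 1 a), In cx s p := by
  rcases a with _ | ⟨τ, T⟩
  · simp [addG, lmul]
  · obtain ⟨a1, a2, -, a4, -⟩ := hb.sym (wf2 h i).toWF0 (τ, T) rfl
    have e : gen (sims cx.pad cx.base T) = gen T := hc.faith.gen_sims a4
    refine ⟨?_, ?_⟩
    · ext g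
      simp only [addG, lmul, Option.map_some, one_mul, List.nil_append, mem_cs, e]
    · rintro p ⟨rfl⟩
      exact ⟨by simpa using cs_sub i.1 i.2.1 a1, (le_of_eq e).trans (a2.trans i.2.1),
        sims_length _ _ _⟩

theorem sound : md.Sound := by
  refine ⟨fun _ _ _ hs => ⟨hs, fun _ ha => ha⟩, fun cx x hc hx => ?_⟩
  rcases x with s | ⟨s, k, p⟩
  · refine ((Part.Emb.refl p1).inl _).snd (x := s) (tryP_snd (fun _ e => nomatch e) fun _ t ht => ?_)
    obtain ⟨c, -, p, hp, rfl⟩ := mem_o1 ht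
    exact ⟨⟨hx, hp⟩, fun _ ha => ha⟩
  obtain ⟨h, hp⟩ : cx.WF s ∧ p ∈ s.D := hx
  refine ((Part.Emb.refl p2).inr _).snd (x := (s, k, p)) (R := cx.Post s)
    (chnP_snd (fun (u : List Bool) a => s.Tgt ⊆ cs a ∧ (∀ q ∈ a, In cx s q) ∧
      ∀ g ∈ cs a, ∀ b ∈ u, Maps g (xs cx (s, k, p) b) (ys cx (s, k, p) b)) (fun a e => ?_)
      (fun u t v _ i => ⟨i.1, by simp, by simp⟩) (fun u t v a e i => ?_) (fun a i => ?_))
  · obtain rfl := Option.some.inj e
    exact ⟨fun g hg => (s.tgt_sol hg).1, by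
      rintro p ⟨rfl⟩
      exact ⟨self_mem_cs _ _, le_rfl, h.len⟩, by simp⟩
  · have i1 := i.2.1 a rfl
    refine ⟨(wf2 h i1).toWF0, fun b (hb : cx.Post (st2 cx (s, k, p) t a) b) => ?_⟩
    obtain ⟨n1, n2⟩ := next hc h i1 hb
    refine ⟨?_, n2, ?_⟩
    · rw [n1]
      exact fun g hg => hb.lo (tgt2 hc h hp i1 hg (i.1 hg))
    · rw [n1]
      intro g hg x hx
      obtain ⟨b1, b2⟩ := hb.hi hg
      rcases List.mem_append.1 hx with hx | hx
      · exact i.2.2 g b1 x hx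
      · rw [List.mem_singleton.1 hx]
        exact b2
  · refine ⟨i.1, fun g hg => ?_, fun p hp => (i.2.1 p hp).2.2⟩
    rcases a with _ | q
    · simp at hg
    · have i1 := i.2.1 q rfl
      refine ⟨cs_sub i1.1 i1.2.1 hg, fun x => ⟨fun hx => ?_, fun hx => ?_⟩⟩
      · exact (List.mem_filter.1 ((i.2.2 g hg _ (by cases lk s.A.2 k (cx.ob s p) x <;> simp) x).1
          (List.mem_filter.2 ⟨hx, beq_self_eq_true _⟩))).1
      · exact (List.mem_filter.1 ((i.2.2 g hg _ (by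
          cases lk s.B.2 k ((cx.ob s p).map (fun u => s.σ • u)) (g • x) <;> simp) x).2
          (List.mem_filter.2 ⟨hx, beq_self_eq_true _⟩))).1

theorem halt {B d φ : ℕ} {E : ℕ → ℕ → F → Option Ans} (env : md.Env cx B E)
    {Z T S : Type} [Enc Z] [Enc T] [Enc S] {P : Part Cx F Z T S Ans}
    (e : Part.Emb P (p1.sum p2) d) {x : Z} (hx : size x + d ≤ B)
    (ht : (d + 1) * size (P.todo cx x) ≤ B)
    (hp : bl (P.todo cx x).length + (2 * cx.lam + 5) ≤ φ)
    (h : ∀ e1, (∀ f a, md.pre cx f → e1 f = some a → md.post cx f a) → P.Loc cx (B - d) e1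
      (E (φ - (bl (P.todo cx x).length + (2 * cx.lam + 5))) cx.mE) x (· ≠ none)) :
    E φ cx.mE (.inr (e.f x)) ≠ none := by
  have hc : (p1.sum p2).price (cx.cfg B) (e.f x) =
      bl (P.todo cx x).length + (2 * cx.lam + 5) := by
    simp only [Part.price, Cx.cfg, e.todo, List.length_map, bl]
    omega
  have := e.loc (h (E φ (cx.mE - 1)) (env.snd _ _))
  rw [Nat.sub_add_cancel (by omega), ← hc] at this
  exact env.halt φ cx.mE (e.f x) (· ≠ none) (Nat.two_pow_pos _) ((e.sf x).trans hx)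
    ((e.size_todo cx x).trans ht) (hc.le.trans hp) this

theorem grow : cx.Grow s (st2 cx (s, k, p) b c) :=
  (Cx.Gro.of_eq (s := s) (s' := st2 cx (s, k, p) b c) rfl rfl rfl rfl).mono (Nat.zero_le _)
    (Nat.zero_le _) (Nat.zero_le _) Nat.one_le_two_pow

/-- the core: both calls succeed -/
theorem core {B φ φ' : ℕ} {E : ℕ → ℕ → F → Option Ans} (hc : cx.Ok) (hB : cx.pd ^ 14 ≤ B)
    (env : md.Env cx B E) (hφ : φ ≤ φ') (h0 : cx.WF0 s) (hz : cx.Sz s φ') (hk : k ∈ hl s)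
    (hp : p ∈ s.D) (hg : cx.P.g ≤ φ)
    (w1 : cx.Wn (fun ψ s' => E ψ cx.mE (.inl s')) (φ - cx.P.g) (cx.view (st2 cx (s, k, p) true s.c)))
    (w2 : ∀ c, In cx s c → cx.Wn (fun ψ s' => E ψ cx.mE (.inl s')) (φ - cx.P.g)
      (cx.view (st2 cx (s, k, p) false c))) : E φ' cx.mE (.inr (.inl s)) ≠ none := by
  have h := hz.wf h0
  have n1 := hc.nums.1
  have n4 := hc.lam
  have n0 := PSIZEx.pd_ge hc
  have n3 : 2 ^ (2 * cx.lam) ≤ cx.pd :=
    (Nat.pow_le_pow_right (by norm_num) (by omega)).trans n1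
  have w : ∀ i j, i < j → 100 * cx.pd ^ i ≤ cx.pd ^ j := fun i j hij =>
    le_trans (by rw [pow_succ, mul_comm]; exact Nat.mul_le_mul_left _ n0)
      (Nat.pow_le_pow_right (by omega) (Nat.succ_le_of_lt hij))
  have w0 := w 0 3 (by omega)
  have w3 := w 3 5 (by omega)
  have w5 := w 5 11 (by omega)
  have w6 := w 11 12 (by omega)
  have w7 := w 12 13 (by omega)
  have w8 := w 13 14 (by omega)
  rw [pow_zero] at w0
  have z1 := size_sta hc h0 hz
  have z2 : ∀ t ∈ s.D, size t ≤ cx.pd ^ 5 := fun t ht => size_vtx hc h0 hz (Or.inl (h0.dA ht))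
  have z5 : ∀ (e : F → Option Ans) (x : X),
      (∀ f a, md.pre cx f → e f = some a → md.post cx f a) → Pre cx x → st x = s →
      size (e (.inr x)) ≤ B - 4 := fun e x b1 b2 b3 => by
    have := Cx.Post.size hc h0 (r := e (.inr x)) fun a ha => b3 ▸ b1 (.inr x) a b2 ha
    omega
  have l1 : (o1 cx s).length ≤ 2 ^ (2 * cx.lam) := by
    simp only [o1, List.length_map, length_prodL]
    rw [two_mul, pow_add]
    exact Nat.mul_le_mul (hl_len hz) h.dlen.1
  have q1 := bl_le l1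
  have q2 : cx.P.g = 16 * (cx.lam + 1) := rfl
  have q3 : cx.c0 = 2 * cx.lam + 9 := rfl
  have zp := z2 p hp
  have zk := hl_sz hz k hk
  refine halt env ((Part.Emb.refl p1).inl _) (x := s) (by omega) ?_
    (by change bl (o1 cx s).length + _ ≤ _; omega) fun e1 he1 => tryP_loc_paid
      (by rw [size_none]; omega) (fun _ t ht => ?_) fun _ => ⟨.inr (.inr (s, k, p)),
        List.mem_map.2 ⟨(k, p), mem_prodL.2 ⟨hk, hp⟩, rfl⟩, ?_⟩
  · have b3 := Pool.Agent.Lib.Helper47.size_list_le (l := o1 cx s) (B := cx.pd ^ 12 - 1)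
      fun t ht => by
        obtain ⟨c, b1, q, b2, rfl⟩ := mem_o1 ht
        have := z2 q b2
        have := hl_sz hz c b1
        have := size_bool false
        simp only [size_pair, Part.size_inr]
        omega
    rw [Nat.sub_add_cancel (by omega)] at b3
    have b4 : (o1 cx s).length * cx.pd ^ 12 ≤ cx.pd ^ 13 := by
      rw [pow_succ' cx.pd 12]; exact Nat.mul_le_mul_right _ (l1.trans n3)
    change _ * size (o1 cx s) ≤ B
    omega
  · obtain ⟨c, -, q, b2, rfl⟩ := mem_o1 ht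
    exact ⟨z5 _ (.inr (s, c, q)) he1 ⟨h, b2⟩ rfl, z5 _ (.inr (s, c, q)) (env.snd _ _) ⟨h, b2⟩ rfl⟩
  change E (φ' - (bl (o1 cx s).length + _)) _ _ ≠ none
  have q4 : bl (p2.todo cx (s, k, p)).length ≤ 2 := bl_le (x := 2) (L := 1) le_rfl
  refine halt env ((Part.Emb.refl p2).inr _) (x := (s, k, p)) (by simp only [size_pair]; omega)
    ?_ (by omega) fun e1 _ => chnP_loc
      (fun u a => (∀ q ∈ a, In cx s q) ∧ (u = [] → a = some s.c)) (fun _ a i => ?_)
      ⟨_, rfl, by rintro p ⟨rfl⟩; exact ⟨self_mem_cs _ _, le_rfl, h.len⟩, fun _ => rfl⟩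
      (fun _ _ _ _ i => ⟨i.1, by simp⟩) fun u t v a e i => ?_
  · have := size_bool false
    have := size_bool true
    change _ * size [true, false] ≤ B
    simp only [size_cons, size_nil]
    omega
  · have := size_ans hc (a := a) fun p hp =>
      ⟨h0.cs_le (i.1 p hp).1, (i.1 p hp).2.1.trans h0.le, (i.1 p hp).2.2⟩
    omega
  · have i1 := i.1 a rfl
    have a0 : cx.Wn (fun ψ s' => E ψ cx.mE (.inl s')) (φ - cx.P.g)
        (cx.view (st2 cx (s, k, p) t a)) := by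
      cases t with
      | false => exact w2 a i1
      | true =>
        obtain rfl : u = [] := by
          rcases u with _ | ⟨_, _ | ⟨_, u⟩⟩ <;> simp at e ⊢
        rwa [Option.some.inj (i.2 rfl)]
    obtain ⟨c', hc'⟩ : ∃ c', c' = bl (o1 cx s).length + (2 * cx.lam + 5) +
      (bl (p2.todo cx (s, k, p)).length + (2 * cx.lam + 5)) + cx.c0 := ⟨_, rfl⟩
    have a1 := a0 (φ' - c') (by omega) _ (wf2 h i1).toWF0
      (hz.grow hc grow (by omega) (by omega)) rfl
    obtain ⟨b, hb⟩ := Option.ne_none_iff_exists'.1 a1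
    refine ⟨b, ?_, (next hc h i1 (env.snd _ _ (.inl _) b (wf2 h i1).toWF0 hb)).2, by simp⟩
    rw [← hb]
    change E _ _ _ = E _ _ _
    congr 1
    omega

theorem wins : md.Wins RCut := by
  refine ⟨14, fun cx B E hc hB env φ φ' s hφ h0 hz ⟨R, p, ⟨k, r1, _, r2⟩, r3, r4, r5, r6⟩ => ?_⟩
  have h := hz.wf h0
  have hp : p ∈ s.D := List.mem_toFinset.1 r3
  have o4 := (h.ob_view hc hp).2.2.2.1
  have m : ∀ b c, In cx s c → (cx.view s).Mono (cx.view (st2 cx (s, k, p) b c)) := fun b c i =>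
    (Cx.cos_mono i.2.1).trans (Cx.act_mono fun x hx => (List.mem_filter.1 hx).1)
  have key : ∀ w, lk s.A.2 k (cx.ob s p) w = true ↔ ∃ u ∈ (cx.view s).o p, R w u := fun w => by
    rw [lk_iff, ← o4]
    exact exists_congr fun u => and_congr List.mem_toFinset.symm (r2 w u).symm
  have i0 : In cx s s.c := ⟨self_mem_cs _ _, le_rfl, h.len⟩
  refine core (k := k) hc hB env hφ h0 hz (List.mem_map.2 ⟨[k], r1, rfl⟩) hp r4
    (r5 _ (wf2 h i0).view_ok ⟨m _ _ i0, rfl, rfl, rfl⟩ fun w hw => (key w).1 ?_)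
    fun c i => r6 _ (wf2 h i).view_ok (m _ _ i) fun w hw u hu e => ?_
  · simpa using (List.mem_filter.1 (List.mem_toFinset.1 hw)).2
  · have : (lk s.A.2 k (cx.ob s p) w == false) = true :=
      (List.mem_filter.1 (List.mem_toFinset.1 hw)).2
    rw [(key w).2 ⟨u, hu, e⟩] at this
    cases this

end MCUTx

theorem mod_cut : HasMod RCut := ⟨MCUTx.md, MCUTx.poly, MCUTx.sound, MCUTx.wins⟩

end Pool.Agent.P.MP_f1a348_lc.GX
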