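import Pool.Agent.P.MP_f1a348_lc.GY.DefsP
import Pool.Agent.P.MP_f1a348_lc.GX.LibInc
import Pool.Agent.P.MP_f1a348_lc.GY.LibF
import Pool.Agent.P.MP_f1a348_lc.GX.LibOrb
import Pool.Agent.P.MP_f1a348_lc.GY.TPNUM
import Pool.Agent.P.MP_f1a348_lc.GY.TPLAB

/-! Step PORB. -/

set_option autoImplicit false
set_option linter.unusedSectionVars false

namespace Pool.Agent.P.MP_f1a348_lc.GX

open Pool.Agent.Lib.Helper47 Pool.Agent.P.MP_f1a348_lc.GI Pool.Agent.P.MP_f1a348_lc.TO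
variable {cx : Cx} {s s' s'' : Sta}

namespace PORBx

theorem findIdx_congr {α : Type} {L : List α} {p q : α → Bool} (h : ∀ b ∈ L, p b = q b) :
    L.findIdx p = L.findIdx q := by
  induction L with
  | nil => rfl
  | cons t T ih =>
    rw [List.findIdx_cons, List.findIdx_cons, h t (by simp), ih fun s hs => h s (by simp [hs])]

/-- the labels of the side with the translation `τ` -/
noncomputable def lb (cx : Cx) (s : Sta) (τ : U) : List (ℕ × List Tm) :=
  orbR cx.pad cx.base s.S (tuples cx.pad s.D cx.um) 0 τ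

theorem orbN_eq {a : List Tm} (ha : a ∈ tuples cx.pad s.D cx.um) :
    cx.orbN s (tuples cx.pad s.D cx.um) a =
      olab cx.pad cx.base s.S (tuples cx.pad s.D cx.um) a :=
  findIdx_congr fun b hb => by
    simp [mvT, (tuples_sound ha).1, (tuples_sound hb).1]

theorem eq_lab (cx : Cx) (s : Sta) : cx.orbLab s =
    s.lab (lb cx s 1) (lb cx s s.σ) ((tuples cx.pad s.D cx.um).length + 1) := by
  unfold Cx.orbLab lb orbR
  congr 1 <;> exact List.map_congr_left fun a ha => by simp [orbN_eq ha]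

theorem lb_spec {τ : U} {e : ℕ × List Tm} (he : e ∈ lb cx s τ) :
    e.1 < (tuples cx.pad s.D cx.um).length + 1 ∧ e.2.length = cx.um.length ∧
      ∀ x ∈ e.2, ∃ y ∈ s.D, τ • y = x := by
  obtain ⟨-, h2, t, ht, h3⟩ := orbR_lab he
  refine ⟨by omega, by rw [← h3, List.length_map, (tuples_sound ht).1], fun x hx => ?_⟩
  obtain ⟨y, hy, c⟩ := List.mem_map.1 (h3 ▸ hx)
  exact ⟨y, (tuples_sound ht).2 y hy, c⟩

theorem dpad (hc : cx.Ok) (h : cx.WF s) : s.D.length ≤ cx.pad.length := by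
  have := hc.pow (k := 1) h.dlen.1 (by have := hc.nums; omega)
  rwa [pow_one] at this

theorem tt (hc : cx.Ok) (h : cx.WF s) (t : List Tm) :
    t ∈ tuples cx.pad s.D cx.um ↔ t.length = cx.um.length ∧ ∀ x ∈ t, x ∈ s.D :=
  mem_tuples_iff (hc.pow h.dlen.1 hc.nums.2.2.2.2.2.2.1) t

end PORBx
open PORBx

theorem Cx.WF.orbLab (h : cx.WF s) : cx.WF (cx.orbLab s) := by
  rw [eq_lab]
  refine h.lab (fun e he => ⟨(lb_spec he).1, fun x hx => ?_⟩)
    (fun e he => ⟨(lb_spec he).1, fun x hx => ?_⟩)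
  · obtain ⟨y, hy, rfl⟩ := (lb_spec he).2.2 x hx
    exact h.a.real y hy
  · obtain ⟨y, hy, rfl⟩ := (lb_spec he).2.2 x hx
    exact h.b.real y hy

theorem Cx.orbLab_eq : (cx.orbLab s).c = s.c ∧ (cx.orbLab s).D = s.D ∧ (cx.orbLab s).X = s.X ∧
    (cx.orbLab s).Y = s.Y ∧ (cx.orbLab s).A.1 = s.A.1 ∧ (cx.orbLab s).B.1 = s.B.1 := by
  exact ⟨rfl, rfl, rfl, rfl, rfl, rfl⟩

/- the list of tuples is complete (Ok.pow, tuples_complete); orbN is constant on orbits and
separates them (trL_isSome); g = sigma h -/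
theorem Cx.WF.orbLab_wit (hc : cx.Ok) (h : cx.WF s) {g : U} {f : Tm → Tm} (w : s.Wit g f) :
    (cx.orbLab s).Wit g f := by
  rw [eq_lab]
  exact h.toWF0.lab_wit.2 ⟨w, fun c l hl =>
    orbR_iso (h.toWF0.faith hc) h.inv (dpad hc h) (tt hc h) (τ := s.σ) w.sol.1
      (fun x hx => h.toWF0.dA hx) w.iso.bij.injOn w.eq 0 c hl⟩

theorem Cx.WF0.orbLab_mono (hc : cx.Ok) (h : cx.WF0 s) : (cx.view s).Mono (cx.view (cx.orbLab s)) := by
  rw [eq_lab]
  exact h.lab_mono hc _ _ _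

/- list the set A as a tuple of length mm, use lab_rel -/
theorem Cx.WF.orbLab_ol (hc : cx.Ok) (h : cx.WF s) : (cx.view (cx.orbLab s)).OL cx.P := by
  rw [eq_lab]
  intro A hA hm f hf
  change ∃ g ∈ gen s.S, _
  have hA' : ∀ x ∈ A, x ∈ s.D := fun x hx => List.mem_toFinset.1 (hA hx)
  change A.card ≤ cx.um.length at hm
  rcases A.eq_empty_or_nonempty with rfl | ⟨a, ha⟩
  · exact ⟨1, one_mem _, by simp⟩
  have h1 : ∀ x ∈ A.toList ++ List.replicate (cx.um.length - A.card) a, x ∈ A := fun x hx => by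
    rcases List.mem_append.1 hx with hx | hx
    · exact Finset.mem_toList.1 hx
    · exact (List.eq_of_mem_replicate hx) ▸ ha
  have h2 := (tt hc h (A.toList ++ List.replicate (cx.um.length - A.card) a)).2
    ⟨by simp; omega, fun x hx => hA' x (h1 x hx)⟩
  have h3 := (h.toWF0.lab_rel hf h1 ((Finset.card_le_card fun x hx =>
    h1 x (List.mem_toFinset.1 hx)).trans (hm.trans hc.nums.2.2.2.2.2.2.1)) _).1
    (mem_orbR_one.2 ⟨h2, rfl⟩)
  obtain ⟨g, hg, e⟩ := (olab_eq_iff (h.toWF0.faith hc) h.inv (dpad hc h)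
    (fun t ht => (tuples_sound ht).2) h2).1 (Nat.add_left_cancel (mem_orbR_one.1 h3).2).symm
  exact ⟨g, hg, fun x hx => (List.map_inj_left.1 e x
    (List.mem_append_left _ (Finset.mem_toList.2 hx))).symm⟩

theorem Cx.orbLab_gro (hc : cx.Ok) : cx.Gro s (cx.orbLab s) 0 0 (cx.pd + 2) 1 := by
  rw [eq_lab]
  have h1 : (tuples cx.pad s.D cx.um).length ≤ cx.pd + 1 := length_tuples_le_pad _ _ _
  have h2 : cx.um.length ≤ cx.pd := hc.nums.2.2.2.2.2.2.1.trans hc.nums.2.2.2.2.2.2.2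
  exact Cx.lab_gro (by rw [lb, length_orbR]; omega) (by rw [lb, length_orbR]; omega) (by omega)
    (fun e he => (lb_spec he).2.1 ▸ h2) (fun e he => (lb_spec he).2.1 ▸ h2)

end Pool.Agent.P.MP_f1a348_lc.GX
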