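import Pool.Agent.P.MP_f1a348_lc.GY.DefsP
import Pool.Agent.P.MP_f1a348_lc.GX.LibInc
import Pool.Agent.P.MP_f1a348_lc.GY.LibF
import Pool.Agent.P.MP_f1a348_lc.GY.TPNUM

/-! Step PREAL. -/

set_option autoImplicit false
set_option linter.unusedSectionVars false

namespace Pool.Agent.P.MP_f1a348_lc.GX

open Pool.Agent.Lib.Helper47 Pool.Agent.P.MP_f1a348_lc.GI Pool.Agent.P.MP_f1a348_lc.TO
variable {cx : Cx} {s s' s'' : Sta}

theorem mem_addV {A : Sx Tm} {V : List Tm} {k : ℕ} {x : Tm} :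
    x ∈ (addV A V k).1 ↔ x ∈ A.1 ∨ x ∈ V := by
  simp only [addV, List.mem_append, mem_dd, List.mem_filter, Bool.not_eq_true',
    List.contains_eq_mem, decide_eq_false_iff_not]
  tauto

namespace PREALx
variable {A B : Sx Tm} {V V' D D' : List Tm} {k k' : ℕ}

lemma mem2 {c : ℕ} {l : List Tm} :
    (c, l) ∈ (addV A V k).2 ↔ (c, l) ∈ A.2 ∨ (c = k ∧ ∃ x ∈ A.1, l = [x]) := by
  simp only [addV, List.mem_append, List.mem_map, Prod.mk.injEq]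
  exact or_congr_right ⟨fun ⟨x, h1, h2, h3⟩ => ⟨h2.symm, x, h1, h3.symm⟩,
    fun ⟨h1, x, h2, h3⟩ => ⟨x, h2, h1.symm, h3.symm⟩⟩

lemma nodup_app (h : D.Nodup) : (D ++ dd (V.filter (fun x => !D.contains x))).Nodup :=
  List.nodup_append.2 ⟨h, nodup_dd _, fun a ha b hb e => by
    have := (List.mem_filter.1 (mem_dd.1 hb)).2
    simp [← e, ha] at this⟩

lemma length_app : (D ++ dd (V.filter (fun x => !D.contains x))).length ≤ D.length + V.length := by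
  rw [List.length_append]
  exact Nat.add_le_add_left ((length_dd _).trans (List.length_filter_le _ _)) _

lemma side {g : U} (h : cx.Side k g D A) (hk : k < k') (h0 : ∀ x ∈ D, x ∈ D')
    (h1 : ∀ x ∈ D', x ∈ D ∨ g • x ∈ V)
    (h2 : ∀ y ∈ V, g⁻¹ • y ∈ D' ∨ ∃ i, cx.n ≤ i ∧ i < k' ∧ y = Tm.atm i) :
    cx.Side k' g D' (addV A V k) := by
  refine ⟨nodup_app h.nd, fun x hx => mem_addV.2 ((h1 x hx).imp_left (h.real x)),
    fun y hy => ?_, fun e he => ?_⟩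
  · rcases mem_addV.1 hy with hy | hy
    · exact (h.kind y hy).imp (h0 _) fun ⟨i, a, b, c⟩ => ⟨i, a, b.trans hk, c⟩
    · exact h2 y hy
  · rcases mem2.1 he with he | ⟨e1, x, hx, e2⟩
    · exact ⟨(h.lab _ he).1.trans hk, fun x hx => mem_addV.2 (Or.inl ((h.lab _ he).2 x hx))⟩
    · refine ⟨e1 ▸ hk, fun y hy => mem_addV.2 (Or.inl ?_)⟩
      rw [e2, List.mem_singleton] at hy
      exact hy ▸ hx

lemma loc {M : ℕ} (h : ∀ e ∈ A.2, e.1 < k) (hM : 1 ≤ M) {Z : Finset Tm} (hZ : ∀ x ∈ Z, x ∈ A.1)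
    {f : Equiv.Perm Tm} (e : (wsys M (addV A V k)).L Z f) : (wsys M A).L Z f := by
  refine wsys_mark (fun _ hx => mem_addV.2 (Or.inl hx)) k (fun c l => ?_) k (fun y _ => ?_) hM hZ e
  · rw [mem2]
    exact ⟨fun e => ⟨h _ e, Or.inl e⟩, fun ⟨h1, h2⟩ => h2.resolve_right fun h3 => h1.ne h3.1⟩
  · rw [mem2]
    refine ⟨fun e => ?_, fun e => Or.inr ⟨rfl, y, e, rfl⟩⟩
    rcases e with e | ⟨-, x, h1, h2⟩
    · exact absurd (h _ e) (lt_irrefl _)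
    · obtain rfl : y = x := by simpa using h2
      exact h1

lemma iso {f f' : Tm → Tm} (h : SIso A B f) (hA : ∀ e ∈ A.2, ∀ x ∈ e.2, x ∈ A.1)
    (hB : ∀ e ∈ B.2, ∀ x ∈ e.2, x ∈ B.1) (e : ∀ x ∈ A.1, f' x = f x)
    (hV : Set.BijOn f' {x | x ∈ V ∧ x ∉ A.1} {x | x ∈ V' ∧ x ∉ B.1}) :
    SIso (addV A V k) (addV B V' k) f' := by
  have b1 : Set.BijOn f' {x | x ∈ A.1} {x | x ∈ B.1} := h.bij.congr fun x hx => (e x hx).symm
  have b2 : ∀ x, x ∈ A.1 ∨ x ∈ V → f' x ∈ B.1 → x ∈ A.1 := fun x hx h1 =>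
    by_contra fun h2 => (hV.mapsTo ⟨hx.resolve_left h2, h2⟩).2 h1
  refine ⟨?_, fun c l hl => ?_⟩
  · have := b1.union hV fun x hx y hy e => by
      rcases hx with hx | hx <;> rcases hy with hy | hy
      · exact b1.injOn hx hy e
      · exact absurd (e ▸ b1.mapsTo hx) (hV.mapsTo hy).2
      · exact absurd (e ▸ b1.mapsTo hy : f' x ∈ B.1) (hV.mapsTo hx).2
      · exact hV.injOn hx hy e
    convert this using 1 <;> ext x <;> simp only [mem_addV, Set.mem_union, Set.mem_ofPred_eq] <;>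
      tauto
  · have hl' : ∀ x ∈ l, x ∈ A.1 ∨ x ∈ V := fun x hx => mem_addV.1 (hl x hx)
    rw [mem2, mem2]
    refine or_congr ⟨fun h1 => ?_, fun h1 => ?_⟩ (and_congr_right fun _ => ⟨?_, ?_⟩)
    · have h2 := hA _ h1
      rw [List.map_congr_left fun x hx => e x (h2 x hx)]
      exact (h.rel c l h2).1 h1
    · have h2 : ∀ x ∈ l, x ∈ A.1 := fun x hx =>
        b2 x (hl' x hx) (hB _ h1 _ (List.mem_map_of_mem hx))
      rw [List.map_congr_left fun x hx => e x (h2 x hx)] at h1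
      exact (h.rel c l h2).2 h1
    · rintro ⟨x, h1, rfl⟩
      exact ⟨_, b1.mapsTo h1, rfl⟩
    · rintro ⟨y, h1, h2⟩
      obtain ⟨x, rfl, rfl⟩ : ∃ x, l = [x] ∧ f' x = y := by
        simpa [List.map_eq_singleton_iff] using h2
      exact ⟨x, b2 x (hl' x (by simp)) h1, rfl⟩

lemma grs (hc : cx.Ok) {v K w w' : ℕ} (h1 : V.length ≤ v) (h2 : A.1.length ≤ K) (h3 : w ≤ w')
    (h4 : ∀ t ∈ A.1, Tm.wt t ≤ w) (h5 : ∀ t ∈ V, Tm.wt t ≤ w') :
    cx.GrS v K w' A (addV A V k) := by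
  refine ⟨length_app.trans (Nat.add_le_add_left h1 _),
    fun t ht => (mem_addV.1 ht).elim (fun h => (h4 t h).trans h3) (h5 t), ?_, fun h e he => ?_⟩
  · simpa [addV] using h2
  · rcases mem2.1 he with he | ⟨-, x, -, e2⟩
    · exact h _ he
    · rw [e2]
      exact le_trans (Nat.two_pow_pos _) hc.nums.1

end PREALx

open PREALx

theorem Sta.mem_real {V : List Tm} {x : Tm} : (x ∈ (s.real V).D ↔ x ∈ s.D ∨ x ∈ V) ∧
    (x ∈ (s.real V).A.1 ↔ x ∈ s.A.1 ∨ x ∈ V) ∧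
    (x ∈ (s.real V).B.1 ↔ x ∈ s.B.1 ∨ s.σ⁻¹ • x ∈ V) := by
  refine ⟨mem_addV (A := (s.D, [])) (k := 0), mem_addV, mem_addV.trans (or_congr_right ?_)⟩
  rw [List.mem_map]
  exact ⟨fun ⟨y, h, e⟩ => by rwa [← e, inv_smul_smul], fun h => ⟨_, h, smul_inv_smul _ _⟩⟩

theorem Cx.WF0.real (h : cx.WF0 s) {V : List Tm} (h1 : ∀ x ∈ V, Tm.AB cx.n x)
    (h2 : InvL (gen s.S) (s.D ++ V)) : cx.WF0 (s.real V) := by
  have m : ∀ x, x ∈ (s.real V).D ↔ x ∈ s.D ∨ x ∈ V := fun x => Sta.mem_real.1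
  refine ⟨h.hσ, h.hS, h.len, nodup_app h.nd, fun x hx => ((m x).1 hx).elim (h.ab x) (h1 x),
    fun u hu x hx => (m _).2 (List.mem_append.1 (h2 u hu x (List.mem_append.2 ((m x).1 hx)))),
    h.nx, h.ny, fun x hx => (m x).2 (Or.inl (h.xd x hx)),
    fun y hy => (m _).2 (Or.inl (h.yd y hy)), h.ctr.trans (Nat.le_succ _),
    side h.a (Nat.lt_succ_self _) (fun x hx => (m x).2 (Or.inl hx))
      (fun x hx => by simpa using (m x).1 hx) fun y hy => Or.inl ((m _).2 (Or.inr (by simpa using hy))),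
    side h.b (Nat.lt_succ_self _) (fun x hx => (m x).2 (Or.inl hx))
      (fun x hx => ((m x).1 hx).imp_right List.mem_map_of_mem) fun y hy => Or.inl ((m _).2 ?_)⟩
  obtain ⟨x, hx, rfl⟩ := List.mem_map.1 hy
  exact Or.inr ((inv_smul_smul s.σ x).symm ▸ hx)

/- f' x = if x in A then f x else g x; use real_of -/
theorem Cx.WF0.real_wit (h : cx.WF0 s) {V : List Tm} (h1 : ∀ x ∈ V, Tm.AB cx.n x)
    (h2 : InvL (gen s.S) (s.D ++ V)) {g : U} {f : Tm → Tm} (w : s.Wit g f) :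
    ∃ f', (s.real V).Wit g f' ∧ ∀ x ∈ s.A.1, f' x = f x := by
  have hu : s.σ⁻¹ * g ∈ gen s.S := mem_cs.1 w.sol.1
  have hg : ∀ x : Tm, s.σ • (s.σ⁻¹ * g) • x = g • x := fun x => by rw [mul_smul, smul_inv_smul]
  have key : ∀ u ∈ gen s.S, ∀ x ∈ V, x ∉ s.D → u • x ∈ V ∧ u • x ∉ s.D := fun u hu x hx hd => by
    have : u • x ∉ s.D := fun e => hd (by simpa using h.inv _ (inv_mem hu) _ e)
    exact ⟨(List.mem_append.1 (h2 u hu x (List.mem_append_right _ hx))).resolve_left this, this⟩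
  refine ⟨fun x => if x ∈ s.A.1 then f x else g • x, ⟨w.sol, iso w.iso
    (fun e he => (h.a.lab e he).2) (fun e he => (h.b.lab e he).2) (fun x hx => if_pos hx)
    (Set.BijOn.congr (f₁ := fun x => g • x) ⟨fun x hx => ?_, (MulAction.injective g).injOn,
      fun y hy => ?_⟩ fun x hx => (if_neg hx.2).symm), fun x hx => ?_⟩, fun x hx => if_pos hx⟩
  · obtain ⟨a1, a2⟩ := key _ hu x hx.1 fun e => hx.2 (h.dA e)
    exact ⟨List.mem_map.2 ⟨_, a1, hg x⟩, fun e => a2 ((h.real_of (h1 _ a1)).2 ((hg x).symm ▸ e))⟩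
  · obtain ⟨z, hz, rfl⟩ := List.mem_map.1 hy.1
    obtain ⟨a1, a2⟩ := key _ (inv_mem hu) z hz fun e => hy.2 (h.b.real z e)
    exact ⟨_, ⟨a1, fun e => a2 ((h.real_of (h1 _ a1)).1 e)⟩, by
      simp only [← hg, smul_inv_smul]⟩
  · split_ifs with e
    · exact w.eq x ((Sta.mem_real.1.1 hx).elim id fun hv => (h.real_of (h1 x hv)).1 e)
    · rfl

theorem ext_addV {A : Sx Tm} {V : List Tm} {k : ℕ} {e : ℕ × List Tm} (he : e.1 < k) :
    e ∈ (addV A V k).2 ↔ e ∈ A.2 := by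
  refine List.mem_append.trans (or_iff_left fun h => ?_)
  obtain ⟨e', -, rfl⟩ := List.mem_map.1 h
  exact absurd he (by simp)

theorem Sta.ext_real (s : Sta) (V : List Tm) : s.Ext (s.real V) :=
  ⟨⟨_, rfl⟩, ⟨_, rfl⟩, fun _ h => h, Nat.le_succ _, fun _ he => ext_addV he⟩

theorem Sta.ext_abs (s : Sta) (I J : List ℕ) (k : ℕ) : s.Ext (s.abs I J k) :=
  ⟨⟨[], (List.append_nil _).symm⟩, ⟨_, rfl⟩, fun _ h => h,
    (Nat.le_add_right _ _).trans (Nat.le_succ _), fun _ he => ext_addV he⟩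

/- wsys_mark -/
theorem Cx.WF0.real_mono (hc : cx.Ok) (h : cx.WF0 s) (V : List Tm) :
    (cx.view s).Mono (cx.view (s.real V)) := by
  exact ⟨le_rfl, fun x hx => List.mem_toFinset.2 (Sta.mem_real.1.2 (Or.inl (List.mem_toFinset.1 hx))),
    Finset.Subset.rfl,
    fun x hx => List.mem_toFinset.2 (mem_addV.2 (Or.inl (List.mem_toFinset.1 hx))),
    fun Z hZ f e => loc (fun e he => (h.a.lab e he).1) (le_trans (by norm_num) hc.nums.2.2.2.2.2.1)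
      (fun x hx => List.mem_toFinset.1 (hZ hx)) e, (s.ext_real V).f1, (s.ext_real V).f2,
    (s.ext_real V).fr⟩

theorem Cx.WF.real_gro (hc : cx.Ok) (h : cx.WF s) {V : List Tm} {m : ℕ} (hm : 1 ≤ m)
    (hw : ∀ w, 1 ≤ w → (∀ t ∈ s.A.1, Tm.wt t ≤ w) → ∀ x ∈ V, Tm.wt x ≤ m * w) :
    cx.Gro s (s.real V) V.length V.length (2 ^ cx.lam + 1) m := by
  refine ⟨length_app, Nat.add_le_add_left (Nat.le_add_left _ _) _, fun w h1 h2 h3 =>
    ⟨grs hc le_rfl (h.ca.trans (Nat.le_succ _)) (Nat.le_mul_of_pos_left _ hm) h2 (hw w h1 h2),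
      grs hc (List.length_map _).le (h.cb.trans (Nat.le_succ _)) (Nat.le_mul_of_pos_left _ hm) h3
        fun t ht => ?_⟩, Nat.le_add_right _ _, fun _ h => .inl h⟩
  obtain ⟨x, hx, rfl⟩ := List.mem_map.1 ht
  rw [Tm.wt_smul]
  exact hw w h1 h2 x hx

theorem Cx.WF0.nm_new (h : cx.WF0 s) (i : ℕ) : s.nm i ∉ s.A.1 ∧ s.nm i ∉ s.B.1 := by
  have : ¬ Tm.AB s.ctr (s.nm i) := by simp [Sta.nm]
  exact ⟨fun e => this (h.abv (Or.inl e)), fun e => this (h.abv (Or.inr e))⟩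

theorem Sta.nm_inj {i j : ℕ} : s.nm i = s.nm j ↔ i = j := by
  rw [Sta.nm, Sta.nm, Tm.at_injective.eq_iff, Nat.add_left_cancel_iff]

theorem Sta.mem_abs {I J : List ℕ} {k : ℕ} {x : Tm} :
    (x ∈ (s.abs I J k).A.1 ↔ x ∈ s.A.1 ∨ ∃ i ∈ I, s.nm i = x) ∧
    (x ∈ (s.abs I J k).B.1 ↔ x ∈ s.B.1 ∨ ∃ j ∈ J, s.nm j = x) := by
  exact ⟨mem_addV.trans (or_congr_right List.mem_map), mem_addV.trans (or_congr_right List.mem_map)⟩

theorem Cx.WF0.abs (h : cx.WF0 s) {I J : List ℕ} {k : ℕ} (h1 : ∀ i ∈ I, i < k)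
    (h2 : ∀ j ∈ J, j < k) : cx.WF0 (s.abs I J k) := by
  have key : ∀ I : List ℕ, (∀ i ∈ I, i < k) → ∀ y ∈ I.map s.nm,
      ∃ i, cx.n ≤ i ∧ i < s.ctr + k + 1 ∧ y = Tm.atm i := fun I hI y hy => by
    obtain ⟨i, hi, rfl⟩ := List.mem_map.1 hy
    have := hI i hi
    have := h.ctr
    exact ⟨s.ctr + i, by omega, by omega, rfl⟩
  have hk : s.ctr < s.ctr + k + 1 := by omega
  exact ⟨h.hσ, h.hS, h.len, h.nd, h.ab, h.inv, h.nx, h.ny, h.xd, h.yd, h.ctr.trans hk.le,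
    side h.a hk (fun _ => id) (fun _ => Or.inl) fun y hy => Or.inr (key I h1 y hy),
    side h.b hk (fun _ => id) (fun _ => Or.inl) fun y hy => Or.inr (key J h2 y hy)⟩

theorem Cx.WF0.abs_wit (h : cx.WF0 s) {I J : List ℕ} (k : ℕ) {g : U} {f : Tm → Tm}
    (w : s.Wit g f) {π : ℕ → ℕ} (hπ : Set.BijOn π {i | i ∈ I} {j | j ∈ J}) :
    ∃ f', (s.abs I J k).Wit g f' ∧ (∀ x ∈ s.A.1, f' x = f x) ∧ ∀ i ∈ I, f' (s.nm i) = s.nm (π i) := by
  have e : ∀ i, (if s.nm i ∈ s.A.1 then f (s.nm i) else s.nm (π ((s.nm i).atv - s.ctr))) =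
      s.nm (π i) := fun i => by
    rw [if_neg (h.nm_new i).1]
    simp [Sta.nm]
  refine ⟨fun x => if x ∈ s.A.1 then f x else s.nm (π (x.atv - s.ctr)), ⟨w.sol, iso w.iso
    (fun e he => (h.a.lab e he).2) (fun e he => (h.b.lab e he).2) (fun x hx => if_pos hx)
    ⟨fun x hx => ?_, fun x hx y hy a => ?_, fun y hy => ?_⟩,
    fun x hx => (if_pos (h.dA hx)).trans (w.eq x hx)⟩, fun x hx => if_pos hx, fun i _ => e i⟩
  · obtain ⟨i, hi, rfl⟩ := List.mem_map.1 hx.1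
    simp only [e]
    exact ⟨List.mem_map_of_mem (hπ.mapsTo hi), (h.nm_new _).2⟩
  · obtain ⟨i, hi, rfl⟩ := List.mem_map.1 hx.1
    obtain ⟨j, hj, rfl⟩ := List.mem_map.1 hy.1
    simp only [e] at a
    rw [hπ.injOn hi hj (Sta.nm_inj.1 a)]
  · obtain ⟨j, hj, rfl⟩ := List.mem_map.1 hy.1
    obtain ⟨i, hi, rfl⟩ := hπ.surjOn hj
    exact ⟨s.nm i, ⟨List.mem_map_of_mem hi, (h.nm_new i).1⟩, e i⟩

theorem Cx.WF0.abs_mono (hc : cx.Ok) (h : cx.WF0 s) (I J : List ℕ) (k : ℕ) :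
    (cx.view s).Mono (cx.view (s.abs I J k)) := by
  exact ⟨le_rfl, Finset.Subset.rfl, Finset.Subset.rfl,
    fun x hx => List.mem_toFinset.2 (mem_addV.2 (Or.inl (List.mem_toFinset.1 hx))),
    fun Z hZ f e => loc (fun e he => (h.a.lab e he).1) (le_trans (by norm_num) hc.nums.2.2.2.2.2.1)
      (fun x hx => List.mem_toFinset.1 (hZ hx)) e, (s.ext_abs I J k).f1, (s.ext_abs I J k).f2,
    (s.ext_abs I J k).fr⟩

theorem Cx.WF.abs_gro (hc : cx.Ok) (h : cx.WF s) {I J : List ℕ} {k v : ℕ} (h1 : I.length ≤ v)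
    (h2 : J.length ≤ v) : cx.Gro s (s.abs I J k) 0 v (2 ^ cx.lam + k + 1) 1 := by
  have key : ∀ (I : List ℕ) (w : ℕ), 1 ≤ w → ∀ t ∈ I.map s.nm, Tm.wt t ≤ 1 * w := fun I w hw t ht => by
    obtain ⟨i, -, rfl⟩ := List.mem_map.1 ht
    simpa [Sta.nm] using hw
  refine ⟨le_rfl, ?_, fun w a1 a2 a3 =>
    ⟨grs hc (by simpa using h1) (h.ca.trans (by omega)) (by simp) a2 (key I w a1),
      grs hc (by simpa using h2) (h.cb.trans (by omega)) (by simp) a3 (key J w a1)⟩,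
    Nat.le_add_right _ _, fun _ h => .inl h⟩
  exact Nat.add_le_add_left (Nat.succ_le_succ (Nat.le_add_left k _)) s.ctr

end Pool.Agent.P.MP_f1a348_lc.GX
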