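import Pool.Agent.P.MP_f1a348_lc.GY.DefsP
import Pool.Agent.P.MP_f1a348_lc.GX.LibInc
import Pool.Agent.P.MP_f1a348_lc.GY.LibF
import Pool.Agent.P.MP_f1a348_lc.GY.TPNUM
import Pool.Agent.P.MP_f1a348_lc.GY.TPSIZE
import Pool.Agent.P.MP_f1a348_lc.GY.TPCOL
import Pool.Agent.P.MP_f1a348_lc.GY.TPLAB
import Pool.Agent.P.MP_f1a348_lc.GY.TPREAL
import Pool.Agent.P.MP_f1a348_lc.GY.TPORB
import Pool.Agent.P.MP_f1a348_lc.GY.TVORB
import Pool.Agent.P.MP_f1a348_lc.GX.TUNAF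
import Pool.Agent.P.MP_f1a348_lc.GX.TUNAT
import Pool.Agent.P.MP_f1a348_lc.GX.TJL
import Pool.Agent.P.MP_f1a348_lc.GY.LibFuW
import Pool.Agent.P.MP_f1a348_lc.GY.LibFulP
/-! Step MGIANT. -/

set_option autoImplicit false
set_option linter.unusedSectionVars false
set_option synthInstance.maxSize 4096

namespace Pool.Agent.P.MP_f1a348_lc.GX

open Pool.Agent.Lib.Helper47 Pool.Agent.P.MP_f1a348_lc.GI Pool.Agent.P.MP_f1a348_lc.TO
variable {cx : Cx} {s s' s'' : Sta}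

theorem mod_giant : HasMod RGiant := by
  exact ⟨giM, giM_poly (fullP_poly (GiPx.pt_iS (t := fun s => s) (by fun_prop))
    (pt_iU (x := fun x => x) (by fun_prop))), giM_sound, GW.giM_wins⟩

end Pool.Agent.P.MP_f1a348_lc.GX
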