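import Pool.Agent.P.MP_f1a348_lc.GY.DefsP
import Pool.Agent.P.MP_f1a348_lc.GX.LibInc
import Pool.Agent.P.MP_f1a348_lc.GY.LibF
import Pool.Agent.P.MP_f1a348_lc.GY.TPNUM
import Pool.Agent.P.MP_f1a348_lc.GY.TPSIZE
import Pool.Agent.P.MP_f1a348_lc.GY.TPCOL
import Pool.Agent.P.MP_f1a348_lc.GY.TPLAB
import Pool.Agent.P.MP_f1a348_lc.GY.TPREAL
import Pool.Agent.P.MP_f1a348_lc.GY.TVORB

/-! Step MQUO1. -/

set_option autoImplicit false
set_option linter.unusedSectionVars false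

namespace Pool.Agent.P.MP_f1a348_lc.GX

open Pool.Agent.Lib.Helper47 Pool.Agent.P.MP_f1a348_lc.GI Pool.Agent.P.MP_f1a348_lc.TO
variable {cx : Cx} {s s' s'' : Sta}

namespace MQUO1x

/-- the listed pairs -/
def prs (l : List Tm) : List (Tm × Tm) := (l.take (l.length / 2)).zip (l.drop (l.length / 2))

/-- the pairs of the orbit that lie in the orbit of a listed pair -/
noncomputable def edges (cx : Cx) (s : Sta) (p : Tm) (l : List Tm) : List (Tm × Tm) :=
  (prodL (cx.ob s p) (cx.ob s p)).filter (fun e => (prs l).any (fun q =>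
    (trL cx.pad cx.base (1, s.S) [(q.1, e.1), (q.2, e.2)]).isSome))

/-- the block of a point -/
noncomputable def blk (cmp : List Tm × List (Tm × Tm) × Tm → List Tm) (cx : Cx) (s : Sta) (p : Tm) (l : List Tm) (x : Tm) : Tm :=
  Tm.st (cmp (cx.ob s p, edges cx s p l, x))

/-- the new state -/
noncomputable def nxt (cmp : List Tm × List (Tm × Tm) × Tm → List Tm) (cx : Cx) (s : Sta) (p : Tm) (l : List Tm) : Sta :=
  (s.real ((cx.ob s p).map (blk cmp cx s p l))).lab
    ((cx.ob s p).map (fun x => (0, [x, blk cmp cx s p l x])))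
    ((cx.ob s p).map (fun x => (0, [s.σ • x, s.σ • blk cmp cx s p l x]))) 1

/-- the move -/
noncomputable def mv (cmp : List Tm × List (Tm × Tm) × Tm → List Tm) : Mv where
  dom := fun cx s p => cx.ob s p
  br := fun cx s p l => if s.D.contains p then some [nxt cmp cx s p l] else none

section pt
variable {α : Type} [Enc α] {c : α → Cx} {s : α → Sta} {p x : α → Tm} {l : α → List Tm}
  {cmp : List Tm × List (Tm × Tm) × Tm → List Tm}

@[fun_prop] theorem pt_prs (h : PT l) : PT (fun a => prs (l a)) := by unfold prs; fun_prop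

@[fun_prop] theorem pt_edges (h0 : PT c) (h1 : PT s) (h2 : PT p) (h3 : PT l) :
    PT (fun a => edges (c a) (s a) (p a) (l a)) := by unfold edges; fun_prop

theorem pt_blk (hc : PT cmp) (h0 : PT c) (h1 : PT s) (h2 : PT p) (h3 : PT l) (h4 : PT x) :
    PT (fun a => blk cmp (c a) (s a) (p a) (l a) (x a)) := by
  unfold blk
  exact Tm.pt_st (hc.comp (g := fun a => ((c a).ob (s a) (p a), edges (c a) (s a) (p a) (l a), x a))
    (by fun_prop))

theorem pt_nxt (hc : PT cmp) (h0 : PT c) (h1 : PT s) (h2 : PT p) (h3 : PT l) :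
    PT (fun a => nxt cmp (c a) (s a) (p a) (l a)) := by
  have hb : PT (fun q : α × Tm => blk cmp (c q.1) (s q.1) (p q.1) (l q.1) q.2) :=
    pt_blk hc (by fun_prop) (by fun_prop) (by fun_prop) (by fun_prop) (by fun_prop)
  have ho : PT (fun a => (c a).ob (s a) (p a)) := by fun_prop
  unfold nxt
  refine Sta.pt_lab (Sta.pt_real h1 (PT.map hb ho)) (PT.map ?_ ho) (PT.map ?_ ho) (PT.const _)
  · fun_prop
  · fun_prop
end pt

theorem poly {cmp : List Tm × List (Tm × Tm) × Tm → List Tm} (hc : PT cmp) : (mv cmp).Poly := by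
  refine ⟨by unfold mv; fun_prop, ?_⟩
  have hn : PT (fun x : Cx × Sta × Tm × List Tm => nxt cmp x.1 x.2.1 x.2.2.1 x.2.2.2) :=
    pt_nxt hc (by fun_prop) (by fun_prop) (by fun_prop) (by fun_prop)
  unfold mv
  fun_prop

/-- the specification of the program for components -/
def Spec (cmp : List Tm × List (Tm × Tm) × Tm → List Tm) : Prop :=
  ∀ C R x, (cmp (C, R, x)).Sublist C ∧ (x ∈ C → ∀ y, y ∈ cmp (C, R, x) ↔
    Relation.EqvGen (fun a b => a ∈ C ∧ b ∈ C ∧ (a, b) ∈ R) x y)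

variable {cmp : List Tm × List (Tm × Tm) × Tm → List Tm} {p : Tm} {l : List Tm}

theorem prs_mem {q : Tm × Tm} (h : q ∈ prs l) : q.1 ∈ l ∧ q.2 ∈ l :=
  ⟨List.mem_of_mem_take (List.of_mem_zip h).1, List.mem_of_mem_drop (List.of_mem_zip h).2⟩

theorem prs_eq (L : List (Tm × Tm)) : prs (L.map Prod.fst ++ L.map Prod.snd) = L := by
  have e : (L.map Prod.fst ++ L.map Prod.snd).length / 2 = (L.map Prod.fst).length := by
    simp only [List.length_append, List.length_map]; omega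
  rw [prs, e, List.take_left, List.drop_left, List.zip_map']
  simp

theorem mem_edges (hc : cx.Ok) (h : cx.WF s) (hp : p ∈ s.D) (hl : ∀ x ∈ l, x ∈ cx.ob s p)
    {u v : Tm} : (u, v) ∈ edges cx s p l ↔ u ∈ cx.ob s p ∧ v ∈ cx.ob s p ∧
      ∃ q ∈ prs l, ∃ g ∈ gen s.S, g • q.1 = u ∧ g • q.2 = v := by
  have hs := (h.ob_view hc hp).1.subset
  rw [edges, List.mem_filter, mem_prodL, List.any_eq_true, and_assoc]
  refine and_congr_right fun _ => and_congr_right fun _ => exists_congr fun q =>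
    and_congr_right fun hq => ?_
  rw [trL_isSome (c := (1, s.S)) (h.toWF0.faith hc) (by
    intro t ht
    rcases (by simpa using ht : t = (q.1, u) ∨ t = (q.2, v)) with rfl | rfl
    · exact h.idx hc le_rfl (hs (hl _ (prs_mem hq).1))
    · exact h.idx hc le_rfl (hs (hl _ (prs_mem hq).2)))]
  simp [mem_cs]

theorem eqv_smul (hc : cx.Ok) (h : cx.WF s) (hp : p ∈ s.D) (hl : ∀ x ∈ l, x ∈ cx.ob s p)
    {g : U} (hg : g ∈ gen s.S) {x y : Tm}
    (e : Relation.EqvGen (fun a b => a ∈ cx.ob s p ∧ b ∈ cx.ob s p ∧ (a, b) ∈ edges cx s p l) x y) :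
    Relation.EqvGen (fun a b => a ∈ cx.ob s p ∧ b ∈ cx.ob s p ∧ (a, b) ∈ edges cx s p l)
      (g • x) (g • y) := by
  have hi := (h.ob_view hc hp).2.2.1
  induction e with
  | rel a b r =>
    obtain ⟨r1, r2, q, hq, k, hk, e1, e2⟩ := (mem_edges hc h hp hl).1 r.2.2
    exact .rel _ _ ⟨hi g hg a r1, hi g hg b r2, (mem_edges hc h hp hl).2
      ⟨hi g hg a r1, hi g hg b r2, q, hq, g * k, mul_mem hg hk, by rw [mul_smul, e1],
        by rw [mul_smul, e2]⟩⟩
  | refl a => exact .refl _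
  | symm a b _ ih => exact .symm _ _ ih
  | trans a b c _ _ i1 i2 => exact .trans _ _ _ i1 i2

theorem blk_smul (hs : Spec cmp) (hc : cx.Ok) (h : cx.WF s) (hp : p ∈ s.D)
    (hl : ∀ x ∈ l, x ∈ cx.ob s p) {g : U} (hg : g ∈ gen s.S) {x : Tm} (hx : x ∈ cx.ob s p) :
    blk cmp cx s p l (g • x) = g • blk cmp cx s p l x := by
  have hi := (h.ob_view hc hp).2.2.1
  rw [blk, blk, Tm.smul_st, Tm.st_eq_iff]
  intro y
  rw [(hs _ _ _).2 (hi g hg x hx), List.mem_map]
  constructor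
  · intro e
    have := eqv_smul hc h hp hl (inv_mem hg) e
    rw [inv_smul_smul] at this
    exact ⟨g⁻¹ • y, ((hs _ _ _).2 hx _).2 this, smul_inv_smul _ _⟩
  · rintro ⟨z, hz, rfl⟩
    exact eqv_smul hc h hp hl hg (((hs _ _ _).2 hx _).1 hz)

theorem blk_eq (hs : Spec cmp) {x y : Tm} (hx : x ∈ cx.ob s p) (hy : y ∈ cx.ob s p) :
    blk cmp cx s p l x = blk cmp cx s p l y ↔
      Relation.EqvGen (fun a b => a ∈ cx.ob s p ∧ b ∈ cx.ob s p ∧ (a, b) ∈ edges cx s p l) x y := by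
  rw [blk, blk, Tm.st_eq_iff]
  simp only [(hs _ _ _).2 hx, (hs _ _ _).2 hy]
  exact ⟨fun e => (e y).2 (.refl _), fun e z =>
    ⟨fun a => .trans _ _ _ (.symm _ _ e) a, fun a => .trans _ _ _ e a⟩⟩

theorem new_ab (hs : Spec cmp) (hc : cx.Ok) (h : cx.WF s) (hp : p ∈ s.D) :
    ∀ x ∈ (cx.ob s p).map (blk cmp cx s p l), Tm.AB cx.n x := by
  intro x hx
  obtain ⟨y, -, rfl⟩ := List.mem_map.1 hx
  exact Tm.ab_st.2 fun z hz => h.ab z ((h.ob_view hc hp).1.subset ((hs _ _ _).1.subset hz))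

theorem new_inv (hs : Spec cmp) (hc : cx.Ok) (h : cx.WF s) (hp : p ∈ s.D)
    (hl : ∀ x ∈ l, x ∈ cx.ob s p) :
    InvL (gen s.S) (s.D ++ (cx.ob s p).map (blk cmp cx s p l)) := by
  intro g hg x hx
  rcases List.mem_append.1 hx with hx | hx
  · exact List.mem_append_left _ (h.inv g hg x hx)
  · obtain ⟨y, hy, rfl⟩ := List.mem_map.1 hx
    exact List.mem_append_right _ (List.mem_map.2
      ⟨g • y, (h.ob_view hc hp).2.2.1 g hg y hy, blk_smul hs hc h hp hl hg hy⟩)

theorem lab_a (hc : cx.Ok) (h : cx.WF s) (hp : p ∈ s.D) :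
    ∀ e ∈ (cx.ob s p).map (fun x => ((0 : ℕ), [x, blk cmp cx s p l x])),
      e.1 < 1 ∧ ∀ x ∈ e.2, x ∈ (s.real ((cx.ob s p).map (blk cmp cx s p l))).A.1 := by
  intro e he
  obtain ⟨y, hy, rfl⟩ := List.mem_map.1 he
  refine ⟨Nat.one_pos, fun x hx => Sta.mem_real.2.1.2 ?_⟩
  rcases (by simpa using hx : x = y ∨ x = blk cmp cx s p l y) with rfl | rfl
  · exact Or.inl (h.toWF0.dA ((h.ob_view hc hp).1.subset hy))
  · exact Or.inr (List.mem_map_of_mem hy)

theorem nxt_wf (hs : Spec cmp) (hc : cx.Ok) (h : cx.WF s) (hp : p ∈ s.D)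
    (hl : ∀ x ∈ l, x ∈ cx.ob s p) : cx.WF0 (nxt cmp cx s p l) := by
  refine (h.toWF0.real (new_ab hs hc h hp) (new_inv hs hc h hp hl)).lab (lab_a hc h hp) ?_
  intro e he
  obtain ⟨y, hy, rfl⟩ := List.mem_map.1 he
  refine ⟨Nat.one_pos, fun x hx => Sta.mem_real.2.2.2 ?_⟩
  rcases (by simpa using hx : x = s.σ • y ∨ x = s.σ • blk cmp cx s p l y) with rfl | rfl
  · exact Or.inl (h.toWF0.dB (self_mem_cs s.σ s.S) ((h.ob_view hc hp).1.subset hy)).1
  · rw [inv_smul_smul]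
    exact Or.inr (List.mem_map_of_mem hy)

theorem map_inj {f : Tm → Tm} {A : List Tm} (hf : Set.InjOn f {x | x ∈ A}) :
    ∀ {a b : List Tm}, (∀ x ∈ a, x ∈ A) → (∀ x ∈ b, x ∈ A) → a.map f = b.map f → a = b
  | [], [], _, _, _ => rfl
  | [], _ :: _, _, _, e => by simp at e
  | _ :: _, [], _, _, e => by simp at e
  | x :: a, y :: b, h1, h2, e => by
    simp only [List.map_cons, List.cons.injEq] at e
    rw [hf (h1 x (by simp)) (h2 y (by simp)) e.1,
      map_inj hf (fun z hz => h1 z (by simp [hz])) (fun z hz => h2 z (by simp [hz])) e.2]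

theorem nxt_tgt (hs : Spec cmp) (hc : cx.Ok) (h : cx.WF s) (hp : p ∈ s.D)
    (hl : ∀ x ∈ l, x ∈ cx.ob s p) {g : U} (hg : g ∈ s.Tgt) : g ∈ (nxt cmp cx s p l).Tgt := by
  obtain ⟨f, w⟩ := hg
  have h1 := new_ab (l := l) hs hc h hp
  have h2 := new_inv hs hc h hp hl
  obtain ⟨f', w', -⟩ := h.toWF0.real_wit h1 h2 w
  have hsub := (h.ob_view hc hp).1.subset
  have hi := (h.ob_view hc hp).2.2.1
  have hk : s.σ⁻¹ * g ∈ gen s.S := mem_cs.1 w.sol.1
  have e1 : ∀ x ∈ cx.ob s p, f' x = s.σ • ((s.σ⁻¹ * g) • x) := fun x hx => by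
    rw [w'.eq x (Sta.mem_real.1.2 (Or.inl (hsub hx))), ← mul_smul, mul_inv_cancel_left]
  have e2 : ∀ x ∈ cx.ob s p,
      f' (blk cmp cx s p l x) = s.σ • blk cmp cx s p l ((s.σ⁻¹ * g) • x) := fun x hx => by
    rw [w'.eq _ (Sta.mem_real.1.2 (Or.inr (List.mem_map_of_mem hx))), blk_smul hs hc h hp hl hk hx,
      ← mul_smul, mul_inv_cancel_left]
  refine ⟨f', (h.toWF0.real h1 h2).lab_wit.2 ⟨w', fun c m hm => ⟨fun a => ?_, fun a => ?_⟩⟩⟩
  · obtain ⟨y, hy, e⟩ := List.mem_map.1 a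
    obtain ⟨rfl, rfl⟩ := Prod.mk.inj e
    refine List.mem_map.2 ⟨_, hi _ hk y hy, ?_⟩
    simp only [List.map_cons, List.map_nil, e1 y hy, e2 y hy]
  · obtain ⟨y, hy, e⟩ := List.mem_map.1 a
    obtain ⟨rfl, e'⟩ := Prod.mk.inj e
    have hx := hi _ (inv_mem hk) y hy
    refine List.mem_map.2 ⟨_, hx, Prod.ext rfl ?_⟩
    have hA := (lab_a (cmp := cmp) (l := l) hc h hp _ (List.mem_map_of_mem hx)).2
    refine map_inj w'.iso.bij.injOn hA hm ?_
    rw [← e']
    simp only [List.map_cons, List.map_nil, e1 _ hx, e2 _ hx, smul_inv_smul]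

theorem sound (hs : Spec cmp) : (mv cmp).Sound := by
  intro cx s p l L hc h _ hl hb
  simp only [mv] at hb hl
  split_ifs at hb with hp
  obtain rfl := Option.some.inj hb
  have hp' : p ∈ s.D := by simpa using hp
  refine ⟨fun s' hs' => ?_, fun g hg => ⟨_, List.mem_singleton_self _, nxt_tgt hs hc h hp' hl hg⟩⟩
  obtain rfl := List.mem_singleton.1 hs'
  exact ⟨nxt_wf hs hc h hp' hl, fun g hg => hg⟩

theorem nxt_grow (hs : Spec cmp) (hc : cx.Ok) (h : cx.WF s) (hp : p ∈ s.D)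
    (hn : (cx.ob s p).length ≤ cx.n) : cx.Grow s (nxt cmp cx s p l) := by
  obtain ⟨n1, -, -, -, n5, n6, -, n7⟩ := hc.nums
  have hlam := hc.lam
  have g1 := h.real_gro hc (V := (cx.ob s p).map (blk cmp cx s p l)) (m := 2 ^ cx.lam + 1)
    (by omega) (fun w hw ht x hx => by
      obtain ⟨y, -, rfl⟩ := List.mem_map.1 hx
      have a1 := (hs (cx.ob s p) (edges cx s p l) y).1
      have a2 := Tm.wt_st_le' (l := cmp (cx.ob s p, edges cx s p l, y)) (B := w) fun z hz =>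
        ht z (h.toWF0.dA ((h.ob_view hc hp).1.subset (a1.subset hz)))
      have a3 := Nat.mul_le_mul_right w ((a1.length_le.trans hn).trans n5)
      rw [blk, add_mul, one_mul]
      omega)
  have h2 : 2 ≤ cx.pd := by omega
  have g2 : cx.Gro (s.real ((cx.ob s p).map (blk cmp cx s p l))) (nxt cmp cx s p l) 0 0
      (2 ^ cx.lam) 1 := by
    refine Cx.lab_gro ?_ ?_ Nat.one_le_two_pow ?_ ?_
    · rw [List.length_map]; omega
    · rw [List.length_map]; omega
    · intro e he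
      obtain ⟨y, -, rfl⟩ := List.mem_map.1 he
      exact h2
    · intro e he
      obtain ⟨y, -, rfl⟩ := List.mem_map.1 he
      exact h2
  have p1 : 2 ^ (cx.lam + 2) ≤ 2 ^ (8 * cx.lam) := Nat.pow_le_pow_right (by norm_num) (by omega)
  have p2 : 1 ≤ 2 ^ cx.lam := Nat.one_le_two_pow
  have p3 : cx.pd ≤ cx.pd ^ 2 := Nat.le_self_pow (by norm_num) _
  have nb := hc.nb
  rw [pow_add] at p1
  refine (g1.trans (by omega) g2).mono ?_ ?_ ?_ ?_
  · rw [List.length_map]; omega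
  · rw [List.length_map]; omega
  · omega
  · rw [pow_succ]; omega

theorem wins (hs : Spec cmp) : (mv cmp).Wins RQuo1 := by
  rintro cx W φ φ' s hc hφ h hz ⟨C, L, hO, hN, hL, hg, hW⟩
  obtain ⟨p, hpC⟩ := hO.1
  have hp : p ∈ s.D := List.mem_toFinset.1 (hO.2.1 hpC)
  obtain ⟨o1, o2, o3, o4, o5, -⟩ := h.ob_view hc hp
  rw [hO.2.2 p hpC] at o4 o5
  have hm : ∀ x, x ∈ cx.ob s p ↔ x ∈ C := fun x => by rw [← o4, List.mem_toFinset]
  have hn : (cx.ob s p).length ≤ cx.n := o5 ▸ hN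
  have hl : ∀ x ∈ L.map Prod.fst ++ L.map Prod.snd, x ∈ cx.ob s p := by
    intro x hx
    rcases List.mem_append.1 hx with hx | hx <;> obtain ⟨q, hq, rfl⟩ := List.mem_map.1 hx
    · exact (hm _).2 (hL q hq).1
    · exact (hm _).2 (hL q hq).2
  have hlen : (L.map Prod.fst ++ L.map Prod.snd).length = 2 * L.length := by
    simp only [List.length_append, List.length_map]; omega
  obtain ⟨n1, -, -, -, n5, n6, -, n7⟩ := hc.nums
  have hlam := hc.lam
  have eg : cx.P.g * (2 * L.length + 1) =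
      16 * (cx.lam * (2 * L.length)) + 32 * L.length + 16 * cx.lam + 16 := by
    change 16 * (cx.lam + 1) * (2 * L.length + 1) = _
    ring
  have hpw : (cx.ob s p).length ^ (2 * L.length) ≤ 2 ^ (cx.lam * (2 * L.length)) := by
    rw [pow_mul 2]; exact Nat.pow_le_pow_left (hn.trans n5) _
  have b1 := bl_le hpw
  have b2 : bl 1 ≤ 0 + 1 := bl_le (by norm_num)
  have s1 := (hz.le hc).1
  have hG := nxt_grow (l := L.map Prod.fst ++ L.map Prod.snd) hs hc h hp hn
  have hw0 := nxt_wf hs hc h hp hl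
  refine ⟨p, h.toWF0.dA hp, L.map Prod.fst ++ L.map Prod.snd,
    [nxt cmp cx s p (L.map Prod.fst ++ L.map Prod.snd)], cx.P.g * (2 * L.length + 1),
    by omega, hl, fun x hx => h.toWF0.dA (o1.subset hx), ?_, ?_, ?_, ?_, hg, ?_⟩
  · rw [hlen]
    exact hpw.trans ((Nat.pow_le_pow_right (by norm_num) (by omega)).trans hz.f)
  · simp [mv, hp]
  · change 1 ≤ cx.pd
    omega
  · rw [hlen]
    change _ + bl ((cx.ob s p).length ^ (2 * L.length)) + bl 1 ≤ _
    omega
  · intro s' hs'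
    obtain rfl := List.mem_singleton.1 hs'
    have hr := h.toWF0.real (new_ab hs hc h hp) (new_inv hs hc h hp hl)
    refine ⟨hG, hW _ (blk cmp cx s p (L.map Prod.fst ++ L.map Prod.snd))
      (hz.wf' hG (by omega) hw0).view_ok
      ((h.toWF0.real_mono hc _).trans (hr.lab_mono hc _ _ _)) rfl ⟨?_, ?_, ?_⟩ ?_⟩
    · intro x hx
      exact List.mem_toFinset.2 (Sta.mem_real.1.2 (Or.inr (List.mem_map_of_mem ((hm x).2 hx))))
    · intro g hg x hx
      exact ⟨(hm _).1 (o3 g hg x ((hm x).2 hx)), blk_smul hs hc h hp hl hg ((hm x).2 hx)⟩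
    · have := hr.lab_inv2 hc (Ly := (cx.ob s p).map (fun x => ((0 : ℕ), [s.σ • x,
        s.σ • blk cmp cx s p (L.map Prod.fst ++ L.map Prod.snd) x]))) (k := 1) 0
        (fun e he => (lab_a hc h hp e he).2)
      have e : (fun x y => x ∈ C ∧ y = blk cmp cx s p (L.map Prod.fst ++ L.map Prod.snd) x) =
          (fun a b => ((0 : ℕ), [a, b]) ∈ (cx.ob s p).map
            (fun x => ((0 : ℕ), [x, blk cmp cx s p (L.map Prod.fst ++ L.map Prod.snd) x]))) := by
        funext x y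
        simp only [List.mem_map, Prod.mk.injEq, true_and, List.cons.injEq, and_true, hm]
        exact propext
          ⟨fun a => ⟨x, a.1, rfl, a.2.symm⟩, fun ⟨z, a1, a2, a3⟩ => a2 ▸ ⟨a1, a3.symm⟩⟩
      rw [e]
      exact this
    · intro x hx y hy
      rw [blk_eq hs ((hm x).2 hx) ((hm y).2 hy)]
      have : (fun a b => a ∈ cx.ob s p ∧ b ∈ cx.ob s p ∧
          (a, b) ∈ edges cx s p (L.map Prod.fst ++ L.map Prod.snd)) =
          ((cx.view s).Γ1 cx.P).Rel C L := by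
        funext a b
        rw [mem_edges hc h hp hl, prs_eq, Sy.Rel, hm, hm]
        refine propext (and_congr_right fun ha => and_congr_right fun hb => ?_)
        simp only [ha, hb, true_and]
        refine exists_congr fun q => and_congr_right fun hq => ?_
        rw [Vw.Γ1, sys1_E2 _ h.view_ok.inv]
        exact ⟨fun e => ⟨hO.2.1 (hL q hq).1, hO.2.1 (hL q hq).2, e⟩, fun e => e.2.2⟩
      rw [this]

end MQUO1x

/- dom = ob; guard p in D; C = ob s p; pairs = (l.take r).zip (l.drop r), r = length / 2; edges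
R = pairs (u,v) of C with trL (1,S) [(a,u),(b,v)] some for a listed (a,b); b x = st (cmp (C,R,x));
one state: (s.real (C.map b)).lab [(0,[x,b x])] [(0,[sigma x, sigma (b x)])] 1. R is invariant under
the group, so b (h x) = h (b x). Soundness needs no size of C; Wins has C.card <= n. -/
theorem mv_quo1 : HasMv RQuo1 := by
  obtain ⟨cmp, h1, h2⟩ := exists_cmp
  exact ⟨MQUO1x.mv cmp, MQUO1x.poly h1, MQUO1x.sound h2, MQUO1x.wins h2⟩

end Pool.Agent.P.MP_f1a348_lc.GX
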