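import Pool.Agent.P.MP_f1a348_lc.GY.DefsP
import Pool.Agent.P.MP_f1a348_lc.GX.LibInc
import Pool.Agent.P.MP_f1a348_lc.GY.LibF
import Pool.Agent.P.MP_f1a348_lc.GY.TPNUM
import Pool.Agent.P.MP_f1a348_lc.GY.TPSIZE
import Pool.Agent.P.MP_f1a348_lc.GY.TPCOL
import Pool.Agent.P.MP_f1a348_lc.GY.TPLAB
import Pool.Agent.P.MP_f1a348_lc.GY.TPREAL
import Pool.Agent.P.MP_f1a348_lc.GY.TVORB

/-! Step MQUO2. -/

set_option autoImplicit false
set_option linter.unusedSectionVars false

namespace Pool.Agent.P.MP_f1a348_lc.GX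

open Pool.Agent.Lib.Helper47 Pool.Agent.P.MP_f1a348_lc.GI Pool.Agent.P.MP_f1a348_lc.TO
variable {cx : Cx} {s s' s'' : Sta}

namespace MQUO2x

/-- the listed pairs -/
def prs (l : List Tm) : List (Tm × Tm) := (l.take (l.length / 2)).zip (l.drop (l.length / 2))

/-- the pairs of the class on the side `b` with the colour of a listed pair -/
def edges (cx : Cx) (s : Sta) (b : Bool) (p : Tm) (l : List Tm) : List (Tm × Tm) :=
  (prodL (cx.cl s b p) (cx.cl s b p)).filter (fun e => (prs l).any (fun q =>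
    cx.col s b [e.1, e.2] == cx.col s false [q.1, q.2]))

/-- the number of the component of a point -/
def num (cmp : List Tm × List (Tm × Tm) × Tm → List Tm) (cx : Cx) (s : Sta) (b : Bool) (p : Tm)
    (l : List Tm) (x : Tm) : ℕ :=
  (cx.cl s b p).findIdx (fun y => (cmp (cx.cl s b p, edges cx s b p l, x)).contains y)

/-- the state with the new names -/
def mid (cmp : List Tm × List (Tm × Tm) × Tm → List Tm) (cx : Cx) (s : Sta) (p : Tm)
    (l : List Tm) : Sta :=
  s.abs ((cx.cl s false p).map (num cmp cx s false p l))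
    ((cx.cl s true p).map (num cmp cx s true p l))
    ((cx.cl s false p).length + (cx.cl s true p).length + 1)

/-- the links of the side `b` -/
def lk (cmp : List Tm × List (Tm × Tm) × Tm → List Tm) (cx : Cx) (s : Sta) (b : Bool) (p : Tm)
    (l : List Tm) : List (ℕ × List Tm) :=
  (cx.cl s b p).map (fun x => (0, [x, s.nm (num cmp cx s b p l x)]))

/-- the new state -/
def nxt (cmp : List Tm × List (Tm × Tm) × Tm → List Tm) (cx : Cx) (s : Sta) (p : Tm)
    (l : List Tm) : Sta :=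
  (mid cmp cx s p l).lab (lk cmp cx s false p l) (lk cmp cx s true p l) 1

/-- the move -/
def mv (cmp : List Tm × List (Tm × Tm) × Tm → List Tm) : Mv where
  dom := fun cx s p => cx.cl s false p
  br := fun cx s p l => bif (cx.cl s false p).length == (cx.cl s true p).length then
    some [nxt cmp cx s p l] else some []

section pt
variable {α : Type} [Enc α] {c : α → Cx} {s : α → Sta} {p x : α → Tm} {l : α → List Tm}
  {b : α → Bool} {cmp : List Tm × List (Tm × Tm) × Tm → List Tm}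

@[fun_prop] theorem pt_prs (h : PT l) : PT (fun a => prs (l a)) := by unfold prs; fun_prop

@[fun_prop] theorem pt_edges (h0 : PT c) (h1 : PT s) (hb : PT b) (h2 : PT p) (h3 : PT l) :
    PT (fun a => edges (c a) (s a) (b a) (p a) (l a)) := by unfold edges; fun_prop

theorem pt_num (hc : PT cmp) (h0 : PT c) (h1 : PT s) (hb : PT b) (h2 : PT p) (h3 : PT l)
    (h4 : PT x) : PT (fun a => num cmp (c a) (s a) (b a) (p a) (l a) (x a)) := by
  have h5 : PT (fun a => cmp ((c a).cl (s a) (b a) (p a), edges (c a) (s a) (b a) (p a) (l a),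
      x a)) := hc.comp (g := fun a => ((c a).cl (s a) (b a) (p a),
        edges (c a) (s a) (b a) (p a) (l a), x a)) (by fun_prop)
  have h6 : PT (fun a => (c a).cl (s a) (b a) (p a)) := by fun_prop
  unfold num
  refine PT.findIdx (g := fun a y => (cmp ((c a).cl (s a) (b a) (p a),
    edges (c a) (s a) (b a) (p a) (l a), x a)).contains y) ?_ h6
  have h7 : ∀ F : α → List Tm, PT F → PT (fun q : α × Tm => (F q.1).contains q.2) :=
    fun F hF => by fun_prop
  exact h7 _ h5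

theorem pt_nxt (hc : PT cmp) (h0 : PT c) (h1 : PT s) (h2 : PT p) (h3 : PT l) :
    PT (fun a => nxt cmp (c a) (s a) (p a) (l a)) := by
  have hb : ∀ b : Bool, PT (fun q : α × Tm => num cmp (c q.1) (s q.1) b (p q.1) (l q.1) q.2) :=
    fun b => pt_num (b := fun _ => b) hc (by fun_prop) (by fun_prop) (PT.const _) (by fun_prop)
      (by fun_prop) (by fun_prop)
  have ho : ∀ b : Bool, PT (fun a => (c a).cl (s a) b (p a)) := fun b => by fun_prop
  have hk : ∀ b : Bool, PT (fun a => lk cmp (c a) (s a) b (p a) (l a)) := fun b => by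
    have := hb b
    unfold lk
    refine PT.map ?_ (ho b)
    fun_prop
  unfold nxt mid
  refine Sta.pt_lab (Sta.pt_abs h1 (PT.map (hb _) (ho _)) (PT.map (hb _) (ho _)) ?_) (hk _) (hk _)
    (PT.const _)
  fun_prop
end pt

theorem poly {cmp : List Tm × List (Tm × Tm) × Tm → List Tm} (hc : PT cmp) : (mv cmp).Poly := by
  refine ⟨by unfold mv; fun_prop, ?_⟩
  have hn : PT (fun x : Cx × Sta × Tm × List Tm => nxt cmp x.1 x.2.1 x.2.2.1 x.2.2.2) :=
    pt_nxt hc (by fun_prop) (by fun_prop) (by fun_prop) (by fun_prop)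
  unfold mv
  fun_prop

/-- the specification of the program for components -/
def Spec (cmp : List Tm × List (Tm × Tm) × Tm → List Tm) : Prop :=
  ∀ C R x, (cmp (C, R, x)).Sublist C ∧ (x ∈ C → ∀ y, y ∈ cmp (C, R, x) ↔
    Relation.EqvGen (fun a b => a ∈ C ∧ b ∈ C ∧ (a, b) ∈ R) x y)

/-- the edge relation of the side `b` -/
def Ed (cx : Cx) (s : Sta) (b : Bool) (p : Tm) (l : List Tm) (u v : Tm) : Prop :=
  u ∈ cx.cl s b p ∧ v ∈ cx.cl s b p ∧ (u, v) ∈ edges cx s b p l

variable {cmp : List Tm × List (Tm × Tm) × Tm → List Tm} {p : Tm} {l : List Tm}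

theorem prs_eq (L : List (Tm × Tm)) : prs (L.map Prod.fst ++ L.map Prod.snd) = L := by
  have e : (L.map Prod.fst ++ L.map Prod.snd).length / 2 = (L.map Prod.fst).length := by
    simp only [List.length_append, List.length_map]; omega
  rw [prs, e, List.take_left, List.drop_left, List.zip_map']
  simp

theorem ed_iff {b : Bool} {u v : Tm} : Ed cx s b p l u v ↔ u ∈ cx.cl s b p ∧ v ∈ cx.cl s b p ∧
    ∃ q ∈ prs l, cx.col s b [u, v] = cx.col s false [q.1, q.2] := by
  rw [Ed, edges, List.mem_filter, mem_prodL, List.any_eq_true]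
  simp only [beq_iff_eq]
  exact ⟨fun a => ⟨a.1, a.2.1, a.2.2.2⟩, fun a => ⟨a.1, a.2.1, ⟨a.1, a.2.1⟩, a.2.2⟩⟩

theorem num_le (b : Bool) (x : Tm) : num cmp cx s b p l x ≤ (cx.cl s b p).length :=
  List.findIdx_le_length

theorem num_eq (hs : Spec cmp) {b : Bool} {x y : Tm} (hx : x ∈ cx.cl s b p)
    (hy : y ∈ cx.cl s b p) :
    num cmp cx s b p l x = num cmp cx s b p l y ↔ Relation.EqvGen (Ed cx s b p l) x y := by
  have k1 : ∀ z ∈ cx.cl s b p, ∀ w, (cmp (cx.cl s b p, edges cx s b p l, z)).contains w = true ↔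
      Relation.EqvGen (Ed cx s b p l) z w := fun z hz w => by
    rw [List.contains_iff_mem]
    exact (hs _ _ _).2 hz w
  constructor
  · intro e
    have h1 : num cmp cx s b p l x < (cx.cl s b p).length :=
      List.findIdx_lt_length_of_exists ⟨x, hx, (k1 x hx x).2 (.refl _)⟩
    have h2 : num cmp cx s b p l y < (cx.cl s b p).length := e ▸ h1
    have a1 := (k1 x hx _).1 (List.findIdx_getElem (w := h1))
    have a2 := (k1 y hy _).1 (List.findIdx_getElem (w := h2))
    have a3 : (cx.cl s b p)[num cmp cx s b p l x] = (cx.cl s b p)[num cmp cx s b p l y] := by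
      simp only [e]
    exact .trans _ _ _ a1 (.symm _ _ (a3 ▸ a2))
  · intro e
    unfold num
    congr 1
    funext w
    rw [Bool.eq_iff_iff, k1 x hx, k1 y hy]
    exact ⟨fun a => .trans _ _ _ (.symm _ _ e) a, fun a => .trans _ _ _ e a⟩

theorem eqv_map {r r' : Tm → Tm → Prop} {f : Tm → Tm} (h : ∀ a b, r a b → r' (f a) (f b))
    {x y : Tm} (e : Relation.EqvGen r x y) : Relation.EqvGen r' (f x) (f y) := by
  induction e with
  | rel a b k => exact .rel _ _ (h a b k)
  | refl a => exact .refl _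
  | symm a b _ ih => exact .symm _ _ ih
  | trans a b c _ _ i1 i2 => exact .trans _ _ _ i1 i2

theorem ed_iso (hc : cx.Ok) (h : cx.WF s) {f : Tm → Tm} (hf : SIso s.A s.B f) {u v : Tm}
    (hu : u ∈ cx.cl s false p) (hv : v ∈ cx.cl s false p) :
    Ed cx s true p l (f u) (f v) ↔ Ed cx s false p l u v := by
  have b1 := (h.cl_iso hc hf p).1
  have e := h.col_iso hc hf (l := [u, v]) (by
    intro x hx
    rcases (by simpa using hx : x = u ∨ x = v) with rfl | rfl
    · exact (Cx.mem_cl.1 hu).1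
    · exact (Cx.mem_cl.1 hv).1) (by simp)
  rw [List.map_cons, List.map_cons, List.map_nil] at e
  rw [ed_iff, ed_iff, e]
  exact ⟨fun a => ⟨hu, hv, a.2.2⟩, fun a => ⟨b1.mapsTo hu, b1.mapsTo hv, a.2.2⟩⟩

theorem num_iso (hs : Spec cmp) (hc : cx.Ok) (h : cx.WF s) {f : Tm → Tm} (hf : SIso s.A s.B f)
    {x y : Tm} (hx : x ∈ cx.cl s false p) (hy : y ∈ cx.cl s false p) :
    num cmp cx s true p l (f x) = num cmp cx s true p l (f y) ↔
      num cmp cx s false p l x = num cmp cx s false p l y := by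
  have b1 := (h.cl_iso hc hf p).1
  rw [num_eq hs (b1.mapsTo hx) (b1.mapsTo hy), num_eq hs hx hy]
  refine ⟨fun e => ?_, eqv_map fun a b k => (ed_iso hc h hf k.1 k.2.1).2 k⟩
  have i1 := b1.invOn_invFunOn
  have i2 := b1.surjOn.mapsTo_invFunOn
  have := eqv_map (r' := Ed cx s false p l)
    (f := Function.invFunOn f {x | x ∈ cx.cl s false p}) (fun a b k => by
      refine (ed_iso hc h hf (i2 k.1) (i2 k.2.1)).1 ?_
      rw [i1.2 k.1, i1.2 k.2.1]
      exact k) e
  rwa [i1.1 hx, i1.1 hy] at this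

theorem mid_wf (h : cx.WF0 s) : cx.WF0 (mid cmp cx s p l) := by
  refine h.abs (fun i hi => ?_) (fun i hi => ?_)
  · obtain ⟨x, -, rfl⟩ := List.mem_map.1 hi
    have := num_le (cmp := cmp) (cx := cx) (s := s) (p := p) (l := l) false x
    omega
  · obtain ⟨x, -, rfl⟩ := List.mem_map.1 hi
    have := num_le (cmp := cmp) (cx := cx) (s := s) (p := p) (l := l) true x
    omega

theorem lab_a : ∀ e ∈ lk cmp cx s false p l, e.1 < 1 ∧ ∀ x ∈ e.2, x ∈ (mid cmp cx s p l).A.1 := by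
  intro e he
  obtain ⟨y, hy, rfl⟩ := List.mem_map.1 he
  refine ⟨Nat.one_pos, fun x hx => Sta.mem_abs.1.2 ?_⟩
  rcases (by simpa using hx : x = y ∨ x = s.nm (num cmp cx s false p l y)) with rfl | rfl
  · exact Or.inl (Cx.mem_cl.1 hy).1
  · exact Or.inr ⟨_, List.mem_map_of_mem hy, rfl⟩

theorem lab_b : ∀ e ∈ lk cmp cx s true p l, e.1 < 1 ∧ ∀ x ∈ e.2, x ∈ (mid cmp cx s p l).B.1 := by
  intro e he
  obtain ⟨y, hy, rfl⟩ := List.mem_map.1 he
  refine ⟨Nat.one_pos, fun x hx => Sta.mem_abs.2.2 ?_⟩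
  rcases (by simpa using hx : x = y ∨ x = s.nm (num cmp cx s true p l y)) with rfl | rfl
  · exact Or.inl (Cx.mem_cl.1 hy).1
  · exact Or.inr ⟨_, List.mem_map_of_mem hy, rfl⟩

theorem nxt_wf (h : cx.WF0 s) : cx.WF0 (nxt cmp cx s p l) := (mid_wf h).lab lab_a lab_b

theorem map_inj {f : Tm → Tm} {A : List Tm} (hf : Set.InjOn f {x | x ∈ A}) :
    ∀ {a b : List Tm}, (∀ x ∈ a, x ∈ A) → (∀ x ∈ b, x ∈ A) → a.map f = b.map f → a = b
  | [], [], _, _, _ => rfl
  | [], _ :: _, _, _, e => by simp at e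
  | _ :: _, [], _, _, e => by simp at e
  | x :: a, y :: b, h1, h2, e => by
    simp only [List.map_cons, List.cons.injEq] at e
    rw [hf (h1 x (by simp)) (h2 y (by simp)) e.1,
      map_inj hf (fun z hz => h1 z (by simp [hz])) (fun z hz => h2 z (by simp [hz])) e.2]

theorem exists_pi {C C' : List Tm} {f : Tm → Tm} {i j : Tm → ℕ}
    (hf : Set.BijOn f {x | x ∈ C} {x | x ∈ C'})
    (e : ∀ x ∈ C, ∀ y ∈ C, j (f x) = j (f y) ↔ i x = i y) :
    ∃ π : ℕ → ℕ, Set.BijOn π {a | a ∈ C.map i} {a | a ∈ C'.map j} ∧ ∀ x ∈ C, π (i x) = j (f x) := by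
  classical
  obtain ⟨π, key⟩ : ∃ π : ℕ → ℕ, ∀ x ∈ C, π (i x) = j (f x) := by
    refine ⟨fun a => if h : ∃ x ∈ C, i x = a then j (f h.choose) else 0, fun x hx => ?_⟩
    have h : ∃ y ∈ C, i y = i x := ⟨x, hx, rfl⟩
    simp only [dif_pos h]
    exact (e _ h.choose_spec.1 x hx).2 h.choose_spec.2
  refine ⟨π, ⟨fun a ha => ?_, fun a ha b hb k => ?_, fun a ha => ?_⟩, key⟩
  · obtain ⟨x, hx, rfl⟩ := List.mem_map.1 ha
    rw [key x hx]
    exact List.mem_map_of_mem (hf.mapsTo hx)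
  · obtain ⟨x, hx, rfl⟩ := List.mem_map.1 ha
    obtain ⟨y, hy, rfl⟩ := List.mem_map.1 hb
    rw [key x hx, key y hy] at k
    exact (e x hx y hy).1 k
  · obtain ⟨y, hy, rfl⟩ := List.mem_map.1 ha
    obtain ⟨x, hx, rfl⟩ := hf.surjOn hy
    exact ⟨i x, List.mem_map_of_mem hx, key x hx⟩

theorem nxt_tgt (hs : Spec cmp) (hc : cx.Ok) (h : cx.WF s) {g : U} (hg : g ∈ s.Tgt) :
    g ∈ (nxt cmp cx s p l).Tgt := by
  obtain ⟨f, w⟩ := hg
  have b1 := (h.cl_iso hc w.iso p).1
  obtain ⟨π, p1, p2⟩ := exists_pi (i := num cmp cx s false p l) (j := num cmp cx s true p l) b1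
    (fun x hx y hy => num_iso hs hc h w.iso hx hy)
  obtain ⟨f', w', e1, e2⟩ := h.toWF0.abs_wit
    ((cx.cl s false p).length + (cx.cl s true p).length + 1) w p1
  have e3 : ∀ x ∈ cx.cl s false p, [x, s.nm (num cmp cx s false p l x)].map f' =
      [f x, s.nm (num cmp cx s true p l (f x))] := fun x hx => by
    rw [List.map_cons, List.map_cons, List.map_nil, e1 x (Cx.mem_cl.1 hx).1,
      e2 _ (List.mem_map_of_mem hx), p2 x hx]
  refine ⟨f', (mid_wf h.toWF0).lab_wit.2 ⟨w', fun c m hm => ⟨fun a => ?_, fun a => ?_⟩⟩⟩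
  · obtain ⟨y, hy, e⟩ := List.mem_map.1 a
    obtain ⟨rfl, rfl⟩ := Prod.mk.inj e
    exact List.mem_map.2 ⟨f y, b1.mapsTo hy, by rw [e3 y hy]⟩
  · obtain ⟨y, hy, e⟩ := List.mem_map.1 a
    obtain ⟨rfl, e'⟩ := Prod.mk.inj e
    obtain ⟨x, hx, rfl⟩ := b1.surjOn hy
    refine List.mem_map.2 ⟨x, hx, Prod.ext rfl ?_⟩
    have hA := (lab_a (cmp := cmp) (l := l) _ (List.mem_map_of_mem hx)).2
    exact map_inj w'.iso.bij.injOn hA hm ((e3 x hx).trans e')

theorem sound (hs : Spec cmp) : (mv cmp).Sound := by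
  intro cx s p l L hc h _ _ e
  simp only [mv] at e
  cases e1 : ((cx.cl s false p).length == (cx.cl s true p).length) with
  | false =>
    rw [e1] at e
    obtain rfl : [] = L := Option.some.inj e
    refine ⟨by simp, fun g ⟨f, w⟩ => ?_⟩
    rw [(h.cl_iso hc w.iso p).2] at e1
    simp at e1
  | true =>
    rw [e1] at e
    obtain rfl : [nxt cmp cx s p l] = L := Option.some.inj e
    refine ⟨fun s' hs' => ?_, fun g hg => ⟨_, List.mem_singleton_self _, nxt_tgt hs hc h hg⟩⟩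
    obtain rfl := List.mem_singleton.1 hs'
    exact ⟨nxt_wf h.toWF0, fun g hg => hg⟩

end MQUO2x

end Pool.Agent.P.MP_f1a348_lc.GX
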