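import Pool.Agent.P.MP_f1a348_lc.GY.TMPIN1
import Pool.Agent.P.MP_f1a348_lc.GY.TMPIN2
import Pool.Agent.P.MP_f1a348_lc.GY.TMQUO1
import Pool.Agent.P.MP_f1a348_lc.GY.TMQUO2

/-! Graph isomorphism: the cheap moves. -/

set_option autoImplicit false
set_option linter.unusedSectionVars false

namespace Pool.Agent.P.MP_f1a348_lc.GX

open Pool.Agent.Lib.Helper47 Pool.Agent.P.MP_f1a348_lc.GI Pool.Agent.P.MP_f1a348_lc.TO

/-- the move pins a subset of a class of the system `i` -/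
def Mv.LtPin (m : Mv) (i : Bool) : Prop :=
  ∀ cx s (C Q : Finset Tm) p, Cx.Ok cx → cx.WF s → ((cx.view s).sy cx.P i).Cls C → p ∈ C → Q ⊆ C →
    Q.card + 2 ≤ cx.P.M → p ∈ s.A.1 ∧ (∀ x, x ∈ m.dom cx s p ↔ x ∈ C) ∧
      (m.dom cx s p).length = C.card ∧ ∃ L, m.br cx s p Q.toList = some L ∧
        L.length ≤ C.card ^ Q.card ∧ ∀ s' ∈ L, cx.WF s' ∧ cx.Gro s s' 0 0 (2 ^ cx.lam) 1 ∧
          (cx.view s).Mono (cx.view s') ∧ (cx.view s).Kp (cx.view s') i ∧
          (((cx.view s).sy cx.P i).pin Q).Ref ((cx.view s').sy cx.P i)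

/-- the move adds the blocks of a class of the system `i`; `nz` lists the new points -/
def Mv.LtQuo (m : Mv) (nz : Cx → Sta → Tm → List Tm → List Tm) (i : Bool) : Prop :=
  ∀ cx s (C : Finset Tm) (prs : List (Tm × Tm)) p, Cx.Ok cx → cx.WF s →
    ((cx.view s).sy cx.P i).Cls C → p ∈ C → C.card ≤ cx.n → (∀ q ∈ prs, q.1 ∈ C ∧ q.2 ∈ C) →
    p ∈ s.A.1 ∧ (∀ x, x ∈ m.dom cx s p ↔ x ∈ C) ∧ (m.dom cx s p).length = C.card ∧
      ∃ (L : List Sta) (b : Tm → Tm),
        m.br cx s p (prs.map Prod.fst ++ prs.map Prod.snd) = some L ∧ L.length ≤ 1 ∧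
        (nz cx s p (prs.map Prod.fst ++ prs.map Prod.snd)).toFinset = C.image b ∧
        (nz cx s p (prs.map Prod.fst ++ prs.map Prod.snd)).length ≤ C.card ∧
        ∀ s' ∈ L, cx.WF0 s' ∧ s'.hs = s.hs ∧ cx.Gro s s' cx.n cx.n cx.pd (2 ^ bl C.card) ∧
          (cx.WF s' →
          (cx.view s).Mono (cx.view s') ∧ (cx.view s).Kp (cx.view s') i ∧
          ((cx.view s).sy cx.P i).Blk ((cx.view s').sy cx.P i) C prs b ∧
          (∀ x ∈ nz cx s p (prs.map Prod.fst ++ prs.map Prod.snd),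
            x ∈ bif i then s'.D else s'.A.1) ∧
          (i = true → InvF (cx.view s').H (C.image b)))

variable {cx : Cx} {s s' s'' : Sta}

theorem MPIN1x.light {pw : ℕ × List Unit × List Unit → Bool}
    (epw : ∀ a k pad, pw (a, k, pad) = true ↔ a ^ k.length ≤ pad.length) :
    (MPIN1x.mv pw).LtPin true := by
  intro cx s C Q p hc h hC hpC hQ hM
  have hO : (cx.view s).IsO C := h.view_ok.cls_iff.1 hC
  have hp : p ∈ s.D := List.mem_toFinset.1 (hO.2.1 hpC)
  obtain ⟨o1, o2, o3, o4, o5, -⟩ := h.ob_view hc hp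
  rw [hO.2.2 p hpC] at o4 o5
  have hm : ∀ x, x ∈ cx.ob s p ↔ x ∈ C := fun x => by rw [← o4, List.mem_toFinset]
  have hl : ∀ x ∈ Q.toList, x ∈ cx.ob s p := fun x hx => (hm x).2 (hQ (Finset.mem_toList.1 hx))
  have hD : ∀ x ∈ Q.toList, x ∈ s.D := fun x hx => o1.subset (hl x hx)
  have hpw : (cx.ob s p).length ^ Q.card ≤ cx.pd :=
    hc.pow (o1.length_le.trans h.dlen.1) (le_trans (Nat.le_add_right _ 2) hM)
  have hL := MPIN1x.len_cosL cx s p Q.toList
  rw [Finset.length_toList, o5] at hL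
  refine ⟨h.toWF0.dA hp, hm, o5, (MPIN1x.cosL cx s p Q.toList).map s.cos, ?_,
    by rwa [List.length_map], fun s' hs' => ?_⟩
  · have e : (s.D.contains p &&
        pw ((cx.ob s p).length, Q.toList.map (fun _ => ()), cx.pad)) = true := by
      rw [Bool.and_eq_true, epw, List.length_map, Finset.length_toList]
      exact ⟨by simpa using hp, hpw⟩
    show (bif (s.D.contains p && pw ((cx.ob s p).length, Q.toList.map (fun _ => ()), cx.pad)) then
      some ((MPIN1x.cosL cx s p Q.toList).map s.cos) else none) = _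
    rw [e, cond_true]
  · obtain ⟨c, hm, rfl⟩ := List.mem_map.1 hs'
    obtain ⟨a1, a2, a3⟩ := MPIN1x.mem_cosL hc h hD hm
    have a4 : gen c.2 ≤ gen s.S := a2 ▸ inf_le_left
    have w : cx.WF (s.cos c) := ⟨h.toWF0.cos a1 a4 a3, h.ca, h.cb⟩
    have mo : (cx.view s).Mono (cx.view (s.cos c)) := Cx.cos_mono a4
    refine ⟨w, (Cx.Gro.of_eq (s := s) (s' := s.cos c) rfl rfl rfl rfl).mono le_rfl le_rfl
      (Nat.zero_le _) le_rfl, mo, nofun,
      sys1_pin _ _ h.view_ok.inv w.view_ok.inv mo.h mo.d fun u hu => ?_⟩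
    have hu' : u ∈ gen c.2 := hu
    rw [a2] at hu'
    exact mem_fixF.2 fun q hq => mem_fixS.1 hu'.2 q (Finset.mem_toList.2 hq)

theorem MPIN2x.light {pw : ℕ × List Unit × List Unit → Bool}
    (p2 : ∀ a k pad, pw (a, k, pad) = true ↔ a ^ k.length ≤ pad.length) :
    (MPIN2x.mv pw).LtPin false := by
  intro cx s C Q p hc h hC hpC hQ hM
  have hC' : (cx.view s).Γ.Cls C := hC
  have hD : ∀ x ∈ C, x ∈ s.A.1 := fun x hx => List.mem_toFinset.1 (hC'.2.1.1 hx)
  have hp := hD p hpC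
  obtain ⟨o4, o5⟩ := h.cl_view hc hp
  rw [← hC'.eq_cls hpC] at o4 o5
  have hm : ∀ x, x ∈ cx.cl s false p ↔ x ∈ C := fun x => by rw [← o4, List.mem_toFinset]
  have hl : ∀ x ∈ Q.toList, x ∈ cx.cl s false p := fun x hx =>
    (hm x).2 (hQ (Finset.mem_toList.1 hx))
  have n1 := hc.nums
  have n3 : (cx.cl s false p).length ≤ 2 ^ cx.lam := (Cx.cl_sub false p).length_le.trans h.ca
  have n4 : Q.card ≤ 2 ^ cx.lam := (Finset.card_le_card hQ).trans (o5 ▸ n3)
  have n6 : (cx.cl s false p).length ^ Q.card ≤ cx.pd :=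
    hc.pow n3 (le_trans (Nat.le_add_right _ 2) hM)
  refine ⟨hp, hm, o5, ?_⟩
  cases e1 : ((cx.cl s false p).length == (cx.cl s true p).length) with
  | false => exact ⟨[], by simp only [MPIN2x.mv, e1, cond_false], Nat.zero_le _, by simp⟩
  | true =>
    have e2 : (cx.cl s false p).length = (cx.cl s true p).length := by simpa using e1
    have e3 : pw ((cx.cl s true p).length, Q.toList.map (fun _ => ()), cx.pad) = true :=
      (p2 _ _ _).2 (by rw [← e2, List.length_map, Finset.length_toList]; exact n6)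
    refine ⟨MPIN2x.brs cx s p Q.toList, by simp only [MPIN2x.mv, e1, e3, cond_true], ?_,
      fun s' hs => ?_⟩
    · rw [MPIN2x.brs, List.length_map, ← o5, e2]
      simpa using length_tuples_le cx.pad (cx.cl s true p) Q.toList
    · obtain ⟨l', h1, rfl⟩ := List.mem_map.1 hs
      have a1 := (tuples_sound h1).1
      have a2 : 1 ≤ cx.pd := by omega
      have w := MPIN2x.wf h hl h1
      have mo := h.toWF0.lab_mono hc (MPIN2x.pinL Q.toList) (MPIN2x.pinL l') Q.toList.length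
      refine ⟨w, Cx.lab_gro (by simpa [MPIN2x.length_pinL] using n4)
        (by simpa [MPIN2x.length_pinL, a1] using n4) (by simpa using n4)
        (fun e he => by rw [MPIN2x.pinL_len e he]; exact a2)
        (fun e he => by rw [MPIN2x.pinL_len e he]; exact a2), mo, fun _ => ⟨rfl, rfl⟩,
        Sy.ref_pin_of mo.dd mo.l (hQ.trans hC'.2.1.1) ?_ hM⟩
      rintro x hx y ⟨f, f1, rfl⟩
      obtain ⟨i, hi⟩ := List.getElem?_of_mem (Finset.mem_toList.2 hx)
      obtain ⟨z, z1, z2⟩ := MPIN2x.mem_pinL.1 ((h.toWF0.lab_rel f1 (l := [x]) (by simp)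
        (by simp; omega) i).1 (MPIN2x.mem_pinL.2 ⟨x, hi, rfl⟩))
      rw [hi] at z1
      obtain rfl := Option.some.inj z1
      simpa using z2

namespace MQUO1x
variable {cmp : List Tm × List (Tm × Tm) × Tm → List Tm} {p : Tm} {l : List Tm}

/-- the new points -/
noncomputable def nz (cmp : List Tm × List (Tm × Tm) × Tm → List Tm) (cx : Cx) (s : Sta) (p : Tm)
    (l : List Tm) : List Tm := (cx.ob s p).map (blk cmp cx s p l)

theorem pt_nz (hc : PT cmp) :
    PT (fun x : Cx × Sta × Tm × List Tm => nz cmp x.1 x.2.1 x.2.2.1 x.2.2.2) := by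
  have hb : PT (fun q : (Cx × Sta × Tm × List Tm) × Tm =>
      blk cmp q.1.1 q.1.2.1 q.1.2.2.1 q.1.2.2.2 q.2) :=
    pt_blk hc (by fun_prop) (by fun_prop) (by fun_prop) (by fun_prop) (by fun_prop)
  unfold nz
  exact PT.map hb (by fun_prop)

theorem nxt_gro (hs : Spec cmp) (hc : cx.Ok) (h : cx.WF s) (hp : p ∈ s.D)
    (hn : (cx.ob s p).length ≤ cx.n) :
    cx.Gro s (nxt cmp cx s p l) cx.n cx.n cx.pd (2 ^ bl (cx.ob s p).length) := by
  obtain ⟨n1, -, -, -, n5, n6, -, n7⟩ := hc.nums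
  have hlam := hc.lam
  have g1 := h.real_gro hc (V := (cx.ob s p).map (blk cmp cx s p l)) (m := (cx.ob s p).length + 1)
    (by omega) (fun w hw ht x hx => by
      obtain ⟨y, -, rfl⟩ := List.mem_map.1 hx
      have a1 := (hs (cx.ob s p) (edges cx s p l) y).1
      have a2 := Tm.wt_st_le' (l := cmp (cx.ob s p, edges cx s p l, y)) (B := w) fun z hz =>
        ht z (h.toWF0.dA ((h.ob_view hc hp).1.subset (a1.subset hz)))
      have a3 := Nat.mul_le_mul_right w a1.length_le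
      rw [blk, add_mul, one_mul]
      omega)
  have h2 : 2 ≤ cx.pd := by omega
  have g2 : cx.Gro (s.real ((cx.ob s p).map (blk cmp cx s p l))) (nxt cmp cx s p l) 0 0
      (2 ^ cx.lam) 1 := by
    refine Cx.lab_gro ?_ ?_ Nat.one_le_two_pow ?_ ?_
    · rw [List.length_map]; omega
    · rw [List.length_map]; omega
    · intro e he
      obtain ⟨y, -, rfl⟩ := List.mem_map.1 he
      exact h2
    · intro e he
      obtain ⟨y, -, rfl⟩ := List.mem_map.1 he
      exact h2
  have p1 : 2 ^ (cx.lam + 2) ≤ 2 ^ (8 * cx.lam) := Nat.pow_le_pow_right (by norm_num) (by omega)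
  have p2 : 1 ≤ 2 ^ cx.lam := Nat.one_le_two_pow
  have p3 := lt_two_pow_bl (cx.ob s p).length
  rw [pow_add] at p1
  refine (g1.trans (by omega) g2).mono ?_ ?_ ?_ ?_
  · rw [List.length_map]; omega
  · rw [List.length_map]; omega
  · omega
  · omega

theorem nxt_nw (hs : Spec cmp) (hc : cx.Ok) (h : cx.WF s) (hp : p ∈ s.D)
    (hl : ∀ x ∈ l, x ∈ cx.ob s p) {C : Finset Tm} (hm : ∀ x, x ∈ cx.ob s p ↔ x ∈ C) :
    (cx.view (nxt cmp cx s p l)).Nw C (blk cmp cx s p l) := by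
  have hr := h.toWF0.real (new_ab hs hc h hp) (new_inv hs hc h hp hl)
  have o3 := (h.ob_view hc hp).2.2.1
  refine ⟨?_, ?_, ?_⟩
  · intro x hx
    exact List.mem_toFinset.2 (Sta.mem_real.1.2 (Or.inr (List.mem_map_of_mem ((hm x).2 hx))))
  · intro g hg x hx
    exact ⟨(hm _).1 (o3 g hg x ((hm x).2 hx)), blk_smul hs hc h hp hl hg ((hm x).2 hx)⟩
  · have := hr.lab_inv2 hc (Ly := (cx.ob s p).map (fun x => ((0 : ℕ), [s.σ • x,
      s.σ • blk cmp cx s p l x]))) (k := 1) 0 (fun e he => (lab_a hc h hp e he).2)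
    have e : (fun x y => x ∈ C ∧ y = blk cmp cx s p l x) =
        (fun a b => ((0 : ℕ), [a, b]) ∈ (cx.ob s p).map
          (fun x => ((0 : ℕ), [x, blk cmp cx s p l x]))) := by
      funext x y
      simp only [List.mem_map, Prod.mk.injEq, true_and, List.cons.injEq, and_true, hm]
      exact propext
        ⟨fun a => ⟨x, a.1, rfl, a.2.symm⟩, fun ⟨z, a1, a2, a3⟩ => a2 ▸ ⟨a1, a3.symm⟩⟩
    rw [e]
    exact this

theorem blk_rel (hs : Spec cmp) (hc : cx.Ok) (h : cx.WF s) (hp : p ∈ s.D) {C : Finset Tm}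
    (hm : ∀ x, x ∈ cx.ob s p ↔ x ∈ C) {L : List (Tm × Tm)} (hL : ∀ q ∈ L, q.1 ∈ C ∧ q.2 ∈ C)
    (hl : ∀ x ∈ L.map Prod.fst ++ L.map Prod.snd, x ∈ cx.ob s p) : ∀ x ∈ C, ∀ y ∈ C,
    blk cmp cx s p (L.map Prod.fst ++ L.map Prod.snd) x =
      blk cmp cx s p (L.map Prod.fst ++ L.map Prod.snd) y ↔
      Relation.EqvGen (((cx.view s).Γ1 cx.P).Rel C L) x y := by
  intro x hx y hy
  have hD : ∀ z ∈ C, z ∈ (cx.view s).D := fun z hz =>
    List.mem_toFinset.2 ((h.ob_view hc hp).1.subset ((hm z).2 hz))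
  rw [blk_eq hs ((hm x).2 hx) ((hm y).2 hy)]
  have : (fun a b => a ∈ cx.ob s p ∧ b ∈ cx.ob s p ∧
      (a, b) ∈ edges cx s p (L.map Prod.fst ++ L.map Prod.snd)) =
      ((cx.view s).Γ1 cx.P).Rel C L := by
    funext a b
    rw [mem_edges hc h hp hl, prs_eq, Sy.Rel, hm, hm]
    refine propext (and_congr_right fun ha => and_congr_right fun hb => ?_)
    simp only [ha, hb, true_and]
    refine exists_congr fun q => and_congr_right fun hq => ?_
    rw [Vw.Γ1, sys1_E2 _ h.view_ok.inv]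
    exact ⟨fun e => ⟨hD _ (hL q hq).1, hD _ (hL q hq).2, e⟩, fun e => e.2.2⟩
  rw [this]

theorem light (hs : Spec cmp) : (mv cmp).LtQuo (nz cmp) true := by
  intro cx s C L p hc h hC hpC hN hL
  have hO : (cx.view s).IsO C := h.view_ok.cls_iff.1 hC
  have hp : p ∈ s.D := List.mem_toFinset.1 (hO.2.1 hpC)
  obtain ⟨o1, o2, o3, o4, o5, -⟩ := h.ob_view hc hp
  rw [hO.2.2 p hpC] at o4 o5
  have hm : ∀ x, x ∈ cx.ob s p ↔ x ∈ C := fun x => by rw [← o4, List.mem_toFinset]
  have hn : (cx.ob s p).length ≤ cx.n := o5 ▸ hN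
  have hl : ∀ x ∈ L.map Prod.fst ++ L.map Prod.snd, x ∈ cx.ob s p := by
    intro x hx
    rcases List.mem_append.1 hx with hx | hx <;> obtain ⟨q, hq, rfl⟩ := List.mem_map.1 hx
    · exact (hm _).2 (hL q hq).1
    · exact (hm _).2 (hL q hq).2
  have n6 := hc.nums.2.2.2.2.2.1
  refine ⟨h.toWF0.dA hp, hm, o5, [nxt cmp cx s p (L.map Prod.fst ++ L.map Prod.snd)],
    blk cmp cx s p (L.map Prod.fst ++ L.map Prod.snd), by simp [mv, hp], le_rfl, ?_, ?_,
    fun s' hs' => ?_⟩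
  · ext y
    simp only [nz, List.mem_toFinset, List.mem_map, Finset.mem_image, hm]
  · rw [nz, List.length_map, o5]
  · obtain rfl := List.mem_singleton.1 hs'
    have hr := h.toWF0.real (new_ab hs hc h hp) (new_inv hs hc h hp hl)
    have mo : (cx.view s).Mono (cx.view (nxt cmp cx s p (L.map Prod.fst ++ L.map Prod.snd))) :=
      (h.toWF0.real_mono hc _).trans (hr.lab_mono hc _ _ _)
    have nw := nxt_nw hs hc h hp hl hm
    refine ⟨nxt_wf hs hc h hp hl, rfl, o5 ▸ nxt_gro hs hc h hp hn, fun w => ⟨mo, nofun,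
      ⟨mo.ref1 h.view_ok w.view_ok, ?_, blk_rel hs hc h hp hm hL hl,
        nw.inv1 w.view_ok (hO.2.1.trans mo.d)⟩, fun x hx => Sta.mem_real.1.2 (Or.inr hx),
      fun _ g hg y hy => ?_⟩⟩
    · change 3 ≤ cx.uM.length
      omega
    · obtain ⟨x, hx, rfl⟩ := Finset.mem_image.1 hy
      exact Finset.mem_image.2 ⟨g • x, (nw.eqv g hg x hx).1, (nw.eqv g hg x hx).2⟩
end MQUO1x

namespace MQUO2x
variable {cmp : List Tm × List (Tm × Tm) × Tm → List Tm} {p : Tm} {l : List Tm}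

/-- the new points -/
def nz (cmp : List Tm × List (Tm × Tm) × Tm → List Tm) (cx : Cx) (s : Sta) (p : Tm)
    (l : List Tm) : List Tm := (cx.cl s false p).map (fun x => s.nm (num cmp cx s false p l x))

theorem pt_nz (hc : PT cmp) :
    PT (fun x : Cx × Sta × Tm × List Tm => nz cmp x.1 x.2.1 x.2.2.1 x.2.2.2) := by
  have hb : PT (fun q : (Cx × Sta × Tm × List Tm) × Tm =>
      num cmp q.1.1 q.1.2.1 false q.1.2.2.1 q.1.2.2.2 q.2) :=
    pt_num (b := fun _ => false) hc (by fun_prop) (by fun_prop) (PT.const _) (by fun_prop)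
      (by fun_prop) (by fun_prop)
  unfold nz
  refine PT.map ?_ (by fun_prop)
  fun_prop

theorem nxt_gro (hc : cx.Ok) (h : cx.WF s) (hn : (cx.cl s false p).length ≤ cx.n)
    (hn' : (cx.cl s true p).length ≤ cx.n) : cx.Gro s (nxt cmp cx s p l) 0 cx.n cx.pd 1 := by
  obtain ⟨n1, -, -, -, n5, n6, -, n7⟩ := hc.nums
  have hlam := hc.lam
  have g1 : cx.Gro s (mid cmp cx s p l) 0 cx.n (2 ^ cx.lam +
      ((cx.cl s false p).length + (cx.cl s true p).length + 1) + 1) 1 :=
    h.abs_gro hc (by rwa [List.length_map]) (by rwa [List.length_map])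
  have h2 : 2 ≤ cx.pd := by omega
  have g2 : cx.Gro (mid cmp cx s p l) (nxt cmp cx s p l) 0 0 (2 ^ cx.lam) 1 := by
    refine Cx.lab_gro ?_ ?_ Nat.one_le_two_pow ?_ ?_
    · rw [lk, List.length_map]; omega
    · rw [lk, List.length_map]; omega
    · intro e he
      obtain ⟨y, -, rfl⟩ := List.mem_map.1 he
      exact h2
    · intro e he
      obtain ⟨y, -, rfl⟩ := List.mem_map.1 he
      exact h2
  have p1 : 2 ^ (cx.lam + 3) ≤ 2 ^ (8 * cx.lam) := Nat.pow_le_pow_right (by norm_num) (by omega)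
  have p2 : 1 ≤ 2 ^ cx.lam := Nat.one_le_two_pow
  rw [pow_add] at p1
  refine (g1.trans le_rfl g2).mono ?_ ?_ ?_ ?_ <;> omega

theorem light (hs : Spec cmp) : (mv cmp).LtQuo (nz cmp) false := by
  intro cx s C L p hc h hC hpC hN hL
  have hO : (cx.view s).Γ.Cls C := hC
  have hD : ∀ x ∈ C, x ∈ s.A.1 := fun x hx => List.mem_toFinset.1 (hO.2.1.1 hx)
  have hp := hD p hpC
  obtain ⟨o4, o5⟩ := h.cl_view hc hp
  rw [← hO.eq_cls hpC] at o4 o5
  have hm : ∀ x, x ∈ cx.cl s false p ↔ x ∈ C := fun x => by rw [← o4, List.mem_toFinset]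
  have hn : (cx.cl s false p).length ≤ cx.n := o5 ▸ hN
  have n6 := hc.nums.2.2.2.2.2.1
  have k1 : (nz cmp cx s p (L.map Prod.fst ++ L.map Prod.snd)).toFinset =
      C.image (fun x => s.nm (num cmp cx s false p (L.map Prod.fst ++ L.map Prod.snd) x)) := by
    ext y
    simp only [nz, List.mem_toFinset, List.mem_map, Finset.mem_image, hm]
  have k2 : (nz cmp cx s p (L.map Prod.fst ++ L.map Prod.snd)).length ≤ C.card := by
    rw [nz, List.length_map, o5]
  refine ⟨hp, hm, o5, ?_⟩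
  cases e1 : ((cx.cl s false p).length == (cx.cl s true p).length) with
  | false => exact ⟨[], _, by simp only [mv, e1, cond_false], Nat.zero_le _, k1, k2, by simp⟩
  | true =>
    have e2 : (cx.cl s false p).length = (cx.cl s true p).length := by simpa using e1
    refine ⟨[nxt cmp cx s p (L.map Prod.fst ++ L.map Prod.snd)], _,
      by simp only [mv, e1, cond_true], le_rfl, k1, k2, fun s' hs' => ?_⟩
    obtain rfl := List.mem_singleton.1 hs'
    have hr := mid_wf (cmp := cmp) (p := p) (l := L.map Prod.fst ++ L.map Prod.snd) h.toWF0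
    have hmo : (cx.view s).Mono (cx.view (nxt cmp cx s p (L.map Prod.fst ++ L.map Prod.snd))) :=
      (h.toWF0.abs_mono hc _ _ _).trans (hr.lab_mono hc _ _ _)
    refine ⟨nxt_wf h.toWF0, rfl, (nxt_gro hc h hn (e2 ▸ hn)).mono (Nat.zero_le _) le_rfl le_rfl
      Nat.one_le_two_pow, fun _ => ⟨hmo, fun _ => ⟨rfl, rfl⟩, ⟨hmo.ref, ?_, ?_, ?_⟩,
        fun x hx => ?_, nofun⟩⟩
    · change 3 ≤ cx.uM.length
      omega
    · intro x hx y hy
      rw [Sta.nm_inj, num_eq hs ((hm x).2 hx) ((hm y).2 hy)]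
      have : Ed cx s false p (L.map Prod.fst ++ L.map Prod.snd) = (cx.view s).Γ.Rel C L := by
        funext a b
        rw [ed_iff, prs_eq, Sy.Rel, hm, hm]
        refine propext (and_congr_right fun ha => and_congr_right fun hb => ?_)
        refine exists_congr fun q => and_congr_right fun hq => ?_
        rw [eq_comm]
        exact h.col_E2 hc (hD _ (hL q hq).1) (hD _ (hL q hq).2) (hD _ ha) (hD _ hb)
      rw [this]
      exact Iff.rfl
    · have := hr.lab_inv2 hc (Ly := lk cmp cx s true p (L.map Prod.fst ++ L.map Prod.snd))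
        (k := 1) 0 (fun e he => (lab_a e he).2)
      have e : (fun x y => x ∈ C ∧
          y = s.nm (num cmp cx s false p (L.map Prod.fst ++ L.map Prod.snd) x)) =
          (fun a b => ((0 : ℕ), [a, b]) ∈ lk cmp cx s false p
            (L.map Prod.fst ++ L.map Prod.snd)) := by
        funext x y
        simp only [lk, List.mem_map, Prod.mk.injEq, true_and, List.cons.injEq, and_true, hm]
        exact propext
          ⟨fun a => ⟨x, a.1, rfl, a.2.symm⟩, fun ⟨z, a1, a2, a3⟩ => a2 ▸ ⟨a1, a3.symm⟩⟩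
      rw [e]
      exact this
    · obtain ⟨y, hy, rfl⟩ := List.mem_map.1 hx
      exact (lab_a (cmp := cmp) (l := L.map Prod.fst ++ L.map Prod.snd) _
        (List.mem_map_of_mem hy)).2 _ (by simp)
end MQUO2x

namespace MLVx

/-- the cheap pins -/
def lp (m : Mv) : Lv where
  dom := m.dom
  br cx s Z p l := (m.br cx s p l).map (fun L => L.map (fun s' => (s', Z)))

/-- the state with the hint for the list `V` -/
def hnt (i : Bool) (V : List Tm) (s : Sta) : Sta × List Tm :=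
  (s.hint [pos (bif i then s.D else s.A.1) V], dd V)

/-- the cheap quotient -/
def lq (m : Mv) (nz : Cx → Sta → Tm → List Tm → List Tm) (i : Bool) : Lv where
  dom := m.dom
  br cx s _ p l := (m.br cx s p l).map (fun L => L.map (hnt i (nz cx s p l)))

theorem lp_poly {m : Mv} (h : m.Poly) : (lp m).Poly := by
  refine ⟨h.dom, ?_⟩
  have h1 : PT (fun x : Cx × Sta × List Tm × Tm × List Tm => m.br x.1 x.2.1 x.2.2.2.1 x.2.2.2.2) :=
    h.br.comp (g := fun x : Cx × Sta × List Tm × Tm × List Tm => (x.1, x.2.1, x.2.2.2.1, x.2.2.2.2))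
      (by fun_prop)
  unfold lp
  fun_prop

theorem lq_poly {m : Mv} (h : m.Poly) {nz : Cx → Sta → Tm → List Tm → List Tm}
    (hz : PT (fun x : Cx × Sta × Tm × List Tm => nz x.1 x.2.1 x.2.2.1 x.2.2.2)) (i : Bool) :
    (lq m nz i).Poly := by
  refine ⟨h.dom, ?_⟩
  have h1 : PT (fun x : Cx × Sta × List Tm × Tm × List Tm => m.br x.1 x.2.1 x.2.2.2.1 x.2.2.2.2) :=
    h.br.comp (g := fun x : Cx × Sta × List Tm × Tm × List Tm => (x.1, x.2.1, x.2.2.2.1, x.2.2.2.2))
      (by fun_prop)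
  have h2 : PT (fun x : Cx × Sta × List Tm × Tm × List Tm => nz x.1 x.2.1 x.2.2.2.1 x.2.2.2.2) :=
    hz.comp (g := fun x : Cx × Sta × List Tm × Tm × List Tm => (x.1, x.2.1, x.2.2.2.1, x.2.2.2.2))
      (by fun_prop)
  unfold lq hnt
  cases i
  · simp only [cond_false]
    fun_prop
  · simp only [cond_true]
    fun_prop

theorem lp_sound {m : Mv} (h : m.Sound) : (lp m).Sound := by
  intro cx s Z p l L hc w hp hl e
  obtain ⟨K, e1, rfl⟩ := Option.map_eq_some_iff.1 e
  obtain ⟨a, b⟩ := h cx s p l K hc w hp hl e1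
  refine ⟨fun x hx => ?_, fun g hg => ?_⟩
  · obtain ⟨s', h1, rfl⟩ := List.mem_map.1 hx
    exact a s' h1
  · obtain ⟨s', h1, h2⟩ := b g hg
    exact ⟨_, List.mem_map_of_mem h1, h2⟩

theorem lq_sound {m : Mv} (h : m.Sound) (nz : Cx → Sta → Tm → List Tm → List Tm) (i : Bool) :
    (lq m nz i).Sound := by
  intro cx s Z p l L hc w hp hl e
  obtain ⟨K, e1, rfl⟩ := Option.map_eq_some_iff.1 e
  obtain ⟨a, b⟩ := h cx s p l K hc w hp hl e1
  refine ⟨fun x hx => ?_, fun g hg => ?_⟩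
  · obtain ⟨s', h1, rfl⟩ := List.mem_map.1 hx
    exact ⟨(a s' h1).1.hint _, (a s' h1).2⟩
  · obtain ⟨s', h1, h2⟩ := b g hg
    exact ⟨_, List.mem_map_of_mem h1, (s'.hint_tgt _).symm ▸ h2⟩

theorem lp_wins {m : Mv} {i : Bool} (h : m.LtPin i) : (lp m).Wins (LPin i) := by
  rintro cx B φ φ' s Z hc hφ w hz hZ hA ⟨C, Q, hC, hCZ, hQ, hM, hp, hB⟩
  obtain ⟨p, hpC⟩ := hC.1
  obtain ⟨-, a2, a3, L, a4, a5, a6⟩ := h cx s C Q p hc w hC hpC hQ hM
  have hCZ' : ∀ x ∈ C, x ∈ Z := fun x hx => List.mem_toFinset.1 (hCZ hx)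
  have e : Z.toFinset.card = Z.length := List.toFinset_card_of_nodup hZ
  have c1 := Finset.card_le_card hCZ
  have c2 := Finset.card_le_card hQ
  have c3 : Z.length ≤ 2 ^ cx.lam := (hZ.subperm hA).length_le.trans w.ca
  have c4 : C.card ^ Q.card ≤ cx.pd := hc.pow (by omega) (le_trans (Nat.le_add_right _ 2) hM)
  have c5 := bl_pow C.card Q.card
  have c6 := bl_mono a5
  have c7 : 2 ^ cx.lam ≤ cx.pd ^ 2 := ((Nat.pow_le_pow_right (by norm_num) (by omega)).trans
    hc.nums.1).trans (Nat.le_self_pow (by norm_num) _)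
  have a3' : ((lp m).dom cx s p).length = C.card := a3
  refine ⟨p, hCZ' p hpC, Q.toList, L.map (fun s' => (s', Z)),
    lc Z.toFinset.card + 2 * Q.card * bl C.card, by rw [Finset.length_toList]; omega,
    fun x hx => (a2 x).2 (hQ (Finset.mem_toList.1 hx)), fun x hx => hA x (hCZ' x ((a2 x).1 hx)),
    by rwa [a3', Finset.length_toList], by simp only [lp, a4, Option.map_some],
    by rw [List.length_map]; exact a5.trans c4, ?_, hp, fun x hx => ?_⟩
  · rw [a3', Finset.length_toList, List.length_map, e, lc, mul_assoc 2]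
    omega
  · obtain ⟨s', h1, rfl⟩ := List.mem_map.1 hx
    obtain ⟨b1, b2, b3, b4, b5⟩ := a6 s' h1
    exact ⟨b2.mono (Nat.zero_le _) (Nat.zero_le _) c7 Nat.one_le_two_pow, hZ,
      fun x hx => List.mem_toFinset.1 (b3.dd (List.mem_toFinset.2 (hA x hx))),
      hB _ b1.view_ok b3 b4 b5⟩

theorem lq_wins {m : Mv} {nz : Cx → Sta → Tm → List Tm → List Tm} {i : Bool} (h : m.LtQuo nz i) :
    (lq m nz i).Wins (LQuo i) := by
  rintro cx B φ φ' s Z hc hφ w hz hZ hA ⟨C, R, hC, hCZ, hN, hR, hr, hp, hB⟩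
  obtain ⟨p, hpC⟩ := hC.1
  obtain ⟨-, a2, a3, L, b, a4, a5, a7, a8, a6⟩ := h cx s C R p hc w hC hpC hN hR
  have hCZ' : ∀ x ∈ C, x ∈ Z := fun x hx => List.mem_toFinset.1 (hCZ hx)
  have e : Z.toFinset.card = Z.length := List.toFinset_card_of_nodup hZ
  have c1 := Finset.card_le_card hCZ
  have c2 : R.length < 2 ^ R.length := Nat.lt_two_pow_self
  have hN' : C.card ≤ cx.n := hN
  obtain ⟨n1, -, -, n4, n5, -⟩ := hc.nums
  have c3 : 2 ^ cx.lam ≤ cx.pd := (Nat.pow_le_pow_right (by norm_num) (by omega)).trans n1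
  have c4 : cx.pd ≤ cx.pd ^ 2 := Nat.le_self_pow (by norm_num) _
  have hlen : (R.map Prod.fst ++ R.map Prod.snd).length = 2 * R.length := by
    simp only [List.length_append, List.length_map]; omega
  have c5 := bl_pow C.card (2 * R.length)
  have c6 : bl L.length ≤ 0 + 1 := bl_le a5
  have c7 : 4 * R.length * bl C.card = 2 * (2 * R.length * bl C.card) := by ring
  have c8 : bl C.card ≤ bl Z.length := bl_mono (e ▸ c1)
  have c9 : bl C.card ≤ cx.lam + 1 := bl_le (hN'.trans n5)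
  have a3' : ((lq m nz i).dom cx s p).length = C.card := a3
  have hp' := hp
  rw [lc] at hp'
  refine ⟨p, hCZ' p hpC, R.map Prod.fst ++ R.map Prod.snd,
    L.map (hnt i (nz cx s p (R.map Prod.fst ++ R.map Prod.snd))),
    lc Z.toFinset.card + 4 * R.length * bl C.card, by omega, fun x hx => (a2 x).2 ?_,
    fun x hx => hA x (hCZ' x ((a2 x).1 hx)), ?_, by simp only [lq, a4, Option.map_some],
    by rw [List.length_map]; omega, ?_, hp, fun x hx => ?_⟩
  · rcases List.mem_append.1 hx with hx | hx <;> obtain ⟨q, hq, rfl⟩ := List.mem_map.1 hx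
    · exact (hR q hq).1
    · exact (hR q hq).2
  · rw [a3', hlen]
    refine (Nat.pow_le_pow_left (lt_two_pow_bl _).le _).trans (le_trans ?_ hz.f)
    rw [← pow_mul, mul_comm]
    exact Nat.pow_le_pow_right (by norm_num) (by omega)
  · rw [a3', hlen, List.length_map, e, lc]
    omega
  · obtain ⟨s', h1, rfl⟩ := List.mem_map.1 hx
    obtain ⟨b1, b2, b3, b4⟩ := a6 s' h1
    have w' : cx.WF s' := hz.wf' (b3.mono le_rfl hc.nb c4
      (Nat.pow_le_pow_right (by norm_num) c9)) (by omega) b1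
    obtain ⟨d1, d2, d3, d4, d5⟩ := b4 w'
    have g := b3.mono le_rfl hc.nb c4 (Nat.pow_le_pow_right (by norm_num) (c8.trans (Nat.le_succ _)))
    have sm : cx.SmH (pos (bif i then s'.D else s'.A.1)
        (nz cx s p (R.map Prod.fst ++ R.map Prod.snd))) := by
      refine Cx.smH_pos hc ?_ (by omega)
      cases i
      · exact w'.ca.trans c3
      · exact w'.dlen.1.trans c3
    have e2 : (dd (nz cx s p (R.map Prod.fst ++ R.map Prod.snd))).toFinset = C.image b := by
      rw [← a7]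
      ext x
      simp only [List.mem_toFinset, mem_dd]
    refine ⟨⟨g.hd, g.hk, g.ab, ?_, fun I hI => ?_⟩, nodup_dd _, fun x hx => ?_, ?_⟩
    · change (s'.hs ++ [_]).length ≤ _
      rw [List.length_append, b2, List.length_singleton]
      omega
    · rcases List.mem_append.1 hI with hI | hI
      · exact g.hi I hI
      · exact .inr (List.mem_singleton.1 hI ▸ sm)
    · have := d4 x (mem_dd.1 hx)
      cases i
      · exact this
      · exact b1.dA this
    · change B _ (cx.view (s'.hint _)) (dd _).toFinset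
      rw [e2]
      refine hB _ b (w'.hint _).view_ok (d1.trans (Cx.hint_mono _ _)) d2 ?_ ?_
      · cases i <;> exact d3
      · cases i
        · exact a7 ▸ Cx.hint_f2 (List.mem_singleton_self _) d4
        · exact ⟨a7 ▸ Cx.hint_f1 (List.mem_singleton_self _) d4, d5 rfl⟩
end MLVx

theorem lv_pin (i : Bool) : HasLv (LPin i) := by
  obtain ⟨pw, p1, p2⟩ := exists_powB
  cases i
  · exact ⟨MLVx.lp (MPIN2x.mv pw), MLVx.lp_poly (MPIN2x.poly p1), MLVx.lp_sound (MPIN2x.sound p2),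
      MLVx.lp_wins (MPIN2x.light p2)⟩
  · exact ⟨MLVx.lp (MPIN1x.mv pw), MLVx.lp_poly (MPIN1x.poly p1), MLVx.lp_sound (MPIN1x.sound p2),
      MLVx.lp_wins (MPIN1x.light p2)⟩

theorem lv_quo (i : Bool) : HasLv (LQuo i) := by
  obtain ⟨cmp, h1, h2⟩ := exists_cmp
  cases i
  · exact ⟨MLVx.lq (MQUO2x.mv cmp) (MQUO2x.nz cmp) false,
      MLVx.lq_poly (MQUO2x.poly h1) (MQUO2x.pt_nz h1) _, MLVx.lq_sound (MQUO2x.sound h2) _ _,
      MLVx.lq_wins (MQUO2x.light h2)⟩
  · exact ⟨MLVx.lq (MQUO1x.mv cmp) (MQUO1x.nz cmp) true,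
      MLVx.lq_poly (MQUO1x.poly h1) (MQUO1x.pt_nz h1) _, MLVx.lq_sound (MQUO1x.sound h2) _ _,
      MLVx.lq_wins (MQUO1x.light h2)⟩

end Pool.Agent.P.MP_f1a348_lc.GX
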