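import Pool.Agent.P.MP_f1a348_lc.GY.DefsP
import Pool.Agent.P.MP_f1a348_lc.GX.LibInc
import Pool.Agent.P.MP_f1a348_lc.GY.LibF
import Pool.Agent.P.MP_f1a348_lc.GY.TPNUM
import Pool.Agent.P.MP_f1a348_lc.GY.TPSIZE
import Pool.Agent.P.MP_f1a348_lc.GY.TPCOL
import Pool.Agent.P.MP_f1a348_lc.GY.TPLAB
import Pool.Agent.P.MP_f1a348_lc.GY.TVORB
import Pool.Agent.P.MP_f1a348_lc.GY.LibWX

/-! Step MMARK. -/

set_option autoImplicit false
set_option linter.unusedSectionVars false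

namespace Pool.Agent.P.MP_f1a348_lc.GX

open Pool.Agent.Lib.Helper47 Pool.Agent.P.MP_f1a348_lc.GI Pool.Agent.P.MP_f1a348_lc.TO
variable {cx : Cx} {s s' s'' : Sta}

namespace MMARKx

/-- the pairs of the side `b` with the colour of the pair `p`, `u` of the first side -/
def prs (cx : Cx) (s : Sta) (b : Bool) (p u : Tm) : List (ℕ × List Tm) :=
  ((prodL (WL.sd s.q b).1 (WL.sd s.q b).1).filter
    (fun e => cx.col s b [e.1, e.2] == cx.col s false [p, u])).map (fun e => (0, [e.1, e.2]))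

theorem mem_prs {b : Bool} {p u : Tm} {c : ℕ} {l : List Tm} : (c, l) ∈ prs cx s b p u ↔
    c = 0 ∧ ∃ x ∈ (WL.sd s.q b).1, ∃ y ∈ (WL.sd s.q b).1, l = [x, y] ∧
      cx.col s b [x, y] = cx.col s false [p, u] := by
  simp only [prs, List.mem_map, List.mem_filter, beq_iff_eq, Prod.mk.injEq, Prod.exists, mem_prodL]
  exact ⟨fun ⟨x, y, ⟨⟨a, b⟩, c⟩, d, e⟩ => ⟨d.symm, x, a, y, b, e.symm, c⟩,
    fun ⟨d, x, a, y, b, e, c⟩ => ⟨x, y, ⟨⟨a, b⟩, c⟩, d.symm, e.symm⟩⟩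

theorem prs_spec {b : Bool} {p u : Tm} :
    ∀ e ∈ prs cx s b p u, e.1 < 1 ∧ ∀ x ∈ e.2, x ∈ (WL.sd s.q b).1 := by
  rintro ⟨c, l⟩ he
  obtain ⟨rfl, x, hx, y, hy, rfl, -⟩ := mem_prs.1 he
  simpa using ⟨hx, hy⟩

theorem prs_len {b : Bool} {p u : Tm} : ∀ e ∈ prs cx s b p u, e.2.length = 2 := by
  rintro ⟨c, l⟩ he
  obtain ⟨-, x, -, y, -, rfl, -⟩ := mem_prs.1 he
  rfl

theorem length_prs {b : Bool} {p u : Tm} {k : ℕ} (h : (WL.sd s.q b).1.length ≤ k) :
    (prs cx s b p u).length ≤ k ^ 2 := by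
  rw [prs, List.length_map, sq]
  exact (List.length_filter_le _ _).trans (by rw [length_prodL]; exact Nat.mul_le_mul h h)

/-- the state with the new label -/
def st1 (cx : Cx) (s : Sta) (p u : Tm) : Sta := s.lab (prs cx s false p u) (prs cx s true p u) 1

variable {p u : Tm}

theorem wf1 (h : cx.WF s) : cx.WF (st1 cx s p u) := h.lab prs_spec prs_spec

theorem wit1 (hc : cx.Ok) (h : cx.WF s) {g : U} {f : Tm → Tm} (w : s.Wit g f) :
    (st1 cx s p u).Wit g f := by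
  refine h.toWF0.lab_wit.2 ⟨w, fun c l hl => ?_⟩
  rw [mem_prs, mem_prs]
  refine and_congr_right fun _ => ⟨?_, ?_⟩
  · rintro ⟨x, hx, y, hy, rfl, e⟩
    exact ⟨f x, w.iso.bij.mapsTo hx, f y, w.iso.bij.mapsTo hy, rfl,
      (h.col_iso hc w.iso hl (by simp)).trans e⟩
  · rintro ⟨x, -, y, -, e1, e⟩
    have e2 := h.col_iso hc w.iso hl (by rintro rfl; simp at e1)
    rw [e1, e] at e2
    rcases l with _ | ⟨a, _ | ⟨b, _ | ⟨c, l⟩⟩⟩ <;> simp at e1
    exact ⟨a, hl a (by simp), b, hl b (by simp), rfl, e2.symm⟩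

theorem rel1 (hc : cx.Ok) (h : cx.WF s) (hp : p ∈ s.A.1) (hu : u ∈ s.A.1) (a b : Tm) :
    (cx.view s).Γ.E2 p u a b ↔ (s.ctr, [a, b]) ∈ (st1 cx s p u).A.2 := by
  have := PLABx.hi (L := prs cx s false p u) (fun e he => (h.a.lab e he).1) 0 [a, b]
  rw [zero_add] at this
  refine Iff.trans ?_ this.symm
  rw [mem_prs]
  constructor
  · intro e
    obtain ⟨f, f1, rfl, rfl⟩ := id e
    have a1 := List.mem_toFinset.1 ((cx.view s).Γ.sub f1 p (by simp)).2
    have a2 := List.mem_toFinset.1 ((cx.view s).Γ.sub f1 u (by simp)).2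
    exact ⟨rfl, _, a1, _, a2, rfl, ((h.col_E2 hc hp hu a1 a2).2 e).symm⟩
  · rintro ⟨-, x, hx, y, hy, e1, e⟩
    obtain ⟨rfl, rfl⟩ : a = x ∧ b = y := by simpa using e1
    exact (h.col_E2 hc hp hu hx hy).1 e.symm

theorem same1 (hc : cx.Ok) (h : cx.WF s) :
    wsys cx.uM.length (st1 cx s p u).A = wsys cx.uM.length s.A := by
  have h8 := hc.nums.2.2.2.2.2.1
  have ha : ∀ e ∈ s.A.2, e.1 < s.ctr := fun e he => (h.a.lab e he).1
  refine wsys_exact (V := s.A.1) (R := s.A.2) s.ctr (by omega) (PLABx.lo ha) fun c l k e f hf => ?_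
  obtain ⟨c, rfl⟩ := Nat.exists_eq_add_of_le' k
  refine (PLABx.hi ha c _).2 ?_
  obtain ⟨rfl, x, hx, y, hy, rfl, e1⟩ := mem_prs.1 ((PLABx.hi ha c _).1 e)
  have a1 := List.mem_toFinset.1 ((cx.view s).Γ.sub hf x (by simp)).2
  have a2 := List.mem_toFinset.1 ((cx.view s).Γ.sub hf y (by simp)).2
  exact mem_prs.2 ⟨rfl, _, a1, _, a2, rfl, ((h.col_E2 hc hx hy a1 a2).2
    ⟨f, by simpa [Cx.view] using hf, rfl, rfl⟩).symm.trans e1⟩

theorem gro1 (hc : cx.Ok) (h : cx.WF s) : cx.Gro s (st1 cx s p u) 0 0 ((2 ^ cx.lam) ^ 2) 1 := by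
  have a2 : 2 ≤ cx.pd := le_trans (by norm_num) (PSIZEx.pd_ge hc)
  exact Cx.lab_gro (length_prs h.ca) (length_prs h.cb) (Nat.one_le_pow _ _ (Nat.two_pow_pos _))
    (fun e he => by rw [prs_len e he]; exact a2) (fun e he => by rw [prs_len e he]; exact a2)

/-- the new hints -/
noncomputable def hts (cx : Cx) (s : Sta) (u : Tm) : List (List ℕ) :=
  [[s.ctr], pos s.D (cx.ob s u), pos s.A.1 (cx.ob s u)]

/-- the move -/
noncomputable def mk1 : Mv where
  dom _ s _ := s.D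
  br cx s p l := l.head?.map (fun u => [(st1 cx s p u).hint (hts cx s u)])

end MMARKx

open MMARKx in
theorem mv_mark : HasMv RMark := by
  refine ⟨mk1, ⟨by unfold mk1; fun_prop, by unfold mk1 hts st1 prs; fun_prop⟩,
    fun cx s p l L hc h _ _ e => ?_, fun cx W φ φ' s hc _ h hz ⟨p, u, r1, r2, r3, r4⟩ => ?_⟩
  · obtain ⟨u, -, rfl⟩ := Option.map_eq_some_iff.1 e
    refine ⟨fun s' hs => ?_, fun g ⟨f, w⟩ => ⟨_, List.mem_singleton_self _, f,
      Sta.hint_wit.2 (wit1 hc h w)⟩⟩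
    rw [List.mem_singleton.1 hs]
    exact ⟨((wf1 h).hint _).toWF0, fun _ a => a⟩
  · have hp : p ∈ s.D := List.mem_toFinset.1 r1
    have hu : u ∈ s.D := List.mem_toFinset.1 r2
    obtain ⟨o1, -, -, o4, -⟩ := h.ob_view hc hu
    have n1 : 2 ^ cx.lam ≤ cx.pd := PSIZEx.lam_le hc
    have n2 := PSIZEx.pd_ge hc
    have n3 := h.dlen.1
    have n4 := hc.lam
    have n5 : cx.P.g = 16 * (cx.lam + 1) := rfl
    have n6 := bl_le n3
    have n7 := o1.length_le
    have n8 : 3 ≤ cx.b1 := le_trans (by norm_num) hc.nums.2.2.2.1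
    refine ⟨p, h.toWF0.dA hp, [u], _, cx.P.g, Nat.one_le_two_pow, by simpa [mk1] using hu,
      fun x hx => h.toWF0.dA hx, by simpa [mk1] using n3.trans n1, rfl,
      by rw [List.length_singleton]; omega, ?_, r3, fun s' hs => ?_⟩
    · have : bl 1 ≤ 1 := bl_le (x := 1) (L := 0) le_rfl
      change _ + bl (s.D.length ^ 1) + bl 1 ≤ _
      rw [pow_one]
      omega
    · rw [List.mem_singleton.1 hs]
      refine ⟨((gro1 hc h).trans le_rfl (Cx.hint_gro (J := hts cx s u) fun I hI => ?_)).mono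
        (Nat.zero_le _) n8 (Nat.pow_le_pow_left n1 2) Nat.one_le_two_pow,
        r4 _ ((wf1 h).hint _).view_ok ⟨(h.toWF0.lab_mono hc _ _ _).trans (Cx.hint_mono _ _), rfl,
          rfl, same1 hc h⟩ ⟨s.ctr, by simp [Sta.hint, Sta.hs, hts], Nat.lt_succ_self _,
          rel1 hc h (h.toWF0.dA hp) (h.toWF0.dA hu)⟩ ?_ ?_⟩
      · simp only [hts, List.mem_cons, List.not_mem_nil, or_false] at hI
        rcases hI with rfl | rfl | rfl
        · exact ⟨by rw [List.length_singleton]; omega, by simpa using (hz.le hc).2.2⟩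
        · exact Cx.smH_pos hc (by omega) (by omega)
        · exact Cx.smH_pos hc (h.ca.trans n1) (by omega)
      · exact o4 ▸ Cx.hint_f1 (s := st1 cx s p u) (by simp [hts, st1, Sta.lab, Sta.D])
          fun x hx => o1.subset hx
      · exact o4 ▸ Cx.hint_f2 (s := st1 cx s p u) (by simp [hts, st1, Sta.lab, Sta.A])
          fun x hx => h.toWF0.dA (o1.subset hx)

end Pool.Agent.P.MP_f1a348_lc.GX
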