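import Pool.Agent.P.MP_f1a348_lc.GY.DefsP
import Pool.Agent.P.MP_f1a348_lc.GX.LibInc
import Pool.Agent.P.MP_f1a348_lc.GY.LibF
import Pool.Agent.P.MP_f1a348_lc.GY.TPNUM
import Pool.Agent.P.MP_f1a348_lc.GY.TPSIZE
import Pool.Agent.P.MP_f1a348_lc.GY.TPCOL
import Pool.Agent.P.MP_f1a348_lc.GY.TPLAB

/-! Step MPIN1. -/

set_option autoImplicit false
set_option linter.unusedSectionVars false

namespace Pool.Agent.P.MP_f1a348_lc.GX

open Pool.Agent.Lib.Helper47 Pool.Agent.P.MP_f1a348_lc.GI Pool.Agent.P.MP_f1a348_lc.TO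
variable {cx : Cx} {s s' s'' : Sta}

namespace MPIN1x

/-- the cosets of the branches -/
noncomputable def cosL (cx : Cx) (s : Sta) (p : Tm) (l : List Tm) : List (U × List U) :=
  (tuples cx.pad ((cx.ob s p).map (fun x => s.σ • x)) l).filterMap
    (fun l' => trL cx.pad cx.base s.c (l.zip l'))

theorem pt_cosL : PT (fun x : Cx × Sta × Tm × List Tm => cosL x.1 x.2.1 x.2.2.1 x.2.2.2) := by
  unfold cosL; fun_prop

/-- the move -/
noncomputable def mv (pw : ℕ × List Unit × List Unit → Bool) : Mv where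
  dom := fun cx s p => cx.ob s p
  br := fun cx s p l =>
    bif (s.D.contains p && pw ((cx.ob s p).length, l.map (fun _ => ()), cx.pad)) then
      some ((cosL cx s p l).map s.cos) else none

theorem poly {pw : ℕ × List Unit × List Unit → Bool} (hpw : PT pw) : (mv pw).Poly := by
  have h := pt_cosL
  refine ⟨by unfold mv; fun_prop, ?_⟩
  unfold mv
  refine PT.cond ?_ ?_ (PT.const _)
  · fun_prop
  · fun_prop

theorem idx (hc : cx.Ok) (h : cx.WF s) {l l' : List Tm} (hl : ∀ x ∈ l, x ∈ s.D) :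
    ∀ t ∈ l.zip l', Idx (fixS [t.1]) (gen s.c.2) cx.pad.length := fun _ ht =>
  h.idx hc le_rfl (hl _ (List.of_mem_zip ht).1)

theorem mem_cosL (hc : cx.Ok) (h : cx.WF s) {p : Tm} {l : List Tm} (hl : ∀ x ∈ l, x ∈ s.D)
    {c : U × List U} (hm : c ∈ cosL cx s p l) :
    c.1 ∈ cs (some s.c) ∧ gen c.2 = gen s.S ⊓ fixS l ∧ c.2.length ≤ cx.pd := by
  obtain ⟨l', h1, h2⟩ := List.mem_filterMap.1 hm
  have hf : Faith cx.pad cx.base (gen s.c.2) := h.toWF0.faith hc
  have e := trL_cs hf (idx hc h (l' := l') hl)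
  have e2 := trL_gen hf (idx hc h (l' := l') hl) h2
  rw [h2] at e
  rw [List.map_fst_zip (tuples_sound h1).1.ge] at e2
  refine ⟨?_, e2, ?_⟩
  · have : c.1 ∈ cs (some c) := self_mem_cs c.1 c.2
    rw [e] at this
    exact this.1
  · exact (trL_inv (W := ⊤) le_rfl ⟨trivial, fun _ _ => trivial, h.len⟩ h2).2.2

theorem cover (hc : cx.Ok) (h : cx.WF s) {p : Tm} (hp : p ∈ s.D) {l : List Tm}
    (hl : ∀ x ∈ l, x ∈ cx.ob s p) (hw : (cx.ob s p).length ^ l.length ≤ cx.pad.length) {g : U}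
    (hg : g ∈ cs (some s.c)) : ∃ c ∈ cosL cx s p l, g ∈ cs (some c) := by
  obtain ⟨o1, -, o3, -⟩ := h.ob_view hc hp
  have hD : ∀ x ∈ l, x ∈ s.D := fun x hx => o1.subset (hl x hx)
  have hf : Faith cx.pad cx.base (gen s.c.2) := h.toWF0.faith hc
  have hg' : s.σ⁻¹ * g ∈ gen s.S := mem_cs.1 hg
  have m : l.map (fun x => g • x) ∈ tuples cx.pad ((cx.ob s p).map (fun x => s.σ • x)) l := by
    refine tuples_complete (by simpa using hw) (by simp) (fun y hy => ?_)
    obtain ⟨x, hx, rfl⟩ := List.mem_map.1 hy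
    refine List.mem_map.2 ⟨(s.σ⁻¹ * g) • x, o3 _ hg' _ (hl x hx), ?_⟩
    rw [← mul_smul, mul_inv_cancel_left]
  have e := trL_cs hf (idx hc h (l' := l.map (fun x => g • x)) hD)
  have k : g ∈ cs (trL cx.pad cx.base s.c (l.zip (l.map (fun x => g • x)))) := by
    rw [e]
    refine ⟨hg, fun t ht => ?_⟩
    rw [List.zip_map_right, List.zip_eq_zipWith] at ht
    obtain ⟨u, hu, rfl⟩ := List.mem_map.1 ht
    rw [List.zipWith_self] at hu
    obtain ⟨x, -, rfl⟩ := List.mem_map.1 hu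
    rfl
  obtain ⟨c, hc1, hc2⟩ := k
  exact ⟨c, List.mem_filterMap.2 ⟨_, m, hc1⟩, c, rfl, hc2⟩

theorem len_cosL (cx : Cx) (s : Sta) (p : Tm) (l : List Tm) :
    (cosL cx s p l).length ≤ (cx.ob s p).length ^ l.length := by
  refine (List.length_filterMap_le _ _).trans ((length_tuples_le _ _ _).trans ?_)
  rw [List.length_map]

theorem sound {pw : ℕ × List Unit × List Unit → Bool}
    (epw : ∀ a k pad, pw (a, k, pad) = true ↔ a ^ k.length ≤ pad.length) : (mv pw).Sound := by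
  intro cx s p l L hc h _ hl hb
  have hb' : (bif (s.D.contains p && pw ((cx.ob s p).length, l.map (fun _ => ()), cx.pad)) then
      some ((cosL cx s p l).map s.cos) else none) = some L := hb
  cases hg : (s.D.contains p && pw ((cx.ob s p).length, l.map (fun _ => ()), cx.pad)) with
  | false => rw [hg, cond_false] at hb'; cases hb'
  | true =>
    rw [hg, cond_true] at hb'
    cases hb'
    rw [Bool.and_eq_true, epw, List.length_map] at hg
    have hp : p ∈ s.D := by simpa using hg.1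
    have hD : ∀ x ∈ l, x ∈ s.D := fun x hx => (h.ob_view hc hp).1.subset (hl x hx)
    refine ⟨fun s' hs' => ?_, fun g hgT => ?_⟩
    · obtain ⟨c, hm, rfl⟩ := List.mem_map.1 hs'
      obtain ⟨a1, a2, a3⟩ := mem_cosL hc h hD hm
      have a4 : gen c.2 ≤ gen s.S := a2 ▸ inf_le_left
      exact ⟨h.toWF0.cos a1 a4 a3, fun g hg' => ((Sta.cos_sol (cs_sub a1 a4)).1 hg').1⟩
    · obtain ⟨f, w⟩ := hgT
      obtain ⟨c, hm, hcs⟩ := cover hc h hp hl hg.2 w.sol.1
      obtain ⟨a1, a2, a3⟩ := mem_cosL hc h hD hm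
      have a4 : gen c.2 ≤ gen s.S := a2 ▸ inf_le_left
      exact ⟨_, List.mem_map.2 ⟨c, hm, rfl⟩, f, (Sta.cos_wit (cs_sub a1 a4)).2 ⟨w, hcs⟩⟩

theorem wins {pw : ℕ × List Unit × List Unit → Bool}
    (epw : ∀ a k pad, pw (a, k, pad) = true ↔ a ^ k.length ≤ pad.length) :
    (mv pw).Wins RPin1 := by
  intro cx W φ φ' s hc hφ h hz hR
  obtain ⟨p, Q, hp, hQ, hc1, hW⟩ := hR
  have hp' : p ∈ s.D := List.mem_toFinset.1 hp
  obtain ⟨o1, o2, o3, o4, o5, -⟩ := h.ob_view hc hp'
  have hl : ∀ x ∈ Q.toList, x ∈ cx.ob s p := fun x hx => by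
    have := hQ (Finset.mem_toList.1 hx)
    rw [← o4] at this
    exact List.mem_toFinset.1 this
  have hD : ∀ x ∈ Q.toList, x ∈ s.D := fun x hx => o1.subset (hl x hx)
  have hg : cx.P.g = 16 * (cx.lam + 1) := rfl
  have hlam := hc.lam
  rw [← o5] at hc1 hW
  have hpw : (cx.ob s p).length ^ Q.card ≤ cx.pd := by
    calc (cx.ob s p).length ^ Q.card ≤ (2 ^ bl (cx.ob s p).length) ^ Q.card :=
          Nat.pow_le_pow_left (lt_two_pow_bl _).le _
      _ = 2 ^ (Q.card * bl (cx.ob s p).length) := by rw [← pow_mul, mul_comm]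
      _ ≤ 2 ^ φ' := Nat.pow_le_pow_right (by norm_num) (by nlinarith)
      _ ≤ cx.pd := hz.f
  have hL := len_cosL cx s p Q.toList
  rw [Finset.length_toList] at hL
  refine ⟨p, h.toWF0.dA hp', Q.toList, (cosL cx s p Q.toList).map s.cos,
    cx.P.g + 2 * Q.card * bl (cx.ob s p).length, ?_, hl,
    fun x hx => h.toWF0.dA (o1.subset hx), ?_, ?_, ?_, ?_, hc1, fun s' hs' => ?_⟩
  · rw [Finset.length_toList]
    calc Q.card ≤ ((cx.view s).o p).card := Finset.card_le_card hQ
      _ = (cx.ob s p).length := o5.symm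
      _ ≤ s.D.length := o1.length_le
      _ ≤ _ := h.dlen.1
  · rw [Finset.length_toList]; exact hpw
  · have e : (s.D.contains p &&
        pw ((cx.ob s p).length, Q.toList.map (fun _ => ()), cx.pad)) = true := by
      rw [Bool.and_eq_true, epw, List.length_map, Finset.length_toList]
      exact ⟨by simpa using hp', hpw⟩
    show (bif (s.D.contains p && pw ((cx.ob s p).length, Q.toList.map (fun _ => ()), cx.pad)) then
      some ((cosL cx s p Q.toList).map s.cos) else none) = _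
    rw [e, cond_true]
  · rw [List.length_map]; exact hL.trans hpw
  · rw [List.length_map, Finset.length_toList]
    have b1 := bl_pow (cx.ob s p).length Q.card
    have b2 := bl_mono hL
    show 10 * cx.lam + 26 + bl ((cx.ob s p).length ^ Q.card) + _ ≤ _
    rw [hg, mul_assoc 2]
    omega
  · obtain ⟨c, hm, rfl⟩ := List.mem_map.1 hs'
    obtain ⟨a1, a2, a3⟩ := mem_cosL hc h hD hm
    have a4 : gen c.2 ≤ gen s.S := a2 ▸ inf_le_left
    have w : cx.WF (s.cos c) := ⟨h.toWF0.cos a1 a4 a3, h.ca, h.cb⟩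
    refine ⟨(Cx.Gro.of_eq (s := s) (s' := s.cos c) rfl rfl rfl rfl).mono (Nat.zero_le _) (Nat.zero_le _)
      (Nat.zero_le _) Nat.one_le_two_pow, hW _ w.view_ok (Cx.cos_mono a4) (fun u hu => ?_)⟩
    have hu' : u ∈ gen c.2 := hu
    rw [a2] at hu'
    exact mem_fixF.2 fun q hq => mem_fixS.1 hu'.2 q (Finset.mem_toList.2 hq)

end MPIN1x

/- dom = ob; br s p l: guards p in D and pw (length of the orbit, l, pad), else none; one state
s.cos c' for each l' in tuples pad (ob.map (sigma . )) l with trL pad base s.c (l.zip l') = some c'.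
Wins: l = Q.toList, 2 ^ phi <= pd gives the guard (lt_two_pow_bl), trL_gen gives the group. -/
theorem mv_pin1 : HasMv RPin1 := by
  obtain ⟨pw, hpw, epw⟩ := exists_powB
  exact ⟨MPIN1x.mv pw, MPIN1x.poly hpw, MPIN1x.sound epw, MPIN1x.wins epw⟩

end Pool.Agent.P.MP_f1a348_lc.GX
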