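import Pool.Agent.P.MP_f1a348_lc.GY.DefsP
import Pool.Agent.P.MP_f1a348_lc.GX.LibInc
import Pool.Agent.P.MP_f1a348_lc.GY.LibF
import Pool.Agent.P.MP_f1a348_lc.GY.TPNUM
import Pool.Agent.P.MP_f1a348_lc.GY.TPSIZE
import Pool.Agent.P.MP_f1a348_lc.GY.TPCOL
import Pool.Agent.P.MP_f1a348_lc.GY.TPLAB
import Pool.Agent.P.MP_f1a348_lc.GY.TVORB

/-! Step MRED0. -/

set_option autoImplicit false
set_option linter.unusedSectionVars false

namespace Pool.Agent.P.MP_f1a348_lc.GX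

open Pool.Agent.Lib.Helper47 Pool.Agent.P.MP_f1a348_lc.GI Pool.Agent.P.MP_f1a348_lc.TO
variable {cx : Cx} {s s' s'' : Sta}

namespace MRED0x

/-- the coset that keeps the colours on the orbit -/
noncomputable def red (cx : Cx) (s : Sta) (p : Tm) : Ans :=
  meet cx.pad cx.base s.c (cx.ob s p) (keyC (cx.ob s p) ((cx.ob s p).map (fun x => s.σ • x))
    (fun x => cx.col s false [x]) (fun x => cx.col s true [x]))

/-- the move -/
noncomputable def mv0 : Mv where
  dom _ _ _ := []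
  br cx s p _ := bif s.D.contains p && giantB cx.pad cx.base s.S (cx.ob s p) then
    some ((red cx s p).map s.cos).toList else none

theorem guard (hc : cx.Ok) (h : cx.WF s) {p : Tm} (hp : p ∈ s.D) :
    giantB cx.pad cx.base s.S (cx.ob s p) = true ↔ Giant (gen s.S) (cx.ob s p).toFinset :=
  giantB_iff (h.toWF0.faith hc) fun _ hx => h.idx hc le_rfl ((h.ob_view hc hp).1.subset hx)

theorem spec (hc : cx.Ok) (h : cx.WF s) {p : Tm} (hp : p ∈ s.D)
    (hg : Giant (gen s.S) (cx.ob s p).toFinset) :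
    (∀ g f, s.Wit g f → g ∈ cs (red cx s p)) ∧ ∀ c, red cx s p = some c →
      c.1 ∈ cs (some s.c) ∧ gen c.2 ≤ gen s.S ∧ c.2.length ≤ cx.pd ∧
      ∀ g, g ∈ gen c.2 ↔ g ∈ gen s.S ∧ ∀ u ∈ cx.ob s p, (cx.view s).Γ.E1 u (g • u) := by
  obtain ⟨o1, o2, o3, -⟩ := h.ob_view hc hp
  have n1 := hc.nums
  have n2 : 2 ^ cx.lam ≤ 2 ^ (8 * cx.lam) := Nat.pow_le_pow_right two_pos (by omega)
  have n3 : (cx.ob s p).length ≤ cx.pad.length :=
    o1.length_le.trans (h.dlen.1.trans (n2.trans n1.1))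
  have hi : Idx (indBy (gen s.S) (cx.ob s p) o3 : Subgroup (FP Tm))
      (gen (swaps (cx.ob s p) (fun x => cx.col s false [x]))) cx.pad.length :=
    (idx_of_giant o3 (fun u hu a ha => ((swaps_le _ _ hu).1 a).2 ha) hg).mono le_rfl
      ((Nat.le_self_pow (by norm_num) 2).trans n1.2.1)
  have hm : cs (red cx s p) = _ := meet_cs (c := s.c) (h.toWF0.faith hc) o3 n3 hi
  have hA : ∀ x ∈ cx.ob s p, x ∈ s.A.1 := fun x hx => h.toWF0.dA (o1.subset hx)
  refine ⟨fun g f w => ?_, fun c e => ?_⟩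
  · obtain ⟨π, a1, a2⟩ := keyC_complete (B := (cx.ob s p).map (fun x => s.σ • x))
      (ka := fun x => cx.col s false [x]) (kb := fun x => cx.col s true [x]) o2
      (o2.map (MulAction.injective _)) (by simp) (f := fun x => g • x)
      (fun _ _ _ _ e => MulAction.injective g e) fun a ha =>
        ⟨List.mem_map.2 ⟨_, o3 _ (mem_cs.1 w.sol.1) a ha, by rw [mul_smul]; exact smul_inv_smul _ _⟩,
          by simpa [w.eq a (o1.subset ha)] using h.col_iso hc w.iso (l := [a])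
              (by simpa using hA a ha) (by simp)⟩
    rw [hm]
    exact ⟨w.sol.1, π, a1, fun x hx => (a2 x hx).symm⟩
  · have a1 := self_mem_cs c.1 c.2
    rw [← show red cx s p = some (c.1, c.2) from e, hm] at a1
    obtain ⟨-, a2, a3⟩ := meet_inv (W := ⊤) ⟨trivial, fun _ _ => trivial⟩ e
    refine ⟨a1.1, a2, a3, fun g => ?_⟩
    obtain ⟨g0, -, rfl⟩ := Option.map_eq_some_iff.1 e
    refine (mem_meetG (h.toWF0.faith hc) o3 n3 hi).trans (and_congr_right fun b1 =>
      ⟨fun ⟨π, b2, b3⟩ u hu => ?_, fun b2 => ?_⟩)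
    · rw [← h.col_E1 hc (hA u hu) (hA _ (o3 g b1 u hu)), b3 u hu]
      exact ((swaps_le _ _ b2).2 u hu).symm
    · obtain ⟨π, c1, c2⟩ := exists_swaps (A := cx.ob s p) (k := fun x => cx.col s false [x])
        (f := fun x => g • x) (fun _ _ _ _ e => MulAction.injective g e) fun a ha =>
          ⟨o3 g b1 a ha, ((h.col_E1 hc (hA a ha) (hA _ (o3 g b1 a ha))).2 (b2 a ha)).symm⟩
      exact ⟨π, c1, fun x hx => (c2 x hx).symm⟩

end MRED0x

open MRED0x in
/- dom = []; guards p in D, giantB on O = ob s p; d = keyC O (O.map sigma) (col false [.]) (col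
true [.]) (LibInc); meet pad base s.c O d = none gives some [], some c' gives some [s.cos c'].
meet_cs with idx_of_giant, keyC_complete, swaps_le, mem_meetG. -/
theorem mv_red0 : HasMv RRed0 := by
  refine ⟨mv0, ⟨PT.const _, by unfold mv0 red; fun_prop⟩, fun cx s p l L hc h _ _ e => ?_,
    fun cx W φ φ' s hc _ h _ ⟨O, r1, r2, r3, r4⟩ => ?_⟩
  · cases hb : s.D.contains p && giantB cx.pad cx.base s.S (cx.ob s p)
    · simp only [mv0, hb, cond_false, reduceCtorEq] at e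
    have hp : p ∈ s.D := by simpa using (Bool.and_eq_true_iff.1 hb).1
    obtain ⟨a1, a2⟩ := spec hc h hp ((guard hc h hp).1 (Bool.and_eq_true_iff.1 hb).2)
    simp only [mv0, hb, cond_true, Option.some.injEq] at e
    subst e
    refine ⟨fun s' hs => ?_, fun g ⟨f, w⟩ => ?_⟩
    · obtain ⟨c, b1, rfl⟩ := Option.map_eq_some_iff.1 (Option.mem_toList.1 hs)
      obtain ⟨c1, c2, c3, -⟩ := a2 c b1
      exact ⟨h.toWF0.cos c1 c2 c3, fun g hg => ((Sta.cos_sol (cs_sub c1 c2)).1 hg).1⟩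
    · obtain ⟨c, b1⟩ := Option.isSome_iff_exists.1 (cs_nonempty.2 ⟨g, a1 g f w⟩)
      obtain ⟨c1, c2, -⟩ := a2 c b1
      exact ⟨s.cos c, by simp [b1], f, (Sta.cos_wit (cs_sub c1 c2)).2 ⟨w, b1 ▸ a1 g f w⟩⟩
  · obtain ⟨p, hp0⟩ := r1.1
    have hp : p ∈ s.D := List.mem_toFinset.1 (r1.2.1 hp0)
    have hO : (cx.ob s p).toFinset = O := (h.ob_view hc hp).2.2.2.1.trans (r1.2.2 p hp0)
    subst hO
    have n1 : 1 ≤ cx.pd := Nat.one_le_two_pow.trans hc.nums.2.1
    have n2 : ((red cx s p).map s.cos).toList.length ≤ 2 ^ 0 := Option.length_toList_le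
    have n3 := bl_le n2
    have n4 := hc.lam
    have n5 : cx.P.g = 16 * (cx.lam + 1) := rfl
    refine ⟨p, h.toWF0.dA hp, [], _, cx.P.g, by simp, by simp, by simp [mv0], n1,
      by simp [mv0, hp, (guard hc h hp).2 r2], n2.trans n1, ?_, r3, fun s' hs => ?_⟩
    · have : bl ((mv0.dom cx s p).length ^ ([] : List Tm).length) = 1 := by simp [bl]
      omega
    · obtain ⟨c, b1, rfl⟩ := Option.map_eq_some_iff.1 (Option.mem_toList.1 hs)
      obtain ⟨c1, c2, c3, c4⟩ := (spec hc h hp r2).2 c b1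
      exact ⟨(Cx.Gro.of_eq (s := s) (s' := s.cos c) rfl rfl rfl rfl).mono (Nat.zero_le _)
        (Nat.zero_le _) (Nat.zero_le _) Nat.one_le_two_pow, r4 _ (Cx.WF.view_ok ⟨h.toWF0.cos c1 c2 c3, h.ca, h.cb⟩)
        (Cx.cos_mono c2) rfl rfl fun g => (c4 g).trans (and_congr_right fun _ =>
          forall_congr' fun u => imp_congr_left List.mem_toFinset.symm)⟩

end Pool.Agent.P.MP_f1a348_lc.GX
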