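import Pool.Agent.P.MP_f1a348_lc.GY.DefsP
import Pool.Agent.P.MP_f1a348_lc.GX.LibInc
import Pool.Agent.P.MP_f1a348_lc.GY.LibF
import Pool.Agent.P.MP_f1a348_lc.GY.TPNUM
import Pool.Agent.P.MP_f1a348_lc.GY.TPSIZE
import Pool.Agent.P.MP_f1a348_lc.GY.TPCOL
import Pool.Agent.P.MP_f1a348_lc.GY.TPLAB
import Pool.Agent.P.MP_f1a348_lc.GY.TPORB
import Pool.Agent.P.MP_f1a348_lc.GX.LibChn

/-! Step MUNI. -/

set_option autoImplicit false
set_option linter.unusedSectionVars false

namespace Pool.Agent.P.MP_f1a348_lc.GX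

open Pool.Agent.Lib.Helper47 Pool.Agent.P.MP_f1a348_lc.GI Pool.Agent.P.MP_f1a348_lc.TO
variable {cx : Cx} {s s' s'' : Sta}

namespace MUNIx

/-- the state with the coset `c` and labels for the orbits -/
noncomputable def st1 (cx : Cx) (s : Sta) (c : U × List U) : Sta := cx.orbLab (s.cos c)

/-- the active points of the colour of `w` -/
noncomputable def x1 (cx : Cx) (s : Sta) (w : Tm) (c : U × List U) : List Tm :=
  s.X.filter (fun x => cx.col (st1 cx s c) false [x] == cx.col (st1 cx s c) false [w])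

/-- the active points of the second side of the colour of `w` -/
noncomputable def y1 (cx : Cx) (s : Sta) (w : Tm) (c : U × List U) : List Tm :=
  s.Y.filter (fun y => cx.col (st1 cx s c) true [y] == cx.col (st1 cx s c) false [w])

/-- the state that is called -/
noncomputable def st2 (cx : Cx) (s : Sta) (w : Tm) (c : U × List U) : Sta :=
  (st1 cx s c).act (x1 cx s w c) (y1 cx s w c)

/-- the first coset -/
def ini (s : Sta) : Option Ans := some (bif s.X.length == s.Y.length then some s.c else none)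

/-- the program -/
noncomputable def part : Part Cx (Sta ⊕ Sta) Sta Tm (Option Ans) Ans :=
  chnP Cx.pad Cx.base (fun _ s => ini s) (fun _ s => s.X) (fun _ => false)
    (fun cx s w c => (1, Sum.inl (st2 cx s w c))) (fun _ _ => [])

/-- the module -/
noncomputable def md : Mod :=
  ⟨Sta, Tm, Option Ans, inferInstance, inferInstance, inferInstance, part, fun _ s => s,
    Cx.WF, Cx.Post⟩

theorem poly : md.Poly := by
  refine ⟨?_, PT.snd PT.id, fun _ _ => Nat.le_add_right _ _⟩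
  refine chnP_poly (by fun_prop) (by fun_prop) (by unfold ini; fun_prop) (by fun_prop)
    (by fun_prop) ?_ (by fun_prop)
  unfold st2 x1 y1 st1
  fun_prop

/-- a short coset inside the coset of the state -/
def In (cx : Cx) (s : Sta) (c : U × List U) : Prop :=
  c.1 ∈ cs (some s.c) ∧ gen c.2 ≤ gen s.S ∧ c.2.length ≤ cx.pd

variable {c : U × List U} {w : Tm}

theorem wf_cos (h : cx.WF s) (i : In cx s c) : cx.WF (s.cos c) :=
  ⟨h.toWF0.cos i.1 i.2.1 i.2.2, h.ca, h.cb⟩

theorem wf1 (h : cx.WF s) (i : In cx s c) : cx.WF (st1 cx s c) := (wf_cos h i).orbLab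

theorem wf2 (h : cx.WF s) (i : In cx s c) : cx.WF (st2 cx s w c) :=
  ⟨(wf1 h i).toWF0.act (h.nx.filter _) (h.ny.filter _)
    (fun x hx => (wf1 h i).xd x (List.mem_filter.1 hx).1)
    (fun y hy => (wf1 h i).yd y (List.mem_filter.1 hy).1), (wf1 h i).ca, (wf1 h i).cb⟩

theorem tgt2 (hc : cx.Ok) (h : cx.WF s) (i : In cx s c) {g : U} (hg : g ∈ s.Tgt)
    (e : g ∈ cs (some c)) : g ∈ (st2 cx s w c).Tgt := by
  obtain ⟨f, hf⟩ := hg
  have w1 : (st1 cx s c).Wit g f :=
    (wf_cos h i).orbLab_wit hc ((Sta.cos_wit (cs_sub i.1 i.2.1)).2 ⟨hf, e⟩)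
  refine ⟨f, Sta.act_wit w1 fun x => ?_⟩
  have key : x ∈ s.X → cx.col (st1 cx s c) true [g • x] = cx.col (st1 cx s c) false [x] :=
    fun hx => by
      have := (wf1 h i).col_iso hc w1.iso (l := [x])
        (by simpa using (wf1 h i).toWF0.dA ((wf1 h i).xd x hx)) (by simp)
      rwa [List.map_singleton, hf.eq x (h.xd x hx)] at this
  simp only [x1, y1, List.mem_filter, beq_iff_eq]
  rw [← hf.sol.2 x]
  exact and_congr_right fun hx => by rw [key hx]

/-- the new coset -/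
theorem next (hc : cx.Ok) (h : cx.WF s) (i : In cx s c) {b : Ans}
    (hb : cx.Post (st2 cx s w c) b) :
    cs (addG cx.pad cx.base [] (lmul 1 b)) = cs b ∧
      ∀ p ∈ addG cx.pad cx.base [] (lmul 1 b), In cx s p := by
  rcases b with _ | ⟨τ, T⟩
  · simp [addG, lmul]
  · obtain ⟨a1, a2, -, a4, -⟩ := hb.sym (wf2 h i).toWF0 (τ, T) rfl
    have e : gen (sims cx.pad cx.base T) = gen T := hc.faith.gen_sims a4
    refine ⟨?_, ?_⟩
    · ext g
      simp only [addG, lmul, Option.map_some, one_mul, List.nil_append, mem_cs, e]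
    · rintro p ⟨rfl⟩
      exact ⟨by simpa using cs_sub i.1 i.2.1 a1, (le_of_eq e).trans (a2.trans i.2.1),
        sims_length _ _ _⟩

theorem maps_of {g : U} {X Y : List Tm} (hX : X.Nodup) (e : X.length = Y.length)
    (h : ∀ x ∈ X, g • x ∈ Y) : Maps g X Y := fun x => ⟨h x, fun hx => by
  obtain ⟨a, h1, h2⟩ := onto_of_le hX e.ge (f := fun x => g • x)
    (fun _ _ _ _ e => MulAction.injective g e) h hx
  exact MulAction.injective g h2 ▸ h1⟩

theorem len_eq {g : U} {X Y : List Tm} (hX : X.Nodup) (hY : Y.Nodup) (h : Maps g X Y) :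
    X.length = Y.length := by
  have : (X.map (fun x => g • x)).Perm Y := by
    rw [List.perm_ext_iff_of_nodup (hX.map (MulAction.injective g)) hY]
    intro y
    rw [List.mem_map]
    exact ⟨fun ⟨x, h1, h2⟩ => h2 ▸ (h x).1 h1,
      fun hy => ⟨g⁻¹ • y, (h _).2 (by simpa using hy), by simp⟩⟩
  simpa using this.length_eq

theorem sound : md.Sound := by
  refine ⟨fun cx s _ h => ⟨h, fun _ => id⟩, fun cx (s : Sta) hc (h : cx.WF s) => ?_⟩
  change part.Snd cx (md.pre cx) (md.post cx) s (cx.Post s)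
  refine chnP_snd (fun (u : List Tm) a => s.Tgt ⊆ cs a ∧ (∀ p ∈ a, In cx s p ∧ s.X.length = s.Y.length) ∧
    ∀ g ∈ cs a, ∀ x ∈ u, g • x ∈ s.Y) (fun a e => ?_) (fun u t v _ i => ⟨i.1, by simp, by simp⟩)
    (fun u t v a e i => ?_) (fun a i => ?_)
  · obtain rfl := Option.some.inj e
    cases e' : (s.X.length == s.Y.length) with
    | true =>
      exact ⟨fun g hg => (s.tgt_sol hg).1, by
        rintro p ⟨rfl⟩
        exact ⟨⟨self_mem_cs _ _, le_rfl, h.len⟩, by simpa using e'⟩, by simp⟩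
    | false =>
      refine ⟨fun g hg => ?_, by simp, by simp⟩
      simp [len_eq h.nx h.ny (s.tgt_sol hg).2] at e'
  · obtain ⟨i1, i2⟩ := i.2.1 a rfl
    have ht : t ∈ s.X := by rw [show s.X = _ from e]; simp
    refine ⟨(wf2 h i1).toWF0, fun b (hb : cx.Post (st2 cx s t a) b) => ?_⟩
    obtain ⟨n1, n2⟩ := next hc h i1 hb
    refine ⟨?_, fun p hp => ⟨n2 p hp, i2⟩, ?_⟩
    · rw [n1]
      exact fun g hg => hb.lo (tgt2 hc h i1 hg (i.1 hg))
    · rw [n1]
      intro g hg x hx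
      obtain ⟨b1, b2⟩ := hb.hi hg
      rcases List.mem_append.1 hx with hx | hx
      · exact i.2.2 g b1 x hx
      · rw [List.mem_singleton.1 hx]
        exact (List.mem_filter.1 ((b2 t).1 (List.mem_filter.2 ⟨ht, by simp⟩))).1
  · refine ⟨i.1, fun g hg => ?_, fun p hp => (i.2.1 p hp).1.2.2⟩
    rcases a with _ | p
    · simp at hg
    · obtain ⟨i1, i2⟩ := i.2.1 p rfl
      exact ⟨cs_sub i1.1 i1.2.1 hg, maps_of h.nx i2 (i.2.2 g hg)⟩

theorem grow (hc : cx.Ok) : cx.Grow s (st2 cx s w c) := by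
  have h1 : cx.Gro s (s.cos c) 0 0 0 1 := Cx.Gro.of_eq rfl rfl rfl rfl
  have h2 : cx.Gro (st1 cx s c) (st2 cx s w c) 0 0 0 1 := Cx.Gro.of_eq rfl rfl rfl rfl
  have h3 := (h1.trans le_rfl (Cx.orbLab_gro hc)).trans le_rfl h2
  have h4 : 2 ^ 1 ≤ cx.pd := le_trans (Nat.pow_le_pow_right (by omega) (by omega)) hc.nums.2.1
  exact h3.mono (Nat.zero_le _) (Nat.zero_le _) (by nlinarith) Nat.one_le_two_pow

theorem wins : md.Wins RUni := by
  refine ⟨11, fun cx B E hc hB env φ φ' s hφ h0 hz hR => ?_⟩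
  have h := hz.wf h0
  have h4 : 1 ≤ cx.pd := le_trans Nat.one_le_two_pow hc.nums.2.1
  have s1 : size s ≤ B := (size_sta hc h0 hz).trans hB
  have s2 : size s.X ≤ size s := by
    obtain ⟨a, b, c, d⟩ := s
    simp only [Sta.X, size_pair]
    omega
  have hp : md.part.price (cx.cfg B) s = bl s.X.length + (2 * cx.lam + 4) + 1 := rfl
  have h5 : bl s.X.length ≤ cx.lam + 1 := bl_le (h.dlen.2.1.trans h.dlen.1)
  have hg : cx.P.g = 16 * (cx.lam + 1) := rfl
  have hc0 : cx.c0 = 2 * cx.lam + 9 := rfl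
  have h6 := hR.1
  refine env.halt φ' cx.mE s (· ≠ none) (Nat.two_pow_pos _) s1 (s2.trans s1) (by omega) ?_
  refine chnP_loc (fun _ a => ∀ p ∈ a, In cx s p) (fun _ a i => ?_) ⟨_, rfl, ?_⟩
    (fun _ _ _ _ i => i) (fun u t v a e i => ?_)
  · have := size_ans hc (a := a) fun p hp =>
      ⟨h0.cs_le (i p hp).1, (i p hp).2.1.trans h0.le, (i p hp).2.2⟩
    have := (Nat.pow_le_pow_right h4 (by omega : 3 ≤ 11)).trans hB
    omega
  · cases (s.X.length == s.Y.length)
    · simp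
    · rintro p ⟨rfl⟩
      exact ⟨self_mem_cs _ _, le_rfl, h.len⟩
  · have i1 := i a rfl
    have w1 := wf1 h i1
    have w2 : cx.WF (st2 cx s t a) := wf2 h i1
    have m : (cx.view s).Mono (cx.view (st2 cx s t a)) :=
      ((Cx.cos_mono i1.2.1).trans ((wf_cos h i1).toWF0.orbLab_mono hc)).trans
        (Cx.act_mono fun x hx => (List.mem_filter.1 hx).1)
    have a1 := hR.2 _ w2.view_ok m ((wf_cos h i1).orbLab_ol hc) (fun x hx y hy => by
      obtain ⟨b1, b2⟩ := List.mem_filter.1 (List.mem_toFinset.1 hx)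
      obtain ⟨c1, c2⟩ := List.mem_filter.1 (List.mem_toFinset.1 hy)
      exact (w1.col_E1 hc (w1.toWF0.dA (w1.xd x b1)) (w1.toWF0.dA (w1.xd y c1))).1
        ((beq_iff_eq.1 b2).trans (beq_iff_eq.1 c2).symm))
      (φ' - (md.part.price (cx.cfg B) s + cx.c0)) (by omega) _ w2.toWF0
      (hz.grow hc (grow hc) (by omega) (by omega)) rfl
    rw [show φ' - (md.part.price (cx.cfg B) s + cx.c0) + cx.c0 =
      φ' - md.part.price (cx.cfg B) s by omega] at a1
    obtain ⟨b, hb⟩ := Option.ne_none_iff_exists'.1 a1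
    exact ⟨b, hb, (next hc h i1 (env.snd _ _ (.inl _) b w2.toWF0 hb)).2⟩

end MUNIx

theorem mod_uni : HasMod RUni := ⟨MUNIx.md, MUNIx.poly, MUNIx.sound, MUNIx.wins⟩

end Pool.Agent.P.MP_f1a348_lc.GX
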