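import Pool.Agent.P.MP_f1a348_lc.GY.DefsV
import Pool.Agent.P.MP_f1a348_lc.GX.TSYS
import Pool.Agent.P.MP_f1a348_lc.GX.TGOOD
import Pool.Agent.P.MP_f1a348_lc.GX.THH
import Pool.Agent.P.MP_f1a348_lc.GY.TLV
import Pool.Agent.P.MP_f1a348_lc.GY.TVORB
import Pool.Agent.P.MP_f1a348_lc.GY.TVGOOD
import Pool.Agent.P.MP_f1a348_lc.GY.TZG
import Pool.Agent.P.MP_f1a348_lc.GY.TVALG
import Pool.Agent.P.MP_f1a348_lc.GY.TVCH
import Pool.Agent.P.MP_f1a348_lc.GY.TVARI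

/-! Step VS1B. -/

set_option autoImplicit false
set_option linter.unusedSectionVars false

namespace Pool.Agent.P.MP_f1a348_lc.GX

open Equiv Finset MulAction
open scoped Classical
variable {G Y : Type} [Group G] [MulAction G Y] [DecidableEq Y] {P : Pm} {H H' K K' : Subgroup G}
  {D D' : Finset Y} {Γ Γ' : Sy Y} {v v' : Vw G Y} {W : ℕ → Vw G Y → Prop}
  {U1 U2 U1' U2' Fo Fo' : Finset Y → Prop}

/- Rule pin1 with Q = C; the new group fixes every point of A; γ = lg card A (LV_ge). -/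
theorem s1_kill (hP : P.Ok) (R : Rules P W) {n φ c m : ℕ} {Φ Φ' n1 n2 : ℝ} (ih : IH P W n)
    (hb : Bud P n φ Φ) (hc : c ≤ 1024 * P.g) (a : v.Ok P) (hX : v.X.Nonempty) {A : Finset Y}
    (h : v.Hd P A m n1 n2 Φ' Φ) (h2 : 2 ≤ A.card) (o : (v.Γ1 P).OKillZ P.t0 A) : W (φ - c) v := by
  obtain ⟨C, hC, hle, hsm, hsep⟩ := o
  have hO := a.cls_iff.1 hC
  obtain ⟨p, hp⟩ := hO.1
  obtain ⟨e1, e3, e2, -⟩ := h.nonneg hX
  have e5 := h.sum
  have e4 := Pm.LV_ge (P := P) (a := A.card) (m := m) e1 e3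
  have e8 : 0 ≤ lg m * (n1 + n2) / ((P.lam : ℝ) + 1) :=
    div_nonneg (mul_nonneg (HHx.lg0 m) (add_nonneg e1 e3)) (by positivity)
  have e9 := one_le_lg h2
  have e6 := ari_kill (P := P) (c := c + P.g) (by omega) h2 (a.card_le (h.o.2.1.trans a.dd)) hle hsm
  have e7 := hb.cost (by linarith) e6
  have eo := hO.2.2 p hp
  refine R.pin1 _ v p C a (hO.2.1 hp) eo.ge (by rw [eo]; omega) fun v' a' m hf => ?_
  rw [eo, Nat.sub_sub, ← add_assoc]
  refine ih.use hb e9 e6 e7 a' fun w hw => ?_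
  obtain ⟨u, hu, t, -⟩ := h.tl w (m.x hw)
  refine ((t.mono a a' m).kill fun g hg => ?_).mono a' a' Vw.Mono.refl (by linarith)
  refine (hsep u hu (g • u) (h.o.inv a g (m.h hg) u hu) fun x hx => ?_).symm
  exact (sys1_E2 P.M a.inv).2 ⟨h.o.2.1 hu, hO.2.1 hx, g, m.h hg, rfl, mem_fixF.1 (hf hg) x hx⟩

end Pool.Agent.P.MP_f1a348_lc.GX
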