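import Pool.Agent.P.MP_f1a348_lc.GY.DefsV
import Pool.Agent.P.MP_f1a348_lc.GX.TSYS
import Pool.Agent.P.MP_f1a348_lc.GX.TGOOD
import Pool.Agent.P.MP_f1a348_lc.GX.THH
import Pool.Agent.P.MP_f1a348_lc.GY.TLV
import Pool.Agent.P.MP_f1a348_lc.GY.TVORB
import Pool.Agent.P.MP_f1a348_lc.GY.TVGOOD
import Pool.Agent.P.MP_f1a348_lc.GY.TZG
import Pool.Agent.P.MP_f1a348_lc.GY.TVALG
import Pool.Agent.P.MP_f1a348_lc.GY.TVCH
import Pool.Agent.P.MP_f1a348_lc.GY.TVARI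

/-! Step VBIG. -/

set_option autoImplicit false
set_option linter.unusedSectionVars false

namespace Pool.Agent.P.MP_f1a348_lc.GX

open Equiv Finset MulAction
open scoped Classical
variable {G Y : Type} [Group G] [MulAction G Y] [DecidableEq Y] {P : Pm} {H H' K K' : Subgroup G}
  {D D' : Finset Y} {Γ Γ' : Sy Y} {v v' : Vw G Y} {W : ℕ → Vw G Y → Prop}
  {U1 U2 U1' U2' Fo Fo' : Finset Y → Prop}

namespace VBIGx

/-- one expensive move for the system `i` -/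
theorem big (hP : P.Ok) (R : Rules P W) {i : Bool} {n φ c m : ℕ} {Φ ν : ℝ} (ih : IH P W n)
    (hb : Bud P n φ Φ) (hc : c ≤ 1024 * P.g) (a : v.Ok P) {A Z : Finset Y} (hZ : v.U i Z)
    (hm : Z.card ≤ m) (hΦ : ∀ γ ≤ ν, lg m * γ / (P.lam + 1) ≤ Φ + 1)
    (o : (v.sy P i).OBig P m Z A ν)
    (fin : ∀ (v' : Vw G Y) (γ : ℝ), v'.Ok P → v.Mono v' →
      (∀ A' ⊆ A, (v'.sy P i).Cls A' → (v'.sy P i).GoodU (v'.U i) P.N1 m A' (ν - γ)) →
      ∀ w ∈ v'.X, v'.Pt P w (Φ - lg m * γ / (P.lam + 1))) : W (φ - c) v := by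
  obtain ⟨γ, hγ, hL, C, hC, hCZ, o⟩ := o
  have h1 : 1 ≤ lg m * γ / (P.lam + 1) := (one_le_div (by positivity)).2 hL
  have hm1 := hP.m1
  rcases o with ⟨Q, hQ, hM, hy, H⟩ | ⟨prs, hN, hp, hl, hy, H⟩
  · have h2 := ari_big (c := c + 2 * P.g) (by omega) hL hy
    have h3 := hb.cost (hΦ γ hγ) h2
    refine R.bat i _ v Z a hZ (by omega) (Bat.pin _ v Z C Q hC hCZ hQ (by omega) (by omega)
      fun v' a' mo _ r => Bat.stop _ _ _ (by omega) ?_)
    rw [show φ - c - P.g - (lc Z.card + 2 * Q.card * bl C.card) - P.g =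
      φ - (c + 2 * P.g + (lc Z.card + 2 * Q.card * bl C.card)) by omega]
    exact ih.use hb h1 h2 h3 a' (fin v' γ a' mo fun A' hA' k =>
      (H _ r (by rw [a'.sy_M]; omega) A' hA' k).toU (mo.u i Z hZ) hm)
  · have h2 := ari_big (c := c + 2 * P.g) (by omega) hL hy
    have h3 := hb.cost (hΦ γ hγ) h2
    refine R.bat i _ v Z a hZ (by omega) (Bat.quo _ v Z C prs hC hCZ hN hp hl (by omega)
      fun v' b a' mo _ r hU => Bat.stop _ _ _ (by omega) ?_)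
    rw [show φ - c - P.g - (lc Z.card + 4 * prs.length * bl C.card) - P.g =
      φ - (c + 2 * P.g + (lc Z.card + 4 * prs.length * bl C.card)) by omega]
    exact ih.use hb h1 h2 h3 a' (fin v' γ a' mo fun A' hA' _ =>
      ((H _ b r).mono hA' Sy.Ref.refl le_rfl).toU hU
        (card_image_le.trans ((card_le_card hCZ).trans hm)))

theorem aff {A : Finset Y} {m : ℕ} {n1 n2 Φ' Φ γ : ℝ} (h : v.Hd P A m n1 n2 Φ' Φ)
    (hX : v.X.Nonempty) (e : γ ≤ n1 + n2) : lg m * γ / (P.lam + 1) ≤ Φ + 1 := by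
  obtain ⟨a1, a2, a3, -⟩ := h.nonneg hX
  have b1 := P.LV_ge (a := A.card) (m := m) a1 a2
  have b2 := lg_nonneg A.card
  have b3 := lg_nonneg m
  have b4 : lg m * γ / (P.lam + 1) ≤ lg m * (n1 + n2) / (P.lam + 1) := by gcongr
  have := h.sum
  linarith

end VBIGx

/- NEW. Rule bat, one Bat.pin or Bat.quo, Bat.stop, IH.use with the gain lg m γ / (lam + 1) (LV_gain, ari_big; affordable by LV_ge and γ ≤ ν ≤ n1). In the new view the orbit of u is a class inside A; GoodZ.toU, Tl.head. -/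
theorem s1_big (hP : P.Ok) (R : Rules P W) {n φ c m : ℕ} {Φ Φ' n1 n2 ν : ℝ} (ih : IH P W n)
    (hb : Bud P n φ Φ) (hc : c ≤ 1024 * P.g) (a : v.Ok P) (hX : v.X.Nonempty) {A Z : Finset Y}
    (h : v.Hd P A m n1 n2 Φ' Φ) (hν : ν ≤ n1) (hZ : v.U1 Z) (hm : Z.card ≤ m)
    (o : (v.Γ1 P).OBig P m Z A ν) : W (φ - c) v := by
  obtain ⟨a1, a2, -⟩ := h.nonneg hX
  refine VBIGx.big (i := true) hP R ih hb hc a hZ hm (fun γ e => VBIGx.aff h hX (by linarith)) o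
    fun v' γ a' mo H w hw => ?_
  obtain ⟨u, hu, t, g⟩ := h.tl w (mo.x hw)
  have uD := h.o.2.1 hu
  have s : v'.o u ⊆ A := h.o.2.2 u hu ▸ orb_mono a.inv mo.h uD
  refine ((t.mono a a' mo).head a' (mo.d uD) (card_le_card s) h.am h.n
    (H _ s (a'.cls_iff.2 (a'.isO (mo.d uD))))
    (g.mono (inter_subset_inter s fun y hy =>
      Sy.mem_cls.2 (mo.ref.e1 (a.dd uD) (Sy.mem_cls.1 hy))) mo.ref le_rfl mo.f2)).mono a' a'
    Vw.Mono.refl ?_
  have b1 := P.LV_gain (a := A.card) (m := m) (n1 := n1) (n2 := n2) (γ1 := γ) (γ2 := 0)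
  have b2 := P.LV_mono (m := m) (le_refl A.card) (show ν - γ ≤ n1 - γ by linarith) (le_refl n2)
  rw [sub_zero, add_zero] at b1
  have := h.sum
  linarith

/- the same for the structure: the class of u in the new structure lies in O -/
theorem s2_big (hP : P.Ok) (R : Rules P W) {n φ c m : ℕ} {Φ Φ' n1 n2 ν : ℝ} (ih : IH P W n)
    (hb : Bud P n φ Φ) (hc : c ≤ 1024 * P.g) (a : v.Ok P) (hX : v.X.Nonempty) {O Z : Finset Y}
    (h : v.Hd P O m n1 n2 Φ' Φ) (hO : v.Γ.Cls O) (hν : ν ≤ n2) (hZ : v.F2 Z) (hm : Z.card ≤ m)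
    (o : v.Γ.OBig P m Z O ν) : W (φ - c) v := by
  obtain ⟨a1, a2, -⟩ := h.nonneg hX
  refine VBIGx.big (i := false) hP R ih hb hc a hZ hm (fun γ e => VBIGx.aff h hX (by linarith)) o
    fun v' γ a' mo H w hw => ?_
  obtain ⟨u, hu, t, -⟩ := h.tl w (mo.x hw)
  have uD := h.o.2.1 hu
  have s : v'.o u ⊆ O := h.o.2.2 u hu ▸ orb_mono a.inv mo.h uD
  have s' : v'.Γ.cls u ⊆ O := fun y hy =>
    hO.2.1.cls_sub hu (Sy.mem_cls.2 (mo.ref.e1 (a.dd uD) (Sy.mem_cls.1 hy)))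
  refine ((t.mono a a' mo).head a' (mo.d uD) (card_le_card s) h.am h.n
    (h.g1.mono s (mo.ref1 a a') le_rfl mo.u1)
    (Sy.GoodU.mono (H _ s' (Sy.cls_cls (a'.dd (mo.d uD)))) inter_subset_right Sy.Ref.refl le_rfl
      fun _ k => k)).mono a' a' Vw.Mono.refl ?_
  have b1 := P.LV_gain (a := O.card) (m := m) (n1 := n1) (n2 := n2) (γ1 := 0) (γ2 := γ)
  have b2 := P.LV_mono (m := m) (le_refl O.card) (le_refl n1) (show ν - γ ≤ n2 - γ by linarith)
  rw [sub_zero, zero_add] at b1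
  have := h.sum
  linarith

end Pool.Agent.P.MP_f1a348_lc.GX
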