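import Pool.Agent.P.MP_f1a348_lc.GY.DefsV
import Pool.Agent.P.MP_f1a348_lc.GX.TSYS
import Pool.Agent.P.MP_f1a348_lc.GX.TGOOD
import Pool.Agent.P.MP_f1a348_lc.GX.THH
import Pool.Agent.P.MP_f1a348_lc.GY.TLV
import Pool.Agent.P.MP_f1a348_lc.GY.TVORB
import Pool.Agent.P.MP_f1a348_lc.GY.TVGOOD
import Pool.Agent.P.MP_f1a348_lc.GY.TZG
import Pool.Agent.P.MP_f1a348_lc.GY.TVALG
import Pool.Agent.P.MP_f1a348_lc.GY.TVCH
import Pool.Agent.P.MP_f1a348_lc.GY.TVARI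
import Pool.Agent.P.MP_f1a348_lc.GY.LibDen2

/-! Step VDEN. -/

set_option autoImplicit false
set_option linter.unusedSectionVars false

namespace Pool.Agent.P.MP_f1a348_lc.GX

open Equiv Finset MulAction
open scoped Classical
variable {G Y : Type} [Group G] [MulAction G Y] [DecidableEq Y] {P : Pm} {H H' K K' : Subgroup G}
  {D D' : Finset Y} {Γ Γ' : Sy Y} {v v' : Vw G Y} {W : ℕ → Vw G Y → Prop}
  {U1 U2 U1' U2' Fo Fo' : Finset Y → Prop}

theorem VDENx.lg43 {x a : ℕ} (h : x ^ 4 ≤ a ^ 3) : 4 * lg x ≤ 3 * lg a := by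
  have := lg_mono h
  simpa [lg, Real.logb_pow] using this

/- NEW. Sy.dense2 (import GY.LibDen2) with ta = ta (card O); rule pin2 with Q = P (ref_pin_of), then red0: the orbit of u lies in its class, K ^ 4 ≤ a ^ 3, so lg drops by lg a / 4; Hd.pt, LV_drop, ari_den, IH.use with γ = lg a. -/
theorem s2_dense (hP : P.Ok) (R : Rules P W) {n φ c m : ℕ} {Φ Φ' n1 n2 : ℝ} (ih : IH P W n)
    (hb : Bud P n φ Φ) (hc : c ≤ 1024 * P.g) (a : v.Ok P) (hX : v.X.Nonempty) {O : Finset Y}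
    (h : v.Hd P O m n1 n2 Φ' Φ) (hg : Giant v.H O) (hO : v.Γ.Cls O) (h0 : P.t0 ≤ O.card)
    (h1 : v.Γ.Tr O (ta O.card)) (h2 : ¬ v.Γ.Tr O P.tau) : W (φ - c) v := by
  have ht0 : P.t0 = 4 * P.tau + 2 ^ 64 := rfl
  have hcard := a.card_le hO.2.1.1
  have h22 : 2 ≤ O.card := by omega
  obtain ⟨Q, hQO, hQ, hsm⟩ := Sy.dense2 (Γ := v.Γ) (A := O) (ta := ta O.card) (τ := P.tau)
    (by rw [a.lev]; exact hP.m1) hO.2.1 (by omega) (by omega) (by unfold ta; omega)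
    (ta_le hcard) h1 h2
  obtain ⟨p, hp⟩ := hO.1
  have ec := hO.eq_cls hp
  obtain ⟨f1, f2, f3, -⟩ := h.nonneg hX
  have e3 := one_le_lg h22
  have e4 := Pm.LV_ge (P := P) (a := O.card) (m := m) f1 f2
  have e5 := h.sum
  have e6 : 0 ≤ lg m * (n1 + n2) / ((P.lam : ℝ) + 1) :=
    div_nonneg (mul_nonneg (lg_nonneg m) (by linarith)) (by positivity)
  have k2 := ari_den (P := P) (c := c + 2 * P.g) (y := Q.card) (a := O.card) (by omega) h22 hQ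
  have k3 := hb.cost (by linarith) k2
  refine R.pin2 _ v p Q a (hO.2.1.1 hp) (ec ▸ hQO) (by rw [← ec]; omega)
    fun v' a' mo eH eD hs => ?_
  rw [← ec]
  have hO' : v'.IsO O := by
    refine ⟨h.o.1, eD ▸ h.o.2.1, fun u hu => ?_⟩
    rw [Vw.o, eH, eD]
    exact h.o.2.2 u hu
  refine R.red0 _ v' O a' hO' (eH ▸ hg) (by omega) fun v'' a'' m' _ _ hE => ?_
  have e : φ - c - (P.g + 2 * Q.card * bl O.card) - P.g =
      φ - (c + 2 * P.g + 2 * Q.card * bl O.card) := by omega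
  rw [e]
  refine ih.use hb e3 k2 k3 a'' fun w hw => ?_
  obtain ⟨u, hu, t, g⟩ := h.tl w (mo.x (m'.x hw))
  have hM : Q.card + 2 ≤ v'.Γ.M := by
    have := hP.m1
    rw [a'.lev]
    omega
  have r : (v.Γ.pin Q).Ref v'.Γ := Sy.ref_pin_of mo.dd mo.l (hQO.trans hO.2.1.1) hs hM
  have s1 : v''.o u ⊆ (v.Γ.pin Q).cls u := fun y hy => by
    obtain ⟨-, k, hk, rfl⟩ := mem_orb.1 hy
    exact Sy.mem_cls.2 (r.e1 (hO.2.1.1 hu) (((hE k).1 hk).2 u hu))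
  have s2 : v''.o u ⊆ O := orb_sub ((Vw.IsO.inv a h.o).mono (m'.h.trans mo.h)) hu
  have s3 : 1 ≤ (v''.o u).card :=
    card_pos.2 ⟨u, self_mem_orb (m'.d (mo.d (h.o.2.1 hu)))⟩
  have s4 := VDENx.lg43 ((Nat.pow_le_pow_left (card_le_card s1) 4).trans (hsm u hu))
  have s5 := Pm.LV_drop (P := P) (m := m) (n1 := n1) (n2 := n2) s3 (card_le_card s2)
  exact (h.pt a a'' (mo.trans m') hu t g le_rfl (card_le_card s2)).mono a'' a'' Vw.Mono.refl
    (by linarith)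

end Pool.Agent.P.MP_f1a348_lc.GX
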