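import Pool.Agent.P.MP_f1a348_lc.GY.DefsV
import Pool.Agent.P.MP_f1a348_lc.GX.TSYS
import Pool.Agent.P.MP_f1a348_lc.GX.TGOOD
import Pool.Agent.P.MP_f1a348_lc.GX.THH
import Pool.Agent.P.MP_f1a348_lc.GX.TCONN
import Pool.Agent.P.MP_f1a348_lc.GX.TDOM
import Pool.Agent.P.MP_f1a348_lc.GX.TJOH
import Pool.Agent.P.MP_f1a348_lc.GX.TLEMG
import Pool.Agent.P.MP_f1a348_lc.GY.TZG
import Pool.Agent.P.MP_f1a348_lc.GY.LibZS

/-! Step ZSTEP. -/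

set_option autoImplicit false
set_option linter.unusedSectionVars false

namespace Pool.Agent.P.MP_f1a348_lc.GX

open Equiv Finset MulAction
open scoped Classical
variable {G Y : Type} [Group G] [MulAction G Y] [DecidableEq Y] {P : Pm} {H H' K K' : Subgroup G}
  {D D' : Finset Y} {Γ Γ' : Sy Y} {v v' : Vw G Y} {W : ℕ → Vw G Y → Prop}
  {U1 U2 U1' U2' Fo Fo' : Finset Y → Prop}

/- OWNER 65. As the landed Sy.step (pend, direct, dom, gra_edge, gra_comp, pla) with O inside Z. -/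
theorem Sy.stepZ {N1 τ t0 Λ : ℕ} (hM : 2 * τ + 4 ≤ Γ.M) (hτ : Λ + 1 ≤ τ) (ht0 : 4 * τ ≤ t0)
    {Z A : Finset Y} (hA : Γ.Cls A) (h2 : 2 ≤ A.card) (hc : A.card ≤ 2 ^ Λ) (hN1 : A.card ≤ N1)
    {ν : ℝ} (h : Γ.GoodZ N1 Z A ν) (hZ : 12289 * lg A.card ≤ ν → A ⊆ Z) :
    Γ.OutZ N1 τ t0 Z A ν :=
  ZSx.stepZ0 hM hτ ht0 hA h2 hc hN1 h hZ

end Pool.Agent.P.MP_f1a348_lc.GX
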