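import Pool.Agent.P.MP_f1a348_lc.GY.DefsV
import Pool.Agent.P.MP_f1a348_lc.GX.TSYS
import Pool.Agent.P.MP_f1a348_lc.GX.TGOOD
import Pool.Agent.P.MP_f1a348_lc.GX.THH
import Pool.Agent.P.MP_f1a348_lc.GY.TLV
import Pool.Agent.P.MP_f1a348_lc.GY.TVORB
import Pool.Agent.P.MP_f1a348_lc.GY.TVGOOD
import Pool.Agent.P.MP_f1a348_lc.GY.TZG
import Pool.Agent.P.MP_f1a348_lc.GY.TZSTEP
import Pool.Agent.P.MP_f1a348_lc.GY.TVARI
import Pool.Agent.P.MP_f1a348_lc.GY.LibLoop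

/-! Step VLOOP. -/

set_option autoImplicit false
set_option linter.unusedSectionVars false

namespace Pool.Agent.P.MP_f1a348_lc.GX

open Equiv Finset MulAction
open scoped Classical
variable {G Y : Type} [Group G] [MulAction G Y] [DecidableEq Y] {P : Pm} {H H' K K' : Subgroup G}
  {D D' : Finset Y} {Γ Γ' : Sy Y} {v v' : Vw G Y} {W : ℕ → Vw G Y → Prop}
  {U1 U2 U1' U2' Fo Fo' : Finset Y → Prop}

/-- a run of cheap moves ends with `End` -/
theorem loop (hP : P.Ok) {i : Bool} {φ m : ℕ} {ν0 : ℝ} (a : v.Ok P) {A Z : Finset Y}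
    (hA : (v.sy P i).Cls A) (h2 : 2 ≤ A.card) (hm : A.card ≤ m) (hN : m ≤ P.N1) (hZ : v.U i Z)
    (hz : Z.card ≤ m) (g : (v.sy P i).GoodZ P.N1 Z A ν0) (hν : ν0 ≤ 12289 * lg A.card)
    (ht : 12289 * lg A.card ≤ ν0 → A ⊆ Z)
    (hT : ¬ (P.t0 ≤ A.card ∧ (v.sy P i).Tr A (ta A.card))) (hφ : 513 * P.g ≤ φ)
    (fin : ∀ (v' : Vw G Y) (c : ℕ), v'.Ok P → v.Mono v' → v.Kp v' i → c ≤ 513 * P.g →
      v'.End P i A m ν0 → W (φ - c) v') : Bat P W i φ v Z := by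
  have hm' : m ≤ 2 ^ P.lam := hN.trans hP.n1
  have ht' := ta_le (P := P) (hm.trans hm')
  have hM := hP.m1
  have hg : 513 * P.g = 2 ^ 13 * (P.lam + 1) + P.g := by unfold Pm.g; omega
  have ar : Arena (fun v : Vw G Y => v.sy P i) (fun v => v.Ok P) (fun v v' => v.Mono v' ∧ v.Kp v' i)
      (fun v Z => v.U i Z) (fun c v Z => Bat P W i (φ - c) v Z) (fun c v => W (φ - c - P.g) v)
      P.N1 (ta A.card) m (2 ^ 13 * (P.lam + 1)) := by
    refine ⟨fun v k => by rw [k.sy_M]; omega, fun v => ⟨Vw.Mono.refl, Vw.Kp.refl i⟩,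
      fun _ _ _ e e' => ⟨e.1.trans e'.1, e.2.trans e'.2⟩, fun _ _ k k' e => e.1.refs k k' i,
      fun _ _ _ _ _ e => e.1.u i _, fun c v Z _ hc e => Bat.stop _ v Z (by omega) e,
      fun c v Z C Q d _ _ z c1 c2 c3 c4 _ c6 => ⟨_, ari_pin h2 hm z (card_le_card c2) c4 c6,
        fun hc e => Bat.pin _ v Z C Q c1 c2 c3 (by omega) (by omega) fun v' k' m' p' r => ?_⟩,
      fun c v Z C prs _ _ z c1 c2 c3 c4 c5 => ⟨_, ari_quo (r := prs.length) (h2.trans hm) z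
        (card_le_card c2), fun hc e => Bat.quo _ v Z C prs c1 c2 c3 c4 c5 (by omega)
          fun v' b k' m' p' r u' => ?_⟩⟩
    · rw [Nat.sub_sub]
      exact e v' k' ⟨m', p'⟩ r
    · rw [Nat.sub_sub]
      exact e v' b k' ⟨m', p'⟩ r u'
  have h : ∀ (c : ℕ) (v' : Vw G Y), c ≤ 2 ^ 13 * (P.lam + 1) → v'.Ok P → v.Mono v' → v.Kp v' i →
      v'.End P i A m ν0 → W (φ - c - P.g) v' := fun c v' hc k l1 l2 e => by
    rw [Nat.sub_sub]
    exact fin v' _ k l1 l2 (by omega) e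
  refine ar.loop (t0 := P.t0) hm' a hA h2 hm (fun v k A' s c c2 Z ν g t => ?_) hν hZ hz g
    (fun e => ⟨ht e, hT⟩)
    (fun c v' k l hc e => h c v' hc k l.1 l.2 (.inl fun B s cB => ?_))
    (fun c v' Z ν k l hc u z hν A' s cA n g e => h c v' hc k l.1 l.2 (.inr ⟨A', s, cA,
      not_le.1 (mt (LOOPx.drp34 cA.1) n), fun B s' cB => ?_, Z, ν, hν, u, z, g, ?_⟩))
  · refine Sy.stepZ (Λ := Nat.clog 2 A.card) (by rw [k.sy_M]; omega) (by unfold ta; omega)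
      (by unfold Pm.t0; omega) c c2 ((card_le_card s).trans (Nat.le_pow_clog one_lt_two _))
      ((card_le_card s).trans (hm.trans hN)) g t
  · by_cases n : Drp A B
    · exact .inl n
    · obtain ⟨Z, γ, u, z, g, l⟩ := e B s cB n
      exact .inr ⟨γ, l, g.toU u z⟩
  · by_cases n' : Drp A B
    · exact .inr n'
    · exact .inl (LOOPx.uniq cB cA s' s n' n)
  · have hM' := k.sy_M i
    rcases e with e | e | e | ⟨C, Q, d, c1, c2, c3, c4, c5, c6, c7, c8⟩ |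
      ⟨C, prs, c1, c2, c3, c4, c5, c6, c7⟩
    · exact .inl e
    · exact .inr (.inl e)
    · exact .inr (.inr (.inl e))
    · refine .inr (.inr (.inr ⟨1 + min (d : ℝ) (lg C.card), ?_, c7, C, c1, c2, .inl ⟨Q, c3,
        by omega, ari_pin h2 hm z (card_le_card c2) c4 c6, fun Γ' r l B s cB => ?_⟩⟩))
      · obtain ⟨y, hy⟩ := cA.1
        have := Sy.GoodP.nonneg (c8 _ Sy.Ref.refl (show 3 ≤ (v'.sy P i).M - Q.card by omega) _
          (((Sy.ref_pin Q).inv1 cA.2.1).cls_sub hy) (Sy.cls_cls (cA.2.1.1 hy)))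
        linarith
      · rw [← sub_sub]
        exact c8 Γ' r l B s cB
    · refine .inr (.inr (.inr ⟨1 + prs.length, ?_, c6, C, c1, c2, .inr ⟨prs, c3, c4, c5,
        ari_quo (h2.trans hm) z (card_le_card c2), fun Γ' b r => ?_⟩⟩))
      · obtain ⟨Γ0, b0, hb0⟩ := Sy.blk_exists c1.2.1.1 prs
        have := Sy.GoodP.nonneg (c7 Γ0 b0 hb0)
        linarith
      · rw [← sub_sub]
        exact c7 Γ' b r

end Pool.Agent.P.MP_f1a348_lc.GX
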