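import Pool.Agent.P.MP_f1a348_lc.GY.DefsV
import Pool.Agent.P.MP_f1a348_lc.GX.TSYS
import Pool.Agent.P.MP_f1a348_lc.GX.TGOOD
import Pool.Agent.P.MP_f1a348_lc.GX.THH
import Pool.Agent.P.MP_f1a348_lc.GY.TLV
import Pool.Agent.P.MP_f1a348_lc.GY.TVORB
import Pool.Agent.P.MP_f1a348_lc.GY.TVGOOD
import Pool.Agent.P.MP_f1a348_lc.GY.TZG
import Pool.Agent.P.MP_f1a348_lc.GY.TVALG
import Pool.Agent.P.MP_f1a348_lc.GY.TVCH
import Pool.Agent.P.MP_f1a348_lc.GY.TVARI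

/-! Step VS2B. -/

set_option autoImplicit false
set_option linter.unusedSectionVars false

namespace Pool.Agent.P.MP_f1a348_lc.GX

open Equiv Finset MulAction
open scoped Classical
variable {G Y : Type} [Group G] [MulAction G Y] [DecidableEq Y] {P : Pm} {H H' K K' : Subgroup G}
  {D D' : Finset Y} {Γ Γ' : Sy Y} {v v' : Vw G Y} {W : ℕ → Vw G Y → Prop}
  {U1 U2 U1' U2' Fo Fo' : Finset Y → Prop}

/- Rule pin2 with Q = C, then red0: all points of O are singleton classes (e2_single), the new group fixes them. -/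
theorem s2_kill (hP : P.Ok) (R : Rules P W) {n φ c m : ℕ} {Φ Φ' n1 n2 : ℝ} (ih : IH P W n)
    (hb : Bud P n φ Φ) (hc : c ≤ 1024 * P.g) (a : v.Ok P) (hX : v.X.Nonempty) {O : Finset Y}
    (h : v.Hd P O m n1 n2 Φ' Φ) (hg : Giant v.H O) (hO : v.Γ.Cls O) (h2 : 2 ≤ O.card)
    (o : v.Γ.OKillZ P.t0 O) : W (φ - c) v := by
  obtain ⟨C, hC, hCO, hsm, hsep⟩ := o
  obtain ⟨p, hp⟩ := hC.1
  have ec := hC.eq_cls hp
  obtain ⟨e1, e2, e4, -⟩ := h.nonneg hX
  have e3 := one_le_lg h2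
  have e5 := h.sum
  have e6 := Pm.LV_ge (P := P) (a := O.card) (m := m) e1 e2
  have e7 : 0 ≤ lg m * (n1 + n2) / (P.lam + 1) :=
    div_nonneg (mul_nonneg (lg_nonneg _) (add_nonneg e1 e2)) (by positivity)
  have e8 : Φ' ≤ Φ - lg O.card := by linarith
  have k2 := ari_kill (P := P) (c := c + 2 * P.g) (x := C.card) (by omega) h2
    (a.card_le hO.2.1.1) hCO hsm
  have k3 := hb.cost (by linarith) k2
  refine R.pin2 _ v p C a (hC.2.1.1 hp) ec.le (by rw [← ec]; omega)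
    fun v' a' mo eH eD hs => ?_
  rw [← ec]
  have hO' : v'.IsO O := by
    refine ⟨h.o.1, eD ▸ h.o.2.1, fun u hu => ?_⟩
    rw [Vw.o, eH, eD]
    exact h.o.2.2 u hu
  refine R.red0 _ v' O a' hO' (eH ▸ hg) (by omega) fun v'' a'' mo' _ _ hE => ?_
  have e : φ - c - (P.g + 2 * C.card * bl C.card) - P.g =
      φ - (c + 2 * P.g + 2 * C.card * bl C.card) := by omega
  rw [e]
  refine ih.use hb e3 k2 k3 a'' fun w hw => ?_
  obtain ⟨u, hu, t, -⟩ := h.tl w (mo.x (mo'.x hw))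
  have hM : 2 ≤ v'.Γ.M := by
    have := hP.m2
    rw [a'.lev]
    omega
  have hfix : v''.H ≤ stabilizer G u := fun g hg' => by
    have hu' : g • u ∈ O := Vw.IsO.inv a h.o g (mo.h (mo'.h hg')) u hu
    refine (hsep u hu _ hu' fun q hq => ?_).symm
    exact mo.ref.2 u (hO.2.1.1 hu) q (hC.2.1.1 hq) _ _
      (Sy.e2_single hM (((hE g).1 hg').2 u hu) (mo.dd (hC.2.1.1 hq)) (hs q hq))
  exact ((t.mono a a'' (mo.trans mo')).kill hfix).mono a'' a'' Vw.Mono.refl e8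

end Pool.Agent.P.MP_f1a348_lc.GX
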