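import Pool.Agent.P.MP_f1a348_lc.GY.DefsV
import Pool.Agent.P.MP_f1a348_lc.GX.TSYS
import Pool.Agent.P.MP_f1a348_lc.GX.TGOOD
import Pool.Agent.P.MP_f1a348_lc.GX.THH
import Pool.Agent.P.MP_f1a348_lc.GY.TLV
import Pool.Agent.P.MP_f1a348_lc.GY.TVORB
import Pool.Agent.P.MP_f1a348_lc.GY.TVGOOD
import Pool.Agent.P.MP_f1a348_lc.GY.TZG
import Pool.Agent.P.MP_f1a348_lc.GY.TVALG
import Pool.Agent.P.MP_f1a348_lc.GY.TVCH

/-! Step VSURG. -/

set_option autoImplicit false
set_option linter.unusedSectionVars false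

namespace Pool.Agent.P.MP_f1a348_lc.GX

open Equiv Finset MulAction
open scoped Classical
variable {G Y : Type} [Group G] [MulAction G Y] [DecidableEq Y] {P : Pm} {H H' K K' : Subgroup G}
  {D D' : Finset Y} {Γ Γ' : Sy Y} {v v' : Vw G Y} {W : ℕ → Vw G Y → Prop}
  {U1 U2 U1' U2' Fo Fo' : Finset Y → Prop}

namespace VSURGx

theorem two (a : v.Ok P) {w u : Y} {Φ Ψ n1 n2 m1 m2 : ℝ} (h : v.Tl P w u Φ)
    {A : Finset Y} (hA : A ⊆ v.D) (hu : u ∈ A) {b : Y → Y} (hb : v.Nw A b) {f x y : ℕ}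
    (h3 : (A.image b).card ≤ x) (h3' : x ≤ P.N1) (h4 : f ≤ y) (h4' : y ≤ P.N1)
    (h5 : ∀ y, (A.filter (fun x => b x = y)).card ≤ f)
    (g1 : (v.Γ1 P).GoodU v.U1 P.N1 x (A.image b) n1)
    (g2 : v.Γ.GoodU v.F2 P.N1 x (A.image b ∩ v.Γ.cls (b u)) n2)
    (g3 : (v.Γ1 P).GoodU v.U1 P.N1 y (A.filter (fun x => b x = b u)) m1)
    (g4 : v.Γ.GoodU v.F2 P.N1 y (A.filter (fun x => b x = b u) ∩ v.Γ.cls u) m2)
    (e : Φ + P.LV (A.image b).card x n1 n2 + P.LV f y m1 m2 ≤ Ψ) : v.Pt P w Ψ := by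
  obtain ⟨k, c1, c2, c3⟩ := h
  have s1 : orb v.H v.D (b u) ⊆ A.image b := by
    intro y hy
    obtain ⟨-, g, hg, rfl⟩ := mem_orb.1 hy
    exact mem_image.2 ⟨g • u, (hb.eqv g hg u hu).1, (hb.eqv g hg u hu).2⟩
  have s2 : orb (v.H ⊓ stabilizer G (b u)) v.D u ⊆ A.filter (fun x => b x = b u) := by
    intro y hy
    obtain ⟨-, g, hg, rfl⟩ := mem_orb.1 hy
    exact mem_filter.2 ⟨(hb.eqv g hg.1 u hu).1, (hb.eqv g hg.1 u hu).2.trans hg.2⟩
  have k1 := card_le_card s1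
  have k2 := (card_le_card s2).trans (h5 _)
  have l1 := Pm.LV_mono (P := P) (m := x) k1 (le_refl n1) (le_refl n2)
  have l2 := Pm.LV_mono (P := P) (m := y) k2 (le_refl m1) (le_refl m2)
  have i1 : InvF (v.H ⊓ stabilizer G (b u)) v.D := a.inv.mono inf_le_left
  refine ⟨b u :: u :: k, ⟨hb.mem u hu, x, n1, n2, k1.trans h3, h3',
    g1.mono s1 Sy.Ref.refl le_rfl fun _ z => z,
    g2.mono (inter_subset_inter_right s1) Sy.Ref.refl le_rfl fun _ z => z, hA hu, y, m1, m2,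
    k2.trans h4, h4',
    g3.mono s2 (sys1_ref _ _ a.inv i1 inf_le_left (Subset.refl _)) le_rfl fun _ z => z,
    g4.mono (inter_subset_inter_right s2) Sy.Ref.refl le_rfl fun _ z => z, ?_⟩, ?_, ?_⟩
  · refine (c1.mono (a.inv.mono inf_le_left) (i1.mono inf_le_left)
      (inf_le_inf_right _ inf_le_left) (Subset.refl _) a.dd Sy.Ref.refl (fun _ z => z)
      fun _ z => z).le ?_
    linarith
  · refine le_trans (inf_le_inf_left _ fun g hg => ?_) c2
    exact mem_fixF.2 fun p hp => mem_fixF.1 hg p (by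
      rw [List.mem_toFinset] at hp ⊢
      exact List.mem_cons_of_mem _ hp)
  · intro z hz
    rcases List.mem_cons.1 hz with rfl | hz
    · refine (c3 u List.mem_cons_self).of_fix fun g hg => ?_
      have e1 := (hb.eqv g hg.1 u hu).2
      have e2 : g • u = u := hg.2
      rw [e2] at e1
      exact e1.symm
    · exact c3 z hz

theorem many (a : v.Ok P) {k : List Y} {Φ : ℝ} (h : Ch P v.D v.Γ v.U1 v.F2 K k Φ) (hK : K ≤ v.H)
    {C : Finset Y} (hC : C ⊆ v.D) (hi : InvF v.H C) {c : ℕ} (h1 : C.card ≤ c) (h2 : c ≤ P.N1)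
    (l : List Y) : ∀ K' : Subgroup G, K' ≤ v.H → (∀ z ∈ l, z ∈ C) →
      K' ⊓ fixF G l.toFinset ≤ K →
      Ch P v.D v.Γ v.U1 v.F2 K' (l ++ k)
        (Φ + l.length * P.LV c c (12289 * lg c) (12289 * lg c)) := by
  induction l with
  | nil =>
    intro K' e _ e'
    refine (h.mono (a.inv.mono hK) (a.inv.mono e) (le_trans ?_ e') (Subset.refl _) a.dd
      Sy.Ref.refl (fun _ z => z) fun _ z => z).le (by simp)
    exact le_inf le_rfl fun g _ => mem_fixF.2 fun p hp => by simp at hp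
  | cons z l ih =>
    intro K' e hl e'
    have hz := hl z List.mem_cons_self
    have k1 : (orb K' v.D z).card ≤ c := (card_le_card (orb_sub (hi.mono e) hz)).trans h1
    have l1 := Pm.LV_mono (P := P) (m := c) k1 (le_refl (12289 * lg c)) (le_refl (12289 * lg c))
    refine ⟨hC hz, c, 12289 * lg c, 12289 * lg c, k1, h2, Sy.goodU_triv k1,
      Sy.goodU_triv ((card_le_card inter_subset_left).trans k1), ?_⟩
    refine (ih (K' ⊓ stabilizer G z) (inf_le_left.trans e)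
      (fun y hy => hl y (List.mem_cons_of_mem _ hy)) (le_trans ?_ e')).le ?_
    · intro g hg
      refine ⟨hg.1.1, mem_fixF.2 fun p hp => ?_⟩
      rcases List.mem_cons.1 (List.mem_toFinset.1 hp) with rfl | hp
      · exact hg.1.2
      · exact mem_fixF.1 hg.2 p (List.mem_toFinset.2 hp)
    · rw [List.length_cons]
      push_cast
      linarith

end VSURGx

/- The new flag is b u :: u :: k. With q = card (image b A): if f ≤ q the level of b u keeps m and gets n1 + 2 lg f, n2 + 2 lg f (GoodP.quot), the level of u gets m' = f and trivial bounds (LV_split1). If q < f the level of b u gets m' = q and trivial bounds, the level of u keeps m, n1, n2 (LV_split2). LV_mono for the true orbit sizes. -/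
theorem Vw.Tl.split (hP : P.Ok) (a : v.Ok P) {w u : Y} {Φ n1 n2 : ℝ} (h : v.Tl P w u Φ)
    {A : Finset Y} (hA : A ⊆ v.D) (hu : u ∈ A) {b : Y → Y} (hb : v.Nw A b) {f c m : ℕ}
    (h1 : 2 ≤ f) (h2 : 2 ≤ (A.image b).card) (h3 : (A.image b).card * f ≤ c) (h4 : c ≤ m)
    (hN : m ≤ P.N1) (h5 : ∀ y, (A.filter (fun x => b x = y)).card ≤ f)
    (g1 : (v.Γ1 P).GoodU v.U1 P.N1 m A n1) (g2 : v.Γ.GoodU v.F2 P.N1 m (A ∩ v.Γ.cls u) n2) :
    v.Pt P w (Φ + P.LV c m n1 n2 - 400) := by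
  have hM : 3 ≤ P.M := by have := hP.m1; omega
  have hM' : 3 ≤ v.Γ.M := a.lev ▸ hM
  have q1 : (A.image b).card ≤ m := by nlinarith
  have q2 : f ≤ m := by nlinarith
  rcases le_total f (A.image b).card with e | e
  · have i2 : v.Γ.Inv2 (fun x y => x ∈ A ∩ v.Γ.cls u ∧ y = b x) := by
      refine ⟨fun x y k => hb.inv.1 x y ⟨(mem_inter.1 k.1).1, k.2⟩, fun x y x' y' e' k => ?_⟩
      have k' := hb.inv.2 x y x' y' e' ⟨(mem_inter.1 k.1).1, k.2⟩
      exact ⟨mem_inter.2 ⟨k'.1, Sy.mem_cls.2 ((Sy.mem_cls.1 (mem_inter.1 k.1).2).trans e'.fst)⟩,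
        k'.2⟩
    have g3 := g2.quot (f := f) Sy.Ref.refl hM' i2 fun y =>
      (card_le_card (filter_subset_filter _ inter_subset_left)).trans (h5 y)
    have sp := Pm.LV_split1 (P := P) (n1 := n1) (n2 := n2) h1 e h3 h4
    refine VSURGx.two a h hA hu hb q1 hN le_rfl (q2.trans hN) h5
      (g1.quot Sy.Ref.refl hM (hb.inv1 a hA) h5)
      (g3.mono (fun y hy => ?_) Sy.Ref.refl le_rfl fun _ z => z) (Sy.goodU_triv (h5 _))
      (Sy.goodU_triv ((card_le_card inter_subset_left).trans (h5 _))) ?_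
    · obtain ⟨u', e'⟩ := (Sy.mem_cls.1 (mem_inter.1 hy).2).ext2 (by omega) (a.dd (hA hu))
      have k' := hb.inv.2 _ _ _ _ e'.swap ⟨hu, rfl⟩
      exact mem_image.2 ⟨u', mem_inter.2 ⟨k'.1, Sy.mem_cls.2 e'.snd⟩, k'.2.symm⟩
    · linarith
  · have sp := Pm.LV_split2 (P := P) (n1 := n1) (n2 := n2) h2 e h3 h4
    refine VSURGx.two a h hA hu hb le_rfl (q1.trans hN) q2 hN h5 (Sy.goodU_triv le_rfl)
      (Sy.goodU_triv (card_le_card inter_subset_left))
      (g1.mono (filter_subset _ _) Sy.Ref.refl le_rfl fun _ z => z)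
      (g2.mono (inter_subset_inter_right (filter_subset _ _)) Sy.Ref.refl le_rfl fun _ z => z) ?_
    linarith

/- The new flag is I.toList ++ k, all new levels lie in C and get m' = c and the trivial bounds. -/
theorem Vw.Tl.slots (a : v.Ok P) {w u : Y} {Φ : ℝ} (h : v.Tl P w u Φ) {C I : Finset Y}
    (hC : C ⊆ v.D) (hi : InvF v.H C) {c e : ℕ} (h1 : C.card ≤ c) (h2 : c ≤ P.N1) (hI : I ⊆ C)
    (h3 : I.card ≤ e) (h4 : e < P.tau) (h5 : InvF (v.H ⊓ stabilizer G u) I)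
    (h6 : v.H ⊓ fixF G I ≤ stabilizer G u) :
    v.Pt P w (Φ + e * P.LV c c (12289 * lg c) (12289 * lg c)) := by
  obtain ⟨k, c1, c2, c3⟩ := h
  have t5 : 5 ≤ P.tau := by unfold Pm.tau Pm.t Pm.s; omega
  have hT : 0 ≤ P.LV c c (12289 * lg c) (12289 * lg c) := by
    have := lg_nonneg c
    exact Pm.LV_nonneg (by linarith) (by linarith)
  have := a.fin
  refine ⟨I.toList ++ k, (VSURGx.many a c1 inf_le_left hC hi h1 h2 I.toList v.H le_rfl
    (fun z hz => hI (mem_toList.1 hz)) ?_).le ?_, ?_, ?_⟩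
  · rw [toList_toFinset]
    exact le_inf inf_le_left h6
  · rw [length_toList]
    have : (I.card : ℝ) ≤ e := by exact_mod_cast h3
    have := mul_le_mul_of_nonneg_right this hT
    linarith
  · intro g hg
    have e1 := mem_fixF.1 hg.2
    refine c2 ⟨hg.1, mem_fixF.2 fun p hp => ?_⟩
    rcases List.mem_cons.1 (List.mem_toFinset.1 hp) with rfl | hp
    · exact h6 ⟨hg.1, mem_fixF.2 fun q hq => e1 q
        (List.mem_toFinset.2 (List.mem_append_left _ (mem_toList.2 hq)))⟩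
    · exact e1 p (List.mem_toFinset.2 (List.mem_append_right _ hp))
  · intro z hz
    rcases List.mem_append.1 hz with hz | hz
    · exact (c3 u List.mem_cons_self).of_small t5 h5 (mem_toList.1 hz) (h3.trans_lt h4)
    · exact c3 z (List.mem_cons_of_mem _ hz)

end Pool.Agent.P.MP_f1a348_lc.GX
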