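import Pool.Agent.P.MP_f1a348_lc.GY.DefsV
import Pool.Agent.P.MP_f1a348_lc.GX.TSYS
import Pool.Agent.P.MP_f1a348_lc.GX.TGOOD
import Pool.Agent.P.MP_f1a348_lc.GX.THH
import Pool.Agent.P.MP_f1a348_lc.GY.TLV
import Pool.Agent.P.MP_f1a348_lc.GY.TVORB
import Pool.Agent.P.MP_f1a348_lc.GY.TVGOOD
import Pool.Agent.P.MP_f1a348_lc.GY.TZG
import Pool.Agent.P.MP_f1a348_lc.GY.TVALG
import Pool.Agent.P.MP_f1a348_lc.GY.TVCH
import Pool.Agent.P.MP_f1a348_lc.GY.TVSURG
import Pool.Agent.P.MP_f1a348_lc.GY.TVARI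

/-! Step VS2C. -/

set_option autoImplicit false
set_option linter.unusedSectionVars false

namespace Pool.Agent.P.MP_f1a348_lc.GX

open Equiv Finset MulAction
open scoped Classical
variable {G Y : Type} [Group G] [MulAction G Y] [DecidableEq Y] {P : Pm} {H H' K K' : Subgroup G}
  {D D' : Finset Y} {Γ Γ' : Sy Y} {v v' : Vw G Y} {W : ℕ → Vw G Y → Prop}
  {U1 U2 U1' U2' Fo Fo' : Finset Y → Prop}

namespace VS2Cx

theorem cost {c : ℕ} (hc : c ≤ 4096 * P.g) : (c : ℝ) ≤ P.unit * 1 := by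
  rw [mul_one]
  exact_mod_cast hc.trans Pm.g_le

theorem choose_le {A C : Finset Y} {z0 v0 : Y} {e : ℕ} (h : Γ.John A C z0 v0 e) :
    C.card.choose e ≤ A.card := by
  rw [← card_powersetCard]
  refine card_le_card_of_surjOn (fun z => C.filter (Γ.E2 z0 v0 z)) ?_
  intro T hT
  obtain ⟨h1, h2⟩ := mem_powersetCard.1 (mem_coe.1 hT)
  obtain ⟨z, hz, e⟩ := h.surj T h1 h2
  exact ⟨z, mem_coe.2 hz, e⟩

end VS2Cx

/- Rule redJ, Tl.slots with C = image b C and I = image b (the e points of u); LV_john. -/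
theorem s2_john (hP : P.Ok) (R : Rules P W) {n φ c m : ℕ} {Φ Φ' n1 n2 : ℝ} (ih : IH P W n)
    (hb : Bud P n φ Φ) (hc : c ≤ 1024 * P.g) (a : v.Ok P) (hX : v.X.Nonempty) {O : Finset Y}
    (h : v.Hd P O m n1 n2 Φ' Φ) (hg : Giant v.H O) (hO : v.Γ.Cls O)
    (o : v.Γ.OJohn P.t0 O) : W (φ - c) v := by
  obtain ⟨C, z0, v0, e, hJ, he, hec, ht, hCO⟩ := o
  obtain ⟨h1, h2, -, h0⟩ := h.nonneg hX
  have hOD : O ⊆ v.Γ.D := h.o.2.1.trans a.dd
  obtain ⟨k1, k2⟩ := ari_john (P := P) he hec ht (VS2Cx.choose_le hJ) (a.card_le hOD)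
  have k3 := Pm.LV_john (P := P) he hec ht (VS2Cx.choose_le hJ) h.am h1 h2
  have hcost : ((c + P.g * 3 : ℕ) : ℝ) ≤ P.unit * 1 := VS2Cx.cost (by omega)
  have hφ : c + P.g * 3 ≤ φ := hb.cost (γ := 1) (by linarith) hcost
  have hCN : C.card ≤ P.N1 := hCO.trans (h.am.trans h.n)
  refine R.redJ (φ - c) v O C z0 v0 e a h.o hg hO hJ (by omega) k2 hCN (by omega) ?_
  intro v' b a' m b1 b2 b3
  rw [Nat.sub_sub]
  refine ih.use hb le_rfl hcost hφ a' ?_
  intro w hw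
  obtain ⟨u, hu, t1, -⟩ := h.tl w (m.x hw)
  have t2 := t1.mono a a' m
  have t3 := Vw.Tl.slots a' t2 (C := C.image b) (I := (C.filter (v.Γ.E2 z0 v0 u)).image b)
    (c := C.card) (e := e)
    (fun x hx => by
      obtain ⟨y, hy, rfl⟩ := mem_image.1 hx
      exact b1 y hy)
    (fun g hg x hx => by
      obtain ⟨y, hy, rfl⟩ := mem_image.1 hx
      obtain ⟨y', hy', e'⟩ := b2 g hg y hy
      rw [e']
      exact mem_image_of_mem _ hy')
    card_image_le hCN (image_subset_image (filter_subset _ _))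
    (card_image_le.trans (hJ.card u hu).le) k1
    (fun g hg x hx => by
      obtain ⟨y, hy, rfl⟩ := mem_image.1 hx
      obtain ⟨hy1, hy2⟩ := mem_filter.1 hy
      obtain ⟨y', hy', e'⟩ := b2 g hg.1 y hy1
      have hgu : g • u = u := mem_stabilizer_iff.1 hg.2
      have := (b3 g hg.1 y hy1 y' hy' e' u hu).1 hy2
      rw [hgu] at this
      rw [e']
      exact mem_image_of_mem _ (mem_filter.2 ⟨hy', this⟩))
    (fun g hg => by
      have hgO : g • u ∈ O := Vw.IsO.inv a h.o g (m.h hg.1) u hu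
      have hsub : C.filter (v.Γ.E2 z0 v0 u) ⊆ C.filter (v.Γ.E2 z0 v0 (g • u)) := by
        intro y hy
        obtain ⟨hy1, hy2⟩ := mem_filter.1 hy
        have e' : g • b y = b y := mem_fixF.1 hg.2 _ (mem_image_of_mem _ hy)
        exact mem_filter.2 ⟨hy1, (b3 g hg.1 y hy1 y hy1 e' u hu).1 hy2⟩
      have heq := eq_of_subset_of_card_le hsub (by rw [hJ.card u hu, hJ.card _ hgO])
      exact mem_stabilizer_iff.2 (hJ.inj u hu _ hgO heq).symm)
  have hs := h.sum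
  exact t3.mono a' a' Vw.Mono.refl (by linarith)

end Pool.Agent.P.MP_f1a348_lc.GX
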