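import Pool.Agent.P.MP_f1a348_lc.GY.DefsV
import Pool.Agent.P.MP_f1a348_lc.GX.TSYS
import Pool.Agent.P.MP_f1a348_lc.GX.TGOOD
import Pool.Agent.P.MP_f1a348_lc.GX.THH
import Pool.Agent.P.MP_f1a348_lc.GY.TLV
import Pool.Agent.P.MP_f1a348_lc.GY.TVORB
import Pool.Agent.P.MP_f1a348_lc.GY.TVGOOD
import Pool.Agent.P.MP_f1a348_lc.GY.TZG
import Pool.Agent.P.MP_f1a348_lc.GY.TVCH
import Pool.Agent.P.MP_f1a348_lc.GY.TVARI
import Pool.Agent.P.MP_f1a348_lc.GY.TVLOOP
import Pool.Agent.P.MP_f1a348_lc.GY.TVEQ2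
import Pool.Agent.P.MP_f1a348_lc.GY.TVS2B
import Pool.Agent.P.MP_f1a348_lc.GY.TVS2C
import Pool.Agent.P.MP_f1a348_lc.GY.TVBIG
import Pool.Agent.P.MP_f1a348_lc.GY.TVDEN
import Pool.Agent.P.MP_f1a348_lc.GY.LibEnd

/-! Step VS2. -/

set_option autoImplicit false
set_option linter.unusedSectionVars false

namespace Pool.Agent.P.MP_f1a348_lc.GX

open Equiv Finset MulAction
open scoped Classical
variable {G Y : Type} [Group G] [MulAction G Y] [DecidableEq Y] {P : Pm} {H H' K K' : Subgroup G}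
  {D D' : Finset Y} {Γ Γ' : Sy Y} {v v' : Vw G Y} {W : ℕ → Vw G Y → Prop}
  {U1 U2 U1' U2' Fo Fo' : Finset Y → Prop}

/-- a large class inside a giant orbit is a giant orbit of the group that keeps the classes -/
theorem VS2x_giant {O A : Finset Y} (hg : Giant H O) (hO : O ⊆ Γ.D) (hA : Γ.Cls A) (s : A ⊆ O)
    (e : ∀ h, h ∈ H' ↔ h ∈ H ∧ ∀ u ∈ O, Γ.E1 u (h • u)) : Giant H' A := by
  intro a ha b hb c hc ab ac bc
  obtain ⟨g, g1, g2⟩ := hg a (s ha) b (s hb) c (s hc) ab ac bc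
  refine ⟨g, (e g).2 ⟨g1, fun u hu => ?_⟩, fun x hx => g2 x (s hx)⟩
  rw [g2 u hu, Perm.mul_apply]
  by_cases k : u ∈ A
  · refine hA.2.2 u k _ ?_
    have k1 : swap a c u ∈ A := by
      rw [swap_apply_def]
      split_ifs <;> assumption
    rw [swap_apply_def a b]
    split_ifs <;> assumption
  · rw [swap_apply_of_ne_of_ne (fun z : u = a => k (z ▸ ha)) (fun z : u = c => k (z ▸ hc)),
      swap_apply_of_ne_of_ne (fun z : u = a => k (z ▸ ha)) (fun z : u = b => k (z ▸ hb))]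
    exact Sy.E1.refl (hO hu)

theorem VS2x_orb {A : Finset Y} (hg : Giant H A) (h3 : 3 ≤ A.card) (hD : A ⊆ D) {u : Y}
    (hu : u ∈ A) : A ⊆ orb H D u := by
  intro y hy
  by_cases e : y = u
  · exact e ▸ self_mem_orb (hD hy)
  have h1 : ({u, y} : Finset Y).card < A.card := lt_of_le_of_lt card_le_two (by omega)
  obtain ⟨b, hb, n⟩ := exists_mem_notMem_of_card_lt_card h1
  simp only [mem_insert, mem_singleton, not_or] at n
  obtain ⟨g, g1, g2⟩ := hg u hu b hb y hy (Ne.symm n.1) (Ne.symm e) n.2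
  refine mem_orb.2 ⟨hD hy, g, g1, ?_⟩
  rw [g2 u hu, Perm.mul_apply, swap_apply_left, swap_apply_of_ne_of_ne e (Ne.symm n.2)]

/-- the step for the system of the structure -/
theorem s2 (hP : P.Ok) (R : Rules P W) {n φ c m : ℕ} {Φ Φ' n1 n2 : ℝ} (ih : IH P W n)
    (hb : Bud P n φ Φ) (hc : c ≤ 4 * P.g) (a : v.Ok P) (hX : v.X.Nonempty) {O Z : Finset Y}
    (h : v.Hd P O m n1 n2 Φ' Φ) {Q : Y → Y → Prop} (hr : v.Hr P Q O m n2 Φ') (hg : Giant v.H O)
    (hO : v.Γ.Cls O) (h4 : 4 ≤ O.card) (hF : v.F2 Z) (hOZ : O ⊆ Z) (hm : Z.card ≤ m)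
    (ht : ¬ v.Γ.Tr O P.tau) : W (φ - c) v := by
  by_cases hT : P.t0 ≤ O.card ∧ v.Γ.Tr O (ta O.card)
  · exact s2_dense hP R ih hb (by omega) a hX h hg hO hT.1 hT.2 ht
  have h0 : 0 ≤ Φ := (h.nonneg hX).2.2.2
  obtain ⟨p1, p2⟩ := ENDx.pay hb h0
  have hD : O ⊆ v.D := h.o.2.1
  have gO : v.Γ.GoodU v.F2 P.N1 m O n2 := by
    obtain ⟨w, hw⟩ := hX
    obtain ⟨u, hu, -, g⟩ := h.tl w hw
    rwa [← hO.eq_cls hu, inter_self] at g
  obtain ⟨ν0, Z0, z1, z2, z3, z4, z5, z6⟩ := ENDx.start gO hF hOZ hm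
  refine R.bat false _ v Z0 a z3 (by omega) (loop (i := false) hP a hO (by omega) h.am h.n z3 z4
    z5 z2 z6 hT (by omega) fun v1 c' a1 mo1 kp hc' e => ?_)
  obtain ⟨eH, eD⟩ := kp rfl
  have iO : v1.Γ.Inv1 O := mo1.ref.inv1 hO.2.1
  have isO : v1.IsO O := ⟨h.o.1, eD ▸ hD, fun u hu => by
    have := h.o.2.2 u hu
    unfold Vw.o at this ⊢
    rw [eH, eD]; exact this⟩
  refine R.red0 _ v1 O a1 isO (eH ▸ hg) (by omega) fun v' a' mo2 eD' eΓ ex => ?_
  rw [Nat.sub_sub, Nat.sub_sub, Nat.sub_sub]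
  have mo := mo1.trans mo2
  have os : ∀ u ∈ O, v'.o u ⊆ v1.Γ.cls u := fun u hu y hy => by
    obtain ⟨-, k, k1, rfl⟩ := mem_orb.1 hy
    exact Sy.mem_cls.2 (((ex k).1 k1).2 u hu)
  have cs : ∀ u ∈ O, v1.Γ.cls u ⊆ O := fun u hu => iO.cls_sub hu
  have oc : ∀ u ∈ O, v1.Γ.Cls (v1.Γ.cls u) := fun u hu => Sy.cls_cls (iO.1 hu)
  rcases e with e | ⟨A', s, cA, big, un, Z', ν, hν, u', z', g', e⟩
  · refine ih.use hb le_rfl (p2 _ (by omega)) (by omega) a' fun w hw => ?_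
    obtain ⟨u, hu, t, g⟩ := h.tl w (mo.x hw)
    rcases e _ (cs u hu) (oc u hu) with d | ⟨γ, l, g1⟩
    · exact ENDx.drop h a a' mo hu t g (os u hu) (cs u hu) d
    · have k := ENDx.gain2 (P := P) (a := O.card) (n1 := n1) l z1
      have hs := h.sum
      have s := (os u hu).trans (cs u hu)
      exact ((t.mono a a' mo).head a' (mo.d (hD hu)) (card_le_card s) h.am h.n
        (h.g1.mono s (mo.ref1 a a') le_rfl mo.u1)
        (Sy.GoodU.mono (Γ := v1.Γ) g1 (inter_subset_left.trans (os u hu)) mo2.ref le_rfl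
          mo2.f2)).mono a' a' Vw.Mono.refl (by linarith)
  · have cA' : v1.Γ.Cls A' := cA
    have gA : Giant v'.H A' := VS2x_giant (eH ▸ hg) iO.1 cA' s ex
    have sD : A' ⊆ v'.D := s.trans (hD.trans mo.d)
    have oA : v'.IsO A' := ⟨cA'.1, sD, fun u hu => Subset.antisymm
      (cA'.eq_cls hu ▸ os u (s hu)) (VS2x_orb gA (by omega) sD hu)⟩
    refine ENDx.cut R ih hb h0 (by omega) a' (hr.mono a a' mo hD subset_rfl
      fun w hw => hr.ex w (mo.x hw)) (hD.trans mo.d) s oA (fun v'' a'' sm hX' hr' => ?_)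
      fun v'' a'' mo' w hw u hu n q => ?_
    · have eΓ' : v''.Γ = v1.sy P false := sm.g.trans eΓ
      have u'' : v''.F2 Z' := sm.mono.f2 _ (mo2.f2 _ u')
      have hd : v''.Hd P A' m n1 ν Φ' Φ := by
        refine ⟨sm.isO oA, (card_le_card s).trans h.am, h.n,
          h.g1.mono s ((mo.trans sm.mono).ref1 a a'') le_rfl (mo.trans sm.mono).u1,
          fun w hw => (hr'.ex w hw).imp fun u q => ⟨q.1, (hr'.tl w hw u q.1 q.2).1, ?_⟩, ?_⟩
        · rw [← eΓ'] at g'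
          exact (g'.mono inter_subset_left Sy.Ref.refl le_rfl).toU u'' z'
        · have := Pm.LV_mono (P := P) (m := m) (card_le_card s) (le_refl n1) (hν.trans z1)
          have := h.sum
          linarith
      rw [← eΓ'] at e cA
      have gA' : Giant v''.H A' := sm.h ▸ gA
      rcases e with e | e | e | e
      · exact eq2 hP R ih hb (by omega) a'' hX' hd gA' cA e
      · exact s2_kill hP R ih hb (by omega) a'' hX' hd gA' cA (by omega) e
      · exact s2_john hP R ih hb (by omega) a'' hX' hd gA' cA e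
      · exact s2_big hP R ih hb (by omega) a'' hX' hd cA le_rfl u'' z' e
    · obtain ⟨t, g⟩ := hr.tl w (mo.x hw) u hu q
      rcases un _ (cs u hu) (oc u hu) with k | d
      · exact absurd (k ▸ Sy.mem_cls.2 (Sy.E1.refl (iO.1 hu))) n
      · exact ENDx.drop h a a'' (mo.trans mo') hu t g
          ((orb_mono a'.inv mo'.h (mo.d (hD hu))).trans (os u hu)) (cs u hu) d

end Pool.Agent.P.MP_f1a348_lc.GX
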