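import Pool.Agent.P.MP_f1a348_lc.GY.DefsV
import Pool.Agent.P.MP_f1a348_lc.GX.TSYS
import Pool.Agent.P.MP_f1a348_lc.GX.TGOOD
import Pool.Agent.P.MP_f1a348_lc.GX.THH
import Pool.Agent.P.MP_f1a348_lc.GY.TLV
import Pool.Agent.P.MP_f1a348_lc.GY.TVORB
import Pool.Agent.P.MP_f1a348_lc.GY.TVGOOD
import Pool.Agent.P.MP_f1a348_lc.GY.TZG
import Pool.Agent.P.MP_f1a348_lc.GY.TVALG
import Pool.Agent.P.MP_f1a348_lc.GY.TVCH
import Pool.Agent.P.MP_f1a348_lc.GY.TVSHR
import Pool.Agent.P.MP_f1a348_lc.GY.TVARI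
import Pool.Agent.P.MP_f1a348_lc.GY.TVS1B
import Pool.Agent.P.MP_f1a348_lc.GY.TVS2

/-! Step VGI. -/

set_option autoImplicit false
set_option linter.unusedSectionVars false

namespace Pool.Agent.P.MP_f1a348_lc.GX

open Equiv Finset MulAction
open scoped Classical
variable {G Y : Type} [Group G] [MulAction G Y] [DecidableEq Y] {P : Pm} {H H' K K' : Subgroup G}
  {D D' : Finset Y} {Γ Γ' : Sy Y} {v v' : Vw G Y} {W : ℕ → Vw G Y → Prop}
  {U1 U2 U1' U2' Fo Fo' : Finset Y → Prop}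

/- As landed. Second premise: Hd and Hr for v' and O' with Q = E2 w0 u0, Z = A. Third premise: Pt.emb with x = sqrt o, y = 1, ari_lc. -/
theorem gi (hP : P.Ok) (R : Rules P W) {n φ c m : ℕ} {Φ Φ' n1 n2 : ℝ} (ih : IH P W n)
    (hb : Bud P n φ Φ) (hc : c ≤ 2 * P.g) (a : v.Ok P) (hX : v.X.Nonempty) {A : Finset Y}
    (h : v.Hd P A m n1 n2 Φ' Φ) (hg : Giant v.H A) (h2 : 2 ≤ A.card) {w0 u0 : Y} (hw : w0 ∈ v.D)
    (hu : u0 ∈ A) (hr : v.Hr P (v.Γ.E2 w0 u0) A m n2 Φ') (hF : v.F2 A) : W (φ - c) v := by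
  have hgu := Pm.g_le (P := P)
  obtain ⟨p1, p2, p0, -⟩ := h.nonneg hX
  have hs := h.sum
  have l1 := one_le_lg h2
  have l2 : 2 ^ 15 * lg A.card ≤ P.LV A.card m n1 n2 := by
    have := Pm.LV_ge (P := P) (a := A.card) (m := m) p1 p2
    have : 0 ≤ lg m * (n1 + n2) / (P.lam + 1) :=
      div_nonneg (mul_nonneg (lg_nonneg _) (add_nonneg p1 p2)) (by positivity)
    linarith
  have fuel : c + P.g * 2 + P.cst A.card ≤ φ :=
    hb.cost (by linarith) (ari_cst (c := c + P.g * 2) (by omega) h2)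
  have hAD : A ⊆ v.D := h.o.2.1
  have hI := h.o.inv a
  have one : ((c + P.g * 2 : ℕ) : ℝ) ≤ P.unit * (1 : ℝ) := by
    rw [mul_one]; exact_mod_cast (by omega : c + P.g * 2 ≤ P.unit)
  refine R.giant (φ - c) v A w0 u0 a h.o hg hw hu hr.ex (fun w hw u hu e => ?_) (by omega)
    (fun v' a' mo q => ?_) (fun v' O a' mo hO o q alt => ?_) (fun v' o a' mo o1 o2 q => ?_)
  · obtain ⟨k, _, d⟩ := (hr.tl w hw u hu e).1
    exact d.2 u (List.mem_cons_self ..)
  · rw [Nat.sub_sub]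
    refine ih.use hb le_rfl one (by omega) a' fun w hw => ?_
    obtain ⟨u, hu, e, l⟩ := q w hw
    obtain ⟨t, g⟩ := hr.tl w (mo.x hw) u hu e
    have := Pm.LV_34 (P := P) (m := m) (n1 := n1) (n2 := n2)
      (card_pos.2 ⟨u, self_mem_orb (H := v'.H) (mo.d (hAD hu))⟩) l
    refine (h.pt a a' mo hu t g le_rfl (card_le_card (orb_sub (hI.mono mo.h) hu))).mono a' a'
      Vw.Mono.refl ?_
    unfold Vw.o at *
    linarith
  · rcases v'.X.eq_empty_or_nonempty with hX' | hX'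
    · exact R.leaf _ v' a' (by rw [hX']; exact fun _ _ _ hx => absurd hx (notMem_empty _))
    rw [Nat.sub_sub]
    have hr' := hr.mono a a' mo hAD hO q
    have hd : v'.Hd P O m n1 n2 Φ' Φ := ⟨o, (card_le_card hO).trans h.am, h.n,
      h.g1.mono hO (mo.ref1 a a') le_rfl mo.u1, fun w hw =>
        let ⟨u, hu, e⟩ := q w hw
        ⟨u, hu, hr'.tl w hw u hu e⟩,
      by
        have := Pm.LV_mono (P := P) (m := m) (card_le_card hO) (le_refl n1) (le_refl n2)
        linarith⟩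
    rcases le_or_gt O.card 1 with c1 | c1
    · refine ih.use hb le_rfl one (by omega) a' fun w hw => ?_
      obtain ⟨u, hu, t, _⟩ := hd.tl w hw
      exact (t.kill fun g hg => card_le_one.1 c1 _ (o.inv a' g hg u hu) _ hu).mono a' a'
        Vw.Mono.refl (by linarith)
    rcases alt with s | ⟨s0, s1, s2', s3⟩
    · refine s1_kill hP R ih hb (by omega) a' hX' hd c1 ⟨O, a'.cls_iff.2 o, le_rfl,
        Or.inl (s.le.trans (Nat.le_add_right _ _)), fun z hz z' _ e => ?_⟩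
      exact ((e z hz).eq_iff.1 rfl).symm
    · exact s2 hP R ih hb (by omega) a' hX' hd hr' s1 s2'
        (le_trans (by unfold Pm.tau Pm.t; omega) s0) (mo.f2 A hF) hO h.am s3
  · rw [Nat.sub_sub, Nat.sub_sub, ← add_assoc]
    obtain ⟨l3, l4⟩ := ari_lc (P := P) (c := c + P.g * 2) (by omega) o1
    have : P.cst o ≤ P.cst A.card := by
      unfold Pm.cst
      exact Nat.add_le_add_left (Nat.mul_le_mul_left _ (bl_mono o2)) _
    refine ih.use hb l3 l4 (by omega) a' fun w hw => ?_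
    have := Vw.Pt.emb (Φ := Φ) (y := 1) a a' mo (fun w hw => by
      obtain ⟨u, hu, t, g⟩ := h.tl w hw
      exact (h.pt a a Vw.Mono.refl hu t g (h.o.2.2 u hu ▸ le_rfl) le_rfl).mono a a Vw.Mono.refl hs)
      (Nat.sqrt_pos.2 (lt_of_lt_of_le (by unfold Pm.tau Pm.t; omega) o1)) hw
      (by rw [mul_one]; exact q w hw)
    rwa [show lg 1 = 0 by simp [lg], sub_zero] at this

end Pool.Agent.P.MP_f1a348_lc.GX
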