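import Pool.Agent.P.MP_f1a348_lc.GY.DefsV
import Pool.Agent.P.MP_f1a348_lc.GX.TSYS
import Pool.Agent.P.MP_f1a348_lc.GX.TGOOD
import Pool.Agent.P.MP_f1a348_lc.GY.TVORB
import Pool.Agent.P.MP_f1a348_lc.GY.TVGOOD
import Pool.Agent.P.MP_f1a348_lc.GY.TZG
import Pool.Agent.P.MP_f1a348_lc.GY.TVALG
import Pool.Agent.P.MP_f1a348_lc.GY.TVCH

/-! Step VUNI. -/

set_option autoImplicit false
set_option linter.unusedSectionVars false

namespace Pool.Agent.P.MP_f1a348_lc.GX

open Equiv Finset MulAction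
open scoped Classical
variable {G Y : Type} [Group G] [MulAction G Y] [DecidableEq Y] {P : Pm} {H H' K K' : Subgroup G}
  {D D' : Finset Y} {Γ Γ' : Sy Y} {v v' : Vw G Y} {W : ℕ → Vw G Y → Prop}
  {U1 U2 U1' U2' Fo Fo' : Finset Y → Prop}

namespace VUNIx

theorem fix_insert (H : Subgroup G) (z : Y) (pre : Finset Y) :
    H ⊓ fixF G pre ⊓ stabilizer G z = H ⊓ fixF G (insert z pre) := by
  ext g
  simp only [Subgroup.mem_inf, mem_fixF, mem_stabilizer_iff, mem_insert, forall_eq_or_imp]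
  tauto

theorem fix_single (H : Subgroup G) (z : Y) :
    H ⊓ fixF G {z} = H ⊓ stabilizer G z := by
  ext g
  simp only [Subgroup.mem_inf, mem_fixF, mem_stabilizer_iff, mem_singleton, forall_eq]

theorem conj_mem {pre : Finset Y} {f : Y → Y} {h κ : G} (hh : h ∈ H)
    (e : ∀ x ∈ pre, f x = h • x) (hκ : κ ∈ H ⊓ fixF G pre) :
    h * κ * h⁻¹ ∈ H ⊓ fixF G (pre.image f) := by
  refine ⟨H.mul_mem (H.mul_mem hh hκ.1) (H.inv_mem hh), mem_fixF.2 fun p hp => ?_⟩
  obtain ⟨x, hx, rfl⟩ := mem_image.1 hp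
  rw [e x hx, mul_smul, mul_smul, inv_smul_smul, mem_fixF.1 hκ.2 x hx]

theorem conj_mem' {pre : Finset Y} {f : Y → Y} {h κ : G} (hh : h ∈ H)
    (e : ∀ x ∈ pre, f x = h • x) (hκ : κ ∈ H ⊓ fixF G (pre.image f)) :
    h⁻¹ * κ * h ∈ H ⊓ fixF G pre := by
  refine ⟨H.mul_mem (H.mul_mem (H.inv_mem hh) hκ.1) hh, mem_fixF.2 fun p hp => ?_⟩
  rw [mul_smul, mul_smul, ← e p hp, mem_fixF.1 hκ.2 _ (mem_image_of_mem f hp), e p hp,
    inv_smul_smul]

theorem key (a : v.Ok P) (ol : v.OL P) {pre : Finset Y} {z y : Y} {g : Perm Y}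
    (hp : pre ⊆ v.D) (hz : z ∈ v.D) (hc : pre.card + 2 ≤ P.mm)
    (hL : v.Γ.L (insert y (insert z pre)) g)
    (hy : y ∈ orb (v.H ⊓ fixF G pre) v.D z ∩ v.Γ.cls z) :
    g y ∈ orb (v.H ⊓ fixF G (pre.image g)) v.D (g z) ∩ v.Γ.cls (g z) := by
  obtain ⟨hy1, hy2⟩ := mem_inter.1 hy
  obtain ⟨hyD, κ, hκ, hκz⟩ := mem_orb.1 hy1
  obtain ⟨h', hh', e⟩ := ol _ (insert_subset hyD (insert_subset hz hp)) (by
    have := card_insert_le y (insert z pre)
    have := card_insert_le z pre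
    omega) g hL
  have ey : g y = h' • y := e y (by simp)
  have ez : g z = h' • z := e z (by simp)
  refine mem_inter.2 ⟨mem_orb.2 ⟨ey ▸ a.inv _ hh' _ hyD, h' * κ * h'⁻¹,
    conj_mem hh' (fun x hx => e x (by simp [hx])) hκ, ?_⟩, Sy.mem_cls.2 ?_⟩
  · rw [ey, ez, mul_smul, mul_smul, inv_smul_smul, hκz]
  · exact (Sy.e1_of_L hL (a := z) (by simp)).symm.trans
      ((Sy.mem_cls.1 hy2).trans (Sy.e1_of_L hL (a := y) (by simp)))

theorem ch_cons {z : Y} {k : List Y} {Φ : ℝ} : Ch P D Γ U1 U2 K (z :: k) Φ ↔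
    z ∈ D ∧ ∃ (m : ℕ) (n1 n2 : ℝ), (orb K D z).card ≤ m ∧ m ≤ P.N1 ∧
      (sys1 P.M K D).GoodU U1 P.N1 m (orb K D z) n1 ∧
      Γ.GoodU U2 P.N1 m (orb K D z ∩ Γ.cls z) n2 ∧
      Ch P D Γ U1 U2 (K ⊓ stabilizer G z) k (Φ - P.LV (orb K D z).card m n1 n2) := by
  rw [Ch]

theorem ch_nil {Φ : ℝ} : Ch P D Γ U1 U2 K [] Φ ↔ 0 ≤ Φ := by
  rw [Ch]

theorem good_emb {N1 m : ℕ} {F : Finset Y} {ν : ℝ} (h : Γ.GoodU U1 N1 m F ν) (hF : F ⊆ Γ.D)
    {e : Y → Y} (he : Γ.RefE Γ' e) (f : ∀ Z, U1 Z → ∀ x ∈ Z, e x ∈ Z) :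
    Γ'.GoodU U1 N1 m (F.image e) ν := by
  have o : ∀ O : Finset Y, (∃ Z, U1 Z ∧ Z.card ≤ m ∧ O ⊆ Z) →
      ∃ Z, U1 Z ∧ Z.card ≤ m ∧ O.image e ⊆ Z := fun O ⟨Z, z1, z2, z3⟩ =>
    ⟨Z, z1, z2, fun x hx => by
      obtain ⟨y, hy, rfl⟩ := mem_image.1 hx
      exact f Z z1 y (z3 hy)⟩
  first
    | exact Sy.GoodP.emb h hF he o
    | exact Sy.GoodP.emb h hF he fun O _ => o O

end VUNIx

open VUNIx

/- Induction on k, moving the head into pre. f agrees with some h in H on pre and k (OL). Orbit systems: Good.emb with h • ·. For Γ: Good.move with A = insert z pre; if g extends f to y in D then g agrees with some h' in H there, and y = κ z gives g y = (h' κ h'⁻¹) (f z); for the converse use the inverse of g. -/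
theorem Ch.move (hP : P.Ok) (a : v.Ok P) (ol : v.OL P) {k : List Y} {pre : Finset Y} {Φ : ℝ}
    (h : Ch P v.D v.Γ v.U1 v.F2 (v.H ⊓ fixF G pre) k Φ) (hp : pre ⊆ v.D)
    (hl : pre.card + k.length + 1 ≤ P.mm) {f : Perm Y} (hf : v.Γ.L (pre ∪ k.toFinset) f) :
    Ch P v.D v.Γ v.U1 v.F2 (v.H ⊓ fixF G (pre.image f)) (k.map f) Φ := by
  induction k generalizing pre Φ with
  | nil => exact ch_nil.2 (ch_nil.1 h)
  | cons z k ih =>
    have hmem := Ch.mem h
    obtain ⟨hz, m, n1, n2, hm, hN, g1, g2, hT⟩ := ch_cons.1 h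
    have hI : InvF (v.H ⊓ fixF G pre) v.D := a.inv.mono inf_le_left
    have hI' : InvF (v.H ⊓ fixF G (pre.image f)) v.D := a.inv.mono inf_le_left
    rw [List.length_cons] at hl
    obtain ⟨h0, hh0, e0⟩ := ol _ (union_subset hp fun x hx => hmem x (List.mem_toFinset.1 hx)) (by
      have := card_union_le pre (z :: k).toFinset
      have := List.toFinset_card_le (z :: k)
      rw [List.length_cons] at this
      omega) f hf
    have ep : ∀ x ∈ pre, f x = h0 • x := fun x hx => e0 x (mem_union_left _ hx)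
    have ez : f z = h0 • z := e0 z (mem_union_right _ (by simp))
    have hfz : f z ∈ v.D := by rw [ez]; exact a.inv _ hh0 _ hz
    have ho : orb (v.H ⊓ fixF G (pre.image f)) v.D (f z) =
        (orb (v.H ⊓ fixF G pre) v.D z).image (fun x => h0 • x) := by
      ext y
      rw [mem_image, mem_orb]
      constructor
      · rintro ⟨hy, κ, hκ, rfl⟩
        refine ⟨(h0⁻¹ * κ * h0) • z, mem_orb.2 ⟨hI _ (conj_mem' hh0 ep hκ) _ hz, _,
          conj_mem' hh0 ep hκ, rfl⟩, ?_⟩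
        rw [mul_smul, mul_smul, smul_inv_smul, ez]
      · rintro ⟨x, hx, rfl⟩
        obtain ⟨hx, κ, hκ, rfl⟩ := mem_orb.1 hx
        refine ⟨a.inv _ hh0 _ hx, h0 * κ * h0⁻¹, conj_mem hh0 ep hκ, ?_⟩
        rw [ez, mul_smul, mul_smul, inv_smul_smul]
    have hc : (orb (v.H ⊓ fixF G (pre.image f)) v.D (f z)).card =
        (orb (v.H ⊓ fixF G pre) v.D z).card := by
      rw [ho, card_image_of_injective _ (MulAction.injective h0)]
    have hsub : insert z pre ⊆ pre ∪ (z :: k).toFinset := by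
      intro x hx
      rcases mem_insert.1 hx with rfl | hx
      · exact mem_union_right _ (by simp)
      · exact mem_union_left _ hx
    rw [List.map_cons, ch_cons]
    refine ⟨hfz, m, n1, n2, by rw [hc]; exact hm, hN, ?_, ?_, ?_⟩
    · rw [ho]
      refine good_emb g1 (by rw [sys1_D _ hI]; exact filter_subset _ _)
        ⟨(MulAction.injective h0).injOn, fun x hx => ?_, fun x hx y hy x' y' e => ?_⟩
        fun Z hZ x hx => hZ.2 _ hh0 x hx
      · rw [sys1_D _ hI] at hx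
        rw [sys1_D _ hI']
        exact a.inv _ hh0 _ hx
      · rw [sys1_D _ hI] at hx hy
        obtain ⟨-, -, κ, hκ, rfl, rfl⟩ := (sys1_E2 _ hI').1 e
        refine ⟨(h0⁻¹ * κ * h0) • x, (h0⁻¹ * κ * h0) • y, ?_, ?_,
          (sys1_E2 _ hI).2 ⟨hx, hy, _, conj_mem' hh0 ep hκ, rfl, rfl⟩⟩
        · rw [mul_smul, mul_smul, smul_inv_smul]
        · rw [mul_smul, mul_smul, smul_inv_smul]
    · refine Sy.GoodP.move (A := insert z pre) (f := f) g2 (v.Γ.loc hf hsub fun _ _ => rfl) (by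
        have := card_insert_le z pre
        have := hP.m2
        rw [a.lev]
        omega) (inter_subset_right.trans (filter_subset _ _))
        (inter_subset_right.trans (filter_subset _ _)) fun y _ g hg hL => ?_
      have i1 : pre.image g = pre.image f :=
        image_congr fun x hx => hg x (mem_insert_of_mem (mem_coe.1 hx))
      have i2 : g z = f z := hg z (mem_insert_self _ _)
      constructor
      · intro hy
        have := key a ol hp hz (by omega) hL hy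
        rwa [i1, i2] at this
      · intro hy
        rw [← i1, ← i2] at hy
        have hL' := v.Γ.inv hL
        rw [image_insert, image_insert] at hL'
        have := key a ol (pre := pre.image g) (by
          rw [i1]
          intro x hx
          obtain ⟨x0, hx0, rfl⟩ := mem_image.1 hx
          rw [ep x0 hx0]
          exact a.inv _ hh0 _ (hp hx0)) (by rw [i2]; exact hfz) (by
          have := card_image_le (s := pre) (f := g)
          omega) hL' hy
        have i3 : (pre.image g).image (g⁻¹ : Perm Y) = pre := by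
          rw [image_image]
          simp [Function.comp_def]
        have i4 : ∀ x, (g⁻¹ : Perm Y) (g x) = x := fun x => by simp
        rwa [i3, i4, i4] at this
    · rw [fix_insert] at hT ⊢
      rw [hc, ← image_insert]
      refine ih hT (insert_subset hz hp) (by
        have := card_insert_le z pre
        omega) (v.Γ.loc hf (union_subset hsub fun x hx => mem_union_right _ ?_) fun _ _ => rfl)
      rw [List.toFinset_cons]
      exact mem_insert_of_mem hx

/- extend the local map to k (ext_set) -/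
theorem Vw.tl_move (hP : P.Ok) (a : v.Ok P) (ol : v.OL P) {w0 u0 w u : Y} {k : List Y} {Φ : ℝ}
    (hw : w0 ∈ v.D) (hu : u0 ∈ v.D)
    (h : Ch P v.D v.Γ v.U1 v.F2 (v.H ⊓ stabilizer G u0) k Φ)
    (hd : v.Det P w0 (u0 :: k)) (hl : k.length + 2 ≤ P.mm) (e : v.Γ.E2 w0 u0 w u) :
    v.Tl P w u Φ ∧ u ∈ v.o u0 := by
  obtain ⟨f, hf, e1, e2⟩ := e
  have hk : k.toFinset ⊆ v.D := fun x hx => Ch.mem h x (List.mem_toFinset.1 hx)
  have hc : (({w0, u0} : Finset Y) ∪ k.toFinset).card ≤ P.mm := by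
    have := card_union_le ({w0, u0} : Finset Y) k.toFinset
    have := List.toFinset_card_le k
    have := card_le_two (a := w0) (b := u0)
    omega
  obtain ⟨g, g1, g2⟩ := Sy.ext_set hf (hk.trans a.dd) (by
    have := hP.m2
    rw [a.lev]
    omega)
  obtain ⟨h', hh', e'⟩ := ol _ (union_subset (by simp [insert_subset_iff, hw, hu]) hk) hc g g2
  have ew : w = h' • w0 := by rw [← e1, ← g1 w0 (by simp), e' w0 (by simp)]
  have gu : g u0 = u := by rw [← e2, g1 u0 (by simp)]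
  have eu : u = h' • u0 := by rw [← gu, e' u0 (by simp)]
  have ek : ∀ x ∈ (u0 :: k).toFinset, g x = h' • x := by
    intro x hx
    refine e' x ?_
    rw [List.toFinset_cons] at hx
    rcases mem_insert.1 hx with rfl | hx
    · simp
    · exact mem_union_right _ hx
  rw [← fix_single] at h
  have h2 := Ch.move hP a ol h (by simpa using hu) (by rw [card_singleton]; omega)
    (v.Γ.loc g2 (union_subset_union_left (by simp)) fun _ _ => rfl)
  rw [image_singleton, gu, fix_single] at h2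
  refine ⟨⟨k.map g, h2, fun κ hκ => ?_, fun z hz => ?_⟩,
    mem_orb.2 ⟨eu ▸ a.inv _ hh' _ hu, h', hh', eu.symm⟩⟩
  · have i1 : (u :: k.map g).toFinset = (u0 :: k).toFinset.image g := by
      rw [← gu, ← List.map_cons]
      ext x
      simp only [List.mem_toFinset, List.mem_map, mem_image]
    rw [i1] at hκ
    have := mem_stabilizer_iff.1 (hd.1 (conj_mem' hh' ek hκ))
    rw [mem_stabilizer_iff, ew]
    rw [mul_smul, mul_smul, inv_smul_eq_iff] at this
    exact this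
  · rw [← gu, ← List.map_cons] at hz
    obtain ⟨z0, hz0, rfl⟩ := List.mem_map.1 hz
    rw [ek z0 (List.mem_toFinset.2 hz0), ew]
    exact (hd.2 z0 hz0).smul hh'

/- Take w0 in X and Ch.trim. If the list is empty the group fixes w0, and X lies in the orbit of w0 (OL). -/
theorem Vw.uni_head (hP : P.Ok) (a : v.Ok P) (ol : v.OL P)
    (c : ∀ w ∈ v.X, ∀ w' ∈ v.X, v.Γ.E1 w w') {Φ : ℝ} (hΦ : Φ + 2 ≤ P.mm)
    (h : ∀ w ∈ v.X, v.Pt P w Φ) :
    InvF v.H v.X ∨ ∃ w0 ∈ v.X, ∃ u0 ∈ v.D, ∃ (m : ℕ) (n1 n2 Φ' : ℝ), 2 ≤ (v.o u0).card ∧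
      v.Hd P (v.o u0) m n1 n2 Φ' Φ ∧ v.Γ.GoodU v.F2 P.N1 m (v.o u0 ∩ v.Γ.cls u0) n2 ∧
      (∀ w ∈ v.X, ∃ u ∈ v.o u0, v.Γ.E2 w0 u0 w u) ∧
      ∀ w u, v.Γ.E2 w0 u0 w u → v.Tl P w u Φ' := by
  rcases v.X.eq_empty_or_nonempty with hX | ⟨w0, hw0⟩
  · left
    intro g _ x hx
    rw [hX] at hx
    exact absurd hx (notMem_empty x)
  obtain ⟨k0, hk0, hd0⟩ := h w0 hw0
  obtain ⟨k, hs, hk, he, hl, hcase⟩ := hk0.trim a.inv
  have hd : v.Det P w0 k := ⟨he ▸ hd0.1, fun z hz => hd0.2 z (hs.subset hz)⟩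
  rcases hcase with rfl | ⟨u0, k', rfl, h2⟩
  · left
    have hfix : ∀ g ∈ v.H, g • w0 = w0 := fun g hg =>
      mem_stabilizer_iff.1 (hd.1 ⟨hg, mem_fixF.2 (by simp)⟩)
    intro g hg x hx
    obtain ⟨f, hf, e⟩ := c w0 hw0 x hx
    obtain ⟨h', hh', e'⟩ := ol _ (by simpa using a.xd hw0) (by
      have := hP.m3
      rw [card_singleton]
      omega) f hf
    have : x = w0 := by rw [← e, e' w0 (by simp), hfix _ hh']
    rw [this, hfix g hg]
    exact hw0
  · right
    obtain ⟨hu0, m, n1, n2, hm, hN, g1, g2, hT⟩ := ch_cons.1 hk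
    have hl' : k'.length + 2 ≤ P.mm := by
      rw [List.length_cons] at hl
      push_cast at hl
      have : (k'.length : ℝ) + 2 ≤ P.mm := by linarith
      exact_mod_cast this
    have hM : 2 ≤ v.Γ.M := by
      have := hP.m2
      rw [a.lev]
      omega
    have T := fun w u (e : v.Γ.E2 w0 u0 w u) =>
      Vw.tl_move hP a ol (a.xd hw0) hu0 hT hd hl' e
    have U : ∀ w ∈ v.X, ∃ u ∈ v.o u0, v.Γ.E2 w0 u0 w u := by
      intro w hw
      obtain ⟨u, e⟩ := (c w0 hw0 w hw).ext2 hM (a.dd hu0)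
      exact ⟨u, (T w u e).2, e⟩
    refine ⟨w0, hw0, u0, hu0, m, n1, n2, _, h2, ⟨a.isO hu0, hm, hN, g1, fun w hw => ?_, ?_⟩, g2, U,
      fun w u e => (T w u e).1⟩
    · obtain ⟨u, hu, e⟩ := U w hw
      refine ⟨u, hu, (T w u e).1, ?_⟩
      rw [← (Sy.cls_cls (a.dd hu0)).eq_cls (Sy.mem_cls.2 e.snd)]
      exact g2
    · unfold Vw.o
      linarith

end Pool.Agent.P.MP_f1a348_lc.GX
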