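import Pool.Agent.P.MP_f1a348_lc.GY.DefsV
import Pool.Agent.P.MP_f1a348_lc.GX.TSYS
import Pool.Agent.P.MP_f1a348_lc.GX.TGOOD
import Pool.Agent.P.MP_f1a348_lc.GX.THH
import Pool.Agent.P.MP_f1a348_lc.GY.TLV
import Pool.Agent.P.MP_f1a348_lc.GX.TJOH
import Pool.Agent.P.MP_f1a348_lc.GX.TWIEL
import Pool.Agent.P.MP_f1a348_lc.GY.TVORB
import Pool.Agent.P.MP_f1a348_lc.GY.TVCH
import Pool.Agent.P.MP_f1a348_lc.GY.TVUNI
import Pool.Agent.P.MP_f1a348_lc.GY.TVARI
import Pool.Agent.P.MP_f1a348_lc.GY.TVS1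
import Pool.Agent.P.MP_f1a348_lc.GY.TVGI

/-! Step VMAIN. -/

set_option autoImplicit false
set_option linter.unusedSectionVars false

namespace Pool.Agent.P.MP_f1a348_lc.GX

open Equiv Finset MulAction
open scoped Classical
variable {G Y : Type} [Group G] [MulAction G Y] [DecidableEq Y] {P : Pm} {H H' K K' : Subgroup G}
  {D D' : Finset Y} {Γ Γ' : Sy Y} {v v' : Vw G Y} {W : ℕ → Vw G Y → Prop}
  {U1 U2 U1' U2' Fo Fo' : Finset Y → Prop}

/- Induction on n. Empty X: leaf. Rule uni, uni_head, rule mark w0 u0 (Same keeps Hd). If t0 ≤ a and Tr A (ta a): wielandt with L = clog 2 a, gi. Else s1. -/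
theorem game (hP : P.Ok) (R : Rules P W) (n : ℕ) : IH P W n := by
  have leaf0 : ∀ φ (v : Vw G Y), v.Ok P → ¬ v.X.Nonempty → W φ v := fun φ v a h =>
    R.leaf φ v a fun _ _ x hx => absurd ⟨x, hx⟩ h
  induction n with
  | zero =>
    intro φ v Φ a h1 _ _ h
    refine leaf0 φ v a fun ⟨w, hw⟩ => ?_
    obtain ⟨k, hk, -⟩ := h w hw
    exact absurd hk.nonneg (not_le.2 (by simpa using h1))
  | succ n ih =>
    intro φ v Φ a h1 h2 h3 h
    have hb : Bud P n φ Φ := ⟨by simpa using h1, h2, h3⟩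
    by_cases hX : v.X.Nonempty
    swap
    · exact leaf0 φ v a hX
    have h0 : 0 ≤ Φ := by
      obtain ⟨w, hw⟩ := hX
      obtain ⟨k, hk, -⟩ := h w hw
      exact hk.nonneg
    have hg := Pm.g_le (P := P)
    have pay : P.g + P.g ≤ φ := hb.cost (γ := 1) (by linarith) (by
      rw [mul_one]
      exact_mod_cast (by omega : P.g + P.g ≤ P.unit))
    refine R.uni φ v a (by omega) fun v' a' m ol c => ?_
    obtain hi | ⟨w0, hw0, u0, hu0, k, n1, n2, Φ', c2, hd, g2, e1, e2⟩ :=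
      Vw.uni_head hP a' ol c h2 fun w hw => (h w (m.x hw)).mono a a' m le_rfl
    · exact R.leaf _ v' a' hi
    refine R.mark _ v' w0 u0 a' (a'.xd hw0) hu0 (by omega) fun v'' a'' s fr f1 f2 => ?_
    rw [Nat.sub_sub]
    by_cases hX' : v''.X.Nonempty
    swap
    · exact leaf0 _ v'' a'' hX'
    have hr : v''.Hr P (v''.Γ.E2 w0 u0) (v'.o u0) k n2 Φ' := by
      refine ⟨s.g ▸ fr, fun w hw => s.g ▸ e1 w (s.mono.x hw), fun w hw u hu e => ?_⟩
      rw [s.g] at e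
      refine ⟨(e2 w u e).mono a' a'' s.mono, g2.mono (fun y hy => ?_) s.mono.ref le_rfl s.mono.f2⟩
      rw [s.g] at hy
      exact mem_inter.2 ⟨(mem_inter.1 hy).1,
        Sy.mem_cls.2 (e.snd.trans (Sy.mem_cls.1 (mem_inter.1 hy).2))⟩
    have hd' : v''.Hd P (v'.o u0) k n1 n2 Φ' Φ :=
      ⟨s.isO hd.o, hd.am, hd.n, hd.g1.mono subset_rfl (s.mono.ref1 a' a'') le_rfl s.mono.u1,
        fun w hw => (hr.ex w hw).imp fun u q => ⟨q.1, hr.tl w hw u q.1 q.2⟩, hd.sum⟩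
    by_cases hT : P.t0 ≤ (v'.o u0).card ∧ (v''.Γ1 P).Tr (v'.o u0) (ta (v'.o u0).card)
    · have := a''.fin
      have ht := ta_le (P := P) (hd.am.trans (hd.n.trans hP.n1))
      have h4 : 4 * P.tau ≤ P.t0 := Nat.le_add_right _ _
      have h5 := hT.1
      have h6 : 100 * (Nat.clog 2 (v'.o u0).card + 1) + 1 ≤ ta (v'.o u0).card := by
        unfold ta; omega
      exact gi hP R ih hb (by omega) a'' hX' hd' (wielandt v''.H _ (hd'.o.inv a'')
        (Nat.le_pow_clog one_lt_two _) (by omega)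
        (sys1_mtr P.M a''.inv (hT.2.anti h6 (by omega)))) c2 (s.mono.d (a'.xd hw0))
        (self_mem_orb hu0) hr f2
    · exact s1 hP R ih hb (by omega) a'' hX' hd' hr c2 f1 hT

end Pool.Agent.P.MP_f1a348_lc.GX
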