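import Pool.Agent.P.MP_f1a348_lc.GY.DefsP
import Pool.Agent.P.MP_f1a348_lc.GX.LibInc
import Pool.Agent.P.MP_f1a348_lc.GY.LibF
import Pool.Agent.P.MP_f1a348_lc.GY.TPNUM
import Pool.Agent.P.MP_f1a348_lc.GY.TPSIZE
import Pool.Agent.P.MP_f1a348_lc.GY.TVMAIN

/-! Step PENG. -/

set_option autoImplicit false
set_option linter.unusedSectionVars false

namespace Pool.Agent.P.MP_f1a348_lc.GX

open Pool.Agent.Lib.Helper47 Pool.Agent.P.MP_f1a348_lc.GI Pool.Agent.P.MP_f1a348_lc.TO
variable {cx : Cx} {s s' s'' : Sta}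

namespace Part
variable {C F F' X T S A : Type}

/-- rename the frames that are called -/
def mapF (h : F → F') (P : Part C F X T S A) : Part C F' X T S A where
  todo := P.todo
  ini := P.ini
  call c x t s := (P.call c x t s).map (fun p => (p.1, h p.2))
  upd := P.upd
  fin := P.fin

variable {h : F → F'} {P : Part C F X T S A} {c : C} {x : X}

theorem mapF_call {t : T} {s : S} {b : Bool} {g : F'}
    (e : (P.mapF h).call c x t s = some (b, g)) : ∃ g0, P.call c x t s = some (b, g0) ∧ g = h g0 := by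
  obtain ⟨p, e1, e2⟩ := Option.map_eq_some_iff.1 e
  obtain ⟨rfl, rfl⟩ := Prod.mk.inj e2
  exact ⟨p.2, e1, rfl⟩

theorem mapF_snd {Pre : F' → Prop} {Post : F' → A → Prop} {R : A → Prop} {Pre0 : F → Prop}
    {Post0 : F → A → Prop} (H : P.Snd c Pre0 Post0 x R)
    (e : ∀ f, Pre0 f = Pre (h f) ∧ Post0 f = Post (h f)) : (P.mapF h).Snd c Pre Post x R := by
  obtain rfl : Pre0 = fun f => Pre (h f) := funext fun f => (e f).1
  obtain rfl : Post0 = fun f => Post (h f) := funext fun f => (e f).2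
  obtain ⟨I, h0, h1, h2, h3⟩ := H
  refine ⟨I, h0, fun u t v s e i n => h1 u t v s e i (Option.map_eq_none_iff.1 n),
    fun u t v s b g e i n => ?_, h3⟩
  obtain ⟨g0, e1, rfl⟩ := mapF_call n
  exact h2 u t v s b g0 e i e1

variable [Enc S]

theorem mapF_loc {B : ℕ} {e1 e2 : F' → Option A} {R : Option A → Prop}
    (H : P.Loc c B (fun f => e1 (h f)) (fun f => e2 (h f)) x R) :
    (P.mapF h).Loc c B e1 e2 x R := by
  obtain ⟨J, h0, h1, h2, h3⟩ := H
  refine ⟨J, h0, fun u t v b s e i n => h1 u t v b s e i (Option.map_eq_none_iff.1 n),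
    fun u t v b s fr g r e i n hr => ?_, h3⟩
  obtain ⟨g0, e1, rfl⟩ := mapF_call n
  exact h2 u t v b s fr g0 r e i e1 hr

theorem Loc.more {B B' : ℕ} {e1 e2 : F → Option A} {R : Option A → Prop}
    (H : P.Loc c B e1 e2 x R) (e : B ≤ B') : P.Loc c B' e1 e2 x R := by
  obtain ⟨J, h0, h1, h2, h3⟩ := H
  exact ⟨J, ⟨h0.1.trans e, h0.2⟩, h1, fun u t v b s fr g r a1 a2 a3 a4 =>
    (h2 u t v b s fr g r a1 a2 a3 a4).imp_left (·.trans e), h3⟩

variable [Enc C] [Enc F] [Enc F'] [Enc X] [Enc T] [Enc A]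

theorem Poly.mapF (H : P.Poly) (hh : PT h) : (P.mapF h).Poly := by
  refine ⟨H.todo, H.ini, ?_, H.upd, H.fin⟩
  have := H.call
  unfold Part.mapF
  fun_prop
end Part

theorem pt_sumMap {α β γ : Type} [Enc α] [Enc β] [Enc γ] {f : β → γ} (hf : PT f) :
    PT (Sum.map id f : α ⊕ β → α ⊕ γ) := by
  have : (Sum.map id f : α ⊕ β → α ⊕ γ) =
      fun x => Sum.elim (fun a => Sum.inl a) (fun b => Sum.inr (f b)) x := by
    funext x; cases x <;> rfl
  rw [this]
  fun_prop

namespace Mod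

/-- two modules side by side -/
def sum (m m' : Mod) : Mod where
  X := m.X ⊕ m'.X
  T := m.T ⊕ m'.T
  S := m.S ⊕ m'.S
  eX := inferInstance
  eT := inferInstance
  eS := inferInstance
  part := (m.part.mapF (Sum.map id .inl)).sum (m'.part.mapF (Sum.map id .inr))
  ent cx s := .inl (m.ent cx s)
  Pre cx := Sum.elim (m.Pre cx) (m'.Pre cx)
  Post cx := Sum.elim (m.Post cx) (m'.Post cx)

/-- the module without programs -/
noncomputable def nil : Mod where
  X := Unit
  T := Bool × (Sta ⊕ Unit)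
  S := Option Ans
  eX := inferInstance
  eT := inferInstance
  eS := inferInstance
  part := tryP (fun _ _ => none) (fun _ _ => [])
  ent _ _ := ()
  Pre _ _ := False
  Post _ _ _ := True

variable {m m' : Mod} {B B' : ℕ}

/-- the numbers of free calls of two modules -/
def sal (al : Cx → m.X → ℕ) (al' : Cx → m'.X → ℕ) (cx : Cx) : (m.sum m').X → ℕ :=
  Sum.elim (al cx) (al' cx)

variable {al : Cx → m.X → ℕ} {al' : Cx → m'.X → ℕ}

theorem EnvA.inl {E : ℕ → ℕ → Sta ⊕ (m.sum m').X → Option Ans}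
    (h : (m.sum m').EnvA (sal al al') cx B' E) (hB : 5 * B + 4 ≤ B') :
    m.EnvA al cx B (fun φ k f => E φ k (Sum.map id .inl f)) where
  snd φ k f a p e := by
    cases f with
    | inl s => exact h.snd φ k (.inl s) a p e
    | inr x => exact h.snd φ k (.inr (.inl x)) a p e
  halt φ k x R h1 h2 h3 h4 h5 := by
    let e : Part.Emb _ (m.sum m').part (0 + 4) := (Part.Emb.refl _).inl _
    have p : ((m.sum m').part.todo cx (e.f x)).length = (m.part.todo cx x).length := by
      rw [e.todo cx x, List.length_map]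
      rfl
    have a1 : size (e.f x) ≤ _ := e.sf x
    have a2 : _ ≤ (0 + 4 + 1) * size (m.part.todo cx x) := e.size_todo cx x
    refine h.halt φ k (e.f x) R h1 (by omega) (by omega) (p ▸ h4) ?_
    rw [p]
    exact (e.loc (Part.mapF_loc h5)).more (by omega)

theorem EnvA.inr {E : ℕ → ℕ → Sta ⊕ (m.sum m').X → Option Ans}
    (h : (m.sum m').EnvA (sal al al') cx B' E) (hB : 5 * B + 4 ≤ B') :
    m'.EnvA al' cx B (fun φ k f => E φ k (Sum.map id .inr f)) where
  snd φ k f a p e := by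
    cases f with
    | inl s => exact h.snd φ k (.inl s) a p e
    | inr x => exact h.snd φ k (.inr (.inr x)) a p e
  halt φ k x R h1 h2 h3 h4 h5 := by
    let e : Part.Emb _ (m.sum m').part (0 + 4) := (Part.Emb.refl _).inr _
    have p : ((m.sum m').part.todo cx (e.f x)).length = (m'.part.todo cx x).length := by
      rw [e.todo cx x, List.length_map]
      rfl
    have a1 : size (e.f x) ≤ _ := e.sf x
    have a2 : _ ≤ (0 + 4 + 1) * size (m'.part.todo cx x) := e.size_todo cx x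
    refine h.halt φ k (e.f x) R h1 (by omega) (by omega) (p ▸ h4) ?_
    rw [p]
    exact (e.loc (Part.mapF_loc h5)).more (by omega)

/-- the entry `e` realises the rule `R` -/
def At (m : Mod) (al : Cx → m.X → ℕ) (c : ℕ) (e : Cx → Sta → m.X) (R : Rule) : Prop :=
  ∀ cx B E, Cx.Ok cx → cx.pd ^ c ≤ B → m.EnvA al cx B E → ∀ φ φ' s, φ ≤ φ' → cx.WF0 s →
    cx.Sz s φ' → R cx.P (cx.Wn fun ψ s' => E ψ cx.mE (.inl s')) φ (cx.view s) →
    E φ' cx.mE (.inr (e cx s)) ≠ none

/-- the number of free calls of the heavy frames -/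
def hv (cx : Cx) : ℕ := 8 * (cx.big.length * cx.big.length)

theorem hv_eq (hc : cx.Ok) : hv cx = cx.mE := by
  rw [hv, hc.big, Cx.mE]; ring

theorem prc_mE (n : ℕ) : prc n cx.mE = n.bits.length + (2 * cx.lam + 4) + 1 := by
  have : (cx.mE + 1).bits.length = 2 * cx.lam + 4 := by
    have h1 : 2 ≤ cx.mE := Nat.le_self_pow (by omega) 2
    rw [Nat.size_eq_bits_len]
    refine le_antisymm (Nat.size_le.2 ?_) (Nat.lt_size.2 (Nat.le_succ _))
    rw [pow_succ]
    exact (by omega : cx.mE + 1 < cx.mE * 2)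
  rw [prc, this]

theorem EnvA.env {E : ℕ → ℕ → Sta ⊕ m.X → Option Ans} (hc : cx.Ok)
    (h : m.EnvA (fun cx _ => hv cx) cx B E) : m.Env cx B E where
  snd := h.snd
  halt φ k x R h1 h2 h3 h4 h5 := by
    refine h.halt φ k x R h1 h2 h3 ?_ ?_ <;> simp only [hv_eq hc, prc_mE]
    · exact h4
    · exact h5

theorem peng_b1 (hc : cx.Ok) : cx.b1 ≤ cx.pd := by
  simpa [Cx.b1] using hc.pow (k := 1) (Nat.pow_le_pow_right (by norm_num) (Nat.div_le_self _ _))
    (by have := hc.nums.2.2.2.2.2.1; omega)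

theorem peng_room (hc : cx.Ok) {c c' : ℕ} (h : c < c') (hB : cx.pd ^ c' ≤ B) :
    9 * cx.pd ^ c ≤ B ∧ 1 ≤ cx.pd ^ c := by
  have h1 : 9 ≤ cx.pd := le_trans (le_trans (by norm_num : 9 ≤ 2 ^ 32) hc.nums.2.2.2.1) (peng_b1 hc)
  refine ⟨le_trans ?_ ((Nat.pow_le_pow_right (by omega) h).trans hB), Nat.one_le_pow _ _ (by omega)⟩
  rw [pow_succ, mul_comm]
  exact Nat.mul_le_mul_left _ h1

theorem At.inl {c c' : ℕ} {e : Cx → Sta → m.X} {R : Rule} (h : m.At al c e R) (hc : c < c') :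
    (m.sum m').At (sal al al') c' (fun cx s => .inl (e cx s)) R :=
  fun cx B E a1 a2 a3 φ φ' s b1 b2 b3 b4 =>
  have := peng_room a1 hc a2
  h cx _ _ a1 le_rfl (a3.inl (by omega)) φ φ' s b1 b2 b3 b4

theorem At.inr {c c' : ℕ} {e : Cx → Sta → m'.X} {R : Rule} (h : m'.At al' c e R) (hc : c < c') :
    (m.sum m').At (sal al al') c' (fun cx s => .inr (e cx s)) R :=
  fun cx B E a1 a2 a3 φ φ' s b1 b2 b3 b4 =>
  have := peng_room a1 hc a2
  h cx _ _ a1 le_rfl (a3.inr (by omega)) φ φ' s b1 b2 b3 b4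

/-- a module with entries for the rules `Rs` -/
structure Pack (m : Mod) (al : Cx → m.X → ℕ) (es : List (Cx → Sta → m.X)) (c : ℕ)
    (Rs : List Rule) : Prop where
  part : m.part.Poly
  pal : PT (fun x : Cx × m.X => al x.1 x.2)
  snd : ∀ cx x, cx.Ok → m.Pre cx x → m.part.Snd cx (m.pre cx) (m.post cx) x (m.Post cx x)
  len : es.length = Rs.length
  pt : ∀ e ∈ es, PT (fun x : Cx × Sta => e x.1 x.2)
  sz : ∀ e ∈ es, ∀ cx s, size (e cx s) ≤ size s + 64 + 4 * es.length
  ent : ∀ e ∈ es, ∀ cx s, cx.Ok → cx.WF s →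
    m.Pre cx (e cx s) ∧ ∀ a, m.Post cx (e cx s) a → cx.Post s a
  win : ∀ R ∈ Rs, ∃ e ∈ es, m.At al c e R

theorem exists_pack (Rs : List Rule) (h : ∀ R ∈ Rs, HasModA R) :
    ∃ (m : Mod) (al : Cx → m.X → ℕ) (es : List (Cx → Sta → m.X)) (c : ℕ), m.Pack al es c Rs := by
  induction Rs with
  | nil => exact ⟨nil, fun _ _ => 0, [], 0, tryP_poly (PT.const _) (PT.const _), PT.const _,
      fun _ _ _ h => h.elim, rfl, by simp, by simp, by simp, by simp⟩
  | cons R Rs ih =>
    obtain ⟨m, al, h1, h0, h2, c, h3⟩ := h R (by simp)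
    obtain ⟨m', al', es, c', k⟩ := ih fun R hR => h R (by simp [hR])
    refine ⟨m.sum m', sal al al',
      (fun cx s => .inl (m.ent cx s)) :: es.map (fun e cx s => .inr (e cx s)),
      max c c' + 1, (h1.part.mapF (pt_sumMap (by fun_prop))).sum
        (k.part.mapF (pt_sumMap (by fun_prop))), ?_, ?_, by simp [k.len], ?_, ?_, ?_, ?_⟩
    · exact pt_sumElim (s := fun x : Cx × (m.X ⊕ m'.X) => x.2) (by fun_prop)
        (h0.comp (g := fun p : (Cx × (m.X ⊕ m'.X)) × m.X => (p.1.1, p.2)) (by fun_prop))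
        (k.pal.comp (g := fun p : (Cx × (m.X ⊕ m'.X)) × m'.X => (p.1.1, p.2)) (by fun_prop))
    · rintro cx (x | x) hc hp
      · exact ((Part.Emb.refl _).inl _).snd (Part.mapF_snd (h2.snd cx x hc hp) fun f => by
          cases f <;> exact ⟨rfl, rfl⟩)
      · exact ((Part.Emb.refl _).inr _).snd (Part.mapF_snd (k.snd cx x hc hp) fun f => by
          cases f <;> exact ⟨rfl, rfl⟩)
    · intro e he
      rcases List.mem_cons.1 he with rfl | he
      · have := h1.ent
        exact (by fun_prop : PT fun x : Cx × Sta => (.inl (m.ent x.1 x.2) : m.X ⊕ m'.X))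
      · obtain ⟨e, a, rfl⟩ := List.mem_map.1 he
        have := k.pt e a
        exact (by fun_prop : PT fun x : Cx × Sta => (.inr (e x.1 x.2) : m.X ⊕ m'.X))
    · intro e he cx s
      simp only [List.length_cons, List.length_map]
      rcases List.mem_cons.1 he with rfl | he
      · have := h1.sz cx s
        have := Part.size_inl (X' := m'.X) (m.ent cx s)
        exact this.trans_le (by omega)
      · obtain ⟨e, a, rfl⟩ := List.mem_map.1 he
        have := k.sz e a cx s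
        have := Part.size_inr (X := m.X) (e cx s)
        exact this.trans_le (by omega)
    · intro e he cx s hc hs
      rcases List.mem_cons.1 he with rfl | he
      · exact h2.ent cx s hc hs
      · obtain ⟨e, a, rfl⟩ := List.mem_map.1 he
        exact k.ent e a cx s hc hs
    · intro R' hR
      rcases List.mem_cons.1 hR with rfl | hR
      · exact ⟨_, List.mem_cons_self, At.inl h3 (by omega)⟩
      · obtain ⟨e, a, b⟩ := k.win R' hR
        exact ⟨_, List.mem_cons_of_mem _ (List.mem_map_of_mem a), b.inr (by omega)⟩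
end Mod

theorem HasMod.toA {R : Rule} (h : HasMod R) : HasModA R := by
  obtain ⟨m, h1, h2, c, h3⟩ := h
  exact ⟨m, fun cx _ => Mod.hv cx, h1, by unfold Mod.hv; fun_prop, h2, c,
    fun cx B E a1 a2 a3 => h3 cx B E a1 a2 (a3.env a1)⟩

/-- the test for `Maps` -/
noncomputable def mapsB (g : U) (X Y : List Tm) : Bool :=
  X.all (fun x => Y.contains (g • x)) && Y.all (fun y => X.contains (g⁻¹ • y))

theorem mapsB_iff {g : U} {X Y : List Tm} : mapsB g X Y = true ↔ Maps g X Y := by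
  simp only [mapsB, Bool.and_eq_true, List.all_eq_true, List.contains_iff_mem]
  exact ⟨fun h x => ⟨h.1 x, fun e => by simpa using h.2 _ e⟩,
    fun h => ⟨fun x => (h x).1, fun y e => (h _).2 (by simpa using e)⟩⟩

/-- the answer for a state whose active points are kept by the group -/
noncomputable def leafA (s : Sta) : Option Ans :=
  bif s.S.all (fun g => mapsB g s.X s.X) then some (bif mapsB s.σ s.X s.Y then some s.c else none)
  else none

theorem pt_leafA : PT leafA := by unfold leafA mapsB; fun_prop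

theorem leafA_post (h : cx.WF0 s) {a : Ans} (e : leafA s = some a) : cx.Post s a := by
  unfold leafA at e
  cases h1 : s.S.all (fun g => mapsB g s.X s.X) <;> rw [h1] at e
  · cases e
  have i : InvL (gen s.S) s.X :=
    inv_gen fun g hg a => (mapsB_iff.1 (List.all_eq_true.1 h1 g hg) a).symm
  have j : ∀ u ∈ gen s.S, ∀ x, u • x ∈ s.X ↔ x ∈ s.X := fun u hu x =>
    ⟨fun e => by simpa using i _ (inv_mem hu) _ e, i u hu x⟩
  have k : ∀ g ∈ cs (some s.c), Maps g s.X s.Y ↔ Maps s.σ s.X s.Y := fun g hg => by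
    have hu : s.σ⁻¹ * g ∈ gen s.S := mem_cs.1 hg
    refine ⟨fun m x => ?_, fun m x => ?_⟩
    · rw [← j _ (inv_mem hu) x, m, smul_smul]; simp
    · rw [← j _ hu x, m, smul_smul]; simp
  obtain rfl := Option.some.inj e
  cases h2 : mapsB s.σ s.X s.Y
  · refine ⟨fun g hg => ?_, by simp, by simp⟩
    have := s.tgt_sol hg
    rw [mapsB_iff.2 ((k g this.1).1 this.2)] at h2
    cases h2
  · exact ⟨fun g hg => (s.tgt_sol hg).1, fun g hg => ⟨hg, (k g hg).2 (mapsB_iff.1 h2)⟩, by
      rintro _ ⟨rfl⟩; exact h.len⟩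

theorem leafA_ne (h : InvF (cx.view s).H (cx.view s).X) : leafA s ≠ none := by
  have : s.S.all (fun g => mapsB g s.X s.X) = true := List.all_eq_true.2 fun g hg =>
    mapsB_iff.2 fun x => ⟨fun e => List.mem_toFinset.1 (h g (mem_gen hg) x (List.mem_toFinset.2 e)),
      fun e => by
        simpa [Cx.view] using h _ (inv_mem (mem_gen hg)) _ (List.mem_toFinset.2 e)⟩
  simp [leafA, this]

namespace Mod
variable (m : Mod) (al : Cx → m.X → ℕ) (es : List (Cx → Sta → m.X))

/-- the entries of the modules, if the structures are small -/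
def opts (cx : Cx) (s : Sta) : List (Bool × (Sta ⊕ m.X)) :=
  bif Nat.ble s.A.1.length cx.big.length && Nat.ble s.B.1.length cx.big.length then
    es.map (fun e => (false, .inr (e cx s))) else []

/-- the frames of states -/
noncomputable def solve : Part Cx (Sta ⊕ m.X) Sta (Bool × (Sta ⊕ m.X)) (Option Ans) Ans :=
  tryP (fun _ s => leafA s) (m.opts es)

/-- all frames -/
noncomputable def all := (m.solve es).sum m.part

/-- the engine -/
noncomputable def en : En Cx (Sta ⊕ m.X) ((Bool × (Sta ⊕ m.X)) ⊕ m.T) (Option Ans ⊕ m.S) Ans :=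
  ⟨m.all es, fun cx => Sum.elim (fun _ => hv cx) (al cx), fun _ => false, fun _ _ => 0⟩

/-- the outcome of a frame -/
noncomputable def out (cx : Cx) (B φ k : ℕ) (f : Sta ⊕ m.X) : Option Ans :=
  (m.en al es).ev (cx, B) φ k 1 f

/-- the program -/
noncomputable def run (x : List Unit × ℕ × Cx × Sta) : Option Ans :=
  (m.en al es).run (x.2.2.1, x.1.length / 8) x.1 (x.2.1 + (2 * x.2.2.1.ul.length + 9))
    (hv x.2.2.1) 1 (.inl x.2.2.2)

variable {m al es} {c B B' : ℕ} {Rs : List Rule}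

theorem mem_opts (hc : cx.Ok) (h : cx.WF0 s) {p : Bool × (Sta ⊕ m.X)} (hp : p ∈ m.opts es cx s) :
    cx.WF s ∧ ∃ e ∈ es, p = (false, .inr (e cx s)) := by
  unfold opts at hp
  cases h1 : Nat.ble s.A.1.length cx.big.length && Nat.ble s.B.1.length cx.big.length <;>
    rw [h1] at hp
  · cases hp
  · simp only [Bool.and_eq_true, Nat.ble_eq, hc.big] at h1
    obtain ⟨e, a, rfl⟩ := List.mem_map.1 hp
    exact ⟨⟨h, h1.1, h1.2⟩, e, a, rfl⟩

theorem opts_eq (hc : cx.Ok) (h : cx.WF s) :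
    m.opts es cx s = es.map (fun e => (false, .inr (e cx s))) := by
  have : (Nat.ble s.A.1.length cx.big.length && Nat.ble s.B.1.length cx.big.length) = true := by
    simp only [Bool.and_eq_true, Nat.ble_eq, hc.big]
    exact ⟨h.ca, h.cb⟩
  rw [opts, this, cond_true]

theorem pt_ents (h : ∀ e ∈ es, PT (fun x : Cx × Sta => e x.1 x.2)) : PT (fun x : Cx × Sta =>
    es.map (fun e => ((false, .inr (e x.1 x.2)) : Bool × (Sta ⊕ m.X)))) := by
  induction es with
  | nil => exact PT.const _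
  | cons e es ih =>
    have h1 := h e (by simp)
    have h2 := ih fun e he => h e (by simp [he])
    simp only [List.map_cons]
    fun_prop

theorem Pack.poly (h : m.Pack al es c Rs) : (m.all es).Poly := by
  have h1 := pt_ents h.pt
  have h2 := pt_leafA
  refine Part.Poly.sum (tryP_poly (by fun_prop) ?_) h.part
  unfold opts
  fun_prop

theorem Pack.pt_run (h : m.Pack al es c Rs) : PT (m.run al es) := by
  have h1 : (m.en al es).Poly := ⟨h.poly,
    pt_sumElim (s := fun x : Cx × (Sta ⊕ m.X) => x.2) (by fun_prop) (by unfold hv; fun_prop)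
      (h.pal.comp (g := fun p : (Cx × (Sta ⊕ m.X)) × m.X => (p.1.1, p.2)) (by fun_prop)),
    PT.const _, PT.const _⟩
  unfold run hv
  exact En.pt_run h1 (by fun_prop) (by fun_prop) (by fun_prop) (by fun_prop) (by fun_prop)
    (by fun_prop)

theorem Pack.sound (h : m.Pack al es c Rs) (hc : cx.Ok) {φ k : ℕ} {f : Sta ⊕ m.X} {a : Ans}
    (p : m.pre cx f) (e : m.out al es cx B φ k f = some a) : m.post cx f a := by
  refine En.sound (k := (cx, B)) (Pre := m.pre cx) ?_ p e
  rintro (s | x) hp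
  · refine ((Part.Emb.refl _).inl _).snd (tryP_snd (fun a => leafA_post hp) fun _ q hq => ?_)
    obtain ⟨w, e, a, rfl⟩ := mem_opts hc hp hq
    exact h.ent e a cx s hc w
  · exact ((Part.Emb.refl _).inr _).snd (h.snd cx x hc hp)

theorem emb_halt {X T S : Type} [Enc X] [Enc T] [Enc S] {P : Part Cx (Sta ⊕ m.X) X T S Ans}
    (e : Part.Emb P (m.all es) (0 + 4)) {φ k a : ℕ} {x : X} {R : Option Ans → Prop}
    (ha : (m.en al es).al cx (e.f x) = a) (hB : 5 * B + 4 ≤ B') (h1 : 0 < k) (h2 : size x ≤ B)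
    (h3 : size (P.todo cx x) ≤ B) (h4 : prc (P.todo cx x).length a ≤ φ)
    (h5 : P.Loc cx B (m.out al es cx B' φ (k - 1))
      (m.out al es cx B' (φ - prc (P.todo cx x).length a) a) x R) :
    R (m.out al es cx B' φ k (e.f x)) := by
  have p : (m.en al es).cost (cx, B') (e.f x) = prc (P.todo cx x).length a := by
    rw [← ha, ← List.length_map e.t, ← e.todo]
    rfl
  have a1 := e.sf x
  have a2 := e.size_todo cx x
  refine En.halt one_pos h1 rfl (by change _ ≤ B'; omega)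
    (by change size ((m.all es).todo cx (e.f x)) ≤ B'; omega) (p ▸ h4) ?_
  rw [p, show (m.en al es).al (cx, B').1 (e.f x) = a from ha]
  exact (e.loc h5).more (by change _ ≤ B'; omega)

theorem Pack.env (h : m.Pack al es c Rs) (hc : cx.Ok) (hB : 5 * B + 4 ≤ B') :
    m.EnvA al cx B (m.out al es cx B') where
  snd _ _ _ _ p e := h.sound hc p e
  halt _ _ _ _ h1 h2 h3 h4 h5 :=
    emb_halt ((Part.Emb.refl m.part).inr (m.solve es)) rfl hB h1 h2 h3 h4 h5

theorem Pack.solve (h : m.Pack al es c Rs) (h9 : Rs.length = 12) (hc : cx.Ok)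
    (hB : 9 * cx.pd ^ 13 ≤ B) {φ : ℕ} (h0 : cx.WF0 s) (hs : cx.Sz s φ)
    (hw : leafA s = none → ∃ e ∈ es, m.out al es cx B φ cx.mE (.inr (e cx s)) ≠ none) :
    m.out al es cx B (φ + cx.c0) cx.mE (.inl s) ≠ none := by
  have w := hs.wf h0
  have o := opts_eq (m := m) (es := es) hc w
  have l9 : es.length = 12 := h.len.trans h9
  have p : prc ((m.solve es).todo cx s).length cx.mE = cx.c0 := by
    change prc (m.opts es cx s).length cx.mE = 2 * cx.lam + 9
    rw [prc_mE, o, List.length_map, l9, show (Nat.bits 12).length = 4 from rfl]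
    omega
  have z1 := size_sta hc h0 hs
  have z2 : 2 ^ 32 ≤ cx.pd := hc.nums.2.2.2.1.trans (peng_b1 hc)
  have z3 : cx.pd ^ 3 ≤ cx.pd ^ 13 := Nat.pow_le_pow_right (by omega) (by norm_num)
  have z4 : 1 ≤ cx.pd ^ 11 := Nat.one_le_pow _ _ (by omega)
  have z5 : cx.pd ^ 11 * 2 ^ 32 ≤ cx.pd ^ 13 := by
    rw [show cx.pd ^ 13 = cx.pd ^ 11 * (cx.pd * cx.pd) by ring]
    exact Nat.mul_le_mul_left _ (z2.trans (Nat.le_mul_self _))
  have z6 : size (m.opts es cx s) ≤ cx.pd ^ 13 := by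
    have := size_list_le (l := m.opts es cx s) (b := size s + 130) fun q hq => by
      obtain ⟨_, e, a, rfl⟩ := mem_opts hc h0 hq
      have := h.sz e a cx s
      have := size_bool false
      rw [size_pair, Part.size_inr]
      omega
    rw [o, List.length_map, l9, ← o] at this
    omega
  have z7 : ∀ φ k, ∀ q ∈ m.opts es cx s, size (m.out al es cx B φ k q.2) ≤ cx.pd ^ 13 :=
    fun φ k q hq => by
      obtain ⟨_, e, a, rfl⟩ := mem_opts hc h0 hq
      have := h.ent e a cx s hc w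
      exact (Cx.Post.size hc h0 fun a e => this.2 a (h.sound hc (f := .inr _) this.1 e)).trans z3
  refine emb_halt (B := cx.pd ^ 13) (R := (· ≠ none)) (x := s)
    ((Part.Emb.refl (m.solve es)).inl m.part) (hv_eq hc) (by omega) (Nat.two_pow_pos _)
    (by omega) z6 (by omega) ?_
  rw [p, Nat.add_sub_cancel]
  refine tryP_loc_paid ((Cx.Post.size hc h0 fun a => leafA_post h0).trans z3)
    (fun _ q hq => ⟨z7 _ _ q hq, z7 _ _ q hq⟩) fun e => ?_
  obtain ⟨e, a, b⟩ := hw e
  exact ⟨_, o ▸ List.mem_map_of_mem a, b⟩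

theorem Pack.rule (h : m.Pack al es c Rs) (h9 : Rs.length = 12) (hc : cx.Ok)
    (hB : cx.pd ^ (max c 13 + 1) ≤ B) {R : Rule} (hR : R ∈ Rs) {φ : ℕ} {v : Vw U Tm}
    (r : R cx.P (cx.Wn fun ψ s' => m.out al es cx B ψ cx.mE (.inl s')) φ v) :
    cx.Wn (fun ψ s' => m.out al es cx B ψ cx.mE (.inl s')) φ v := fun φ' h1 s h2 h3 h4 => by
  subst h4
  obtain ⟨e, a, b⟩ := h.win R hR
  have z := peng_room hc (by omega : c < max c 13 + 1) hB
  exact h.solve h9 hc (peng_room hc (by omega) hB).1 h2 h3 fun _ =>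
    ⟨e, a, b cx _ _ hc le_rfl (h.env hc (by omega)) φ φ' s h1 h2 h3 r⟩

theorem Pack.run_eq (hc : cx.Ok) {pad : List Unit} {φ : ℕ} (h1 : 2 ^ φ ≤ cx.pd)
    (h2 : cx.pd ^ 3 ≤ pad.length) : m.run al es (pad, φ, cx, s) =
      m.out al es cx (pad.length / 8) (φ + cx.c0) cx.mE (.inl s) := by
  have z0 := hc.lam
  have z2 : 2 ^ 32 ≤ cx.pd := hc.nums.2.2.2.1.trans (peng_b1 hc)
  have z1 : ∀ k, k ≤ 8 * cx.lam → 2 ^ k ≤ cx.pd := fun k e =>
    (Nat.pow_le_pow_right (by norm_num) e).trans hc.nums.1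
  have z3 : cx.mE + 2 ≤ 2 ^ (2 * cx.lam + 4) := by
    have : 2 ≤ cx.mE := Nat.le_self_pow (by omega) 2
    rw [pow_succ]
    exact (by omega : cx.mE + 2 ≤ cx.mE * 2)
  have z4 := z1 (2 * cx.lam + 4) (by omega)
  have z5 := z1 (cx.c0 + 1) (by unfold Cx.c0; omega)
  have z6 := (Nat.lt_two_pow_self (n := φ)).le.trans h1
  have z7 := (Nat.lt_two_pow_self (n := cx.c0 + 1)).le.trans z5
  have z8 : cx.pd * 2 ^ 32 ≤ cx.pd ^ 3 := by
    rw [show cx.pd ^ 3 = cx.pd * (cx.pd * cx.pd) by ring]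
    exact Nat.mul_le_mul_left _ (z2.trans (Nat.le_mul_self _))
  have z9 : 2 ^ (φ + cx.c0 + 1) ≤ cx.pd * cx.pd := by
    rw [add_assoc, pow_add]
    exact Nat.mul_le_mul h1 z5
  have z10 : cx.pd * cx.pd * 2 ^ 32 ≤ cx.pd ^ 3 := by
    rw [show cx.pd ^ 3 = cx.pd * cx.pd * cx.pd by ring]
    exact Nat.mul_le_mul_left _ z2
  unfold run
  rw [hv_eq hc]
  refine En.run_complete (le_trans ?_ h2) ?_
  · change 1 + 1 * ((cx.mE + 1) * 2 ^ (φ + cx.c0 + 1)) ≤ _
    have := Nat.mul_le_mul (z3.trans z4) z9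
    have := Nat.two_pow_pos (φ + cx.c0 + 1)
    rw [show cx.pd ^ 3 = cx.pd * (cx.pd * cx.pd) by ring]
    nlinarith
  · change 4 * 1 + 4 * (φ + cx.c0) + 4 * (2 ^ (φ + cx.c0) + cx.mE) + 3 * (pad.length / 8) + 30 ≤
      pad.length
    rw [pow_succ] at z9
    omega
end Mod

theorem eng_of (h1 : HasMod RUni) (h2 : HasMod RPin1) (h3 : HasMod RPin2) (h4 : HasMod RQuo1)
    (h5 : HasMod RRed0) (h6 : HasMod RRedE) (h7 : HasMod RRedJ) (h8 : HasMod RGiant)
    (h9 : HasMod RMark) (h10 : HasMod RCut) (h11 : ∀ i, HasModA (RBat i)) : ∃ run, EngSpec run := by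
  obtain ⟨m, al, es, c, h⟩ := Mod.exists_pack
    [RUni, RPin1, RPin2, RQuo1, RRed0, RRedE, RRedJ, RGiant, RMark, RCut, RBat true, RBat false]
    (by simp [h1.toA, h2.toA, h3.toA, h4.toA, h5.toA, h6.toA, h7.toA, h8.toA, h9.toA, h10.toA, h11])
  refine ⟨m.run al es, h.pt_run, fun pad φ cx s a hc h0 e => ?_, max c 13 + 2,
    fun pad φ cx s Φ hc h0 hs hp k1 k2 k3 => ?_⟩
  · exact h.sound hc (f := .inl s) h0 (En.run_sound e)
  have z := Mod.peng_room hc (Nat.lt_succ_self _) hp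
  have hB : cx.pd ^ (max c 13 + 1) ≤ pad.length / 8 := by omega
  have z2 : 2 ^ 32 ≤ cx.pd := hc.nums.2.2.2.1.trans (Mod.peng_b1 hc)
  rw [Mod.Pack.run_eq hc hs.f ((Nat.pow_le_pow_right (by omega) (by omega)).trans hp)]
  have R : Rules cx.P (cx.Wn fun ψ s' => m.out al es cx (pad.length / 8) ψ cx.mE (.inl s')) :=
    ⟨fun φ v _ a φ' _ s b1 b2 b3 => h.solve rfl hc (Mod.peng_room hc (by omega) hB).1 b1 b2
        fun e => absurd e (leafA_ne (b3 ▸ a)),
      fun φ v _ a b => h.rule rfl hc hB (R := RUni) (by simp) ⟨a, b⟩,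
      fun φ v p Q _ a b c d => h.rule rfl hc hB (R := RPin1) (by simp) ⟨p, Q, a, b, c, d⟩,
      fun φ v p Q _ a b c d => h.rule rfl hc hB (R := RPin2) (by simp) ⟨p, Q, a, b, c, d⟩,
      fun φ v p Q _ a b c d e => h.rule rfl hc hB (R := RQuo1) (by simp) ⟨p, Q, a, b, c, d, e⟩,
      fun φ v O _ a b c d => h.rule rfl hc hB (R := RRed0) (by simp) ⟨O, a, b, c, d⟩,
      fun φ v O A z z' _ a b c d e f g i j => h.rule rfl hc hB (R := RRedE) (by simp)
        ⟨O, A, z, z', a, b, c, d, e, f, g, i, j⟩,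
      fun φ v O C z y e _ a b c d f g i j k => h.rule rfl hc hB (R := RRedJ) (by simp)
        ⟨O, C, z, y, e, a, b, c, d, f, g, i, j, k⟩,
      fun φ v O w u _ a b c d e f g i j k => h.rule rfl hc hB (R := RGiant) (by simp)
        ⟨O, w, u, a, b, c, d, e, f, g, i, j, k⟩,
      fun φ v w u _ a b c d => h.rule rfl hc hB (R := RMark) (by simp) ⟨w, u, a, b, c, d⟩,
      fun φ v R p _ a b c d e => h.rule rfl hc hB (R := RCut) (by simp) ⟨R, p, a, b, c, d, e⟩,
      fun i φ v Z _ a b c => h.rule rfl hc hB (R := RBat i) (by cases i <;> simp) ⟨Z, a, b, c⟩⟩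
  exact game hc.p R cx.P.mm φ _ Φ (hs.wf h0).view_ok (by linarith) k1 k2 k3 φ le_rfl s h0 hs rfl

end Pool.Agent.P.MP_f1a348_lc.GX
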