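import Pool.Agent.P.MP_f1a348_lc.GY.DefsP
import Pool.Agent.P.MP_f1a348_lc.GX.LibInc
import Pool.Agent.P.MP_f1a348_lc.GY.LibF
import Pool.Agent.P.MP_f1a348_lc.GY.TPNUM
import Pool.Agent.P.MP_f1a348_lc.GY.TVORB
import Pool.Agent.P.MP_f1a348_lc.GX.THH
import Pool.Agent.P.MP_f1a348_lc.GY.TLV

/-! Step PST0. -/

set_option autoImplicit false
set_option linter.unusedSectionVars false

namespace Pool.Agent.P.MP_f1a348_lc.GX

open Pool.Agent.Lib.Helper47 Pool.Agent.P.MP_f1a348_lc.GI Pool.Agent.P.MP_f1a348_lc.TO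
variable {cx : Cx} {s s' s'' : Sta}

namespace PST0x

theorem arc_inj : Function.Injective arcT := fun e f h => by
  simp only [arcT, Tm.pr_inj, Tm.at_inj] at h
  exact Prod.ext h.1 h.2

theorem smul_arc (g : U) (a b : ℕ) : g • arcT (a, b) = arcT (g.app a, g.app b) := by
  simp [arcT]

theorem mem_dom {n : ℕ} {x : Tm} : x ∈ dom0 (List.range n) ↔
    (∃ a, a < n ∧ x = Tm.atm a) ∨ ∃ a b, a < n ∧ b < n ∧ x = arcT (a, b) := by
  simp only [dom0, List.mem_append, List.mem_map, List.mem_range, mem_prodL]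
  refine or_congr ⟨fun ⟨a, h, e⟩ => ⟨a, h, e.symm⟩, fun ⟨a, h, e⟩ => ⟨a, h, e.symm⟩⟩
    ⟨fun ⟨e, h, k⟩ => ⟨e.1, e.2, h.1, h.2, k.symm⟩, fun ⟨a, b, h1, h2, k⟩ => ⟨(a, b), ⟨h1, h2⟩, k.symm⟩⟩

theorem nd_dom (n : ℕ) : (dom0 (List.range n)).Nodup := by
  refine List.Nodup.append (List.nodup_range.map Tm.at_injective)
    ((nodup_prodL List.nodup_range List.nodup_range).map arc_inj) fun x h1 h2 => ?_
  obtain ⟨a, -, rfl⟩ := List.mem_map.1 h1
  obtain ⟨e, -, k⟩ := List.mem_map.1 h2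
  have := congrArg Tm.isAt k
  simp [arcT] at this

theorem len_dom (V : List ℕ) : (dom0 V).length = V.length + V.length * V.length := by
  simp [dom0, length_prodL]

theorem smul_dom {n : ℕ} {g : U} (hg : g ∈ SymN n) {x : Tm} (hx : x ∈ dom0 (List.range n)) :
    g • x ∈ dom0 (List.range n) := by
  rcases mem_dom.1 hx with ⟨a, h, rfl⟩ | ⟨a, b, h1, h2, rfl⟩
  · exact mem_dom.2 (Or.inl ⟨_, (SymN.lt hg).2 h, Tm.smul_at _ _⟩)
  · exact mem_dom.2 (Or.inr ⟨_, _, (SymN.lt hg).2 h1, (SymN.lt hg).2 h2, smul_arc _ _ _⟩)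

theorem swap_mem {n a b : ℕ} (ha : a < n) (hb : b < n) : FP.swap a b ∈ SymN n := fun c hc => by
  rw [FP.app_swap]
  exact Equiv.swap_apply_of_ne_of_ne (by omega) (by omega)

theorem ex_sw {n : ℕ} {f : ℕ → ℕ} (h1 : ∀ a, a < n → ∀ b, b < n → f a = f b → a = b)
    (h2 : ∀ a, a < n → f a < n) :
    ∃ π ∈ gen ((prodL (List.range n) (List.range n)).map (fun e => FP.swap e.1 e.2)),
      ∀ a, a < n → π.app a = f a := by
  obtain ⟨π, p1, p2⟩ := exists_swaps (A := List.range n) (k := fun _ => (0 : ℕ)) (f := f)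
    (fun a ha b hb => h1 a (List.mem_range.1 ha) b (List.mem_range.1 hb))
    (fun a ha => ⟨List.mem_range.2 (h2 a (List.mem_range.1 ha)), rfl⟩)
  refine ⟨π, gen_mono (fun x hx => ?_) p1, fun a ha => p2 a (List.mem_range.2 ha)⟩
  obtain ⟨a, ha, b, hb, -, rfl⟩ := mem_swaps.1 hx
  exact List.mem_map.2 ⟨(a, b), mem_prodL.2 ⟨ha, hb⟩, rfl⟩

theorem orb_le {n a : ℕ} {K : Subgroup U} (hK : K ≤ SymN n) (ha : a < n) (D : Finset Tm) :
    (orb K D (Tm.atm a)).card ≤ n := by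
  have : orb K D (Tm.atm a) ⊆ (Finset.range n).image Tm.atm := fun y hy => by
    obtain ⟨-, h, h1, rfl⟩ := mem_orb.1 hy
    exact Finset.mem_image.2 ⟨h.app a, Finset.mem_range.2 ((SymN.lt (hK h1)).2 ha),
      (Tm.smul_at _ _).symm⟩
  exact (Finset.card_le_card this).trans (Finset.card_image_le.trans (by simp))

theorem lgm {m n : ℕ} (h : m ≤ n) : 12289 * lg m ≤ 12289 * lg n := by
  rcases Nat.eq_zero_or_pos m with rfl | h0
  · have := HHx.lg0 n
    have e : lg 0 = 0 := by simp [lg]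
    rw [e]; linarith
  · have := HHx.lg_le h0 h
    linarith

theorem arc_lt {n : ℕ} {E : List (ℕ × ℕ)} (hE : E.Sublist (prodL (List.range n) (List.range n)))
    {e : ℕ × ℕ} (he : e ∈ E) : e.1 < n ∧ e.2 < n := by
  have := mem_prodL.1 (hE.subset he)
  exact ⟨List.mem_range.1 this.1, List.mem_range.1 this.2⟩

end PST0x

open PST0x

theorem pt_st0 : PT (fun x : List ℕ × List (ℕ × ℕ) × List (ℕ × ℕ) => st0 x.1 x.2.1 x.2.2) := by
  unfold st0 dom0 arcT
  fun_prop

theorem gen_st0 (n : ℕ) (E F : List (ℕ × ℕ)) : gen (st0 (List.range n) E F).S = SymN n := by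
  have h1 : gen (st0 (List.range n) E F).S ≤ SymN n := gen_le.2 fun g hg => by
    obtain ⟨e, he, rfl⟩ := List.mem_map.1 hg
    have := mem_prodL.1 he
    exact swap_mem (List.mem_range.1 this.1) (List.mem_range.1 this.2)
  refine le_antisymm h1 fun g hg => ?_
  obtain ⟨π, p1, p2⟩ := ex_sw (n := n) (f := g.app) (fun a _ b _ e => g.app_injective e)
    (fun a ha => (SymN.lt hg).2 ha)
  have : π = g := FP.ext fun a => by
    rcases lt_or_ge a n with h | h
    · exact p2 a h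
    · rw [hg a h, h1 p1 a h]
  exact this ▸ p1

theorem st0_wf (hc : cx.Ok) {E F : List (ℕ × ℕ)} (hE : E.Sublist (prodL cx.base cx.base))
    (hF : F.Sublist (prodL cx.base cx.base)) : cx.WF0 (st0 cx.base E F) := by
  have hn : cx.base.length = cx.n := rfl
  have hp : cx.n ^ 2 ≤ cx.pd := hc.pow hc.nums.2.2.2.2.1 (by have := hc.nums.2.2.2.2.2.1; omega)
  rw [hc.base] at hE hF ⊢
  have hg := gen_st0 cx.n E F
  have sd : cx.Side (List.range cx.n).length 1 (dom0 (List.range cx.n))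
      (dom0 (List.range cx.n), []) :=
    ⟨nd_dom _, fun x hx => by simpa using hx, fun y hy => Or.inl (by simpa using hy),
      fun e he => by simp at he⟩
  have xd : ∀ G : List (ℕ × ℕ), G.Sublist (prodL (List.range cx.n) (List.range cx.n)) →
      ∀ x ∈ G.map arcT, x ∈ dom0 (List.range cx.n) := fun G hG x hx => by
    obtain ⟨e, he, rfl⟩ := List.mem_map.1 hx
    exact mem_dom.2 (Or.inr ⟨_, _, (arc_lt hG he).1, (arc_lt hG he).2, rfl⟩)
  refine ⟨one_mem _, fun g h => hg ▸ mem_gen h, ?_, nd_dom _, fun x hx => ?_,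
    fun g h x hx => smul_dom (hg ▸ h) hx,
    (hE.nodup (nodup_prodL List.nodup_range List.nodup_range)).map arc_inj,
    (hF.nodup (nodup_prodL List.nodup_range List.nodup_range)).map arc_inj,
    xd E hE, fun y hy => ?_, ?_, sd, sd⟩
  · show (List.map _ _).length ≤ _
    rw [List.length_map, length_prodL, List.length_range, ← sq]
    exact hp
  · rcases mem_dom.1 hx with ⟨a, h, rfl⟩ | ⟨a, b, h1, h2, rfl⟩
    · exact Tm.ab_at.2 h
    · exact Tm.ab_pr.2 ⟨Tm.ab_at.2 h1, Tm.ab_at.2 h2⟩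
  · show (1 : U)⁻¹ • y ∈ dom0 (List.range cx.n)
    rw [inv_one, one_smul]
    exact xd F hF y hy
  · show cx.n ≤ (List.range cx.n).length
    simp

/- no labels: Tgt = Sol -/
theorem st0_post (hc : cx.Ok) {E F : List (ℕ × ℕ)} (hE : E.Sublist (prodL cx.base cx.base))
    (hF : F.Sublist (prodL cx.base cx.base)) {a : Ans} (ha : cx.Post (st0 cx.base E F) a) :
    a.isSome = true ↔ ∃ φ, DIso φ cx.base E cx.base F := by
  rw [hc.base] at hE hF ha ⊢
  generalize cx.n = n at hE hF ha ⊢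
  have hg := gen_st0 n E F
  have hc : ∀ g : U, g ∈ cs (some (st0 (List.range n) E F).c) ↔ g ∈ SymN n := fun g => by
    rw [← hg]
    show g ∈ cs (some ((1 : U), (st0 (List.range n) E F).S)) ↔ _
    rw [mem_cs, inv_one, one_mul]
  constructor
  · intro h
    obtain ⟨⟨σ, S⟩, rfl⟩ := Option.isSome_iff_exists.1 h
    obtain ⟨h1, h2⟩ := ha.hi (self_mem_cs σ S)
    have h3 := (hc σ).1 h1
    refine ⟨σ.app, ⟨fun a ha => List.mem_range.2 ((SymN.lt h3).2 (List.mem_range.1 ha)),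
      σ.app_injective.injOn, fun b hb => ⟨σ⁻¹.app b,
        List.mem_range.2 ((SymN.lt (inv_mem h3)).2 (List.mem_range.1 hb)), FP.app_app_inv _ _⟩⟩,
      fun u _ v _ => ?_⟩
    have h4 : arcT (u, v) ∈ E.map arcT ↔ σ • arcT (u, v) ∈ F.map arcT := h2 _
    rwa [smul_arc, List.mem_map_of_injective arc_inj, List.mem_map_of_injective arc_inj] at h4
  · rintro ⟨φ, h1, h2⟩
    obtain ⟨π, p1, p2⟩ := ex_sw (n := n) (f := φ)
      (fun a ha b hb e => h1.injOn (List.mem_range.2 ha) (List.mem_range.2 hb) e)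
      (fun a ha => List.mem_range.1 (h1.mapsTo (List.mem_range.2 ha)))
    have p3 : π ∈ SymN n := hg ▸ p1
    have h3 : π ∈ (st0 (List.range n) E F).Tgt := by
      refine ⟨fun x => π • x, ⟨(hc π).2 p3, fun x => ?_⟩,
        ⟨⟨fun x hx => smul_dom p3 hx, (MulAction.injective π).injOn,
          fun y hy => ⟨π⁻¹ • y, smul_dom (inv_mem p3) hy, smul_inv_smul _ _⟩⟩,
          fun m l _ => ⟨fun k => (List.not_mem_nil k).elim, fun k => (List.not_mem_nil k).elim⟩⟩,
        fun _ _ => rfl⟩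
      show x ∈ E.map arcT ↔ π • x ∈ F.map arcT
      constructor
      · intro hx
        obtain ⟨⟨u, v⟩, he, rfl⟩ := List.mem_map.1 hx
        obtain ⟨k1, k2⟩ := arc_lt hE he
        rw [smul_arc, p2 u k1, p2 v k2]
        exact List.mem_map_of_mem ((h2 u (List.mem_range.2 k1) v (List.mem_range.2 k2)).1 he)
      · intro hx
        obtain ⟨⟨u, v⟩, he, k⟩ := List.mem_map.1 hx
        obtain ⟨k1, k2⟩ := arc_lt hF he
        have k3 := (SymN.lt (inv_mem p3)).2 k1
        have k4 := (SymN.lt (inv_mem p3)).2 k2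
        rw [← inv_smul_eq_iff.2 k, smul_arc]
        refine List.mem_map_of_mem ((h2 _ (List.mem_range.2 k3) _ (List.mem_range.2 k4)).2 ?_)
        rw [← p2 _ k3, ← p2 _ k4, FP.app_app_inv, FP.app_app_inv]
        exact he
    have h4 := ha.lo h3
    cases a with
    | none => simp at h4
    | some _ => rfl

theorem st0_sz (hc : cx.Ok) (E F : List (ℕ × ℕ)) {φ : ℕ} (h1 : 7 * 2 ^ φ ≤ cx.pd)
    (h2 : cx.n + cx.n * cx.n + cx.n * φ ≤ cx.b1) (h3 : φ + 1 ≤ cx.b1) :
    cx.Sz (st0 cx.base E F) φ := by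
  obtain ⟨-, -, n3, n4, n5, -⟩ := hc.nums
  have n6 : 2 ^ cx.lam ≤ cx.pd := PNUMx.lam_le hc
  have n7 : cx.b1 ≤ cx.pd := ((Nat.le_mul_self _).trans n3).trans n6
  have n8 : cx.n ≤ cx.pd ^ 2 := (n5.trans n6).trans (by rw [sq]; exact Nat.le_mul_self _)
  have n9 : cx.pd ^ 2 * (φ + 1) ≤ cx.pd ^ 3 := by
    rw [pow_succ cx.pd 2]
    exact Nat.mul_le_mul_left _ (h3.trans n7)
  have n10 : cx.b1 * (φ + 1) ≤ 2 ^ cx.lam := (Nat.mul_le_mul_left _ h3).trans n3
  have hl : (dom0 cx.base).length = cx.n + cx.n * cx.n := len_dom _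
  rw [Nat.mul_add_one] at n9 n10
  have sz : cx.SzS φ (dom0 cx.base, []) := by
    refine ⟨?_, fun t ht => ?_, ?_, fun e he => (List.not_mem_nil he).elim⟩
    · show (dom0 cx.base).length + _ ≤ _
      omega
    · refine le_trans (Nat.mul_le_mul_right _ ?_) h1
      rw [hc.base] at ht
      rcases mem_dom.1 ht with ⟨a, h, rfl⟩ | ⟨a, b, -, -, rfl⟩
      · simp
      · simpa [arcT] using Tm.wt_pr (Tm.atm a) (Tm.atm b)
    · show 0 + _ ≤ _
      omega
  refine ⟨by omega, ?_, ?_, sz, sz, ?_, fun I hI => (List.not_mem_nil hI).elim⟩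
  · show (dom0 cx.base).length + _ ≤ _
    omega
  · show cx.n + _ ≤ _
    omega
  · show 0 + _ ≤ _
    omega

/- the flag of the arc (u, v) is [atm u, atm v]; orbits of atoms consist of atoms, so they have at
most n points; Good by its first alternative; LV and lg are monotone -/
theorem st0_pt (hc : cx.Ok) {E F : List (ℕ × ℕ)} (hE : E.Sublist (prodL cx.base cx.base)) :
    ∀ w ∈ (cx.view (st0 cx.base E F)).X, (cx.view (st0 cx.base E F)).Pt cx.P w (Phi0 cx.P cx.n) := by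
  rw [hc.base] at hE ⊢
  intro w hw
  obtain ⟨⟨u, v⟩, he, rfl⟩ := List.mem_map.1 (List.mem_toFinset.1 hw)
  obtain ⟨k1, k2⟩ := arc_lt hE he
  have hg : (cx.view (st0 (List.range cx.n) E F)).H ≤ SymN cx.n := (gen_st0 cx.n E F).le
  have hD : ∀ a, a < cx.n → Tm.atm a ∈ (cx.view (st0 (List.range cx.n) E F)).D := fun a ha =>
    List.mem_toFinset.2 (mem_dom.2 (Or.inl ⟨a, ha, rfl⟩))
  generalize cx.view (st0 (List.range cx.n) E F) = V at hg hD ⊢
  have o1 := orb_le hg k1 V.D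
  have o2 := orb_le (K := V.H ⊓ MulAction.stabilizer U (Tm.atm u)) (inf_le_left.trans hg) k2 V.D
  refine ⟨[Tm.atm u, Tm.atm v], ⟨hD u k1, cx.n, 12289 * lg cx.n, 12289 * lg cx.n, o1, le_rfl,
    Or.inl (lgm o1), Or.inl (lgm ((Finset.card_le_card Finset.inter_subset_left).trans o1)),
    hD v k2, cx.n, 12289 * lg cx.n, 12289 * lg cx.n, o2, le_rfl, Or.inl (lgm o2),
    Or.inl (lgm ((Finset.card_le_card Finset.inter_subset_left).trans o2)), ?_⟩,
    fun h hh => ?_, fun z hz K _ Q _ _ k => k.mono (le_inf le_rfl fun h hh => ?_)⟩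
  · have a1 := cx.P.LV_mono (m := cx.n) o1 (le_refl (12289 * lg cx.n)) (le_refl (12289 * lg cx.n))
    have a2 := cx.P.LV_mono (m := cx.n) o2 (le_refl (12289 * lg cx.n)) (le_refl (12289 * lg cx.n))
    show 0 ≤ _
    unfold Phi0
    linarith
  · have h1 := mem_fixF.1 hh.2 (Tm.atm u) (by simp)
    have h2 := mem_fixF.1 hh.2 (Tm.atm v) (by simp)
    show h • arcT (u, v) = arcT (u, v)
    simp only [arcT, Tm.smul_pr, h1, h2]
  · have h1 : h • arcT (u, v) = arcT (u, v) := hh.2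
    simp only [arcT, Tm.smul_pr, Tm.pr_inj] at h1
    show h • z = z
    rcases List.mem_pair.1 hz with rfl | rfl
    · exact h1.1
    · exact h1.2

end Pool.Agent.P.MP_f1a348_lc.GX
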