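import Pool.Agent.P.MP_f1a348_lc.GY.DefsP
import Pool.Agent.P.MP_f1a348_lc.GX.LibInc
import Pool.Agent.P.MP_f1a348_lc.GY.LibF
import Pool.Agent.P.MP_f1a348_lc.GY.TMVMOD
import Pool.Agent.P.MP_f1a348_lc.GY.TMPIN1
import Pool.Agent.P.MP_f1a348_lc.GY.TMPIN2
import Pool.Agent.P.MP_f1a348_lc.GY.TMQUO1
import Pool.Agent.P.MP_f1a348_lc.GY.TMLV
import Pool.Agent.P.MP_f1a348_lc.GY.TMBAT
import Pool.Agent.P.MP_f1a348_lc.GY.TMMARK
import Pool.Agent.P.MP_f1a348_lc.GY.TMCUT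
import Pool.Agent.P.MP_f1a348_lc.GY.TMRED0
import Pool.Agent.P.MP_f1a348_lc.GY.TMREDE
import Pool.Agent.P.MP_f1a348_lc.GY.TMREDJ
import Pool.Agent.P.MP_f1a348_lc.GY.TMUNI
import Pool.Agent.P.MP_f1a348_lc.GY.TMGIANT
import Pool.Agent.P.MP_f1a348_lc.GY.TPENG
import Pool.Agent.P.MP_f1a348_lc.GY.TPMAIN

/-! Step PTOP. -/

set_option autoImplicit false
set_option linter.unusedSectionVars false

namespace Pool.Agent.P.MP_f1a348_lc.GX

open Pool.Agent.Lib.Helper47 Pool.Agent.P.MP_f1a348_lc.GI Pool.Agent.P.MP_f1a348_lc.TO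

theorem gi_final : FINAL := by
  obtain ⟨run, h⟩ := eng_of mod_uni mv_pin1.mod mv_pin2.mod mv_quo1.mod mv_red0.mod
    mv_redE.mod mv_redJ.mod mod_giant mv_mark.mod mod_cut fun i => mod_bat (lv_pin i) (lv_quo i)
  obtain ⟨c, mn, hm⟩ := main_of h
  exact final_of hm

end Pool.Agent.P.MP_f1a348_lc.GX
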