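import Pool.Agent.P.MP_f1a348_lc.GY.DefsV
import Pool.Agent.P.MP_f1a348_lc.GX.TSYS
import Pool.Agent.P.MP_f1a348_lc.GX.TGOOD
import Pool.Agent.P.MP_f1a348_lc.GX.THH
import Pool.Agent.P.MP_f1a348_lc.GY.TLV
import Pool.Agent.P.MP_f1a348_lc.GX.TCONN
import Pool.Agent.P.MP_f1a348_lc.GY.TVORB
import Pool.Agent.P.MP_f1a348_lc.GY.TVGOOD
import Pool.Agent.P.MP_f1a348_lc.GY.TZG
import Pool.Agent.P.MP_f1a348_lc.GY.TVCH
import Pool.Agent.P.MP_f1a348_lc.GY.TVSURG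
import Pool.Agent.P.MP_f1a348_lc.GY.TVARI

/-! Step VEQ2. -/

set_option autoImplicit false
set_option linter.unusedSectionVars false

namespace Pool.Agent.P.MP_f1a348_lc.GX

open Equiv Finset MulAction
open scoped Classical
variable {G Y : Type} [Group G] [MulAction G Y] [DecidableEq Y] {P : Pm} {H H' K K' : Subgroup G}
  {D D' : Finset Y} {Γ Γ' : Sy Y} {v v' : Vw G Y} {W : ℕ → Vw G Y → Prop}
  {U1 U2 U1' U2' Fo Fo' : Finset Y → Prop}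

/- Rule redE with O = A. -/
theorem eq2 (hP : P.Ok) (R : Rules P W) {n φ c m : ℕ} {Φ Φ' n1 n2 : ℝ} (ih : IH P W n)
    (hb : Bud P n φ Φ) (hc : c ≤ 1024 * P.g) (a : v.Ok P) (hX : v.X.Nonempty) {O : Finset Y}
    (h : v.Hd P O m n1 n2 Φ' Φ) (hg : Giant v.H O) (hO : v.Γ.Cls O) (he : v.Γ.Equi O) :
    W (φ - c) v := by
  obtain ⟨z, hz, z', hz', hne, hn⟩ := he
  have h0 := (h.nonneg hX).2.2.2
  have h2 : ((c + P.g * 3 : ℕ) : ℝ) ≤ P.unit * (1 : ℝ) := by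
    have := Pm.g_le (P := P)
    rw [mul_one]
    exact_mod_cast (by omega : c + P.g * 3 ≤ P.unit)
  have h3 : c + P.g * 3 ≤ φ := hb.cost (γ := 1) (by linarith) h2
  have hM : 3 ≤ v.Γ.M := by
    have := hP.m1
    rw [a.lev]
    omega
  refine R.redE (φ - c) v O O z z' a h.o hg (h.am.trans h.n) hO Subset.rfl hz hz' (by omega)
    fun v' b a' mo _ nw hbb => ?_
  rw [Nat.sub_sub]
  refine ih.use hb le_rfl h2 h3 a' fun w hw => ?_
  obtain ⟨u, hu, tl, g2⟩ := h.tl w (mo.x hw)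
  obtain ⟨f, f1, f2, f3, f4⟩ := Sy.blks hM hO hz hz' hne hn hbb
  have := (tl.mono a a' mo).split hP a' (h.o.2.1.trans mo.d) hu nw f1 f2 f3.le h.am h.n f4
    (h.g1.mono Subset.rfl (mo.ref1 a a') le_rfl mo.u1)
    (g2.mono (fun y hy => mem_inter.2 ⟨(mem_inter.1 hy).1,
      hO.eq_cls hu ▸ (mem_inter.1 hy).1⟩) mo.ref le_rfl mo.f2)
  exact this.mono a' a' Vw.Mono.refl (by linarith [h.sum])

end Pool.Agent.P.MP_f1a348_lc.GX
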