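import Pool.Agent.P.MP_f1a348_lc.GY.DefsV
import Pool.Agent.P.MP_f1a348_lc.GX.TSYS
import Pool.Agent.P.MP_f1a348_lc.GX.TGOOD
import Pool.Agent.P.MP_f1a348_lc.GX.THH
import Pool.Agent.P.MP_f1a348_lc.GY.TLV
import Pool.Agent.P.MP_f1a348_lc.GY.TVORB
import Pool.Agent.P.MP_f1a348_lc.GY.TVGOOD
import Pool.Agent.P.MP_f1a348_lc.GY.TZG
import Pool.Agent.P.MP_f1a348_lc.GY.TVCH
import Pool.Agent.P.MP_f1a348_lc.GY.TVARI
import Pool.Agent.P.MP_f1a348_lc.GY.TVLOOP
import Pool.Agent.P.MP_f1a348_lc.GY.TVEQ1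
import Pool.Agent.P.MP_f1a348_lc.GY.TVS1B
import Pool.Agent.P.MP_f1a348_lc.GY.TVS1C
import Pool.Agent.P.MP_f1a348_lc.GY.TVBIG
import Pool.Agent.P.MP_f1a348_lc.GY.LibEnd

/-! Step VS1. -/

set_option autoImplicit false
set_option linter.unusedSectionVars false

namespace Pool.Agent.P.MP_f1a348_lc.GX

open Equiv Finset MulAction
open scoped Classical
variable {G Y : Type} [Group G] [MulAction G Y] [DecidableEq Y] {P : Pm} {H H' K K' : Subgroup G}
  {D D' : Finset Y} {Γ Γ' : Sy Y} {v v' : Vw G Y} {W : ℕ → Vw G Y → Prop}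
  {U1 U2 U1' U2' Fo Fo' : Finset Y → Prop}

/-- the step for the system of the orbits -/
theorem s1 (hP : P.Ok) (R : Rules P W) {n φ c m : ℕ} {Φ Φ' n1 n2 : ℝ} (ih : IH P W n)
    (hb : Bud P n φ Φ) (hc : c ≤ 4 * P.g) (a : v.Ok P) (hX : v.X.Nonempty) {A : Finset Y}
    (h : v.Hd P A m n1 n2 Φ' Φ) {Q : Y → Y → Prop} (hr : v.Hr P Q A m n2 Φ') (h2 : 2 ≤ A.card)
    (hF : v.F1 A) (hT : ¬ (P.t0 ≤ A.card ∧ (v.Γ1 P).Tr A (ta A.card))) : W (φ - c) v := by
  have h0 : 0 ≤ Φ := (h.nonneg hX).2.2.2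
  obtain ⟨p1, p2⟩ := ENDx.pay hb h0
  have hAD : A ⊆ v.D := h.o.2.1
  have hAi : InvF v.H A := h.o.inv a
  obtain ⟨ν0, Z, z1, z2, z3, z4, z5, z6⟩ := ENDx.start h.g1 ⟨hF, hAi⟩ subset_rfl h.am
  refine R.bat true _ v Z a z3 (by omega) (loop (i := true) hP a (a.cls_iff.2 h.o) h2 h.am h.n z3 z4
    z5 z2 z6 hT (by omega) fun v' c' a' mo _ hc' e => ?_)
  rw [Nat.sub_sub, Nat.sub_sub]
  have os : ∀ u ∈ A, v'.o u ⊆ A := fun u hu => orb_sub (hAi.mono mo.h) hu
  have oc : ∀ u ∈ A, (v'.Γ1 P).Cls (v'.o u) := fun u hu => a'.cls_iff.2 (a'.isO (mo.d (hAD hu)))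
  rcases e with e | ⟨A', s, cA, big, un, Z', ν, hν, u', z', g', e⟩
  · refine ih.use hb le_rfl (p2 _ (by omega)) (by omega) a' fun w hw => ?_
    obtain ⟨u, hu, t, g⟩ := h.tl w (mo.x hw)
    rcases e _ (os u hu) (oc u hu) with d | ⟨γ, l, g1⟩
    · exact ENDx.drop h a a' mo hu t g subset_rfl (os u hu) d
    · have k := ENDx.gain1 (P := P) (a := A.card) (n2 := n2) l z1
      have hs := h.sum
      exact ((t.mono a a' mo).head a' (mo.d (hAD hu)) (card_le_card (os u hu)) h.am h.n g1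
        (ENDx.g2 mo (a.dd (hAD hu)) g (os u hu))).mono a' a' Vw.Mono.refl (by linarith)
  · have oA : v'.IsO A' := a'.cls_iff.1 cA
    refine ENDx.cut R ih hb h0 (by omega) a' (hr.mono a a' mo hAD subset_rfl
      fun w hw => hr.ex w (mo.x hw)) (hAD.trans mo.d) s oA (fun v'' a'' sm hX' hr' => ?_)
      fun v'' a'' mo' w hw u hu n q => ?_
    · have eΓ : v''.Γ1 P = v'.sy P true := sm.Γ1
      have hd : v''.Hd P A' m ν n2 Φ' Φ := by
        refine ⟨sm.isO oA, (card_le_card s).trans h.am, h.n, ?_,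
          fun w hw => (hr'.ex w hw).imp fun u q => ⟨q.1, hr'.tl w hw u q.1 q.2⟩, ?_⟩
        · rw [eΓ]
          exact g'.toU (sm.mono.u1 _ u') z'
        · have := Pm.LV_mono (P := P) (m := m) (card_le_card s) (hν.trans z1) (le_refl n2)
          have := h.sum
          linarith
      rw [← eΓ] at e
      rcases e with e | e | e | e
      · exact eq1 hP R ih hb (by omega) a'' hX' hd e
      · exact s1_kill hP R ih hb (by omega) a'' hX' hd (by omega) e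
      · exact s1_john hP ih hb (by omega) a'' hX' hd e
      · exact s1_big hP R ih hb (by omega) a'' hX' hd le_rfl (sm.mono.u1 _ u') z' e
    · obtain ⟨t, g⟩ := hr.tl w (mo.x hw) u hu q
      rcases un _ (os u hu) (oc u hu) with k | d
      · exact absurd (k ▸ self_mem_orb (mo.d (hAD hu))) n
      · exact ENDx.drop h a a'' (mo.trans mo') hu t g
          (orb_mono a'.inv mo'.h (mo.d (hAD hu))) (os u hu) d

end Pool.Agent.P.MP_f1a348_lc.GX
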